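import Pool.Agent.W_MP_d1f192_an.B2c

section PartB3a

/-! # B3a. Passing through a window: `g'` gains `K` iterates on `g` -/

open MeasureTheory Set Filter Topology

namespace MPd1f192

noncomputable section

/-- `(u,s)` hits the window of half-width `η` (and stable half-height `1`) around `(uW,sW)` at block
`n`, i.e. `A^n (u,s)` is in the window modulo the lattice. -/
def Hit (uW sW η : ℝ) (n : ℤ) (u s : ℝ) : Prop :=
  ∃ a b : ℤ, |lam ^ n * u + (a + b * lam) - uW| ≤ η ∧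
    |lam ^ (-n) * s + (a + b * lam⁻¹) - sW| ≤ 1

namespace LeafSystem

/-- Upper bound for the passage time `T` in the window. -/
theorem window_upper (L : LeafSystem) : ∃ D : ℝ, 0 ≤ D ∧ ∀ (T N : ℕ) (uW sW r₀ u s : ℝ),
    0 ≤ r₀ → L.it T uW sW r₀ < N + 1 → |u - uW| ≤ lam ^ (-(N : ℤ)) → |s - sW| ≤ 1 →
    L.X T u s ≤ N + D := by
  have hC := L.one_le_C
  have hl := lam_gt
  have hCl : 0 ≤ L.C * lam := mul_nonneg (by linarith only [hC]) lam_pos.le
  refine ⟨L.C * lam + 12 * L.C + 3, by linarith only [hC, hCl], ?_⟩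
  intro T N uW sW r₀ u s hr0 hT hu hs
  have h1 : L.X T uW sW ≤ L.it T uW sW r₀ := by
    rw [X_eq_it]
    exact L.it_mono T uW sW hr0
  have h2 := L.X_close_u T (N : ℤ) 0 uW u sW (by push_cast; linarith only [hT, h1])
    (by rw [pow_zero, mul_one, abs_sub_comm]; exact hu)
  rw [zero_add, pow_one] at h2
  have h3 := L.X_close_s T u sW s (by rw [abs_sub_comm]; exact hs)
  have h4 := (abs_le.mp h2).2
  have h5 := (abs_le.mp h3).2
  linarith only [hT, h1, h4, h5]

/-- Lower bound for the passage in the window. -/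
theorem window_lower (L : LeafSystem) : ∃ D : ℝ, 0 ≤ D ∧ ∀ (T N : ℕ) (uW sW r₀ u s : ℝ),
    0 ≤ r₀ → r₀ ≤ 1 → N ≤ L.it T uW sW r₀ → |u - uW| ≤ lam ^ (-(N : ℤ)) → |s - sW| ≤ 1 →
    N - D ≤ L.X T u s := by
  have hC := L.one_le_C
  have hl := lam_gt
  have hCl : 0 ≤ L.C * lam := mul_nonneg (by linarith only [hC]) lam_pos.le
  refine ⟨L.C * lam + 12 * L.C + 6, by linarith only [hC, hCl], ?_⟩
  intro T N uW sW r₀ u s hr0 hr1 hT hu hs
  have hN : (0 : ℝ) ≤ N := Nat.cast_nonneg N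
  obtain ⟨i, hi, hi1, hi2⟩ := L.it_first T uW sW r₀ N (by linarith only [hr1]) hT
  have h1 := L.shadow_u i (N : ℤ) 2 uW u sW r₀ (by norm_num)
    (by rw [abs_sub_comm]; exact hu) (by push_cast; linarith only [hi2]) i le_rfl
  rw [Nat.sub_self, pow_zero, mul_one] at h1
  have h22 : ((2 : ℝ) / 2) = 1 := by norm_num
  rw [h22, Real.rpow_one] at h1
  have h2 := L.it_close_s i u sW s r₀ (by rw [abs_sub_comm]; exact hs) hr0
  have h3 : L.it i u s r₀ ≤ L.it T u s r₀ := by
    have h := L.it_add i (T - i) u s r₀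
    rw [Nat.add_sub_cancel' hi] at h
    rw [h]
    have h' := L.it_ge (T - i) u s (L.it i u s r₀)
    have h'' : (0 : ℝ) ≤ (9 / 10) * ((T - i : ℕ) : ℝ) := by positivity
    linarith only [h']
  have h4 := L.it_near T u s 0 r₀
  have h5 : |0 - r₀| ≤ 1 := by
    rw [zero_sub, abs_neg, abs_of_nonneg hr0]
    exact hr1
  have h6 := (abs_le.mp h1).1
  have h7 := (abs_le.mp h2).1
  have h8 := (abs_le.mp h4).1
  rw [X_eq_it]
  linarith only [hi1, h3, h5, h6, h7, h8]

/-- If a point hits the window at block `n` and has passed it before time `m`, then `g'` needs `K`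
steps less than `g`. -/
theorem window_gain {L L' : LeafSystem} (hLL' : ∀ u s r, L.g u s r ≤ L'.g u s r) :
    ∃ D : ℝ, 0 ≤ D ∧ ∀ (K T N : ℕ) (uW sW r₀ : ℝ), 0 ≤ r₀ → r₀ ≤ 1 → K ≤ T →
      (N : ℝ) ≤ L.it T uW sW r₀ → L.it T uW sW r₀ < N + 1 →
      L.it T uW sW r₀ ≤ L'.it (T - K) uW sW r₀ →
      ∀ (m n : ℕ) (u s : ℝ), Hit uW sW (lam ^ (-(N : ℤ))) n u s → n + N + D ≤ L.X m u s →
        T ≤ m ∧ L.X m u s - D ≤ L'.X (m - K) u s := by
  obtain ⟨Du, hDu, hup⟩ := window_upper L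
  obtain ⟨Dl, hDl, hlo⟩ := window_lower L'
  refine ⟨2 * (Du + Dl + 5) + 2, by linarith only [hDu, hDl], ?_⟩
  intro K T N uW sW r₀ hr0 hr1 hKT hN1 hN2 hgain m n u s hhit hm
  obtain ⟨a, b, hu, hs⟩ := hhit
  set yu : ℝ := lam ^ (n : ℤ) * u + (a + b * lam) with hyu
  set ys : ℝ := lam ^ (-(n : ℤ)) * s + (a + b * lam⁻¹) with hys
  have hn0 : (0 : ℝ) ≤ n := Nat.cast_nonneg n
  have hN0 : (0 : ℝ) ≤ N := Nat.cast_nonneg N
  -- the equivariance of `it` in both systems
  have key : ∀ (M : LeafSystem) (t : ℕ) (r : ℝ),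
      M.it t u s (r + n) = n + M.it t yu ys r := by
    intro M t r
    have h1 := M.it_scale t (n : ℤ) u s r
    have h2 := M.it_per t a b (lam ^ (n : ℤ) * u) (lam ^ (-(n : ℤ)) * s) r
    rw [hyu, hys, h2, h1]
    push_cast
    ring
  obtain ⟨i, hi, hi1, hi2⟩ := L.it_first m u s 0 n (by linarith only)
    (by rw [← X_eq_it]; linarith only [hDu, hDl, hm])
  -- upper bound for `X (i + T)`
  have hXiT : L.X (i + T) u s ≤ n + N + Du + 21 / 5 := by
    rw [X_eq_it, L.it_add i T u s 0]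
    have h1 : L.it T u s (L.it i u s 0) ≤ L.it T u s (11 / 10 + n) :=
      L.it_mono T u s (by linarith only [hi2])
    rw [key L T (11 / 10)] at h1
    have h2 := L.it_near T yu ys (11 / 10) 0
    have h3 : |(11 / 10 : ℝ) - 0| = 11 / 10 := by
      rw [sub_zero, abs_of_nonneg (by norm_num)]
    rw [h3] at h2
    have h4 := (abs_le.mp h2).2
    have h5 := hup T N uW sW r₀ yu ys hr0 hN2 hu hs
    rw [X_eq_it] at h5
    linarith only [h1, h4, h5]
  have hiT : i + T ≤ m := by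
    by_contra hcon
    push Not at hcon
    have h1 := L.X_add_ge m (i + T - m) u s
    rw [Nat.add_sub_cancel' hcon.le] at h1
    have h2 : (0 : ℝ) ≤ (9 / 10) * ((i + T - m : ℕ) : ℝ) := by positivity
    linarith only [hDu, hDl, hm, hXiT, h1]
  refine ⟨by omega, ?_⟩
  -- lower bound for `X' (i + (T - K))`
  have hX' : (n : ℝ) + N - Dl ≤ L'.X (i + (T - K)) u s := by
    rw [X_eq_it, L'.it_add i (T - K) u s 0]
    have h0 : (0 : ℝ) + n ≤ L'.it i u s 0 := by
      have h := it_le_it hLL' i u s 0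
      linarith only [hi1, h]
    have h1 : L'.it (T - K) u s (0 + n) ≤ L'.it (T - K) u s (L'.it i u s 0) :=
      L'.it_mono (T - K) u s h0
    rw [key L' (T - K) 0] at h1
    have h2 := hlo (T - K) N uW sW r₀ yu ys hr0 hr1 (le_trans hN1 hgain) hu hs
    rw [X_eq_it] at h2
    linarith only [h1, h2]
  -- conclusion
  have hmK : m - K = (i + (T - K)) + (m - (i + T)) := by omega
  have hmm : m = (i + T) + (m - (i + T)) := by omega
  have e1 : L'.X (m - K) u s = L'.it (m - (i + T)) u s (L'.X (i + (T - K)) u s) := by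
    rw [hmK, X_eq_it, X_eq_it, L'.it_add]
  have e2 : L.X m u s = L.it (m - (i + T)) u s (L.X (i + T) u s) := by
    conv_lhs => rw [hmm]
    rw [X_eq_it, X_eq_it, L.it_add]
  have h1 : L'.it (m - (i + T)) u s (L.X (i + T) u s - (Du + Dl + 21 / 5)) ≤
      L'.it (m - (i + T)) u s (L'.X (i + (T - K)) u s) :=
    L'.it_mono _ u s (by linarith only [hXiT, hX'])
  have h2 := L'.it_near (m - (i + T)) u s (L.X (i + T) u s) (L.X (i + T) u s - (Du + Dl + 21 / 5))
  have h3 : |L.X (i + T) u s - (L.X (i + T) u s - (Du + Dl + 21 / 5))| = Du + Dl + 21 / 5 := by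
    rw [sub_sub_cancel, abs_of_nonneg (by linarith only [hDu, hDl])]
  rw [h3] at h2
  have h4 := (abs_le.mp h2).2
  have h5 := it_le_it hLL' (m - (i + T)) u s (L.X (i + T) u s)
  rw [e1, e2]
  linarith only [h1, h4, h5]

end LeafSystem

end

end MPd1f192

end PartB3a

section PartB3b

/-! # B3b. Window subintervals of greedy intervals (on the leaf segment from `(0,0)`) -/

open MeasureTheory Set Filter Topology

namespace MPd1f192

noncomputable section

namespace LeafSystem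

variable (L : LeafSystem)

/-- Length of the window subinterval of the `j`-th greedy interval. -/
def wl (N m j : ℕ) : ℝ := lam ^ (-((L.gb m 0 0 j : ℤ) + 2 + N)) / 2

theorem B3b_wl_pos (N m j : ℕ) : 0 < L.wl N m j := by
  unfold wl
  have := lam_pos
  positivity

/-- Every greedy interval contains a window subinterval. -/
theorem sub_window (m j N : ℕ) (uW sW : ℝ) : ∃ w : ℝ, L.gr m 0 0 j ≤ w ∧
    w + L.wl N m j ≤ L.gr m 0 0 (j + 1) ∧
    ∀ t, w ≤ t → t ≤ w + L.wl N m j →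
      Hit uW sW (lam ^ (-(N : ℤ)) / 2) ((L.gb m 0 0 j : ℤ) + 2) t 0 := by
  have hl := lam_pos
  have hl0 := lam_ne_zero
  have hl1 := lam_gt
  set n : ℤ := (L.gb m 0 0 j : ℤ) with hn
  obtain ⟨a, b, h1, h2, h3, h4⟩ := covering (lam ^ (n + 2) * L.gr m 0 0 j) 0 uW sW
  set bu : ℝ := uW + (a + b * lam) - lam ^ (n + 2) * L.gr m 0 0 j with hbu
  have hpos : 0 < lam ^ (n + 2) := zpow_pos hl _
  have hinv : lam ^ (n + 2) * lam ^ (-(n + 2)) = 1 := by
    rw [← zpow_add₀ hl0]
    simp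
  have hposi : 0 < lam ^ (-(n + 2)) := zpow_pos hl _
  have hNpos : 0 < lam ^ (-(N : ℤ)) := zpow_pos hl _
  have hN1 : lam ^ (-(N : ℤ)) ≤ 1 := by
    rw [zpow_neg, zpow_natCast]
    exact inv_le_one_of_one_le₀ (one_le_pow₀ (by linarith only [hl1]))
  have hwl : L.wl N m j = lam ^ (-(n + 2)) * (lam ^ (-(N : ℤ)) / 2) := by
    unfold wl
    rw [← hn, neg_add (n + 2) (N : ℤ), zpow_add₀ hl0]
    ring
  refine ⟨L.gr m 0 0 j + lam ^ (-(n + 2)) * bu, ?_, ?_, ?_⟩
  · have := mul_nonneg hposi.le h1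
    linarith only [this]
  · rw [gr_succ, hwl, ← hn]
    have e1 : lam ^ (-n) = lam ^ (-(n + 2)) * lam ^ (2 : ℕ) := by
      rw [← zpow_natCast lam 2, ← zpow_add₀ hl0]
      congr 1
      push_cast
      ring
    rw [e1]
    have e2 : bu + lam ^ (-(N : ℤ)) / 2 ≤ lam ^ (2 : ℕ) := by
      nlinarith only [hl1, h2, hN1]
    have e3 := mul_le_mul_of_nonneg_left e2 hposi.le
    rw [mul_add] at e3
    linarith only [e3]
  · intro t ht1 ht2
    rw [hwl] at ht2
    refine ⟨-a, -b, ?_, ?_⟩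
    · push_cast
      have e1 : lam ^ (n + 2) * (L.gr m 0 0 j + lam ^ (-(n + 2)) * bu) =
          lam ^ (n + 2) * L.gr m 0 0 j + bu := by
        rw [mul_add, ← mul_assoc, hinv, one_mul]
      have e2 := mul_le_mul_of_nonneg_left ht1 hpos.le
      have e3 := mul_le_mul_of_nonneg_left ht2 hpos.le
      rw [mul_add, e1, ← mul_assoc, hinv, one_mul] at e3
      rw [e1] at e2
      rw [hbu] at e2 e3
      rw [abs_le]
      constructor
      · linarith only [e2, e3]
      · linarith only [e3]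
    · push_cast
      rw [mul_zero, abs_le]
      constructor
      · linarith only [h4]
      · linarith only [h3]

/-- Mass carried by a window subinterval at later times. -/
theorem sub_int {h : ℝ} (hL : L.IsGrowth h) (N : ℕ) : ∃ (c : ℝ) (T : ℕ), 0 < c ∧
    ∀ (l m j : ℕ) (w : ℝ), l + T ≤ m → L.gr l 0 0 j ≤ w →
      w + L.wl N l j ≤ L.gr l 0 0 (j + 1) →
      c * Real.exp (h * (m - l)) ≤ ∫ t in w..(w + L.wl N l j), lam ^ (L.X m t 0 : ℝ) := by
  have hl := lam_pos
  have hl0 := lam_ne_zero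
  have hl1 := lam_gt
  obtain ⟨K, hK, hKb⟩ := hL
  obtain ⟨D, hD, hDb⟩ := L.le_int_half
  obtain ⟨T, hT⟩ := exists_nat_ge ((10 / 9) * (N + 3 + L.C * lam))
  refine ⟨Real.exp (-(h * T)) / (D * K), T, by positivity, ?_⟩
  intro l m j w hm hw1 hw2
  set n' : ℕ := L.gb l 0 0 j + 2 + N with hn'
  obtain ⟨m', rfl⟩ := Nat.exists_eq_add_of_le hm
  have hwl : L.wl N l j = lam ^ (-(n' : ℤ)) / 2 := by
    unfold wl
    rw [hn']
    push_cast
    rfl
  have hwlpos := L.B3b_wl_pos N l j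
  have hcpos : 0 < lam ^ (n' : ℤ) := zpow_pos hl _
  -- the lower bound of the height
  have hX : ∀ t, w ≤ t → t ≤ w + L.wl N l j →
      (n' : ℝ) + L.X m' (lam ^ (n' : ℤ) * t) 0 ≤ L.X (l + T + m') t 0 := by
    intro t ht1 ht2
    have e1 := L.gr_block l 0 0 j t (hw1.trans ht1) (ht2.trans hw2)
    rw [zero_add, abs_le] at e1
    have e2 := L.X_add_ge l T t 0
    have e3 : (n' : ℝ) ≤ L.X (l + T) t 0 := by
      rw [hn']
      push_cast
      linarith only [e1.1, hT, e2]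
    have e4 : L.X (l + T + m') t 0 = L.it m' t 0 (L.X (l + T) t 0) := by
      rw [X_eq_it, X_eq_it, it_add]
    rw [e4]
    have e5 := L.it_scale m' (n' : ℤ) t 0 0
    rw [mul_zero, zero_add] at e5
    rw [X_eq_it, e5]
    have e6 := L.it_mono m' t 0 e3
    push_cast
    linarith only [e6]
  -- the substitution
  have hcont : Continuous fun t : ℝ => lam ^ (L.X m' t 0 : ℝ) := by
    have := L.continuous_lamX m' 0 0
    simpa only [zero_add] using this
  have hint1 : IntervalIntegrable (fun t : ℝ => lam ^ ((n' : ℝ) + L.X m' (lam ^ (n' : ℤ) * t) 0))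
      volume w (w + L.wl N l j) := by
    apply Continuous.intervalIntegrable
    have e : (fun t : ℝ => lam ^ ((n' : ℝ) + L.X m' (lam ^ (n' : ℤ) * t) 0)) =
        fun t => lam ^ (n' : ℝ) * lam ^ (L.X m' (lam ^ (n' : ℤ) * t) 0 : ℝ) := by
      funext t
      rw [Real.rpow_add hl]
    rw [e]
    exact continuous_const.mul (hcont.comp (continuous_const.mul continuous_id))
  have hint2 : IntervalIntegrable (fun t : ℝ => lam ^ (L.X (l + T + m') t 0 : ℝ))
      volume w (w + L.wl N l j) := by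
    have := L.intervalIntegrable_lamX (l + T + m') 0 0 w (w + L.wl N l j)
    simpa only [zero_add] using this
  have h1 : ∫ t in w..(w + L.wl N l j), lam ^ ((n' : ℝ) + L.X m' (lam ^ (n' : ℤ) * t) 0) ≤
      ∫ t in w..(w + L.wl N l j), lam ^ (L.X (l + T + m') t 0 : ℝ) := by
    apply intervalIntegral.integral_mono_on (by linarith only [hwlpos]) hint1 hint2
    intro t ht
    exact Real.rpow_le_rpow_of_exponent_le (by linarith only [hl1]) (hX t ht.1 ht.2)
  have h2 : ∫ t in w..(w + L.wl N l j), lam ^ ((n' : ℝ) + L.X m' (lam ^ (n' : ℤ) * t) 0) =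
      ∫ t in (0 : ℝ)..(1 / 2), lam ^ (L.X m' (lam ^ (n' : ℤ) * w + t) 0 : ℝ) := by
    have e1 : (fun t : ℝ => lam ^ ((n' : ℝ) + L.X m' (lam ^ (n' : ℤ) * t) 0)) =
        fun t => lam ^ (n' : ℤ) * (fun x : ℝ => lam ^ (L.X m' x 0 : ℝ)) (lam ^ (n' : ℤ) * t) := by
      funext t
      rw [Real.rpow_add hl, Real.rpow_natCast, zpow_natCast]
    rw [e1, intervalIntegral.integral_const_mul,
      intervalIntegral.integral_comp_mul_left (fun x : ℝ => lam ^ (L.X m' x 0 : ℝ)) hcpos.ne',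
      smul_eq_mul, ← mul_assoc, mul_inv_cancel₀ hcpos.ne', one_mul,
      intervalIntegral.integral_comp_add_left (fun x : ℝ => lam ^ (L.X m' x 0 : ℝ))]
    congr 1
    · ring
    · rw [hwl, mul_add, zpow_neg]
      field_simp
  have h3 := hDb m' (lam ^ (n' : ℤ) * w) 0 0 0
  have h4 := (hKb m' 0 0).1
  have h5 : K⁻¹ * Real.exp (h * m') ≤
      D * ∫ t in w..(w + L.wl N l j), lam ^ (L.X (l + T + m') t 0 : ℝ) := by
    refine h4.trans (h3.trans ?_)
    rw [← h2]
    exact mul_le_mul_of_nonneg_left h1 (by linarith only [hD])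
  have h6 : Real.exp (-(h * T)) / (D * K) * Real.exp (h * ((l + T + m' : ℕ) - l)) =
      D⁻¹ * (K⁻¹ * Real.exp (h * m')) := by
    have e : Real.exp (h * ((l + T + m' : ℕ) - l)) = Real.exp (h * T) * Real.exp (h * m') := by
      rw [← Real.exp_add]
      congr 1
      push_cast
      ring
    rw [e, Real.exp_neg]
    have := Real.exp_pos (h * T)
    have hD0 : D ≠ 0 := by linarith only [hD]
    field_simp
  rw [h6]
  have hDpos : 0 < D := by linarith only [hD]
  rw [inv_mul_le_iff₀ hDpos]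
  exact h5

/-- The set of points of the unit segment which have passed the window before time `m`. -/
def Eset (uW sW : ℝ) (N : ℕ) (D : ℝ) (m : ℕ) : Set ℝ :=
  {t | 0 ≤ t ∧ t < 1 ∧ ∃ n : ℕ, Hit uW sW (lam ^ (-(N : ℤ))) n t 0 ∧ n + N + D ≤ L.X m t 0}

theorem measurableSet_Eset (uW sW : ℝ) (N : ℕ) (D : ℝ) (m : ℕ) :
    MeasurableSet (L.Eset uW sW N D m) := by
  have hc : Continuous fun t : ℝ => L.X m t 0 := by
    have := L.continuous_X m 0 0
    simpa only [zero_add] using this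
  have e : L.Eset uW sW N D m = Ico 0 1 ∩ ⋃ n : ℕ, ⋃ a : ℤ, ⋃ b : ℤ,
      {t : ℝ | |lam ^ (n : ℤ) * t + (a + b * lam) - uW| ≤ lam ^ (-(N : ℤ)) ∧
        |lam ^ (-(n : ℤ)) * 0 + (a + b * lam⁻¹) - sW| ≤ 1 ∧ n + N + D ≤ L.X m t 0} := by
    ext t
    simp only [Eset, Hit, mem_ofPred_eq, mem_inter_iff, mem_Ico, mem_iUnion]
    constructor
    · rintro ⟨h0, h1, n, ⟨a, b, h2, h3⟩, h4⟩
      exact ⟨⟨h0, h1⟩, n, a, b, h2, h3, h4⟩
    · rintro ⟨⟨h0, h1⟩, n, a, b, h2, h3, h4⟩
      exact ⟨h0, h1, n, ⟨a, b, h2, h3⟩, h4⟩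
  rw [e]
  refine measurableSet_Ico.inter (MeasurableSet.iUnion fun n => MeasurableSet.iUnion fun a =>
    MeasurableSet.iUnion fun b => ?_)
  apply IsClosed.measurableSet
  have h1 : Continuous fun t : ℝ => |lam ^ (n : ℤ) * t + (a + b * lam) - uW| := by fun_prop
  exact (isClosed_le h1 continuous_const).inter
    (isClosed_const.inter (isClosed_le continuous_const hc))

/-- If a greedy interval contains a point which has not passed the window, then no point of the
interval hits the (half) window early. -/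
theorem first_hit (N : ℕ) (D : ℝ) : ∃ D' : ℝ, ∀ (uW sW : ℝ) (m j n : ℕ) (t t' : ℝ),
    L.gr m 0 0 j ≤ t → t ≤ L.gr m 0 0 (j + 1) → L.gr m 0 0 j ≤ t' → t' ≤ L.gr m 0 0 (j + 1) →
    0 ≤ t' → t' < 1 → t' ∉ L.Eset uW sW N D m → Hit uW sW (lam ^ (-(N : ℤ)) / 2) n t 0 →
    (L.gb m 0 0 j : ℝ) - D' ≤ n := by
  have hl := lam_pos
  have hl0 := lam_ne_zero
  have hl1 := lam_gt
  refine ⟨N + |D| + L.C * lam + 3, ?_⟩
  intro uW sW m j n t t' ht1 ht2 ht3 ht4 h0 h1 hE hHit
  by_contra hcon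
  push Not at hcon
  apply hE
  refine ⟨h0, h1, n, ?_, ?_⟩
  · obtain ⟨a, b, hab1, hab2⟩ := hHit
    refine ⟨a, b, ?_, hab2⟩
    have hCl : 0 < L.C * lam := mul_pos (by linarith only [L.one_le_C]) hl
    have e1 : (n : ℤ) + (-(L.gb m 0 0 j : ℤ)) ≤ -(N : ℤ) + (-1) := by
      have e2 : (n : ℝ) + N + 1 ≤ L.gb m 0 0 j := by
        have := abs_nonneg D
        linarith only [hcon, hCl, this]
      have e3 : n + N + 1 ≤ L.gb m 0 0 j := by exact_mod_cast e2
      omega
    have e4 : lam ^ (n : ℤ) * lam ^ (-(L.gb m 0 0 j : ℤ)) ≤ lam ^ (-(N : ℤ)) / 2 := by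
      rw [← zpow_add₀ hl0]
      refine (zpow_le_zpow_right₀ (by linarith only [hl1]) e1).trans ?_
      rw [zpow_add₀ hl0, zpow_neg_one, div_eq_mul_inv]
      apply mul_le_mul_of_nonneg_left _ (zpow_pos hl _).le
      exact inv_anti₀ (by norm_num) (by linarith only [hl1])
    have e5 : |t' - t| ≤ lam ^ (-(L.gb m 0 0 j : ℤ)) := by
      rw [gr_succ] at ht2 ht4
      rw [abs_le]
      constructor <;> linarith only [ht2, ht3, ht1, ht4]
    have e6 : |lam ^ (n : ℤ) * t' - lam ^ (n : ℤ) * t| ≤ lam ^ (-(N : ℤ)) / 2 := by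
      rw [← mul_sub, abs_mul, abs_of_pos (zpow_pos hl _)]
      exact (mul_le_mul_of_nonneg_left e5 (zpow_pos hl _).le).trans e4
    have e7 : lam ^ (n : ℤ) * t' + (a + b * lam) - uW =
        (lam ^ (n : ℤ) * t' - lam ^ (n : ℤ) * t) + (lam ^ (n : ℤ) * t + (a + b * lam) - uW) := by
      ring
    rw [e7]
    refine (abs_add_le _ _).trans ?_
    linarith only [hab1, e6]
  · have e1 := L.gr_block m 0 0 j t' ht3 ht4
    rw [zero_add, abs_le] at e1
    have := le_abs_self D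
    linarith only [e1.1, hcon, this]

end LeafSystem

end

end MPd1f192

end PartB3b

section PartB3c

/-! # B3c. The renewal argument: half of the mass has passed the window -/

open MeasureTheory Set Filter Topology

namespace MPd1f192

noncomputable section

namespace LeafSystem

variable (L : LeafSystem)

/-- the mass distribution at time `m` on `[0,2]` -/
def B3cnu (m : ℕ) : Measure ℝ :=
  (volume.restrict (Icc (0 : ℝ) 2)).withDensity (fun t => ENNReal.ofReal (lam ^ (L.X m t 0 : ℝ)))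

theorem B3c_cont (m : ℕ) : Continuous fun t : ℝ => lam ^ (L.X m t 0 : ℝ) := by
  have := L.continuous_lamX m 0 0
  simpa using this

theorem B3c_integrableOn (m : ℕ) (S : Set ℝ) (hS : S ⊆ Icc 0 2) :
    IntegrableOn (fun t : ℝ => lam ^ (L.X m t 0 : ℝ)) S volume :=
  ((L.B3c_cont m).continuousOn.integrableOn_compact isCompact_Icc).mono_set hS

theorem B3c_nonneg (m : ℕ) (t : ℝ) : 0 ≤ lam ^ (L.X m t 0 : ℝ) :=
  Real.rpow_nonneg lam_pos.le _

theorem B3cnu_real (m : ℕ) (S : Set ℝ) (hm : MeasurableSet S) (hS : S ⊆ Icc 0 2) :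
    (L.B3cnu m).real S = ∫ t in S, lam ^ (L.X m t 0 : ℝ) := by
  rw [measureReal_def, B3cnu, withDensity_apply _ hm, Measure.restrict_restrict hm,
    inter_eq_left.2 hS, ← ofReal_integral_eq_lintegral_ofReal (L.B3c_integrableOn m S hS)
      (Eventually.of_forall fun t => L.B3c_nonneg m t),
    ENNReal.toReal_ofReal (integral_nonneg fun t => L.B3c_nonneg m t)]

instance B3cnu_finite (m : ℕ) : IsFiniteMeasure (L.B3cnu m) := by
  refine isFiniteMeasure_withDensity_ofReal ?_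
  exact (L.B3c_integrableOn m _ subset_rfl).hasFiniteIntegral

theorem B3cnu_Ioc (m : ℕ) (a b : ℝ) (ha : 0 ≤ a) (hab : a ≤ b) (hb : b ≤ 2) :
    (L.B3cnu m).real (Ioc a b) = ∫ t in a..b, lam ^ (L.X m t 0 : ℝ) := by
  rw [intervalIntegral.integral_of_le hab, L.B3cnu_real m _ measurableSet_Ioc]
  intro t ht
  exact ⟨ha.trans ht.1.le, ht.2.trans hb⟩

theorem B3cnu_Icc (m : ℕ) (a b : ℝ) (ha : 0 ≤ a) (hab : a ≤ b) (hb : b ≤ 2) :
    (L.B3cnu m).real (Icc a b) = ∫ t in a..b, lam ^ (L.X m t 0 : ℝ) := by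
  rw [intervalIntegral.integral_of_le hab, ← integral_Icc_eq_integral_Ioc,
    L.B3cnu_real m _ measurableSet_Icc]
  intro t ht
  exact ⟨ha.trans ht.1, ht.2.trans hb⟩

theorem B3c_len (m : ℕ) : L.len m 0 0 = ∫ t in (0 : ℝ)..1, lam ^ (L.X m t 0 : ℝ) := by
  simp [len]

theorem B3c_cover (l : ℕ) (t : ℝ) (ht0 : 0 ≤ t) (ht1 : t < 1) :
    ∃ j, j < L.grN l 0 0 1 ∧ L.gr l 0 0 j ≤ t ∧ t < L.gr l 0 0 (j + 1) := by
  classical
  have hex : ∃ n, t < L.gr l 0 0 n := ⟨L.grN l 0 0 1, ht1.trans_le (L.le_gr_grN l 0 0 1)⟩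
  have h1 := Nat.find_spec hex
  have h2 : Nat.find hex ≤ L.grN l 0 0 1 :=
    Nat.find_min' hex (ht1.trans_le (L.le_gr_grN l 0 0 1))
  have h3 : Nat.find hex ≠ 0 := by
    intro h0
    rw [h0, L.gr_zero] at h1
    exact absurd h1 (not_lt.2 ht0)
  obtain ⟨j, hj⟩ := Nat.exists_eq_succ_of_ne_zero h3
  refine ⟨j, ?_, ?_, ?_⟩
  · omega
  · have := Nat.find_min hex (m := j) (by omega)
    exact not_lt.1 this
  · rw [hj] at h1
    exact h1

/-- There is a time at which half of the mass of the unit segment has passed the window. -/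
theorem exists_half {h : ℝ} (hL : L.IsGrowth h) (uW sW : ℝ) (N : ℕ) (D : ℝ) (hD : 0 ≤ D) :
    ∃ m : ℕ, (1 / 2) * L.len m 0 0 ≤
      ∫ t in L.Eset uW sW N D m, lam ^ (L.X m t 0 : ℝ) := by
  classical
  by_contra hcon
  push Not at hcon
  obtain ⟨K, hK0, hK⟩ := hL
  obtain ⟨DB, hDB1, hDB⟩ := L.block_int
  obtain ⟨D2, hD21, hD2⟩ := L.int_nat_le 2
  obtain ⟨c, T, hc0, hc⟩ := L.sub_int ⟨K, hK0, hK⟩ N
  obtain ⟨D', hD'⟩ := L.first_hit N D
  -- the set of unfinished points
  have hEsub : ∀ m, L.Eset uW sW N D m ⊆ Ico 0 1 := fun m t ht => ⟨ht.1, ht.2.1⟩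
  have hV : ∀ m, (1 / 2) * L.len m 0 0 ≤
      (L.B3cnu m).real (Ico 0 1 \ L.Eset uW sW N D m) := by
    intro m
    have h1 : (L.B3cnu m).real (Ico 0 1 \ L.Eset uW sW N D m) =
        (L.B3cnu m).real (Ico 0 1) - (L.B3cnu m).real (L.Eset uW sW N D m) :=
      measureReal_sdiff (hEsub m) (L.measurableSet_Eset uW sW N D m)
    have h2 : (L.B3cnu m).real (Ico 0 1) = L.len m 0 0 := by
      rw [L.B3cnu_real m _ measurableSet_Ico (fun t ht => ⟨ht.1, by linarith only [ht.2]⟩),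
        L.B3c_len, intervalIntegral.integral_of_le zero_le_one, ← integral_Icc_eq_integral_Ioc,
        integral_Icc_eq_integral_Ico]
    have h3 : (L.B3cnu m).real (L.Eset uW sW N D m) =
        ∫ t in L.Eset uW sW N D m, lam ^ (L.X m t 0 : ℝ) :=
      L.B3cnu_real m _ (L.measurableSet_Eset uW sW N D m)
        (fun t ht => ⟨ht.1, by linarith only [ht.2.1]⟩)
    have h4 := hcon m
    rw [h1, h2, h3]
    linarith only [h4]
  let J : ℕ → Finset ℕ := fun l => (Finset.range (L.grN l 0 0 1)).filter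
    (fun j => ∃ t', L.gr l 0 0 j ≤ t' ∧ t' ≤ L.gr l 0 0 (j + 1) ∧ 0 ≤ t' ∧ t' < 1 ∧
      t' ∉ L.Eset uW sW N D l)
  have hJmem : ∀ l j, j ∈ J l → j < L.grN l 0 0 1 ∧ ∃ t', L.gr l 0 0 j ≤ t' ∧
      t' ≤ L.gr l 0 0 (j + 1) ∧ 0 ≤ t' ∧ t' < 1 ∧ t' ∉ L.Eset uW sW N D l := by
    intro l j hj
    simpa [J] using hj
  have hgr2 : ∀ l j, j < L.grN l 0 0 1 → L.gr l 0 0 (j + 1) ≤ 2 := by
    intro l j hj
    have h1 := (L.gr_strictMono l 0 0).monotone (show j + 1 ≤ L.grN l 0 0 1 by omega)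
    have h2 := L.gr_grN_le l 0 0 1 zero_le_one
    linarith only [h1, h2]
  have hlen0 : L.len 0 0 0 = 1 := L.len_zero 0 0
  have hJcard : ∀ l : ℕ, Real.exp (h * l) / (2 * K * DB) ≤ (J l).card := by
    intro l
    have hsub : Ico 0 1 \ L.Eset uW sW N D l ⊆
        ⋃ j ∈ J l, Icc (L.gr l 0 0 j) (L.gr l 0 0 (j + 1)) := by
      intro t ht
      obtain ⟨j, hj1, hj2, hj3⟩ := L.B3c_cover l t ht.1.1 ht.1.2
      simp only [mem_iUnion]
      refine ⟨j, ?_, hj2, hj3.le⟩
      simp only [J, Finset.mem_filter, Finset.mem_range]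
      exact ⟨hj1, t, hj2, hj3.le, ht.1.1, ht.1.2, ht.2⟩
    have h1 : (L.B3cnu l).real (Ico 0 1 \ L.Eset uW sW N D l) ≤ (J l).card * DB := by
      calc (L.B3cnu l).real (Ico 0 1 \ L.Eset uW sW N D l)
          ≤ (L.B3cnu l).real (⋃ j ∈ J l, Icc (L.gr l 0 0 j) (L.gr l 0 0 (j + 1))) :=
            measureReal_mono hsub (measure_ne_top _ _)
        _ ≤ ∑ j ∈ J l, (L.B3cnu l).real (Icc (L.gr l 0 0 j) (L.gr l 0 0 (j + 1))) :=
            measureReal_biUnion_finset_le _ _
        _ ≤ ∑ _j ∈ J l, DB := by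
            apply Finset.sum_le_sum
            intro j hj
            rw [L.B3cnu_Icc l _ _ (L.gr_nonneg l 0 0 j)
              ((L.gr_strictMono l 0 0).monotone (Nat.le_succ j)) (hgr2 l j (hJmem l j hj).1)]
            have := (hDB l 0 0 0 j 0 0).2
            simpa [hlen0] using this
        _ = (J l).card * DB := by simp
    have h2 := hV l
    have h3 := (hK l 0 0).1
    rw [div_le_iff₀ (by positivity)]
    have h4 : Real.exp (h * l) ≤ K * L.len l 0 0 := by
      rw [inv_mul_le_iff₀ hK0] at h3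
      exact h3
    have h5 : L.len l 0 0 ≤ 2 * ((J l).card * DB) := by linarith only [h1, h2]
    calc Real.exp (h * l) ≤ K * L.len l 0 0 := h4
      _ ≤ K * (2 * ((J l).card * DB)) := by gcongr
      _ = (J l).card * (2 * K * DB) := by ring
  -- window subintervals
  have hw := fun l j => L.sub_window l j N uW sW
  choose w hw1 hw2 hw3 using hw
  have hwl : ∀ l j, 0 < L.wl N l j := by
    intro l j
    unfold wl
    exact div_pos (zpow_pos lam_pos _) two_pos
  obtain ⟨τ, hτ⟩ : ∃ τ : ℕ, D' + 2 + 2 * (L.C * lam + 1) < (9 / 10) * τ := by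
    obtain ⟨τ, hτ⟩ := exists_nat_gt ((D' + 2 + 2 * (L.C * lam + 1)) / (9 / 10))
    refine ⟨τ, ?_⟩
    rw [div_lt_iff₀ (by norm_num)] at hτ
    linarith only [hτ]
  obtain ⟨p, hp⟩ : ∃ p : ℕ, D2 * K < p * (c * (1 / (2 * K * DB))) := by
    have hpos : 0 < c * (1 / (2 * K * DB)) := by positivity
    obtain ⟨p, hp⟩ := exists_nat_gt (D2 * K / (c * (1 / (2 * K * DB))))
    refine ⟨p, ?_⟩
    rwa [div_lt_iff₀ hpos] at hp
  set m := p * τ + T with hm
  let S : (Σ _ : ℕ, ℕ) → Set ℝ := fun x =>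
    Ioc (w (x.1 * τ) x.2) (w (x.1 * τ) x.2 + L.wl N (x.1 * τ) x.2)
  let I : Finset (Σ _ : ℕ, ℕ) := (Finset.range p).sigma (fun i => J (i * τ))
  have hSsub : ∀ l j t, t ∈ Ioc (w l j) (w l j + L.wl N l j) →
      L.gr l 0 0 j < t ∧ t ≤ L.gr l 0 0 (j + 1) := by
    intro l j t ht
    exact ⟨(hw1 l j).trans_lt ht.1, ht.2.trans (hw2 l j)⟩
  have hcross : ∀ i i' j j' t, i < i' → j' ∈ J (i' * τ) →
      t ∈ Ioc (w (i * τ) j) (w (i * τ) j + L.wl N (i * τ) j) →
      t ∈ Ioc (w (i' * τ) j') (w (i' * τ) j' + L.wl N (i' * τ) j') → False := by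
    intro i i' j j' t hii hj' ht ht'
    obtain ⟨-, t', ht1, ht2, ht3, ht4, ht5⟩ := hJmem _ _ hj'
    have a1 := hSsub _ _ _ ht
    have a2 := hSsub _ _ _ ht'
    have a3 := hw3 (i * τ) j t ht.1.le ht.2
    have a4 := hD' uW sW (i' * τ) j' (L.gb (i * τ) 0 0 j + 2) t t' a2.1.le a2.2 ht1 ht2 ht3 ht4 ht5
      (by push_cast; exact a3)
    have a5 := L.gr_block (i * τ) 0 0 j t a1.1.le a1.2
    have a6 := L.gr_block (i' * τ) 0 0 j' t a2.1.le a2.2
    rw [zero_add] at a5 a6
    have a7 := L.X_add_ge (i * τ) (i' * τ - i * τ) t 0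
    have a8 : i * τ + τ ≤ i' * τ := by nlinarith only [hii]
    rw [Nat.add_sub_cancel' (by omega)] at a7
    have a9 : (τ : ℝ) ≤ ((i' * τ - i * τ : ℕ) : ℝ) := by
      exact_mod_cast (by omega : τ ≤ i' * τ - i * τ)
    rw [abs_le] at a5 a6
    push_cast at a4
    linarith only [a5.1, a6.2, hτ, a7, a9, a4]
  have hdisj : (I : Set (Σ _ : ℕ, ℕ)).PairwiseDisjoint S := by
    intro x hx y hy hxy
    rw [Function.onFun, Set.disjoint_left]
    intro t htx hty
    have hx' : x.2 ∈ J (x.1 * τ) := by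
      have := Finset.mem_coe.1 hx
      simp only [I, Finset.mem_sigma] at this
      exact this.2
    have hy' : y.2 ∈ J (y.1 * τ) := by
      have := Finset.mem_coe.1 hy
      simp only [I, Finset.mem_sigma] at this
      exact this.2
    rcases lt_trichotomy x.1 y.1 with hlt | heq | hgt
    · exact hcross _ _ _ _ t hlt hy' htx hty
    · obtain ⟨x1, x2⟩ := x
      obtain ⟨y1, y2⟩ := y
      simp only at heq
      subst heq
      have hne : x2 ≠ y2 := fun h0 => hxy (by rw [h0])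
      have b1 := hSsub _ _ _ htx
      have b2 := hSsub _ _ _ hty
      simp only at b1 b2
      rcases lt_or_gt_of_ne hne with h0 | h0
      · have := (L.gr_strictMono (x1 * τ) 0 0).monotone (show x2 + 1 ≤ y2 by omega)
        linarith only [b1.2, b2.1, this]
      · have := (L.gr_strictMono (x1 * τ) 0 0).monotone (show y2 + 1 ≤ x2 by omega)
        linarith only [b2.2, b1.1, this]
    · exact hcross _ _ _ _ t hgt hx' hty htx
  have hsum : (L.B3cnu m).real (⋃ x ∈ I, S x) = ∑ x ∈ I, (L.B3cnu m).real (S x) :=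
    measureReal_biUnion_finset hdisj (fun x _ => measurableSet_Ioc)
  have hSint : ∀ x ∈ I, c * Real.exp (h * (m - (x.1 * τ : ℕ))) ≤ (L.B3cnu m).real (S x) := by
    intro x hx
    simp only [I, Finset.mem_sigma, Finset.mem_range] at hx
    have c1 := hJmem _ _ hx.2
    have c2 := hgr2 _ _ c1.1
    have c3 : x.1 * τ + T ≤ m := by
      have : x.1 * τ ≤ p * τ := Nat.mul_le_mul_right τ hx.1.le
      omega
    have c4 := hc (x.1 * τ) m x.2 (w (x.1 * τ) x.2) c3 (hw1 _ _) (hw2 _ _)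
    simp only [S]
    rw [L.B3cnu_Ioc m _ _ ((L.gr_nonneg _ 0 0 _).trans (hw1 _ _)) (by linarith only [hwl (x.1 * τ) x.2])
      ((hw2 _ _).trans c2)]
    exact c4
  have hlow : p * (c * (1 / (2 * K * DB))) * Real.exp (h * m) ≤
      ∑ x ∈ I, (L.B3cnu m).real (S x) := by
    calc p * (c * (1 / (2 * K * DB))) * Real.exp (h * m)
        = ∑ _i ∈ Finset.range p, (c * (1 / (2 * K * DB))) * Real.exp (h * m) := by
          simp [mul_assoc]
      _ ≤ ∑ i ∈ Finset.range p, ∑ _j ∈ J (i * τ), c * Real.exp (h * (m - (i * τ : ℕ))) := by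
          apply Finset.sum_le_sum
          intro i _
          rw [Finset.sum_const, nsmul_eq_mul]
          have d1 := hJcard (i * τ)
          have d2 : Real.exp (h * m) =
              Real.exp (h * (i * τ : ℕ)) * Real.exp (h * (m - (i * τ : ℕ))) := by
            rw [← Real.exp_add]; congr 1; ring
          rw [d2]
          calc c * (1 / (2 * K * DB)) *
                (Real.exp (h * (i * τ : ℕ)) * Real.exp (h * (m - (i * τ : ℕ))))
              = (Real.exp (h * (i * τ : ℕ)) / (2 * K * DB)) *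
                (c * Real.exp (h * (m - (i * τ : ℕ)))) := by ring
            _ ≤ _ := by gcongr
      _ = ∑ x ∈ I, c * Real.exp (h * (m - (x.1 * τ : ℕ))) := by
          rw [Finset.sum_sigma]
      _ ≤ _ := Finset.sum_le_sum hSint
  have hup : (L.B3cnu m).real (⋃ x ∈ I, S x) ≤ D2 * K * Real.exp (h * m) := by
    calc (L.B3cnu m).real (⋃ x ∈ I, S x) ≤ (L.B3cnu m).real (Icc 0 2) := by
          refine measureReal_mono ?_ (measure_ne_top _ _)
          intro t ht
          simp only [mem_iUnion] at ht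
          obtain ⟨x, hx, hxt⟩ := ht
          simp only [I, Finset.mem_sigma, Finset.mem_range] at hx
          have e1 := hSsub _ _ _ hxt
          have e2 := hgr2 _ _ (hJmem _ _ hx.2).1
          exact ⟨(L.gr_nonneg _ 0 0 _).trans e1.1.le, e1.2.trans e2⟩
      _ = ∫ t in (0 : ℝ)..2, lam ^ (L.X m t 0 : ℝ) :=
          L.B3cnu_Icc m 0 2 le_rfl (by norm_num) le_rfl
      _ ≤ D2 * L.len m 0 0 := by
          have := hD2 m 0 0 0 0
          simpa using this
      _ ≤ D2 * (K * Real.exp (h * m)) := by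
          gcongr
          exact (hK m 0 0).2
      _ = D2 * K * Real.exp (h * m) := by ring
  have hfin : p * (c * (1 / (2 * K * DB))) * Real.exp (h * m) ≤ D2 * K * Real.exp (h * m) :=
    hlow.trans (hsum ▸ hup)
  have hfin2 := le_of_mul_le_mul_right hfin (Real.exp_pos _)
  linarith only [hp, hfin2]

end LeafSystem

end

end MPd1f192

end PartB3c

section PartB3d

/-! # B3d. Strict monotonicity of the growth rate -/

open MeasureTheory Set Filter Topology

namespace MPd1f192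

noncomputable section

theorem growthStrict : GrowthStrict := by
  intro L L' hLL' hyp h h' hL hL'
  by_contra hcon
  rw [not_lt] at hcon
  obtain ⟨D, hD, hwin⟩ := LeafSystem.window_gain hLL'
  have hpos : 0 < h := hL.pos
  obtain ⟨K1, hK1, hg⟩ := id hL
  obtain ⟨K1', hK1', hg'⟩ := hL'
  have hl1 : (1 : ℝ) ≤ lam := by linarith only [lam_gt]
  have hlD : 0 < lam ^ (D : ℝ) := Real.rpow_pos_of_pos lam_pos _
  set Q : ℝ := 2 * lam ^ (D : ℝ) * K1 * K1' with hQ
  have hQpos : 0 < Q := by positivity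
  obtain ⟨K, hK⟩ := exists_nat_gt (Real.log Q / h)
  have hKQ : Q < Real.exp (h * K) := by
    rw [div_lt_iff₀ hpos] at hK
    rw [← Real.log_lt_iff_lt_exp hQpos]
    linarith only [hK]
  obtain ⟨uW, sW, r0, T, h0, h1, hKT, hit⟩ := hyp K
  have hit0 : 0 ≤ L.it T uW sW r0 := by
    have := L.it_ge T uW sW r0
    have hT : (0 : ℝ) ≤ T := Nat.cast_nonneg T
    linarith only [h0, this]
  set N : ℕ := ⌊L.it T uW sW r0⌋₊ with hN
  have hN1 : (N : ℝ) ≤ L.it T uW sW r0 := Nat.floor_le hit0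
  have hN2 : L.it T uW sW r0 < N + 1 := Nat.lt_floor_add_one _
  have hgain := hwin K T N uW sW r0 h0 h1 hKT hN1 hN2 hit
  obtain ⟨m, hm⟩ := L.exists_half hL uW sW N D hD
  have hlen : 0 < L.len m 0 0 := L.len_pos m 0 0
  -- the set `E` is not empty
  have hEne : (L.Eset uW sW N D m).Nonempty := by
    rw [Set.nonempty_iff_ne_empty]
    intro hE
    rw [hE, Measure.restrict_empty, integral_zero_measure] at hm
    linarith only [hm, hlen]
  have hTm : T ≤ m := by
    obtain ⟨t, _, _, n, hn1, hn2⟩ := hEne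
    exact (hgain m n t 0 hn1 hn2).1
  have hKm : K ≤ m := hKT.trans hTm
  -- comparison of the integrals
  have hcont : Continuous fun t : ℝ => lam ^ (L.X m t 0 : ℝ) := by
    have := L.continuous_lamX m 0 0
    simpa using this
  have hcont' : Continuous fun t : ℝ => lam ^ (L'.X (m - K) t 0 : ℝ) := by
    have := L'.continuous_lamX (m - K) 0 0
    simpa using this
  have hEsub : L.Eset uW sW N D m ⊆ Icc (0 : ℝ) 1 := fun t ht => ⟨ht.1, ht.2.1.le⟩
  have hEm := L.measurableSet_Eset uW sW N D m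
  have hIcc : IntegrableOn (fun t : ℝ => lam ^ (L.X m t 0 : ℝ)) (Icc (0 : ℝ) 1) :=
    hcont.integrableOn_Icc
  have hIcc' : IntegrableOn (fun t : ℝ => lam ^ (D : ℝ) * lam ^ (L'.X (m - K) t 0 : ℝ))
      (Icc (0 : ℝ) 1) := (continuous_const.mul hcont').integrableOn_Icc
  have hstep1 : ∫ t in L.Eset uW sW N D m, lam ^ (L.X m t 0 : ℝ) ≤
      ∫ t in L.Eset uW sW N D m, lam ^ (D : ℝ) * lam ^ (L'.X (m - K) t 0 : ℝ) := by
    refine setIntegral_mono_on (hIcc.mono_set hEsub) (hIcc'.mono_set hEsub) hEm ?_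
    intro t ht
    obtain ⟨_, _, n, hn1, hn2⟩ := ht
    have hx := (hgain m n t 0 hn1 hn2).2
    rw [← Real.rpow_add lam_pos]
    exact Real.rpow_le_rpow_of_exponent_le hl1 (by linarith only [hx])
  have hstep2 : ∫ t in L.Eset uW sW N D m, lam ^ (D : ℝ) * lam ^ (L'.X (m - K) t 0 : ℝ) ≤
      ∫ t in Icc (0 : ℝ) 1, lam ^ (D : ℝ) * lam ^ (L'.X (m - K) t 0 : ℝ) := by
    refine setIntegral_mono_set hIcc' ?_ (Filter.Eventually.of_forall hEsub)
    exact Filter.Eventually.of_forall fun t =>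
      mul_nonneg hlD.le (Real.rpow_nonneg lam_pos.le _)
  have hstep3 : ∫ t in Icc (0 : ℝ) 1, lam ^ (D : ℝ) * lam ^ (L'.X (m - K) t 0 : ℝ) =
      lam ^ (D : ℝ) * L'.len (m - K) 0 0 := by
    rw [integral_const_mul, integral_Icc_eq_integral_Ioc,
      ← intervalIntegral.integral_of_le zero_le_one]
    simp only [LeafSystem.len, zero_add]
  have hlow := (hg m 0 0).1
  have hup := (hg' (m - K) 0 0).2
  have hcast : ((m - K : ℕ) : ℝ) = (m : ℝ) - K := by
    rw [Nat.cast_sub hKm]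
  have hmK : (0 : ℝ) ≤ (m : ℝ) - K := by
    rw [← hcast]; exact Nat.cast_nonneg _
  have hexp : Real.exp (h' * ((m - K : ℕ) : ℝ)) ≤ Real.exp (h * m) * Real.exp (-(h * K)) := by
    rw [← Real.exp_add, hcast]
    refine Real.exp_le_exp.mpr ?_
    have := mul_le_mul_of_nonneg_right hcon hmK
    linarith only [this]
  have hmain : K1⁻¹ * Real.exp (h * m) ≤
      2 * (lam ^ (D : ℝ) * (K1' * (Real.exp (h * m) * Real.exp (-(h * K))))) := by
    have e1 : L'.len (m - K) 0 0 ≤ K1' * (Real.exp (h * m) * Real.exp (-(h * K))) :=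
      hup.trans (mul_le_mul_of_nonneg_left hexp hK1'.le)
    have e2 := mul_le_mul_of_nonneg_left e1 hlD.le
    linarith only [hm, hstep1, hstep2, hstep3, hlow, e2]
  have hEm0 : 0 < Real.exp (h * m) := Real.exp_pos _
  have hEk0 : 0 < Real.exp (h * K) := Real.exp_pos _
  have hfin : Real.exp (h * K) ≤ Q := by
    have e3 := mul_le_mul_of_nonneg_left hmain (mul_pos hK1 hEk0).le
    have e4 : K1 * Real.exp (h * K) * (K1⁻¹ * Real.exp (h * m)) =
        Real.exp (h * K) * Real.exp (h * m) := by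
      field_simp
    have e5 : Real.exp (h * K) * Real.exp (-(h * K)) = 1 := by
      rw [← Real.exp_add]; simp
    have e6 : K1 * Real.exp (h * K) *
        (2 * (lam ^ (D : ℝ) * (K1' * (Real.exp (h * m) * Real.exp (-(h * K)))))) =
        Q * Real.exp (h * m) * (Real.exp (h * K) * Real.exp (-(h * K))) := by
      rw [hQ]; ring
    rw [e4, e6, e5, mul_one] at e3
    exact le_of_mul_le_mul_right e3 hEm0
  linarith only [hKQ, hfin]

end

end MPd1f192

end PartB3d
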