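import Pool.Agent.W_MP_d1f192_an.B2c
import Pool.Agent.W_MP_d1f192_an.B3d

section PartB4a

/-! # B4a. Dynamical covers (upper bound for the entropy) -/

open MeasureTheory Set Filter Topology

namespace MPd1f192

noncomputable section

theorem B4a_one_lt : (1 : ℝ) < lam := by linarith only [lam_gt]

theorem B4a_pow (A : ℝ) (n : ℕ) : lam ^ (A - 9 / 10 * n : ℝ) ≤ lam ^ (A : ℝ) * qq ^ n := by
  have h1 : qq ^ n = lam ^ (-(9 / 20) * (n : ℝ) : ℝ) := by
    unfold qq
    rw [← Real.rpow_natCast, ← Real.rpow_mul lam_pos.le]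
  rw [h1, ← Real.rpow_add lam_pos]
  apply Real.rpow_le_rpow_of_exponent_le B4a_one_lt.le
  have : (0 : ℝ) ≤ n := Nat.cast_nonneg n
  linarith only

namespace LeafSystem

variable (L : LeafSystem)

/-- Net of heights on one leaf, for all times up to `m`. -/
theorem heights_net (W ρ : ℝ) (hW : 0 ≤ W) (hρ : 0 < ρ) : ∃ D : ℕ, ∀ (m : ℕ) (u s : ℝ),
    ∃ H : Finset ℝ, H.card ≤ D * (m + 1) ∧ (∀ w ∈ H, -W ≤ w) ∧
      ∀ w : ℝ, |w| ≤ W → ∃ w' ∈ H, w' ≤ w ∧ ∀ t ≤ m, |L.it t u s w - L.it t u s w'| ≤ ρ := by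
  classical
  refine ⟨⌈(4 * W + 2) / ρ⌉₊ + 1, fun m u s => ?_⟩
  have hsurj : ∀ t i : ℕ, ∃ w, L.it t u s w = L.it t u s (-W) + i * ρ := fun t i =>
    L.it_surjective t u s _
  choose pw hpw using hsurj
  have hpwW : ∀ t i, -W ≤ pw t i := by
    intro t i
    rw [← (L.it_strictMono t u s).le_iff_le, hpw]
    have : (0 : ℝ) ≤ i * ρ := by positivity
    linarith only [this]
  set I := ⌈(4 * W + 2) / ρ⌉₊ with hI
  refine ⟨(Finset.range (m + 1) ×ˢ Finset.range (I + 1)).image fun q => pw q.1 q.2, ?_, ?_, ?_⟩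
  · refine Finset.card_image_le.trans ?_
    rw [Finset.card_product, Finset.card_range, Finset.card_range, mul_comm]
  · intro w hw
    obtain ⟨q, -, rfl⟩ := Finset.mem_image.1 hw
    exact hpwW _ _
  · intro w hw
    have hw' := abs_le.1 hw
    set H := (Finset.range (m + 1) ×ˢ Finset.range (I + 1)).image fun q => pw q.1 q.2 with hH
    have h0 : pw 0 0 = -W := by
      have := hpw 0 0
      simpa [it_zero] using this
    have hne : (H.filter fun x => x ≤ w).Nonempty := by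
      refine ⟨pw 0 0, ?_⟩
      rw [Finset.mem_filter]
      refine ⟨Finset.mem_image.2 ⟨(0, 0), ?_, rfl⟩, ?_⟩
      · simp
      · rw [h0]; exact hw'.1
    set w' := (H.filter fun x => x ≤ w).max' hne with hw'def
    have hmem := (H.filter fun x => x ≤ w).max'_mem hne
    rw [Finset.mem_filter] at hmem
    refine ⟨w', hmem.1, hmem.2, fun t ht => ?_⟩
    have hmono : L.it t u s w' ≤ L.it t u s w := L.it_mono t u s hmem.2
    have hge : L.it t u s (-W) ≤ L.it t u s w := L.it_mono t u s hw'.1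
    set i := ⌊(L.it t u s w - L.it t u s (-W)) / ρ⌋₊ with hi
    have hquo : 0 ≤ (L.it t u s w - L.it t u s (-W)) / ρ := by
      apply div_nonneg _ hρ.le
      linarith only [hge]
    have hi1 : (i : ℝ) * ρ ≤ L.it t u s w - L.it t u s (-W) := by
      have := Nat.floor_le hquo
      rwa [← hi, le_div_iff₀ hρ] at this
    have hi2 : L.it t u s w - L.it t u s (-W) < ((i : ℝ) + 1) * ρ := by
      have := Nat.lt_floor_add_one ((L.it t u s w - L.it t u s (-W)) / ρ)
      rwa [← hi, div_lt_iff₀ hρ] at this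
    have hiI : i ≤ I := by
      rw [hi, hI]
      refine (Nat.floor_mono ?_).trans (Nat.floor_le_ceil _)
      gcongr
      have h2 := L.it_near t u s w (-W)
      have h3 := le_abs_self (L.it t u s w - L.it t u s (-W))
      have h4 : |w - -W| ≤ 2 * W := by
        rw [abs_le]; constructor <;> linarith only [hw'.1, hw'.2]
      linarith only [h2, h3, h4]
    have hle : pw t i ≤ w := by
      rw [← (L.it_strictMono t u s).le_iff_le, hpw]
      linarith only [hi1]
    have hmem2 : pw t i ∈ H.filter fun x => x ≤ w := by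
      rw [Finset.mem_filter]
      refine ⟨Finset.mem_image.2 ⟨(t, i), ?_, rfl⟩, hle⟩
      rw [Finset.mem_product, Finset.mem_range, Finset.mem_range]
      omega
    have hle2 : pw t i ≤ w' := Finset.le_max' _ _ hmem2
    have hle3 := L.it_mono t u s hle2
    rw [hpw] at hle3
    rw [abs_le]
    constructor
    · linarith only [hmono, hi2, hle3]
    · linarith only [hi2, hle3]

/-- Shadowing of an arbitrary orbit by an orbit based at a greedy point, except for the first and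
last `K` iterates. -/
theorem cover_middle {h : ℝ} (hL : L.IsGrowth h) (ρ : ℝ) (hρ : 0 < ρ) :
    ∃ (D : ℝ) (K : ℕ), ∀ m : ℕ, ∃ Q : Finset P,
      (Q.card : ℝ) ≤ D * (m + 1) * Real.exp (h * m) ∧
      ∀ p : P, ∃ q ∈ Q, ∃ k a b : ℤ, ∀ t : ℕ, K ≤ t → t + K ≤ m →
        close ρ (L.fhat^[t] q) (L.fhat^[t] (act k a b p)) := by
  classical
  have hC := L.one_le_C
  obtain ⟨D1, hD1⟩ := L.heights_net (6 * L.C + 1) (ρ / 3) (by linarith only [hC]) (by positivity)
  obtain ⟨D2, hD2, hD2'⟩ := L.grN_le 1000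
  obtain ⟨K', hK', hgr⟩ := hL
  set a0 : ℝ := 12 * L.C + 7 with ha0
  set W : ℝ := 6 * L.C + 1 with hW
  have hq0 := qq_pos
  have hq1 : qq < 1 := by linarith only [qq_lt]
  set Cm : ℝ := 6 * L.C + L.C * lam ^ (a0 / 2 : ℝ) + lam ^ (a0 : ℝ) + lam ^ (W : ℝ) with hCm
  have p1 : 0 < lam ^ (a0 / 2 : ℝ) := Real.rpow_pos_of_pos lam_pos _
  have p2 : 0 < lam ^ (a0 : ℝ) := Real.rpow_pos_of_pos lam_pos _
  have p3 : 0 < lam ^ (W : ℝ) := Real.rpow_pos_of_pos lam_pos _
  have hCm0 : 0 < Cm := by positivity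
  have p4 : 0 < L.C := by linarith only [hC]
  have p5 : 0 < L.C * lam ^ (a0 / 2 : ℝ) := mul_pos p4 p1
  have k1 : 6 * L.C ≤ Cm := by rw [hCm]; linarith only [p2, p3, p5]
  have k2 : L.C * lam ^ (a0 / 2 : ℝ) ≤ Cm := by rw [hCm]; linarith only [p2, p3, p4]
  have k3 : lam ^ (a0 : ℝ) ≤ Cm := by rw [hCm]; linarith only [p3, p4, p5]
  have k4 : lam ^ (W : ℝ) ≤ Cm := by rw [hCm]; linarith only [p2, p4, p5]
  obtain ⟨K, hK⟩ := exists_pow_lt_of_lt_one (show 0 < ρ / 3 / Cm by positivity) hq1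
  have hKn : ∀ c : ℝ, 0 ≤ c → c ≤ Cm → ∀ n : ℕ, K ≤ n → c * qq ^ n ≤ ρ / 3 := by
    intro c hc0 hc n hn
    calc c * qq ^ n ≤ Cm * qq ^ K :=
          mul_le_mul hc (pow_le_pow_of_le_one hq0.le hq1.le hn) (by positivity) hCm0.le
      _ ≤ Cm * (ρ / 3 / Cm) := by gcongr
      _ = ρ / 3 := by field_simp
  refine ⟨D2 * K' * D1, K, fun m => ?_⟩
  choose H hHc hHW hH using fun u : ℝ => hD1 m u 0
  set uj : ℕ → ℝ := fun j => L.gr m 0 0 j with huj
  refine ⟨(Finset.range (L.grN m 0 0 1000)).biUnion fun j =>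
    (H (uj j)).image fun w => ((uj j, 0, w) : P), ?_, ?_⟩
  · have h1 : ((Finset.range (L.grN m 0 0 1000)).biUnion fun j =>
        (H (uj j)).image fun w => ((uj j, 0, w) : P)).card ≤
        ∑ j ∈ Finset.range (L.grN m 0 0 1000), D1 * (m + 1) := by
      refine Finset.card_biUnion_le.trans (Finset.sum_le_sum fun j _ => ?_)
      exact Finset.card_image_le.trans (hHc _)
    rw [Finset.sum_const, Finset.card_range, smul_eq_mul] at h1
    have h2 := hD2' m 0 0 0 0
    have h3 := (hgr m 0 0).2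
    have h4 : (L.grN m 0 0 1000 : ℝ) ≤ D2 * (K' * Real.exp (h * m)) := by
      have h2' : (L.grN m 0 0 1000 : ℝ) ≤ D2 * L.len m 0 0 := by exact_mod_cast h2
      refine h2'.trans ?_
      gcongr
    calc (((Finset.range (L.grN m 0 0 1000)).biUnion fun j =>
        (H (uj j)).image fun w => ((uj j, 0, w) : P)).card : ℝ)
        ≤ ((L.grN m 0 0 1000 * (D1 * (m + 1)) : ℕ) : ℝ) := by exact_mod_cast h1
      _ = (L.grN m 0 0 1000 : ℝ) * (D1 * (m + 1)) := by push_cast; ring
      _ ≤ (D2 * (K' * Real.exp (h * m))) * (D1 * (m + 1)) := by gcongr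
      _ = D2 * K' * D1 * (m + 1) * Real.exp (h * m) := by ring
  · intro p
    obtain ⟨k, a, b, hu0, hu1, hs0, hs1, hr0, hr1⟩ := exists_act_box p
    rcases hact : act k a b p with ⟨u, s, r⟩
    rw [hact] at hu0 hu1 hs0 hs1 hr0 hr1
    simp only at hu0 hu1 hs0 hs1 hr0 hr1
    -- the greedy interval containing `u`
    obtain ⟨j, hj1, hj2⟩ : ∃ j, uj j ≤ u ∧ u < uj (j + 1) := by
      have hex : ∃ j, u < uj j := by
        obtain ⟨j, hj⟩ := L.gr_unbounded m 0 0 (u + 1)
        exact ⟨j, by change u < L.gr m 0 0 j; linarith only [hj]⟩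
      have hf := Nat.find_spec hex
      have hne : Nat.find hex ≠ 0 := by
        intro h0
        rw [h0] at hf
        have : uj 0 = 0 := L.gr_zero m 0 0
        linarith only [hu0, hf, this]
      obtain ⟨j, hj⟩ := Nat.exists_eq_succ_of_ne_zero hne
      refine ⟨j, ?_, ?_⟩
      · have := Nat.find_min hex (m := j) (by omega)
        exact not_lt.1 this
      · rw [hj] at hf; exact hf
    have hjN : j < L.grN m 0 0 1000 := by
      have h1 := L.le_gr_grN m 0 0 1000
      rw [← (L.gr_strictMono m 0 0).lt_iff_lt]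
      have h2 : L.gr m 0 0 j ≤ u := hj1
      have := lam_lt
      linarith only [hu1, h1, h2, this]
    set n : ℕ := L.gb m 0 0 j with hn
    have hstep : uj (j + 1) - uj j = lam ^ (-(n : ℤ)) := by
      have := L.gr_succ m 0 0 j
      simp only [huj]
      rw [this]; ring
    have hdist : |uj j - u| ≤ lam ^ (-(n : ℤ)) := by
      rw [abs_sub_comm, abs_of_nonneg (by linarith only [hj1])]
      linarith only [hj2, hstep]
    have hblk : L.X m (uj j) 0 < n + 1 := by
      have := L.lt_blk m (0 + uj j) 0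
      rw [zero_add] at this
      rw [hn]
      unfold gb
      rw [zero_add]
      exact this
    have hs' : |(0 : ℝ) - s| ≤ 1 := by rw [zero_sub, abs_neg, abs_of_nonneg hs0]; exact hs1.le
    have htop : L.it m (uj j) s r ≤ ((n : ℤ) : ℝ) + a0 := by
      have e1 := abs_le.1 (L.it_near m (uj j) s r 0)
      have e2 := abs_le.1 (L.it_close_s m (uj j) 0 s 0 hs' le_rfl)
      have e3 : L.it m (uj j) 0 0 < n + 1 := hblk
      have e4 : |r - 0| ≤ 1 := by rw [sub_zero, abs_of_nonneg hr0]; exact hr1.le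
      push_cast
      linarith only [e1.2, e2.2, e3, e4]
    have hsu := L.shadow_u m n a0 (uj j) u s r (by linarith only [p4]) hdist htop
    obtain ⟨w, hw1, hw2⟩ := L.shadow_s m (uj j) s 0 r (by rw [sub_zero, abs_of_nonneg hs0]; exact hs1.le) hr0
    have hwW : |w| ≤ W := by
      have h1 := hw2 0 (Nat.zero_le _)
      rw [it_zero, it_zero, pow_zero, mul_one] at h1
      have h2 := abs_le.1 h1
      rw [abs_le]
      constructor <;> linarith only [h2.1, h2.2, hr0, hr1]
    obtain ⟨w', hw'H, hw'w, hw'⟩ := hH (uj j) w hwW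
    have hw'W := hHW (uj j) w' hw'H
    refine ⟨(uj j, 0, w'), ?_, k, a, b, ?_⟩
    · rw [Finset.mem_biUnion]
      exact ⟨j, Finset.mem_range.2 hjN, Finset.mem_image.2 ⟨w', hw'H, rfl⟩⟩
    · intro t hKt htm
      have htm' : t ≤ m := by omega
      have hKmt : K ≤ m - t := by omega
      rw [hact, fhat_iterate, fhat_iterate]
      have b1 := L.it_ge t (uj j) 0 w'
      have b2 : L.it t (uj j) 0 w' ≤ ((n : ℤ) : ℝ) + (a0 - 9 / 10 * ((m - t : ℕ) : ℝ)) := by
        have c1 := L.it_add t (m - t) (uj j) 0 w'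
        rw [Nat.add_sub_cancel' htm'] at c1
        have c2 := L.it_ge (m - t) (uj j) 0 (L.it t (uj j) 0 w')
        rw [← c1] at c2
        have c3 := L.it_mono m (uj j) 0 hw'w
        rw [hw1] at c3
        linarith only [htop, c2, c3]
      refine ⟨?_, ?_, ?_⟩
      · change lam ^ (L.it t (uj j) 0 w' : ℝ) * |uj j - u| ≤ ρ
        calc lam ^ (L.it t (uj j) 0 w' : ℝ) * |uj j - u|
            ≤ lam ^ (((n : ℤ) : ℝ) + (a0 - 9 / 10 * ((m - t : ℕ) : ℝ)) : ℝ) * lam ^ (-(n : ℤ)) := by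
              apply mul_le_mul _ hdist (abs_nonneg _) (Real.rpow_pos_of_pos lam_pos _).le
              exact Real.rpow_le_rpow_of_exponent_le B4a_one_lt.le b2
          _ = lam ^ (a0 - 9 / 10 * ((m - t : ℕ) : ℝ) : ℝ) := by
              rw [← Real.rpow_intCast, ← Real.rpow_add lam_pos]
              congr 1
              push_cast
              ring
          _ ≤ lam ^ (a0 : ℝ) * qq ^ (m - t) := B4a_pow a0 (m - t)
          _ ≤ ρ / 3 := hKn _ p2.le k3 _ hKmt
          _ ≤ ρ := by linarith only [hρ]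
      · change lam ^ (-(L.it t (uj j) 0 w') : ℝ) * |0 - s| ≤ ρ
        calc lam ^ (-(L.it t (uj j) 0 w') : ℝ) * |0 - s|
            ≤ lam ^ (W - 9 / 10 * (t : ℝ) : ℝ) * 1 := by
              apply mul_le_mul _ hs' (abs_nonneg _) (Real.rpow_pos_of_pos lam_pos _).le
              apply Real.rpow_le_rpow_of_exponent_le B4a_one_lt.le
              linarith only [hw'W, b1]
          _ = lam ^ (W - 9 / 10 * (t : ℝ) : ℝ) := mul_one _
          _ ≤ lam ^ (W : ℝ) * qq ^ t := B4a_pow W t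
          _ ≤ ρ / 3 := hKn _ p3.le k4 _ hKt
          _ ≤ ρ := by linarith only [hρ]
      · change |L.it t (uj j) 0 w' - L.it t u s r| ≤ ρ
        have d1 := hw' t htm'
        have d2 := hw2 t htm'
        have d3 := hsu t htm'
        have d4 := hKn (6 * L.C) (by linarith only [p4]) k1 t hKt
        have d5 := hKn (L.C * lam ^ (a0 / 2 : ℝ)) p5.le k2 (m - t) hKmt
        have e1 := abs_le.1 d1
        have e2 := abs_le.1 (d2.trans d4)
        have e3 := abs_le.1 (d3.trans d5)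
        rw [abs_le]
        constructor <;> linarith only [e1.1, e1.2, e2.1, e2.2, e3.1, e3.2]

theorem cover_exists {h : ℝ} (hL : L.IsGrowth h) (ρ : ℝ) (hρ : 0 < ρ) :
    ∃ D : ℝ, ∀ m : ℕ, ∃ Q : Finset P,
      (Q.card : ℝ) ≤ D * (m + 1) * Real.exp (h * m) ∧
      ∀ p : P, ∃ q ∈ Q, ∃ k a b : ℤ, ∀ t : ℕ, t < m →
        close ρ (L.fhat^[t] q) (L.fhat^[t] (act k a b p)) := by
  classical
  obtain ⟨D, K, hDK⟩ := L.cover_middle hL ρ hρ
  refine ⟨|D| * (2 * K + 1) * Real.exp (h * (2 * K)), fun m => ?_⟩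
  obtain ⟨Q, hQc, hQ⟩ := hDK (m + 2 * K)
  refine ⟨Q.image (L.fhat^[K]), ?_, ?_⟩
  · have h1 : ((Q.image (L.fhat^[K])).card : ℝ) ≤ Q.card := by
      exact_mod_cast Finset.card_image_le
    refine h1.trans (hQc.trans ?_)
    have hm0 : (0 : ℝ) ≤ m := Nat.cast_nonneg m
    have hK0 : (0 : ℝ) ≤ K := Nat.cast_nonneg K
    push_cast
    have e1 : Real.exp (h * ((m : ℝ) + 2 * K)) = Real.exp (h * (2 * K)) * Real.exp (h * m) := by
      rw [← Real.exp_add]; congr 1; ring
    rw [e1]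
    have e2 : D * ((m : ℝ) + 2 * K + 1) ≤ |D| * ((2 * K + 1) * (m + 1)) := by
      have e3 : (m : ℝ) + 2 * K + 1 ≤ (2 * K + 1) * (m + 1) := by nlinarith only
      calc D * ((m : ℝ) + 2 * K + 1) ≤ |D| * ((m : ℝ) + 2 * K + 1) := by
            gcongr; exact le_abs_self D
        _ ≤ |D| * ((2 * K + 1) * (m + 1)) := by gcongr
    calc D * ((m : ℝ) + 2 * K + 1) * (Real.exp (h * (2 * K)) * Real.exp (h * m))
        ≤ |D| * ((2 * K + 1) * (m + 1)) * (Real.exp (h * (2 * K)) * Real.exp (h * m)) := by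
          gcongr
      _ = |D| * (2 * K + 1) * Real.exp (h * (2 * K)) * (m + 1) * Real.exp (h * m) := by ring
  · intro p
    obtain ⟨p', hp'⟩ := L.fhat_surjective.iterate K p
    obtain ⟨q, hq, k, a, b, hc⟩ := hQ p'
    refine ⟨L.fhat^[K] q, Finset.mem_image.2 ⟨q, hq, rfl⟩, k, a, b, fun t ht => ?_⟩
    have h2 := hc (t + K) (by omega) (by omega)
    rw [← Function.iterate_add_apply, ← hp', ← L.fhat_iterate_act K k a b p',
      ← Function.iterate_add_apply]
    exact h2

end LeafSystem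

end

end MPd1f192

end PartB4a

section PartB4b

/-! # B4b. Separated sets (lower bound for the entropy) -/

open MeasureTheory Set Filter Topology

namespace MPd1f192

noncomputable section

theorem B4b_one_lt : (1 : ℝ) < lam := by linarith only [lam_gt]

theorem B4b_rho : (lam ^ (-2 : ℤ) : ℝ) = lam ^ (-2 : ℝ) := by
  rw [← Real.rpow_intCast]
  norm_num

theorem B4b_rho_lt : (lam ^ (-2 : ℤ) : ℝ) < 1 / 10 := by
  have h1 : (lam ^ (-2 : ℤ) : ℝ) = (lam ^ 2)⁻¹ := by
    rw [zpow_neg]; norm_cast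
  rw [h1]
  have h2 : (100 : ℝ) < lam ^ 2 := by nlinarith only [lam_gt]
  have h3 : (lam ^ 2)⁻¹ < (100 : ℝ)⁻¹ := by gcongr
  linarith only [h3]

/-- One step of the induction. -/
theorem B4b_key {R R' x x' : ℝ} {k a b : ℤ} (hR : |R - R'| ≤ 1 / 2)
    (hx : lam ^ (R : ℝ) * |x - x'| ≤ 1)
    (hc : close (lam ^ (-2 : ℤ)) (x, 0, R) (act k a b (x', 0, R'))) :
    lam ^ (R : ℝ) * |x - x'| ≤ lam ^ (-2 : ℤ) ∧ |R - R'| ≤ lam ^ (-2 : ℤ) := by
  have hρ := B4b_rho_lt
  have hρ0 : (0 : ℝ) < lam ^ (-2 : ℤ) := zpow_pos lam_pos _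
  set ρ : ℝ := lam ^ (-2 : ℤ) with hρdef
  obtain ⟨h1, h2, h3⟩ := hc
  simp only [act] at h1 h2 h3
  have hk : k = 0 := by
    have h4 : |(k : ℝ)| < 1 := by
      have h5 : (k : ℝ) = (R - R') - (R - (R' + k)) := by ring
      rw [h5]
      calc |(R - R') - (R - (R' + k))| ≤ |R - R'| + |R - (R' + k)| := abs_sub _ _
        _ ≤ 1 / 2 + ρ := add_le_add hR h3
        _ < 1 := by linarith only [hρ]
    have h6 : |k| < 1 := by
      rw [← Int.cast_abs] at h4
      exact_mod_cast h4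
    exact Int.abs_lt_one_iff.1 h6
  subst hk
  simp only [neg_zero, zpow_zero, one_mul, zero_add, Int.cast_zero, add_zero, zero_sub,
    abs_neg] at h1 h2 h3
  have hpos : 0 < lam ^ (R : ℝ) := Real.rpow_pos_of_pos lam_pos _
  have hpos' : 0 < lam ^ (-R : ℝ) := Real.rpow_pos_of_pos lam_pos _
  have hmul : lam ^ (R : ℝ) * lam ^ (-R : ℝ) = 1 := by
    rw [← Real.rpow_add lam_pos]; simp
  have h7 : lam ^ (R : ℝ) * |(a : ℝ) + b * lam| ≤ 1 + ρ := by
    have h8 : (a : ℝ) + b * lam = (x - x') - (x - (x' + (a + b * lam))) := by ring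
    calc lam ^ (R : ℝ) * |(a : ℝ) + b * lam|
        = lam ^ (R : ℝ) * |(x - x') - (x - (x' + (a + b * lam)))| := by rw [← h8]
      _ ≤ lam ^ (R : ℝ) * (|x - x'| + |x - (x' + (a + b * lam))|) := by
          gcongr; exact abs_sub _ _
      _ = lam ^ (R : ℝ) * |x - x'| + lam ^ (R : ℝ) * |x - (x' + (a + b * lam))| := by ring
      _ ≤ 1 + ρ := add_le_add hx h1
  have h9 : |((a : ℝ) + b * lam) * (a + b * lam⁻¹)| < 1 := by
    rw [abs_mul]
    calc |(a : ℝ) + b * lam| * |(a : ℝ) + b * lam⁻¹|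
        = (lam ^ (R : ℝ) * |(a : ℝ) + b * lam|) * (lam ^ (-R : ℝ) * |(a : ℝ) + b * lam⁻¹|) := by
          rw [show (lam ^ (R : ℝ) * |(a : ℝ) + b * lam|) * (lam ^ (-R : ℝ) * |(a : ℝ) + b * lam⁻¹|)
            = (lam ^ (R : ℝ) * lam ^ (-R : ℝ)) * (|(a : ℝ) + b * lam| * |(a : ℝ) + b * lam⁻¹|) by
            ring, hmul, one_mul]
      _ ≤ (1 + ρ) * ρ := by
          apply mul_le_mul h7 h2 (by positivity) (by linarith only [hρ0])
      _ < 1 := by nlinarith only [hρ, hρ0]
  obtain ⟨ha, hb⟩ := lattice_eq_zero a b h9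
  subst ha hb
  simp only [Int.cast_zero, zero_mul, add_zero] at h1
  exact ⟨h1, h3⟩

namespace LeafSystem

variable (L : LeafSystem)

theorem B4b_X_succ (m : ℕ) (u s : ℝ) : |L.X (m + 1) u s - (L.X m u s + 1)| ≤ 1 / 10 := by
  unfold X
  rw [Function.iterate_succ_apply']
  exact L.near u s _

theorem B4b_step (m : ℕ) (x x' : ℝ) (hx0 : |x - x'| ≤ 1)
    (H : ∀ t : ℕ, t < m → ∃ k a b : ℤ,
          close (lam ^ (-2 : ℤ)) (L.fhat^[t] (x, 0, 0)) (act k a b (L.fhat^[t] (x', 0, 0)))) :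
    ∀ t : ℕ, t < m → lam ^ (L.X t x 0 : ℝ) * |x - x'| ≤ lam ^ (-2 : ℤ) ∧
      |L.X t x 0 - L.X t x' 0| ≤ lam ^ (-2 : ℤ) := by
  intro t
  induction t with
  | zero =>
    intro hm
    obtain ⟨k, a, b, hc⟩ := H 0 hm
    simp only [Function.iterate_zero, id] at hc
    have h0 : ∀ y : ℝ, L.X 0 y 0 = 0 := fun y => rfl
    rw [h0, h0]
    refine B4b_key (by norm_num) ?_ hc
    rw [Real.rpow_zero, one_mul]
    exact hx0
  | succ t ih =>
    intro hm
    obtain ⟨ih1, ih2⟩ := ih (by omega)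
    obtain ⟨k, a, b, hc⟩ := H (t + 1) hm
    rw [fhat_iterate, fhat_iterate] at hc
    have hρ := B4b_rho_lt
    have e1 := abs_le.1 (L.B4b_X_succ t x 0)
    have e2 := abs_le.1 (L.B4b_X_succ t x' 0)
    have e3 := abs_le.1 ih2
    refine B4b_key ?_ ?_ hc
    · rw [abs_le]
      constructor <;> linarith only [e1.1, e1.2, e2.1, e2.2, e3.1, e3.2, hρ]
    · change lam ^ (L.X (t + 1) x 0 : ℝ) * |x - x'| ≤ 1
      calc lam ^ (L.X (t + 1) x 0 : ℝ) * |x - x'|
          ≤ lam ^ (2 + L.X t x 0 : ℝ) * |x - x'| := by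
            gcongr
            · exact B4b_one_lt.le
            · linarith only [e1.2]
        _ = lam ^ (2 : ℝ) * (lam ^ (L.X t x 0 : ℝ) * |x - x'|) := by
            rw [Real.rpow_add lam_pos]; ring
        _ ≤ lam ^ (2 : ℝ) * lam ^ (-2 : ℤ) := by
            gcongr
            exact (Real.rpow_pos_of_pos lam_pos _).le
        _ = 1 := by
            rw [B4b_rho, ← Real.rpow_add lam_pos]; simp

/-- Greedy points are not close at time `m - 1`. -/
theorem B4b_sep (m : ℕ) (i j : ℕ) (hij : i < j) (R : ℝ)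
    (hR : L.X m (L.gr (m + 1) 0 0 i) 0 - 1 / 10 ≤ R) :
    lam ^ (-2 : ℤ) < lam ^ (R : ℝ) * |L.gr (m + 1) 0 0 i - L.gr (m + 1) 0 0 j| := by
  have h1 : lam ^ (-(L.gb (m + 1) 0 0 i : ℤ)) ≤
      |L.gr (m + 1) 0 0 i - L.gr (m + 1) 0 0 j| := by
    have h2 := L.gr_succ (m + 1) 0 0 i
    have h3 : L.gr (m + 1) 0 0 (i + 1) ≤ L.gr (m + 1) 0 0 j :=
      (L.gr_strictMono (m + 1) 0 0).monotone hij
    rw [abs_sub_comm]
    refine le_trans ?_ (le_abs_self _)
    linarith only [h2, h3]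
  have h4 : (L.gb (m + 1) 0 0 i : ℝ) ≤ L.X m (L.gr (m + 1) 0 0 i) 0 + 11 / 10 := by
    have h5 : (L.gb (m + 1) 0 0 i : ℝ) ≤ L.X (m + 1) (L.gr (m + 1) 0 0 i) 0 := by
      have := L.blk_le (m + 1) (0 + L.gr (m + 1) 0 0 i) 0
      rw [zero_add] at this
      unfold gb
      rw [zero_add]
      exact this
    have e1 := abs_le.1 (L.B4b_X_succ m (L.gr (m + 1) 0 0 i) 0)
    linarith only [e1.2, h5]
  have h6 : (lam ^ (-(L.gb (m + 1) 0 0 i : ℤ)) : ℝ) = lam ^ (-(L.gb (m + 1) 0 0 i : ℝ)) := by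
    rw [← Real.rpow_intCast]
    push_cast
    rfl
  rw [h6] at h1
  have hpos : 0 < lam ^ (R : ℝ) := Real.rpow_pos_of_pos lam_pos _
  calc (lam ^ (-2 : ℤ) : ℝ) = lam ^ (-2 : ℝ) := B4b_rho
    _ < lam ^ (R + -(L.gb (m + 1) 0 0 i : ℝ)) := by
        apply Real.rpow_lt_rpow_of_exponent_lt B4b_one_lt
        linarith only [hR, h4]
    _ = lam ^ (R : ℝ) * lam ^ (-(L.gb (m + 1) 0 0 i : ℝ)) := Real.rpow_add lam_pos _ _
    _ ≤ lam ^ (R : ℝ) * |L.gr (m + 1) 0 0 i - L.gr (m + 1) 0 0 j| := by gcongr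

/-- Separated sets in the quotient by the group: two points of `Q` whose orbits are `lam⁻²`-close
modulo the group at all times `t < m` are equal. -/
theorem separated_exists {h : ℝ} (hL : L.IsGrowth h) : ∃ c : ℝ, 0 < c ∧ ∀ m : ℕ, 1 ≤ m →
    ∃ Q : Finset P, c * Real.exp (h * m) ≤ Q.card ∧
      ∀ p ∈ Q, ∀ p' ∈ Q,
        (∀ t : ℕ, t < m → ∃ k a b : ℤ,
          close (lam ^ (-2 : ℤ)) (L.fhat^[t] p) (act k a b (L.fhat^[t] p'))) → p = p' := by
  obtain ⟨D, hD1, hD⟩ := L.le_grN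
  obtain ⟨K, hK, hK'⟩ := hL
  have hD0 : 0 < D := by linarith only [hD1]
  refine ⟨K⁻¹ / D, by positivity, fun m hm => ?_⟩
  classical
  have hinj : Function.Injective fun j : ℕ => ((L.gr m 0 0 j, 0, 0) : P) := by
    intro i j hij
    simp only [Prod.mk.injEq, and_true] at hij
    exact (L.gr_strictMono m 0 0).injective hij
  refine ⟨(Finset.range (L.grN m 0 0 1)).image fun j => ((L.gr m 0 0 j, 0, 0) : P), ?_, ?_⟩
  · rw [Finset.card_image_of_injective _ hinj, Finset.card_range]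
    have h1 := (hK' m 0 0).1
    have h2 := hD m 0 0 0 0
    rw [div_mul_eq_mul_div, div_le_iff₀ hD0]
    linarith only [h1, h2]
  · intro p hp p' hp' H
    obtain ⟨i, hi, rfl⟩ := Finset.mem_image.1 hp
    obtain ⟨j, hj, rfl⟩ := Finset.mem_image.1 hp'
    have hi' := Finset.mem_range.1 hi
    have hj' := Finset.mem_range.1 hj
    have hx0 : |L.gr m 0 0 i - L.gr m 0 0 j| ≤ 1 := by
      have a1 := L.gr_nonneg m 0 0 i
      have a2 := L.gr_nonneg m 0 0 j
      have a3 := L.gr_lt_of_lt_grN m 0 0 1 i hi'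
      have a4 := L.gr_lt_of_lt_grN m 0 0 1 j hj'
      rw [abs_le]
      constructor <;> linarith only [a1, a4, a2, a3]
    obtain ⟨n, rfl⟩ : ∃ n, m = n + 1 := ⟨m - 1, by omega⟩
    obtain ⟨h1, h2⟩ := L.B4b_step (n + 1) _ _ hx0 H n (Nat.lt_succ_self n)
    have hρ := B4b_rho_lt
    have h2' := abs_le.1 h2
    rcases lt_trichotomy i j with hij | hij | hij
    · have := L.B4b_sep n i j hij (L.X n (L.gr (n + 1) 0 0 i) 0) (by linarith only)
      exact absurd h1 (not_le.2 this)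
    · rw [hij]
    · have := L.B4b_sep n j i hij (L.X n (L.gr (n + 1) 0 0 i) 0) (by linarith only [h2'.1, hρ])
      rw [abs_sub_comm] at this
      exact absurd h1 (not_le.2 this)

end LeafSystem

end

end MPd1f192

end PartB4b

section PartB4c

/-! # B4c. Entourages of the quotient -/

open MeasureTheory Set Filter Topology

set_option linter.style.haveILetI false
set_option linter.unusedVariables false

namespace MPd1f192

noncomputable section

variable {M : Type*} [TopologicalSpace M] [CompactSpace M] [T2Space M] {π : P → M}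

/-- The compact box. -/
def B4c_box : Set P := Icc (0 : ℝ) 1000 ×ˢ (Icc (0 : ℝ) 1 ×ˢ Icc (0 : ℝ) 1)

theorem B4c_isCompact_box : IsCompact B4c_box :=
  isCompact_Icc.prod (isCompact_Icc.prod isCompact_Icc)

theorem B4c_exists_box (p : P) : ∃ k a b : ℤ, act k a b p ∈ B4c_box := by
  obtain ⟨k, a, b, h1, h2, h3, h4, h5, h6⟩ := exists_act_box p
  exact ⟨k, a, b, ⟨h1, (h2.trans lam_lt).le⟩, ⟨h3, h4.le⟩, ⟨h5, h6.le⟩⟩

omit [CompactSpace M] [T2Space M] [TopologicalSpace M] in
theorem B4c_proj_act (hfib : ∀ p p', π p = π p' ↔ ∃ k m n : ℤ, p' = act k m n p) (k m n : ℤ)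
    (p : P) : π (act k m n p) = π p :=
  ((hfib p _).2 ⟨k, m, n, rfl⟩).symm

omit [CompactSpace M] in
/-- The projection is open. -/
theorem isOpenMap_proj (hc : Continuous π) (hs : Function.Surjective π)
    (hfib : ∀ p p', π p = π p' ↔ ∃ k m n : ℤ, p' = act k m n p) : IsOpenMap π := by
  intro O hO
  have h1 : IsOpen (π ⁻¹' (π '' O)) := by
    have h2 : π ⁻¹' (π '' O) = ⋃ (k : ℤ) (m : ℤ) (n : ℤ), act k m n ⁻¹' O := by
      ext p
      simp only [mem_preimage, mem_image, mem_iUnion]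
      constructor
      · rintro ⟨o, ho, hop⟩
        obtain ⟨k, m, n, h3⟩ := (hfib p o).1 hop.symm
        exact ⟨k, m, n, h3 ▸ ho⟩
      · rintro ⟨k, m, n, h3⟩
        exact ⟨_, h3, B4c_proj_act hfib k m n p⟩
    rw [h2]
    exact isOpen_iUnion fun k => isOpen_iUnion fun m => isOpen_iUnion fun n =>
      hO.preimage (bcontinuous_act k m n)
  have h3 : (π '' O)ᶜ = π '' (B4c_box \ π ⁻¹' (π '' O)) := by
    ext x
    constructor
    · intro hx
      obtain ⟨p, rfl⟩ := hs x
      obtain ⟨k, a, b, hb⟩ := B4c_exists_box p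
      refine ⟨act k a b p, ⟨hb, ?_⟩, B4c_proj_act hfib k a b p⟩
      rw [mem_preimage, B4c_proj_act hfib]
      exact hx
    · rintro ⟨p, ⟨-, hp⟩, rfl⟩
      exact hp
  have h4 : IsCompact (B4c_box \ π ⁻¹' (π '' O)) := B4c_isCompact_box.diff h1
  have h5 : IsClosed (π '' O)ᶜ := by
    rw [h3]
    exact (h4.image hc).isClosed
  exact isClosed_compl_iff.1 h5

/-- Close points of `P` have close images. -/
theorem close_entourage (hc : Continuous π) (hs : Function.Surjective π)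
    (hfib : ∀ p p', π p = π p' ↔ ∃ k m n : ℤ, p' = act k m n p)
    (V : Set (M × M)) (hV : V ∈ @uniformity M uniformSpaceOfCompactR1) :
    ∃ ρ : ℝ, 0 < ρ ∧ ∀ p p', close ρ p p' → (π p, π p') ∈ V := by
  letI : UniformSpace M := uniformSpaceOfCompactR1
  have h1 := B4c_isCompact_box.uniformContinuousAt_of_continuousAt π
    (fun a _ => hc.continuousAt) hV
  obtain ⟨ε, hε, h2⟩ := Metric.mem_uniformity_dist.1 h1
  refine ⟨ε / 1001, by positivity, fun p p' hpp' => ?_⟩
  obtain ⟨k, a, b, hb⟩ := B4c_exists_box p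
  have h3 := (close_act (ε / 1001) k a b p p').2 hpp'
  have h4 : dist (act k a b p) (act k a b p') < ε := by
    obtain ⟨c1, c2, c3⟩ := h3
    obtain ⟨⟨b1, b2⟩, ⟨b3, b4⟩, ⟨b5, b6⟩⟩ := hb
    set q := act k a b p
    set q' := act k a b p'
    have hl1 : (1 : ℝ) ≤ lam := by linarith only [lam_gt]
    have e1 : (1 : ℝ) ≤ lam ^ (q.2.2 : ℝ) := Real.one_le_rpow hl1 b5
    have e2 : lam ^ (q.2.2 : ℝ) ≤ 1000 := by
      calc lam ^ (q.2.2 : ℝ) ≤ lam ^ (1 : ℝ) := Real.rpow_le_rpow_of_exponent_le hl1 b6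
        _ = lam := Real.rpow_one _
        _ ≤ 1000 := lam_lt.le
    have e3 : |q.1 - q'.1| ≤ ε / 1001 := by
      refine le_trans ?_ c1
      nlinarith only [abs_nonneg (q.1 - q'.1), e1]
    have e4 : |q.2.1 - q'.2.1| ≤ 1000 * (ε / 1001) := by
      rw [Real.rpow_neg lam_pos.le] at c2
      have hpos : 0 < lam ^ (q.2.2 : ℝ) := by positivity
      have : |q.2.1 - q'.2.1| ≤ lam ^ (q.2.2 : ℝ) * (ε / 1001) := by
        rw [inv_mul_le_iff₀ hpos] at c2
        exact c2
      refine this.trans ?_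
      gcongr
    rw [Prod.dist_eq, Prod.dist_eq, Real.dist_eq, Real.dist_eq, Real.dist_eq]
    refine max_lt ?_ (max_lt ?_ ?_)
    · refine e3.trans_lt ?_
      rw [div_lt_iff₀ (by norm_num)]; linarith only [hε]
    · refine e4.trans_lt ?_
      rw [← mul_div_assoc, div_lt_iff₀ (by norm_num)]; linarith only [hε]
    · refine c3.trans_lt ?_
      rw [div_lt_iff₀ (by norm_num)]; linarith only [hε]
  have h5 := h2 h4 hb
  simpa [B4c_proj_act hfib] using h5

/-- Close points of `M` have close lifts. -/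
theorem entourage_close (hc : Continuous π) (hs : Function.Surjective π)
    (hfib : ∀ p p', π p = π p' ↔ ∃ k m n : ℤ, p' = act k m n p) (ρ : ℝ) (hρ : 0 < ρ) :
    ∃ V ∈ @uniformity M uniformSpaceOfCompactR1,
      ∀ p p', (π p, π p') ∈ V → ∃ k m n : ℤ, close ρ p (act k m n p') := by
  refine ⟨{x | ∃ p p', π p = x.1 ∧ π p' = x.2 ∧ close ρ p p'}, ?_, ?_⟩
  · change _ ∈ 𝓝ˢ (diagonal M)
    rw [mem_nhdsSet_iff_forall]
    rintro ⟨x, y⟩ hxy
    obtain rfl : x = y := hxy
    obtain ⟨p, rfl⟩ := hs x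
    have h1 : {o : P × P | close ρ o.1 o.2} ∈ 𝓝 (p, p) := by
      have hlam : ∀ t : ℝ, 0 < lam ^ t := fun t => Real.rpow_pos_of_pos lam_pos t
      have c1 : Continuous fun o : P × P => lam ^ (o.1.2.2 : ℝ) * |o.1.1 - o.2.1| := by
        refine Continuous.mul ?_ (by fun_prop)
        exact Continuous.rpow continuous_const (by fun_prop) (fun _ => Or.inl lam_ne_zero)
      have c2 : Continuous fun o : P × P => lam ^ (-o.1.2.2 : ℝ) * |o.1.2.1 - o.2.2.1| := by
        refine Continuous.mul ?_ (by fun_prop)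
        exact Continuous.rpow continuous_const (by fun_prop) (fun _ => Or.inl lam_ne_zero)
      have c3 : Continuous fun o : P × P => |o.1.2.2 - o.2.2.2| := by fun_prop
      have t1 := (c1.tendsto (p, p)).eventually_lt_const (u := ρ) (by simpa using hρ)
      have t2 := (c2.tendsto (p, p)).eventually_lt_const (u := ρ) (by simpa using hρ)
      have t3 := (c3.tendsto (p, p)).eventually_lt_const (u := ρ) (by simpa using hρ)
      filter_upwards [t1, t2, t3] with o o1 o2 o3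
      exact ⟨o1.le, o2.le, o3.le⟩
    have h2 := ((isOpenMap_proj hc hs hfib).prodMap (isOpenMap_proj hc hs hfib)).image_mem_nhds h1
    refine mem_of_superset h2 ?_
    rintro _ ⟨⟨o, o'⟩, ho, rfl⟩
    exact ⟨o, o', rfl, rfl, ho⟩
  · rintro p p' ⟨o, o', h1, h2, h3⟩
    obtain ⟨k, m, n, rfl⟩ := (hfib o p).1 h1
    obtain ⟨k', m', n', h4⟩ := (hfib p' o').1 h2.symm
    obtain ⟨m'', n'', h5⟩ := bact_act k m n k' m' n'
    refine ⟨k + k', m'', n'', ?_⟩
    rw [← h5, ← h4]
    exact (close_act ρ k m n o o').2 h3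

end

end MPd1f192

end PartB4c

section PartB4d

/-! # B4d. The growth rate is the topological entropy -/

open MeasureTheory Set Filter Topology

namespace MPd1f192

noncomputable section

namespace B4d

theorem eventually_le (D h h' : ℝ) (hh : h < h') :
    ∀ᶠ n : ℕ in atTop, D * ((n : ℝ) + 1) * Real.exp (h * n) ≤ Real.exp (h' * n) := by
  set r : ℝ := Real.exp (-(h' - h)) with hr
  have r0 : 0 ≤ r := (Real.exp_pos _).le
  have r1 : r < 1 := by
    rw [hr, Real.exp_lt_one_iff]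
    linarith only [hh]
  have t1 : Tendsto (fun n : ℕ => (n : ℝ) * r ^ n) atTop (𝓝 0) := tendsto_self_mul_const_pow_of_lt_one r0 r1
  have t2 : Tendsto (fun n : ℕ => r ^ n) atTop (𝓝 0) := tendsto_pow_atTop_nhds_zero_of_lt_one r0 r1
  have t3 : Tendsto (fun n : ℕ => D * ((n : ℝ) * r ^ n + r ^ n)) atTop (𝓝 0) := by
    have := (t1.add t2).const_mul D
    simpa using this
  filter_upwards [t3.eventually (gt_mem_nhds (show (0 : ℝ) < 1 by norm_num))] with n hn
  have e : Real.exp (h * n) = r ^ n * Real.exp (h' * n) := by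
    rw [hr, ← Real.exp_nat_mul, ← Real.exp_add]
    congr 1
    ring
  rw [e]
  have hp := Real.exp_pos (h' * n)
  calc D * ((n : ℝ) + 1) * (r ^ n * Real.exp (h' * n)) = (D * ((n : ℝ) * r ^ n + r ^ n)) * Real.exp (h' * n) := by ring
    _ ≤ 1 * Real.exp (h' * n) := mul_le_mul_of_nonneg_right hn.le hp.le
    _ = _ := one_mul _

theorem exp_coe_mul (h : ℝ) (n : ℕ) :
    EReal.exp ((h : EReal) * (n : EReal)) = ENNReal.ofReal (Real.exp (h * n)) := by
  rw [show (n : EReal) = ((n : ℝ) : EReal) from (EReal.coe_natCast).symm, ← EReal.coe_mul, EReal.exp_coe]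

end B4d

open B4d

/-- Abstract upper bound: small dynamical covers for every entourage. -/
theorem htop_le_of_covers {M : Type*} [TopologicalSpace M] [CompactSpace M] [T2Space M]
    (f : M → M) (h : ℝ)
    (H : ∀ V ∈ @uniformity M uniformSpaceOfCompactR1, ∃ D : ℝ, ∀ m : ℕ, ∃ Q : Finset M,
      (Q.card : ℝ) ≤ D * (m + 1) * Real.exp (h * m) ∧
      ∀ y : M, ∃ z ∈ Q, ∀ t : ℕ, t < m → (f^[t] z, f^[t] y) ∈ V) :
    htop f ≤ (h : EReal) := by
  letI : UniformSpace M := uniformSpaceOfCompactR1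
  rw [← EReal.le_of_forall_lt_iff_le]
  intro h' hh'
  have hh : h < h' := by exact_mod_cast hh'
  unfold htop Dynamics.coverEntropy
  apply iSup₂_le
  intro V hV
  unfold Dynamics.coverEntropyEntourage
  apply Eventually.expGrowthSup_le
  obtain ⟨D, hD⟩ := H (Prod.swap ⁻¹' V) (symm_le_uniformity hV)
  filter_upwards [eventually_le D h h' hh] with n hn
  obtain ⟨Q, hQ, hcov⟩ := hD n
  have h1 : Dynamics.IsDynCoverOf f univ V n (Q : Set M) := by
    intro y _
    obtain ⟨z, hz, hzt⟩ := hcov y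
    refine ⟨z, hz, ?_⟩
    show (y, z) ∈ Dynamics.dynEntourage f V n
    rw [Dynamics.mem_dynEntourage]
    intro t ht
    exact hzt t ht
  have h2 := ENat.toENNReal_mono h1.coverMincard_le_card
  rw [ENat.toENNReal_coe] at h2
  refine h2.trans ?_
  rw [exp_coe_mul, ← ENNReal.ofReal_natCast]
  exact ENNReal.ofReal_le_ofReal (hQ.trans hn)

/-- Abstract lower bound: large separated sets for one entourage. -/
theorem le_htop_of_separated {M : Type*} [TopologicalSpace M] [CompactSpace M] [T2Space M]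
    (f : M → M) (h c : ℝ) (hc : 0 < c) (V : Set (M × M))
    (hV : V ∈ @uniformity M uniformSpaceOfCompactR1)
    (H : ∀ m : ℕ, 1 ≤ m → ∃ Q : Finset M, c * Real.exp (h * m) ≤ Q.card ∧
      ∀ y ∈ Q, ∀ y' ∈ Q, (∀ t : ℕ, t < m → (f^[t] y, f^[t] y') ∈ V) → y = y') :
    (h : EReal) ≤ htop f := by
  letI : UniformSpace M := uniformSpaceOfCompactR1
  obtain ⟨W, hW, hWsymm, hWV⟩ := comp_symm_mem_uniformity_sets hV
  unfold htop
  refine le_trans ?_ (Dynamics.coverEntropyEntourage_le_coverEntropy f univ hW)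
  unfold Dynamics.coverEntropyEntourage
  have key : ∀ n : ℕ, 1 ≤ n → ENNReal.ofReal c * EReal.exp ((h : EReal) * (n : EReal))
      ≤ ((Dynamics.coverMincard f univ W n : ℕ∞) : ENNReal) := by
    intro n hn
    obtain ⟨Q, hQ, hsep⟩ := H n hn
    have h1 : (Q.card : ℕ∞) ≤ Dynamics.coverMincard f univ W n := by
      unfold Dynamics.coverMincard
      apply le_iInf₂
      intro s hs
      have hcov : ∀ y : M, ∃ z ∈ s, ∀ t < n, (f^[t] y, f^[t] z) ∈ W := by
        intro y
        obtain ⟨z, hz, hzt⟩ := hs (mem_univ y)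
        exact ⟨z, hz, Dynamics.mem_dynEntourage.1 hzt⟩
      choose g hg1 hg2 using hcov
      have : Q.card ≤ s.card := by
        apply Finset.card_le_card_of_injOn g (fun y _ => hg1 y)
        intro y hy y' hy' hyy
        apply hsep y hy y' hy'
        intro t ht
        apply hWV
        have a1 := hg2 y t ht
        have a2 := hg2 y' t ht
        rw [hyy] at a1
        exact ⟨_, a1, hWsymm.symm _ _ a2⟩
      exact_mod_cast this
    have h2 := ENat.toENNReal_mono h1
    rw [ENat.toENNReal_coe] at h2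
    refine le_trans ?_ h2
    rw [exp_coe_mul, ← ENNReal.ofReal_mul hc.le, ← ENNReal.ofReal_natCast]
    exact ENNReal.ofReal_le_ofReal hQ
  have h3 : ExpGrowth.expGrowthSup (fun n : ℕ => EReal.exp ((h : EReal) * (n : EReal)))
      ≤ ExpGrowth.expGrowthSup (fun n : ℕ => ((Dynamics.coverMincard f univ W n : ℕ∞) : ENNReal)) := by
    apply ExpGrowth.expGrowthSup_of_eventually_ge (b := ENNReal.ofReal c)
    · simpa using hc
    · filter_upwards [eventually_ge_atTop 1] with n hn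
      exact key n hn
  rw [ExpGrowth.expGrowthSup_exp] at h3
  exact h3

theorem growthIsEntropy : GrowthIsEntropy := by
  intro L h hL M _ _ _ π f hπ hsurj hf hfib hconj
  classical
  have hit : ∀ (t : ℕ) (p : P), π (L.fhat^[t] p) = f^[t] (π p) := by
    intro t
    induction t with
    | zero => intro p; rfl
    | succ t ih =>
      intro p
      rw [Function.iterate_succ_apply', Function.iterate_succ_apply', hconj, ih]
  have hact : ∀ (k a b : ℤ) (p : P), π (act k a b p) = π p := by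
    intro k a b p
    exact ((hfib p (act k a b p)).2 ⟨k, a, b, rfl⟩).symm
  apply le_antisymm
  · apply htop_le_of_covers
    intro V hV
    obtain ⟨ρ, hρ, hclose⟩ := close_entourage hπ hsurj hfib V hV
    obtain ⟨D, hD⟩ := L.cover_exists hL ρ hρ
    refine ⟨D, fun m => ?_⟩
    obtain ⟨Q, hQ, hcov⟩ := hD m
    refine ⟨Q.image π, ?_, ?_⟩
    · refine le_trans ?_ hQ
      exact_mod_cast Finset.card_image_le
    · intro y
      obtain ⟨p, rfl⟩ := hsurj y
      obtain ⟨q, hq, k, a, b, hqt⟩ := hcov p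
      refine ⟨π q, Finset.mem_image_of_mem π hq, fun t ht => ?_⟩
      have h1 := hclose _ _ (hqt t ht)
      rw [hit, hit, hact] at h1
      exact h1
  · obtain ⟨c, hc, hsep⟩ := L.separated_exists hL
    obtain ⟨V, hV, hVclose⟩ := entourage_close hπ hsurj hfib (lam ^ (-2 : ℤ)) (zpow_pos lam_pos _)
    apply le_htop_of_separated f h c hc V hV
    intro m hm
    obtain ⟨Q, hQ, hQs⟩ := hsep m hm
    have key : ∀ p ∈ Q, ∀ p' ∈ Q, (∀ t : ℕ, t < m → (f^[t] (π p), f^[t] (π p')) ∈ V) → p = p' := by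
      intro p hp p' hp' ht
      apply hQs p hp p' hp'
      intro t htm
      apply hVclose
      rw [hit, hit]
      exact ht t htm
    have hinj : Set.InjOn π Q := by
      intro p hp p' hp' hpp
      apply key p hp p' hp'
      intro t _
      rw [hpp]
      letI : UniformSpace M := uniformSpaceOfCompactR1
      exact refl_mem_uniformity hV
    refine ⟨Q.image π, ?_, ?_⟩
    · rw [Finset.card_image_of_injOn hinj]
      exact hQ
    · intro y hy y' hy' ht
      obtain ⟨p, hp, rfl⟩ := Finset.mem_image.1 hy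
      obtain ⟨p', hp', rfl⟩ := Finset.mem_image.1 hy'
      rw [key p hp p' hp' ht]

end

end MPd1f192

end PartB4d
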