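import Pool.Agent.W_MP_d1f192_an.DSetup

section PartDClosed

/-!
# Part D: the space of lifts is a Baire space

`LiftSet S` is closed in `Quad n` (compact-open topologies):
* `{z | ∀ x, HasFDerivAt z.1 (z.2.1 x) x}` is closed: for `z` in the closure use
  `hasFDerivAt_of_tendstoUniformlyOnFilter` with the filter `𝓝[S] z`; convergence in the compact-open
  topology is locally uniform (`ContinuousMap.tendsto_iff_tendstoLocallyUniformly`);
* the other conditions are closed by continuity of evaluation at a point (`ContinuousEvalConst`) and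
  of `(F, x) ↦ F x` (`ContinuousEval`), e.g. `z ↦ z.1 (z.2.2.1 x)` is continuous.
`Quad n` is a complete uniform space with countably generated uniformity
(`ContinuousMap.instCompleteSpace...`, `[WeaklyLocallyCompactSpace] [SigmaCompactSpace]`), so its
closed subset is a Baire space (`BaireSpace.of_pseudoEMetricSpace_completeSpace` or
`BaireSpace.of_completelyPseudoMetrizable`).
-/

open Set Filter Topology
open scoped Manifold ContDiff

set_option linter.style.haveILetI false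
set_option linter.unusedSectionVars false

namespace MPd1f192

noncomputable section

/-- pairs `(f, f')` with `f'` the derivative of `f` -/
def DClosedPairs (n : ℕ) : Set (C(Eu n, Eu n) × C(Eu n, Eu n →L[ℝ] Eu n)) :=
  {z | ∀ x, HasFDerivAt z.1 (z.2 x) x}

theorem DClosed_isClosed_pairs (n : ℕ) : IsClosed (DClosedPairs n) := by
  refine isClosed_of_closure_subset fun z hz => ?_
  have hne : (comap (Subtype.val : DClosedPairs n → _) (𝓝 z)).NeBot := by
    rw [comap_neBot_iff]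
    intro t ht
    obtain ⟨y, hyt, hyA⟩ := mem_closure_iff_nhds.1 hz t ht
    exact ⟨⟨y, hyA⟩, hyt⟩
  have h1 : Tendsto (fun a : DClosedPairs n => a.1.1) (comap Subtype.val (𝓝 z)) (𝓝 z.1) :=
    (continuous_fst.tendsto z).comp tendsto_comap
  have h2 : Tendsto (fun a : DClosedPairs n => a.1.2) (comap Subtype.val (𝓝 z)) (𝓝 z.2) :=
    (continuous_snd.tendsto z).comp tendsto_comap
  intro x
  have h2' := (ContinuousMap.tendsto_iff_tendstoLocallyUniformly.1 h2)
  refine hasFDerivAt_of_tendstoLocallyUniformlyOn (s := univ) isOpen_univ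
    (tendstoLocallyUniformlyOn_univ.2 h2') (fun a x _ => a.2 x) (fun y _ => ?_) (mem_univ x)
  exact ((ContinuousEvalConst.continuous_eval_const (F := C(Eu n, Eu n)) y).tendsto z.1).comp h1

theorem isClosed_liftSet {n : ℕ} {S : Set (Eu n → Eu n)} (hS : ∀ γ ∈ S, Continuous γ) :
    IsClosed (LiftSet S) := by
  have c1 : Continuous fun z : Quad n => z.1 := continuous_fst
  have c2 : Continuous fun z : Quad n => z.2.2.1 := continuous_fst.comp (continuous_snd.comp continuous_snd)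
  have e1 : IsClosed {z : Quad n | ∀ x, HasFDerivAt z.1 (z.2.1 x) x} := by
    have : Continuous fun z : Quad n => (z.1, z.2.1) := by fun_prop
    exact (DClosed_isClosed_pairs n).preimage this
  have e2 : IsClosed {z : Quad n | ∀ x, HasFDerivAt z.2.2.1 (z.2.2.2 x) x} := by
    have : Continuous fun z : Quad n => (z.2.2.1, z.2.2.2) := by fun_prop
    exact (DClosed_isClosed_pairs n).preimage this
  have e3 : IsClosed {z : Quad n | ∀ x, z.1 (z.2.2.1 x) = x} := by
    rw [ofPred_forall]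
    refine isClosed_iInter fun x => isClosed_eq ?_ continuous_const
    have h : Continuous fun z : Quad n => z.2.2.1 x :=
      (ContinuousEvalConst.continuous_eval_const (F := C(Eu n, Eu n)) x).comp c2
    exact c1.eval h
  have e4 : IsClosed {z : Quad n | ∀ x, z.2.2.1 (z.1 x) = x} := by
    rw [ofPred_forall]
    refine isClosed_iInter fun x => isClosed_eq ?_ continuous_const
    have h : Continuous fun z : Quad n => z.1 x :=
      (ContinuousEvalConst.continuous_eval_const (F := C(Eu n, Eu n)) x).comp c1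
    exact c2.eval h
  have e5 : IsClosed {z : Quad n | ∀ γ ∈ S, ∀ x, z.1 (γ x) = γ (z.1 x)} := by
    simp only [ofPred_forall]
    refine isClosed_iInter fun γ => isClosed_iInter fun hγ => isClosed_iInter fun x => isClosed_eq ?_ ?_
    · exact (ContinuousEvalConst.continuous_eval_const (F := C(Eu n, Eu n)) (γ x)).comp c1
    · exact (hS γ hγ).comp ((ContinuousEvalConst.continuous_eval_const (F := C(Eu n, Eu n)) x).comp c1)
  have : LiftSet S = {z : Quad n | ∀ x, HasFDerivAt z.1 (z.2.1 x) x} ∩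
      ({z : Quad n | ∀ x, HasFDerivAt z.2.2.1 (z.2.2.2 x) x} ∩
      ({z : Quad n | ∀ x, z.1 (z.2.2.1 x) = x} ∩ ({z : Quad n | ∀ x, z.2.2.1 (z.1 x) = x} ∩
      {z : Quad n | ∀ γ ∈ S, ∀ x, z.1 (γ x) = γ (z.1 x)}))) := by
    ext z
    rfl
  rw [this]
  exact e1.inter (e2.inter (e3.inter (e4.inter e5)))

theorem DClosed_complete1 (n : ℕ) : CompleteSpace C(Eu n, Eu n →L[ℝ] Eu n) := inferInstance

theorem DClosed_count1 (n : ℕ) : (uniformity C(Eu n, Eu n →L[ℝ] Eu n)).IsCountablyGenerated := inferInstance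

theorem DClosed_pm1 (n : ℕ) :
    TopologicalSpace.IsCompletelyPseudoMetrizableSpace C(Eu n, Eu n →L[ℝ] Eu n) := by
  have h := @TopologicalSpace.IsCompletelyPseudoMetrizableSpace.of_completeSpace_pseudometrizable
    C(Eu n, Eu n →L[ℝ] Eu n) _ (DClosed_complete1 n) (DClosed_count1 n)
  exact h

theorem DClosed_pm2 (n : ℕ) :
    TopologicalSpace.IsCompletelyPseudoMetrizableSpace C(Eu n, Eu n) := inferInstance

theorem DClosed_pmQuad (n : ℕ) :
    TopologicalSpace.IsCompletelyPseudoMetrizableSpace (Quad n) := by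
  have h1 := DClosed_pm1 n
  have h2 := DClosed_pm2 n
  have h3 : TopologicalSpace.IsCompletelyPseudoMetrizableSpace (C(Eu n, Eu n) × C(Eu n, Eu n →L[ℝ] Eu n)) :=
    inferInstance
  have h4 : TopologicalSpace.IsCompletelyPseudoMetrizableSpace
      (C(Eu n, Eu n →L[ℝ] Eu n) × C(Eu n, Eu n) × C(Eu n, Eu n →L[ℝ] Eu n)) := inferInstance
  infer_instance

theorem baireSpace_liftSet {n : ℕ} {S : Set (Eu n → Eu n)} (hS : ∀ γ ∈ S, Continuous γ) :
    BaireSpace (LiftSet S) := by
  have := DClosed_pmQuad n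
  have : TopologicalSpace.IsCompletelyPseudoMetrizableSpace (LiftSet S) :=
    (isClosed_liftSet hS).isCompletelyPseudoMetrizableSpace
  exact BaireSpace.of_completelyPseudoMetrizable

end

end MPd1f192

end PartDClosed

section PartDDesc

/-!
# Part D: descent of lifts, continuity in parameters

* `exists_desc`: `F = z.1` and `H = z.2.2.1` commute with `S` (for `H`: `H (γ x) = H (γ (F (H x)))
  = H (F (γ (H x))) = γ (H x)`), so by `Deck.comm` they descend to `f, g : M → M` (choose preimages),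
  inverse to each other, `C¹` by `contMDiff_of_lift` (module DTan; `F` is `ContDiff ℝ 1` because its
  derivative `z.2.1` is continuous: `contDiff_one_iff_hasFDerivAt` or similar).
* `isLift_unique`: `pr` is surjective.
* `continuous_desc`: the topology of `Diff1 n M` is induced by `tangentC`; by
  `ContinuousMap.continuous_of_continuous_uncurry` it is enough that `(t, v) ↦ T f_t v` is continuous
  on `T × TM`; `id × tp pr : T × (ℝⁿ × ℝⁿ) → T × TM` is an open quotient map (`tp pr` is a surjective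
  local homeomorphism, module DTan) and `T f_t (tp pr (a,w)) = tp pr (F_t a, DF_t(a) w)`
  (`tangentMap_tp`), which is continuous in `(t,a,w)` (`ContinuousEval`).
-/

open Set Filter Topology
open scoped Manifold ContDiff

set_option linter.style.haveILetI false
set_option linter.unusedSectionVars false

namespace MPd1f192

noncomputable section

variable {n : ℕ} {M : Type*} [TopologicalSpace M] [ChartedSpace (Eu n) M] [IsManifold (𝓡 n) ∞ M]
  {pr : Eu n → M} {S : Set (Eu n → Eu n)}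

theorem DDesc_contDiff {F : C(Eu n, Eu n)} {DF : C(Eu n, Eu n →L[ℝ] Eu n)}
    (h : ∀ x, HasFDerivAt F (DF x) x) : ContDiff ℝ 1 F := by
  rw [contDiff_one_iff_fderiv]
  refine ⟨fun x => (h x).differentiableAt, ?_⟩
  have h1 : fderiv ℝ F = DF := by
    funext x
    exact (h x).fderiv
  rw [h1]
  exact DF.continuous

theorem exists_desc (hD : Deck pr S) {z : Quad n} (hz : z ∈ LiftSet S) :
    ∃ f : Diff1 n M, IsLift pr z f := by
  obtain ⟨hF, hH, hFH, hHF, hS⟩ := hz
  have hS' : ∀ γ ∈ S, ∀ x, z.2.2.1 (γ x) = γ (z.2.2.1 x) := by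
    intro γ hγ x
    have h1 : z.1 (γ (z.2.2.1 x)) = γ x := by rw [hS γ hγ, hFH]
    rw [← h1, hHF]
  set f : M → M := fun q => pr (z.1 (hD.surj q).choose) with hf
  set g : M → M := fun q => pr (z.2.2.1 (hD.surj q).choose) with hg
  have hfl : ∀ x, pr (z.1 x) = f (pr x) := fun x =>
    hD.comm _ hS _ _ (hD.surj (pr x)).choose_spec.symm
  have hgl : ∀ x, pr (z.2.2.1 x) = g (pr x) := fun x =>
    hD.comm _ hS' _ _ (hD.surj (pr x)).choose_spec.symm
  have hfg : ∀ q, f (g q) = q := by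
    intro q
    obtain ⟨x, rfl⟩ := hD.surj q
    rw [← hgl, ← hfl, hFH]
  have hgf : ∀ q, g (f q) = q := by
    intro q
    obtain ⟨x, rfl⟩ := hD.surj q
    rw [← hfl, ← hgl, hHF]
  refine ⟨⟨⟨f, g, hgf, hfg⟩, ?_, ?_⟩, ?_⟩
  · exact contMDiff_of_lift hD.diffeo hD.surj (DDesc_contDiff hF) hfl
  · exact contMDiff_of_lift hD.diffeo hD.surj (DDesc_contDiff hH) hgl
  · intro x
    exact hfl x

theorem isLift_unique (hD : Deck pr S) {z : Quad n} {f g : Diff1 n M} (hf : IsLift pr z f)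
    (hg : IsLift pr z g) : f = g := by
  apply Diffeomorph.ext
  intro q
  obtain ⟨x, rfl⟩ := hD.surj q
  rw [← hf x, ← hg x]

theorem continuous_desc (hD : Deck pr S) {T : Type*} [TopologicalSpace T] (z : T → Quad n)
    (hz : Continuous z) (hzS : ∀ t, z t ∈ LiftSet S) (f : T → Diff1 n M)
    (hf : ∀ t, IsLift pr (z t) (f t)) : Continuous f := by
  haveI : IsManifold (𝓡 n) 1 M := IsManifold.of_le (n := ∞) (by exact_mod_cast le_top)
  refine continuous_induced_rng.2 ?_
  apply ContinuousMap.continuous_of_continuous_uncurry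
  have hq : IsOpenQuotientMap (Prod.map (id : T → T) (tp pr)) :=
    IsOpenQuotientMap.id.prodMap ⟨tp_surjective hD.diffeo hD.surj, continuous_tp hD.diffeo,
      (isLocalHomeomorph_tp hD.diffeo).isOpenMap⟩
  rw [hq.isQuotientMap.continuous_iff]
  have h1 : (Function.uncurry fun t v => (tangentC ∘ f) t v) ∘ Prod.map (id : T → T) (tp pr) =
      fun p : T × (Eu n × Eu n) => tp pr ((z p.1).1 p.2.1, (z p.1).2.1 p.2.1 p.2.2) := by
    funext p
    obtain ⟨t, a, w⟩ := p
    obtain ⟨hF, -, -, -, -⟩ := hzS t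
    have h2 := tangentMap_tp hD.diffeo (f t).contMDiff_toFun (DDesc_contDiff hF) (hf t) (a, w)
    have h3 : fderiv ℝ (z t).1 a = (z t).2.1 a := (hF a).fderiv
    simp only [h3] at h2
    exact h2
  rw [h1]
  refine (continuous_tp hD.diffeo).comp ?_
  have ha : Continuous fun p : T × (Eu n × Eu n) => p.2.1 := by fun_prop
  have hw : Continuous fun p : T × (Eu n × Eu n) => p.2.2 := by fun_prop
  have hz1 : Continuous fun p : T × (Eu n × Eu n) => (z p.1).1 :=
    continuous_fst.comp (hz.comp continuous_fst)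
  have hz2 : Continuous fun p : T × (Eu n × Eu n) => (z p.1).2.1 :=
    (continuous_fst.comp continuous_snd).comp (hz.comp continuous_fst)
  exact (hz1.eval ha).prodMk ((hz2.eval ha).clm_apply hw)

end

end MPd1f192

end PartDDesc

section PartDLift

/-!
# Part D, module D3: lifts through local homeomorphisms and the compact-open topology
-/

set_option linter.style.haveILetI false
set_option linter.unusedSectionVars false

open Set Filter Topology
open scoped Manifold ContDiff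

namespace MPd1f192

noncomputable section

section general

variable {X Y A : Type*} [MetricSpace X] [TopologicalSpace Y] [TopologicalSpace A] {p : X → Y}

/-- A local homeomorphism is uniformly locally injective near a compact set. -/
theorem exists_sep (hp : IsLocalHomeomorph p) {C : Set X} (hC : IsCompact C) :
    ∃ η > 0, ∀ c ∈ C, ∀ a b, dist a c < η → dist b c < η → p a = p b → a = b := by
  have h1 : ∀ x : X, ∃ W : Set X, IsOpen W ∧ x ∈ W ∧ InjOn p W := by
    intro x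
    obtain ⟨e, hx, he⟩ := hp x
    exact ⟨e.source, e.open_source, hx, he ▸ e.injOn⟩
  choose W hW hxW hinj using h1
  obtain ⟨δ, hδ, hL⟩ := lebesgue_number_lemma_of_metric hC hW
    (fun x _ => mem_iUnion.2 ⟨x, hxW x⟩)
  refine ⟨δ, hδ, fun c hc a b ha hb hab => ?_⟩
  obtain ⟨i, hi⟩ := hL c hc
  exact hinj i (hi ha) (hi hb) hab

theorem eventually_near [RegularSpace A] (hp : IsLocalHomeomorph p) {K : Set A} (hK : IsCompact K)
    (F₀ : C(A, X)) (h₀ : C(A, Y)) (h : ∀ a, p (F₀ a) = h₀ a) {ε : ℝ} (hε : 0 < ε) :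
    ∀ᶠ g : C(A, Y) in 𝓝 h₀, ∀ a ∈ K, ∃ y, dist y (F₀ a) < ε ∧ p y = g a := by
  have h1 : ∀ a : A, ∃ N ∈ 𝓝 a, IsClosed N ∧ N ⊆ F₀ ⁻¹' (Metric.ball (F₀ a) (ε / 2)) := by
    intro a
    have h2 : F₀ ⁻¹' (Metric.ball (F₀ a) (ε / 2)) ∈ 𝓝 a :=
      F₀.continuous.continuousAt.preimage_mem_nhds (Metric.ball_mem_nhds _ (by positivity))
    obtain ⟨N, ⟨hN1, hN2⟩, hN3⟩ := (closed_nhds_basis a).mem_iff.1 h2
    exact ⟨N, hN1, hN2, hN3⟩
  choose N hN hNc hNs using h1
  obtain ⟨t, -, ht⟩ := hK.elim_nhds_subcover N (fun a _ => hN a)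
  have h3 : ∀ i ∈ t, ∀ᶠ g : C(A, Y) in 𝓝 h₀,
      MapsTo g (K ∩ N i) (p '' Metric.ball (F₀ i) (ε / 2)) := by
    intro i _
    have hopen : IsOpen {g : C(A, Y) | MapsTo g (K ∩ N i) (p '' Metric.ball (F₀ i) (ε / 2))} :=
      ContinuousMap.isOpen_setOf_mapsTo (hK.inter_right (hNc i))
        (hp.isOpenMap _ Metric.isOpen_ball)
    refine hopen.mem_nhds ?_
    rintro a ⟨-, ha⟩
    exact ⟨F₀ a, hNs i ha, h a⟩
  have h4 := (Filter.eventually_all_finset t).2 h3
  filter_upwards [h4] with g hg a ha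
  obtain ⟨i, hi, hai⟩ := mem_iUnion₂.1 (ht ha)
  obtain ⟨y, hy1, hy2⟩ := hg i hi ⟨ha, hai⟩
  refine ⟨y, ?_, hy2⟩
  have h5 : dist (F₀ a) (F₀ i) < ε / 2 := hNs i hai
  have h6 : dist y (F₀ i) < ε / 2 := hy1
  calc dist y (F₀ a) ≤ dist y (F₀ i) + dist (F₀ i) (F₀ a) := dist_triangle _ _ _
    _ = dist y (F₀ i) + dist (F₀ a) (F₀ i) := by rw [dist_comm (F₀ i)]
    _ < ε := by linarith only [h5, h6]

/-- Lifts of maps close to `p ∘ F₀` that are close to `F₀` at one point are close to `F₀` on a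
given compact connected set. -/
theorem exists_lift_close [RegularSpace A] (hp : IsLocalHomeomorph p) {K : Set A}
    (hK : IsCompact K) (hKc : IsPreconnected K) (F₀ : C(A, X)) (h₀ : C(A, Y))
    (h : ∀ a, p (F₀ a) = h₀ a) :
    ∃ η > 0, ∀ ε > 0, ∀ᶠ g : C(A, Y) in 𝓝 h₀, ∀ F : A → X, Continuous F → (∀ a, p (F a) = g a) →
      (∃ a ∈ K, dist (F a) (F₀ a) < η) → ∀ a ∈ K, dist (F a) (F₀ a) < ε := by
  obtain ⟨η, hη, hsep⟩ := exists_sep hp (hK.image F₀.continuous)
  refine ⟨η, hη, fun ε hε => ?_⟩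
  have hε' : 0 < min ε (η / 2) := by positivity
  filter_upwards [eventually_near hp hK F₀ h₀ h hε'] with g hg F hF hpF hex
  have key : ∀ a ∈ K, dist (F a) (F₀ a) < η → dist (F a) (F₀ a) < min ε (η / 2) := by
    intro a ha had
    obtain ⟨y, hy1, hy2⟩ := hg a ha
    have : y = F a := by
      refine hsep (F₀ a) (mem_image_of_mem _ ha) y (F a) ?_ had (by rw [hy2, hpF])
      exact hy1.trans_le ((min_le_right _ _).trans (by linarith only [hη]))
    rwa [← this]
  have hcont : Continuous fun a => dist (F a) (F₀ a) := hF.dist F₀.continuous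
  have hU : IsOpen {a | dist (F a) (F₀ a) < η} := isOpen_lt hcont continuous_const
  have hV : IsOpen {a | η / 2 < dist (F a) (F₀ a)} := isOpen_lt continuous_const hcont
  by_contra hcon
  push Not at hcon
  obtain ⟨a, ha, had⟩ := hcon
  have h1 : a ∈ {a | η / 2 < dist (F a) (F₀ a)} := by
    by_contra h2
    simp only [mem_setOf_eq, not_lt] at h2
    have := key a ha (by linarith only [hη, h2])
    exact absurd (this.trans_le (min_le_left _ _)) (not_lt.2 had)
  obtain ⟨b, hb, hbd⟩ := hex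
  obtain ⟨c, hcK, hc1, hc2⟩ := hKc _ _ hU hV (fun x hx => by
    by_cases h3 : dist (F x) (F₀ x) < η
    · exact Or.inl h3
    · exact Or.inr (by simp only [mem_setOf_eq]; linarith only [not_lt.1 h3, hη])) ⟨b, hb, hbd⟩ ⟨a, ha, h1⟩
  have := (key c hcK hc1).trans_le (min_le_right _ _)
  exact lt_asymm this hc2

end general

end

end MPd1f192

end PartDLift

section PartDOpen

/-!
# Part D: diffeomorphisms close to `f₁` have lifts close to a given lift of `f₁`
-/

open Set Filter Topology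
open scoped Manifold ContDiff

set_option linter.style.haveILetI false
set_option linter.unusedSectionVars false

namespace MPd1f192

noncomputable section

/-- Lifts of maps tending to `p ∘ F₀` which tend to `F₀` at one (moving) point tend to `F₀`. -/
theorem DOpen_tendsto_lift {X Y A ι : Type*} [MetricSpace X] [TopologicalSpace Y]
    [NormedAddCommGroup A] [NormedSpace ℝ A] [ProperSpace A] {p : X → Y}
    (hp : IsLocalHomeomorph p) {l : Filter ι} {g : ι → C(A, Y)} {h₀ : C(A, Y)}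
    (hg : Tendsto g l (𝓝 h₀)) {F₀ : C(A, X)} (hF₀ : ∀ a, p (F₀ a) = h₀ a) {F : ι → C(A, X)}
    (hF : ∀ᶠ i in l, ∀ a, p (F i a) = g i a) {a : ι → A} {a₀ : A} (ha : Tendsto a l (𝓝 a₀))
    (hFa : Tendsto (fun i => F i (a i)) l (𝓝 (F₀ a₀))) : Tendsto F l (𝓝 F₀) := by
  rw [ContinuousMap.tendsto_iff_forall_isCompact_tendstoUniformlyOn]
  intro K hK
  obtain ⟨R, hR0, hR⟩ := hK.isBounded.subset_closedBall_lt 0 a₀
  refine TendstoUniformlyOn.mono ?_ hR
  rw [Metric.tendstoUniformlyOn_iff]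
  intro ε hε
  obtain ⟨η, hη, h1⟩ := exists_lift_close hp (isCompact_closedBall a₀ R)
    (convex_closedBall a₀ R).isPreconnected F₀ h₀ hF₀
  have h2 : ∀ᶠ i in l, a i ∈ Metric.closedBall a₀ R :=
    ha.eventually_mem (Metric.closedBall_mem_nhds a₀ hR0)
  have h3 : Tendsto (fun i => F₀ (a i)) l (𝓝 (F₀ a₀)) := (F₀.continuous.tendsto a₀).comp ha
  have h4 : Tendsto (fun i => dist (F i (a i)) (F₀ (a i))) l (𝓝 0) := by
    have := hFa.dist h3
    simpa using this
  have h5 : ∀ᶠ i in l, dist (F i (a i)) (F₀ (a i)) < η := h4.eventually_lt_const hη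
  filter_upwards [hg.eventually (h1 ε hε), h2, h5, hF] with i hi hi2 hi3 hi4 x hx
  rw [dist_comm]
  exact hi (F i) (F i).continuous hi4 ⟨a i, hi2, hi3⟩ x hx

/-- Convergence of `(x,v) ↦ (F x, L x v)` gives convergence of `L`. -/
theorem DOpen_tendsto_opNorm {n : ℕ} {ι : Type*} {l : Filter ι} {L : ι → C(Eu n, Eu n →L[ℝ] Eu n)}
    {L₀ : C(Eu n, Eu n →L[ℝ] Eu n)} {F : ι → C(Eu n × Eu n, Eu n × Eu n)}
    {F₀ : C(Eu n × Eu n, Eu n × Eu n)} (hF : Tendsto F l (𝓝 F₀))
    (h : ∀ᶠ i in l, ∀ x v, (F i (x, v)).2 = L i x v) (h₀ : ∀ x v, (F₀ (x, v)).2 = L₀ x v) :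
    Tendsto L l (𝓝 L₀) := by
  rw [ContinuousMap.tendsto_iff_forall_isCompact_tendstoUniformlyOn] at hF ⊢
  intro K hK
  have h1 := hF (K ×ˢ Metric.closedBall 0 1) (hK.prod (isCompact_closedBall 0 1))
  rw [Metric.tendstoUniformlyOn_iff] at h1 ⊢
  intro ε hε
  filter_upwards [h1 (ε / 2) (by positivity), h] with i hi hi2 x hx
  rw [dist_eq_norm]
  refine lt_of_le_of_lt ?_ (half_lt_self hε)
  refine ContinuousLinearMap.opNorm_le_of_unit_norm (by positivity) ?_
  intro v hv
  have h3 := hi (x, v) ⟨hx, by simp [hv]⟩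
  have h4 : dist (F₀ (x, v)).2 (F i (x, v)).2 < ε / 2 := lt_of_le_of_lt (le_max_right _ _) h3
  rw [h₀, hi2, dist_eq_norm] at h4
  exact h4.le

/-- Inversion in a complete normed ring is continuous for the compact-open topology. -/
theorem DOpen_tendsto_inverse {A R ι : Type*} [TopologicalSpace A] [NormedRing R] [CompleteSpace R]
    {l : Filter ι} {G G' : ι → C(A, R)} {G₀ G₀' : C(A, R)} (hG : Tendsto G l (𝓝 G₀))
    (h : ∀ᶠ i in l, ∀ a, G i a * G' i a = 1 ∧ G' i a * G i a = 1)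
    (h₀ : ∀ a, G₀ a * G₀' a = 1 ∧ G₀' a * G₀ a = 1) : Tendsto G' l (𝓝 G₀') := by
  have hinv : ∀ x y : R, x * y = 1 ∧ y * x = 1 → Ring.inverse x = y := by
    intro x y hxy
    exact Ring.inverse_unit ⟨x, y, hxy.1, hxy.2⟩
  rw [ContinuousMap.tendsto_nhds_compactOpen] at hG ⊢
  intro K hK U hU hKU
  have h1 : MapsTo G₀ K (interior (Ring.inverse ⁻¹' U)) := by
    intro a ha
    rw [mem_interior_iff_mem_nhds]
    have h2 : ContinuousAt Ring.inverse (G₀ a) :=
      NormedRing.inverse_continuousAt (⟨G₀ a, G₀' a, (h₀ a).1, (h₀ a).2⟩ : Rˣ)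
    apply h2.preimage_mem_nhds
    rw [hinv _ _ (h₀ a)]
    exact hU.mem_nhds (hKU ha)
  filter_upwards [hG K hK _ isOpen_interior h1, h] with i hi hi2 a ha
  have h3 := interior_subset (hi ha)
  rw [mem_preimage, hinv _ _ (hi2 a)] at h3
  exact h3

/-- Inversion of homeomorphisms of a compact Hausdorff space is continuous. -/
theorem DOpen_tendsto_symm {M ι : Type*} [TopologicalSpace M] [CompactSpace M] [T2Space M]
    {l : Filter ι} {f g : ι → C(M, M)} {f₀ g₀ : C(M, M)} (hf : Tendsto f l (𝓝 f₀))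
    (h : ∀ i x, f i (g i x) = x) (h₀ : ∀ x, g₀ (f₀ x) = x) :
    Tendsto g l (𝓝 g₀) := by
  rw [ContinuousMap.tendsto_nhds_compactOpen] at hf ⊢
  intro K hK U hU hKU
  have h1 : MapsTo f₀ Uᶜ Kᶜ := by
    intro x hx hxK
    apply hx
    have := hKU hxK
    rwa [h₀] at this
  filter_upwards [hf Uᶜ hU.isClosed_compl.isCompact _ hK.isClosed.isOpen_compl h1] with i hi x hx
  by_contra hcon
  have := hi hcon
  rw [h] at this
  exact this hx

variable {n : ℕ} {M : Type*} [TopologicalSpace M] [ChartedSpace (Eu n) M] [IsManifold (𝓡 n) ∞ M]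

/-- Underlying continuous map. -/
def DOpen_toC (f : Diff1 n M) : C(M, M) := ⟨f, f.continuous⟩

theorem DOpen_continuous_tangentC : Continuous (tangentC : Diff1 n M → _) :=
  continuous_induced_dom

theorem DOpen_continuous_toC : Continuous (DOpen_toC : Diff1 n M → C(M, M)) := by
  haveI : IsManifold (𝓡 n) 1 M := IsManifold.of_le (n := ∞) (by exact_mod_cast le_top)
  let zs : C(M, TangentBundle (𝓡 n) M) := ⟨fun x => ⟨x, 0⟩,
    (Bundle.contMDiff_zeroSection (IB := 𝓡 n) (n := 0) ℝ (TangentSpace (𝓡 n) : M → Type _)).continuous⟩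
  let pj : C(TangentBundle (𝓡 n) M, M) := ⟨Bundle.TotalSpace.proj, FiberBundle.continuous_proj _ _⟩
  have h1 : (DOpen_toC : Diff1 n M → C(M, M)) = fun f => pj.comp ((tangentC f).comp zs) := by
    funext f
    ext x
    rfl
  rw [h1]
  exact (ContinuousMap.continuous_postcomp pj).comp
    ((ContinuousMap.continuous_precomp zs).comp DOpen_continuous_tangentC)

variable {pr : Eu n → M} {S : Set (Eu n → Eu n)}

/-- Uniqueness of lifts. -/
theorem DOpen_unique (hD : Deck pr S) {F G : Eu n → Eu n} (hF : Continuous F) (hG : Continuous G)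
    (h : ∀ x, pr (F x) = pr (G x)) {a : Eu n} (ha : F a = G a) (x : Eu n) : F x = G x :=
  congrFun (hD.cover.eq_of_comp_eq hF hG (funext h) a ha) x

/-- Existence of lifts with a prescribed base point. -/
theorem DOpen_exists_lift (hD : Deck pr S) (f : Diff1 n M) (y : Eu n) (hy : pr y = f (pr 0)) :
    ∃ z : Quad n, (∀ x, HasFDerivAt z.1 (z.2.1 x) x) ∧ (∀ x, HasFDerivAt z.2.2.1 (z.2.2.2 x) x) ∧
      (∀ x, z.1 (z.2.2.1 x) = x) ∧ (∀ x, z.2.2.1 (z.1 x) = x) ∧ IsLift pr z f ∧
      (∀ x, pr (z.2.2.1 x) = f.symm (pr x)) ∧ z.1 0 = y := by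
  let prC : C(Eu n, M) := ⟨pr, hD.cover.continuous⟩
  obtain ⟨F, ⟨hF0, hF⟩, -⟩ := hD.cover.existsUnique_continuousMap_lifts
    ((DOpen_toC f).comp prC) 0 y hy
  have hF' : ∀ x, pr (F x) = f (pr x) := fun x => congrFun hF x
  obtain ⟨H, ⟨hH0, hH⟩, -⟩ := hD.cover.existsUnique_continuousMap_lifts
    ((DOpen_toC f.symm).comp prC) y 0 (by
      change pr 0 = f.symm (pr y)
      rw [hy]
      exact (f.symm_apply_apply (pr 0)).symm)
  have hH' : ∀ x, pr (H x) = f.symm (pr x) := fun x => congrFun hH x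
  have hHF : ∀ x, H (F x) = x := by
    refine DOpen_unique hD (F := fun x => H (F x)) (G := id) (H.continuous.comp F.continuous)
      continuous_id (fun x => ?_) (a := 0) (by simp [hF0, hH0])
    rw [hH', hF']
    exact f.symm_apply_apply (pr x)
  have hFH : ∀ x, F (H x) = x := by
    refine DOpen_unique hD (F := fun x => F (H x)) (G := id) (F.continuous.comp H.continuous)
      continuous_id (fun x => ?_) (a := y) (by simp [hF0, hH0])
    rw [hF', hH']
    exact f.apply_symm_apply (pr x)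
  have hFd : ContDiff ℝ 1 F := contDiff_lift hD.diffeo f.contMDiff_toFun F.continuous hF'
  have hHd : ContDiff ℝ 1 H := contDiff_lift hD.diffeo f.symm.contMDiff_toFun H.continuous hH'
  refine ⟨(F, ⟨fderiv ℝ F, hFd.continuous_fderiv (by simp)⟩, H,
    ⟨fderiv ℝ H, hHd.continuous_fderiv (by simp)⟩), fun x => ?_, fun x => ?_, hFH, hHF, hF', hH', hF0⟩
  · exact (hFd.differentiable (by simp) x).hasFDerivAt
  · exact (hHd.differentiable (by simp) x).hasFDerivAt

variable [CompactSpace M] [T2Space M]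

theorem eventually_exists_lift (hD : Deck pr S) {f₁ : Diff1 n M} {z₁ : Quad n}
    (hz₁ : z₁ ∈ LiftSet S) (h₁ : IsLift pr z₁ f₁) {W : Set (Quad n)} (hW : W ∈ 𝓝 z₁) :
    ∀ᶠ f : Diff1 n M in 𝓝 f₁, ∃ z ∈ LiftSet S, z ∈ W ∧ IsLift pr z f := by
  classical
  obtain ⟨hz1, hz2, hz3, hz4, hz5⟩ := hz₁
  let prC : C(Eu n, M) := ⟨pr, hD.cover.continuous⟩
  have hloc := hD.cover.isLocalHomeomorph
  have hT : Tendsto (DOpen_toC : Diff1 n M → C(M, M)) (𝓝 f₁) (𝓝 (DOpen_toC f₁)) :=
    DOpen_continuous_toC.tendsto f₁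
  have hTpr : Tendsto (fun f : Diff1 n M => (DOpen_toC f).comp prC) (𝓝 f₁)
      (𝓝 ((DOpen_toC f₁).comp prC)) :=
    ((ContinuousMap.continuous_precomp prC).tendsto _).comp hT
  -- separation near `F₁ 0`
  obtain ⟨η₀, hη₀, hsep₀⟩ := exists_sep hloc (isCompact_singleton (x := z₁.1 0))
  have hnear : ∀ ε > 0, ∀ᶠ f : Diff1 n M in 𝓝 f₁, ∃ y, dist y (z₁.1 0) < ε ∧ pr y = f (pr 0) := by
    intro ε hε
    have := hTpr.eventually (eventually_near hloc (isCompact_singleton (x := (0 : Eu n))) z₁.1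
      ((DOpen_toC f₁).comp prC) h₁ hε)
    filter_upwards [this] with f hf
    exact hf 0 rfl
  let Q : Diff1 n M → Prop := fun f => ∃ y, dist y (z₁.1 0) < η₀ ∧ pr y = f (pr 0)
  have hQ : ∀ᶠ f in 𝓝 f₁, Q f := hnear η₀ hη₀
  have hex : ∀ f : Diff1 n M, ∃ z : Quad n, Q f →
      (∀ x, HasFDerivAt z.1 (z.2.1 x) x) ∧ (∀ x, HasFDerivAt z.2.2.1 (z.2.2.2 x) x) ∧
      (∀ x, z.1 (z.2.2.1 x) = x) ∧ (∀ x, z.2.2.1 (z.1 x) = x) ∧ IsLift pr z f ∧
      (∀ x, pr (z.2.2.1 x) = f.symm (pr x)) ∧ dist (z.1 0) (z₁.1 0) < η₀ := by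
    intro f
    by_cases hf : Q f
    · obtain ⟨y, hy1, hy2⟩ := id hf
      obtain ⟨z, g1, g2, g3, g4, g5, g6, g7⟩ := DOpen_exists_lift hD f y hy2
      exact ⟨z, fun _ => ⟨g1, g2, g3, g4, g5, g6, by rw [g7]; exact hy1⟩⟩
    · exact ⟨z₁, fun h => absurd h hf⟩
  choose z hz using hex
  -- base points converge
  have hbase : Tendsto (fun f => (z f).1 0) (𝓝 f₁) (𝓝 (z₁.1 0)) := by
    rw [Metric.tendsto_nhds]
    intro ε hε
    filter_upwards [hnear (min ε η₀) (by positivity), hQ] with f hf hQf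
    obtain ⟨y, hy1, hy2⟩ := hf
    obtain ⟨-, -, -, -, g5, -, g7⟩ := hz f hQf
    have : y = (z f).1 0 := by
      refine hsep₀ (z₁.1 0) rfl y _ (hy1.trans_le (min_le_right _ _)) g7 ?_
      rw [hy2, g5]
    rw [← this]
    exact hy1.trans_le (min_le_left _ _)
  -- convergence of `F`
  have hF : Tendsto (fun f => (z f).1) (𝓝 f₁) (𝓝 z₁.1) := by
    refine DOpen_tendsto_lift hloc hTpr (F₀ := z₁.1) h₁ ?_ (a := fun _ => 0) (a₀ := 0)
      tendsto_const_nhds hbase
    filter_upwards [hQ] with f hQf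
    exact (hz f hQf).2.2.2.2.1
  -- convergence of `DF`
  have hTpc := continuous_tp hD.diffeo
  let tpC : C(Eu n × Eu n, TangentBundle (𝓡 n) M) := ⟨tp pr, hTpc⟩
  have hTT : Tendsto (fun f : Diff1 n M => (tangentC f).comp tpC) (𝓝 f₁)
      (𝓝 ((tangentC f₁).comp tpC)) :=
    ((ContinuousMap.continuous_precomp tpC).tendsto _).comp (DOpen_continuous_tangentC.tendsto f₁)
  let TF : Quad n → C(Eu n × Eu n, Eu n × Eu n) := fun w =>
    ⟨fun p => (w.1 p.1, w.2.1 p.1 p.2), by fun_prop⟩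
  have htan : ∀ (f : Diff1 n M) (w : Quad n), (∀ x, HasFDerivAt w.1 (w.2.1 x) x) →
      IsLift pr w f → ∀ p, tp pr (TF w p) = ((tangentC f).comp tpC) p := by
    intro f w hw1 hw2 p
    have hfd : ∀ x, fderiv ℝ w.1 x = w.2.1 x := fun x => (hw1 x).fderiv
    have hcd : ContDiff ℝ 1 w.1 := by
      rw [contDiff_one_iff_fderiv]
      refine ⟨fun x => (hw1 x).differentiableAt, ?_⟩
      have : fderiv ℝ w.1 = w.2.1 := funext hfd
      rw [this]
      exact w.2.1.continuous
    have := tangentMap_tp hD.diffeo f.contMDiff_toFun hcd hw2 p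
    rw [hfd] at this
    exact this.symm
  have hTF : Tendsto (fun f => TF (z f)) (𝓝 f₁) (𝓝 (TF z₁)) := by
    refine DOpen_tendsto_lift (isLocalHomeomorph_tp hD.diffeo) hTT (F₀ := TF z₁)
      (htan f₁ z₁ hz1 h₁) ?_ (a := fun _ => 0) (a₀ := 0) tendsto_const_nhds ?_
    · filter_upwards [hQ] with f hQf
      obtain ⟨g1, -, -, -, g5, -, -⟩ := hz f hQf
      exact htan f (z f) g1 g5
    · have : ∀ w : Quad n, TF w 0 = (w.1 0, 0) := by
        intro w
        change (w.1 0, w.2.1 0 0) = (w.1 0, 0)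
        rw [(w.2.1 0).map_zero]
      simp only [this]
      exact hbase.prodMk_nhds tendsto_const_nhds
  have hDF : Tendsto (fun f => (z f).2.1) (𝓝 f₁) (𝓝 z₁.2.1) :=
    DOpen_tendsto_opNorm hTF (Eventually.of_forall fun f x v => rfl) (fun x v => rfl)
  -- convergence of the inverse
  have hTs : Tendsto (fun f : Diff1 n M => DOpen_toC f.symm) (𝓝 f₁) (𝓝 (DOpen_toC f₁.symm)) :=
    DOpen_tendsto_symm hT (fun f x => f.apply_symm_apply x) (fun x => f₁.symm_apply_apply x)
  have hTspr : Tendsto (fun f : Diff1 n M => (DOpen_toC f.symm).comp prC) (𝓝 f₁)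
      (𝓝 ((DOpen_toC f₁.symm).comp prC)) :=
    ((ContinuousMap.continuous_precomp prC).tendsto _).comp hTs
  have hH : Tendsto (fun f => (z f).2.2.1) (𝓝 f₁) (𝓝 z₁.2.2.1) := by
    refine DOpen_tendsto_lift hloc hTspr (F₀ := z₁.2.2.1) ?_ ?_ (a := fun f => (z f).1 0)
      (a₀ := z₁.1 0) hbase ?_
    · intro a
      have := h₁ (z₁.2.2.1 a)
      rw [hz3] at this
      change pr (z₁.2.2.1 a) = f₁.symm (pr a)
      rw [this]
      exact (f₁.symm_apply_apply _).symm
    · filter_upwards [hQ] with f hQf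
      exact (hz f hQf).2.2.2.2.2.1
    · rw [hz4]
      refine tendsto_const_nhds.congr' ?_
      filter_upwards [hQ] with f hQf
      exact ((hz f hQf).2.2.2.1 0).symm
  have hinv : ∀ w : Quad n, (∀ x, HasFDerivAt w.1 (w.2.1 x) x) →
      (∀ x, HasFDerivAt w.2.2.1 (w.2.2.2 x) x) → (∀ x, w.1 (w.2.2.1 x) = x) →
      (∀ x, w.2.2.1 (w.1 x) = x) → ∀ a, (w.2.1.comp w.2.2.1) a * w.2.2.2 a = 1 ∧
        w.2.2.2 a * (w.2.1.comp w.2.2.1) a = 1 := by
    intro w g1 g2 g3 g4 a
    constructor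
    · have h1 := (g1 (w.2.2.1 a)).comp a (g2 a)
      have h2 : w.1 ∘ w.2.2.1 = id := funext g3
      rw [h2] at h1
      exact h1.unique (hasFDerivAt_id a)
    · have h1 := (g2 (w.1 (w.2.2.1 a))).comp (w.2.2.1 a) (g1 (w.2.2.1 a))
      have h2 : w.2.2.1 ∘ w.1 = id := funext g4
      rw [h2, g3] at h1
      exact h1.unique (hasFDerivAt_id _)
  have hDH : Tendsto (fun f => (z f).2.2.2) (𝓝 f₁) (𝓝 z₁.2.2.2) := by
    refine DOpen_tendsto_inverse (G := fun f => (z f).2.1.comp (z f).2.2.1)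
      (G₀ := z₁.2.1.comp z₁.2.2.1) (hDF.compCM hH) ?_ (hinv z₁ hz1 hz2 hz3 hz4)
    filter_upwards [hQ] with f hQf
    obtain ⟨g1, g2, g3, g4, -, -, -⟩ := hz f hQf
    exact hinv (z f) g1 g2 g3 g4
  have hzt : Tendsto z (𝓝 f₁) (𝓝 z₁) :=
    hF.prodMk_nhds (hDF.prodMk_nhds (hH.prodMk_nhds hDH))
  -- equivariance
  have hcomm : ∀ᶠ f in 𝓝 f₁, ∀ γ ∈ S, ∀ x, (z f).1 (γ x) = γ ((z f).1 x) := by
    rw [Filter.eventually_all_finite hD.finite]
    intro γ hγ
    obtain ⟨η, hη, hsep⟩ := exists_sep hloc (isCompact_singleton (x := γ (z₁.1 0)))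
    have h2 : Tendsto (fun f => (z f).1 (γ 0)) (𝓝 f₁) (𝓝 (z₁.1 (γ 0))) :=
      ((continuous_eval_const (γ 0)).tendsto z₁.1).comp hF
    rw [hz5 γ hγ] at h2
    have h3 : Tendsto (fun f => γ ((z f).1 0)) (𝓝 f₁) (𝓝 (γ (z₁.1 0))) :=
      ((hD.cont γ hγ).tendsto _).comp hbase
    filter_upwards [(Metric.tendsto_nhds.1 h2) η hη, (Metric.tendsto_nhds.1 h3) η hη, hQ] with f
      hf2 hf3 hQf x
    obtain ⟨-, -, -, -, g5, -, -⟩ := hz f hQf
    have h4 : ∀ x, pr ((z f).1 (γ x)) = pr (γ ((z f).1 x)) := by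
      intro x
      rw [g5, hD.inv γ hγ, hD.inv γ hγ, g5]
    exact DOpen_unique hD (F := fun x => (z f).1 (γ x)) (G := fun x => γ ((z f).1 x))
      ((z f).1.continuous.comp (hD.cont γ hγ)) ((hD.cont γ hγ).comp (z f).1.continuous) h4
      (a := 0) (hsep _ rfl _ _ hf2 hf3 (h4 0)) x
  filter_upwards [hQ, hcomm, hzt.eventually_mem hW] with f hQf hc hWf
  obtain ⟨g1, g2, g3, g4, g5, -, -⟩ := hz f hQf
  exact ⟨z f, ⟨g1, g2, g3, g4, hc⟩, hWf, g5⟩

end

end MPd1f192

end PartDOpen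

section PartDResid

/-!
# Part D: residual sets meet the open sets containing a diffeomorphism with a lift

The map `Ξ : LiftSet S → Diff1 n M`, `z ↦` the descent of `z` (`exists_desc`) is continuous
(`continuous_desc` with `T = LiftSet S`) and open (`eventually_exists_lift` and `isLift_unique`).
Preimages of dense open sets under a continuous open map are dense open, so `Ξ⁻¹ R` is residual in
the Baire space `LiftSet S` (`baireSpace_liftSet`), hence dense, and meets the nonempty open set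
`Ξ⁻¹ U`.
-/

open Set Filter Topology
open scoped Manifold ContDiff

set_option linter.style.haveILetI false
set_option linter.unusedSectionVars false

namespace MPd1f192

noncomputable section

variable {n : ℕ} {M : Type*} [TopologicalSpace M] [ChartedSpace (Eu n) M] [IsManifold (𝓡 n) ∞ M]
  [CompactSpace M] [T2Space M] {pr : Eu n → M} {S : Set (Eu n → Eu n)}

theorem residual_meets (hD : Deck pr S) {U : Set (Diff1 n M)} (hU : IsOpen U) {f₁ : Diff1 n M}
    (hf₁ : f₁ ∈ U) {z₁ : Quad n} (hz₁ : z₁ ∈ LiftSet S) (h₁ : IsLift pr z₁ f₁)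
    {R : Set (Diff1 n M)} (hR : R ∈ residual (Diff1 n M)) : (R ∩ U).Nonempty := by
  haveI : BaireSpace (LiftSet S) := baireSpace_liftSet hD.cont
  have hex : ∀ z : LiftSet S, ∃ f : Diff1 n M, IsLift pr z.1 f := fun z => exists_desc hD z.2
  choose Ξ hΞ using hex
  have hcont : Continuous Ξ :=
    continuous_desc hD (fun z : LiftSet S => z.1) continuous_subtype_val (fun z => z.2) Ξ hΞ
  have hopen : IsOpenMap Ξ := by
    rw [isOpenMap_iff_nhds_le]
    intro z s hs
    rw [Filter.mem_map] at hs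
    obtain ⟨W, hW, hWs⟩ := mem_nhds_subtype _ _ _ |>.1 hs
    have h2 := eventually_exists_lift hD z.2 (hΞ z) hW
    filter_upwards [h2] with f hf
    obtain ⟨z', hz', hz'W, hl⟩ := hf
    have h3 : Ξ ⟨z', hz'⟩ = f := isLift_unique hD (hΞ ⟨z', hz'⟩) hl
    rw [← h3]
    exact hWs hz'W
  have hres : Ξ ⁻¹' R ∈ residual (LiftSet S) := by
    obtain ⟨t, ht1, ht2, ht3, ht4⟩ := mem_residual_iff.1 hR
    refine mem_residual_iff.2 ⟨(fun s => Ξ ⁻¹' s) '' t, ?_, ?_, ht3.image _, ?_⟩
    · rintro _ ⟨s, hs, rfl⟩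
      exact (ht1 s hs).preimage hcont
    · rintro _ ⟨s, hs, rfl⟩
      exact (ht2 s hs).preimage hopen
    · intro z hz
      refine ht4 ?_
      rw [mem_sInter] at hz ⊢
      intro s hs
      exact hz _ ⟨s, hs, rfl⟩
  have hdense : Dense (Ξ ⁻¹' R) := dense_of_mem_residual hres
  have hmem : (⟨z₁, hz₁⟩ : LiftSet S) ∈ Ξ ⁻¹' U := by
    have : Ξ ⟨z₁, hz₁⟩ = f₁ := isLift_unique hD (hΞ ⟨z₁, hz₁⟩) h₁
    rw [mem_preimage, this]
    exact hf₁
  obtain ⟨z, hz1, hz2⟩ := hdense.inter_open_nonempty _ (hU.preimage hcont) ⟨_, hmem⟩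
  exact ⟨Ξ z, hz2, hz1⟩

end

end MPd1f192

end PartDResid
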