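import Pool.Agent.W_MP_d1f192_an.DGroup
import Pool.Agent.W_MP_d1f192_an.DResid

section PartDQuot

/-!
# Part D: the quotient `M = P / Γ`

Let `Gam : Subgroup (Equiv.Perm P)` (or `P ≃ₜ P`) with carrier the maps `act k m n` (module DGroup).
It acts on `P`, continuously, freely (`IsCancelSMul`), properly discontinuously (`act_finite`), so
`isQuotientCoveringMap_quotientMk_of_properlyDiscontinuousSMul`,
`t2Space_of_properlyDiscontinuousSMul_of_t2Space`; compact = image of the box of `act_box`.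
-/

open Set Filter Topology
open scoped Manifold ContDiff

set_option linter.style.haveILetI false
set_option linter.unusedSectionVars false

namespace MPd1f192

noncomputable section

/-- The group `Γ` as a group of permutations of `P`. -/
def DQuotGam : Subgroup (Equiv.Perm P) where
  carrier := {e | ∃ k m n : ℤ, ∀ p, e p = act k m n p}
  mul_mem' := by
    rintro e e' ⟨k, m, n, h⟩ ⟨k', m', n', h'⟩
    obtain ⟨m'', n'', h''⟩ := act_comp k m n k' m' n'
    refine ⟨k + k', m'', n'', fun p => ?_⟩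
    rw [Equiv.Perm.mul_apply, h, h', h'']
  one_mem' := ⟨0, 0, 0, fun p => by rw [act_zero]; rfl⟩
  inv_mem' := by
    rintro e ⟨k, m, n, h⟩
    obtain ⟨m', n', _, h2⟩ := act_inv k m n
    refine ⟨-k, m', n', fun p => ?_⟩
    rw [Equiv.Perm.inv_eq_iff_eq, h, h2]

/-- `act k m n` as a permutation. -/
def DQuotPerm (k m n : ℤ) : Equiv.Perm P where
  toFun := act k m n
  invFun := act (-k) (act_inv k m n).choose (act_inv k m n).choose_spec.choose
  left_inv := (act_inv k m n).choose_spec.choose_spec.1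
  right_inv := (act_inv k m n).choose_spec.choose_spec.2

theorem DQuotPerm_mem (k m n : ℤ) : DQuotPerm k m n ∈ DQuotGam := ⟨k, m, n, fun _ => rfl⟩

theorem DQuot_smul (g : DQuotGam) : ∃ k m n : ℤ, ∀ p : P, g • p = act k m n p := by
  obtain ⟨k, m, n, h⟩ := g.2
  exact ⟨k, m, n, fun p => h p⟩

theorem DQuot_continuous_act (k m n : ℤ) : Continuous (act k m n) := (contDiff_act k m n).continuous

instance DQuot_contSMul : ContinuousConstSMul DQuotGam P where
  continuous_const_smul g := by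
    obtain ⟨k, m, n, h⟩ := DQuot_smul g
    have h1 : (fun p : P => g • p) = act k m n := funext h
    rw [h1]
    exact DQuot_continuous_act k m n

instance DQuot_cancel : IsCancelSMul DQuotGam P := by
  rw [isCancelSMul_iff_eq_one_of_smul_eq]
  intro g x hgx
  obtain ⟨k, m, n, h⟩ := DQuot_smul g
  rw [h] at hgx
  obtain ⟨rfl, rfl, rfl⟩ := act_free hgx
  apply Subtype.ext
  apply Equiv.ext
  intro p
  have h2 : (g : Equiv.Perm P) p = act 0 0 0 p := h p
  rw [h2, act_zero]
  rfl

instance DQuot_pd : ProperlyDiscontinuousSMul DQuotGam P where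
  finite_disjoint_inter_image := by
    intro K L hK hL
    have hfin := act_finite hK hL
    refine (hfin.image (fun t : ℤ × ℤ × ℤ =>
      (⟨DQuotPerm t.1 t.2.1 t.2.2, DQuotPerm_mem _ _ _⟩ : DQuotGam))).subset ?_
    intro g hg
    obtain ⟨k, m, n, h⟩ := DQuot_smul g
    refine ⟨(k, m, n), ?_, ?_⟩
    · have h1 : (fun p : P => g • p) = act k m n := funext h
      have h2 : ((fun p : P => g • p) '' K ∩ L).Nonempty := hg
      rw [h1] at h2
      exact h2
    · apply Subtype.ext
      apply Equiv.ext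
      intro p
      exact (h p).symm

theorem exists_quotient : ∃ (M : Type) (_ : TopologicalSpace M) (_ : CompactSpace M)
    (_ : T2Space M) (_ : ConnectedSpace M) (q : P → M), IsCoveringMap q ∧ Function.Surjective q ∧
      ∀ p p', q p = q p' ↔ ∃ k m n : ℤ, p' = act k m n p := by
  have hcov : IsCoveringMap (Quotient.mk (MulAction.orbitRel DQuotGam P)) :=
    (isQuotientCoveringMap_quotientMk_of_properlyDiscontinuousSMul
      (G := DQuotGam) (E := P)).isCoveringMap
  have hsurj : Function.Surjective (Quotient.mk (MulAction.orbitRel DQuotGam P)) :=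
    Quotient.mk_surjective
  have hiff : ∀ p p', Quotient.mk (MulAction.orbitRel DQuotGam P) p =
      Quotient.mk (MulAction.orbitRel DQuotGam P) p' ↔ ∃ k m n : ℤ, p' = act k m n p := by
    intro p p'
    rw [Quotient.eq]
    constructor
    · intro h
      obtain ⟨g, hg⟩ := h
      obtain ⟨k, m, n, h1⟩ := DQuot_smul g⁻¹
      refine ⟨k, m, n, ?_⟩
      rw [← h1, ← hg]
      simp
    · rintro ⟨k, m, n, h⟩
      refine (MulAction.orbitRel DQuotGam P).symm ?_
      exact ⟨⟨DQuotPerm k m n, DQuotPerm_mem k m n⟩, h.symm⟩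
  have hcpt : CompactSpace (Quotient (MulAction.orbitRel DQuotGam P)) := by
    refine ⟨?_⟩
    have hbox : IsCompact (Icc (0 : ℝ) 1000 ×ˢ (Icc (0 : ℝ) 1 ×ˢ Icc (0 : ℝ) 1)) :=
      isCompact_Icc.prod (isCompact_Icc.prod isCompact_Icc)
    have himg := hbox.image hcov.continuous
    have huniv : Quotient.mk (MulAction.orbitRel DQuotGam P) ''
        (Icc (0 : ℝ) 1000 ×ˢ (Icc (0 : ℝ) 1 ×ˢ Icc (0 : ℝ) 1)) = univ := by
      rw [eq_univ_iff_forall]
      intro y
      obtain ⟨p, rfl⟩ := hsurj y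
      obtain ⟨k, m, n, h⟩ := act_box p
      exact ⟨act k m n p, h, ((hiff p _).2 ⟨k, m, n, rfl⟩).symm⟩
    rwa [huniv] at himg
  exact ⟨Quotient (MulAction.orbitRel DQuotGam P), inferInstance, hcpt, inferInstance,
    hsurj.connectedSpace hcov.continuous, Quotient.mk (MulAction.orbitRel DQuotGam P), hcov, hsurj,
    hiff⟩

theorem DQuot_inv {M : Type} {q : P → M}
    (hΓ : ∀ p p', q p = q p' ↔ ∃ k m n : ℤ, p' = act k m n p) (k m n : ℤ) (x : Eu 3) :
    q (eP (conjE (act k m n) x)) = q (eP x) := by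
  have h1 : eP (conjE (act k m n) x) = act k m n (eP x) := by
    simp [conjE]
  rw [h1]
  exact ((hΓ _ _).2 ⟨k, m, n, rfl⟩).symm

/-- `pr = q ∘ eP` is a smooth covering in the sense of module DCover. -/
theorem smoothCover_quotient {M : Type} [TopologicalSpace M] {q : P → M} (hq : IsCoveringMap q)
    (hs : Function.Surjective q) (hΓ : ∀ p p', q p = q p' ↔ ∃ k m n : ℤ, p' = act k m n p) :
    SmoothCover (fun x : Eu 3 => q (eP x)) := by
  refine ⟨?_, ?_, ?_⟩
  · exact (hq.comp_homeomorph eP.toHomeomorph).isLocalHomeomorph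
  · exact hs.comp eP.surjective
  · intro x y hxy
    obtain ⟨k, m, n, h⟩ := (hΓ _ _).1 hxy
    refine ⟨conjE (act k m n), ?_, DQuot_inv hΓ k m n, ?_⟩
    · exact eP.symm.contDiff.comp ((contDiff_act k m n).comp eP.contDiff)
    · unfold conjE
      rw [← h]
      simp

/-- The covering data (module DSetup), for any charted space structure for which `pr` is a local
diffeomorphism. -/
theorem deck_quotient {M : Type} [TopologicalSpace M] [ChartedSpace (Eu 3) M] {q : P → M}
    (hq : IsCoveringMap q) (hs : Function.Surjective q)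
    (hΓ : ∀ p p', q p = q p' ↔ ∃ k m n : ℤ, p' = act k m n p)
    (hd : IsLocalDiffeomorph (𝓡 3) (𝓡 3) ∞ (fun x : Eu 3 => q (eP x))) :
    Deck (fun x : Eu 3 => q (eP x)) gens := by
  refine ⟨hd, hq.comp_homeomorph eP.toHomeomorph, hs.comp eP.surjective, ?_, ?_, ?_, ?_⟩
  · exact ((Set.finite_singleton _).insert _).insert _
  · have hc : ∀ k m n : ℤ, Continuous (conjE (act k m n)) := fun k m n =>
      eP.symm.continuous.comp ((DQuot_continuous_act k m n).comp eP.continuous)
    rintro γ (rfl | rfl | rfl)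
    · exact hc _ _ _
    · exact hc _ _ _
    · exact hc _ _ _
  · rintro γ (rfl | rfl | rfl) x
    · exact DQuot_inv hΓ _ _ _ x
    · exact DQuot_inv hΓ _ _ _ x
    · exact DQuot_inv hΓ _ _ _ x
  · intro F hF x y hxy
    have key : ∀ k m n : ℤ, conjE (act k m n) ∈ gens →
        ∀ p, eP (F (eP.symm (act k m n p))) = act k m n (eP (F (eP.symm p))) := by
      intro k m n hk p
      have h1 := hF _ hk (eP.symm p)
      have h2 : conjE (act k m n) (eP.symm p) = eP.symm (act k m n p) := by simp [conjE]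
      rw [h2] at h1
      rw [h1]
      simp [conjE]
    have hcomm := comm_of_gens (F := fun p => eP (F (eP.symm p)))
      (key 1 0 0 (Or.inl rfl)) (key 0 1 0 (Or.inr (Or.inl rfl))) (key 0 0 1 (Or.inr (Or.inr rfl)))
    obtain ⟨k, m, n, h⟩ := (hΓ _ _).1 hxy
    refine (hΓ _ _).2 ⟨k, m, n, ?_⟩
    have h3 := hcomm k m n (eP x)
    rw [← h] at h3
    simpa using h3

end

end MPd1f192

end PartDQuot

section PartDModel0

/-!
# Part D: the model map `F₀ (u,s,r) = (u, s, r + 1 + δ(u,s,r))` is in the space of lifts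

`F₀` is a bijection of each vertical line: `r ↦ r + 1 + δ(u,s,r)` is continuous, strictly increasing
with increments `≥ (1/2)(r' - r)` (`Speed.lip_r`) and tends to `±∞`. Its derivative
`(a,b,c) ↦ (a, b, c + Dδ(a,b,c))` is invertible since `1 + ∂_r δ ≥ 1/2` (from `lip_r`). The inverse
is `C¹` by the inverse function theorem (`HasStrictFDerivAt.to_localInverse`,
`OpenPartialHomeomorph.contDiffAt_symm`, or `ContDiff.toOpenPartialHomeomorph`), or explicitly:
`G (u,s,r)` continuous (proper monotone family) and `HasFDerivAt.of_local_left_inverse`.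
`F₀` commutes with `Γ` since `δ` is invariant.
-/

open Set Filter Topology
open scoped Manifold ContDiff

set_option linter.style.haveILetI false
set_option linter.unusedSectionVars false

namespace MPd1f192

noncomputable section

/-- The model map. -/
def F0 (δ : P → ℝ) (p : P) : P := (p.1, p.2.1, p.2.2 + 1 + δ p)

theorem DModel0_expand {δ : P → ℝ} (hδ : Speed δ) (u s : ℝ) {r r' : ℝ} (h : r ≤ r') :
    (1 / 2) * (r' - r) ≤ (r' + 1 + δ (u, s, r')) - (r + 1 + δ (u, s, r)) := by
  have h1 := hδ.lip_r u s r' r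
  rw [abs_of_nonneg (by linarith only [h] : (0 : ℝ) ≤ r' - r)] at h1
  have h2 := (abs_le.1 h1).1
  linarith only [h2]

theorem DModel0_abs {δ : P → ℝ} (hδ : Speed δ) (u s r r' : ℝ) :
    |r - r'| ≤ 2 * |(r + 1 + δ (u, s, r)) - (r' + 1 + δ (u, s, r'))| := by
  rcases le_total r r' with h | h
  · have := DModel0_expand hδ u s h
    rw [abs_sub_comm, abs_of_nonneg (by linarith only [h] : (0 : ℝ) ≤ r' - r), abs_sub_comm]
    have h2 := le_abs_self ((r' + 1 + δ (u, s, r')) - (r + 1 + δ (u, s, r)))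
    linarith only [this, h2]
  · have := DModel0_expand hδ u s h
    rw [abs_of_nonneg (by linarith only [h] : (0 : ℝ) ≤ r - r')]
    have h2 := le_abs_self ((r + 1 + δ (u, s, r)) - (r' + 1 + δ (u, s, r')))
    linarith only [this, h2]

theorem DModel0_surj {δ : P → ℝ} (hδ : Speed δ) (u s t : ℝ) : ∃ r : ℝ, r + 1 + δ (u, s, r) = t := by
  have hc : Continuous fun r : ℝ => r + 1 + δ (u, s, r) := by
    have := hδ.smooth.continuous
    fun_prop
  have h1 : (t - 2) + 1 + δ (u, s, t - 2) ≤ t := by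
    have := (abs_le.1 (hδ.small (u, s, t - 2))).2
    linarith only [this]
  have h2 : t ≤ t + 1 + δ (u, s, t) := by
    have := (abs_le.1 (hδ.small (u, s, t))).1
    linarith only [this]
  obtain ⟨r, -, hr⟩ := intermediate_value_Icc (show t - 2 ≤ t by linarith only) hc.continuousOn ⟨h1, h2⟩
  exact ⟨r, hr⟩

/-- the inverse of the model map -/
def DModel0_G {δ : P → ℝ} (hδ : Speed δ) (p : P) : P :=
  (p.1, p.2.1, (DModel0_surj hδ p.1 p.2.1 p.2.2).choose)

theorem DModel0_G_spec {δ : P → ℝ} (hδ : Speed δ) (p : P) :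
    (DModel0_G hδ p).2.2 + 1 + δ (p.1, p.2.1, (DModel0_G hδ p).2.2) = p.2.2 :=
  (DModel0_surj hδ p.1 p.2.1 p.2.2).choose_spec

theorem DModel0_FG {δ : P → ℝ} (hδ : Speed δ) (p : P) : F0 δ (DModel0_G hδ p) = p := by
  have h := DModel0_G_spec hδ p
  exact Prod.ext rfl (Prod.ext rfl h)

theorem DModel0_inj {δ : P → ℝ} (hδ : Speed δ) : Function.Injective (F0 δ) := by
  rintro ⟨u, s, r⟩ ⟨u', s', r'⟩ h
  simp only [F0, Prod.mk.injEq] at h
  obtain ⟨rfl, rfl, h3⟩ := h
  have := DModel0_abs hδ u s r r'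
  rw [h3, sub_self, abs_zero, mul_zero] at this
  have h4 : r = r' := by
    have := abs_nonpos_iff.1 this
    linarith only [this]
  rw [h4]

theorem DModel0_GF {δ : P → ℝ} (hδ : Speed δ) (p : P) : DModel0_G hδ (F0 δ p) = p :=
  DModel0_inj hδ (DModel0_FG hδ _)

theorem DModel0_contF {δ : P → ℝ} (hδ : Speed δ) : ContDiff ℝ ∞ (F0 δ) := by
  have h := hδ.smooth
  refine contDiff_fst.prodMk ((contDiff_fst.comp contDiff_snd).prodMk ?_)
  exact ((contDiff_snd.comp contDiff_snd).add contDiff_const).add h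

theorem DModel0_contG {δ : P → ℝ} (hδ : Speed δ) : Continuous (DModel0_G hδ) := by
  have hg : Continuous fun p : P => (DModel0_G hδ p).2.2 := by
    rw [continuous_iff_continuousAt]
    intro p
    have hδc := hδ.smooth.continuous
    set r : ℝ := (DModel0_G hδ p).2.2 with hr
    have hb : ∀ q : P, |(DModel0_G hδ q).2.2 - r| ≤ 2 * |q.2.2 - (r + 1 + δ (q.1, q.2.1, r))| := by
      intro q
      have h1 := DModel0_abs hδ q.1 q.2.1 (DModel0_G hδ q).2.2 r
      rwa [DModel0_G_spec hδ q] at h1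
    have hlim : Tendsto (fun q : P => 2 * |q.2.2 - (r + 1 + δ (q.1, q.2.1, r))|) (𝓝 p) (𝓝 0) := by
      have hc : Continuous fun q : P => 2 * |q.2.2 - (r + 1 + δ (q.1, q.2.1, r))| := by fun_prop
      have h0 : 2 * |p.2.2 - (r + 1 + δ (p.1, p.2.1, r))| = 0 := by
        rw [DModel0_G_spec hδ p, sub_self, abs_zero, mul_zero]
      have := hc.tendsto p
      rwa [h0] at this
    rw [ContinuousAt, tendsto_iff_norm_sub_tendsto_zero]
    exact squeeze_zero (fun q => norm_nonneg _) hb hlim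
  exact continuous_fst.prodMk ((continuous_fst.comp continuous_snd).prodMk hg)

/-- the model map as a homeomorphism -/
def DModel0_homeo {δ : P → ℝ} (hδ : Speed δ) : P ≃ₜ P where
  toFun := F0 δ
  invFun := DModel0_G hδ
  left_inv := DModel0_GF hδ
  right_inv := DModel0_FG hδ
  continuous_toFun := (DModel0_contF hδ).continuous
  continuous_invFun := DModel0_contG hδ

/-- derivative of the model map -/
def DModel0_A (D : P →L[ℝ] ℝ) : P →L[ℝ] P :=
  (ContinuousLinearMap.fst ℝ ℝ (ℝ × ℝ)).prod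
    (((ContinuousLinearMap.fst ℝ ℝ ℝ).comp (ContinuousLinearMap.snd ℝ ℝ (ℝ × ℝ))).prod
      (((ContinuousLinearMap.snd ℝ ℝ ℝ).comp (ContinuousLinearMap.snd ℝ ℝ (ℝ × ℝ))) + D))

theorem DModel0_deriv {δ : P → ℝ} (hδ : Speed δ) (p : P) :
    HasFDerivAt (F0 δ) (DModel0_A (fderiv ℝ δ p)) p := by
  have hD : HasFDerivAt δ (fderiv ℝ δ p) p :=
    (hδ.smooth.differentiable (by simp) p).hasFDerivAt
  have h1 : HasFDerivAt (fun p : P => p.1) (ContinuousLinearMap.fst ℝ ℝ (ℝ × ℝ)) p := hasFDerivAt_fst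
  have h2 : HasFDerivAt (fun p : P => p.2) (ContinuousLinearMap.snd ℝ ℝ (ℝ × ℝ)) p := hasFDerivAt_snd
  have h3 : HasFDerivAt (fun p : P => p.2.1)
      ((ContinuousLinearMap.fst ℝ ℝ ℝ).comp (ContinuousLinearMap.snd ℝ ℝ (ℝ × ℝ))) p :=
    HasFDerivAt.comp p hasFDerivAt_fst h2
  have h4 : HasFDerivAt (fun p : P => p.2.2)
      ((ContinuousLinearMap.snd ℝ ℝ ℝ).comp (ContinuousLinearMap.snd ℝ ℝ (ℝ × ℝ))) p :=
    HasFDerivAt.comp p hasFDerivAt_snd h2
  exact h1.prodMk (h3.prodMk ((h4.add_const 1).add hD))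

theorem DModel0_slope {δ : P → ℝ} (hδ : Speed δ) (p : P) :
    |fderiv ℝ δ p (0, 0, 1)| ≤ 1 / 2 := by
  obtain ⟨u, s, r⟩ := p
  have hD : HasFDerivAt δ (fderiv ℝ δ (u, s, r)) (u, s, r) :=
    (hδ.smooth.differentiable (by simp) (u, s, r)).hasFDerivAt
  have hl : HasDerivAt (fun t : ℝ => ((u, s, t) : P)) ((0, 0, 1) : P) r :=
    (hasDerivAt_const r u).prodMk ((hasDerivAt_const r s).prodMk (hasDerivAt_id r))
  have hc : HasDerivAt (fun t : ℝ => δ (u, s, t)) (fderiv ℝ δ (u, s, r) (0, 0, 1)) r :=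
    HasFDerivAt.comp_hasDerivAt r (by exact hD) hl
  have := hc.le_of_lip' (C := 1 / 2) (by norm_num) (Eventually.of_forall fun t => by
    rw [Real.norm_eq_abs, Real.norm_eq_abs]; exact hδ.lip_r u s t r)
  simpa using this

theorem DModel0_A_inj {δ : P → ℝ} (hδ : Speed δ) (p : P) :
    Function.Injective (DModel0_A (fderiv ℝ δ p)) := by
  rw [injective_iff_map_eq_zero]
  rintro ⟨a, b, c⟩ h
  have h' : ((a, b, c + fderiv ℝ δ p (a, b, c)) : P) = 0 := h
  have ha : a = 0 := congrArg Prod.fst h'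
  have hb : b = 0 := congrArg (fun q : P => q.2.1) h'
  have hc : c + fderiv ℝ δ p (a, b, c) = 0 := congrArg (fun q : P => q.2.2) h'
  subst ha hb
  have h1 : ((0, 0, c) : P) = c • ((0, 0, 1) : P) := by simp
  rw [h1, map_smul, smul_eq_mul] at hc
  have h2 := (abs_le.1 (DModel0_slope hδ p)).1
  have h3 : c * (1 + fderiv ℝ δ p (0, 0, 1)) = 0 := by linarith only [hc]
  have h4 : c = 0 := by
    rcases mul_eq_zero.1 h3 with h | h
    · exact h
    · linarith only [h2, h]
  rw [h4]; rfl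

/-- derivative of the model map as an equivalence -/
def DModel0_E {δ : P → ℝ} (hδ : Speed δ) (p : P) : P ≃L[ℝ] P :=
  (LinearEquiv.ofInjectiveEndo (DModel0_A (fderiv ℝ δ p)).toLinearMap
    (DModel0_A_inj hδ p)).toContinuousLinearEquiv

theorem DModel0_E_coe {δ : P → ℝ} (hδ : Speed δ) (p : P) :
    (DModel0_E hδ p : P →L[ℝ] P) = DModel0_A (fderiv ℝ δ p) := by
  ext <;> rfl

theorem DModel0_smoothG {δ : P → ℝ} (hδ : Speed δ) : ContDiff ℝ ∞ (DModel0_G hδ) := by
  have h := (DModel0_homeo hδ).contDiff_symm (n := ∞) (𝕜 := ℝ) (f₀' := fun p => DModel0_E hδ p)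
    (fun p => by rw [DModel0_E_coe]; exact DModel0_deriv hδ p) (DModel0_contF hδ)
  exact h

theorem DModel0_conj {F : P → P} (hF : ContDiff ℝ ∞ F) : ContDiff ℝ ∞ (conjE F) :=
  eP.symm.contDiff.comp (hF.comp eP.contDiff)

theorem DModel0_comm {δ : P → ℝ} (hδ : Speed δ) (k m n : ℤ) (p : P) :
    F0 δ (act k m n p) = act k m n (F0 δ p) := by
  simp only [F0, hδ.inv]
  refine Prod.ext rfl (Prod.ext rfl ?_)
  simp only [act]
  ring

theorem exists_model_lift {δ : P → ℝ} (hδ : Speed δ) :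
    ∃ z ∈ LiftSet gens, ∀ x, z.1 x = conjE (F0 δ) x := by
  have hF := DModel0_conj (DModel0_contF hδ)
  have hG := DModel0_conj (DModel0_smoothG hδ)
  refine ⟨(⟨conjE (F0 δ), hF.continuous⟩, ⟨fderiv ℝ (conjE (F0 δ)), hF.continuous_fderiv (by simp)⟩,
    ⟨conjE (DModel0_G hδ), hG.continuous⟩,
    ⟨fderiv ℝ (conjE (DModel0_G hδ)), hG.continuous_fderiv (by simp)⟩), ?_, fun x => rfl⟩
  refine ⟨fun x => (hF.differentiable (by simp) x).hasFDerivAt,
    fun x => (hG.differentiable (by simp) x).hasFDerivAt, ?_, ?_, ?_⟩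
  · intro x
    change conjE (F0 δ) (conjE (DModel0_G hδ) x) = x
    simp [conjE, DModel0_FG]
  · intro x
    change conjE (DModel0_G hδ) (conjE (F0 δ) x) = x
    simp [conjE, DModel0_GF]
  · intro γ hγ x
    change conjE (F0 δ) (γ x) = γ (conjE (F0 δ) x)
    have key : ∀ k m n : ℤ, conjE (F0 δ) (conjE (act k m n) x) = conjE (act k m n) (conjE (F0 δ) x) := by
      intro k m n
      simp [conjE, DModel0_comm hδ]
    rcases hγ with rfl | rfl | rfl
    · exact key 1 0 0
    · exact key 0 1 0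
    · exact key 0 0 1

end

end MPd1f192

end PartDModel0

section PartDNear

/-!
# Part D: quadruples close to the model lift satisfy `C1Near`

Let `z₀` be the model lift (`z₀.1 = conjE (F0 δ)`). For `z` in `LiftSet gens` close to `z₀`, put
`F p = eP (z.1 (eP.symm p))`. `F` commutes with `Γ` (`comm_of_gens`). Let
`B = {0 ≤ u ≤ 1000, 0 ≤ s ≤ 1, -3 ≤ r ≤ 4}` (compact). The compact-open topology gives
`‖F - F₀‖ ≤ η` and `‖DF - DF₀‖ ≤ η` on `B` (constants from `‖eP‖`, `‖eP⁻¹‖`). As translations by `Λ`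
are isometries commuting with `F` and `F₀`, the difference `zeta δ F` and its derivative are
`Λ`-periodic, so both bounds hold on the slab `-3 ≤ r ≤ 4` (`act_slab`), which is convex: mean value
inequality (`Convex.norm_image_sub_le_of_norm_hasFDerivWithin_le`).
-/

open Set Filter Topology
open scoped Manifold ContDiff

set_option linter.style.haveILetI false
set_option linter.unusedSectionVars false

namespace MPd1f192

noncomputable section

/-- Closeness of continuous maps on a compact set. -/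
theorem DNear_eventually {X E : Type*} [TopologicalSpace X] [PseudoMetricSpace E]
    (f : C(X, E)) {K : Set X} (hK : IsCompact K) {ε : ℝ} (hε : 0 < ε) :
    ∀ᶠ g : C(X, E) in 𝓝 f, ∀ x ∈ K, dist (f x) (g x) < ε := by
  have h1 : Tendsto (fun g : C(X, E) => g) (𝓝 f) (𝓝 f) := tendsto_id
  rw [ContinuousMap.tendsto_iff_forall_isCompact_tendstoUniformlyOn] at h1
  exact Metric.tendstoUniformlyOn_iff.1 (h1 K hK) ε hε

/-- Conjugation of the commutation relations. -/
theorem DNear_comm {z : Quad 3} (hz : z ∈ LiftSet gens) (k m n : ℤ) (p : P) :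
    eP (z.1 (eP.symm (act k m n p))) = act k m n (eP (z.1 (eP.symm p))) := by
  have hg : ∀ (k m n : ℤ), conjE (act k m n) ∈ gens → ∀ p : P,
      eP (z.1 (eP.symm (act k m n p))) = act k m n (eP (z.1 (eP.symm p))) := by
    intro k m n hmem p
    have h1 := hz.2.2.2.2 _ hmem (eP.symm p)
    have h2 : conjE (act k m n) (eP.symm p) = eP.symm (act k m n p) := by
      unfold conjE
      rw [ContinuousLinearEquiv.apply_symm_apply]
    rw [h2] at h1
    rw [h1]
    unfold conjE
    rw [ContinuousLinearEquiv.apply_symm_apply]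
  refine comm_of_gens (F := fun p => eP (z.1 (eP.symm p))) ?_ ?_ ?_ k m n p
  · exact hg 1 0 0 (by simp [gens])
  · exact hg 0 1 0 (by simp [gens])
  · exact hg 0 0 1 (by simp [gens])

/-- Horizontal translations. -/
theorem DNear_act (m n : ℤ) (p : P) :
    act 0 m n p = p + ((m : ℝ) + n * lam, (m : ℝ) + n * lam⁻¹, 0) := by
  unfold act
  simp only [neg_zero, zpow_zero, one_mul, Int.cast_zero]
  rfl

/-- The compact box. -/
def DNearBox : Set P := Icc (0 : ℝ) 1000 ×ˢ (Icc (0 : ℝ) 1 ×ˢ Icc (-3 : ℝ) 4)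

theorem DNear_box_compact : IsCompact DNearBox :=
  isCompact_Icc.prod (isCompact_Icc.prod isCompact_Icc)

theorem DNear_F0_act {δ : P → ℝ} (hδ : Speed δ) (m n : ℤ) (p : P) :
    F0 δ (act 0 m n p) = F0 δ p + ((m : ℝ) + n * lam, (m : ℝ) + n * lam⁻¹, 0) := by
  unfold F0
  rw [hδ.inv, DNear_act]
  refine Prod.ext ?_ (Prod.ext ?_ ?_)
  · rfl
  · rfl
  · change p.2.2 + 0 + 1 + δ p = p.2.2 + 1 + δ p + 0
    ring

theorem DNear_zeta (δ : P → ℝ) (F : P → P) (p : P) : zeta δ F p = F p - F0 δ p := rfl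

theorem c1Near_of_close {δ : P → ℝ} (hδ : Speed δ) {η : ℝ} (hη : 0 < η) {z₀ : Quad 3}
    (hz₀ : z₀ ∈ LiftSet gens) (h₀ : ∀ x, z₀.1 x = conjE (F0 δ) x) :
    ∃ W ∈ 𝓝 z₀, ∀ z ∈ LiftSet gens, z ∈ W → C1Near δ η (fun p => eP (z.1 (eP.symm p))) := by
  have hK : IsCompact (eP.symm '' DNearBox) :=
    DNear_box_compact.image eP.symm.continuous
  set a : ℝ := ‖(eP : Eu 3 →L[ℝ] P)‖ with ha
  set b : ℝ := ‖(eP.symm : P →L[ℝ] Eu 3)‖ with hb
  have ha0 : 0 ≤ a := norm_nonneg _
  have hb0 : 0 ≤ b := norm_nonneg _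
  have hε : 0 < η / (a * (b + 1) + 1) := by positivity
  set ε : ℝ := η / (a * (b + 1) + 1) with hεdef
  have hεη : a * (b + 1) * ε ≤ η := by
    have h1 : (a * (b + 1) + 1) * ε = η := by
      rw [hεdef]
      field_simp
    have h2 : 0 ≤ ε := hε.le
    nlinarith only [hε, h1]
  have hW1 : ∀ᶠ z : Quad 3 in 𝓝 z₀, ∀ x ∈ eP.symm '' DNearBox, dist (z₀.1 x) (z.1 x) < ε :=
    (continuous_fst.tendsto z₀).eventually (DNear_eventually z₀.1 hK hε)
  have hW2 : ∀ᶠ z : Quad 3 in 𝓝 z₀, ∀ x ∈ eP.symm '' DNearBox,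
      dist (z₀.2.1 x) (z.2.1 x) < ε :=
    ((continuous_fst.comp continuous_snd).tendsto z₀).eventually
      (DNear_eventually z₀.2.1 hK hε)
  refine ⟨{z | (∀ x ∈ eP.symm '' DNearBox, dist (z₀.1 x) (z.1 x) < ε) ∧
    ∀ x ∈ eP.symm '' DNearBox, dist (z₀.2.1 x) (z.2.1 x) < ε}, hW1.and hW2, ?_⟩
  rintro z hz ⟨hz1, hz2⟩
  have hF0 : ∀ p, F0 δ p = eP (z₀.1 (eP.symm p)) := by
    intro p
    rw [h₀]
    unfold conjE
    rw [ContinuousLinearEquiv.apply_symm_apply, ContinuousLinearEquiv.apply_symm_apply]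
  -- periodicity
  have hper : ∀ (m n : ℤ) (p : P), zeta δ (fun p => eP (z.1 (eP.symm p))) (act 0 m n p)
      = zeta δ (fun p => eP (z.1 (eP.symm p))) p := by
    intro m n p
    rw [DNear_zeta, DNear_zeta, DNear_F0_act hδ]
    rw [DNear_comm hz, DNear_act]
    abel
  -- the derivative
  set D : P → (P →L[ℝ] P) := fun p =>
    (eP : Eu 3 →L[ℝ] P).comp ((z.2.1 (eP.symm p) - z₀.2.1 (eP.symm p)).comp
      (eP.symm : P →L[ℝ] Eu 3)) with hD
  have hder : ∀ p, HasFDerivAt (zeta δ (fun p => eP (z.1 (eP.symm p)))) (D p) p := by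
    intro p
    have h1 : HasFDerivAt (fun p : P => z.1 (eP.symm p))
        ((z.2.1 (eP.symm p)).comp (eP.symm : P →L[ℝ] Eu 3)) p :=
      (hz.1 (eP.symm p)).comp p eP.symm.hasFDerivAt
    have h2 : HasFDerivAt (fun p : P => z₀.1 (eP.symm p))
        ((z₀.2.1 (eP.symm p)).comp (eP.symm : P →L[ℝ] Eu 3)) p :=
      (hz₀.1 (eP.symm p)).comp p eP.symm.hasFDerivAt
    have h3 : HasFDerivAt (fun p : P => eP (z.1 (eP.symm p) - z₀.1 (eP.symm p)))
        ((eP : Eu 3 →L[ℝ] P).comp ((z.2.1 (eP.symm p)).comp (eP.symm : P →L[ℝ] Eu 3) -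
          (z₀.2.1 (eP.symm p)).comp (eP.symm : P →L[ℝ] Eu 3))) p :=
      (eP.hasFDerivAt (x := z.1 (eP.symm p) - z₀.1 (eP.symm p))).comp p (h1.sub h2)
    have h4 : zeta δ (fun p => eP (z.1 (eP.symm p)))
        = fun p : P => eP (z.1 (eP.symm p) - z₀.1 (eP.symm p)) := by
      funext p
      rw [DNear_zeta, hF0, map_sub]
    have h5 : D p = (eP : Eu 3 →L[ℝ] P).comp ((z.2.1 (eP.symm p)).comp
        (eP.symm : P →L[ℝ] Eu 3) - (z₀.2.1 (eP.symm p)).comp (eP.symm : P →L[ℝ] Eu 3)) := by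
      rw [hD]
      simp only [ContinuousLinearMap.sub_comp]
    rw [h4, h5]
    exact h3
  have hDper : ∀ (m n : ℤ) (p : P), D p = D (act 0 m n p) := by
    intro m n p
    have h1 := hder (act 0 m n p)
    rw [DNear_act] at h1
    have h2 := (hasFDerivAt_comp_add_right
      (((m : ℝ) + n * lam, (m : ℝ) + n * lam⁻¹, 0) : P)).2 h1
    have h3 : (fun x : P => zeta δ (fun p => eP (z.1 (eP.symm p)))
        (x + (((m : ℝ) + n * lam, (m : ℝ) + n * lam⁻¹, 0) : P)))
        = zeta δ (fun p => eP (z.1 (eP.symm p))) := by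
      funext x
      rw [← DNear_act]
      exact hper m n x
    rw [h3] at h2
    rw [DNear_act]
    exact (hder p).unique h2
  have hbox : ∀ p : P, -3 ≤ p.2.2 → p.2.2 ≤ 4 → ∃ m n : ℤ, act 0 m n p ∈ DNearBox := by
    intro p h1 h2
    obtain ⟨m, n, h3, h4, h5, h6⟩ := act_slab p
    refine ⟨m, n, ⟨h3, h4⟩, ⟨h5, h6⟩, ?_⟩
    rw [DNear_act]
    change -3 ≤ p.2.2 + 0 ∧ p.2.2 + 0 ≤ 4
    rw [add_zero]
    exact ⟨h1, h2⟩
  refine ⟨fun k m n p => DNear_comm hz k m n p, ?_, ?_⟩
  · intro p h1 h2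
    obtain ⟨m, n, hmem⟩ := hbox p h1 h2
    rw [← hper m n p, DNear_zeta, hF0]
    rw [← map_sub]
    have h3 := hz1 _ (mem_image_of_mem eP.symm hmem)
    rw [dist_comm, dist_eq_norm] at h3
    have h4 : ‖eP (z.1 (eP.symm (act 0 m n p)) - z₀.1 (eP.symm (act 0 m n p)))‖ ≤
        a * ‖z.1 (eP.symm (act 0 m n p)) - z₀.1 (eP.symm (act 0 m n p))‖ :=
      (eP : Eu 3 →L[ℝ] P).le_opNorm _
    have h5 : a * ‖z.1 (eP.symm (act 0 m n p)) - z₀.1 (eP.symm (act 0 m n p))‖ ≤ a * ε :=
      mul_le_mul_of_nonneg_left h3.le ha0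
    have h6 : a * ε ≤ a * (b + 1) * ε := by
      have : 0 ≤ a * b * ε := by positivity
      nlinarith only [this]
    linarith only [hεη, h4, h5, h6]
  · have hbound : ∀ p : P, p ∈ {p : P | -3 ≤ p.2.2 ∧ p.2.2 ≤ 4} → ‖D p‖ ≤ η := by
      intro p hp
      obtain ⟨m, n, hmem⟩ := hbox p hp.1 hp.2
      rw [hDper m n p]
      have h3 := hz2 _ (mem_image_of_mem eP.symm hmem)
      rw [dist_comm, dist_eq_norm] at h3
      have h4 : ‖D (act 0 m n p)‖ ≤ a * (‖z.2.1 (eP.symm (act 0 m n p)) -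
          z₀.2.1 (eP.symm (act 0 m n p))‖ * b) := by
        refine (ContinuousLinearMap.opNorm_comp_le _ _).trans ?_
        refine mul_le_mul_of_nonneg_left ?_ ha0
        exact ContinuousLinearMap.opNorm_comp_le _ _
      have h5 : a * (‖z.2.1 (eP.symm (act 0 m n p)) -
          z₀.2.1 (eP.symm (act 0 m n p))‖ * b) ≤ a * (ε * b) :=
        mul_le_mul_of_nonneg_left (mul_le_mul_of_nonneg_right h3.le hb0) ha0
      have h6 : a * (ε * b) ≤ a * (b + 1) * ε := by
        have : 0 ≤ a * ε := by positivity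
        nlinarith only [this]
      linarith only [hεη, h4, h5, h6]
    have hconv : Convex ℝ {p : P | -3 ≤ p.2.2 ∧ p.2.2 ≤ 4} := by
      intro x hx y hy s t hs ht hst
      have h1 : (s • x + t • y).2.2 = s * x.2.2 + t * y.2.2 := rfl
      refine ⟨?_, ?_⟩
      · rw [h1]
        have e1 := mul_le_mul_of_nonneg_left hx.1 hs
        have e2 := mul_le_mul_of_nonneg_left hy.1 ht
        nlinarith only [hst, e1, e2]
      · rw [h1]
        have e1 := mul_le_mul_of_nonneg_left hx.2 hs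
        have e2 := mul_le_mul_of_nonneg_left hy.2 ht
        nlinarith only [hst, e1, e2]
    intro p p' h1 h2 h3 h4
    exact hconv.norm_image_sub_le_of_norm_hasFDerivWithin_le
      (fun x _ => (hder x).hasFDerivWithinAt) hbound ⟨h3, h4⟩ ⟨h1, h2⟩

end

end MPd1f192

end PartDNear

section PartDShift

/-!
# Part D: composition with the vertical translation

`shiftUp ε` is a translation commuting with `Γ`; if `z = (F, DF, H, DH)` then the quadruple of
`shiftUp ε ∘ F` is `(shiftUp ε ∘ F, DF, H ∘ shiftUp (-ε), DH ∘ shiftUp (-ε))`, continuous in `ε`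
(`ContinuousMap.curry`, `continuous_of_continuous_uncurry`).
-/

open Set Filter Topology
open scoped Manifold ContDiff

set_option linter.style.haveILetI false
set_option linter.unusedSectionVars false

namespace MPd1f192

noncomputable section

/-- The vertical unit vector. -/
def DShift_v : Eu 3 := eP.symm (0, 0, 1)

theorem DShift_conjE (ε : ℝ) (x : Eu 3) : conjE (shiftUp ε) x = x + ε • DShift_v := by
  have h : shiftUp ε (eP x) = eP x + ε • ((0, 0, 1) : P) := by
    simp [shiftUp, Prod.ext_iff]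
  unfold conjE DShift_v
  rw [h, map_add, map_smul, ContinuousLinearEquiv.symm_apply_apply]

theorem DShift_act (k m n : ℤ) (ε : ℝ) (x : Eu 3) :
    conjE (act k m n) (x + ε • DShift_v) = conjE (act k m n) x + ε • DShift_v := by
  have h1 : eP (x + ε • DShift_v) = eP x + ε • ((0, 0, 1) : P) := by
    unfold DShift_v
    rw [map_add, map_smul, ContinuousLinearEquiv.apply_symm_apply]
  have h2 : act k m n (eP x + ε • ((0, 0, 1) : P)) = act k m n (eP x) + ε • ((0, 0, 1) : P) := by
    simp only [act, Prod.smul_mk, smul_eq_mul, mul_zero, mul_one, Prod.fst_add, Prod.snd_add,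
      add_zero, Prod.mk_add_mk, Prod.mk.injEq, true_and]
    ring
  unfold conjE
  rw [h1, h2, map_add, map_smul]
  rfl

theorem DShift_gens {γ : Eu 3 → Eu 3} (hγ : γ ∈ gens) (ε : ℝ) (x : Eu 3) :
    γ (x + ε • DShift_v) = γ x + ε • DShift_v := by
  rcases hγ with rfl | rfl | rfl <;> exact DShift_act _ _ _ ε x

theorem exists_shift {z : Quad 3} (hz : z ∈ LiftSet gens) :
    ∃ w : ℝ → Quad 3, Continuous w ∧ (∀ ε, w ε ∈ LiftSet gens) ∧ w 0 = z ∧
      ∀ ε x, (w ε).1 x = conjE (shiftUp ε) (z.1 x) := by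
  obtain ⟨F, DF, H, DH⟩ := z
  obtain ⟨h1, h2, h3, h4, h5⟩ := hz
  simp only at h1 h2 h3 h4 h5
  have c1 : ∀ ε : ℝ, Continuous (fun x : Eu 3 => F x + ε • DShift_v) := fun ε =>
    F.continuous.add continuous_const
  have c3 : ∀ ε : ℝ, Continuous (fun x : Eu 3 => H (x - ε • DShift_v)) := fun ε =>
    H.continuous.comp (continuous_id.sub continuous_const)
  have c4 : ∀ ε : ℝ, Continuous (fun x : Eu 3 => DH (x - ε • DShift_v)) := fun ε =>
    DH.continuous.comp (continuous_id.sub continuous_const)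
  refine ⟨fun ε => (⟨_, c1 ε⟩, DF, ⟨_, c3 ε⟩, ⟨_, c4 ε⟩), ?_, ?_, ?_, ?_⟩
  · refine Continuous.prodMk ?_ (Continuous.prodMk continuous_const (Continuous.prodMk ?_ ?_))
    · refine ContinuousMap.continuous_of_continuous_uncurry _ ?_
      exact (F.continuous.comp continuous_snd).add (continuous_fst.smul continuous_const)
    · refine ContinuousMap.continuous_of_continuous_uncurry _ ?_
      exact H.continuous.comp (continuous_snd.sub (continuous_fst.smul continuous_const))
    · refine ContinuousMap.continuous_of_continuous_uncurry _ ?_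
      exact DH.continuous.comp (continuous_snd.sub (continuous_fst.smul continuous_const))
  · intro ε
    refine ⟨fun x => ?_, fun x => ?_, fun x => ?_, fun x => ?_, fun γ hγ x => ?_⟩
    · exact (h1 x).add_const (ε • DShift_v)
    · have h6 := (h2 (x - ε • DShift_v)).comp x ((hasFDerivAt_id x).sub_const (ε • DShift_v))
      rw [ContinuousLinearMap.comp_id] at h6
      exact h6
    · change F (H (x - ε • DShift_v)) + ε • DShift_v = x
      rw [h3, sub_add_cancel]
    · change H (F x + ε • DShift_v - ε • DShift_v) = x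
      rw [add_sub_cancel_right, h4]
    · change F (γ x) + ε • DShift_v = γ (F x + ε • DShift_v)
      rw [DShift_gens hγ, h5 γ hγ]
  · refine Prod.ext ?_ (Prod.ext rfl (Prod.ext ?_ ?_))
    · ext1 x
      change F x + (0 : ℝ) • DShift_v = F x
      rw [zero_smul, add_zero]
    · ext1 x
      change H (x - (0 : ℝ) • DShift_v) = H x
      rw [zero_smul, sub_zero]
    · ext1 x
      change DH (x - (0 : ℝ) • DShift_v) = DH x
      rw [zero_smul, sub_zero]
  · intro ε x
    rw [DShift_conjE]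
    rfl

end

end MPd1f192

end PartDShift

section PartDMain

/-!
# Part D: assembly
-/

open Set Filter Topology
open scoped Manifold ContDiff

set_option linter.style.haveILetI false
set_option linter.unusedSectionVars false

namespace MPd1f192

noncomputable section

/-- The homeomorphism of `P` given by an element of `LiftSet`. -/
def DMain_homeo {S : Set (Eu 3 → Eu 3)} (z : Quad 3) (hz : z ∈ LiftSet S) : P ≃ₜ P where
  toFun := fun p => eP (z.1 (eP.symm p))
  invFun := fun p => eP (z.2.2.1 (eP.symm p))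
  left_inv := fun p => by
    beta_reduce
    rw [ContinuousLinearEquiv.symm_apply_apply, hz.2.2.2.1, ContinuousLinearEquiv.apply_symm_apply]
  right_inv := fun p => by
    beta_reduce
    rw [ContinuousLinearEquiv.symm_apply_apply, hz.2.2.1, ContinuousLinearEquiv.apply_symm_apply]
  continuous_toFun := eP.continuous.comp (z.1.continuous.comp eP.symm.continuous)
  continuous_invFun := eP.continuous.comp (z.2.2.1.continuous.comp eP.symm.continuous)

theorem DMain_aux {M : Type} [TopologicalSpace M] [ChartedSpace (Eu 3) M]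
    [IsManifold (𝓡 3) ∞ M] [CompactSpace M] [T2Space M] {q : P → M}
    (hD : Deck (fun x : Eu 3 => q (eP x)) gens) (δ : P → ℝ) (hδ : Speed δ) (η : ℝ) (hη : 0 < η) :
    ∃ U : Set (Diff1 3 M), IsOpen U ∧ U.Nonempty ∧
        (∀ f ∈ U, (∃ F : P ≃ₜ P, (∀ p, q (F p) = f (q p)) ∧ C1Near δ η F ∧
          ∃ fe : ℝ → Diff1 3 M, Tendsto fe (𝓝 0) (𝓝 f) ∧
            ∀ ε p, fe ε (q p) = q (shiftUp ε (F p)))) ∧
        (∀ R ∈ residual (Diff1 3 M), (R ∩ U).Nonempty) := by
  obtain ⟨z₀, hz₀, hz₀F⟩ := exists_model_lift hδ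
  obtain ⟨f₀, hf₀⟩ := exists_desc hD hz₀
  obtain ⟨W, hW, hWn⟩ := c1Near_of_close hδ hη hz₀ hz₀F
  have hev := eventually_exists_lift hD hz₀ hf₀ hW
  obtain ⟨U, hUsub, hUo, hfU⟩ := mem_nhds_iff.1 hev
  refine ⟨U, hUo, ⟨f₀, hfU⟩, ?_, ?_⟩
  · intro f hf
    obtain ⟨z, hz, hzW, hzf⟩ := hUsub hf
    refine ⟨DMain_homeo z hz, ?_, hWn z hz hzW, ?_⟩
    · intro p
      have h1 := hzf (eP.symm p)
      simp only [ContinuousLinearEquiv.apply_symm_apply] at h1
      exact h1
    · obtain ⟨w, hwc, hwL, hw0, hwF⟩ := exists_shift hz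
      choose fe hfe using fun ε => exists_desc hD (hwL ε)
      have hcont : Continuous fe := continuous_desc hD w hwc hwL fe hfe
      have h0 : fe 0 = f := by
        have h1 := hfe 0
        rw [hw0] at h1
        exact isLift_unique hD h1 hzf
      refine ⟨fe, ?_, ?_⟩
      · have := hcont.tendsto 0
        rwa [h0] at this
      · intro ε p
        have h1 := hfe ε (eP.symm p)
        rw [hwF] at h1
        simp only [ContinuousLinearEquiv.apply_symm_apply, conjE] at h1
        exact h1.symm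
  · intro R hR
    exact residual_meets hD hUo hfU hz₀ hf₀ hR

theorem manifoldPart : ManifoldPart := by
  obtain ⟨M, hT, hC, hT2, hCo, q, hq, hs, hΓ⟩ := exists_quotient
  have hcov := smoothCover_quotient hq hs hΓ
  letI : ChartedSpace (Eu 3) M := hcov.charted
  haveI : IsManifold (𝓡 3) ∞ M := hcov.isManifold
  have hdiff : IsLocalDiffeomorph (𝓡 3) (𝓡 3) ∞ (fun x : Eu 3 => q (eP x)) :=
    hcov.isLocalDiffeomorph
  have hD := deck_quotient hq hs hΓ hdiff
  refine ⟨M, hT, hcov.charted, hcov.isManifold, hC, hT2, hCo, q, hq.continuous, hs, hΓ, ?_⟩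
  intro δ hδ η hη
  exact DMain_aux hD δ hδ η hη

end

end MPd1f192

end PartDMain
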