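import Pool.Agent.W_MP_d1f192_an.Defs

section PartA1a

/-! # A1a. Shannon entropy of finite partitions: basics -/

open MeasureTheory Set Filter Topology

namespace MPd1f192

noncomputable section

/-- Jensen: the entropy of a probability vector with at most `N` entries is at most `log N`. -/
theorem A1a_sum_le_log {ι : Type*} (s : Finset ι) (p : ι → ℝ) (h0 : ∀ i ∈ s, 0 ≤ p i)
    (h1 : ∑ i ∈ s, p i = 1) {N : ℕ} (hN : s.card ≤ N) :
    ∑ i ∈ s, Real.negMulLog (p i) ≤ Real.log N := by
  have hs : s.Nonempty := by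
    by_contra h
    rw [Finset.not_nonempty_iff_eq_empty] at h
    rw [h] at h1
    simp at h1
  have hc : 0 < s.card := hs.card_pos
  have hc' : (0 : ℝ) < s.card := by exact_mod_cast hc
  have hJ := Real.concaveOn_negMulLog.le_map_sum (t := s) (w := fun _ => 1 / (s.card : ℝ)) (p := p)
    (fun _ _ => by positivity) (by
      rw [Finset.sum_const, nsmul_eq_mul]
      field_simp) (fun i hi => h0 i hi)
  simp only [smul_eq_mul] at hJ
  rw [← Finset.mul_sum, ← Finset.mul_sum, h1, mul_one] at hJ
  have h2 : Real.negMulLog (1 / (s.card : ℝ)) = 1 / (s.card : ℝ) * Real.log s.card := by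
    rw [Real.negMulLog, one_div, Real.log_inv]
    ring
  rw [h2] at hJ
  have h3 : ∑ i ∈ s, Real.negMulLog (p i) ≤ Real.log s.card :=
    le_of_mul_le_mul_left hJ (by positivity)
  refine h3.trans (Real.log_le_log hc' ?_)
  exact_mod_cast hN

/-- Subadditivity of `negMulLog`. -/
theorem A1a_negMulLog_sum_le {ι : Type*} (s : Finset ι) (p : ι → ℝ) (h0 : ∀ i ∈ s, 0 ≤ p i) :
    Real.negMulLog (∑ i ∈ s, p i) ≤ ∑ i ∈ s, Real.negMulLog (p i) := by
  have h1 : Real.negMulLog (∑ i ∈ s, p i) = ∑ i ∈ s, -(p i * Real.log (∑ i ∈ s, p i)) := by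
    rw [Finset.sum_neg_distrib, ← Finset.sum_mul, Real.negMulLog]
    ring
  rw [h1]
  refine Finset.sum_le_sum fun i hi => ?_
  have h2 : Real.negMulLog (p i) = -(p i * Real.log (p i)) := by
    rw [Real.negMulLog]
    ring
  rw [h2, neg_le_neg_iff]
  rcases (h0 i hi).eq_or_lt with h | h
  · rw [← h]
    simp
  · refine mul_le_mul_of_nonneg_left (Real.log_le_log h ?_) h.le
    exact Finset.single_le_sum h0 hi

variable {X : Type*} [MeasurableSpace X] {μ : Measure X} [IsProbabilityMeasure μ]
variable {ι κ τ : Type*} [Fintype ι] [Fintype κ] [Fintype τ]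
  [MeasurableSpace ι] [MeasurableSingletonClass ι] [MeasurableSpace κ] [MeasurableSingletonClass κ]
  [MeasurableSpace τ] [MeasurableSingletonClass τ]

theorem A1a_sum_eq_one (ξ : X → ι) (hξ : Measurable ξ) : ∑ i, μ.real (ξ ⁻¹' {i}) = 1 := by
  rw [sum_measureReal_preimage_singleton Finset.univ (fun i _ => hξ (measurableSet_singleton i))]
  simp

theorem partEntropy_nonneg (ξ : X → ι) : 0 ≤ partEntropy μ ξ := by
  unfold partEntropy
  exact Finset.sum_nonneg fun i _ => Real.negMulLog_nonneg measureReal_nonneg measureReal_le_one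

theorem partEntropy_le_log_card (ξ : X → ι) (hξ : Measurable ξ) :
    partEntropy μ ξ ≤ Real.log (Fintype.card ι) := by
  unfold partEntropy
  exact A1a_sum_le_log Finset.univ (fun i => μ.real (ξ ⁻¹' {i})) (fun i _ => measureReal_nonneg)
    (A1a_sum_eq_one ξ hξ) le_rfl

/-- If at most `N` atoms of the partition are non-empty, then `H(ξ) ≤ log N`. -/
theorem partEntropy_le_log_ncard (ξ : X → ι) (hξ : Measurable ξ) {N : ℕ}
    (hN : (range ξ).ncard ≤ N) : partEntropy μ ξ ≤ Real.log N := by
  classical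
  have hfin : (range ξ).Finite := Set.toFinite _
  have hzero : ∀ i, i ∉ hfin.toFinset → μ.real (ξ ⁻¹' {i}) = 0 := by
    intro i hi
    have h : ξ ⁻¹' {i} = ∅ := by
      rw [Set.preimage_singleton_eq_empty]
      intro h
      exact hi (hfin.mem_toFinset.2 h)
    rw [h, measureReal_empty]
  have h1 : partEntropy μ ξ = ∑ i ∈ hfin.toFinset, Real.negMulLog (μ.real (ξ ⁻¹' {i})) := by
    unfold partEntropy
    symm
    refine Finset.sum_subset (Finset.subset_univ _) fun i _ hi => ?_
    rw [hzero i hi, Real.negMulLog_zero]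
  rw [h1]
  refine A1a_sum_le_log hfin.toFinset (fun i => μ.real (ξ ⁻¹' {i})) (fun i _ => measureReal_nonneg)
    ?_ ?_
  · rw [← A1a_sum_eq_one (μ := μ) ξ hξ]
    exact Finset.sum_subset (Finset.subset_univ _) fun i _ hi => hzero i hi
  · rw [← Set.ncard_eq_toFinset_card _ hfin]
    exact hN

/-- Relabelling the atoms does not change the entropy. -/
theorem partEntropy_comp_injective (ξ : X → ι) {e : ι → κ} (he : Function.Injective e) :
    partEntropy μ (fun x => e (ξ x)) = partEntropy μ ξ := by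
  unfold partEntropy
  symm
  refine Fintype.sum_of_injective e he _ _ ?_ ?_
  · intro k hk
    have h : (fun x => e (ξ x)) ⁻¹' {k} = ∅ := by
      ext x
      simp only [mem_preimage, mem_singleton_iff, mem_empty_iff_false, iff_false]
      intro h
      exact hk ⟨ξ x, h⟩
    rw [h, measureReal_empty, Real.negMulLog_zero]
  · intro i
    have h : (fun x => e (ξ x)) ⁻¹' {e i} = ξ ⁻¹' {i} := by
      ext x
      simp only [mem_preimage, mem_singleton_iff]
      exact he.eq_iff
    rw [h]

/-- A coarser partition has smaller entropy. -/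
theorem partEntropy_comp_le (ξ : X → ι) (hξ : Measurable ξ) (e : ι → κ) :
    partEntropy μ (fun x => e (ξ x)) ≤ partEntropy μ ξ := by
  classical
  have h1 : ∀ k : κ, μ.real ((fun x => e (ξ x)) ⁻¹' {k}) =
      ∑ i ∈ Finset.univ.filter (fun i => e i = k), μ.real (ξ ⁻¹' {i}) := by
    intro k
    rw [sum_measureReal_preimage_singleton _ (fun i _ => hξ (measurableSet_singleton i))]
    congr 1
    ext x
    simp
  unfold partEntropy
  rw [← Finset.sum_fiberwise Finset.univ e (fun i => Real.negMulLog (μ.real (ξ ⁻¹' {i})))]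
  refine Finset.sum_le_sum fun k _ => ?_
  rw [h1 k]
  exact A1a_negMulLog_sum_le _ _ fun i _ => measureReal_nonneg

/-- Invariance under measure preserving maps. -/
theorem partEntropy_comp_measurePreserving {Y : Type*} [MeasurableSpace Y] {ν : Measure Y}
    {f : X → Y} (hf : MeasurePreserving f μ ν) (ξ : Y → ι) (hξ : Measurable ξ) :
    partEntropy μ (fun x => ξ (f x)) = partEntropy ν ξ := by
  unfold partEntropy
  refine Finset.sum_congr rfl fun i _ => ?_
  have h : (fun x => ξ (f x)) ⁻¹' {i} = f ⁻¹' (ξ ⁻¹' {i}) := rfl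
  rw [h, hf.measureReal_preimage (hξ (measurableSet_singleton i)).nullMeasurableSet]

end

end MPd1f192

end PartA1a

section PartA1b

/-! # A1b. Subadditivity and conditional entropy -/

open MeasureTheory Set Filter Topology

namespace MPd1f192

noncomputable section

/-- Conditional entropy `H(ξ | η)`. -/
def condEnt {X ι κ : Type*} [MeasurableSpace X] [Fintype ι] [Fintype κ] (μ : Measure X) (ξ : X → ι)
    (η : X → κ) : ℝ :=
  partEntropy μ (fun x => (ξ x, η x)) - partEntropy μ η

variable {X : Type*} [MeasurableSpace X] {μ : Measure X} [IsProbabilityMeasure μ]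
variable {ι κ τ : Type*} [Fintype ι] [Fintype κ] [Fintype τ]
  [MeasurableSpace ι] [MeasurableSingletonClass ι] [MeasurableSpace κ] [MeasurableSingletonClass κ]
  [MeasurableSpace τ] [MeasurableSingletonClass τ]

omit [IsProbabilityMeasure μ] in
/-- The atoms of a partition split the measure of any set. -/
theorem A1b_sum_real [IsFiniteMeasure μ] (ξ : X → ι) (hξ : Measurable ξ) (A : Set X) :
    ∑ i, μ.real (ξ ⁻¹' {i} ∩ A) = μ.real A := by
  classical
  have h1 : μ A = ∑ i, μ (ξ ⁻¹' {i} ∩ A) := by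
    have hu : A = ⋃ i, (ξ ⁻¹' {i} ∩ A) := by
      ext x
      simp
    conv_lhs => rw [← Measure.restrict_apply_univ]
    have hu2 : (univ : Set X) = ⋃ i, ξ ⁻¹' {i} := by
      ext x
      simp
    rw [hu2, measure_iUnion _ (fun i => hξ (measurableSet_singleton i)), tsum_fintype]
    · refine Finset.sum_congr rfl fun i _ => ?_
      rw [Measure.restrict_apply (hξ (measurableSet_singleton i))]
    · intro i j hij
      refine Set.disjoint_left.2 fun x hx hx' => hij ?_
      simp only [mem_preimage, mem_singleton_iff] at hx hx'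
      rw [← hx, ← hx']
  simp only [Measure.real]
  rw [h1, ENNReal.toReal_sum (fun i _ => measure_ne_top _ _)]

theorem A1b_real_inter_le (A B : Set X) : μ.real (A ∩ B) ≤ μ.real B :=
  measureReal_mono inter_subset_right

/-- Explicit form of the conditional entropy. -/
theorem condEnt_eq_sum (ξ : X → ι) (η : X → κ) (hξ : Measurable ξ) (hη : Measurable η) :
    condEnt μ ξ η = ∑ j, μ.real (η ⁻¹' {j}) *
      ∑ i, Real.negMulLog (μ.real (ξ ⁻¹' {i} ∩ η ⁻¹' {j}) / μ.real (η ⁻¹' {j})) := by
  unfold condEnt partEntropy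
  have h1 : ∀ p : ι × κ, (fun x => (ξ x, η x)) ⁻¹' {p} = ξ ⁻¹' {p.1} ∩ η ⁻¹' {p.2} := by
    rintro ⟨i, j⟩
    ext x
    simp
  simp only [h1]
  rw [Fintype.sum_prod_type, Finset.sum_comm, ← Finset.sum_sub_distrib]
  refine Finset.sum_congr rfl fun j _ => ?_
  simp only
  set q := μ.real (η ⁻¹' {j}) with hq
  have hsum : ∑ i, μ.real (ξ ⁻¹' {i} ∩ η ⁻¹' {j}) = q := A1b_sum_real ξ hξ _
  by_cases h0 : q = 0
  · have hp : ∀ i, μ.real (ξ ⁻¹' {i} ∩ η ⁻¹' {j}) = 0 := fun i =>
      le_antisymm ((A1b_real_inter_le _ _).trans h0.le) measureReal_nonneg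
    simp [h0, hp]
  · have hp : ∀ i, Real.negMulLog (μ.real (ξ ⁻¹' {i} ∩ η ⁻¹' {j})) =
        (μ.real (ξ ⁻¹' {i} ∩ η ⁻¹' {j}) / q) * Real.negMulLog q +
          q * Real.negMulLog (μ.real (ξ ⁻¹' {i} ∩ η ⁻¹' {j}) / q) := by
      intro i
      rw [← Real.negMulLog_mul, mul_div_cancel₀ _ h0]
    rw [Finset.sum_congr rfl fun i _ => hp i, Finset.sum_add_distrib, ← Finset.sum_mul,
      ← Finset.sum_div, hsum, div_self h0, one_mul, ← Finset.mul_sum]
    ring

/-- Jensen's inequality in the form needed below. -/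
theorem A1b_jensen {J : Type*} [Fintype J] (w p : J → ℝ) (hp : ∀ j, 0 ≤ p j)
    (hpw : ∀ j, p j ≤ w j) :
    ∑ j, w j * Real.negMulLog (p j / w j) ≤
      (∑ j, w j) * Real.negMulLog ((∑ j, p j) / ∑ j, w j) := by
  have hw : ∀ j, 0 ≤ w j := fun j => (hp j).trans (hpw j)
  set W := ∑ j, w j with hW
  have hW0 : 0 ≤ W := Finset.sum_nonneg fun j _ => hw j
  rcases hW0.eq_or_lt with h0 | hpos
  · have : ∀ j ∈ Finset.univ, w j = 0 :=
      (Finset.sum_eq_zero_iff_of_nonneg fun j _ => hw j).1 (hW ▸ h0.symm)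
    rw [← h0, zero_mul]
    refine le_of_eq (Finset.sum_eq_zero fun j hj => ?_)
    rw [this j hj, zero_mul]
  · have hj := Real.concaveOn_negMulLog.le_map_sum (t := Finset.univ) (w := fun j => w j / W)
      (p := fun j => p j / w j) (fun j _ => div_nonneg (hw j) hW0)
      (by rw [← Finset.sum_div]; exact div_self hpos.ne')
      (fun j _ => div_nonneg (hp j) (hw j))
    simp only [smul_eq_mul] at hj
    have e1 : ∑ j, w j / W * (p j / w j) = (∑ j, p j) / W := by
      rw [Finset.sum_div]
      refine Finset.sum_congr rfl fun j _ => ?_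
      rcases (hw j).eq_or_lt with h | h
      · have : p j = 0 := le_antisymm ((hpw j).trans h.symm.le) (hp j)
        rw [this, ← h]
        simp
      · field_simp
    rw [e1] at hj
    have e2 : ∑ j, w j * Real.negMulLog (p j / w j) =
        W * ∑ j, w j / W * Real.negMulLog (p j / w j) := by
      rw [Finset.mul_sum]
      refine Finset.sum_congr rfl fun j _ => ?_
      field_simp
    rw [e2]
    exact mul_le_mul_of_nonneg_left hj hW0

/-- Strong subadditivity: `H(ξ,η,ζ) + H(ζ) ≤ H(ξ,ζ) + H(η,ζ)`. -/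
theorem partEntropy_strong (ξ : X → ι) (η : X → κ) (ζ : X → τ)
    (hξ : Measurable ξ) (hη : Measurable η) (hζ : Measurable ζ) :
    partEntropy μ (fun x => (ξ x, η x, ζ x)) + partEntropy μ ζ ≤
      partEntropy μ (fun x => (ξ x, ζ x)) + partEntropy μ (fun x => (η x, ζ x)) := by
  have key : condEnt μ ξ (fun x => (η x, ζ x)) ≤ condEnt μ ξ ζ := by
    rw [condEnt_eq_sum ξ _ hξ (hη.prodMk hζ), condEnt_eq_sum ξ ζ hξ hζ]
    rw [Fintype.sum_prod_type, Finset.sum_comm]
    refine Finset.sum_le_sum fun k _ => ?_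
    simp only [Finset.mul_sum]
    rw [Finset.sum_comm]
    refine Finset.sum_le_sum fun i _ => ?_
    have h1 : ∀ j : κ, (fun x => (η x, ζ x)) ⁻¹' {(j, k)} = η ⁻¹' {j} ∩ ζ ⁻¹' {k} := by
      intro j
      ext x
      simp
    simp only [h1]
    have e1 : μ.real (ζ ⁻¹' {k}) = ∑ j, μ.real (η ⁻¹' {j} ∩ ζ ⁻¹' {k}) :=
      (A1b_sum_real η hη _).symm
    have e2 : μ.real (ξ ⁻¹' {i} ∩ ζ ⁻¹' {k}) =
        ∑ j, μ.real (ξ ⁻¹' {i} ∩ (η ⁻¹' {j} ∩ ζ ⁻¹' {k})) := by
      rw [← A1b_sum_real η hη (ξ ⁻¹' {i} ∩ ζ ⁻¹' {k})]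
      refine Finset.sum_congr rfl fun j _ => ?_
      congr 1
      exact inter_left_comm _ _ _
    rw [e1, e2]
    exact A1b_jensen (fun j => μ.real (η ⁻¹' {j} ∩ ζ ⁻¹' {k}))
      (fun j => μ.real (ξ ⁻¹' {i} ∩ (η ⁻¹' {j} ∩ ζ ⁻¹' {k}))) (fun j => measureReal_nonneg)
      (fun j => A1b_real_inter_le _ _)
  unfold condEnt at key
  linarith only [key]

theorem partEntropy_prod_le (ξ : X → ι) (η : X → κ) (hξ : Measurable ξ) (hη : Measurable η) :
    partEntropy μ (fun x => (ξ x, η x)) ≤ partEntropy μ ξ + partEntropy μ η := by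
  have h := partEntropy_strong (μ := μ) ξ η (fun _ => ()) hξ hη measurable_const
  have h1 : partEntropy μ (fun x => (ξ x, η x, ())) = partEntropy μ (fun x => (ξ x, η x)) :=
    partEntropy_comp_injective (μ := μ) (fun x => (ξ x, η x))
      (e := fun p : ι × κ => (p.1, p.2, ())) (fun p q hpq => by
        simp only [Prod.mk.injEq, and_true] at hpq
        exact Prod.ext hpq.1 hpq.2)
  have h2 : partEntropy μ (fun x => (ξ x, ())) = partEntropy μ ξ :=
    partEntropy_comp_injective (μ := μ) ξ (e := fun p : ι => (p, ())) (fun p q hpq => by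
        simpa using hpq)
  have h3 : partEntropy μ (fun x => (η x, ())) = partEntropy μ η :=
    partEntropy_comp_injective (μ := μ) η (e := fun p : κ => (p, ())) (fun p q hpq => by
        simpa using hpq)
  have h4 : 0 ≤ partEntropy μ (fun _ : X => ()) := partEntropy_nonneg _
  rw [h1, h2, h3] at h
  linarith only [h, h4]

/-- Conditioning on a finer partition decreases conditional entropy. -/
theorem condEnt_le_of_factor (ξ : X → ι) (η : X → κ) (e : κ → τ)
    (hξ : Measurable ξ) (hη : Measurable η) :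
    condEnt μ ξ η ≤ condEnt μ ξ (fun x => e (η x)) := by
  have he : Measurable e := Measurable.of_discrete
  have h := partEntropy_strong (μ := μ) ξ η (fun x => e (η x)) hξ hη (he.comp hη)
  have h1 : partEntropy μ (fun x => (ξ x, η x, e (η x))) = partEntropy μ (fun x => (ξ x, η x)) :=
    partEntropy_comp_injective (μ := μ) (fun x => (ξ x, η x))
      (e := fun p : ι × κ => (p.1, p.2, e p.2)) (fun p q hpq => by
        simp only [Prod.mk.injEq] at hpq
        exact Prod.ext hpq.1 hpq.2.1)
  have h2 : partEntropy μ (fun x => (η x, e (η x))) = partEntropy μ η :=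
    partEntropy_comp_injective (μ := μ) η (e := fun p : κ => (p, e p)) (fun p q hpq => by
        simp only [Prod.mk.injEq] at hpq
        exact hpq.1)
  rw [h1, h2] at h
  unfold condEnt
  linarith only [h]

theorem condEnt_nonneg (ξ : X → ι) (η : X → κ) (hξ : Measurable ξ) (hη : Measurable η) :
    0 ≤ condEnt μ ξ η := by
  have h := partEntropy_comp_le (μ := μ) (fun x => (ξ x, η x)) (hξ.prodMk hη)
    (Prod.snd : ι × κ → κ)
  unfold condEnt
  simp only at h
  linarith only [h]

/-- `H(ξ₁, ξ₂ | η₁, η₂) ≤ H(ξ₁ | η₁) + H(ξ₂ | η₂)`. -/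
theorem condEnt_prod_le {κ' : Type*} [Fintype κ'] [MeasurableSpace κ']
    [MeasurableSingletonClass κ'] (ξ₁ : X → ι) (ξ₂ : X → κ) (η₁ : X → τ) (η₂ : X → κ')
    (h₁ : Measurable ξ₁) (h₂ : Measurable ξ₂) (h₃ : Measurable η₁) (h₄ : Measurable η₂) :
    condEnt μ (fun x => (ξ₁ x, ξ₂ x)) (fun x => (η₁ x, η₂ x)) ≤
      condEnt μ ξ₁ η₁ + condEnt μ ξ₂ η₂ := by
  have ha : condEnt μ ξ₁ (fun x => (η₁ x, η₂ x)) ≤ condEnt μ ξ₁ η₁ :=
    condEnt_le_of_factor ξ₁ (fun x => (η₁ x, η₂ x)) (Prod.fst : τ × κ' → τ) h₁ (h₃.prodMk h₄)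
  have hb : condEnt μ ξ₂ (fun x => (ξ₁ x, (η₁ x, η₂ x))) ≤ condEnt μ ξ₂ η₂ :=
    condEnt_le_of_factor ξ₂ (fun x => (ξ₁ x, (η₁ x, η₂ x)))
      (fun p : ι × τ × κ' => p.2.2) h₂ (h₁.prodMk (h₃.prodMk h₄))
  have hc : partEntropy μ (fun x => (ξ₂ x, (ξ₁ x, (η₁ x, η₂ x)))) =
      partEntropy μ (fun x => ((ξ₁ x, ξ₂ x), (η₁ x, η₂ x))) :=
    partEntropy_comp_injective (μ := μ) (fun x => ((ξ₁ x, ξ₂ x), (η₁ x, η₂ x)))
      (e := fun p : (ι × κ) × (τ × κ') => (p.1.2, (p.1.1, p.2))) (fun p q hpq => by
        simp only [Prod.mk.injEq] at hpq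
        exact Prod.ext (Prod.ext hpq.2.1 hpq.1) hpq.2.2)
  unfold condEnt at *
  linarith only [ha, hb, hc]

end

end MPd1f192

end PartA1b

section PartA1c

/-! # A1c. Entropy as a function of the measure -/

open MeasureTheory Set Filter Topology

namespace MPd1f192

noncomputable section

variable {X : Type*} [MeasurableSpace X] {ι : Type*} [Fintype ι] [MeasurableSpace ι]
  [MeasurableSingletonClass ι]

omit [Fintype ι] [MeasurableSpace ι] [MeasurableSingletonClass ι] in
theorem a1c_real_sum {J : Type*} (s : Finset J) (w : J → ℝ) (hw : ∀ j ∈ s, 0 ≤ w j)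
    (m : J → Measure X) (hm : ∀ j ∈ s, IsProbabilityMeasure (m j)) (A : Set X) :
    (∑ j ∈ s, ENNReal.ofReal (w j) • m j).real A = ∑ j ∈ s, w j * (m j).real A := by
  have h1 : (∑ j ∈ s, ENNReal.ofReal (w j) • m j) A = ∑ j ∈ s, ENNReal.ofReal (w j) * m j A := by
    rw [Measure.finset_sum_apply]
    simp [Measure.smul_apply]
  rw [Measure.real, h1, ENNReal.toReal_sum]
  · refine Finset.sum_congr rfl fun j hj => ?_
    rw [ENNReal.toReal_mul, ENNReal.toReal_ofReal (hw j hj)]
    rfl
  · intro j hj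
    haveI := hm j hj
    exact ENNReal.mul_ne_top ENNReal.ofReal_ne_top (measure_ne_top _ _)

/-- Entropy is concave: for finitely many probability measures. -/
theorem partEntropy_sum_ge {J : Type*} (s : Finset J) (w : J → ℝ) (hw : ∀ j ∈ s, 0 ≤ w j)
    (hsum : ∑ j ∈ s, w j = 1) (m : J → Measure X) (hm : ∀ j ∈ s, IsProbabilityMeasure (m j))
    (ξ : X → ι) (hξ : Measurable ξ) :
    ∑ j ∈ s, w j * partEntropy (m j) ξ ≤
      partEntropy (∑ j ∈ s, ENNReal.ofReal (w j) • m j) ξ := by
  unfold partEntropy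
  simp_rw [Finset.mul_sum]
  rw [Finset.sum_comm]
  refine Finset.sum_le_sum fun i _ => ?_
  rw [a1c_real_sum s w hw m hm]
  have h := Real.concaveOn_negMulLog.le_map_sum (t := s) (w := w)
    (p := fun j => (m j).real (ξ ⁻¹' {i})) hw hsum (fun j _ => measureReal_nonneg)
  simpa [smul_eq_mul] using h

theorem a1c_negMulLog_add_le {p q : ℝ} (hp : 0 ≤ p) (hq : 0 ≤ q) :
    Real.negMulLog (p + q) ≤ Real.negMulLog p + Real.negMulLog q := by
  rcases hp.eq_or_lt with rfl | hp'
  · simp
  rcases hq.eq_or_lt with rfl | hq'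
  · simp
  have h1 : Real.log p ≤ Real.log (p + q) := Real.log_le_log hp' (by linarith only [hq'])
  have h2 : Real.log q ≤ Real.log (p + q) := Real.log_le_log hq' (by linarith only [hp'])
  unfold Real.negMulLog
  nlinarith only [mul_le_mul_of_nonneg_left h1 hp, mul_le_mul_of_nonneg_left h2 hq]

theorem a1c_sum_real (μ : Measure X) [IsProbabilityMeasure μ] (ξ : X → ι) (hξ : Measurable ξ) :
    ∑ i, μ.real (ξ ⁻¹' {i}) = 1 := by
  classical
  have h := measureReal_biUnion_finset (μ := μ) (s := (Finset.univ : Finset ι))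
    (f := fun i => ξ ⁻¹' {i}) (by
      intro i _ j _ hij
      exact Disjoint.preimage _ (by simpa using hij))
    (fun i _ => hξ (measurableSet_singleton i))
  rw [← h]
  have : (⋃ b ∈ (Finset.univ : Finset ι), ξ ⁻¹' {b}) = univ := by
    ext x; simp
  rw [this]
  simp

/-- Almost convexity: `H_{aμ₁+(1-a)μ₂}(ξ) ≤ a H_{μ₁}(ξ) + (1-a) H_{μ₂}(ξ) + log 2`. -/
theorem partEntropy_mix_le (μ₁ μ₂ : Measure X) [IsProbabilityMeasure μ₁] [IsProbabilityMeasure μ₂]
    (a : ℝ) (ha0 : 0 ≤ a) (ha1 : a ≤ 1) (ξ : X → ι) (hξ : Measurable ξ) :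
    partEntropy (ENNReal.ofReal a • μ₁ + ENNReal.ofReal (1 - a) • μ₂) ξ ≤
      a * partEntropy μ₁ ξ + (1 - a) * partEntropy μ₂ ξ + Real.log 2 := by
  have hb : 0 ≤ 1 - a := by linarith only [ha1]
  have hreal : ∀ A : Set X, (ENNReal.ofReal a • μ₁ + ENNReal.ofReal (1 - a) • μ₂).real A =
      a * μ₁.real A + (1 - a) * μ₂.real A := by
    intro A
    rw [Measure.real, Measure.add_apply, Measure.smul_apply, Measure.smul_apply, smul_eq_mul,
      smul_eq_mul, ENNReal.toReal_add
        (ENNReal.mul_ne_top ENNReal.ofReal_ne_top (measure_ne_top _ _))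
        (ENNReal.mul_ne_top ENNReal.ofReal_ne_top (measure_ne_top _ _)),
      ENNReal.toReal_mul, ENNReal.toReal_mul, ENNReal.toReal_ofReal ha0,
      ENNReal.toReal_ofReal hb]
    rfl
  unfold partEntropy
  have hterm : ∀ i, Real.negMulLog ((ENNReal.ofReal a • μ₁ + ENNReal.ofReal (1 - a) • μ₂).real
      (ξ ⁻¹' {i})) ≤ (a * Real.negMulLog (μ₁.real (ξ ⁻¹' {i})) +
        (1 - a) * Real.negMulLog (μ₂.real (ξ ⁻¹' {i}))) +
        (μ₁.real (ξ ⁻¹' {i}) * Real.negMulLog a +
          μ₂.real (ξ ⁻¹' {i}) * Real.negMulLog (1 - a)) := by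
    intro i
    rw [hreal]
    refine (a1c_negMulLog_add_le (mul_nonneg ha0 measureReal_nonneg)
      (mul_nonneg hb measureReal_nonneg)).trans (le_of_eq ?_)
    rw [Real.negMulLog_mul, Real.negMulLog_mul]
    ring
  refine (Finset.sum_le_sum fun i _ => hterm i).trans ?_
  rw [Finset.sum_add_distrib, Finset.sum_add_distrib, Finset.sum_add_distrib, ← Finset.mul_sum,
    ← Finset.mul_sum, ← Finset.sum_mul, ← Finset.sum_mul, a1c_sum_real μ₁ ξ hξ,
    a1c_sum_real μ₂ ξ hξ]
  have h2 : Real.negMulLog a + Real.negMulLog (1 - a) ≤ Real.log 2 := by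
    rw [← Real.binEntropy_eq_negMulLog_add_negMulLog_one_sub]
    exact Real.binEntropy_le_log_two
  linarith only [h2]

omit [MeasurableSpace ι] [MeasurableSingletonClass ι] in
theorem a1c_tendsto [TopologicalSpace X] [HasOuterApproxClosed X] [BorelSpace X]
    {J : Type*} {l : Filter J} (m : J → ProbabilityMeasure X) (μ : ProbabilityMeasure X)
    (h : Tendsto m l (𝓝 μ)) (ξ : X → ι) (hξ : ∀ i, (μ : Measure X) (frontier (ξ ⁻¹' {i})) = 0) :
    Tendsto (fun j => partEntropy (m j : Measure X) ξ) l (𝓝 (partEntropy (μ : Measure X) ξ)) := by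
  unfold partEntropy
  refine tendsto_finset_sum _ fun i _ => ?_
  have h1 := ProbabilityMeasure.tendsto_measure_of_null_frontier_of_tendsto' h (hξ i)
  have h2 : Tendsto (fun j => (m j : Measure X).real (ξ ⁻¹' {i})) l
      (𝓝 ((μ : Measure X).real (ξ ⁻¹' {i}))) :=
    (ENNReal.tendsto_toReal (measure_ne_top _ _)).comp h1
  exact (Real.continuous_negMulLog.tendsto _).comp h2

/-- Continuity of `μ ↦ H_μ(ξ)` at a measure for which the atoms of `ξ` have null boundary. -/
theorem tendsto_partEntropy [TopologicalSpace X] [HasOuterApproxClosed X] [BorelSpace X]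
    {J : Type*} {l : Filter J} (m : J → ProbabilityMeasure X) (μ : ProbabilityMeasure X)
    (h : Tendsto m l (𝓝 μ)) (ξ : X → ι) (hξ : ∀ i, (μ : Measure X) (frontier (ξ ⁻¹' {i})) = 0) :
    Tendsto (fun j => partEntropy (m j : Measure X) ξ) l (𝓝 (partEntropy (μ : Measure X) ξ)) :=
  a1c_tendsto m μ h ξ hξ

end

end MPd1f192

end PartA1c

section PartA2a

/-! # A2a. Entropy of a map relative to a partition: the limit -/

open MeasureTheory Set Filter Topology

namespace MPd1f192

noncomputable section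

variable {X : Type*} [MeasurableSpace X] {μ : Measure X} [IsProbabilityMeasure μ]
variable {ι κ τ : Type*} [Fintype ι] [Fintype κ] [Fintype τ]
  [MeasurableSpace ι] [MeasurableSingletonClass ι] [MeasurableSpace κ] [MeasurableSingletonClass κ]
  [MeasurableSpace τ] [MeasurableSingletonClass τ]

theorem measurable_itin {f : X → X} (hf : Measurable f) {ξ : X → ι} (hξ : Measurable ξ) (n : ℕ) :
    Measurable (itin f ξ n) := by
  unfold itin
  exact measurable_pi_lambda _ (fun j => hξ.comp (hf.iterate j))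

/-- `H_{m+n} ≤ H_m + H_n`. -/
theorem partEntropy_itin_add_le {f : X → X} (hf : MeasurePreserving f μ μ) {ξ : X → ι}
    (hξ : Measurable ξ) (m n : ℕ) :
    partEntropy μ (itin f ξ (m + n)) ≤ partEntropy μ (itin f ξ m) + partEntropy μ (itin f ξ n) := by
  have hm := measurable_itin hf.measurable hξ m
  have hn := measurable_itin hf.measurable hξ n
  have h1 : itin f ξ (m + n) =
      fun x => (Fin.appendEquiv m n) (itin f ξ m x, itin f ξ n (f^[m] x)) := by
    funext x j
    refine Fin.addCases (fun i => ?_) (fun i => ?_) j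
    · simp [itin, Fin.appendEquiv]
    · simp [itin, Fin.appendEquiv, ← Function.iterate_add_apply, add_comm]
  rw [h1, partEntropy_comp_injective (fun x => (itin f ξ m x, itin f ξ n (f^[m] x)))
    (Fin.appendEquiv m n).injective]
  refine (partEntropy_prod_le _ _ hm (hn.comp (hf.measurable.iterate m))).trans ?_
  exact le_of_eq (congrArg (partEntropy μ (itin f ξ m) + ·)
    (partEntropy_comp_measurePreserving (hf.iterate m) (itin f ξ n) hn))

theorem tendsto_entropyOf {f : X → X} (hf : MeasurePreserving f μ μ) {ξ : X → ι}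
    (hξ : Measurable ξ) :
    Tendsto (fun n : ℕ => partEntropy μ (itin f ξ n) / n) atTop (𝓝 (entropyOf μ f ξ)) := by
  have hsub : Subadditive (fun n => partEntropy μ (itin f ξ n)) :=
    fun m n => partEntropy_itin_add_le hf hξ m n
  have hbdd : BddBelow (range fun n : ℕ => partEntropy μ (itin f ξ n) / n) := by
    refine ⟨0, ?_⟩
    rintro _ ⟨n, rfl⟩
    exact div_nonneg (partEntropy_nonneg _) (Nat.cast_nonneg n)
  have h := hsub.tendsto_lim hbdd
  convert h using 2
  unfold Subadditive.lim entropyOf iInf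
  congr 1
  ext a
  constructor
  · rintro ⟨n, rfl⟩
    exact ⟨n + 1, by simp, by push_cast; rfl⟩
  · rintro ⟨n, hn, rfl⟩
    rw [mem_Ici] at hn
    obtain ⟨k, rfl⟩ := Nat.exists_eq_add_of_le' hn
    exact ⟨k, by push_cast; rfl⟩

theorem entropyOf_nonneg (f : X → X) (ξ : X → ι) : 0 ≤ entropyOf μ f ξ := by
  unfold entropyOf
  exact Real.iInf_nonneg (fun n => div_nonneg (partEntropy_nonneg _) (by positivity))

theorem entropyOf_le {f : X → X} (ξ : X → ι) (n : ℕ) (hn : 0 < n) :
    entropyOf μ f ξ ≤ partEntropy μ (itin f ξ n) / n := by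
  obtain ⟨k, rfl⟩ := Nat.exists_eq_add_of_le' (Nat.succ_le_of_lt hn)
  have hbdd : BddBelow (range fun n : ℕ => partEntropy μ (itin f ξ (n + 1)) / ((n : ℝ) + 1)) := by
    refine ⟨0, ?_⟩
    rintro _ ⟨n, rfl⟩
    exact div_nonneg (partEntropy_nonneg _) (by positivity)
  have h := ciInf_le hbdd k
  simpa [entropyOf] using h

/-- To bound `entropyOf` from below it is enough to bound all `H_n / n`. -/
theorem le_entropyOf {f : X → X} (ξ : X → ι) (a : ℝ)
    (h : ∀ n : ℕ, 0 < n → a ≤ partEntropy μ (itin f ξ n) / n) : a ≤ entropyOf μ f ξ := by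
  unfold entropyOf
  refine le_ciInf (fun n => ?_)
  have h1 := h (n + 1) (Nat.succ_pos n)
  push_cast at h1
  exact h1

end

end MPd1f192

end PartA2a

section PartA2b

/-! # A2b. Metric entropy: comparison of partitions and powers -/

open MeasureTheory Set Filter Topology

namespace MPd1f192

noncomputable section

variable {X : Type*} [MeasurableSpace X] {μ : Measure X} [IsProbabilityMeasure μ]
variable {ι κ : Type*} [Fintype ι] [Fintype κ]
  [MeasurableSpace ι] [MeasurableSingletonClass ι] [MeasurableSpace κ] [MeasurableSingletonClass κ]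

theorem A2b_condEnt_comp_injective {ι' κ' : Type*} [Fintype ι'] [Fintype κ']
    [MeasurableSpace ι'] [MeasurableSingletonClass ι'] [MeasurableSpace κ']
    [MeasurableSingletonClass κ'] (ξ : X → ι) (η : X → κ) {e : ι → ι'} {e' : κ → κ'} (he : Function.Injective e)
    (he' : Function.Injective e') :
    condEnt μ (fun x => e (ξ x)) (fun x => e' (η x)) = condEnt μ ξ η := by
  unfold condEnt
  rw [partEntropy_comp_injective (μ := μ) η he']
  have h := partEntropy_comp_injective (μ := μ) (fun x => (ξ x, η x))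
    (e := Prod.map e e') (he.prodMap he')
  simp only [Prod.map_apply] at h
  rw [h]

theorem A2b_condEnt_comp_measurePreserving {Y : Type*} [MeasurableSpace Y] {ν : Measure Y}
    [IsProbabilityMeasure ν]
    {f : X → Y} (hf : MeasurePreserving f μ ν) (ξ : Y → ι) (η : Y → κ) (hξ : Measurable ξ)
    (hη : Measurable η) :
    condEnt μ (fun x => ξ (f x)) (fun x => η (f x)) = condEnt ν ξ η := by
  unfold condEnt
  rw [partEntropy_comp_measurePreserving hf η hη]
  rw [partEntropy_comp_measurePreserving hf (fun y => (ξ y, η y)) (hξ.prodMk hη)]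

theorem A2b_snoc_injective (τ : Type*) (n : ℕ) : Function.Injective
    (fun p : (Fin n → τ) × τ => (Fin.snoc p.1 p.2 : Fin (n + 1) → τ)) := by
  intro a b h
  have := (Fin.snoc_inj (α := fun _ => τ)).1 h
  exact Prod.ext this.1 this.2

theorem A2b_itin_succ {Y τ : Type*} (f : Y → Y) (ζ : Y → τ) (n : ℕ) : itin f ζ (n + 1) =
    fun x => (fun p : (Fin n → τ) × τ => (Fin.snoc p.1 p.2 : Fin (n + 1) → τ))
      (itin f ζ n x, ζ (f^[n] x)) := by
  funext x i
  refine Fin.lastCases ?_ (fun j => ?_) i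
  · simp [itin]
  · simp [itin]

theorem A2b_condEnt_itin {f : X → X} (hf : MeasurePreserving f μ μ) {ξ : X → ι} {η : X → κ}
    (hξ : Measurable ξ) (hη : Measurable η) (n : ℕ) :
    condEnt μ (itin f ξ n) (itin f η n) ≤ n * condEnt μ ξ η := by
  induction n with
  | zero =>
    have h1 : condEnt μ (itin f ξ 0) (itin f η 0) = 0 := by
      unfold condEnt
      have := partEntropy_comp_injective (μ := μ) (itin f η 0)
        (e := fun y : Fin 0 → κ => ((fun i => i.elim0 : Fin 0 → ι), y))
        (fun a b h => (Prod.mk.inj h).2)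
      have h2 : (fun x => (itin f ξ 0 x, itin f η 0 x)) =
          fun x => ((fun i => i.elim0 : Fin 0 → ι), itin f η 0 x) := by
        funext x
        exact Prod.ext (funext fun i => i.elim0) rfl
      rw [h2, this, sub_self]
    rw [h1]; simp
  | succ n ih =>
    rw [A2b_itin_succ f ξ, A2b_itin_succ f η,
      A2b_condEnt_comp_injective _ _ (A2b_snoc_injective ι n) (A2b_snoc_injective κ n)]
    have hfn := hf.iterate n
    have h1 := condEnt_prod_le (μ := μ) (itin f ξ n) (fun x => ξ (f^[n] x)) (itin f η n)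
      (fun x => η (f^[n] x)) (measurable_itin hf.measurable hξ n) (hξ.comp hfn.measurable)
      (measurable_itin hf.measurable hη n) (hη.comp hfn.measurable)
    rw [A2b_condEnt_comp_measurePreserving hfn ξ η hξ hη] at h1
    refine h1.trans ?_
    push_cast
    linarith only [ih]

/-- `h(f, ξ) ≤ h(f, η) + H(ξ | η)`. -/
theorem entropyOf_le_add_condEnt {f : X → X} (hf : MeasurePreserving f μ μ) {ξ : X → ι} {η : X → κ}
    (hξ : Measurable ξ) (hη : Measurable η) :
    entropyOf μ f ξ ≤ entropyOf μ f η + condEnt μ ξ η := by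
  have h1 := tendsto_entropyOf hf hξ
  have h2 := (tendsto_entropyOf hf hη).add_const (condEnt μ ξ η)
  refine le_of_tendsto_of_tendsto h1 h2 ?_
  filter_upwards [eventually_gt_atTop 0] with n hn
  have hn' : (0 : ℝ) < n := by exact_mod_cast hn
  have h3 := partEntropy_comp_le (μ := μ) (fun x => (itin f ξ n x, itin f η n x))
    ((measurable_itin hf.measurable hξ n).prodMk (measurable_itin hf.measurable hη n)) Prod.fst
  have h4 := A2b_condEnt_itin hf hξ hη n
  have h5 : partEntropy μ (itin f ξ n) ≤ partEntropy μ (itin f η n) + n * condEnt μ ξ η := by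
    have h6 : partEntropy μ (fun x => (itin f ξ n x, itin f η n x)) =
        condEnt μ (itin f ξ n) (itin f η n) + partEntropy μ (itin f η n) := by
      unfold condEnt; ring
    have h3' : partEntropy μ (itin f ξ n) ≤
      partEntropy μ (fun x => (itin f ξ n x, itin f η n x)) := h3
    linarith only [h3, h4, h6]
  rw [div_le_iff₀ hn', add_mul, div_mul_cancel₀ _ hn'.ne']
  linarith only [h5]

/-- Relabelling; any finite type of labels may be used to bound the metric entropy from below. -/
theorem entropyOf_le_metricEntropy {f : X → X} {ξ : X → ι} (hξ : Measurable ξ) :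
    (entropyOf μ f ξ : EReal) ≤ metricEntropy μ f := by
  have hm : Measurable (Fintype.equivFin ι : ι → Fin (Fintype.card ι)) := measurable_of_finite _
  have hξ' : Measurable (fun x => Fintype.equivFin ι (ξ x)) := hm.comp hξ
  have h1 : entropyOf μ f (fun x => Fintype.equivFin ι (ξ x)) = entropyOf μ f ξ := by
    unfold entropyOf
    congr 1
    funext n
    have hinj : Function.Injective
        (fun w : Fin (n + 1) → ι => (fun i => Fintype.equivFin ι (w i))) := by
      intro a b h
      funext i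
      exact (Fintype.equivFin ι).injective (congrFun h i)
    have := partEntropy_comp_injective (μ := μ) (itin f ξ (n + 1)) hinj
    rw [← this]
    rfl
  rw [← h1]
  unfold metricEntropy
  exact le_iSup_of_le (Fintype.card ι) (le_iSup_of_le _ (le_iSup_of_le hξ' le_rfl))

/-- Conversely, an upper bound for all partitions bounds the metric entropy. -/
theorem metricEntropy_le {f : X → X} (a : EReal)
    (h : ∀ (k : ℕ) (ξ : X → Fin k), Measurable ξ → (entropyOf μ f ξ : EReal) ≤ a) :
    metricEntropy μ f ≤ a := by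
  unfold metricEntropy
  exact iSup_le fun k => iSup_le fun ξ => iSup_le fun hξ => h k ξ hξ

theorem metricEntropy_nonneg (f : X → X) : 0 ≤ metricEntropy μ f := by
  have h1 : Measurable (fun _ : X => (0 : Fin 1)) := measurable_const
  have h2 := entropyOf_le_metricEntropy (μ := μ) (f := f) h1
  exact (EReal.coe_nonneg.2 (entropyOf_nonneg f _)).trans h2

theorem A2b_entropyOf_iterate {f : X → X} (hf : MeasurePreserving f μ μ) (n : ℕ) (hn : 0 < n)
    {ξ : X → ι} (hξ : Measurable ξ) :
    entropyOf μ (f^[n]) (itin f ξ n) = n * entropyOf μ f ξ := by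
  have hn' : (0 : ℝ) < n := by exact_mod_cast hn
  have h1 := tendsto_entropyOf (hf.iterate n) (measurable_itin hf.measurable hξ n)
  have h2 : ∀ m : ℕ, partEntropy μ (itin (f^[n]) (itin f ξ n) m) =
      partEntropy μ (itin f ξ (m * n)) := by
    intro m
    have hinj : Function.Injective
        (fun w : Fin (m * n) → ι => (fun (i : Fin m) (j : Fin n) =>
          w (finProdFinEquiv (i, j)))) := by
      intro a b h
      funext i
      have := congrFun (congrFun h (finProdFinEquiv.symm i).1) (finProdFinEquiv.symm i).2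
      simpa only [Prod.mk.eta, Equiv.apply_symm_apply] using this
    have := partEntropy_comp_injective (μ := μ) (itin f ξ (m * n)) hinj
    rw [← this]
    congr 1
    funext x i j
    simp only [itin, finProdFinEquiv_apply_val]
    rw [← Function.iterate_mul, ← Function.iterate_add_apply]
  have h3 := tendsto_entropyOf hf hξ
  have h4 : Tendsto (fun m : ℕ => m * n) atTop atTop :=
    tendsto_id.atTop_mul_const' hn
  have h5 := (h3.comp h4).const_mul (n : ℝ)
  refine tendsto_nhds_unique h1 (h5.congr fun m => ?_)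
  simp only [Function.comp_apply]
  rw [h2 m]
  push_cast
  rcases Nat.eq_zero_or_pos m with hm | hm
  · subst hm; simp
  · have hm' : (0 : ℝ) < m := by exact_mod_cast hm
    field_simp

/-- Power inequality `n · h_μ(f) ≤ h_μ(fⁿ)`. -/
theorem mul_metricEntropy_le {f : X → X} (hf : MeasurePreserving f μ μ) (n : ℕ) (hn : 0 < n) :
    ((n : ℝ) : EReal) * metricEntropy μ f ≤ metricEntropy μ (f^[n]) := by
  have hn' : (0 : ℝ) < n := by exact_mod_cast hn
  have hn2 : (0 : EReal) < ((n : ℝ) : EReal) := by exact_mod_cast hn'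
  rw [mul_comm, ← EReal.le_div_iff_mul_le hn2 (EReal.coe_ne_top _)]
  refine metricEntropy_le _ fun k ξ hξ => ?_
  rw [EReal.le_div_iff_mul_le hn2 (EReal.coe_ne_top _)]
  have h1 := entropyOf_le_metricEntropy (μ := μ) (f := f^[n])
    (measurable_itin hf.measurable hξ n)
  rw [A2b_entropyOf_iterate hf n hn hξ] at h1
  rw [mul_comm]
  exact_mod_cast h1

end

end MPd1f192

end PartA2b

section PartA3a

/-! # A3a. Entropy of a mixture -/

open MeasureTheory Set Filter Topology

namespace MPd1f192

noncomputable section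

variable {X : Type*} [MeasurableSpace X]

theorem A3a_isProb (μ₁ μ₂ : Measure X) [IsProbabilityMeasure μ₁]
    [IsProbabilityMeasure μ₂] (a : ℝ) (ha0 : 0 ≤ a) (ha1 : a ≤ 1) :
    IsProbabilityMeasure (ENNReal.ofReal a • μ₁ + ENNReal.ofReal (1 - a) • μ₂) := by
  constructor
  rw [Measure.add_apply, Measure.smul_apply, Measure.smul_apply, measure_univ, measure_univ,
    smul_eq_mul, smul_eq_mul, mul_one, mul_one, ← ENNReal.ofReal_add ha0 (by linarith only [ha1])]
  simp

theorem A3a_mp {f : X → X} {μ₁ μ₂ : Measure X} (h₁ : MeasurePreserving f μ₁ μ₁)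
    (h₂ : MeasurePreserving f μ₂ μ₂) (a : ℝ) :
    MeasurePreserving f (ENNReal.ofReal a • μ₁ + ENNReal.ofReal (1 - a) • μ₂)
      (ENNReal.ofReal a • μ₁ + ENNReal.ofReal (1 - a) • μ₂) :=
  (h₁.smul_measure (ENNReal.ofReal a)).add_measure (h₂.smul_measure (ENNReal.ofReal (1 - a)))

theorem A3a_entropyOf_le {f : X → X} (μ₁ μ₂ : Measure X) [IsProbabilityMeasure μ₁]
    [IsProbabilityMeasure μ₂] (h₁ : MeasurePreserving f μ₁ μ₁) (h₂ : MeasurePreserving f μ₂ μ₂)
    (a : ℝ) (ha0 : 0 ≤ a) (ha1 : a ≤ 1) {k : ℕ} (ξ : X → Fin k) (hξ : Measurable ξ) :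
    entropyOf (ENNReal.ofReal a • μ₁ + ENNReal.ofReal (1 - a) • μ₂) f ξ ≤
      a * entropyOf μ₁ f ξ + (1 - a) * entropyOf μ₂ f ξ := by
  have := A3a_isProb μ₁ μ₂ a ha0 ha1
  have t0 := tendsto_entropyOf (A3a_mp h₁ h₂ a) hξ
  have t1 := tendsto_entropyOf h₁ hξ
  have t2 := tendsto_entropyOf h₂ hξ
  have t3 : Tendsto (fun n : ℕ => Real.log 2 / (n : ℝ)) atTop (𝓝 0) :=
    tendsto_const_nhds.div_atTop tendsto_natCast_atTop_atTop
  have t4 := ((t1.const_mul a).add (t2.const_mul (1 - a))).add t3
  rw [add_zero] at t4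
  refine le_of_tendsto_of_tendsto' t0 t4 fun n => ?_
  have hmeas : Measurable (itin f ξ n) := measurable_itin h₁.measurable hξ n
  have := partEntropy_mix_le μ₁ μ₂ a ha0 ha1 (itin f ξ n) hmeas
  calc partEntropy (ENNReal.ofReal a • μ₁ + ENNReal.ofReal (1 - a) • μ₂) (itin f ξ n) / (n : ℝ)
      ≤ (a * partEntropy μ₁ (itin f ξ n) + (1 - a) * partEntropy μ₂ (itin f ξ n) + Real.log 2)
          / (n : ℝ) := div_le_div_of_nonneg_right this (Nat.cast_nonneg n)
    _ = _ := by ring

/-- If `μ = a μ₁ + (1-a) μ₂` with both invariant, then `h_μ ≤ max h_{μ₁} h_{μ₂}`. -/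
theorem metricEntropy_mix_le {f : X → X} (μ₁ μ₂ : Measure X) [IsProbabilityMeasure μ₁]
    [IsProbabilityMeasure μ₂] (h₁ : MeasurePreserving f μ₁ μ₁) (h₂ : MeasurePreserving f μ₂ μ₂)
    (a : ℝ) (ha0 : 0 ≤ a) (ha1 : a ≤ 1) :
    metricEntropy (ENNReal.ofReal a • μ₁ + ENNReal.ofReal (1 - a) • μ₂) f ≤
      max (metricEntropy μ₁ f) (metricEntropy μ₂ f) := by
  have := A3a_isProb μ₁ μ₂ a ha0 ha1
  refine metricEntropy_le _ fun k ξ hξ => ?_
  have h := A3a_entropyOf_le μ₁ μ₂ h₁ h₂ a ha0 ha1 ξ hξ
  have h' : entropyOf (ENNReal.ofReal a • μ₁ + ENNReal.ofReal (1 - a) • μ₂) f ξ ≤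
      max (entropyOf μ₁ f ξ) (entropyOf μ₂ f ξ) := by
    refine h.trans ?_
    have e1 := le_max_left (entropyOf μ₁ f ξ) (entropyOf μ₂ f ξ)
    have e2 := le_max_right (entropyOf μ₁ f ξ) (entropyOf μ₂ f ξ)
    nlinarith only [mul_le_mul_of_nonneg_left e1 ha0, mul_le_mul_of_nonneg_left e2 (sub_nonneg.2 ha1)]
  rcases le_max_iff.1 h' with h1 | h1
  · exact le_max_of_le_left ((EReal.coe_le_coe_iff.2 h1).trans (entropyOf_le_metricEntropy hξ))
  · exact le_max_of_le_right ((EReal.coe_le_coe_iff.2 h1).trans (entropyOf_le_metricEntropy hξ))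

theorem A3a_cond_mp {f : X → X} (μ : Measure X) [IsProbabilityMeasure μ]
    (hf : MeasurePreserving f μ μ) {B : Set X} (hB : MeasurableSet B)
    (hfB : f ⁻¹' B =ᵐ[μ] B) :
    MeasurePreserving f (ProbabilityTheory.cond μ B) (ProbabilityTheory.cond μ B) := by
  have h := hf.restrict_preimage hB
  rw [Measure.restrict_congr_set hfB] at h
  exact h.smul_measure ((μ B)⁻¹)

/-- An invariant probability measure with `h_μ(f) > h̃(f, Bᶜ)`, where `B` is forward invariant, can be
replaced by one giving full mass to `B` without decreasing the entropy. -/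
theorem exists_measure_on_invariant {f : X → X} (μ : Measure X) [IsProbabilityMeasure μ]
    (hf : MeasurePreserving f μ μ) {B : Set X} (hB : MeasurableSet B) (hfB : ∀ x ∈ B, f x ∈ B)
    (hlt : htilde f Bᶜ < metricEntropy μ f) :
    ∃ ν : Measure X, IsProbabilityMeasure ν ∧ MeasurePreserving f ν ν ∧ ν B = 1 ∧
      metricEntropy μ f ≤ metricEntropy ν f := by
  have hae : f ⁻¹' B =ᵐ[μ] B := by
    have hsub : B ⊆ f ⁻¹' B := fun x hx => hfB x hx
    refine (ae_eq_of_subset_of_measure_ge hsub ?_ hB.nullMeasurableSet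
      (measure_ne_top _ _)).symm
    rw [hf.measure_preimage hB.nullMeasurableSet]
  by_cases h0 : μ B = 0
  · exfalso
    have h1 : μ Bᶜ = 1 := by
      rw [prob_compl_eq_one_iff hB]
      exact h0
    have : metricEntropy μ f ≤ htilde f Bᶜ := le_sSup ⟨μ, inferInstance, hf, h1, rfl⟩
    exact absurd hlt (not_lt.2 this)
  by_cases h0' : μ Bᶜ = 0
  · refine ⟨μ, inferInstance, hf, ?_, le_rfl⟩
    rwa [prob_compl_eq_zero_iff hB] at h0'
  have haec : f ⁻¹' Bᶜ =ᵐ[μ] Bᶜ := by
    rw [preimage_compl]
    exact hae.compl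
  set μ₁ := ProbabilityTheory.cond μ B with hμ₁
  set μ₂ := ProbabilityTheory.cond μ Bᶜ with hμ₂
  have p1 : IsProbabilityMeasure μ₁ := ProbabilityTheory.cond_isProbabilityMeasure h0
  have p2 : IsProbabilityMeasure μ₂ := ProbabilityTheory.cond_isProbabilityMeasure h0'
  have m1 : MeasurePreserving f μ₁ μ₁ := A3a_cond_mp μ hf hB hae
  have m2 : MeasurePreserving f μ₂ μ₂ := A3a_cond_mp μ hf hB.compl haec
  have ha0 : 0 ≤ μ.real B := measureReal_nonneg
  have ha1 : μ.real B ≤ 1 := measureReal_le_one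
  have e1 : ENNReal.ofReal (μ.real B) = μ B := ofReal_measureReal
  have e2 : ENNReal.ofReal (1 - μ.real B) = μ Bᶜ := by
    rw [← probReal_compl_eq_one_sub hB]
    exact ofReal_measureReal
  have hdecomp : ENNReal.ofReal (μ.real B) • μ₁ + ENNReal.ofReal (1 - μ.real B) • μ₂ = μ := by
    rw [e1, e2, hμ₁, hμ₂, ProbabilityTheory.cond, ProbabilityTheory.cond, smul_smul, smul_smul,
      ENNReal.mul_inv_cancel h0 (measure_ne_top _ _),
      ENNReal.mul_inv_cancel h0' (measure_ne_top _ _), one_smul, one_smul,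
      Measure.restrict_add_restrict_compl hB]
  have hmix := metricEntropy_mix_le μ₁ μ₂ m1 m2 (μ.real B) ha0 ha1
  rw [hdecomp] at hmix
  have h2 : metricEntropy μ₂ f ≤ htilde f Bᶜ := by
    refine le_sSup ⟨μ₂, p2, m2, ?_, rfl⟩
    exact ProbabilityTheory.cond_apply_self h0' (measure_ne_top _ _)
  refine ⟨μ₁, p1, m1, ProbabilityTheory.cond_apply_self h0 (measure_ne_top _ _), ?_⟩
  rcases le_max_iff.1 hmix with h | h
  · exact h
  · exact absurd (lt_of_le_of_lt h2 hlt) (not_lt.2 h)

end

end MPd1f192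

end PartA3a

section PartA3b

/-! # A3b. Transport of invariant measures by a Borel isomorphism -/

open MeasureTheory Set Filter Topology

namespace MPd1f192

noncomputable section

/-- If `π ∘ f = g ∘ π` `μ`-almost everywhere and `π` has a measurable left inverse `μ`-almost
everywhere, then `h_μ(f) ≤ h_{π_* μ}(g)`. -/
theorem metricEntropy_le_map_aux {X Y : Type*} [MeasurableSpace X] [MeasurableSpace Y]
    {μ : Measure X} {f : X → X} {g : Y → Y} {π : X → Y} {ρ : Y → X}
    (hμf : MeasurePreserving f μ μ) (hg : Measurable g) (hπ : Measurable π) (hρ : Measurable ρ)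
    (hc : ∀ᵐ x ∂μ, π (f x) = g (π x)) (hr : ∀ᵐ x ∂μ, ρ (π x) = x) :
    metricEntropy μ f ≤ metricEntropy (μ.map π) g := by
  -- iterates of the conjugacy relation
  have hit : ∀ n : ℕ, ∀ᵐ x ∂μ, π (f^[n] x) = g^[n] (π x) := by
    intro n
    induction n with
    | zero => exact Filter.Eventually.of_forall fun x => rfl
    | succ n ih =>
      have h1 : ∀ᵐ x ∂μ, π (f (f^[n] x)) = g (π (f^[n] x)) :=
        (hμf.iterate n).quasiMeasurePreserving.ae hc
      filter_upwards [ih, h1] with x hx1 hx2
      rw [Function.iterate_succ_apply', Function.iterate_succ_apply', hx2, hx1]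
  have hrt : ∀ n : ℕ, ∀ᵐ x ∂μ, ρ (π (f^[n] x)) = f^[n] x := fun n =>
    (hμf.iterate n).quasiMeasurePreserving.ae hr
  refine iSup_le fun k => iSup_le fun ξ => iSup_le fun hξ => ?_
  have key : entropyOf μ f ξ = entropyOf (μ.map π) g (fun y => ξ (ρ y)) := by
    unfold entropyOf
    refine iInf_congr fun n => ?_
    congr 1
    unfold partEntropy
    refine Finset.sum_congr rfl fun w _ => ?_
    congr 1
    have hms : MeasurableSet (itin g (fun y => ξ (ρ y)) (n + 1) ⁻¹' {w}) := by
      have : Measurable (itin g (fun y => ξ (ρ y)) (n + 1)) :=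
        measurable_pi_lambda _ fun j => (hξ.comp hρ).comp (hg.iterate _)
      exact this (measurableSet_singleton w)
    rw [Measure.real, Measure.real, Measure.map_apply hπ hms]
    congr 1
    refine measure_congr ?_
    have hall : ∀ᵐ x ∂μ, ∀ j : ℕ, π (f^[j] x) = g^[j] (π x) ∧ ρ (π (f^[j] x)) = f^[j] x := by
      rw [ae_all_iff]
      intro j
      filter_upwards [hit j, hrt j] with x h1 h2 using ⟨h1, h2⟩
    filter_upwards [hall] with x hx
    have : itin f ξ (n + 1) x = itin g (fun y => ξ (ρ y)) (n + 1) (π x) := by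
      funext j
      simp only [itin]
      rw [← (hx j).1, (hx j).2]
    exact propext (by
      change itin f ξ (n + 1) x = w ↔ itin g (fun y => ξ (ρ y)) (n + 1) (π x) = w
      rw [this])
  rw [key]
  exact le_iSup_of_le k (le_iSup_of_le (fun y => ξ (ρ y)) (le_iSup_of_le (hξ.comp hρ) le_rfl))

variable {X : Type*} [MeasurableSpace X]

open Classical in
/-- extension of a Borel isomorphism between subsets by the identity -/
def extendIso {A B : Set X} (ψ : A ≃ᵐ B) (x : X) : X :=
  if h : x ∈ A then (ψ ⟨x, h⟩ : X) else x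

theorem extendIso_of_mem {A B : Set X} (ψ : A ≃ᵐ B) (x : A) : extendIso ψ x = ψ x := by
  unfold extendIso
  rw [dif_pos x.2]

theorem measurable_extendIso {A B : Set X} (hA : MeasurableSet A) (ψ : A ≃ᵐ B) :
    Measurable (extendIso ψ) := by
  classical
  unfold extendIso
  exact Measurable.dite (measurable_subtype_coe.comp ψ.measurable)
    measurable_subtype_coe hA

/-- one direction, with an arbitrary `g`-invariant set `A` -/
theorem exists_transport_aux {f g : X → X} (hf : Measurable f)
    {A B : Set X} (hA : MeasurableSet A) (hB : MeasurableSet B)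
    (ψ : A ≃ᵐ B) (hψ : ∀ x : A, ∃ h : g x ∈ A, (ψ ⟨g x, h⟩ : X) = f (ψ x))
    (ν : Measure X) [IsProbabilityMeasure ν] (hν : MeasurePreserving g ν ν) (hνA : ν A = 1) :
    ∃ μ : Measure X, IsProbabilityMeasure μ ∧ MeasurePreserving f μ μ ∧ μ B = 1 ∧
      metricEntropy ν g ≤ metricEntropy μ f := by
  have hπ := measurable_extendIso hA ψ
  have hρ := measurable_extendIso hB ψ.symm
  have hA' : ∀ᵐ x ∂ν, x ∈ A := by
    rw [← prob_compl_eq_zero_iff hA] at hνA
    exact hνA
  have hc : ∀ᵐ x ∂ν, extendIso ψ (g x) = f (extendIso ψ x) := by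
    filter_upwards [hA'] with x hx
    obtain ⟨h1, h2⟩ := hψ ⟨x, hx⟩
    have e1 := extendIso_of_mem ψ ⟨x, hx⟩
    have e2 := extendIso_of_mem ψ ⟨g x, h1⟩
    simp only at e1 e2 h2
    rw [e1, e2, h2]
  have hr : ∀ᵐ x ∂ν, extendIso ψ.symm (extendIso ψ x) = x := by
    filter_upwards [hA'] with x hx
    have e1 := extendIso_of_mem ψ ⟨x, hx⟩
    have e2 := extendIso_of_mem ψ.symm (ψ ⟨x, hx⟩)
    simp only [MeasurableEquiv.symm_apply_apply] at e1 e2
    rw [e1, e2]
  refine ⟨ν.map (extendIso ψ), Measure.isProbabilityMeasure_map hπ.aemeasurable, ⟨hf, ?_⟩, ?_,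
    metricEntropy_le_map_aux hν hf hπ hρ hc hr⟩
  · rw [Measure.map_map hf hπ]
    have h1 : ν.map (f ∘ extendIso ψ) = ν.map (extendIso ψ ∘ g) := by
      refine Measure.map_congr ?_
      filter_upwards [hc] with x hx
      exact hx.symm
    rw [h1, ← Measure.map_map hπ hν.measurable, hν.map_eq]
  · rw [Measure.map_apply hπ hB]
    have : ∀ᵐ x ∂ν, x ∈ extendIso ψ ⁻¹' B := by
      filter_upwards [hA'] with x hx
      have e1 := extendIso_of_mem ψ ⟨x, hx⟩
      simp only at e1
      rw [mem_preimage, e1]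
      exact (ψ ⟨x, hx⟩).2
    rw [← prob_compl_eq_zero_iff (hπ hB)]
    exact this

/-- Transport by a Borel isomorphism between invariant sets. -/
theorem exists_transport {f g : X → X} (hf : Measurable f) (hg : Measurable g)
    {A B : Set X} (hA : MeasurableSet A) (hB : MeasurableSet B)
    (ψ : A ≃ᵐ B) (hψ : ∀ x : A, ∃ h : g x ∈ A, (ψ ⟨g x, h⟩ : X) = f (ψ x))
    (μ : Measure X) [IsProbabilityMeasure μ] (hμ : MeasurePreserving f μ μ) (hμB : μ B = 1) :
    ∃ ν : Measure X, IsProbabilityMeasure ν ∧ MeasurePreserving g ν ν ∧ ν A = 1 ∧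
      metricEntropy μ f ≤ metricEntropy ν g := by
  refine exists_transport_aux hg hB hA ψ.symm ?_ μ hμ hμB
  intro y
  obtain ⟨h1, h2⟩ := hψ (ψ.symm y)
  rw [MeasurableEquiv.apply_symm_apply] at h2
  have h3 : f y ∈ B := by
    rw [← h2]
    exact (ψ ⟨g (ψ.symm y), h1⟩).2
  refine ⟨h3, ?_⟩
  have h4 : (⟨f y, h3⟩ : B) = ψ ⟨g (ψ.symm y), h1⟩ := Subtype.ext h2.symm
  rw [h4, MeasurableEquiv.symm_apply_apply]

/-- The other direction. -/
theorem exists_transport' {f g : X → X} (hf : Measurable f) (hg : Measurable g)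
    {A B : Set X} (hA : MeasurableSet A) (hB : MeasurableSet B)
    (ψ : A ≃ᵐ B) (hψ : ∀ x : A, ∃ h : g x ∈ A, (ψ ⟨g x, h⟩ : X) = f (ψ x))
    (ν : Measure X) [IsProbabilityMeasure ν] (hν : MeasurePreserving g ν ν) (hνA : ν A = 1) :
    ∃ μ : Measure X, IsProbabilityMeasure μ ∧ MeasurePreserving f μ μ ∧ μ B = 1 ∧
      metricEntropy ν g ≤ metricEntropy μ f :=
  exists_transport_aux hf hA hB ψ hψ ν hν hνA

end

end MPd1f192

end PartA3b

section PartA4a

/-! # A4a. Approximation of a partition by compact sets -/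

open MeasureTheory Set Filter Topology

namespace MPd1f192

noncomputable section

variable {X : Type*} [MetricSpace X] [CompactSpace X] [MeasurableSpace X] [BorelSpace X]

theorem A4a_negMulLog_le {t : ℝ} (ht : 0 ≤ t) : Real.negMulLog t ≤ 1 := by
  rcases ht.eq_or_lt with h | h
  · rw [← h]; simp
  · have h1 := Real.one_sub_inv_le_log_of_pos h
    have h2 : t * (1 - t⁻¹) ≤ t * Real.log t := mul_le_mul_of_nonneg_left h1 ht
    have h3 : t * (1 - t⁻¹) = t - 1 := by field_simp
    rw [Real.negMulLog]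
    linarith only [h, h2, h3]

/-- `H(ξ | η)` can be made `≤ 1` with `η = {B₀, B₁, …, B_k}` (`B₀ = {η = 0}`,
`B_i = {η = i.succ} ⊆ {ξ = i}` compact). -/
theorem exists_compact_approx (μ : Measure X) [IsProbabilityMeasure μ] {k : ℕ} (ξ : X → Fin k)
    (hξ : Measurable ξ) :
    ∃ η : X → Fin (k + 1), Measurable η ∧ (∀ i : Fin k, IsCompact (η ⁻¹' {i.succ})) ∧
      (∀ x (i : Fin k), η x = i.succ → ξ x = i) ∧ condEnt μ ξ η ≤ 1 := by
  classical
  have hε : ENNReal.ofReal (1 / ((k : ℝ) * k + 1)) ≠ 0 := by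
    rw [Ne, ENNReal.ofReal_eq_zero, not_le]
    positivity
  have hex : ∀ i : Fin k, ∃ K ⊆ ξ ⁻¹' {i}, IsCompact K ∧
      μ (ξ ⁻¹' {i} \ K) < ENNReal.ofReal (1 / ((k : ℝ) * k + 1)) := fun i =>
    (hξ (measurableSet_singleton i)).exists_isCompact_sdiff_lt (measure_ne_top _ _) hε
  choose B hBsub hBc hBμ using hex
  have hBi : ∀ x i, x ∈ B i → ξ x = i := fun x i h => hBsub i h
  let η : X → Fin (k + 1) := fun x => if x ∈ B (ξ x) then (ξ x).succ else 0
  have hη_iff : ∀ x (i : Fin k), η x = i.succ ↔ x ∈ B i := by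
    intro x i
    simp only [η]
    constructor
    · intro h
      split_ifs at h with h1
      · rwa [Fin.succ_injective _ h] at h1
      · exact absurd h.symm (Fin.succ_ne_zero i)
    · intro h
      have h1 := hBi x i h
      rw [if_pos (by rw [h1]; exact h), h1]
  have hpre : ∀ i : Fin k, η ⁻¹' {i.succ} = B i := by
    intro i; ext x; simp [hη_iff]
  have hη_meas : Measurable η := by
    refine Measurable.ite ?_ ((measurable_of_finite Fin.succ).comp hξ) measurable_const
    have : {a | a ∈ B (ξ a)} = ⋃ i, B i := by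
      ext x
      simp only [mem_ofPred_eq, mem_iUnion]
      constructor
      · intro h; exact ⟨_, h⟩
      · rintro ⟨i, h⟩; rw [hBi x i h]; exact h
    rw [this]
    exact MeasurableSet.iUnion fun i => (hBc i).measurableSet
  refine ⟨η, hη_meas, fun i => by rw [hpre]; exact hBc i,
    fun x i h => hBi x i ((hη_iff x i).1 h), ?_⟩
  rw [condEnt_eq_sum ξ η hξ hη_meas, Fin.sum_univ_succ]
  have hzero : ∀ j : Fin k, μ.real (η ⁻¹' {j.succ}) *
      ∑ i, Real.negMulLog (μ.real (ξ ⁻¹' {i} ∩ η ⁻¹' {j.succ}) / μ.real (η ⁻¹' {j.succ})) = 0 := by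
    intro j
    rw [mul_eq_zero]
    right
    apply Finset.sum_eq_zero
    intro i _
    rw [hpre]
    by_cases hij : i = j
    · subst hij
      rw [inter_eq_self_of_subset_right (hBsub i)]
      by_cases h0 : μ.real (B i) = 0
      · rw [h0]; simp
      · rw [div_self h0]; simp
    · have : ξ ⁻¹' {i} ∩ B j = ∅ := by
        ext x
        simp only [mem_inter_iff, mem_preimage, mem_singleton_iff, mem_empty_iff_false, iff_false,
          not_and]
        intro h1 h2
        exact hij (h1.symm.trans (hBi x j h2))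
      rw [this]; simp
  rw [Finset.sum_eq_zero (fun j _ => hzero j), add_zero]
  have hsum : ∑ i, Real.negMulLog (μ.real (ξ ⁻¹' {i} ∩ η ⁻¹' {0}) / μ.real (η ⁻¹' {0})) ≤ k := by
    calc _ ≤ ∑ _i : Fin k, (1 : ℝ) :=
          Finset.sum_le_sum fun i _ => A4a_negMulLog_le (by positivity)
      _ = k := by simp
  have hμ0 : μ.real (η ⁻¹' {0}) ≤ k * (1 / ((k : ℝ) * k + 1)) := by
    have hsub : η ⁻¹' {0} ⊆ ⋃ i ∈ (Finset.univ : Finset (Fin k)), (ξ ⁻¹' {i} \ B i) := by
      intro x hx
      simp only [Finset.mem_univ, iUnion_true, mem_iUnion, Set.mem_sdiff, mem_preimage,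
        mem_singleton_iff]
      refine ⟨ξ x, rfl, fun h => ?_⟩
      have := (hη_iff x (ξ x)).2 h
      rw [mem_preimage, mem_singleton_iff, this] at hx
      exact Fin.succ_ne_zero _ hx
    calc μ.real (η ⁻¹' {0}) ≤ μ.real (⋃ i ∈ (Finset.univ : Finset (Fin k)), (ξ ⁻¹' {i} \ B i)) :=
          measureReal_mono hsub (measure_ne_top _ _)
      _ ≤ ∑ i : Fin k, μ.real (ξ ⁻¹' {i} \ B i) := measureReal_biUnion_finset_le _ _
      _ ≤ ∑ _i : Fin k, (1 / ((k : ℝ) * k + 1)) := by
          apply Finset.sum_le_sum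
          intro i _
          exact ENNReal.toReal_le_of_le_ofReal (by positivity) (hBμ i).le
      _ = k * (1 / ((k : ℝ) * k + 1)) := by simp
  calc _ ≤ (k * (1 / ((k : ℝ) * k + 1))) * k :=
        mul_le_mul hμ0 hsum (Finset.sum_nonneg fun i _ => by
          apply Real.negMulLog_nonneg (by positivity)
          apply div_le_one_of_le₀ (measureReal_mono inter_subset_right) (by positivity))
          (by positivity)
    _ = ((k : ℝ) * k) / (k * k + 1) := by ring
    _ ≤ 1 := by
        rw [div_le_one (by positivity)]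
        linarith only

end

end MPd1f192

end PartA4a

section PartA4b

/-! # A4b. Misiurewicz's inequality for the Goodwyn half -/

open MeasureTheory Set Filter Topology

namespace MPd1f192

noncomputable section

variable {X : Type*} [MetricSpace X] [CompactSpace X] [MeasurableSpace X] [BorelSpace X]

omit [CompactSpace X] [MeasurableSpace X] [BorelSpace X] in
/-- Disjoint compact sets are at a positive distance. -/
theorem A4b_delta {k : ℕ} (η : X → Fin (k + 1))
    (hc : ∀ i : Fin k, IsCompact (η ⁻¹' {i.succ})) :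
    ∃ δ : ℝ, 0 < δ ∧ ∀ x y, dist x y < δ → η x ≠ 0 → η y ≠ 0 → η x = η y := by
  classical
  let C : Set (X × X) := ⋃ p ∈ {p : Fin k × Fin k | p.1 ≠ p.2},
    (η ⁻¹' {p.1.succ}) ×ˢ (η ⁻¹' {p.2.succ})
  have hC : IsCompact C := by
    refine Set.Finite.isCompact_biUnion (Set.toFinite _) ?_
    intro p _
    exact (hc p.1).prod (hc p.2)
  have hpos : ∀ q ∈ C, (0 : ℝ) < dist q.1 q.2 := by
    intro q hq
    simp only [C, mem_iUnion, mem_ofPred_eq] at hq
    obtain ⟨p, hp, h1, h2⟩ := hq
    rw [dist_pos]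
    intro h
    simp only [mem_preimage, mem_singleton_iff] at h1 h2
    rw [h] at h1
    rw [h1] at h2
    exact hp (Fin.succ_injective _ h2)
  obtain ⟨δ, hδ, h⟩ := hC.exists_forall_le' (f := fun q : X × X => dist q.1 q.2)
    continuous_dist.continuousOn hpos
  refine ⟨δ, hδ, fun x y hxy hx hy => ?_⟩
  by_contra hne
  obtain ⟨i, hi⟩ := Fin.exists_succ_eq.2 hx
  obtain ⟨j, hj⟩ := Fin.exists_succ_eq.2 hy
  have hmem : (x, y) ∈ C := by
    simp only [C, mem_iUnion, mem_ofPred_eq]
    refine ⟨(i, j), ?_, ?_, ?_⟩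
    · rintro h0
      apply hne
      rw [← hi, ← hj]
      exact congrArg _ h0
    · simp [hi]
    · simp [hj]
  exact absurd hxy (not_lt.2 (h _ hmem))

omit [CompactSpace X] [MeasurableSpace X] [BorelSpace X] in
/-- Counting itineraries through a dynamical cover. -/
theorem A4b_count {f : X → X} {k : ℕ} (η : X → Fin (k + 1)) {δ : ℝ}
    (hδ : ∀ x y, dist x y < δ → η x ≠ 0 → η y ≠ 0 → η x = η y) (n : ℕ) (s : Finset X)
    (hs : Dynamics.IsDynCoverOf f univ {p : X × X | dist p.1 p.2 < δ / 2} n (s : Set X)) :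
    (range (itin f η n)).ncard ≤ s.card * 2 ^ n := by
  classical
  let c : X → Fin (k + 1) := fun w =>
    if h : ∃ y, dist w y < δ / 2 ∧ η y ≠ 0 then η h.choose else 0
  have hc : ∀ w y, dist w y < δ / 2 → η y ≠ 0 → η y = c w := by
    intro w y hwy hy
    have hex : ∃ y, dist w y < δ / 2 ∧ η y ≠ 0 := ⟨y, hwy, hy⟩
    have h1 := hex.choose_spec
    have h2 : c w = η hex.choose := dif_pos hex
    rw [h2]
    apply hδ _ _ _ hy h1.2
    calc dist y hex.choose ≤ dist y w + dist w hex.choose := dist_triangle _ _ _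
      _ < δ / 2 + δ / 2 := add_lt_add (by rw [dist_comm]; exact hwy) h1.1
      _ = δ := by ring
  let Φ : X × (Fin n → Bool) → (Fin n → Fin (k + 1)) := fun q j =>
    if q.2 j then 0 else c (f^[(j : ℕ)] q.1)
  let T : Finset (Fin n → Fin (k + 1)) := (s ×ˢ (Finset.univ : Finset (Fin n → Bool))).image Φ
  have hsub : range (itin f η n) ⊆ (T : Set (Fin n → Fin (k + 1))) := by
    rintro _ ⟨y, rfl⟩
    obtain ⟨z, hz, hyz⟩ := hs (mem_univ y)
    rw [Dynamics.mem_dynEntourage] at hyz
    simp only [T, Finset.coe_image, mem_image, Finset.mem_coe, Finset.mem_product,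
      Finset.mem_univ, and_true]
    refine ⟨(z, fun j => decide (η (f^[(j : ℕ)] y) = 0)), hz, ?_⟩
    funext j
    simp only [Φ, itin, decide_eq_true_eq]
    split_ifs with h
    · exact h.symm
    · refine (hc _ _ ?_ h).symm
      have := hyz j j.2
      simp only [mem_ofPred_eq] at this
      rw [dist_comm]
      exact this
  calc (range (itin f η n)).ncard ≤ (T : Set (Fin n → Fin (k + 1))).ncard :=
        Set.ncard_le_ncard hsub (Finset.finite_toSet _)
    _ = T.card := Set.ncard_coe_finset _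
    _ ≤ (s ×ˢ (Finset.univ : Finset (Fin n → Bool))).card := Finset.card_image_le
    _ = s.card * 2 ^ n := by simp [Finset.card_product]

/-- The partition by compact sets has entropy at most `h_top + log 2`. -/
theorem A4b_entropyOf_le {f : X → X} (hf : Continuous f) (μ : Measure X)
    [IsProbabilityMeasure μ] {k : ℕ} (η : X → Fin (k + 1)) (hη : Measurable η)
    (hc : ∀ i : Fin k, IsCompact (η ⁻¹' {i.succ})) :
    ((entropyOf μ f η - Real.log 2 : ℝ) : EReal) ≤ Dynamics.coverEntropy f univ := by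
  obtain ⟨δ, hδ0, hδ⟩ := A4b_delta η hc
  have hX : Nonempty X := by
    by_contra h
    rw [not_nonempty_iff] at h
    have h1 : μ univ = 1 := measure_univ
    rw [univ_eq_empty_iff.2 h, measure_empty] at h1
    exact zero_ne_one h1
  let U : SetRel X X := {p : X × X | dist p.1 p.2 < δ / 2}
  have hU : U ∈ uniformity X := Metric.dist_mem_uniformity (half_pos hδ0)
  refine le_trans ?_ (Dynamics.coverEntropyEntourage_le_coverEntropy f univ hU)
  have hUc : UniformContinuous f := CompactSpace.uniformContinuous_of_continuous hf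
  refine Filter.le_limsup_of_frequently_le ?_ ?_
  · refine Filter.Eventually.frequently ?_
    filter_upwards [eventually_ge_atTop 1] with n hn
    have hfin := Dynamics.coverMincard_finite_of_isCompact_uniformContinuous (F := univ)
      isCompact_univ hUc hU n
    obtain ⟨s, hs, hcard⟩ := (Dynamics.coverMincard_finite_iff f univ U n).1 hfin
    have h0 : 0 < s.card := by
      have : (s : Set X).Nonempty := hs.nonempty univ_nonempty
      exact Finset.card_pos.2 this
    have h1 := A4b_count η hδ n s hs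
    have h2 := partEntropy_le_log_ncard (μ := μ) (itin f η n) (measurable_itin hf.measurable hη n) h1
    have h3 := entropyOf_le (μ := μ) (f := f) η n hn
    have hn' : (0 : ℝ) < n := by exact_mod_cast hn
    have h4 : entropyOf μ f η - Real.log 2 ≤ Real.log s.card / n := by
      have h5 : Real.log ((s.card * 2 ^ n : ℕ) : ℝ) = Real.log s.card + n * Real.log 2 := by
        push_cast
        rw [Real.log_mul (by exact_mod_cast h0.ne') (by positivity), Real.log_pow]
      rw [h5] at h2
      have h6 : partEntropy μ (itin f η n) / n ≤ (Real.log s.card + n * Real.log 2) / n :=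
        div_le_div_of_nonneg_right h2 hn'.le
      have h7 : (Real.log s.card + n * Real.log 2) / n = Real.log s.card / n + Real.log 2 := by
        field_simp
      linarith only [h3, h6, h7]
    rw [← hcard]
    have h8 : ENNReal.log ((s.card : ℕ∞) : ENNReal) = ((Real.log s.card : ℝ) : EReal) := by
      rw [ENat.toENNReal_coe, ENNReal.log_pos_real (by exact_mod_cast h0.ne')
        (ENNReal.natCast_ne_top _), ENNReal.toReal_natCast]
    rw [h8]
    calc ((entropyOf μ f η - Real.log 2 : ℝ) : EReal) ≤ ((Real.log s.card / n : ℝ) : EReal) := by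
          exact_mod_cast h4
      _ = ((Real.log s.card : ℝ) : EReal) / (n : EReal) := by
          rw [EReal.coe_div]; rfl
  · isBoundedDefault

/-- `h_μ(f) ≤ h_top(f) + log 2 + 1`. -/
theorem metricEntropy_le_add {f : X → X} (hf : Continuous f) (μ : Measure X)
    [IsProbabilityMeasure μ] (hμ : MeasurePreserving f μ μ) :
    metricEntropy μ f ≤ Dynamics.coverEntropy f univ + ((Real.log 2 + 1 : ℝ) : EReal) := by
  refine metricEntropy_le _ fun k ξ hξ => ?_
  obtain ⟨η, hη, hc, -, hce⟩ := exists_compact_approx μ ξ hξ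
  have h1 := entropyOf_le_add_condEnt hμ hξ hη
  have h2 := A4b_entropyOf_le hf μ η hη hc
  have h3 : entropyOf μ f ξ ≤ (entropyOf μ f η - Real.log 2) + (Real.log 2 + 1) := by linarith only [hce, h1]
  calc (entropyOf μ f ξ : EReal)
      ≤ (((entropyOf μ f η - Real.log 2) + (Real.log 2 + 1) : ℝ) : EReal) := by exact_mod_cast h3
    _ = ((entropyOf μ f η - Real.log 2 : ℝ) : EReal) + ((Real.log 2 + 1 : ℝ) : EReal) := by
        rw [EReal.coe_add]
    _ ≤ Dynamics.coverEntropy f univ + ((Real.log 2 + 1 : ℝ) : EReal) := by gcongr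

end

end MPd1f192

end PartA4b

section PartA4c

/-! # A4c. Goodwyn's half of the variational principle -/

open MeasureTheory Set Filter Topology

namespace MPd1f192

noncomputable section

variable {X : Type*} [MetricSpace X] [CompactSpace X] [MeasurableSpace X] [BorelSpace X]

omit [MetricSpace X] [CompactSpace X] [MeasurableSpace X] [BorelSpace X] in
theorem A4c_coverMincard_iterate_le (f : X → X) (U : SetRel X X) (n m : ℕ) (hn : 0 < n) :
    Dynamics.coverMincard (f^[n]) univ U m ≤ Dynamics.coverMincard f univ U (n * m) := by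
  refine iInf₂_mono' fun s hs => ⟨s, ?_, le_rfl⟩
  have hsub : Dynamics.dynEntourage f U (n * m) ⊆ Dynamics.dynEntourage (f^[n]) U m := by
    rintro ⟨x, y⟩ hxy
    rw [Dynamics.mem_dynEntourage] at hxy ⊢
    intro k hk
    have h := hxy (n * k) (Nat.mul_lt_mul_of_pos_left hk hn)
    rwa [Function.iterate_mul] at h
  exact SetRel.IsCover.mono_entourage hsub hs

omit [MeasurableSpace X] [BorelSpace X] in
/-- `h_top(fⁿ) ≤ n · h_top(f)`. -/
theorem coverEntropy_iterate_le {f : X → X} (hf : Continuous f) (n : ℕ) (hn : 0 < n) :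
    Dynamics.coverEntropy (f^[n]) univ ≤ ((n : ℝ) : EReal) * Dynamics.coverEntropy f univ := by
  refine iSup₂_le fun U hU => ?_
  have h1 : Dynamics.coverEntropyEntourage (f^[n]) univ U ≤
      ExpGrowth.expGrowthSup (fun m : ℕ => ((Dynamics.coverMincard f univ U (n * m) : ℕ∞) : ENNReal)) :=
    ExpGrowth.expGrowthSup_monotone fun m =>
      ENat.toENNReal_mono (A4c_coverMincard_iterate_le f U n m hn)
  have hmono : Monotone fun m : ℕ => ((Dynamics.coverMincard f univ U m : ℕ∞) : ENNReal) :=
    fun a b hab => ENat.toENNReal_mono (Dynamics.coverMincard_monotone_time f univ U hab)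
  have h2 := hmono.expGrowthSup_comp_mul (m := n) hn.ne'
  have h3 : Dynamics.coverEntropyEntourage (f^[n]) univ U ≤
      (n : EReal) * Dynamics.coverEntropyEntourage f univ U := h1.trans h2.le
  have h4 : Dynamics.coverEntropyEntourage f univ U ≤ Dynamics.coverEntropy f univ :=
    Dynamics.coverEntropyEntourage_le_coverEntropy f univ hU
  have h5 : ((n : ℝ) : EReal) = (n : EReal) := rfl
  rw [h5]
  exact h3.trans (mul_le_mul_of_nonneg_left h4 (by positivity))

/-- **Goodwyn**: `h_μ(f) ≤ h_top(f)`. -/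
theorem metricEntropy_le_coverEntropy {f : X → X} (hf : Continuous f) (μ : Measure X)
    [IsProbabilityMeasure μ] (hμ : MeasurePreserving f μ μ) :
    metricEntropy μ f ≤ Dynamics.coverEntropy f univ := by
  haveI : Nonempty X := by
    by_contra h
    rw [not_nonempty_iff] at h
    have h1 : μ univ = 1 := measure_univ
    rw [univ_eq_empty_iff.mpr h, measure_empty] at h1
    exact zero_ne_one h1
  have key : ∀ n : ℕ, 0 < n → ((n : ℝ) : EReal) * metricEntropy μ f ≤
      ((n : ℝ) : EReal) * Dynamics.coverEntropy f univ + ((Real.log 2 + 1 : ℝ) : EReal) := by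
    intro n hn
    calc ((n : ℝ) : EReal) * metricEntropy μ f ≤ metricEntropy μ (f^[n]) :=
          mul_metricEntropy_le hμ n hn
      _ ≤ Dynamics.coverEntropy (f^[n]) univ + ((Real.log 2 + 1 : ℝ) : EReal) :=
          metricEntropy_le_add (hf.iterate n) μ (hμ.iterate n)
      _ ≤ _ := by
          gcongr
          exact coverEntropy_iterate_le hf n hn
  have hm0 : 0 ≤ metricEntropy μ f := metricEntropy_nonneg f
  have hc0 : 0 ≤ Dynamics.coverEntropy f univ := Dynamics.coverEntropy_nonneg f univ_nonempty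
  generalize metricEntropy μ f = a at key hm0 ⊢
  generalize Dynamics.coverEntropy f univ = b at key hc0 ⊢
  induction b using EReal.rec with
  | bot => simp at hc0
  | top => exact le_top
  | coe b =>
    induction a using EReal.rec with
    | bot => simp at hm0
    | top =>
      exfalso
      have h := key 1 one_pos
      simp only [Nat.cast_one, EReal.coe_one, one_mul, top_le_iff] at h
      rw [← EReal.coe_add] at h
      exact EReal.coe_ne_top _ h
    | coe a =>
      rw [EReal.coe_le_coe_iff]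
      by_contra hlt
      push Not at hlt
      obtain ⟨n, hn⟩ := exists_nat_gt ((Real.log 2 + 1) / (a - b))
      have hpos : 0 < a - b := sub_pos.mpr hlt
      have hlog : 0 < (Real.log 2 + 1) / (a - b) := by
        have := Real.log_nonneg (by norm_num : (1:ℝ) ≤ 2)
        positivity
      have hn0 : 0 < n := by
        have : (0:ℝ) < n := hlog.trans hn
        exact_mod_cast this
      have h := key n hn0
      rw [← EReal.coe_mul, ← EReal.coe_mul, ← EReal.coe_add, EReal.coe_le_coe_iff] at h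
      rw [div_lt_iff₀ hpos] at hn
      nlinarith only [hn, h]

end

end MPd1f192

end PartA4c

section PartA5a

/-! # A5a. Small partitions with null boundaries -/

open MeasureTheory Set Filter Topology

namespace MPd1f192

noncomputable section

variable {X : Type*} [MetricSpace X] [CompactSpace X] [MeasurableSpace X] [BorelSpace X]

theorem A5a_null_inter {μ : Measure X} {s t : Set X} (hs : μ (frontier s) = 0)
    (ht : μ (frontier t) = 0) : μ (frontier (s ∩ t)) = 0 := by
  refine measure_mono_null (frontier_inter_subset s t) ?_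
  refine measure_union_null (measure_mono_null inter_subset_left hs)
    (measure_mono_null inter_subset_right ht)

theorem A5a_null_compl {μ : Measure X} {s : Set X} (hs : μ (frontier s) = 0) :
    μ (frontier sᶜ) = 0 := by
  rwa [frontier_compl]

theorem A5a_null_biInter {μ : Measure X} {ι : Type*} (t : Finset ι) (s : ι → Set X)
    (hs : ∀ i ∈ t, μ (frontier (s i)) = 0) : μ (frontier (⋂ i ∈ t, s i)) = 0 := by
  classical
  induction t using Finset.induction_on with
  | empty => simp
  | insert a t ha ih =>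
    rw [Finset.set_biInter_insert]
    exact A5a_null_inter (hs a (Finset.mem_insert_self _ _))
      (ih fun i hi => hs i (Finset.mem_insert_of_mem hi))

/-- Small partitions with boundaries of measure zero. -/
theorem exists_partition_null_frontier (μ : Measure X) [IsProbabilityMeasure μ] {δ : ℝ}
    (hδ : 0 < δ) :
    ∃ (k : ℕ) (ξ : X → Fin k), Measurable ξ ∧ (∀ x y, ξ x = ξ y → dist x y < δ) ∧
      ∀ i, μ (frontier (ξ ⁻¹' {i})) = 0 := by
  classical
  have h1 : ∀ x : X, ∃ r ∈ Ioo (δ / 4) (δ / 2), μ (frontier (Metric.ball x r)) = 0 := by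
    intro x
    obtain ⟨r, hr, h⟩ := exists_null_frontier_thickening μ {x} (a := δ / 4) (b := δ / 2)
      (by linarith only [hδ])
    exact ⟨r, hr, by rwa [Metric.thickening_singleton] at h⟩
  choose r hr hnull using h1
  obtain ⟨t, -, ht⟩ := isCompact_univ.elim_nhds_subcover (fun x => Metric.ball x (r x))
    (fun x _ => Metric.ball_mem_nhds x (by have := (hr x).1; linarith only [hδ, this]))
  set e := t.equivFin with he
  have hcov : ∀ x : X, ∃ n : ℕ, ∃ h : n < t.card,
      x ∈ Metric.ball ((e.symm ⟨n, h⟩ : t) : X) (r ((e.symm ⟨n, h⟩ : t) : X)) := by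
    intro x
    obtain ⟨y, hy, hxy⟩ := mem_iUnion₂.1 (ht (mem_univ x))
    refine ⟨(e ⟨y, hy⟩ : Fin t.card), (e ⟨y, hy⟩).2, ?_⟩
    simpa using hxy
  have hlt : ∀ x, Nat.find (hcov x) < t.card := fun x => (Nat.find_spec (hcov x)).1
  set ξ : X → Fin t.card := fun x => ⟨Nat.find (hcov x), hlt x⟩ with hξ
  have hpre : ∀ i : Fin t.card, ξ ⁻¹' {i} =
      Metric.ball ((e.symm i : t) : X) (r ((e.symm i : t) : X)) ∩
        ⋂ j ∈ Finset.univ.filter (fun j : Fin t.card => j < i),
          (Metric.ball ((e.symm j : t) : X) (r ((e.symm j : t) : X)))ᶜ := by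
    intro i
    ext x
    simp only [mem_preimage, mem_singleton_iff, mem_inter_iff, mem_iInter, Finset.mem_filter,
      Finset.mem_univ, true_and, mem_compl_iff]
    constructor
    · intro h
      have hi : Nat.find (hcov x) = (i : ℕ) := by rw [← h]
      constructor
      · have := (Nat.find_spec (hcov x)).2
        simp only [hi] at this
        exact this
      · intro j hj hx
        have := Nat.find_min (hcov x) (m := (j : ℕ)) (by rw [hi]; exact hj)
        exact this ⟨j.2, hx⟩
    · rintro ⟨hx, hmin⟩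
      apply Fin.ext
      show Nat.find (hcov x) = (i : ℕ)
      rw [Nat.find_eq_iff]
      refine ⟨⟨i.2, hx⟩, ?_⟩
      rintro n hn ⟨h, hx'⟩
      exact hmin ⟨n, h⟩ hn hx'
  refine ⟨t.card, ξ, ?_, ?_, ?_⟩
  · refine measurable_to_countable' fun i => ?_
    rw [hpre i]
    refine MeasurableSet.inter Metric.isOpen_ball.measurableSet ?_
    refine Finset.measurableSet_biInter _ fun j _ => ?_
    exact Metric.isOpen_ball.measurableSet.compl
  · intro x y hxy
    have hx : x ∈ ξ ⁻¹' {ξ x} := rfl
    have hy : y ∈ ξ ⁻¹' {ξ x} := hxy.symm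
    rw [hpre] at hx hy
    have h1 := hx.1
    have h2 := hy.1
    have h3 := (hr ((e.symm (ξ x) : t) : X)).2
    rw [Metric.mem_ball] at h1 h2
    have := dist_triangle_right x y ((e.symm (ξ x) : t) : X)
    linarith only [h1, h2, h3, this]
  · intro i
    rw [hpre i]
    refine A5a_null_inter (hnull _) (A5a_null_biInter _ _ fun j _ => A5a_null_compl (hnull _))

/-- The itinerary partition has null boundaries as well. -/
theorem null_frontier_itin {μ : Measure X} [IsProbabilityMeasure μ] {f : X → X}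
    (hf : Continuous f) (hμ : MeasurePreserving f μ μ) {k : ℕ} {ξ : X → Fin k}
    (hξ : ∀ i, μ (frontier (ξ ⁻¹' {i})) = 0) (q : ℕ) (w : Fin q → Fin k) :
    μ (frontier (itin f ξ q ⁻¹' {w})) = 0 := by
  have h : itin f ξ q ⁻¹' {w} =
      ⋂ j ∈ (Finset.univ : Finset (Fin q)), (f^[(j : ℕ)]) ⁻¹' (ξ ⁻¹' {w j}) := by
    ext x
    simp [itin, funext_iff]
  rw [h]
  refine A5a_null_biInter _ _ fun j _ => ?_
  refine measure_mono_null ((hf.iterate (j : ℕ)).frontier_preimage_subset _) ?_
  rw [(hμ.iterate (j : ℕ)).measure_preimage isClosed_frontier.measurableSet.nullMeasurableSet]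
  exact hξ _

end

end MPd1f192

end PartA5a

section PartA5b

/-! # A5b. Misiurewicz's combinatorial inequality -/

open MeasureTheory Set Filter Topology

namespace MPd1f192

noncomputable section

variable {X : Type*} [TopologicalSpace X] [MeasurableSpace X] [BorelSpace X]
  [MeasurableSingletonClass X]

/-- The average `(1/n) ∑_{j<n} (f^j)_* σ_E`, `σ_E` the uniform measure on the finite set `E`. -/
def avgMeasure (f : X → X) (E : Finset X) (n : ℕ) : Measure X :=
  ∑ j ∈ Finset.range n, ENNReal.ofReal (1 / n) •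
    (∑ x ∈ E, ENNReal.ofReal (1 / E.card) • Measure.dirac (f^[j] x))

/-- the uniform measure on `E` pushed forward by `f^p` -/
def A5b_sig (f : X → X) (E : Finset X) (p : ℕ) : Measure X :=
  ∑ x ∈ E, ENNReal.ofReal (1 / E.card) • Measure.dirac (f^[p] x)

omit [TopologicalSpace X] [BorelSpace X] [MeasurableSingletonClass X] in
theorem A5b_sig_prob (f : X → X) (E : Finset X) (hE : E.Nonempty) (p : ℕ) :
    IsProbabilityMeasure (A5b_sig f E p) := by
  constructor
  have hc : (0 : ℝ) < E.card := by exact_mod_cast hE.card_pos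
  unfold A5b_sig
  rw [Measure.finsetSum_apply]
  simp only [Measure.smul_apply, measure_univ, smul_eq_mul, mul_one]
  rw [← ENNReal.ofReal_sum_of_nonneg (fun _ _ => by positivity)]
  simp [hc.ne']

theorem isProbabilityMeasure_avgMeasure (f : X → X) (E : Finset X) (hE : E.Nonempty) (n : ℕ)
    (hn : 0 < n) : IsProbabilityMeasure (avgMeasure f E n) := by
  constructor
  have hc : (0 : ℝ) < n := by exact_mod_cast hn
  unfold avgMeasure
  rw [Measure.finsetSum_apply]
  have h1 : ∀ j ∈ Finset.range n, (ENNReal.ofReal (1 / n) •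
    (∑ x ∈ E, ENNReal.ofReal (1 / E.card) • Measure.dirac (f^[j] x))) (univ : Set X) =
      ENNReal.ofReal (1 / n) := by
    intro j _
    have := (A5b_sig_prob f E hE j).measure_univ
    unfold A5b_sig at this
    rw [Measure.smul_apply, this, smul_eq_mul, mul_one]
  rw [Finset.sum_congr rfl h1, ← ENNReal.ofReal_sum_of_nonneg (fun _ _ => by positivity)]
  simp [hc.ne']

omit [TopologicalSpace X] [BorelSpace X] [MeasurableSingletonClass X] in
theorem A5b_sig_mp {f : X → X} (hf : Measurable f) (E : Finset X) (p : ℕ) :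
    MeasurePreserving (f^[p]) (A5b_sig f E 0) (A5b_sig f E p) := by
  refine ⟨hf.iterate p, ?_⟩
  ext A hA
  rw [Measure.map_apply (hf.iterate p) hA]
  unfold A5b_sig
  rw [Measure.finsetSum_apply, Measure.finsetSum_apply]
  refine Finset.sum_congr rfl fun x _ => ?_
  rw [Measure.smul_apply, Measure.smul_apply, Measure.dirac_apply' _ hA,
    Measure.dirac_apply' _ ((hf.iterate p) hA)]
  rfl

omit [TopologicalSpace X] [BorelSpace X] [MeasurableSingletonClass X] in
/-- subadditivity for finitely many partitions -/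
theorem A5b_tuple_le {μ : Measure X} [IsProbabilityMeasure μ] {κ : Type*} [Fintype κ]
    [MeasurableSpace κ] [MeasurableSingletonClass κ] (g : ℕ → X → κ) (hg : ∀ r, Measurable (g r))
    (a : ℕ) : partEntropy μ (fun x => (fun r : Fin a => g r x)) ≤
      ∑ r ∈ Finset.range a, partEntropy μ (g r) := by
  induction a with
  | zero =>
    have h1 : (range (fun x : X => (fun r : Fin 0 => g r x))).ncard ≤ 1 :=
      (Set.ncard_le_one_iff_subsingleton).2 (Set.subsingleton_of_subsingleton)
    have := partEntropy_le_log_ncard (μ := μ) (fun x : X => (fun r : Fin 0 => g r x))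
      (measurable_pi_lambda _ (fun r => hg r)) h1
    simpa using this
  | succ a ih =>
    have h1 : (fun x : X => (fun r : Fin (a + 1) => g r x)) =
        fun x => (fun p : (Fin a → κ) × κ => (Fin.snoc p.1 p.2 : Fin (a + 1) → κ))
          ((fun r : Fin a => g r x), g a x) := by
      funext x r
      refine Fin.lastCases ?_ (fun i => ?_) r
      · simp
      · simp
    have hm : Measurable (fun x : X => (fun r : Fin a => g r x)) :=
      measurable_pi_lambda _ (fun r => hg r)
    have h2 := partEntropy_comp_le (μ := μ) (fun x => ((fun r : Fin a => g r x), g a x))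
      (hm.prodMk (hg a)) (fun p : (Fin a → κ) × κ => (Fin.snoc p.1 p.2 : Fin (a + 1) → κ))
    have h3 := partEntropy_prod_le (μ := μ) (fun x => (fun r : Fin a => g r x)) (g a) hm (hg a)
    rw [h1, Finset.sum_range_succ]
    exact (h2.trans h3).trans (add_le_add ih le_rfl)

omit [TopologicalSpace X] [BorelSpace X] [MeasurableSingletonClass X] in
/-- entropy of a partition injective on `E` -/
theorem A5b_entropy_inj (f : X → X) (E : Finset X) (hE : E.Nonempty) {κ : Type*} [Fintype κ]
    [MeasurableSpace κ] [MeasurableSingletonClass κ] (η : X → κ) (hη : Measurable η)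
    (hinj : ∀ x ∈ E, ∀ y ∈ E, η x = η y → x = y) :
    partEntropy (A5b_sig f E 0) η = Real.log E.card := by
  classical
  have hc : (0 : ℝ) < E.card := by exact_mod_cast hE.card_pos
  have h1 : ∀ i : κ, (A5b_sig f E 0).real (η ⁻¹' {i}) =
      ∑ x ∈ E, if η x = i then 1 / (E.card : ℝ) else 0 := by
    intro i
    unfold A5b_sig Measure.real
    rw [Measure.finsetSum_apply, ENNReal.toReal_sum]
    · refine Finset.sum_congr rfl fun x _ => ?_
      rw [Measure.smul_apply, Measure.dirac_apply' _ (hη (measurableSet_singleton i))]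
      by_cases hx : η x = i
      · simp [hx]
      · simp [hx]
    · intro x _
      rw [Measure.smul_apply, Measure.dirac_apply' _ (hη (measurableSet_singleton i))]
      refine ENNReal.mul_ne_top ENNReal.ofReal_ne_top ?_
      by_cases hx : η x = i <;> simp [hx]
  have h2 : ∀ i : κ, Real.negMulLog ((A5b_sig f E 0).real (η ⁻¹' {i})) =
      ∑ x ∈ E, if η x = i then 1 / (E.card : ℝ) * Real.log E.card else 0 := by
    intro i
    rw [h1 i]
    by_cases hi : ∃ x ∈ E, η x = i
    · obtain ⟨x, hx, hxi⟩ := hi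
      have h3 : ∀ c : ℝ, (∑ y ∈ E, if η y = i then c else 0) = c := by
        intro c
        rw [Finset.sum_eq_single_of_mem x hx]
        · simp [hxi]
        · intro y hy hne
          rw [if_neg]
          intro h4
          exact hne (hinj y hy x hx (h4.trans hxi.symm))
      rw [h3, h3]
      unfold Real.negMulLog
      rw [one_div, Real.log_inv]
      ring
    · push Not at hi
      rw [Finset.sum_eq_zero (fun x hx => if_neg (hi x hx)),
        Finset.sum_eq_zero (fun x hx => if_neg (hi x hx))]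
      simp
  unfold partEntropy
  rw [Finset.sum_congr rfl (fun i _ => h2 i), Finset.sum_comm]
  simp only [Finset.sum_ite_eq, Finset.mem_univ, if_true, Finset.sum_const, nsmul_eq_mul]
  field_simp

omit [TopologicalSpace X] [BorelSpace X] [MeasurableSingletonClass X] in
/-- the inequality for one residue class `j` -/
theorem A5b_step {f : X → X} (hf : Measurable f) {μ : Measure X} [IsProbabilityMeasure μ]
    {k : ℕ} (ξ : X → Fin k) (hξ : Measurable ξ) (n q : ℕ) (hq : 0 < q) (hqn : q < n) (j : ℕ)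
    (hj : j < q) :
    partEntropy μ (itin f ξ n) ≤ 2 * q * Real.log k +
      ∑ r ∈ Finset.range ((n - j) / q), partEntropy μ (fun x => itin f ξ q (f^[j + r * q] x)) := by
  classical
  have hmi : Measurable (itin f ξ q) := measurable_itin hf hξ q
  set a := (n - j) / q with ha
  -- the tuple
  set g : ℕ → X → (Fin q → Fin k) := fun r x => itin f ξ q (f^[j + r * q] x) with hg
  have hgm : ∀ r, Measurable (g r) := fun r => hmi.comp (hf.iterate _)
  set η1 : X → (Fin q → Fin k) := itin f ξ q with hη1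
  set η2 : X → (Fin q → Fin k) := fun x => itin f ξ q (f^[n - q] x) with hη2
  have hη2m : Measurable η2 := hmi.comp (hf.iterate _)
  have hTm : Measurable (fun x => (fun r : Fin a => g r x)) :=
    measurable_pi_lambda _ (fun r => hgm r)
  -- reconstruct the itinerary
  let e : (Fin q → Fin k) × (Fin q → Fin k) × (Fin a → (Fin q → Fin k)) → (Fin n → Fin k) :=
    fun p t => if h1 : (t : ℕ) < j then p.1 ⟨t, h1.trans hj⟩ else
      if h2 : (((t : ℕ) - j) / q) < a then
        p.2.2 ⟨((t : ℕ) - j) / q, h2⟩ ⟨((t : ℕ) - j) % q, Nat.mod_lt _ hq⟩ else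
      p.2.1 ⟨((t : ℕ) - (n - q)) % q, Nat.mod_lt _ hq⟩
  have he : itin f ξ n = fun x => e (η1 x, η2 x, fun r : Fin a => g r x) := by
    funext x t
    by_cases h1 : (t : ℕ) < j
    · simp only [e, h1, dif_pos, hη1, itin]
    · by_cases h2 : (((t : ℕ) - j) / q) < a
      · simp only [e, h1, dif_neg, h2, dif_pos, not_false_eq_true, hg, hη1, itin]
        rw [← Function.iterate_add_apply]
        congr 2
        have h3 := Nat.div_add_mod ((t : ℕ) - j) q
        have h4 : q * (((t : ℕ) - j) / q) = (((t : ℕ) - j) / q) * q := Nat.mul_comm _ _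
        omega
      · simp only [e, h1, dif_neg, h2, not_false_eq_true, hη2, hη1, itin]
        rw [← Function.iterate_add_apply]
        congr 2
        have h3 : a ≤ ((t : ℕ) - j) / q := not_lt.1 h2
        have h4 : a * q ≤ (t : ℕ) - j := (Nat.le_div_iff_mul_le hq).1 h3
        have h5 : n - j < (a + 1) * q := by
          have := Nat.lt_mul_of_div_lt (Nat.lt_succ_self ((n - j) / q)) hq
          rw [ha]; exact this
        have h6 : (a + 1) * q = a * q + q := by ring
        have h7 : (t : ℕ) < n := t.2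
        have h8 : ((t : ℕ) - (n - q)) % q = (t : ℕ) - (n - q) := Nat.mod_eq_of_lt (by omega)
        rw [h8]
        omega
  have h1 := partEntropy_comp_le (μ := μ) (fun x => (η1 x, η2 x, fun r : Fin a => g r x))
    (hmi.prodMk (hη2m.prodMk hTm)) e
  have h2 := partEntropy_prod_le (μ := μ) η1 (fun x => (η2 x, fun r : Fin a => g r x)) hmi
    (hη2m.prodMk hTm)
  have h3 := partEntropy_prod_le (μ := μ) η2 (fun x => (fun r : Fin a => g r x)) hη2m hTm
  have h4 := A5b_tuple_le (μ := μ) g hgm a
  have hcard : Real.log (Fintype.card (Fin q → Fin k)) = q * Real.log k := by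
    rw [Fintype.card_fun, Fintype.card_fin, Fintype.card_fin]
    push_cast
    rw [Real.log_pow]
  have h5 := partEntropy_le_log_card (μ := μ) η1 hmi
  have h6 := partEntropy_le_log_card (μ := μ) η2 hη2m
  rw [hcard] at h5 h6
  rw [he]
  linarith only [h1, h2, h3, h4, h5, h6]

/-- If the `n`-itineraries are pairwise different on the finite set `E`, then
`q · log #E ≤ n · H_m(ξ^q) + 2 q² log k` with `m = avgMeasure f E n`. -/
theorem misiurewicz_inequality {f : X → X} (hf : Measurable f) (E : Finset X) (hE : E.Nonempty)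
    {k : ℕ} (ξ : X → Fin k) (hξ : Measurable ξ) (n q : ℕ) (hq : 0 < q) (hqn : q < n)
    (hinj : ∀ x ∈ E, ∀ y ∈ E, itin f ξ n x = itin f ξ n y → x = y) :
    (q : ℝ) * Real.log E.card ≤
      n * partEntropy (avgMeasure f E n) (itin f ξ q) + 2 * q ^ 2 * Real.log k := by
  classical
  have hn : (0 : ℝ) < n := by exact_mod_cast (hq.trans hqn)
  have := A5b_sig_prob f E hE 0
  have hlog := A5b_entropy_inj f E hE (itin f ξ n) (measurable_itin hf hξ n) hinj
  set F : ℕ → ℝ := fun p => partEntropy (A5b_sig f E 0) (fun x => itin f ξ q (f^[p] x)) with hF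
  have hF0 : ∀ p, 0 ≤ F p := fun p => partEntropy_nonneg _
  -- sum over the residue classes
  have h1 : (q : ℝ) * Real.log E.card ≤ 2 * q ^ 2 * Real.log k +
      ∑ j ∈ Finset.range q, ∑ r ∈ Finset.range ((n - j) / q), F (j + r * q) := by
    have h2 : ∑ j ∈ Finset.range q, Real.log E.card ≤
        ∑ j ∈ Finset.range q, (2 * q * Real.log k +
          ∑ r ∈ Finset.range ((n - j) / q), F (j + r * q)) := by
      refine Finset.sum_le_sum fun j hj => ?_
      rw [← hlog]
      exact A5b_step hf ξ hξ n q hq hqn j (Finset.mem_range.1 hj)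
    rw [Finset.sum_add_distrib] at h2
    simp only [Finset.sum_const, Finset.card_range, nsmul_eq_mul] at h2
    linarith only [h2]
  have h3 : ∑ j ∈ Finset.range q, ∑ r ∈ Finset.range ((n - j) / q), F (j + r * q) ≤
      ∑ p ∈ Finset.range n, F p := by
    rw [Finset.sum_sigma']
    have h4 : Set.InjOn (fun x : (Σ _ : ℕ, ℕ) => x.1 + x.2 * q)
        ((Finset.range q).sigma (fun j => Finset.range ((n - j) / q)) : Set (Σ _ : ℕ, ℕ)) := by
      rintro ⟨j, r⟩ h1 ⟨j', r'⟩ h2 h3
      simp only [Finset.coe_sigma, Set.mem_sigma_iff, Finset.coe_range, Set.mem_Iio] at h1 h2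
      simp only at h3
      have e1 : (j + r * q) % q = j := by
        rw [Nat.add_mul_mod_self_right, Nat.mod_eq_of_lt h1.1]
      have e2 : (j' + r' * q) % q = j' := by
        rw [Nat.add_mul_mod_self_right, Nat.mod_eq_of_lt h2.1]
      have e3 : (j + r * q) / q = r := by
        rw [Nat.add_mul_div_right _ _ hq, Nat.div_eq_of_lt h1.1, zero_add]
      have e4 : (j' + r' * q) / q = r' := by
        rw [Nat.add_mul_div_right _ _ hq, Nat.div_eq_of_lt h2.1, zero_add]
      have e5 : j = j' := by rw [← e1, ← e2, h3]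
      have e6 : r = r' := by rw [← e3, ← e4, h3]
      rw [e5, e6]
    rw [← Finset.sum_image (f := F) (g := fun x : (Σ _ : ℕ, ℕ) => x.1 + x.2 * q) h4]
    refine Finset.sum_le_sum_of_subset_of_nonneg ?_ (fun p _ _ => hF0 p)
    intro p hp
    rw [Finset.mem_image] at hp
    obtain ⟨⟨j, r⟩, hx, rfl⟩ := hp
    rw [Finset.mem_sigma, Finset.mem_range, Finset.mem_range] at hx
    rw [Finset.mem_range]
    have h5 : (r + 1) * q ≤ n - j := (Nat.le_div_iff_mul_le hq).1 hx.2
    have h6 : (r + 1) * q = r * q + q := by ring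
    have h7 : j < q := hx.1
    simp only
    omega
  -- concavity
  have h5 : ∑ p ∈ Finset.range n, F p ≤ n * partEntropy (avgMeasure f E n) (itin f ξ q) := by
    have h6 := partEntropy_sum_ge (Finset.range n) (fun _ => (1 / n : ℝ))
      (fun _ _ => by positivity) (by simp [hn.ne']) (fun p => A5b_sig f E p)
      (fun p _ => A5b_sig_prob f E hE p) (itin f ξ q) (measurable_itin hf hξ q)
    have h7 : ∀ p, partEntropy (A5b_sig f E p) (itin f ξ q) = F p := by
      intro p
      exact (partEntropy_comp_measurePreserving (A5b_sig_mp hf E p) (itin f ξ q)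
        (measurable_itin hf hξ q)).symm
    simp only [h7] at h6
    rw [← Finset.mul_sum] at h6
    have h8 : (∑ j ∈ Finset.range n, ENNReal.ofReal (1 / n) • A5b_sig f E j) =
        avgMeasure f E n := rfl
    rw [h8] at h6
    have h9 := mul_le_mul_of_nonneg_left h6 hn.le
    rw [← mul_assoc, mul_one_div_cancel hn.ne', one_mul] at h9
    exact h9
  linarith only [h1, h3, h5]

end

end MPd1f192

end PartA5b

section PartA5c

/-! # A5c. Misiurewicz's half of the variational principle -/

open MeasureTheory Set Filter Topology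

namespace MPd1f192

noncomputable section

variable {X : Type*} [MetricSpace X] [CompactSpace X] [MeasurableSpace X] [BorelSpace X]

omit [MeasurableSpace X] [BorelSpace X] in
/-- Large separated sets. -/
theorem A5c_nets [Nonempty X] {f : X → X} (hf : Continuous f) {c : ℝ}
    (hc : (c : EReal) < Dynamics.coverEntropy f univ) :
    ∃ δ : ℝ, 0 < δ ∧ ∃ᶠ n : ℕ in atTop, 0 < n ∧ ∃ E : Finset X, E.Nonempty ∧
      c * n ≤ Real.log E.card ∧
      ∀ x ∈ E, ∀ y ∈ E, (∀ j < n, dist (f^[j] x) (f^[j] y) < δ) → x = y := by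
  rw [Dynamics.coverEntropy_eq_iSup_basis_netEntropyEntourage Metric.uniformity_basis_dist] at hc
  simp only [lt_iSup_iff] at hc
  obtain ⟨δ, hδ, hc⟩ := hc
  refine ⟨δ, hδ, ?_⟩
  have h1 : ∃ᶠ n : ℕ in atTop, (c : EReal) <
      ENNReal.log ((Dynamics.netMaxcard f univ {p : X × X | dist p.1 p.2 < δ} n : ℕ∞) : ENNReal)
        / n := by
    apply frequently_lt_of_lt_limsup
    · isBoundedDefault
    · exact hc
  have h2 : ∀ᶠ n : ℕ in atTop, 0 < n := eventually_gt_atTop 0
  refine (h1.and_eventually h2).mono ?_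
  rintro n ⟨hn, hn0⟩
  refine ⟨hn0, ?_⟩
  have hV : {p : X × X | dist p.1 p.2 < δ} ∈ uniformity X := Metric.dist_mem_uniformity hδ
  have hfin : Dynamics.netMaxcard f univ {p : X × X | dist p.1 p.2 < δ} n < ⊤ := by
    refine lt_of_le_of_lt (Dynamics.netMaxcard_le_coverMincard f univ n) ?_
    exact Dynamics.coverMincard_finite_of_isCompact_uniformContinuous isCompact_univ
      (CompactSpace.uniformContinuous_of_continuous hf) hV n
  obtain ⟨E, hE, hcard⟩ := (Dynamics.netMaxcard_finite_iff f univ _ n).1 hfin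
  have hE1 : (1 : ℕ∞) ≤ Dynamics.netMaxcard f univ {p : X × X | dist p.1 p.2 < δ} n :=
    (Dynamics.one_le_netMaxcard_iff f univ _ n).2 univ_nonempty
  rw [← hcard] at hE1 hn
  have hE2 : 1 ≤ E.card := by exact_mod_cast hE1
  have hne : E.Nonempty := Finset.card_pos.1 hE2
  refine ⟨E, hne, ?_, ?_⟩
  · have h3 : ENNReal.log (((E.card : ℕ∞)) : ENNReal) = (Real.log E.card : ℝ) := by
      rw [ENNReal.log_pos_real]
      · simp
      · simp
        exact hne.ne_empty
      · simp
    rw [h3] at hn
    have h4 : ((Real.log E.card : ℝ) : EReal) / (n : EReal) = ((Real.log E.card / n : ℝ) : EReal) := by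
      rw [EReal.coe_div]
      simp
    rw [h4, EReal.coe_lt_coe_iff, lt_div_iff₀ (by exact_mod_cast hn0)] at hn
    exact hn.le
  · intro x hx y hy hxy
    by_contra hne
    have h5 := hE.2 hx hy hne
    have h6 : Disjoint (UniformSpace.ball x (Dynamics.dynEntourage f
      {p : X × X | dist p.1 p.2 < δ} n)) (UniformSpace.ball y (Dynamics.dynEntourage f
      {p : X × X | dist p.1 p.2 < δ} n)) := h5
    rw [Set.disjoint_left] at h6
    apply h6 (a := y)
    · rw [Dynamics.mem_ball_dynEntourage]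
      intro j hj
      exact hxy j hj
    · rw [Dynamics.mem_ball_dynEntourage]
      intro j hj
      change dist _ _ < δ
      rw [dist_self]
      exact hδ

/-- Integrals with respect to `avgMeasure`. -/
theorem A5c_integral (f : X → X) (E : Finset X) (n : ℕ) (φ : X → ℝ) :
    ∫ x, φ x ∂(avgMeasure f E n) =
      ∑ j ∈ Finset.range n, (1 / (n : ℝ)) * ∑ x ∈ E, (1 / (E.card : ℝ)) * φ (f^[j] x) := by
  unfold avgMeasure
  have hint : ∀ (j : ℕ) (x : X), Integrable φ
      (ENNReal.ofReal (1 / E.card) • Measure.dirac (f^[j] x)) := by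
    intro j x
    apply Integrable.smul_measure _ ENNReal.ofReal_ne_top
    exact integrable_dirac (by simp)
  rw [integral_finsetSum_measure]
  · refine Finset.sum_congr rfl fun j _ => ?_
    rw [integral_smul_measure, ENNReal.toReal_ofReal (by positivity), smul_eq_mul,
      integral_finsetSum_measure (fun x _ => hint j x)]
    congr 1
    refine Finset.sum_congr rfl fun x _ => ?_
    rw [integral_smul_measure, ENNReal.toReal_ofReal (by positivity), smul_eq_mul,
      integral_dirac]
  · intro j _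
    apply Integrable.smul_measure _ ENNReal.ofReal_ne_top
    exact integrable_finsetSum_measure.2 fun x _ => hint j x

/-- Almost invariance of `avgMeasure`. -/
theorem A5c_almost_invariant (f : X → X) (E : Finset X) (hE : E.Nonempty) (n : ℕ)
    (φ : X → ℝ) (C : ℝ) (hC : ∀ x, |φ x| ≤ C) :
    |∫ x, φ (f x) ∂(avgMeasure f E n) - ∫ x, φ x ∂(avgMeasure f E n)| ≤ 2 * C / n := by
  rw [A5c_integral, A5c_integral f E n φ, ← Finset.sum_sub_distrib]
  have h1 : ∀ j ∈ Finset.range n,
      ((1 / (n : ℝ)) * ∑ x ∈ E, (1 / (E.card : ℝ)) * φ (f (f^[j] x)) -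
        (1 / (n : ℝ)) * ∑ x ∈ E, (1 / (E.card : ℝ)) * φ (f^[j] x)) =
      (fun i => (1 / (n : ℝ)) * ∑ x ∈ E, (1 / (E.card : ℝ)) * φ (f^[i] x)) (j + 1) -
      (fun i => (1 / (n : ℝ)) * ∑ x ∈ E, (1 / (E.card : ℝ)) * φ (f^[i] x)) j := by
    intro j _
    simp only [Function.iterate_succ_apply']
  rw [Finset.sum_congr rfl h1,
    Finset.sum_range_sub (fun i => (1 / (n : ℝ)) * ∑ x ∈ E, (1 / (E.card : ℝ)) * φ (f^[i] x)) n]
  have hCpos : 0 ≤ C := (abs_nonneg _).trans (hC hE.choose)
  have hEpos : (0 : ℝ) < E.card := by exact_mod_cast hE.card_pos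
  have h2 : ∀ i : ℕ, |∑ x ∈ E, (1 / (E.card : ℝ)) * φ (f^[i] x)| ≤ C := by
    intro i
    refine (Finset.abs_sum_le_sum_abs _ _).trans ?_
    have h3 : ∀ x ∈ E, |(1 / (E.card : ℝ)) * φ (f^[i] x)| ≤ (1 / (E.card : ℝ)) * C := by
      intro x _
      rw [abs_mul, abs_of_pos (by positivity)]
      exact mul_le_mul_of_nonneg_left (hC _) (by positivity)
    refine (Finset.sum_le_sum h3).trans ?_
    rw [Finset.sum_const, nsmul_eq_mul]
    apply le_of_eq
    field_simp
  rw [← mul_sub, abs_mul, abs_of_nonneg (by positivity : (0 : ℝ) ≤ 1 / (n : ℝ))]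
  have h4 := h2 n
  have h5 := h2 0
  have h6 : |∑ x ∈ E, (1 / (E.card : ℝ)) * φ (f^[n] x) -
      ∑ x ∈ E, (1 / (E.card : ℝ)) * φ (f^[0] x)| ≤ 2 * C := by
    refine (abs_sub _ _).trans ?_
    linarith only [h4, h5]
  calc 1 / (n : ℝ) * _ ≤ 1 / (n : ℝ) * (2 * C) :=
        mul_le_mul_of_nonneg_left h6 (by positivity)
    _ = 2 * C / n := by ring

/-- **Misiurewicz**: `h_top(f) ≤ sup_μ h_μ(f)`. -/
theorem exists_measure_of_lt_coverEntropy [Nonempty X] {f : X → X} (hf : Continuous f) {a : EReal}
    (ha : a < Dynamics.coverEntropy f univ) :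
    ∃ μ : Measure X, IsProbabilityMeasure μ ∧ MeasurePreserving f μ μ ∧ a ≤ metricEntropy μ f := by
  classical
  obtain ⟨c, hac, hc⟩ := EReal.lt_iff_exists_real_btwn.1 ha
  obtain ⟨δ, hδ, hfreq⟩ := A5c_nets hf hc
  -- the set of good `n`
  set S : Set ℕ := {n | 0 < n ∧ ∃ E : Finset X, E.Nonempty ∧ c * n ≤ Real.log E.card ∧
      ∀ x ∈ E, ∀ y ∈ E, (∀ j < n, dist (f^[j] x) (f^[j] y) < δ) → x = y} with hSdef
  have hE : ∀ n : ℕ, ∃ E : Finset X, E.Nonempty ∧ (n ∈ S → c * n ≤ Real.log E.card ∧
      ∀ x ∈ E, ∀ y ∈ E, (∀ j < n, dist (f^[j] x) (f^[j] y) < δ) → x = y) := by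
    intro n
    by_cases hn : n ∈ S
    · obtain ⟨_, E, hE1, hE2⟩ := hn
      exact ⟨E, hE1, fun _ => hE2⟩
    · exact ⟨{Classical.arbitrary X}, Finset.singleton_nonempty _, fun h => absurd h hn⟩
  choose E hE1 hE2 using hE
  let m : ℕ → ProbabilityMeasure X := fun n =>
    if hn : 0 < n then ⟨avgMeasure f (E n) n, isProbabilityMeasure_avgMeasure f (E n) (hE1 n) n hn⟩
    else ⟨avgMeasure f (E 1) 1, isProbabilityMeasure_avgMeasure f (E 1) (hE1 1) 1 one_pos⟩
  have hm : ∀ n, 0 < n → (m n : Measure X) = avgMeasure f (E n) n := by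
    intro n hn
    simp [m, hn]
  have hNe : NeBot (atTop ⊓ 𝓟 S) := by
    rw [inf_principal_neBot_iff]
    intro U hU
    obtain ⟨n, hn1, hn2⟩ := (hfreq.and_eventually hU).exists
    exact ⟨n, hn2, hn1⟩
  let 𝒰 : Ultrafilter ℕ := Ultrafilter.of (atTop ⊓ 𝓟 S)
  have hU : (𝒰 : Filter ℕ) ≤ atTop ⊓ 𝓟 S := Ultrafilter.of_le _
  have hUtop : (𝒰 : Filter ℕ) ≤ atTop := hU.trans inf_le_left
  have hUS : ∀ᶠ n in (𝒰 : Filter ℕ), n ∈ S := by
    have : S ∈ atTop ⊓ 𝓟 S := mem_inf_of_right (mem_principal_self S)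
    exact hU this
  obtain ⟨μ, _, hμ⟩ := isCompact_univ.ultrafilter_le_nhds (𝒰.map m) (by simp)
  have hlim : Tendsto m 𝒰 (𝓝 μ) := hμ
  have hint := ProbabilityMeasure.tendsto_iff_forall_integral_tendsto.1 hlim
  have hcast : Tendsto (fun n : ℕ => (n : ℝ)) (𝒰 : Filter ℕ) atTop :=
    tendsto_natCast_atTop_atTop.mono_left hUtop
  have hdiv : ∀ C : ℝ, Tendsto (fun n : ℕ => C / (n : ℝ)) (𝒰 : Filter ℕ) (𝓝 0) := fun C =>
    hcast.const_div_atTop C
  -- invariance
  have hinv : (μ : Measure X).map f = (μ : Measure X) := by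
    have : IsProbabilityMeasure ((μ : Measure X).map f) :=
      Measure.isProbabilityMeasure_map hf.aemeasurable
    apply ext_of_forall_integral_eq_of_IsFiniteMeasure
    intro φ
    rw [integral_map hf.aemeasurable φ.continuous.aestronglyMeasurable]
    have h1 := hint φ
    have h2 := hint (φ.compContinuous ⟨f, hf⟩)
    have h3 := h2.sub h1
    have h4 : Tendsto (fun n => ∫ x, (φ.compContinuous ⟨f, hf⟩) x ∂(m n : Measure X) -
        ∫ x, φ x ∂(m n : Measure X)) (𝒰 : Filter ℕ) (𝓝 0) := by
      rw [tendsto_zero_iff_abs_tendsto_zero]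
      refine squeeze_zero' (Eventually.of_forall fun n => abs_nonneg _) ?_ (hdiv (2 * ‖φ‖))
      filter_upwards [hUS] with n hn
      simp only [Function.comp]
      rw [hm n hn.1]
      exact A5c_almost_invariant f (E n) (hE1 n) n φ ‖φ‖ (fun x => φ.norm_coe_le_norm x)
    have h5 := tendsto_nhds_unique h3 h4
    have h6 : ∫ x, (φ.compContinuous ⟨f, hf⟩) x ∂(μ : Measure X) - ∫ x, φ x ∂(μ : Measure X) = 0 :=
      h5
    exact sub_eq_zero.1 h6
  have hmp : MeasurePreserving f (μ : Measure X) (μ : Measure X) := ⟨hf.measurable, hinv⟩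
  refine ⟨μ, inferInstance, hmp, hac.le.trans ?_⟩
  obtain ⟨k, ξ, hξm, hξd, hξf⟩ := exists_partition_null_frontier (μ : Measure X) hδ
  have hmain : c ≤ entropyOf (μ : Measure X) f ξ := by
    apply le_entropyOf
    intro q hq
    have hq' : (0 : ℝ) < q := by exact_mod_cast hq
    rw [le_div_iff₀ hq']
    have h1 : Tendsto (fun n => partEntropy (m n : Measure X) (itin f ξ q)) (𝒰 : Filter ℕ)
        (𝓝 (partEntropy (μ : Measure X) (itin f ξ q))) :=
      tendsto_partEntropy m μ hlim (itin f ξ q) (null_frontier_itin hf hmp hξf q)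
    have h2 := h1.add (hdiv (2 * (q : ℝ) ^ 2 * Real.log k))
    rw [add_zero] at h2
    apply ge_of_tendsto h2
    have h3 : ∀ᶠ n : ℕ in (𝒰 : Filter ℕ), q < n := hUtop (eventually_gt_atTop q)
    filter_upwards [hUS, h3] with n hn hqn
    have hn0 : (0 : ℝ) < n := by exact_mod_cast hn.1
    have h4 := misiurewicz_inequality hf.measurable (E n) (hE1 n) ξ hξm n q hq hqn (by
      intro x hx y hy hxy
      apply (hE2 n hn).2 x hx y hy
      intro j hj
      exact hξd _ _ (congrFun hxy ⟨j, hj⟩))
    have h5 := (hE2 n hn).1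
    rw [hm n hn.1]
    have h6 : c * q * n ≤ n * partEntropy (avgMeasure f (E n) n) (itin f ξ q) +
        2 * (q : ℝ) ^ 2 * Real.log k := by
      calc c * q * n = q * (c * n) := by ring
        _ ≤ q * Real.log (E n).card := mul_le_mul_of_nonneg_left h5 hq'.le
        _ ≤ _ := h4
    have h7 : partEntropy (avgMeasure f (E n) n) (itin f ξ q) + 2 * (q : ℝ) ^ 2 * Real.log k / n =
        (n * partEntropy (avgMeasure f (E n) n) (itin f ξ q) + 2 * (q : ℝ) ^ 2 * Real.log k) / n := by
      field_simp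
    rw [h7, le_div_iff₀ hn0]
    exact h6
  calc ((c : ℝ) : EReal) ≤ (entropyOf (μ : Measure X) f ξ : EReal) := EReal.coe_le_coe_iff.2 hmain
    _ ≤ metricEntropy (μ : Measure X) f := by
      unfold metricEntropy
      exact le_iSup_of_le k (le_iSup_of_le ξ (le_iSup_of_le hξm le_rfl))

end

end MPd1f192

end PartA5c

section PartA6

/-! # A6. Topological entropy is an invariant of entropy-conjugacy -/

open MeasureTheory Set Filter Topology

namespace MPd1f192

noncomputable section

/-- For a metric space the canonical uniform structure of a compact space is the metric one. -/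
theorem a6_htop_eq {X : Type*} [m : MetricSpace X] [CompactSpace X] (f : X → X) :
    htop f = Dynamics.coverEntropy f univ := by
  have h : (uniformSpaceOfCompactR1 : UniformSpace X) =
      m.toPseudoMetricSpace.toUniformSpace :=
    unique_uniformity_of_compact (t := m.toPseudoMetricSpace.toUniformSpace.toTopologicalSpace)
      rfl rfl
  unfold htop
  rw [h]

/-- On a compact metrizable space, `htop` is the supremum of the metric entropies. -/
theorem htop_variational {X : Type*} [TopologicalSpace X] [CompactSpace X] [T2Space X]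
    [TopologicalSpace.MetrizableSpace X] [MeasurableSpace X] [BorelSpace X] [Nonempty X]
    {f : X → X} (hf : Continuous f) :
    (∀ μ : Measure X, IsProbabilityMeasure μ → MeasurePreserving f μ μ →
      metricEntropy μ f ≤ htop f) ∧
    (∀ a < htop f, ∃ μ : Measure X, IsProbabilityMeasure μ ∧ MeasurePreserving f μ μ ∧
      a ≤ metricEntropy μ f) := by
  letI : MetricSpace X := TopologicalSpace.metrizableSpaceMetric X
  refine ⟨?_, ?_⟩
  · intro μ hμ hp
    rw [a6_htop_eq]
    exact metricEntropy_le_coverEntropy hf μ hp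
  · intro a ha
    rw [a6_htop_eq] at ha
    exact exists_measure_of_lt_coverEntropy hf ha

theorem htop_eq_of_entropyConjugate {X : Type*} [TopologicalSpace X] [CompactSpace X] [T2Space X]
    [TopologicalSpace.MetrizableSpace X] [MeasurableSpace X] [BorelSpace X] [Nonempty X]
    {f g : X → X} (hf : Continuous f) (hg : Continuous g) (h : EntropyConjugate g f) :
    htop g = htop f := by
  obtain ⟨A, B, hA, hB, ⟨ψ, hψ⟩, hfB, hgA⟩ := h
  have hgAA : ∀ x ∈ A, g x ∈ A := fun x hx => (hψ ⟨x, hx⟩).1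
  have hfBB : ∀ y ∈ B, f y ∈ B := by
    intro y hy
    obtain ⟨h1, h2⟩ := hψ (ψ.symm ⟨y, hy⟩)
    have h3 : (ψ (ψ.symm ⟨y, hy⟩) : X) = y := by
      simp
    rw [h3] at h2
    rw [← h2]
    exact Subtype.coe_prop _
  apply le_antisymm
  · -- htop g ≤ htop f
    by_contra hcon
    push Not at hcon
    have hmax : max (htop f) (htilde g Aᶜ) < htop g := max_lt hcon hgA
    obtain ⟨a, ha1, ha2⟩ := exists_between hmax
    obtain ⟨ν, hν, hνp, hνa⟩ := (htop_variational hg).2 a ha2
    have hlt : htilde g Aᶜ < metricEntropy ν g :=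
      lt_of_lt_of_le (lt_of_le_of_lt (le_max_right _ _) ha1) hνa
    obtain ⟨ν', hν', hν'p, hν'A, hle⟩ := exists_measure_on_invariant ν hνp hA hgAA hlt
    obtain ⟨μ, hμ, hμp, hμB, hle2⟩ := exists_transport' hf.measurable hg.measurable hA hB ψ hψ ν'
      hν'p hν'A
    have h5 := (htop_variational hf).1 μ hμ hμp
    have h6 : htop f < a := lt_of_le_of_lt (le_max_left _ _) ha1
    exact absurd (lt_of_lt_of_le h6 (hνa.trans (hle.trans (hle2.trans h5)))) (lt_irrefl _)
  · by_contra hcon
    push Not at hcon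
    have hmax : max (htop g) (htilde f Bᶜ) < htop f := max_lt hcon hfB
    obtain ⟨a, ha1, ha2⟩ := exists_between hmax
    obtain ⟨μ, hμ, hμp, hμa⟩ := (htop_variational hf).2 a ha2
    have hlt : htilde f Bᶜ < metricEntropy μ f :=
      lt_of_lt_of_le (lt_of_le_of_lt (le_max_right _ _) ha1) hμa
    obtain ⟨μ', hμ', hμ'p, hμ'B, hle⟩ := exists_measure_on_invariant μ hμp hB hfBB hlt
    obtain ⟨ν, hν, hνp, hνA, hle2⟩ := exists_transport hf.measurable hg.measurable hA hB ψ hψ μ'
      hμ'p hμ'B
    have h5 := (htop_variational hg).1 ν hν hνp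
    have h6 : htop g < a := lt_of_le_of_lt (le_max_left _ _) ha1
    exact absurd (lt_of_lt_of_le h6 (hμa.trans (hle.trans (hle2.trans h5)))) (lt_irrefl _)

end

end MPd1f192

end PartA6
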