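import Pool.Agent.W_MP_d1f192_an.Model

section PartB0

/-! # B0. Arithmetic of `lam`, the group `Γ`, the covering and discreteness properties -/

open MeasureTheory Set Filter Topology

namespace MPd1f192

noncomputable section

/-- `lam^(-0.45)`: the ratio of all geometric series of part B (times 2 or 3). -/
def qq : ℝ := lam ^ (-(9 / 20) : ℝ)

theorem qq_pos : 0 < qq := by
  unfold qq
  exact Real.rpow_pos_of_pos lam_pos _

theorem qq_lt : qq < 1 / 20 := by
  by_contra h
  rw [not_lt] at h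
  have h1 : (1 / 20 : ℝ) ^ 20 ≤ qq ^ 20 := pow_le_pow_left₀ (by norm_num) h 20
  have h2 : qq ^ 20 = (lam ^ 9)⁻¹ := by
    unfold qq
    rw [← Real.rpow_natCast, ← Real.rpow_mul lam_pos.le, ← Real.rpow_natCast lam 9,
      ← Real.rpow_neg lam_pos.le]
    norm_num
  have h3 : (999.99 : ℝ) ^ 9 < lam ^ 9 := pow_lt_pow_left₀ lam_gt (by norm_num) (by norm_num)
  have h4 : (lam ^ 9)⁻¹ < ((999.99 : ℝ) ^ 9)⁻¹ := by
    apply inv_strictAnti₀ (by norm_num) h3
  rw [h2] at h1
  have h5 : ((999.99 : ℝ) ^ 9)⁻¹ < (1 / 20 : ℝ) ^ 20 := by norm_num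
  linarith

/-! ### The group -/

/-- multiplying an element of the lattice by `D^k` -/
theorem B0_mul (k m n : ℤ) : ∃ a b : ℤ, lam ^ (-k) * ((m : ℝ) + n * lam) = a + b * lam ∧
    lam ^ k * ((m : ℝ) + n * lam⁻¹) = a + b * lam⁻¹ := by
  have h0 := lam_ne_zero
  have h2 := lam_sq
  induction k using Int.induction_on with
  | zero => exact ⟨m, n, by simp, by simp⟩
  | succ k ih =>
    obtain ⟨a, b, h1, h3⟩ := ih
    refine ⟨b + 1000 * a, -a, ?_, ?_⟩
    · rw [neg_add, zpow_add₀ h0, zpow_neg_one, mul_comm (lam ^ (-(k : ℤ))) lam⁻¹, mul_assoc, h1]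
      have : lam⁻¹ * ((a : ℝ) + b * lam) = a * lam⁻¹ + b := by
        field_simp
      rw [this, lam_inv]
      push_cast
      ring
    · rw [zpow_add₀ h0, zpow_one, mul_comm (lam ^ (k : ℤ)) lam, mul_assoc, h3]
      have : lam * ((a : ℝ) + b * lam⁻¹) = a * lam + b := by
        field_simp
      rw [this, lam_inv]
      push_cast
      ring
  | pred k ih =>
    obtain ⟨a, b, h1, h3⟩ := ih
    refine ⟨-b, a + 1000 * b, ?_, ?_⟩
    · have e : -(-(k : ℤ) - 1) = 1 + -(-(k : ℤ)) := by ring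
      rw [e, zpow_add₀ h0, zpow_one, mul_assoc, h1]
      push_cast
      linear_combination (b : ℝ) * h2
    · have e : (-(k : ℤ) - 1) = -1 + -(k : ℤ) := by ring
      rw [e, zpow_add₀ h0, zpow_neg_one, mul_assoc, h3]
      have h4 : lam⁻¹ * lam⁻¹ = 1000 * lam⁻¹ - 1 := by
        rw [lam_inv]
        nlinarith [h2]
      push_cast
      linear_combination (b : ℝ) * h4

theorem bact_zero (p : P) : act 0 0 0 p = p := by
  unfold act
  refine Prod.ext ?_ (Prod.ext ?_ ?_) <;> simp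

theorem bact_act (k m n k' m' n' : ℤ) :
    ∃ m'' n'' : ℤ, ∀ p, act k m n (act k' m' n' p) = act (k + k') m'' n'' p := by
  obtain ⟨a, b, h1, h2⟩ := B0_mul k m' n'
  refine ⟨m + a, n + b, fun p => ?_⟩
  have h0 := lam_ne_zero
  unfold act
  refine Prod.ext ?_ (Prod.ext ?_ ?_)
  · simp only
    rw [neg_add, zpow_add₀ h0]
    push_cast
    linear_combination h1
  · simp only
    rw [zpow_add₀ h0]
    push_cast
    linear_combination h2
  · simp only
    push_cast
    ring

theorem bact_inv (k m n : ℤ) :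
    ∃ m' n' : ℤ, ∀ p, act (-k) m' n' (act k m n p) = p ∧ act k m n (act (-k) m' n' p) = p := by
  obtain ⟨a, b, h1, h2⟩ := B0_mul (-k) m n
  rw [neg_neg] at h1
  have h0 := lam_ne_zero
  have e1 : lam ^ k * lam ^ (-k) = 1 := by
    rw [← zpow_add₀ h0]
    simp
  refine ⟨-a, -b, fun p => ⟨?_, ?_⟩⟩
  · unfold act
    refine Prod.ext ?_ (Prod.ext ?_ ?_)
    · simp only [neg_neg]
      push_cast
      linear_combination p.1 * e1 + h1
    · simp only
      push_cast
      linear_combination p.2.1 * e1 + h2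
    · simp only
      push_cast
      ring
  · unfold act
    refine Prod.ext ?_ (Prod.ext ?_ ?_)
    · simp only [neg_neg]
      push_cast
      linear_combination (p.1 - ((m : ℝ) + n * lam)) * e1 + lam ^ (-k) * h1
    · simp only
      push_cast
      linear_combination (p.2.1 - ((m : ℝ) + n * lam⁻¹)) * e1 + lam ^ k * h2
    · simp only
      push_cast
      ring

theorem bcontinuous_act (k m n : ℤ) : Continuous (act k m n) := by
  unfold act
  fun_prop

/-- `close` is invariant under the group. -/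
theorem close_act (ρ : ℝ) (k m n : ℤ) (p p' : P) :
    close ρ (act k m n p) (act k m n p') ↔ close ρ p p' := by
  have h0 := lam_ne_zero
  have hp := lam_pos
  have e1 : lam ^ ((p.2.2 + k : ℝ)) * |lam ^ (-k) * p.1 + (m + n * lam) -
      (lam ^ (-k) * p'.1 + (m + n * lam))| = lam ^ (p.2.2 : ℝ) * |p.1 - p'.1| := by
    have : lam ^ (-k) * p.1 + (m + n * lam) - (lam ^ (-k) * p'.1 + (m + n * lam)) =
        lam ^ (-k) * (p.1 - p'.1) := by ring
    rw [this, abs_mul, abs_of_pos (zpow_pos hp _), Real.rpow_add hp, Real.rpow_intCast]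
    have h1 : lam ^ k * lam ^ (-k) = 1 := by
      rw [← zpow_add₀ h0]
      simp
    linear_combination (lam ^ (p.2.2 : ℝ) * |p.1 - p'.1|) * h1
  have e2 : lam ^ (-(p.2.2 + k : ℝ)) * |lam ^ k * p.2.1 + (m + n * lam⁻¹) -
      (lam ^ k * p'.2.1 + (m + n * lam⁻¹))| = lam ^ (-p.2.2 : ℝ) * |p.2.1 - p'.2.1| := by
    have : lam ^ k * p.2.1 + (m + n * lam⁻¹) - (lam ^ k * p'.2.1 + (m + n * lam⁻¹)) =
        lam ^ k * (p.2.1 - p'.2.1) := by ring
    have h2 : (-(p.2.2 + k : ℝ)) = -p.2.2 + ((-k : ℤ) : ℝ) := by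
      push_cast
      ring
    rw [this, abs_mul, abs_of_pos (zpow_pos hp _), h2, Real.rpow_add hp, Real.rpow_intCast]
    have h1 : lam ^ k * lam ^ (-k) = 1 := by
      rw [← zpow_add₀ h0]
      simp
    linear_combination (lam ^ (-p.2.2 : ℝ) * |p.2.1 - p'.2.1|) * h1
  have e3 : |p.2.2 + k - (p'.2.2 + k)| = |p.2.2 - p'.2.2| := by
    congr 1
    ring
  unfold close act
  simp only
  rw [e1, e2, e3]

theorem B0_not_sq (x b : ℤ) (h : x ^ 2 = 249999 * b ^ 2) : b = 0 := by
  by_contra hb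
  have hb' : (b : ℚ) ≠ 0 := by exact_mod_cast hb
  have h1 : IsSquare ((249999 : ℤ) : ℚ) := by
    refine ⟨(x : ℚ) / b, ?_⟩
    have h2 : (x : ℚ) ^ 2 = 249999 * (b : ℚ) ^ 2 := by exact_mod_cast h
    field_simp
    push_cast
    linarith
  rw [Rat.isSquare_intCast_iff] at h1
  obtain ⟨r, hr⟩ := h1
  have h3 : (249999 : ℤ) = |r| * |r| := by rw [abs_mul_abs_self, ← hr]
  have h4 : 0 ≤ |r| := abs_nonneg r
  rcases le_or_gt |r| 499 with h5 | h5
  · nlinarith
  · have : 500 ≤ |r| := h5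
    nlinarith

/-- The norm form `(a + b lam)(a + b lam⁻¹) = a² + 1000 a b + b²` is a non-zero integer unless
`a = b = 0`. -/
theorem lattice_eq_zero (a b : ℤ) (h : |((a : ℝ) + b * lam) * (a + b * lam⁻¹)| < 1) :
    a = 0 ∧ b = 0 := by
  have h2 := lam_sq
  have e : ((a : ℝ) + b * lam) * (a + b * lam⁻¹) = ((a ^ 2 + 1000 * a * b + b ^ 2 : ℤ) : ℝ) := by
    rw [lam_inv]
    push_cast
    linear_combination (-(b : ℝ) ^ 2) * h2
  rw [e] at h
  have h3 : |a ^ 2 + 1000 * a * b + b ^ 2| < 1 := by exact_mod_cast h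
  have h4 : a ^ 2 + 1000 * a * b + b ^ 2 = 0 := by
    rw [Int.abs_lt_one_iff] at h3
    exact h3
  have h5 : b = 0 := B0_not_sq (a + 500 * b) b (by linear_combination h4)
  subst h5
  refine ⟨?_, rfl⟩
  have : a ^ 2 = 0 := by linarith
  exact pow_eq_zero_iff (two_ne_zero) |>.1 this

theorem B0_D_pos : 0 < lam - lam⁻¹ := by
  rw [lam_inv]
  linarith [lam_gt]

/-- Covering property: the lattice translates of `(u', s')` meet the box
`[u, u + lam) × [s, s + 1)`. -/
theorem covering (u s u' s' : ℝ) : ∃ a b : ℤ,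
    0 ≤ u' + (a + b * lam) - u ∧ u' + (a + b * lam) - u < lam ∧
    0 ≤ s' + (a + b * lam⁻¹) - s ∧ s' + (a + b * lam⁻¹) - s < 1 := by
  have hD := B0_D_pos
  have hinv : 0 < lam⁻¹ := inv_pos.2 lam_pos
  set U := u' - u with hU
  set S := s' - s with hS
  obtain ⟨n, hn, hmin⟩ := Int.exists_least_of_bdd
    (P := fun z : ℤ => 0 ≤ U + z * lam - ⌊S + z * lam⁻¹⌋)
    (by
      refine ⟨⌊(S - 1 - U) / (lam - lam⁻¹)⌋, fun z hz => ?_⟩
      have h1 : S + z * lam⁻¹ - 1 < ⌊S + z * lam⁻¹⌋ := Int.sub_one_lt_floor _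
      have h2 : (S - 1 - U) / (lam - lam⁻¹) ≤ z := by
        rw [div_le_iff₀ hD]
        nlinarith
      have h3 := Int.floor_le ((S - 1 - U) / (lam - lam⁻¹))
      have h4 : ((⌊(S - 1 - U) / (lam - lam⁻¹)⌋ : ℤ) : ℝ) ≤ (z : ℝ) := h3.trans h2
      exact_mod_cast h4)
    (by
      refine ⟨⌈(S - U) / (lam - lam⁻¹)⌉, ?_⟩
      have h1 := Int.le_ceil ((S - U) / (lam - lam⁻¹))
      rw [div_le_iff₀ hD] at h1
      have h2 := Int.floor_le (S + (⌈(S - U) / (lam - lam⁻¹)⌉ : ℤ) * lam⁻¹)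
      nlinarith)
  refine ⟨-⌊S + n * lam⁻¹⌋, n, ?_, ?_, ?_, ?_⟩
  · push_cast
    linarith
  · have h1 : ¬ (0 ≤ U + ((n - 1 : ℤ) : ℝ) * lam - ⌊S + ((n - 1 : ℤ) : ℝ) * lam⁻¹⌋) := by
      intro h
      have := hmin (n - 1) h
      omega
    have h2 : ⌊S + ((n - 1 : ℤ) : ℝ) * lam⁻¹⌋ ≤ ⌊S + n * lam⁻¹⌋ := by
      refine Int.floor_le_floor ?_
      push_cast
      nlinarith
    have h3 : ((⌊S + ((n - 1 : ℤ) : ℝ) * lam⁻¹⌋ : ℤ) : ℝ) ≤ ((⌊S + n * lam⁻¹⌋ : ℤ) : ℝ) := by
      exact_mod_cast h2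
    rw [not_le] at h1
    push_cast at h1 h3 ⊢
    linarith
  · have := Int.floor_le (S + n * lam⁻¹)
    push_cast
    linarith
  · have := Int.lt_floor_add_one (S + n * lam⁻¹)
    push_cast
    linarith

/-- Every orbit of the group meets the box `[0, lam) × [0, 1) × [0, 1)`. -/
theorem exists_act_box (p : P) : ∃ k a b : ℤ,
    0 ≤ (act k a b p).1 ∧ (act k a b p).1 < lam ∧ 0 ≤ (act k a b p).2.1 ∧
    (act k a b p).2.1 < 1 ∧ 0 ≤ (act k a b p).2.2 ∧ (act k a b p).2.2 < 1 := by
  obtain ⟨a, b, h1, h2, h3, h4⟩ :=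
    covering 0 0 (lam ^ (- -⌊p.2.2⌋) * p.1) (lam ^ (-⌊p.2.2⌋) * p.2.1)
  rw [sub_zero] at h1 h2 h3 h4
  refine ⟨-⌊p.2.2⌋, a, b, h1, h2, h3, h4, ?_, ?_⟩
  · have := Int.floor_le p.2.2
    simp only [act]
    push_cast
    linarith
  · have := Int.lt_floor_add_one p.2.2
    simp only [act]
    push_cast
    linarith

end

end MPd1f192

end PartB0

section PartB1a

/-! # B1a. Iteration on a single leaf; equivariance -/

open MeasureTheory Set Filter Topology

namespace MPd1f192

noncomputable section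

namespace LeafSystem

variable (L : LeafSystem)

/-- `m`-th iterate on the leaf over `(u,s)`, from height `r`. -/
def it (m : ℕ) (u s r : ℝ) : ℝ := (L.g u s)^[m] r

theorem it_zero (u s r : ℝ) : L.it 0 u s r = r := rfl

theorem X_eq_it (m : ℕ) (u s : ℝ) : L.X m u s = L.it m u s 0 := rfl

theorem it_succ (m : ℕ) (u s r : ℝ) : L.it (m + 1) u s r = L.g u s (L.it m u s r) :=
  Function.iterate_succ_apply' _ _ _

/-- First `m`, then `m'` steps. -/
theorem it_add (m m' : ℕ) (u s r : ℝ) :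
    L.it (m + m') u s r = L.it m' u s (L.it m u s r) := by
  unfold it
  rw [add_comm, Function.iterate_add_apply]

theorem g_strictMono (u s : ℝ) : StrictMono (L.g u s) := by
  intro r r' h
  have := L.lower u s r r' h.le
  linarith

theorem it_strictMono (m : ℕ) (u s : ℝ) : StrictMono (L.it m u s) :=
  (L.g_strictMono u s).iterate m

theorem it_mono (m : ℕ) (u s : ℝ) {r r' : ℝ} (h : r ≤ r') : L.it m u s r ≤ L.it m u s r' :=
  (L.it_strictMono m u s).monotone h

theorem B1a_g_ge (u s r : ℝ) : r + 9 / 10 ≤ L.g u s r := by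
  have := (neg_le_abs _).trans (L.near u s r)
  linarith

theorem B1a_g_le (u s r : ℝ) : L.g u s r ≤ r + 11 / 10 := by
  have := (le_abs_self _).trans (L.near u s r)
  linarith

theorem it_ge (m : ℕ) (u s r : ℝ) : r + (9 / 10) * m ≤ L.it m u s r := by
  induction m with
  | zero => simp [it_zero]
  | succ m ih =>
    rw [it_succ]
    have := L.B1a_g_ge u s (L.it m u s r)
    push_cast
    linarith

theorem it_le (m : ℕ) (u s r : ℝ) : L.it m u s r ≤ r + (11 / 10) * m := by
  induction m with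
  | zero => simp [it_zero]
  | succ m ih =>
    rw [it_succ]
    have := L.B1a_g_le u s (L.it m u s r)
    push_cast
    linarith

theorem B1a_near1 (m : ℕ) (u s : ℝ) {r r' : ℝ} (h : r ≤ r') :
    L.it m u s r' ≤ L.it m u s r + 2 * (r' - r) + 2 := by
  obtain ⟨j, hj1, hj2⟩ : ∃ j : ℕ, (r' - r) / (9 / 10) ≤ j ∧ (j : ℝ) < (r' - r) / (9 / 10) + 1 :=
    ⟨⌈(r' - r) / (9 / 10)⌉₊, Nat.le_ceil _, Nat.ceil_lt_add_one (div_nonneg (by linarith) (by norm_num))⟩
  have h1 : r' ≤ L.it j u s r := by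
    have := L.it_ge j u s r
    have h2 : r' - r ≤ (9 / 10) * j := by
      rw [div_le_iff₀ (by norm_num)] at hj1
      linarith
    linarith
  have h2 : L.it m u s r' ≤ L.it j u s (L.it m u s r) := by
    calc L.it m u s r' ≤ L.it m u s (L.it j u s r) := L.it_mono m u s h1
      _ = L.it (j + m) u s r := (L.it_add j m u s r).symm
      _ = L.it (m + j) u s r := by rw [add_comm]
      _ = _ := L.it_add m j u s r
  have h3 := L.it_le j u s (L.it m u s r)
  have h4 : (j : ℝ) * (9 / 10) < (r' - r) + 9 / 10 := by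
    have : (j : ℝ) < (r' - r) / (9 / 10) + 1 := hj2
    have h5 : (r' - r) / (9 / 10) * (9 / 10) = r' - r := by field_simp
    nlinarith
  linarith

/-- Iterates of the same leaf stay at bounded distance, uniformly in the time. -/
theorem it_near (m : ℕ) (u s r r' : ℝ) :
    |L.it m u s r - L.it m u s r'| ≤ 2 * |r - r'| + 2 := by
  rcases le_total r r' with h | h
  · have h1 := L.it_mono m u s h
    have h2 := L.B1a_near1 m u s h
    rw [abs_sub_comm, abs_of_nonneg (by linarith), abs_sub_comm r r', abs_of_nonneg (by linarith)]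
    linarith
  · have h1 := L.it_mono m u s h
    have h2 := L.B1a_near1 m u s h
    rw [abs_of_nonneg (by linarith), abs_of_nonneg (by linarith)]
    linarith

theorem continuous_it (m : ℕ) : Continuous fun p : P => L.it m p.1 p.2.1 p.2.2 := by
  induction m with
  | zero =>
    simp only [it_zero]
    exact continuous_snd.snd
  | succ m ih =>
    simp only [it_succ]
    exact L.cont.comp (continuous_fst.prodMk (continuous_snd.fst.prodMk ih))

theorem it_surjective (m : ℕ) (u s : ℝ) : Function.Surjective (L.it m u s) := by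
  have hc : Continuous (L.it m u s) := by
    have h := L.continuous_it m
    have h1 : Continuous (fun r : ℝ => ((u, s, r) : P)) := by fun_prop
    exact h.comp h1
  refine hc.surjective ?_ ?_
  · refine tendsto_atTop_mono (fun r => L.it_ge m u s r) ?_
    exact tendsto_atTop_add_const_right _ _ tendsto_id
  · refine tendsto_atBot_mono (fun r => L.it_le m u s r) ?_
    exact tendsto_atBot_add_const_right _ _ tendsto_id

/-- First passage above the height `x`. -/
theorem it_first (m : ℕ) (u s r x : ℝ) (h0 : r ≤ x + 11 / 10) (hm : x ≤ L.it m u s r) :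
    ∃ i ≤ m, x ≤ L.it i u s r ∧ L.it i u s r ≤ x + 11 / 10 := by
  classical
  have hex : ∃ i : ℕ, x ≤ L.it i u s r := ⟨m, hm⟩
  refine ⟨Nat.find hex, Nat.find_min' hex hm, Nat.find_spec hex, ?_⟩
  rcases Nat.eq_zero_or_pos (Nat.find hex) with h | h
  · rw [h, it_zero]
    exact h0
  · obtain ⟨j, hj⟩ : ∃ j, Nat.find hex = j + 1 := ⟨Nat.find hex - 1, by omega⟩
    have h1 : ¬ x ≤ L.it j u s r := Nat.find_min hex (by omega)
    rw [hj, it_succ]
    have := L.B1a_g_le u s (L.it j u s r)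
    linarith

/-- Equivariance under the powers of `A (u,s) = (lam u, lam⁻¹ s)`. -/
theorem g_scale (n : ℤ) (u s r : ℝ) :
    L.g (lam ^ n * u) (lam ^ (-n) * s) r = L.g u s (r + n) - n := by
  induction n using Int.induction_on generalizing r with
  | zero => simp
  | succ n ih =>
    have h1 : lam ^ ((n : ℤ) + 1) * u = lam * (lam ^ (n : ℤ) * u) := by
      rw [zpow_add_one₀ lam_ne_zero]; ring
    have h2 : lam ^ (-((n : ℤ) + 1)) * s = lam⁻¹ * (lam ^ (-(n : ℤ)) * s) := by
      rw [neg_add, zpow_add₀ lam_ne_zero, zpow_neg_one]; ring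
    rw [h1, h2, L.eqv, ih]
    push_cast
    rw [show r + 1 + (n : ℝ) = r + (n + 1) by ring]
    ring
  | pred n ih =>
    have h := L.eqv (lam ^ (-(n : ℤ) - 1) * u) (lam ^ (-(-(n : ℤ) - 1)) * s) (r - 1)
    have h1 : lam * (lam ^ (-(n : ℤ) - 1) * u) = lam ^ (-(n : ℤ)) * u := by
      rw [zpow_sub_one₀ lam_ne_zero]
      field_simp [lam_ne_zero]
    have h2 : lam⁻¹ * (lam ^ (-(-(n : ℤ) - 1)) * s) = lam ^ (-(-(n : ℤ))) * s := by
      have : -(-(n : ℤ) - 1) = -(-(n : ℤ)) + 1 := by ring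
      rw [this, zpow_add_one₀ lam_ne_zero]
      field_simp [lam_ne_zero]
    rw [h1, h2, ih] at h
    push_cast at h ⊢
    rw [show r - 1 + 1 = r by ring] at h
    rw [show r - 1 + -(n : ℝ) = r + (-(n : ℝ) - 1) by ring] at h
    linarith

theorem it_scale (m : ℕ) (n : ℤ) (u s r : ℝ) :
    L.it m (lam ^ n * u) (lam ^ (-n) * s) r = L.it m u s (r + n) - n := by
  induction m with
  | zero => simp [it_zero]
  | succ m ih =>
    rw [it_succ, it_succ, ih, g_scale]
    congr 2
    ring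

theorem it_per (m : ℕ) (a b : ℤ) (u s r : ℝ) :
    L.it m (u + (a + b * lam)) (s + (a + b * lam⁻¹)) r = L.it m u s r := by
  induction m with
  | zero => rfl
  | succ m ih => rw [it_succ, it_succ, ih, L.per]

theorem it_le_it {L L' : LeafSystem} (h : ∀ u s r, L.g u s r ≤ L'.g u s r) (m : ℕ) (u s r : ℝ) :
    L.it m u s r ≤ L'.it m u s r := by
  induction m with
  | zero => exact le_rfl
  | succ m ih =>
    rw [it_succ, it_succ]
    exact ((L.g_strictMono u s).monotone ih).trans (h _ _ _)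

/-! ### The skew product -/

theorem fhat_iterate (m : ℕ) (p : P) :
    L.fhat^[m] p = (p.1, p.2.1, L.it m p.1 p.2.1 p.2.2) := by
  induction m with
  | zero => rfl
  | succ m ih =>
    rw [Function.iterate_succ_apply', ih, it_succ]
    rfl

theorem fhat_act (k a b : ℤ) (p : P) : L.fhat (act k a b p) = act k a b (L.fhat p) := by
  unfold fhat act
  simp only
  rw [L.per]
  have h := L.g_scale (-k) p.1 p.2.1 (p.2.2 + k)
  rw [neg_neg] at h
  rw [h]
  push_cast
  rw [show p.2.2 + (k : ℝ) + -(k : ℝ) = p.2.2 by ring, sub_neg_eq_add]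

theorem fhat_iterate_act (t : ℕ) (k a b : ℤ) (p : P) :
    L.fhat^[t] (act k a b p) = act k a b (L.fhat^[t] p) := by
  induction t with
  | zero => rfl
  | succ t ih => rw [Function.iterate_succ_apply', ih, fhat_act, Function.iterate_succ_apply']

theorem fhat_surjective : Function.Surjective L.fhat := by
  intro p
  obtain ⟨r, hr⟩ := L.it_surjective 1 p.1 p.2.1 p.2.2
  refine ⟨(p.1, p.2.1, r), ?_⟩
  unfold fhat
  have : L.g p.1 p.2.1 r = p.2.2 := hr
  simp only [this]

end LeafSystem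

end

end MPd1f192

end PartB1a

section PartB1b

/-! # B1b. Scaled Hölder bounds and shadowing between different leaves -/

open MeasureTheory Set Filter Topology

namespace MPd1f192

noncomputable section

theorem B1b_one_lt_lam : (1 : ℝ) < lam := by linarith [lam_gt]

theorem B1b_zpow_mul_neg (n : ℤ) : lam ^ (-n) * lam ^ n = 1 := by
  rw [← zpow_add₀ lam_ne_zero]
  simp

theorem B1b_qq_pow (t : ℕ) : qq ^ t = lam ^ (-(9 / 20) * (t : ℝ) : ℝ) := by
  unfold qq
  rw [Real.rpow_mul lam_pos.le, Real.rpow_natCast]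

theorem B1b_rpow_le {x y : ℝ} (h : x ≤ y) : lam ^ x ≤ lam ^ y :=
  Real.rpow_le_rpow_of_exponent_le B1b_one_lt_lam.le h

namespace LeafSystem

variable (L : LeafSystem)

theorem hold_s_scaled (n : ℤ) (u s s' r : ℝ) (hs : |s - s'| ≤ lam ^ n) (hr : (n : ℝ) ≤ r) :
    |L.g u s r - L.g u s' r| ≤ L.C * lam ^ (-((r - n) / 2) : ℝ) := by
  have h1 := L.g_scale n u s (r - n)
  have h2 := L.g_scale n u s' (r - n)
  rw [sub_add_cancel] at h1 h2
  have h3 : |lam ^ (-n) * s - lam ^ (-n) * s'| ≤ 1 := by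
    rw [← mul_sub, abs_mul, abs_of_pos (zpow_pos lam_pos _)]
    calc lam ^ (-n) * |s - s'| ≤ lam ^ (-n) * lam ^ n :=
          mul_le_mul_of_nonneg_left hs (zpow_pos lam_pos _).le
      _ = 1 := B1b_zpow_mul_neg n
  have h4 := L.hold_s (lam ^ n * u) _ _ (r - n) h3 (by linarith)
  rw [h1, h2] at h4
  have h5 : L.g u s r - n - (L.g u s' r - n) = L.g u s r - L.g u s' r := by ring
  rwa [h5] at h4

theorem hold_u_scaled (n : ℤ) (u u' s r : ℝ) (hu : |u - u'| ≤ lam ^ (-n)) (hr : r ≤ (n : ℝ)) :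
    |L.g u s r - L.g u' s r| ≤ L.C * lam ^ (-((n - r) / 2) : ℝ) := by
  have h1 := L.g_scale n u s (r - n)
  have h2 := L.g_scale n u' s (r - n)
  rw [sub_add_cancel] at h1 h2
  have h3 : |lam ^ n * u - lam ^ n * u'| ≤ 1 := by
    rw [← mul_sub, abs_mul, abs_of_pos (zpow_pos lam_pos _)]
    calc lam ^ n * |u - u'| ≤ lam ^ n * lam ^ (-n) :=
          mul_le_mul_of_nonneg_left hu (zpow_pos lam_pos _).le
      _ = 1 := by rw [mul_comm]; exact B1b_zpow_mul_neg n
  have h4 := L.hold_u _ _ (lam ^ (-n) * s) (r - n) h3 (by linarith)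
  rw [h1, h2] at h4
  have h5 : L.g u s r - n - (L.g u' s r - n) = L.g u s r - L.g u' s r := by ring
  have h6 : (r - n) / 2 = -((n - r) / 2) := by ring
  rwa [h5, h6] at h4

theorem B1b_C_pos : 0 < L.C := lt_of_lt_of_le one_pos L.one_le_C

/-- inverse Lipschitz bound -/
theorem B1b_lower (u s r r' : ℝ) : |r - r'| ≤ 3 * |L.g u s r - L.g u s r'| := by
  rcases le_total r r' with h | h
  · have h1 := L.lower u s r r' h
    rw [abs_sub_comm, abs_of_nonneg (by linarith : (0:ℝ) ≤ r' - r), abs_sub_comm (L.g u s r)]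
    have h2 := le_abs_self (L.g u s r' - L.g u s r)
    linarith
  · have h1 := L.lower u s r' r h
    rw [abs_of_nonneg (by linarith : (0:ℝ) ≤ r - r')]
    have h2 := le_abs_self (L.g u s r - L.g u s r')
    linarith

theorem B1b_upper (u s r r' : ℝ) : |L.g u s r - L.g u s r'| ≤ 2 * |r - r'| := by
  rcases le_total r r' with h | h
  · have h1 := L.upper u s r r' h
    have h3 := (L.g_strictMono u s).monotone h
    rw [abs_sub_comm, abs_of_nonneg (by linarith), abs_sub_comm r,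
      abs_of_nonneg (by linarith : (0:ℝ) ≤ r' - r)]
    exact h1
  · have h1 := L.upper u s r' r h
    have h3 := (L.g_strictMono u s).monotone h
    rw [abs_of_nonneg (by linarith), abs_of_nonneg (by linarith : (0:ℝ) ≤ r - r')]
    exact h1

/-- Shadowing in the stable direction: the orbits over `(u,s)` and `(u,s')` with the same endpoint
at time `m` are exponentially close in the forward direction. -/
theorem shadow_s (m : ℕ) (u s s' r : ℝ) (hs : |s - s'| ≤ 1) (hr : 0 ≤ r) :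
    ∃ w : ℝ, L.it m u s' w = L.it m u s r ∧
      ∀ t ≤ m, |L.it t u s' w - L.it t u s r| ≤ 6 * L.C * qq ^ t := by
  obtain ⟨w, hw⟩ := L.it_surjective m u s' (L.it m u s r)
  refine ⟨w, hw, ?_⟩
  have hC := L.B1b_C_pos
  have hq := qq_pos
  have hq2 := qq_lt
  have key : ∀ j, ∀ t, t + j = m → |L.it t u s' w - L.it t u s r| ≤ 6 * L.C * qq ^ t := by
    intro j
    induction j with
    | zero =>
      intro t ht
      rw [add_zero] at ht
      rw [ht, hw, sub_self, abs_zero]
      positivity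
    | succ j ih =>
      intro t ht
      have h1 := ih (t + 1) (by omega)
      rw [L.it_succ, L.it_succ] at h1
      have hrt : (9 / 10) * (t : ℝ) ≤ L.it t u s r := by
        have := L.it_ge t u s r
        linarith
      have hrt0 : 0 ≤ L.it t u s r := le_trans (by positivity) hrt
      have h2 : |L.g u s (L.it t u s r) - L.g u s' (L.it t u s r)| ≤ L.C * qq ^ t := by
        refine (L.hold_s u s s' _ hs hrt0).trans ?_
        refine mul_le_mul_of_nonneg_left ?_ hC.le
        rw [B1b_qq_pow]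
        apply B1b_rpow_le
        linarith
      have h3 := L.B1b_lower u s' (L.it t u s' w) (L.it t u s r)
      have h4 : |L.g u s' (L.it t u s' w) - L.g u s' (L.it t u s r)| ≤
          6 * L.C * qq ^ (t + 1) + L.C * qq ^ t := by
        calc |L.g u s' (L.it t u s' w) - L.g u s' (L.it t u s r)|
            = |(L.g u s' (L.it t u s' w) - L.g u s (L.it t u s r)) +
                (L.g u s (L.it t u s r) - L.g u s' (L.it t u s r))| := by
              congr 1
              ring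
          _ ≤ _ := (abs_add_le _ _).trans (add_le_add h1 h2)
      have h5 : 0 < L.C * qq ^ t := by positivity
      have h6 : 6 * L.C * qq ^ (t + 1) = 6 * qq * (L.C * qq ^ t) := by
        rw [pow_succ]
        ring
      have h7 : 6 * qq * (L.C * qq ^ t) ≤ 1 * (L.C * qq ^ t) :=
        mul_le_mul_of_nonneg_right (by linarith) h5.le
      rw [h6] at h4
      have h8 : 6 * L.C * qq ^ t = 6 * (L.C * qq ^ t) := by ring
      rw [h8]
      linarith
  intro t ht
  exact key (m - t) t (by omega)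

/-- Shadowing in the unstable direction: orbits over `(u,s)` and `(u',s)` with the same starting
height `r` are exponentially close backwards from the time `m` at which the height `n + a` is
reached, if `|u - u'| ≤ lam^(-n)`. -/
theorem shadow_u (m : ℕ) (n : ℤ) (a u u' s r : ℝ) (ha : 0 ≤ a) (hu : |u - u'| ≤ lam ^ (-n))
    (hm : L.it m u s r ≤ n + a) :
    ∀ t ≤ m, |L.it t u' s r - L.it t u s r| ≤ L.C * lam ^ (a / 2 : ℝ) * qq ^ (m - t) := by
  have hC := L.B1b_C_pos
  have hC1 := L.one_le_C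
  have hq := qq_pos
  have hq2 := qq_lt
  have hla : (0 : ℝ) < lam ^ (a / 2 : ℝ) := Real.rpow_pos_of_pos lam_pos _
  -- the error of one step
  have heps : ∀ t ≤ m, |L.g u' s (L.it t u s r) - L.g u s (L.it t u s r)| ≤
      L.C * lam ^ (a / 2 : ℝ) * qq ^ (m - t) := by
    intro t ht
    have hrt : L.it t u s r + (9 / 10) * ((m : ℝ) - t) ≤ n + a := by
      have h1 := L.it_ge (m - t) u s (L.it t u s r)
      rw [← L.it_add, Nat.add_sub_cancel' ht, Nat.cast_sub ht] at h1
      linarith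
    have hprod : lam ^ (a / 2 : ℝ) * qq ^ (m - t) =
        lam ^ (a / 2 - (9 / 20) * ((m : ℝ) - t) : ℝ) := by
      rw [B1b_qq_pow, ← Real.rpow_add lam_pos, Nat.cast_sub ht]
      congr 1
      ring
    rw [mul_assoc, hprod]
    rcases le_or_gt (L.it t u s r) (n : ℝ) with h | h
    · rw [abs_sub_comm]
      refine (L.hold_u_scaled n u u' s _ hu h).trans ?_
      refine mul_le_mul_of_nonneg_left ?_ hC.le
      apply B1b_rpow_le
      linarith
    · have h1 : (1 : ℝ) ≤ lam ^ (a / 2 - (9 / 20) * ((m : ℝ) - t) : ℝ) :=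
        Real.one_le_rpow B1b_one_lt_lam.le (by linarith)
      have h2 := abs_le.1 (L.near u' s (L.it t u s r))
      have h3 := abs_le.1 (L.near u s (L.it t u s r))
      have h4 : |L.g u' s (L.it t u s r) - L.g u s (L.it t u s r)| ≤ 1 := by
        rw [abs_le]
        constructor <;> linarith [h2.1, h2.2, h3.1, h3.2]
      refine h4.trans ?_
      nlinarith
  intro t
  induction t with
  | zero =>
    intro _
    rw [L.it_zero, L.it_zero, sub_self, abs_zero]
    positivity
  | succ t ih =>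
    intro ht
    have h1 := ih (by omega)
    have h2 := heps t (by omega)
    rw [L.it_succ, L.it_succ]
    have h3 := L.B1b_upper u' s (L.it t u' s r) (L.it t u s r)
    have h4 : |L.g u' s (L.it t u' s r) - L.g u s (L.it t u s r)| ≤
        3 * (L.C * lam ^ (a / 2 : ℝ) * qq ^ (m - t)) := by
      calc |L.g u' s (L.it t u' s r) - L.g u s (L.it t u s r)|
          = |(L.g u' s (L.it t u' s r) - L.g u' s (L.it t u s r)) +
              (L.g u' s (L.it t u s r) - L.g u s (L.it t u s r))| := by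
            congr 1
            ring
        _ ≤ |L.g u' s (L.it t u' s r) - L.g u' s (L.it t u s r)| +
              |L.g u' s (L.it t u s r) - L.g u s (L.it t u s r)| := abs_add_le _ _
        _ ≤ _ := by linarith
    refine h4.trans ?_
    have h5 : m - t = (m - (t + 1)) + 1 := by omega
    rw [h5, pow_succ]
    have h6 : 0 < L.C * lam ^ (a / 2 : ℝ) * qq ^ (m - (t + 1)) := by positivity
    have h7 : 3 * (L.C * lam ^ (a / 2 : ℝ) * (qq ^ (m - (t + 1)) * qq)) =
        (3 * qq) * (L.C * lam ^ (a / 2 : ℝ) * qq ^ (m - (t + 1))) := by ring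
    rw [h7]
    have h8 : (3 * qq) * (L.C * lam ^ (a / 2 : ℝ) * qq ^ (m - (t + 1))) ≤
        1 * (L.C * lam ^ (a / 2 : ℝ) * qq ^ (m - (t + 1))) :=
      mul_le_mul_of_nonneg_right (by linarith) h6.le
    linarith

/-! ### Consequences at bounded scale -/

theorem it_close_s (m : ℕ) (u s s' r : ℝ) (hs : |s - s'| ≤ 1) (hr : 0 ≤ r) :
    |L.it m u s' r - L.it m u s r| ≤ 12 * L.C + 2 := by
  obtain ⟨w, hw, h⟩ := L.shadow_s m u s s' r hs hr
  have h0 := h 0 (Nat.zero_le _)
  rw [L.it_zero, L.it_zero, pow_zero, mul_one] at h0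
  have h1 := L.it_near m u s' r w
  rw [hw] at h1
  rw [abs_sub_comm] at h0
  linarith

theorem X_ge (m : ℕ) (u s : ℝ) : (9 / 10) * m ≤ L.X m u s := by
  rw [X_eq_it]
  have := L.it_ge m u s 0
  linarith

theorem X_le (m : ℕ) (u s : ℝ) : L.X m u s ≤ (11 / 10) * m := by
  rw [X_eq_it]
  have := L.it_le m u s 0
  linarith

theorem X_nonneg (m : ℕ) (u s : ℝ) : 0 ≤ L.X m u s :=
  le_trans (by positivity) (L.X_ge m u s)

/-- `X_{m+m'} ≥ X_m + 0.9 m'`. -/
theorem X_add_ge (m m' : ℕ) (u s : ℝ) : L.X m u s + (9 / 10) * m' ≤ L.X (m + m') u s := by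
  rw [X_eq_it, X_eq_it, it_add]
  exact L.it_ge m' u s _

theorem X_per (m : ℕ) (a b : ℤ) (u s : ℝ) :
    L.X m (u + (a + b * lam)) (s + (a + b * lam⁻¹)) = L.X m u s := by
  rw [X_eq_it, X_eq_it]
  exact L.it_per m a b u s 0

theorem X_scale (m : ℕ) (k : ℤ) (u s : ℝ) :
    |L.X m (lam ^ k * u) (lam ^ (-k) * s) - L.X m u s| ≤ 3 * |(k : ℝ)| + 2 := by
  rw [X_eq_it, X_eq_it, L.it_scale m k u s 0, zero_add]
  have h1 := L.it_near m u s (k : ℝ) 0
  rw [sub_zero] at h1
  calc |L.it m u s (k : ℝ) - k - L.it m u s 0|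
      = |(L.it m u s (k : ℝ) - L.it m u s 0) + (-(k : ℝ))| := by
        congr 1
        ring
    _ ≤ |L.it m u s (k : ℝ) - L.it m u s 0| + |(-(k : ℝ))| := abs_add_le _ _
    _ ≤ _ := by
        rw [abs_neg]
        linarith

/-- Block decomposition: if `X_m ≈ n` then `X_{m+m'}(z) ≈ n + X_{m'}(A^n z)`. -/
theorem X_block (m m' : ℕ) (n : ℤ) (u s : ℝ) :
    |L.X (m + m') u s - n - L.X m' (lam ^ n * u) (lam ^ (-n) * s)| ≤
      2 * |L.X m u s - n| + 2 := by
  have h1 : L.X (m + m') u s - n =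
      L.it m' (lam ^ n * u) (lam ^ (-n) * s) (L.X m u s - n) := by
    rw [L.it_scale m' n u s, sub_add_cancel, X_eq_it, L.it_add, X_eq_it]
  rw [h1, X_eq_it L m']
  have h2 := L.it_near m' (lam ^ n * u) (lam ^ (-n) * s) (L.X m u s - n) 0
  rw [sub_zero] at h2
  exact h2

theorem X_close_s (m : ℕ) (u s s' : ℝ) (hs : |s - s'| ≤ 1) :
    |L.X m u s' - L.X m u s| ≤ 12 * L.C + 2 := by
  rw [X_eq_it, X_eq_it]
  exact L.it_close_s m u s s' 0 hs le_rfl

theorem X_close_u (m : ℕ) (n : ℤ) (k : ℕ) (u u' s : ℝ) (hX : L.X m u s ≤ n + 2)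
    (hu : |u - u'| ≤ lam ^ (-n) * lam ^ k) :
    |L.X m u' s - L.X m u s| ≤ L.C * lam ^ (k + 1) := by
  rw [X_eq_it] at hX
  rw [X_eq_it, X_eq_it]
  have h1 : lam ^ (-n) * lam ^ k = lam ^ (-(n - (k : ℤ))) := by
    rw [← zpow_natCast, ← zpow_add₀ lam_ne_zero]
    congr 1
    ring
  rw [h1] at hu
  have h2 := L.shadow_u m (n - (k : ℤ)) ((k : ℝ) + 2) u u' s 0 (by positivity) hu
    (by push_cast; linarith) m le_rfl
  rw [Nat.sub_self, pow_zero, mul_one] at h2
  refine h2.trans (mul_le_mul_of_nonneg_left ?_ L.B1b_C_pos.le)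
  rw [← Real.rpow_natCast lam (k + 1)]
  apply B1b_rpow_le
  push_cast
  have : (0 : ℝ) ≤ k := Nat.cast_nonneg k
  linarith

end LeafSystem

end

end MPd1f192

end PartB1b

section PartB2a

/-! # B2a. The length function: comparison of different base points -/

open MeasureTheory Set Filter Topology

namespace MPd1f192

noncomputable section

namespace LeafSystem

variable (L : LeafSystem)

theorem continuous_X (m : ℕ) (u s : ℝ) : Continuous fun t : ℝ => L.X m (u + t) s := by
  have h := L.continuous_it m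
  have h1 : Continuous (fun t : ℝ => ((u + t, s, 0) : P)) := by fun_prop
  exact h.comp h1

theorem continuous_lamX (m : ℕ) (u s : ℝ) :
    Continuous fun t : ℝ => lam ^ (L.X m (u + t) s : ℝ) :=
  Continuous.rpow continuous_const (L.continuous_X m u s) (fun _ => Or.inl lam_ne_zero)

theorem intervalIntegrable_lamX (m : ℕ) (u s a b : ℝ) :
    IntervalIntegrable (fun t : ℝ => lam ^ (L.X m (u + t) s : ℝ)) volume a b :=
  (L.continuous_lamX m u s).intervalIntegrable a b

theorem B2a_one_le_lam : 1 ≤ lam := by linarith [lam_gt]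

/-- Lower exponential bound. -/
theorem len_ge (m : ℕ) (u s : ℝ) : lam ^ ((9 / 10 : ℝ) * m) ≤ L.len m u s := by
  have h1 : ∫ _t in (0 : ℝ)..1, lam ^ ((9 / 10 : ℝ) * m) = lam ^ ((9 / 10 : ℝ) * m) := by simp
  rw [← h1]
  unfold len
  refine intervalIntegral.integral_mono_on zero_le_one (by simp) (L.intervalIntegrable_lamX m u s 0 1) ?_
  intro t _
  exact Real.rpow_le_rpow_of_exponent_le B2a_one_le_lam (L.X_ge m (u + t) s)

theorem len_pos (m : ℕ) (u s : ℝ) : 0 < L.len m u s :=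
  lt_of_lt_of_le (Real.rpow_pos_of_pos lam_pos _) (L.len_ge m u s)

theorem len_zero (u s : ℝ) : L.len 0 u s = 1 := by
  unfold len
  have h : ∀ t : ℝ, lam ^ (L.X 0 (u + t) s : ℝ) = 1 := by
    intro t
    have : L.X 0 (u + t) s = 0 := rfl
    rw [this, Real.rpow_zero]
  simp [h]

/-- All unit segments grow in the same way. -/
theorem len_compare : ∃ D : ℝ, 1 ≤ D ∧ ∀ (m : ℕ) (u s u' s' : ℝ),
    L.len m u s ≤ D * L.len m u' s' := by
  have hC : 1 ≤ L.C := L.one_le_C
  have hlam := lam_gt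
  have hl1 : 1 ≤ lam := B2a_one_le_lam
  refine ⟨lam ^ (12 * L.C + 10 : ℝ) * lam ^ 2, ?_, ?_⟩
  · refine one_le_mul_of_one_le_of_one_le (Real.one_le_rpow hl1 (by linarith)) (one_le_pow₀ hl1)
  · intro m u s u' s'
    obtain ⟨a, b, h1, h2, h3, h4⟩ := covering (lam ^ (2 : ℤ) * u') (lam ^ (-2 : ℤ) * s') u s
    set bu := u + (a + b * lam) - lam ^ (2 : ℤ) * u' with hbu
    set bs := s + (a + b * lam⁻¹) - lam ^ (-2 : ℤ) * s' with hbs
    have hpos2 : 0 < lam ^ 2 := pow_pos lam_pos 2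
    have hz2 : lam ^ (2 : ℤ) = lam ^ 2 := by norm_cast
    -- pointwise comparison
    have hpt : ∀ t : ℝ, L.X m (u + t) s
        ≤ L.X m (u' + ((lam ^ 2)⁻¹ * t + bu * (lam ^ 2)⁻¹)) s' + (12 * L.C + 10) := by
      intro t
      have e1 : L.X m (u + t) s = L.X m ((u + t) + (a + b * lam)) (s + (a + b * lam⁻¹)) :=
        (L.X_per m a b (u + t) s).symm
      have e2 : (u + t) + (a + b * lam) = lam ^ (2 : ℤ) * (u' + ((lam ^ 2)⁻¹ * t + bu * (lam ^ 2)⁻¹)) := by
        rw [hbu, hz2]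
        field_simp
        ring
      have e3 : s + (a + b * lam⁻¹) = lam ^ (-2 : ℤ) * s' + bs := by rw [hbs]; ring
      rw [e1, e2, e3]
      have h5 := L.X_close_s m (lam ^ (2 : ℤ) * (u' + ((lam ^ 2)⁻¹ * t + bu * (lam ^ 2)⁻¹)))
        (lam ^ (-2 : ℤ) * s') (lam ^ (-2 : ℤ) * s' + bs) (by
          rw [show lam ^ (-2 : ℤ) * s' - (lam ^ (-2 : ℤ) * s' + bs) = -bs by ring, abs_neg, abs_of_nonneg h3]
          exact h4.le)
      have h6 := L.X_scale m 2 (u' + ((lam ^ 2)⁻¹ * t + bu * (lam ^ 2)⁻¹)) s'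
      have h7 := (le_abs_self _).trans h5
      have h8 := (le_abs_self _).trans h6
      norm_num at h8
      norm_num at h7 ⊢
      linarith
    have hint : L.len m u s ≤ ∫ t in (0 : ℝ)..1, lam ^ (12 * L.C + 10 : ℝ)
        * lam ^ (L.X m (u' + ((lam ^ 2)⁻¹ * t + bu * (lam ^ 2)⁻¹)) s' : ℝ) := by
      unfold len
      have hcont : Continuous (fun t : ℝ => lam ^ (12 * L.C + 10 : ℝ)
        * lam ^ (L.X m (u' + ((lam ^ 2)⁻¹ * t + bu * (lam ^ 2)⁻¹)) s' : ℝ)) := by
        have hc1 := (L.continuous_lamX m u' s').comp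
          (by fun_prop : Continuous (fun t : ℝ => (lam ^ 2)⁻¹ * t + bu * (lam ^ 2)⁻¹))
        exact continuous_const.mul hc1
      refine intervalIntegral.integral_mono_on zero_le_one (L.intervalIntegrable_lamX m u s 0 1)
        (hcont.intervalIntegrable 0 1) ?_
      intro t _
      rw [← Real.rpow_add lam_pos]
      refine Real.rpow_le_rpow_of_exponent_le hl1 ?_
      have := hpt t
      linarith
    refine hint.trans ?_
    rw [intervalIntegral.integral_const_mul, mul_assoc]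
    refine mul_le_mul_of_nonneg_left ?_ (Real.rpow_nonneg lam_pos.le _)
    have hsub := intervalIntegral.integral_comp_mul_add (a := (0 : ℝ)) (b := 1)
      (fun τ : ℝ => lam ^ (L.X m (u' + τ) s' : ℝ)) (inv_ne_zero hpos2.ne') (bu * (lam ^ 2)⁻¹)
    rw [hsub, inv_inv, smul_eq_mul]
    refine mul_le_mul_of_nonneg_left ?_ hpos2.le
    unfold len
    have hl2 : lam + 1 ≤ lam ^ 2 := by nlinarith
    refine intervalIntegral.integral_mono_interval ?_ ?_ ?_ ?_ (L.intervalIntegrable_lamX m u' s' 0 1)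
    · have : 0 ≤ bu * (lam ^ 2)⁻¹ := mul_nonneg h1 (inv_nonneg.2 hpos2.le)
      linarith
    · have : 0 ≤ (lam ^ 2)⁻¹ := inv_nonneg.2 hpos2.le
      linarith
    · have : (lam ^ 2)⁻¹ * 1 + bu * (lam ^ 2)⁻¹ = (1 + bu) / lam ^ 2 := by rw [div_eq_mul_inv]; ring
      rw [this, div_le_one hpos2]
      linarith
    · exact Filter.Eventually.of_forall fun t => Real.rpow_nonneg lam_pos.le _

/-- Segments of length `b` are comparable with unit segments (upper bound). -/
theorem int_nat_le (b : ℕ) : ∃ D : ℝ, 1 ≤ D ∧ ∀ (m : ℕ) (u s u' s' : ℝ),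
    ∫ t in (0 : ℝ)..b, lam ^ (L.X m (u + t) s : ℝ) ≤ D * L.len m u' s' := by
  obtain ⟨D0, hD0, h0⟩ := L.len_compare
  induction b with
  | zero =>
    refine ⟨1, le_rfl, fun m u s u' s' => ?_⟩
    simp only [Nat.cast_zero, intervalIntegral.integral_same, one_mul]
    exact (L.len_pos m u' s').le
  | succ b ih =>
    obtain ⟨D, hD, h⟩ := ih
    refine ⟨D + D0, by linarith, fun m u s u' s' => ?_⟩
    rw [← intervalIntegral.integral_add_adjacent_intervals (L.intervalIntegrable_lamX m u s 0 b)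
      (L.intervalIntegrable_lamX m u s b (b + 1 : ℕ)), add_mul]
    refine add_le_add (h m u s u' s') ?_
    have h1 : ∫ t in (b : ℝ)..((b + 1 : ℕ) : ℝ), lam ^ (L.X m (u + t) s : ℝ) = L.len m (u + b) s := by
      unfold len
      have := intervalIntegral.integral_comp_add_right (a := (0 : ℝ)) (b := 1)
        (fun t : ℝ => lam ^ (L.X m (u + t) s : ℝ)) (b : ℝ)
      rw [show (0 : ℝ) + b = b by ring, show (1 : ℝ) + b = ((b + 1 : ℕ) : ℝ) by push_cast; ring] at this
      rw [← this]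
      congr 1
      funext t
      congr 2
      ring
    rw [h1]
    exact h0 m _ _ _ _

/-- Segments of length `1/2` are comparable with unit segments (lower bound). -/
theorem le_int_half : ∃ D : ℝ, 1 ≤ D ∧ ∀ (m : ℕ) (u s u' s' : ℝ),
    L.len m u' s' ≤ D * ∫ t in (0 : ℝ)..(1 / 2), lam ^ (L.X m (u + t) s : ℝ) := by
  obtain ⟨D0, hD0, h0⟩ := L.len_compare
  have hl1 : 1 ≤ lam := B2a_one_le_lam
  have hlam := lam_gt
  refine ⟨D0 * (lam ^ (5 : ℝ) * lam), ?_, ?_⟩
  · refine one_le_mul_of_one_le_of_one_le hD0 (one_le_mul_of_one_le_of_one_le (Real.one_le_rpow hl1 (by norm_num)) hl1)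
  · intro m u s u' s'
    have h1 : L.len m u' s' ≤ D0 * L.len m (lam ^ (1 : ℤ) * u) (lam ^ (-1 : ℤ) * s) := h0 m _ _ _ _
    refine h1.trans ?_
    rw [mul_assoc]
    refine mul_le_mul_of_nonneg_left ?_ (by linarith)
    -- scale
    have h2 : L.len m (lam ^ (1 : ℤ) * u) (lam ^ (-1 : ℤ) * s)
        ≤ ∫ t in (0 : ℝ)..1, lam ^ (5 : ℝ) * lam ^ (L.X m (u + (lam⁻¹ * t + 0)) s : ℝ) := by
      unfold len
      have hcont : Continuous (fun t : ℝ => lam ^ (5 : ℝ) * lam ^ (L.X m (u + (lam⁻¹ * t + 0)) s : ℝ)) := by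
        have hc1 := (L.continuous_lamX m u s).comp
          (by fun_prop : Continuous (fun t : ℝ => lam⁻¹ * t + 0))
        exact continuous_const.mul hc1
      refine intervalIntegral.integral_mono_on zero_le_one (L.intervalIntegrable_lamX m _ _ 0 1)
        (hcont.intervalIntegrable 0 1) ?_
      intro t _
      rw [← Real.rpow_add lam_pos]
      refine Real.rpow_le_rpow_of_exponent_le hl1 ?_
      have h3 := L.X_scale m 1 (u + (lam⁻¹ * t + 0)) s
      have h4 := (le_abs_self _).trans h3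
      have h5 : lam ^ (1 : ℤ) * (u + (lam⁻¹ * t + 0)) = lam ^ (1 : ℤ) * u + t := by
        rw [zpow_one]
        field_simp [lam_ne_zero]
        ring
      rw [h5] at h4
      norm_num at h4 ⊢
      linarith
    refine h2.trans ?_
    rw [intervalIntegral.integral_const_mul, mul_assoc]
    refine mul_le_mul_of_nonneg_left ?_ (Real.rpow_nonneg lam_pos.le _)
    have hsub := intervalIntegral.integral_comp_mul_add (a := (0 : ℝ)) (b := 1)
      (fun τ : ℝ => lam ^ (L.X m (u + τ) s : ℝ)) (inv_ne_zero lam_ne_zero) 0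
    rw [hsub, inv_inv, smul_eq_mul]
    refine mul_le_mul_of_nonneg_left ?_ lam_pos.le
    refine intervalIntegral.integral_mono_interval ?_ ?_ ?_ ?_ (L.intervalIntegrable_lamX m u s 0 (1 / 2))
    · simp
    · have : 0 < lam⁻¹ := inv_pos.2 lam_pos
      linarith
    · have : lam⁻¹ ≤ 1 / 2 := by
        rw [inv_le_comm₀ lam_pos (by norm_num)]
        norm_num
        linarith
      linarith
    · exact Filter.Eventually.of_forall fun t => Real.rpow_nonneg lam_pos.le _

end LeafSystem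

end

end MPd1f192

end PartB2a

section PartB2b

/-! # B2b. Greedy partitions -/

open MeasureTheory Set Filter Topology

namespace MPd1f192

noncomputable section

namespace LeafSystem

variable (L : LeafSystem)

/-- Block number of the point `(u,s)` at time `m`. -/
def blk (m : ℕ) (u s : ℝ) : ℕ := ⌊L.X m u s⌋₊

/-- Greedy sequence at time `m` of the segment starting at `(u,s)`: `gr 0 = 0`,
`gr (j+1) = gr j + lam^(-n_j)`, `n_j = ⌊X_m(u + gr j, s)⌋`. -/
def gr (m : ℕ) (u s : ℝ) : ℕ → ℝ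
  | 0 => 0
  | j + 1 => gr m u s j + lam ^ (-(L.blk m (u + gr m u s j) s : ℤ))

/-- Block number `n_j` of the `j`-th greedy interval. -/
def gb (m : ℕ) (u s : ℝ) (j : ℕ) : ℕ := L.blk m (u + L.gr m u s j) s

theorem gr_zero (m : ℕ) (u s : ℝ) : L.gr m u s 0 = 0 := rfl

theorem gr_succ (m : ℕ) (u s : ℝ) (j : ℕ) :
    L.gr m u s (j + 1) = L.gr m u s j + lam ^ (-(L.gb m u s j : ℤ)) := rfl

theorem blk_le (m : ℕ) (u s : ℝ) : (L.blk m u s : ℝ) ≤ L.X m u s :=
  Nat.floor_le (L.X_nonneg m u s)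

theorem lt_blk (m : ℕ) (u s : ℝ) : L.X m u s < L.blk m u s + 1 :=
  Nat.lt_floor_add_one _

theorem gr_strictMono (m : ℕ) (u s : ℝ) : StrictMono (L.gr m u s) := by
  refine strictMono_nat_of_lt_succ (fun j => ?_)
  rw [gr_succ]
  have : 0 < lam ^ (-(L.gb m u s j : ℤ)) := zpow_pos lam_pos _
  linarith

theorem gr_nonneg (m : ℕ) (u s : ℝ) (j : ℕ) : 0 ≤ L.gr m u s j := by
  have h := (L.gr_strictMono m u s).monotone (Nat.zero_le j)
  rwa [gr_zero] at h

theorem B2b_one_le : (1 : ℝ) ≤ lam := by linarith [lam_gt]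

theorem gr_step_le (m : ℕ) (u s : ℝ) (j : ℕ) : L.gr m u s (j + 1) ≤ L.gr m u s j + 1 := by
  rw [gr_succ]
  have : lam ^ (-(L.gb m u s j : ℤ)) ≤ 1 :=
    zpow_le_one_of_nonpos₀ B2b_one_le (by simp)
  linarith

theorem gr_unbounded (m : ℕ) (u s b : ℝ) : ∃ j, b ≤ L.gr m u s j := by
  have hgb : ∀ j, L.gb m u s j ≤ 2 * m := by
    intro j
    have h1 := L.blk_le m (u + L.gr m u s j) s
    have h2 := L.X_le m (u + L.gr m u s j) s
    have h3 : (L.gb m u s j : ℝ) ≤ 2 * m := by
      unfold gb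
      have : (0 : ℝ) ≤ m := Nat.cast_nonneg m
      linarith
    exact_mod_cast h3
  have hstep : ∀ j : ℕ, (j : ℝ) * lam ^ (-(2 * m : ℤ)) ≤ L.gr m u s j := by
    intro j
    induction j with
    | zero => simp [gr_zero]
    | succ j ih =>
      rw [gr_succ]
      have h1 : lam ^ (-(2 * m : ℤ)) ≤ lam ^ (-(L.gb m u s j : ℤ)) := by
        refine zpow_le_zpow_right₀ B2b_one_le ?_
        have := hgb j
        omega
      push_cast
      linarith
  have hpos : 0 < lam ^ (-(2 * m : ℤ)) := zpow_pos lam_pos _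
  obtain ⟨j, hj⟩ := exists_nat_ge (b / lam ^ (-(2 * m : ℤ)))
  refine ⟨j, le_trans ?_ (hstep j)⟩
  rwa [div_le_iff₀ hpos] at hj

/-- On the `j`-th greedy interval the height at time `m` is `n_j` up to a constant. -/
theorem gr_block (m : ℕ) (u s : ℝ) (j : ℕ) (t : ℝ) (h1 : L.gr m u s j ≤ t)
    (h2 : t ≤ L.gr m u s (j + 1)) : |L.X m (u + t) s - L.gb m u s j| ≤ L.C * lam + 1 := by
  have hb1 := L.blk_le m (u + L.gr m u s j) s
  have hb2 := L.lt_blk m (u + L.gr m u s j) s
  have hX : L.X m (u + L.gr m u s j) s ≤ ((L.gb m u s j : ℤ) : ℝ) + 2 := by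
    unfold gb
    push_cast
    linarith
  have hu : |(u + L.gr m u s j) - (u + t)| ≤ lam ^ (-(L.gb m u s j : ℤ)) * lam ^ (0 : ℕ) := by
    rw [gr_succ] at h2
    rw [pow_zero, mul_one, abs_le]
    have : 0 < lam ^ (-(L.gb m u s j : ℤ)) := zpow_pos lam_pos _
    constructor <;> linarith
  have h3 := L.X_close_u m (L.gb m u s j : ℤ) 0 (u + L.gr m u s j) (u + t) s hX hu
  rw [zero_add, pow_one] at h3
  have h4 := abs_le.1 h3
  rw [abs_le]
  unfold gb at h4 ⊢
  constructor <;> linarith [h4.1, h4.2]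

/-- Each greedy interval grows like a unit segment after time `m`. -/
theorem block_int : ∃ D : ℝ, 1 ≤ D ∧ ∀ (m m' : ℕ) (u s : ℝ) (j : ℕ) (u' s' : ℝ),
    L.len m' u' s' ≤
      D * ∫ t in (L.gr m u s j)..(L.gr m u s (j + 1)), lam ^ (L.X (m + m') (u + t) s : ℝ) ∧
    ∫ t in (L.gr m u s j)..(L.gr m u s (j + 1)), lam ^ (L.X (m + m') (u + t) s : ℝ) ≤
      D * L.len m' u' s' := by
  obtain ⟨D0, hD0, hcmp⟩ := L.len_compare
  set e : ℝ := 2 * (L.C * lam + 1) + 2 with he
  have he0 : 0 ≤ e := by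
    have := L.one_le_C
    have := lam_pos
    rw [he]
    positivity
  have hE : (1 : ℝ) ≤ lam ^ (e : ℝ) := Real.one_le_rpow B2b_one_le he0
  have hE0 : (0 : ℝ) < lam ^ (e : ℝ) := by linarith
  refine ⟨D0 * lam ^ (e : ℝ), by nlinarith, ?_⟩
  intro m m' u s j u' s'
  set n : ℤ := (L.gb m u s j : ℤ) with hn
  set l : ℝ := lam ^ (-n) with hl
  have hl0 : 0 < l := zpow_pos lam_pos _
  set u1 : ℝ := lam ^ n * (u + L.gr m u s j) with hu1
  set s1 : ℝ := lam ^ (-n) * s with hs1
  have hll : lam ^ n * l = 1 := by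
    rw [hl, ← zpow_add₀ lam_ne_zero]
    simp
  -- substitution
  have hsub : ∫ t in (L.gr m u s j)..(L.gr m u s (j + 1)), lam ^ (L.X (m + m') (u + t) s : ℝ) =
      ∫ t in (0 : ℝ)..1, l * lam ^ (L.X (m + m') (u + (l * t + L.gr m u s j)) s : ℝ) := by
    have h := intervalIntegral.smul_integral_comp_mul_add (a := (0 : ℝ)) (b := 1)
      (fun t => lam ^ (L.X (m + m') (u + t) s : ℝ)) l (L.gr m u s j)
    rw [intervalIntegral.integral_const_mul, ← smul_eq_mul, h]
    congr 1
    · ring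
    · rw [gr_succ, mul_one, add_comm]
  have hpt : ∀ t ∈ Icc (0 : ℝ) 1,
      |L.X (m + m') (u + (l * t + L.gr m u s j)) s - n - L.X m' (u1 + t) s1| ≤ e := by
    intro t ht
    have h1 := L.X_block m m' n (u + (l * t + L.gr m u s j)) s
    have h2 : lam ^ n * (u + (l * t + L.gr m u s j)) = u1 + t := by
      rw [hu1]
      have : lam ^ n * (u + (l * t + L.gr m u s j)) =
        lam ^ n * (u + L.gr m u s j) + (lam ^ n * l) * t := by ring
      rw [this, hll, one_mul]
    rw [h2] at h1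
    refine h1.trans ?_
    have h3 := L.gr_block m u s j (l * t + L.gr m u s j)
      (by nlinarith [ht.1]) (by
        rw [gr_succ]
        have : l * t ≤ l := by nlinarith [ht.2]
        linarith)
    have h4 : ((n : ℤ) : ℝ) = (L.gb m u s j : ℝ) := by rw [hn]; push_cast; rfl
    rw [h4, he]
    linarith
  have hc1 : Continuous (fun t : ℝ =>
      l * lam ^ (L.X (m + m') (u + (l * t + L.gr m u s j)) s : ℝ)) := by
    have h1 : Continuous (fun t : ℝ => l * t + L.gr m u s j) := by fun_prop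
    exact continuous_const.mul ((L.continuous_lamX (m + m') u s).comp h1)
  have hc2 : Continuous (fun t : ℝ => lam ^ (L.X m' (u1 + t) s1 : ℝ)) :=
    L.continuous_lamX m' u1 s1
  have hlr : l = lam ^ (-(n : ℝ)) := by
    rw [hl, ← Real.rpow_intCast]
    push_cast
    rfl
  have hup : ∫ t in (0 : ℝ)..1, l * lam ^ (L.X (m + m') (u + (l * t + L.gr m u s j)) s : ℝ) ≤
      lam ^ (e : ℝ) * L.len m' u1 s1 := by
    unfold len
    rw [← intervalIntegral.integral_const_mul]
    refine intervalIntegral.integral_mono_on zero_le_one (hc1.intervalIntegrable _ _)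
      ((continuous_const.mul hc2).intervalIntegrable _ _) (fun t ht => ?_)
    have h1 := abs_le.1 (hpt t ht)
    rw [hlr, ← Real.rpow_add lam_pos, ← Real.rpow_add lam_pos]
    refine Real.rpow_le_rpow_of_exponent_le B2b_one_le ?_
    rw [← hlr]
    linarith [h1.2]
  have hlow : L.len m' u1 s1 ≤ lam ^ (e : ℝ) *
      ∫ t in (0 : ℝ)..1, l * lam ^ (L.X (m + m') (u + (l * t + L.gr m u s j)) s : ℝ) := by
    unfold len
    rw [← intervalIntegral.integral_const_mul]
    refine intervalIntegral.integral_mono_on zero_le_one (hc2.intervalIntegrable _ _)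
      ((continuous_const.mul hc1).intervalIntegrable _ _) (fun t ht => ?_)
    have h1 := abs_le.1 (hpt t ht)
    rw [hlr, ← Real.rpow_add lam_pos, ← Real.rpow_add lam_pos]
    refine Real.rpow_le_rpow_of_exponent_le B2b_one_le ?_
    rw [← hlr]
    linarith [h1.1]
  rw [hsub]
  constructor
  · calc L.len m' u' s' ≤ D0 * L.len m' u1 s1 := hcmp _ _ _ _ _
      _ ≤ D0 * (lam ^ (e : ℝ) *
        ∫ t in (0 : ℝ)..1, l * lam ^ (L.X (m + m') (u + (l * t + L.gr m u s j)) s : ℝ)) :=
          mul_le_mul_of_nonneg_left hlow (by linarith)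
      _ = _ := by ring
  · calc _ ≤ lam ^ (e : ℝ) * L.len m' u1 s1 := hup
      _ ≤ lam ^ (e : ℝ) * (D0 * L.len m' u' s') :=
          mul_le_mul_of_nonneg_left (hcmp _ _ _ _ _) hE0.le
      _ = _ := by ring

/-- Number of greedy intervals needed to cover `[0, b]`. -/
def grN (m : ℕ) (u s b : ℝ) : ℕ := sInf {j | b ≤ L.gr m u s j}

theorem le_gr_grN (m : ℕ) (u s b : ℝ) : b ≤ L.gr m u s (L.grN m u s b) := by
  have h : (L.grN m u s b) ∈ {j | b ≤ L.gr m u s j} :=
    Nat.sInf_mem (s := {j | b ≤ L.gr m u s j}) (L.gr_unbounded m u s b)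
  exact h

theorem gr_lt_of_lt_grN (m : ℕ) (u s b : ℝ) (j : ℕ) (hj : j < L.grN m u s b) :
    L.gr m u s j < b := by
  have h := Nat.notMem_of_lt_sInf hj
  simpa using h

theorem gr_grN_le (m : ℕ) (u s b : ℝ) (hb : 0 ≤ b) : L.gr m u s (L.grN m u s b) ≤ b + 1 := by
  rcases Nat.eq_zero_or_pos (L.grN m u s b) with h | h
  · rw [h, gr_zero]
    linarith
  · obtain ⟨k, hk⟩ := Nat.exists_eq_add_of_le' h
    have h1 := L.gr_lt_of_lt_grN m u s b k (by omega)
    have h2 := L.gr_step_le m u s k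
    rw [hk]
    linarith

end LeafSystem

end

end MPd1f192

end PartB2b

section PartB2c

/-! # B2c. Quasi-multiplicativity and the growth rate -/

open MeasureTheory Set Filter Topology

namespace MPd1f192

noncomputable section

namespace LeafSystem

variable (L : LeafSystem)

theorem B2c_nonneg (m : ℕ) (u s t : ℝ) : 0 ≤ lam ^ (L.X m (u + t) s : ℝ) :=
  Real.rpow_nonneg lam_pos.le _

/-- sum over the greedy intervals -/
theorem B2c_sum (m m' : ℕ) (u s : ℝ) (N : ℕ) :
    ∑ j ∈ Finset.range N, ∫ t in (L.gr m u s j)..(L.gr m u s (j + 1)),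
      lam ^ (L.X m' (u + t) s : ℝ) = ∫ t in (0 : ℝ)..(L.gr m u s N), lam ^ (L.X m' (u + t) s : ℝ) := by
  have h := intervalIntegral.sum_integral_adjacent_intervals (μ := volume)
    (f := fun t : ℝ => lam ^ (L.X m' (u + t) s : ℝ)) (a := L.gr m u s) (n := N)
    (fun k _ => L.intervalIntegrable_lamX m' u s _ _)
  rw [L.gr_zero] at h
  exact h

theorem B2c_mono (m : ℕ) (u s : ℝ) {b c : ℝ} (hb : 0 ≤ b) (hbc : b ≤ c) :
    ∫ t in (0 : ℝ)..b, lam ^ (L.X m (u + t) s : ℝ) ≤ ∫ t in (0 : ℝ)..c, lam ^ (L.X m (u + t) s : ℝ) := by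
  refine intervalIntegral.integral_mono_interval le_rfl hb hbc ?_
    (L.intervalIntegrable_lamX m u s _ _)
  exact Filter.Eventually.of_forall (fun t => L.B2c_nonneg m u s t)

theorem grN_le (b : ℕ) : ∃ D : ℝ, 1 ≤ D ∧ ∀ (m : ℕ) (u s u' s' : ℝ),
    (L.grN m u s b : ℝ) ≤ D * L.len m u' s' := by
  obtain ⟨D1, hD1, h1⟩ := L.block_int
  obtain ⟨D2, hD2, h2⟩ := L.int_nat_le (b + 1)
  refine ⟨D1 * D2, by nlinarith, ?_⟩
  intro m u s u' s'
  set N := L.grN m u s b with hN
  have hsum : (N : ℝ) ≤ ∑ j ∈ Finset.range N,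
      D1 * ∫ t in (L.gr m u s j)..(L.gr m u s (j + 1)), lam ^ (L.X m (u + t) s : ℝ) := by
    have : (N : ℝ) = ∑ _j ∈ Finset.range N, (1 : ℝ) := by simp
    rw [this]
    refine Finset.sum_le_sum (fun j _ => ?_)
    have := (h1 m 0 u s j 0 0).1
    rw [L.len_zero] at this
    exact this
  rw [← Finset.mul_sum, L.B2c_sum] at hsum
  have h3 : ∫ t in (0 : ℝ)..(L.gr m u s N), lam ^ (L.X m (u + t) s : ℝ)
      ≤ ∫ t in (0 : ℝ)..((b + 1 : ℕ) : ℝ), lam ^ (L.X m (u + t) s : ℝ) := by
    refine L.B2c_mono m u s (L.gr_nonneg _ _ _ _) ?_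
    push_cast
    exact L.gr_grN_le m u s b (Nat.cast_nonneg b)
  have h4 := h2 m u s u' s'
  calc (N : ℝ) ≤ D1 * ∫ t in (0 : ℝ)..(L.gr m u s N), lam ^ (L.X m (u + t) s : ℝ) := hsum
    _ ≤ D1 * (D2 * L.len m u' s') := by
      apply mul_le_mul_of_nonneg_left (h3.trans h4) (by linarith)
    _ = D1 * D2 * L.len m u' s' := by ring

theorem B2c_len_le (m m' : ℕ) (u s : ℝ) : L.len m' u s ≤
    ∫ t in (0 : ℝ)..(L.gr m u s (L.grN m u s 1)), lam ^ (L.X m' (u + t) s : ℝ) := by
  unfold len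
  exact L.B2c_mono m' u s zero_le_one (L.le_gr_grN m u s 1)

theorem le_grN : ∃ D : ℝ, 1 ≤ D ∧ ∀ (m : ℕ) (u s u' s' : ℝ),
    L.len m u' s' ≤ D * (L.grN m u s 1 : ℝ) := by
  obtain ⟨D1, hD1, h1⟩ := L.block_int
  obtain ⟨D2, hD2, h2⟩ := L.len_compare
  refine ⟨D2 * D1, by nlinarith, ?_⟩
  intro m u s u' s'
  have h3 := L.B2c_len_le m m u s
  rw [← L.B2c_sum] at h3
  have h4 : ∑ j ∈ Finset.range (L.grN m u s 1),
      (∫ t in (L.gr m u s j)..(L.gr m u s (j + 1)), lam ^ (L.X m (u + t) s : ℝ))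
      ≤ ∑ _j ∈ Finset.range (L.grN m u s 1), D1 := by
    refine Finset.sum_le_sum (fun j _ => ?_)
    have := (h1 m 0 u s j 0 0).2
    rw [L.len_zero, mul_one] at this
    exact this
  rw [Finset.sum_const, Finset.card_range, nsmul_eq_mul] at h4
  calc L.len m u' s' ≤ D2 * L.len m u s := h2 m u' s' u s
    _ ≤ D2 * (L.grN m u s 1 * D1) := mul_le_mul_of_nonneg_left (h3.trans h4) (by linarith)
    _ = D2 * D1 * L.grN m u s 1 := by ring

theorem len_add_le : ∃ D : ℝ, 1 ≤ D ∧ ∀ (m m' : ℕ) (u s u' s' u'' s'' : ℝ),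
    L.len (m + m') u s ≤ D * (L.len m u' s' * L.len m' u'' s'') := by
  obtain ⟨D1, hD1, h1⟩ := L.block_int
  obtain ⟨D2, hD2, h2⟩ := L.grN_le 1
  refine ⟨D2 * D1, by nlinarith, ?_⟩
  intro m m' u s u' s' u'' s''
  have h3 := L.B2c_len_le m (m + m') u s
  rw [← L.B2c_sum] at h3
  have h4 : ∑ j ∈ Finset.range (L.grN m u s 1),
      (∫ t in (L.gr m u s j)..(L.gr m u s (j + 1)), lam ^ (L.X (m + m') (u + t) s : ℝ))
      ≤ ∑ _j ∈ Finset.range (L.grN m u s 1), D1 * L.len m' u'' s'' :=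
    Finset.sum_le_sum (fun j _ => (h1 m m' u s j u'' s'').2)
  rw [Finset.sum_const, Finset.card_range, nsmul_eq_mul] at h4
  have h5 := h2 m u s u' s'
  rw [Nat.cast_one] at h5
  have hl := L.len_pos m' u'' s''
  calc L.len (m + m') u s ≤ L.grN m u s 1 * (D1 * L.len m' u'' s'') := h3.trans h4
    _ ≤ (D2 * L.len m u' s') * (D1 * L.len m' u'' s'') :=
      mul_le_mul_of_nonneg_right h5 (mul_nonneg (by linarith) hl.le)
    _ = D2 * D1 * (L.len m u' s' * L.len m' u'' s'') := by ring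

theorem le_len_add : ∃ D : ℝ, 1 ≤ D ∧ ∀ (m m' : ℕ) (u s u' s' u'' s'' : ℝ),
    L.len m u' s' * L.len m' u'' s'' ≤ D * L.len (m + m') u s := by
  obtain ⟨D1, hD1, h1⟩ := L.block_int
  obtain ⟨D2, hD2, h2⟩ := L.le_grN
  obtain ⟨D3, hD3, h3⟩ := L.int_nat_le 2
  refine ⟨D2 * D1 * D3, by nlinarith [mul_le_mul hD2 hD1 zero_le_one (by linarith)], ?_⟩
  intro m m' u s u' s' u'' s''
  have hl := L.len_pos m' u'' s''
  have h4 : (L.grN m u s 1 : ℝ) * L.len m' u'' s'' ≤ ∑ j ∈ Finset.range (L.grN m u s 1),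
      D1 * ∫ t in (L.gr m u s j)..(L.gr m u s (j + 1)), lam ^ (L.X (m + m') (u + t) s : ℝ) := by
    have e : (L.grN m u s 1 : ℝ) * L.len m' u'' s''
        = ∑ _j ∈ Finset.range (L.grN m u s 1), L.len m' u'' s'' := by
      rw [Finset.sum_const, Finset.card_range, nsmul_eq_mul]
    rw [e]
    exact Finset.sum_le_sum (fun j _ => (h1 m m' u s j u'' s'').1)
  rw [← Finset.mul_sum, L.B2c_sum] at h4
  have h5 : ∫ t in (0 : ℝ)..(L.gr m u s (L.grN m u s 1)), lam ^ (L.X (m + m') (u + t) s : ℝ)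
      ≤ ∫ t in (0 : ℝ)..((2 : ℕ) : ℝ), lam ^ (L.X (m + m') (u + t) s : ℝ) := by
    refine L.B2c_mono (m + m') u s (L.gr_nonneg _ _ _ _) ?_
    have := L.gr_grN_le m u s 1 zero_le_one
    push_cast
    linarith
  have h6 := h3 (m + m') u s u s
  have hD1' : (0 : ℝ) ≤ D1 := by linarith
  have hD2' : (0 : ℝ) ≤ D2 := by linarith
  calc L.len m u' s' * L.len m' u'' s''
      ≤ (D2 * L.grN m u s 1) * L.len m' u'' s'' :=
        mul_le_mul_of_nonneg_right (h2 m u s u' s') hl.le
    _ = D2 * (L.grN m u s 1 * L.len m' u'' s'') := by ring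
    _ ≤ D2 * (D1 * (D3 * L.len (m + m') u s)) := by
      apply mul_le_mul_of_nonneg_left _ hD2'
      exact h4.trans (mul_le_mul_of_nonneg_left (h5.trans h6) hD1')
    _ = D2 * D1 * D3 * L.len (m + m') u s := by ring

end LeafSystem

/-- A sequence which is additive up to a constant is linear up to a constant. -/
theorem exists_linear_of_quasiadditive (a : ℕ → ℝ) (D : ℝ)
    (h : ∀ m m' : ℕ, |a (m + m') - a m - a m'| ≤ D) :
    ∃ c : ℝ, ∀ m : ℕ, |a m - c * m| ≤ D := by
  have h0 : |a 0| ≤ D := by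
    have := h 0 0
    rw [show a (0 + 0) - a 0 - a 0 = -a 0 by ring, abs_neg] at this
    exact this
  have hD : 0 ≤ D := (abs_nonneg _).trans h0
  have hlin : ∀ m : ℕ, |a m - m * a 1| ≤ (m + 1) * D := by
    intro m
    induction m with
    | zero => simpa using h0
    | succ m ih =>
      have h1 := h m 1
      have e : a (m + 1) - ((m + 1 : ℕ) : ℝ) * a 1 = (a (m + 1) - a m - a 1) + (a m - m * a 1) := by
        push_cast; ring
      rw [e]
      refine (abs_add_le _ _).trans ?_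
      push_cast
      linarith
  have su : Subadditive (fun m => a m + D) := by
    intro m n
    have := (abs_le.1 (h m n)).2
    linarith
  have sv : Subadditive (fun m => -a m + D) := by
    intro m n
    have := (abs_le.1 (h m n)).1
    linarith
  have hdiv : ∀ m : ℕ, m ≠ 0 → |a m / m - a 1| ≤ 2 * D := by
    intro m hm
    have hm' : (0 : ℝ) < m := by exact_mod_cast Nat.pos_of_ne_zero hm
    have h1 : (1 : ℝ) ≤ m := by exact_mod_cast Nat.pos_of_ne_zero hm
    have e : a m / m - a 1 = (a m - m * a 1) / m := by field_simp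
    rw [e, abs_div, abs_of_pos hm', div_le_iff₀ hm']
    refine (hlin m).trans ?_
    nlinarith
  have bu : BddBelow (range fun n : ℕ => (a n + D) / n) := by
    refine ⟨-(|a 1| + 2 * D), ?_⟩
    rintro _ ⟨m, rfl⟩
    rcases Nat.eq_zero_or_pos m with hm | hm
    · subst hm
      simp only [CharP.cast_eq_zero, div_zero]
      have := abs_nonneg (a 1)
      linarith
    · have h1 := (abs_le.1 (hdiv m hm.ne')).1
      have h2 := neg_abs_le (a 1)
      have h3 : 0 ≤ D / m := by positivity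
      show -(|a 1| + 2 * D) ≤ (a m + D) / m
      rw [add_div]
      linarith
  have bv : BddBelow (range fun n : ℕ => (-a n + D) / n) := by
    refine ⟨-(|a 1| + 2 * D), ?_⟩
    rintro _ ⟨m, rfl⟩
    rcases Nat.eq_zero_or_pos m with hm | hm
    · subst hm
      simp only [CharP.cast_eq_zero, div_zero]
      have := abs_nonneg (a 1)
      linarith
    · have h1 := (abs_le.1 (hdiv m hm.ne')).2
      have h2 := le_abs_self (a 1)
      have h3 : 0 ≤ D / m := by positivity
      show -(|a 1| + 2 * D) ≤ (-a m + D) / m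
      rw [add_div, neg_div]
      linarith
  have tu := su.tendsto_lim bu
  have tv := sv.tendsto_lim bv
  have tD : Tendsto (fun n : ℕ => 2 * D / (n : ℝ)) atTop (𝓝 0) :=
    tendsto_const_div_atTop_nhds_zero_nat _
  have hneg : sv.lim = -su.lim := by
    have t1 : Tendsto (fun n : ℕ => (a n + D) / n + (-a n + D) / n) atTop
        (𝓝 (su.lim + sv.lim)) := tu.add tv
    have t2 : (fun n : ℕ => (a n + D) / n + (-a n + D) / n) = fun n : ℕ => 2 * D / (n : ℝ) := by
      funext n
      rw [← add_div]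
      congr 1
      ring
    rw [t2] at t1
    have := tendsto_nhds_unique t1 tD
    linarith
  refine ⟨su.lim, fun m => ?_⟩
  rcases Nat.eq_zero_or_pos m with hm | hm
  · subst hm
    simpa using h0
  · have hm' : (0 : ℝ) < m := by exact_mod_cast hm
    have h1 := su.lim_le_div bu hm.ne'
    have h2 := sv.lim_le_div bv hm.ne'
    rw [hneg] at h2
    rw [le_div_iff₀ hm'] at h1 h2
    rw [abs_le]
    constructor <;> linarith

theorem LeafSystem.IsGrowth.pos {L : LeafSystem} {h : ℝ} (hL : L.IsGrowth h) : 0 < h := by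
  by_contra hcon
  push Not at hcon
  obtain ⟨K, hK, hb⟩ := hL
  have hlam : 1 < lam := by linarith [lam_gt]
  have h9 : 1 < lam ^ (9 / 10 : ℝ) := Real.one_lt_rpow hlam (by norm_num)
  obtain ⟨m, hm⟩ := pow_unbounded_of_one_lt K h9
  have h1 := L.len_ge m 0 0
  have h2 := (hb m 0 0).2
  have h3 : Real.exp (h * m) ≤ 1 := by
    apply Real.exp_le_one_iff.2
    exact mul_nonpos_of_nonpos_of_nonneg hcon (Nat.cast_nonneg m)
  have h4 : lam ^ ((9 / 10 : ℝ) * m) = (lam ^ (9 / 10 : ℝ)) ^ m := by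
    rw [Real.rpow_mul lam_pos.le, Real.rpow_natCast]
  rw [h4] at h1
  nlinarith

theorem growthExists : GrowthExists := by
  intro L
  obtain ⟨D1, hD1, h1⟩ := L.len_add_le
  obtain ⟨D2, hD2, h2⟩ := L.le_len_add
  obtain ⟨D3, hD3, h3⟩ := L.len_compare
  set D : ℝ := max (Real.log D1) (Real.log D2) with hD
  obtain ⟨c, hc⟩ := exists_linear_of_quasiadditive (fun m => Real.log (L.len m 0 0)) D (by
    intro m m'
    have p1 := L.len_pos (m + m') 0 0
    have p2 := L.len_pos m 0 0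
    have p3 := L.len_pos m' 0 0
    have a1 := Real.log_le_log p1 (h1 m m' 0 0 0 0 0 0)
    have a2 := Real.log_le_log (mul_pos p2 p3) (h2 m m' 0 0 0 0 0 0)
    rw [Real.log_mul (by positivity) (by positivity), Real.log_mul p2.ne' p3.ne'] at a1
    rw [Real.log_mul p2.ne' p3.ne', Real.log_mul (by positivity) p1.ne'] at a2
    have m1 := le_max_left (Real.log D1) (Real.log D2)
    have m2 := le_max_right (Real.log D1) (Real.log D2)
    rw [← hD] at m1 m2
    rw [abs_le]
    constructor <;> linarith)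
  have hg : L.IsGrowth c := by
    refine ⟨D3 * Real.exp D, by positivity, fun m u s => ?_⟩
    have p := L.len_pos m 0 0
    have q := abs_le.1 (hc m)
    have q1 : L.len m 0 0 ≤ Real.exp D * Real.exp (c * m) := by
      rw [← Real.exp_add, ← Real.log_le_iff_le_exp p]
      linarith [q.2]
    have q2 : Real.exp (c * m) ≤ Real.exp D * L.len m 0 0 := by
      have : Real.exp (c * m - D) ≤ L.len m 0 0 := by
        rw [← Real.le_log_iff_exp_le p]
        linarith [q.1]
      rw [Real.exp_sub, div_le_iff₀ (Real.exp_pos _)] at this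
      linarith
    have hD3' : (0 : ℝ) < D3 := by linarith
    constructor
    · rw [inv_mul_le_iff₀ (by positivity)]
      calc Real.exp (c * m) ≤ Real.exp D * L.len m 0 0 := q2
        _ ≤ Real.exp D * (D3 * L.len m u s) :=
          mul_le_mul_of_nonneg_left (h3 m 0 0 u s) (Real.exp_pos _).le
        _ = D3 * Real.exp D * L.len m u s := by ring
    · calc L.len m u s ≤ D3 * L.len m 0 0 := h3 m u s 0 0
        _ ≤ D3 * (Real.exp D * Real.exp (c * m)) := mul_le_mul_of_nonneg_left q1 hD3'.le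
        _ = D3 * Real.exp D * Real.exp (c * m) := by ring
  exact ⟨c, hg.pos, hg⟩

end

end MPd1f192

end PartB2c
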