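import Pool.Agent.W_MP_d1f192_an.Model

section PartC0

/-! # C0. scaled distances, the class `Near`, the bundled `Setup` -/

open MeasureTheory Set Filter Topology
open scoped ContDiff

namespace MPd1f192

noncomputable section

/-- unstable distance, scaled at the height of `p` -/
def du (p p' : P) : ℝ := lam ^ (p.2.2 : ℝ) * |p.1 - p'.1|

/-- stable distance, scaled at the height of `p` -/
def ds (p p' : P) : ℝ := lam ^ (-p.2.2 : ℝ) * |p.2.1 - p'.2.1|

/-- difference of the heights -/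
def dr (p p' : P) : ℝ := |p.2.2 - p'.2.2|

/-- scaled distance -/
def dN (p p' : P) : ℝ := max (max (du p p') (ds p p')) (dr p p')

/-- Bounds for the speed function in scaled coordinates. -/
structure SpeedBd (δ : P → ℝ) (C : ℝ) : Prop where
  cont : Continuous δ
  inv : ∀ (k m n : ℤ) (p : P), δ (act k m n p) = δ p
  small : ∀ p, |δ p| ≤ 1 / 50
  lip : ∀ p p', dr p p' ≤ 2 → |δ p - δ p'| ≤ C * max (du p p') (ds p p') + (1 / 2) * dr p p'

/-- `F` is `η`-near the model map in scaled coordinates, everywhere. -/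
structure Near (δ : P → ℝ) (η : ℝ) (F : P → P) : Prop where
  comm : ∀ (k m n : ℤ) (p : P), F (act k m n p) = act k m n (F p)
  sup_u : ∀ p : P, lam ^ (p.2.2 : ℝ) * |(zeta δ F p).1| ≤ η
  sup_s : ∀ p : P, lam ^ (-p.2.2 : ℝ) * |(zeta δ F p).2.1| ≤ η
  sup_r : ∀ p : P, |(zeta δ F p).2.2| ≤ η
  lip_u : ∀ p p', dr p p' ≤ 2 →
    lam ^ (p.2.2 : ℝ) * |(zeta δ F p).1 - (zeta δ F p').1| ≤ η * dN p p'
  lip_s : ∀ p p', dr p p' ≤ 2 →
    lam ^ (-p.2.2 : ℝ) * |(zeta δ F p).2.1 - (zeta δ F p').2.1| ≤ η * dN p p'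
  lip_r : ∀ p p', dr p p' ≤ 2 → |(zeta δ F p).2.2 - (zeta δ F p').2.2| ≤ η * dN p p'

/-- The data of part C. -/
structure Setup where
  δ : P → ℝ
  C : ℝ
  η : ℝ
  F : P ≃ₜ P
  one_le_C : 1 ≤ C
  eta_pos : 0 < η
  eta_small : 10 ^ 5 * C * lam ^ 6 * η ≤ 1
  speed : SpeedBd δ C
  near : Near δ η F

/-- width of the cones -/
def Setup.kap (S : Setup) : ℝ := 1000 * lam ^ 3 * S.η

theorem C0_eta_le (S : Setup) : S.η ≤ 1 / 10 ^ 5 := by
  have h1 := S.eta_small
  have h2 := S.one_le_C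
  have h3 := S.eta_pos
  have h4 : 1 ≤ lam := by linarith only [lam_gt]
  have h5 : 1 ≤ lam ^ 6 := one_le_pow₀ h4
  have h6 : 1 ≤ S.C * lam ^ 6 := one_le_mul_of_one_le_of_one_le h2 h5
  have h7 : S.η ≤ S.C * lam ^ 6 * S.η := le_mul_of_one_le_left h3.le h6
  have h8 : 10 ^ 5 * (S.C * lam ^ 6 * S.η) ≤ 1 := by linarith only [h1]
  rw [le_div_iff₀ (by norm_num)]
  linarith only [h7, h8]

theorem kap_pos (S : Setup) : 0 < S.kap := by
  have h1 := lam_pos
  have h2 := S.eta_pos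
  unfold Setup.kap
  positivity

theorem kap_small (S : Setup) : 100 * S.C * lam ^ 3 * S.kap ≤ 1 := by
  have h1 := S.eta_small
  unfold Setup.kap
  calc 100 * S.C * lam ^ 3 * (1000 * lam ^ 3 * S.η) = 10 ^ 5 * S.C * lam ^ 6 * S.η := by ring
    _ ≤ 1 := h1

theorem C0_rpow_int (r : ℝ) (k : ℤ) : lam ^ (r + k : ℝ) = lam ^ (r : ℝ) * lam ^ k := by
  rw [Real.rpow_add lam_pos, Real.rpow_intCast]

theorem du_act (k m n : ℤ) (p p' : P) : du (act k m n p) (act k m n p') = du p p' := by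
  unfold du act
  simp only
  have h1 : lam ^ (-k) * p.1 + (m + n * lam) - (lam ^ (-k) * p'.1 + (m + n * lam))
      = lam ^ (-k) * (p.1 - p'.1) := by ring
  have hpos : 0 < lam ^ k := zpow_pos lam_pos k
  rw [h1, abs_mul, C0_rpow_int, zpow_neg, abs_of_pos (inv_pos.2 hpos)]
  field_simp

theorem ds_act (k m n : ℤ) (p p' : P) : ds (act k m n p) (act k m n p') = ds p p' := by
  unfold ds act
  simp only
  have h1 : lam ^ k * p.2.1 + (m + n * lam⁻¹) - (lam ^ k * p'.2.1 + (m + n * lam⁻¹))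
      = lam ^ k * (p.2.1 - p'.2.1) := by ring
  have hpos : 0 < lam ^ k := zpow_pos lam_pos k
  have h2 : -(p.2.2 + (k : ℝ)) = -p.2.2 + ((-k : ℤ) : ℝ) := by push_cast; ring
  rw [h1, abs_mul, h2, C0_rpow_int, zpow_neg, abs_of_pos hpos]
  field_simp

theorem dr_act (k m n : ℤ) (p p' : P) : dr (act k m n p) (act k m n p') = dr p p' := by
  unfold dr act
  simp only
  congr 1
  ring

theorem C0_one_le_lam : 1 ≤ lam := by linarith only [lam_gt]

theorem C0_scale {a b c : ℝ} (h : a ≤ c + b) : lam ^ (a : ℝ) ≤ lam ^ (c : ℝ) * lam ^ (b : ℝ) := by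
  rw [← Real.rpow_add lam_pos]
  exact Real.rpow_le_rpow_of_exponent_le C0_one_le_lam h

/-- Change of the reference point. -/
theorem du_comm_le (p p' : P) : du p' p ≤ lam ^ (dr p p' : ℝ) * du p p' := by
  unfold du dr
  rw [abs_sub_comm p'.1 p.1, ← mul_assoc]
  refine mul_le_mul_of_nonneg_right (C0_scale ?_) (abs_nonneg _)
  have := neg_le_abs (p.2.2 - p'.2.2)
  linarith only [this]

theorem ds_comm_le (p p' : P) : ds p' p ≤ lam ^ (dr p p' : ℝ) * ds p p' := by
  unfold ds dr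
  rw [abs_sub_comm p'.2.1 p.2.1, ← mul_assoc]
  refine mul_le_mul_of_nonneg_right (C0_scale ?_) (abs_nonneg _)
  have := le_abs_self (p.2.2 - p'.2.2)
  linarith only [this]

/-- Triangle inequalities with change of scale. -/
theorem du_triangle (p p' p'' : P) :
    du p p'' ≤ du p p' + lam ^ (dr p p' : ℝ) * du p' p'' := by
  unfold du dr
  have h1 : |p.1 - p''.1| ≤ |p.1 - p'.1| + |p'.1 - p''.1| := abs_sub_le _ _ _
  have h2 : 0 ≤ lam ^ (p.2.2 : ℝ) := Real.rpow_nonneg lam_pos.le _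
  have h3 : lam ^ (p.2.2 : ℝ) ≤ lam ^ (|p.2.2 - p'.2.2| : ℝ) * lam ^ (p'.2.2 : ℝ) := by
    refine C0_scale ?_
    have := le_abs_self (p.2.2 - p'.2.2)
    linarith only [this]
  calc lam ^ (p.2.2 : ℝ) * |p.1 - p''.1| ≤ lam ^ (p.2.2 : ℝ) * (|p.1 - p'.1| + |p'.1 - p''.1|) :=
        mul_le_mul_of_nonneg_left h1 h2
    _ = lam ^ (p.2.2 : ℝ) * |p.1 - p'.1| + lam ^ (p.2.2 : ℝ) * |p'.1 - p''.1| := by ring
    _ ≤ lam ^ (p.2.2 : ℝ) * |p.1 - p'.1|
          + lam ^ (|p.2.2 - p'.2.2| : ℝ) * lam ^ (p'.2.2 : ℝ) * |p'.1 - p''.1| := by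
        have := mul_le_mul_of_nonneg_right h3 (abs_nonneg (p'.1 - p''.1))
        linarith only [this]
    _ = _ := by ring

theorem ds_triangle (p p' p'' : P) :
    ds p p'' ≤ ds p p' + lam ^ (dr p p' : ℝ) * ds p' p'' := by
  unfold ds dr
  have h1 : |p.2.1 - p''.2.1| ≤ |p.2.1 - p'.2.1| + |p'.2.1 - p''.2.1| := abs_sub_le _ _ _
  have h2 : 0 ≤ lam ^ (-p.2.2 : ℝ) := Real.rpow_nonneg lam_pos.le _
  have h3 : lam ^ (-p.2.2 : ℝ) ≤ lam ^ (|p.2.2 - p'.2.2| : ℝ) * lam ^ (-p'.2.2 : ℝ) := by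
    refine C0_scale ?_
    have := neg_le_abs (p.2.2 - p'.2.2)
    linarith only [this]
  calc lam ^ (-p.2.2 : ℝ) * |p.2.1 - p''.2.1|
      ≤ lam ^ (-p.2.2 : ℝ) * (|p.2.1 - p'.2.1| + |p'.2.1 - p''.2.1|) :=
        mul_le_mul_of_nonneg_left h1 h2
    _ = lam ^ (-p.2.2 : ℝ) * |p.2.1 - p'.2.1| + lam ^ (-p.2.2 : ℝ) * |p'.2.1 - p''.2.1| := by ring
    _ ≤ lam ^ (-p.2.2 : ℝ) * |p.2.1 - p'.2.1|
          + lam ^ (|p.2.2 - p'.2.2| : ℝ) * lam ^ (-p'.2.2 : ℝ) * |p'.2.1 - p''.2.1| := by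
        have := mul_le_mul_of_nonneg_right h3 (abs_nonneg (p'.2.1 - p''.2.1))
        linarith only [this]
    _ = _ := by ring

theorem C0_zeta_height (δ : P → ℝ) (F : P → P) (p : P) :
    (zeta δ F p).2.2 = (F p).2.2 - (p.2.2 + 1 + δ p) := rfl

/-- The height increases by `1 ± 1/40` at each step. -/
theorem height_F (S : Setup) (p : P) : |(S.F p).2.2 - p.2.2 - 1| ≤ 1 / 40 := by
  have h1 := S.near.sup_r p
  rw [C0_zeta_height] at h1
  have h2 := S.speed.small p
  have h3 := C0_eta_le S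
  have h4 : (S.F p).2.2 - p.2.2 - 1 = ((S.F p).2.2 - (p.2.2 + 1 + S.δ p)) + S.δ p := by ring
  rw [h4]
  refine (abs_add_le _ _).trans ?_
  norm_num at h3
  linarith only [h1, h2, h3]

theorem height_F_symm (S : Setup) (p : P) : |(S.F.symm p).2.2 - p.2.2 + 1| ≤ 1 / 40 := by
  have h := height_F S (S.F.symm p)
  rw [S.F.apply_symm_apply] at h
  rw [abs_sub_comm] at h
  have h1 : (S.F.symm p).2.2 - p.2.2 + 1 = 1 - (p.2.2 - (S.F.symm p).2.2) := by ring
  rw [h1]
  exact h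

theorem height_iterate (S : Setup) (p : P) (k : ℕ) :
    |((S.F)^[k] p).2.2 - p.2.2 - k| ≤ k / 40 := by
  induction k with
  | zero => simp
  | succ k ih =>
    rw [Function.iterate_succ_apply']
    have h1 := height_F S ((S.F)^[k] p)
    have h2 : (S.F ((S.F)^[k] p)).2.2 - p.2.2 - ((k + 1 : ℕ) : ℝ)
        = ((S.F ((S.F)^[k] p)).2.2 - ((S.F)^[k] p).2.2 - 1) + (((S.F)^[k] p).2.2 - p.2.2 - k) := by
      push_cast
      ring
    rw [h2]
    refine (abs_add_le _ _).trans ?_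
    push_cast
    linarith only [ih, h1]

theorem height_iterate_symm (S : Setup) (p : P) (k : ℕ) :
    |((S.F.symm)^[k] p).2.2 - p.2.2 + k| ≤ k / 40 := by
  induction k with
  | zero => simp
  | succ k ih =>
    rw [Function.iterate_succ_apply']
    have h1 := height_F_symm S ((S.F.symm)^[k] p)
    have h2 : (S.F.symm ((S.F.symm)^[k] p)).2.2 - p.2.2 + ((k + 1 : ℕ) : ℝ)
        = ((S.F.symm ((S.F.symm)^[k] p)).2.2 - ((S.F.symm)^[k] p).2.2 + 1)
          + (((S.F.symm)^[k] p).2.2 - p.2.2 + k) := by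
      push_cast
      ring
    rw [h2]
    refine (abs_add_le _ _).trans ?_
    push_cast
    linarith only [ih, h1]

/-- Increment of the height function. -/
theorem height_lip (S : Setup) (p p' : P) (h : dr p p' ≤ 2) :
    |((S.F p).2.2 - p.2.2) - ((S.F p').2.2 - p'.2.2)| ≤
      2 * S.C * max (du p p') (ds p p') + (3 / 5) * dr p p' := by
  have h1 := S.near.lip_r p p' h
  rw [C0_zeta_height, C0_zeta_height] at h1
  have h2 := S.speed.lip p p' h
  have h3 := C0_eta_le S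
  have h4 : ((S.F p).2.2 - p.2.2) - ((S.F p').2.2 - p'.2.2)
      = (((S.F p).2.2 - (p.2.2 + 1 + S.δ p)) - ((S.F p').2.2 - (p'.2.2 + 1 + S.δ p')))
        + (S.δ p - S.δ p') := by ring
  rw [h4]
  refine (abs_add_le _ _).trans ?_
  have h5 : 0 ≤ max (du p p') (ds p p') :=
    le_max_of_le_left (mul_nonneg (Real.rpow_nonneg lam_pos.le _) (abs_nonneg _))
  have h6 : 0 ≤ dr p p' := abs_nonneg _
  have h7 : dN p p' ≤ max (du p p') (ds p p') + dr p p' := by
    unfold dN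
    exact max_le (by linarith only [h6]) (by linarith only [h5])
  have h8 : S.η * dN p p' ≤ S.C * max (du p p') (ds p p') + (1 / 10) * dr p p' := by
    have h9 : S.η * dN p p' ≤ S.η * (max (du p p') (ds p p') + dr p p') :=
      mul_le_mul_of_nonneg_left h7 S.eta_pos.le
    have h10 : S.η ≤ S.C := by
      have := S.one_le_C
      norm_num at h3
      linarith only [this, h3]
    have h11 : S.η * max (du p p') (ds p p') ≤ S.C * max (du p p') (ds p p') :=
      mul_le_mul_of_nonneg_right h10 h5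
    have h12 : S.η * dr p p' ≤ (1 / 10) * dr p p' := by
      refine mul_le_mul_of_nonneg_right ?_ h6
      norm_num at h3
      linarith only [h3]
    linarith only [h9, h11, h12]
  linarith only [h1, h2, h8]

/-- `F⁻¹` commutes with `Γ`. -/
theorem symm_comm (S : Setup) (k m n : ℤ) (p : P) :
    S.F.symm (act k m n p) = act k m n (S.F.symm p) := by
  apply S.F.injective
  rw [S.F.apply_symm_apply, S.near.comm, S.F.apply_symm_apply]

end

end MPd1f192

end PartC0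

section PartC2

/-! # C2. the invariant coordinates `π_u`, `π_s` -/

open MeasureTheory Set Filter Topology
open scoped ContDiff

namespace MPd1f192

noncomputable section

/-- The unstable coordinate of the leaf through `p`: limit of the `u`-coordinate along the forward
orbit. -/
def piu (S : Setup) (p : P) : ℝ := limUnder atTop fun k : ℕ => ((S.F)^[k] p).1

/-- The stable coordinate of the leaf through `p`: limit of the `s`-coordinate along the backward
orbit. -/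
def pis (S : Setup) (p : P) : ℝ := limUnder atTop fun k : ℕ => ((S.F.symm)^[k] p).2.1

/-- contraction rate -/
def C2_rho : ℝ := lam ^ (-(39 / 40) : ℝ)

theorem C2_rho_pos : 0 < C2_rho := Real.rpow_pos_of_pos lam_pos _

theorem C2_rho_le : C2_rho ≤ 1 / 2 := by
  have h1 : (1 : ℝ) ≤ lam := by linarith only [lam_gt]
  have h4 : (4 : ℝ) ≤ lam := by linarith only [lam_gt]
  have h2 : C2_rho ≤ lam ^ (-(1 / 2) : ℝ) :=
    Real.rpow_le_rpow_of_exponent_le h1 (by norm_num)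
  have h3 : lam ^ (-(1 / 2) : ℝ) ≤ (4 : ℝ) ^ (-(1 / 2) : ℝ) :=
    Real.rpow_le_rpow_of_nonpos (by norm_num) h4 (by norm_num)
  have h5 : (4 : ℝ) ^ (-(1 / 2) : ℝ) = 1 / 2 := by
    rw [Real.rpow_neg (by norm_num), ← Real.sqrt_eq_rpow]
    have : Real.sqrt 4 = 2 := by
      rw [show (4 : ℝ) = 2 ^ 2 by norm_num]
      exact Real.sqrt_sq (by norm_num)
    rw [this]
    norm_num
  linarith only [h2, h3]

theorem C2_rpow (r : ℝ) (k : ℕ) : lam ^ (-(r + k * (39 / 40)) : ℝ) = lam ^ (-r : ℝ) * C2_rho ^ k := by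
  have h : C2_rho ^ k = lam ^ (-(39 / 40) * k : ℝ) := by
    unfold C2_rho
    rw [Real.rpow_mul lam_pos.le, Real.rpow_natCast]
  rw [h, ← Real.rpow_add lam_pos]
  congr 1
  ring

theorem C2_step_u (S : Setup) (p : P) (k : ℕ) :
    dist ((S.F)^[k] p).1 ((S.F)^[k + 1] p).1 ≤ (S.η * lam ^ (-p.2.2 : ℝ)) * C2_rho ^ k := by
  set q : P := (S.F)^[k] p with hq
  have h1 : (S.F)^[k + 1] p = S.F q := Function.iterate_succ_apply' _ _ _
  have h2 : (zeta S.δ S.F q).1 = (S.F q).1 - q.1 := rfl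
  have h3 := S.near.sup_u q
  have h4 := height_iterate S p k
  rw [h2] at h3
  have hp : 0 < lam ^ (q.2.2 : ℝ) := Real.rpow_pos_of_pos lam_pos _
  have h5 : |(S.F q).1 - q.1| ≤ S.η * lam ^ (-q.2.2 : ℝ) := by
    rw [Real.rpow_neg lam_pos.le, ← div_eq_mul_inv, le_div_iff₀ hp, mul_comm]
    exact h3
  have h6 : p.2.2 + k * (39 / 40) ≤ q.2.2 := by
    have := (abs_le.1 h4).1
    linarith only [this]
  have h7 : lam ^ (-q.2.2 : ℝ) ≤ lam ^ (-(p.2.2 + k * (39 / 40)) : ℝ) :=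
    Real.rpow_le_rpow_of_exponent_le (by linarith only [lam_gt]) (by linarith only [h6])
  rw [h1, dist_comm, Real.dist_eq]
  calc |(S.F q).1 - q.1| ≤ S.η * lam ^ (-q.2.2 : ℝ) := h5
    _ ≤ S.η * lam ^ (-(p.2.2 + k * (39 / 40)) : ℝ) := mul_le_mul_of_nonneg_left h7 S.eta_pos.le
    _ = _ := by rw [C2_rpow]; ring

theorem C2_step_s (S : Setup) (p : P) (k : ℕ) :
    dist ((S.F.symm)^[k] p).2.1 ((S.F.symm)^[k + 1] p).2.1 ≤
      (S.η * lam ^ (p.2.2 : ℝ)) * C2_rho ^ k := by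
  set q : P := (S.F.symm)^[k + 1] p with hq
  have h1 : (S.F.symm)^[k] p = S.F q := by
    rw [hq, Function.iterate_succ_apply']
    exact (S.F.apply_symm_apply _).symm
  have h2 : (zeta S.δ S.F q).2.1 = (S.F q).2.1 - q.2.1 := rfl
  have h3 := S.near.sup_s q
  have h4 := height_iterate_symm S p (k + 1)
  rw [h2] at h3
  have hp : 0 < lam ^ (-q.2.2 : ℝ) := Real.rpow_pos_of_pos lam_pos _
  have h5 : |(S.F q).2.1 - q.2.1| ≤ S.η * lam ^ (q.2.2 : ℝ) := by
    have h8 : lam ^ (q.2.2 : ℝ) = (lam ^ (-q.2.2 : ℝ))⁻¹ := by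
      rw [Real.rpow_neg lam_pos.le, inv_inv]
    rw [h8, ← div_eq_mul_inv, le_div_iff₀ hp, mul_comm]
    exact h3
  have h6 : q.2.2 ≤ -(-p.2.2 + k * (39 / 40)) := by
    have := (abs_le.1 h4).2
    push_cast at this
    linarith only [this]
  have h7 : lam ^ (q.2.2 : ℝ) ≤ lam ^ (-(-p.2.2 + k * (39 / 40)) : ℝ) :=
    Real.rpow_le_rpow_of_exponent_le (by linarith only [lam_gt]) h6
  rw [h1, Real.dist_eq]
  calc |(S.F q).2.1 - q.2.1| ≤ S.η * lam ^ (q.2.2 : ℝ) := h5
    _ ≤ S.η * lam ^ (-(-p.2.2 + k * (39 / 40)) : ℝ) := mul_le_mul_of_nonneg_left h7 S.eta_pos.le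
    _ = _ := by rw [C2_rpow, neg_neg]; ring

theorem tendsto_piu (S : Setup) (p : P) :
    Tendsto (fun k : ℕ => ((S.F)^[k] p).1) atTop (𝓝 (piu S p)) := by
  have h : CauchySeq (fun k : ℕ => ((S.F)^[k] p).1) :=
    cauchySeq_of_le_geometric C2_rho (S.η * lam ^ (-p.2.2 : ℝ))
      (by linarith only [C2_rho_le]) (C2_step_u S p)
  exact h.tendsto_limUnder

theorem tendsto_pis (S : Setup) (p : P) :
    Tendsto (fun k : ℕ => ((S.F.symm)^[k] p).2.1) atTop (𝓝 (pis S p)) := by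
  have h : CauchySeq (fun k : ℕ => ((S.F.symm)^[k] p).2.1) :=
    cauchySeq_of_le_geometric C2_rho (S.η * lam ^ (p.2.2 : ℝ))
      (by linarith only [C2_rho_le]) (C2_step_s S p)
  exact h.tendsto_limUnder

theorem C2_div_le {A : ℝ} (hA : 0 ≤ A) : A / (1 - C2_rho) ≤ 2 * A := by
  have h := C2_rho_le
  rw [div_le_iff₀ (by linarith only [h])]
  nlinarith only [hA, h]

theorem C2_dist_u (S : Setup) (p : P) (k : ℕ) :
    dist ((S.F)^[k] p).1 (piu S p) ≤ 2 * (S.η * lam ^ (-p.2.2 : ℝ) * C2_rho ^ k) := by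
  have h := dist_le_of_le_geometric_of_tendsto C2_rho (S.η * lam ^ (-p.2.2 : ℝ))
    (by linarith only [C2_rho_le]) (C2_step_u S p) (tendsto_piu S p) k
  refine h.trans (C2_div_le ?_)
  have h1 := S.eta_pos
  have h2 := C2_rho_pos
  have h3 : 0 < lam ^ (-p.2.2 : ℝ) := Real.rpow_pos_of_pos lam_pos _
  positivity

theorem C2_dist_s (S : Setup) (p : P) (k : ℕ) :
    dist ((S.F.symm)^[k] p).2.1 (pis S p) ≤ 2 * (S.η * lam ^ (p.2.2 : ℝ) * C2_rho ^ k) := by
  have h := dist_le_of_le_geometric_of_tendsto C2_rho (S.η * lam ^ (p.2.2 : ℝ))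
    (by linarith only [C2_rho_le]) (C2_step_s S p) (tendsto_pis S p) k
  refine h.trans (C2_div_le ?_)
  have h1 := S.eta_pos
  have h2 := C2_rho_pos
  have h3 : 0 < lam ^ (p.2.2 : ℝ) := Real.rpow_pos_of_pos lam_pos _
  positivity

theorem piu_near (S : Setup) (p : P) : lam ^ (p.2.2 : ℝ) * |piu S p - p.1| ≤ 2 * S.η := by
  have h := C2_dist_u S p 0
  rw [Function.iterate_zero, id, pow_zero, mul_one, dist_comm, Real.dist_eq] at h
  have hp : 0 < lam ^ (p.2.2 : ℝ) := Real.rpow_pos_of_pos lam_pos _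
  have h1 : lam ^ (p.2.2 : ℝ) * lam ^ (-p.2.2 : ℝ) = 1 := by
    rw [← Real.rpow_add lam_pos, add_neg_cancel, Real.rpow_zero]
  calc lam ^ (p.2.2 : ℝ) * |piu S p - p.1|
      ≤ lam ^ (p.2.2 : ℝ) * (2 * (S.η * lam ^ (-p.2.2 : ℝ))) := mul_le_mul_of_nonneg_left h hp.le
    _ = 2 * S.η * (lam ^ (p.2.2 : ℝ) * lam ^ (-p.2.2 : ℝ)) := by ring
    _ = 2 * S.η := by rw [h1, mul_one]

theorem pis_near (S : Setup) (p : P) : lam ^ (-p.2.2 : ℝ) * |pis S p - p.2.1| ≤ 2 * S.η := by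
  have h := C2_dist_s S p 0
  rw [Function.iterate_zero, id, pow_zero, mul_one, dist_comm, Real.dist_eq] at h
  have hp : 0 < lam ^ (-p.2.2 : ℝ) := Real.rpow_pos_of_pos lam_pos _
  have h1 : lam ^ (-p.2.2 : ℝ) * lam ^ (p.2.2 : ℝ) = 1 := by
    rw [← Real.rpow_add lam_pos, neg_add_cancel, Real.rpow_zero]
  calc lam ^ (-p.2.2 : ℝ) * |pis S p - p.2.1|
      ≤ lam ^ (-p.2.2 : ℝ) * (2 * (S.η * lam ^ (p.2.2 : ℝ))) := mul_le_mul_of_nonneg_left h hp.le
    _ = 2 * S.η * (lam ^ (-p.2.2 : ℝ) * lam ^ (p.2.2 : ℝ)) := by ring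
    _ = 2 * S.η := by rw [h1, mul_one]

theorem piu_F (S : Setup) (p : P) : piu S (S.F p) = piu S p := by
  have h1 := tendsto_piu S (S.F p)
  have h2 := (tendsto_add_atTop_iff_nat 1).2 (tendsto_piu S p)
  exact tendsto_nhds_unique h1 h2

theorem pis_F (S : Setup) (p : P) : pis S (S.F p) = pis S p := by
  have h1 := (tendsto_add_atTop_iff_nat 1).2 (tendsto_pis S (S.F p))
  have h3 : (fun k : ℕ => ((S.F.symm)^[k + 1] (S.F p)).2.1) =
      fun k : ℕ => ((S.F.symm)^[k] p).2.1 := by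
    funext k
    rw [Function.iterate_succ_apply, S.F.symm_apply_apply]
  rw [h3] at h1
  exact tendsto_nhds_unique h1 (tendsto_pis S p)

theorem C2_iterate_act (S : Setup) (k m n : ℤ) (p : P) (j : ℕ) :
    (S.F)^[j] (act k m n p) = act k m n ((S.F)^[j] p) := by
  induction j with
  | zero => rfl
  | succ j ih => rw [Function.iterate_succ_apply', ih, S.near.comm, Function.iterate_succ_apply' S.F]

theorem C2_iterate_symm_act (S : Setup) (k m n : ℤ) (p : P) (j : ℕ) :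
    (S.F.symm)^[j] (act k m n p) = act k m n ((S.F.symm)^[j] p) := by
  induction j with
  | zero => rfl
  | succ j ih => rw [Function.iterate_succ_apply', ih, symm_comm, Function.iterate_succ_apply' S.F.symm]

theorem piu_act (S : Setup) (k m n : ℤ) (p : P) :
    piu S (act k m n p) = lam ^ (-k) * piu S p + (m + n * lam) := by
  have h1 := tendsto_piu S (act k m n p)
  have h2 := ((tendsto_piu S p).const_mul (lam ^ (-k))).add_const ((m : ℝ) + n * lam)
  refine tendsto_nhds_unique h1 (h2.congr fun j => ?_)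
  rw [C2_iterate_act]
  rfl

theorem pis_act (S : Setup) (k m n : ℤ) (p : P) :
    pis S (act k m n p) = lam ^ k * pis S p + (m + n * lam⁻¹) := by
  have h1 := tendsto_pis S (act k m n p)
  have h2 := ((tendsto_pis S p).const_mul (lam ^ k)).add_const ((m : ℝ) + n * lam⁻¹)
  refine tendsto_nhds_unique h1 (h2.congr fun j => ?_)
  rw [C2_iterate_symm_act]
  rfl

theorem C2_small {A ε : ℝ} (hε : 0 < ε) : ∀ᶠ k : ℕ in atTop, 2 * (A * C2_rho ^ k) < ε := by
  have h : Tendsto (fun k : ℕ => 2 * (A * C2_rho ^ k)) atTop (𝓝 (2 * (A * 0))) :=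
    ((tendsto_pow_atTop_nhds_zero_of_lt_one C2_rho_pos.le
      (by linarith only [C2_rho_le])).const_mul A).const_mul 2
  rw [mul_zero, mul_zero] at h
  exact h.eventually (gt_mem_nhds hε)

theorem C2_nhd (p : P) : {q : P | |q.2.2 - p.2.2| < 1} ∈ 𝓝 p := by
  have hc : Continuous (fun q : P => |q.2.2 - p.2.2|) :=
    ((continuous_snd.comp continuous_snd).sub continuous_const).abs
  refine (isOpen_lt hc continuous_const).mem_nhds ?_
  show |p.2.2 - p.2.2| < 1
  simp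

theorem continuous_piu (S : Setup) : Continuous (piu S) := by
  have h : TendstoLocallyUniformly (fun (k : ℕ) (p : P) => ((S.F)^[k] p).1) (piu S) atTop := by
    rw [Metric.tendstoLocallyUniformly_iff]
    intro ε hε p
    refine ⟨_, C2_nhd p, ?_⟩
    filter_upwards [C2_small (A := S.η * lam ^ (-p.2.2 + 1 : ℝ)) hε] with k hk q hq
    rw [dist_comm]
    refine (C2_dist_u S q k).trans_lt (lt_of_le_of_lt ?_ hk)
    have hq1 : |q.2.2 - p.2.2| < 1 := hq
    have h1 : lam ^ (-q.2.2 : ℝ) ≤ lam ^ (-p.2.2 + 1 : ℝ) :=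
      Real.rpow_le_rpow_of_exponent_le (by linarith only [lam_gt]) (by
        have := (abs_lt.1 hq1).1
        linarith only [this])
    have h2 := S.eta_pos
    have h3 := C2_rho_pos
    gcongr
  refine h.continuous (Filter.Eventually.frequently (Filter.Eventually.of_forall fun k => ?_))
  exact continuous_fst.comp (S.F.continuous.iterate k)

theorem continuous_pis (S : Setup) : Continuous (pis S) := by
  have h : TendstoLocallyUniformly (fun (k : ℕ) (p : P) => ((S.F.symm)^[k] p).2.1) (pis S)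
      atTop := by
    rw [Metric.tendstoLocallyUniformly_iff]
    intro ε hε p
    refine ⟨_, C2_nhd p, ?_⟩
    filter_upwards [C2_small (A := S.η * lam ^ (p.2.2 + 1 : ℝ)) hε] with k hk q hq
    rw [dist_comm]
    refine (C2_dist_s S q k).trans_lt (lt_of_le_of_lt ?_ hk)
    have hq1 : |q.2.2 - p.2.2| < 1 := hq
    have h1 : lam ^ (q.2.2 : ℝ) ≤ lam ^ (p.2.2 + 1 : ℝ) :=
      Real.rpow_le_rpow_of_exponent_le (by linarith only [lam_gt]) (by
        have := (abs_lt.1 hq1).2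
        linarith only [this])
    have h2 := S.eta_pos
    have h3 := C2_rho_pos
    gcongr
  refine h.continuous (Filter.Eventually.frequently (Filter.Eventually.of_forall fun k => ?_))
  exact (continuous_fst.comp continuous_snd).comp (S.F.symm.continuous.iterate k)

end

end MPd1f192

end PartC2
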