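import Pool.Agent.W_MP_d1f192_an.C0

/-! # C1. from `C1Near` to `Near` -/

open MeasureTheory Set Filter Topology
open scoped ContDiff

namespace MPd1f192

noncomputable section

theorem C1_one_lt_lam : 1 < lam := by linarith only [lam_gt]

/-- moving a point to height in `[0,1)` and horizontal coordinates in a fixed box -/
theorem C1_box (p : P) : ∃ k m n : ℤ, 0 ≤ (act k m n p).2.2 ∧ (act k m n p).2.2 < 1 ∧
    0 ≤ (act k m n p).1 ∧ (act k m n p).1 ≤ 1001 ∧
    0 ≤ (act k m n p).2.1 ∧ (act k m n p).2.1 ≤ 1 := by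
  set k : ℤ := -⌊p.2.2⌋ with hk
  set u : ℝ := lam ^ (-k) * p.1 with hu
  set s : ℝ := lam ^ k * p.2.1 with hs
  have hlam := C1_one_lt_lam
  have hinv : lam⁻¹ < 1 := inv_lt_one_of_one_lt₀ hlam
  set L : ℝ := lam - lam⁻¹ with hL
  have hLpos : 0 < L := by rw [hL]; linarith only [hlam, hinv]
  have hL1000 : L ≤ 1000 := by
    have := inv_pos.2 lam_pos
    rw [hL]; linarith only [lam_lt, this]
  set n : ℤ := -⌊(u - s) / L⌋ with hn
  set m : ℤ := -⌊s + n * lam⁻¹⌋ with hm
  have h1 : 0 ≤ s + (m + n * lam⁻¹) ∧ s + (m + n * lam⁻¹) ≤ 1 := by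
    have a1 := Int.floor_le (s + n * lam⁻¹)
    have a2 := Int.lt_floor_add_one (s + n * lam⁻¹)
    have a3 : (m : ℝ) = -⌊s + n * lam⁻¹⌋ := by rw [hm]; push_cast; rfl
    constructor <;> linarith only [a1, a3, a2]
  have h2 : 0 ≤ u - s + n * L ∧ u - s + n * L < L := by
    have a1 := Int.floor_le ((u - s) / L)
    have a2 := Int.lt_floor_add_one ((u - s) / L)
    have a3 : (n : ℝ) = -⌊(u - s) / L⌋ := by rw [hn]; push_cast; rfl
    rw [le_div_iff₀ hLpos] at a1
    rw [div_lt_iff₀ hLpos] at a2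
    rw [a3]
    constructor <;> nlinarith only [a1, a2]
  have h3 : u + (m + n * lam) = (u - s + n * L) + (s + (m + n * lam⁻¹)) := by
    rw [hL]; ring
  refine ⟨k, m, n, ?_, ?_, ?_, ?_, ?_, ?_⟩
  · show 0 ≤ p.2.2 + k
    rw [hk]; push_cast
    linarith only [Int.floor_le p.2.2]
  · show p.2.2 + k < 1
    rw [hk]; push_cast
    linarith only [Int.lt_floor_add_one p.2.2]
  · show 0 ≤ u + (m + n * lam)
    rw [h3]; linarith only [h1, h2]
  · show u + (m + n * lam) ≤ 1001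
    rw [h3]; linarith only [hL1000, h1, h2]
  · exact h1.1
  · exact h1.2

theorem C1_hor_le {q q' : P} (h0 : 0 ≤ q.2.2) (h1 : q.2.2 < 1) :
    |q.1 - q'.1| ≤ du q q' ∧ |q.2.1 - q'.2.1| ≤ lam * ds q q' := by
  have hlam := C1_one_lt_lam
  constructor
  · unfold du
    have : 1 ≤ lam ^ (q.2.2 : ℝ) := Real.one_le_rpow hlam.le h0
    nlinarith only [abs_nonneg (q.1 - q'.1), this]
  · unfold ds
    have : lam⁻¹ ≤ lam ^ (-q.2.2 : ℝ) := by
      rw [← Real.rpow_neg_one]
      exact Real.rpow_le_rpow_of_exponent_le hlam.le (by linarith only [h1])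
    have h2 : 1 ≤ lam * lam ^ (-q.2.2 : ℝ) := by
      have := mul_le_mul_of_nonneg_left this lam_pos.le
      rwa [mul_inv_cancel₀ lam_ne_zero] at this
    rw [← mul_assoc]
    nlinarith only [abs_nonneg (q.2.1 - q'.2.1), h2]

theorem C1_du_nonneg (p p' : P) : 0 ≤ du p p' :=
  mul_nonneg (Real.rpow_nonneg lam_pos.le _) (abs_nonneg _)

theorem C1_ds_nonneg (p p' : P) : 0 ≤ ds p p' :=
  mul_nonneg (Real.rpow_nonneg lam_pos.le _) (abs_nonneg _)

theorem C1_dN_nonneg (p p' : P) : 0 ≤ dN p p' :=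
  le_max_of_le_right (abs_nonneg _)

/-- Scaled Lipschitz bound for a speed function. -/
theorem exists_speedBd {δ : P → ℝ} (h : Speed δ) : ∃ C : ℝ, 1 ≤ C ∧ SpeedBd δ C := by
  set B : Set P := Icc (-1 : ℝ) 1002 ×ˢ (Icc (-1001 : ℝ) 1002 ×ˢ Icc (-3 : ℝ) 4) with hB
  have hBc : IsCompact B := isCompact_Icc.prod (isCompact_Icc.prod isCompact_Icc)
  have hBconv : Convex ℝ B := (convex_Icc _ _).prod ((convex_Icc _ _).prod (convex_Icc _ _))
  have hcont : Continuous (fderiv ℝ δ) := h.smooth.continuous_fderiv (by simp)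
  obtain ⟨K, hK⟩ := hBc.exists_bound_of_continuousOn hcont.continuousOn
  have hKpos : 0 ≤ K := by
    have h0 : ((0 : ℝ), (0 : ℝ), (0 : ℝ)) ∈ B := by
      simp only [hB, Set.mem_prod, Set.mem_Icc]; norm_num
    exact (norm_nonneg _).trans (hK _ h0)
  have hLip : ∀ q ∈ B, ∀ q' ∈ B, |δ q - δ q'| ≤ K * ‖q - q'‖ := by
    intro q hq q' hq'
    have := hBconv.norm_image_sub_le_of_norm_fderiv_le (𝕜 := ℝ) (f := δ) (C := K)
      (fun x _ => (h.smooth.differentiable (by simp)) x) hK hq' hq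
    rwa [Real.norm_eq_abs] at this
  have hlam := C1_one_lt_lam
  refine ⟨K * lam + 1, by nlinarith only [lam_pos, hKpos], h.smooth.continuous, h.inv, h.small, ?_⟩
  intro p p' hr
  have hmaxnn : 0 ≤ max (du p p') (ds p p') := le_max_of_le_left (C1_du_nonneg _ _)
  have hdr : 0 ≤ dr p p' := abs_nonneg _
  rcases le_or_gt 1 (max (du p p') (ds p p')) with hbig | hsmall
  · have h1 := h.small p
    have h2 := h.small p'
    have h3 : |δ p - δ p'| ≤ 1 / 25 := by
      rw [abs_le] at *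
      constructor <;> linarith only [h1.1, h1.2, h2.1, h2.2]
    have h4 : 1 ≤ (K * lam + 1) * max (du p p') (ds p p') := by
      have : 0 ≤ K * lam := mul_nonneg hKpos lam_pos.le
      nlinarith only [hbig, this]
    linarith only [hdr, h3, h4]
  · obtain ⟨k, m, n, hr0, hr1, hu0, hu1, hs0, hs1⟩ := C1_box p
    set q := act k m n p with hq
    set q' := act k m n p' with hq'
    rw [← h.inv k m n p, ← h.inv k m n p', ← du_act k m n p p', ← ds_act k m n p p',
      ← dr_act k m n p p', ← hq, ← hq']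
    rw [← du_act k m n p p', ← ds_act k m n p p', ← hq, ← hq'] at hsmall
    rw [← dr_act k m n p p', ← hq, ← hq'] at hr
    obtain ⟨hu, hs⟩ := C1_hor_le (q := q) (q' := q') hr0 hr1
    have hdu : du q q' < 1 := lt_of_le_of_lt (le_max_left _ _) hsmall
    have hds : ds q q' < 1 := lt_of_le_of_lt (le_max_right _ _) hsmall
    have hr' : |q.2.2 - q'.2.2| ≤ 2 := hr
    have hu' := abs_le.1 hu
    have hs' := abs_le.1 hs
    have hlds : lam * ds q q' ≤ 1000 := by
      have := lam_lt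
      nlinarith only [lam_pos, hds, this]
    have hrr := abs_le.1 hr'
    have hqB : (q.1, q.2.1, q.2.2) ∈ B := by
      simp only [hB, Set.mem_prod, Set.mem_Icc]
      refine ⟨⟨by linarith only [hu0], by linarith only [hu1]⟩, ⟨by linarith only [hs0], by linarith only [hs1]⟩, ⟨by linarith only [hr0], by linarith only [hr1]⟩⟩
    have hqB' : (q'.1, q'.2.1, q.2.2) ∈ B := by
      simp only [hB, Set.mem_prod, Set.mem_Icc]
      refine ⟨⟨by linarith only [hu'.2, hu0, hdu], by linarith only [hu'.1, hu1, hdu]⟩,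
        ⟨by linarith only [hs'.2, hs0, hlds], by linarith only [hs'.1, hs1, hlds]⟩, ⟨by linarith only [hr0], by linarith only [hr1]⟩⟩
    have h1 := hLip _ hqB _ hqB'
    have h2 := h.lip_r q'.1 q'.2.1 q.2.2 q'.2.2
    have h3 : ‖(q.1, q.2.1, q.2.2) - (q'.1, q'.2.1, q.2.2)‖ ≤ lam * max (du q q') (ds q q') := by
      have e : (q.1, q.2.1, q.2.2) - (q'.1, q'.2.1, q.2.2)
          = (q.1 - q'.1, q.2.1 - q'.2.1, (0 : ℝ)) := by
        ext <;> simp
      rw [e, Prod.norm_def, Prod.norm_def]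
      refine max_le ?_ (max_le ?_ ?_)
      · show |q.1 - q'.1| ≤ _
        calc |q.1 - q'.1| ≤ du q q' := hu
          _ ≤ max (du q q') (ds q q') := le_max_left _ _
          _ ≤ lam * max (du q q') (ds q q') := by
            have : 0 ≤ max (du q q') (ds q q') := le_max_of_le_left (C1_du_nonneg _ _)
            nlinarith only [hlam, this]
      · show |q.2.1 - q'.2.1| ≤ _
        refine hs.trans ?_
        exact mul_le_mul_of_nonneg_left (le_max_right _ _) lam_pos.le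
      · rw [norm_zero]
        have : 0 ≤ max (du q q') (ds q q') := le_max_of_le_left (C1_du_nonneg _ _)
        exact mul_nonneg lam_pos.le this
    have h4 : |δ q - δ q'| ≤ |δ (q.1, q.2.1, q.2.2) - δ (q'.1, q'.2.1, q.2.2)|
        + |δ (q'.1, q'.2.1, q.2.2) - δ (q'.1, q'.2.1, q'.2.2)| := by
      have := abs_sub_le (δ (q.1, q.2.1, q.2.2)) (δ (q'.1, q'.2.1, q.2.2))
        (δ (q'.1, q'.2.1, q'.2.2))
      exact this
    have hmm : 0 ≤ max (du q q') (ds q q') := le_max_of_le_left (C1_du_nonneg _ _)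
    have h5 : K * ‖(q.1, q.2.1, q.2.2) - (q'.1, q'.2.1, q.2.2)‖
        ≤ K * (lam * max (du q q') (ds q q')) := mul_le_mul_of_nonneg_left h3 hKpos
    have h6 : dr q q' = |q.2.2 - q'.2.2| := rfl
    rw [h6]
    calc |δ q - δ q'| ≤ _ := h4
      _ ≤ K * (lam * max (du q q') (ds q q')) + 1 / 2 * |q.2.2 - q'.2.2| := by
        linarith only [h1, h2, h5]
      _ ≤ (K * lam + 1) * max (du q q') (ds q q') + 1 / 2 * |q.2.2 - q'.2.2| := by
        nlinarith only [hmm]

theorem C1_zeta_act {δ : P → ℝ} (hinv : ∀ (k m n : ℤ) (p : P), δ (act k m n p) = δ p) {F : P → P}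
    (hcomm : ∀ (k m n : ℤ) (p : P), F (act k m n p) = act k m n (F p)) (k m n : ℤ) (p : P) :
    zeta δ F (act k m n p)
      = (lam ^ (-k) * (zeta δ F p).1, lam ^ k * (zeta δ F p).2.1, (zeta δ F p).2.2) := by
  unfold zeta
  rw [hcomm, hinv]
  unfold act
  ext
  · simp only [Prod.fst_sub]; ring
  · simp only [Prod.snd_sub, Prod.fst_sub]; ring
  · simp only [Prod.snd_sub]; ring

theorem C1_scale_u (k : ℤ) (r x : ℝ) :
    lam ^ (r + k : ℝ) * |lam ^ (-k) * x| = lam ^ (r : ℝ) * |x| := by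
  rw [abs_mul, abs_of_pos (zpow_pos lam_pos _), Real.rpow_add lam_pos, Real.rpow_intCast,
    zpow_neg]
  have := zpow_ne_zero k lam_ne_zero
  field_simp

theorem C1_scale_s (k : ℤ) (r x : ℝ) :
    lam ^ (-(r + k) : ℝ) * |lam ^ k * x| = lam ^ (-r : ℝ) * |x| := by
  rw [abs_mul, abs_of_pos (zpow_pos lam_pos _), neg_add, Real.rpow_add lam_pos,
    Real.rpow_neg lam_pos.le (k : ℝ), Real.rpow_intCast]
  have := zpow_ne_zero k lam_ne_zero
  field_simp

/-- Unscaled closeness on heights in `[-3,4]` gives scaled closeness everywhere. -/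
theorem near_of_C1Near {δ : P → ℝ} (hδ : Speed δ) {η : ℝ} (hη : 0 < η) {F : P → P}
    (h : C1Near δ η F) : Near δ (lam ^ 2 * η) F := by
  have hlam := C1_one_lt_lam
  have hl2 : lam ≤ lam ^ 2 := by nlinarith only [hlam]
  have key : ∀ p : P, ∃ k : ℤ, 0 ≤ (act k 0 0 p).2.2 ∧ (act k 0 0 p).2.2 < 1 ∧
      (act k 0 0 p).2.2 = p.2.2 + k := by
    intro p
    refine ⟨-⌊p.2.2⌋, ?_, ?_, rfl⟩
    · show 0 ≤ p.2.2 + ((-⌊p.2.2⌋ : ℤ) : ℝ)
      push_cast
      linarith only [Int.floor_le p.2.2]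
    · show p.2.2 + ((-⌊p.2.2⌋ : ℤ) : ℝ) < 1
      push_cast
      linarith only [Int.lt_floor_add_one p.2.2]
  have rp1 : ∀ r : ℝ, r < 1 → lam ^ (r : ℝ) ≤ lam := fun r hr => by
    calc lam ^ (r : ℝ) ≤ lam ^ (1 : ℝ) := Real.rpow_le_rpow_of_exponent_le hlam.le hr.le
      _ = lam := Real.rpow_one _
  have rp2 : ∀ r : ℝ, 0 ≤ r → lam ^ (-r : ℝ) ≤ 1 := fun r hr =>
    Real.rpow_le_one_of_one_le_of_nonpos hlam.le (by linarith only [hr])
  have comp : ∀ z : P, |z.1| ≤ ‖z‖ ∧ |z.2.1| ≤ ‖z‖ ∧ |z.2.2| ≤ ‖z‖ := fun z =>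
    ⟨norm_fst_le z, (norm_fst_le z.2).trans (norm_snd_le z), (norm_snd_le z.2).trans (norm_snd_le z)⟩
  have hsup : ∀ p : P, lam ^ (p.2.2 : ℝ) * |(zeta δ F p).1| ≤ lam ^ 2 * η ∧
      lam ^ (-p.2.2 : ℝ) * |(zeta δ F p).2.1| ≤ lam ^ 2 * η ∧
      |(zeta δ F p).2.2| ≤ lam ^ 2 * η := by
    intro p
    obtain ⟨k, h0, h1, hh⟩ := key p
    have hz := C1_zeta_act hδ.inv h.comm k 0 0 p
    have hb := h.sup (act k 0 0 p) (by linarith only [h0]) (by linarith only [h1])
    obtain ⟨c1, c2, c3⟩ := comp (zeta δ F (act k 0 0 p))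
    rw [hz] at c1 c2 c3 hb
    simp only at c1 c2 c3
    refine ⟨?_, ?_, ?_⟩
    · rw [← C1_scale_u k, ← hh]
      calc lam ^ ((act k 0 0 p).2.2 : ℝ) * |lam ^ (-k) * (zeta δ F p).1|
          ≤ lam * η := by
            apply mul_le_mul (rp1 _ h1) (c1.trans hb) (abs_nonneg _) lam_pos.le
        _ ≤ lam ^ 2 * η := mul_le_mul_of_nonneg_right hl2 hη.le
    · rw [← C1_scale_s k, ← hh]
      calc lam ^ (-(act k 0 0 p).2.2 : ℝ) * |lam ^ k * (zeta δ F p).2.1|
          ≤ 1 * η := by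
            apply mul_le_mul (rp2 _ h0) (c2.trans hb) (abs_nonneg _) zero_le_one
        _ ≤ lam ^ 2 * η := mul_le_mul_of_nonneg_right (by nlinarith only [hlam]) hη.le
    · calc |(zeta δ F p).2.2| ≤ η := c3.trans hb
        _ = 1 * η := (one_mul η).symm
        _ ≤ lam ^ 2 * η := mul_le_mul_of_nonneg_right (by nlinarith only [hlam]) hη.le
  have hlip : ∀ p p' : P, dr p p' ≤ 2 →
      lam ^ (p.2.2 : ℝ) * |(zeta δ F p).1 - (zeta δ F p').1| ≤ lam ^ 2 * η * dN p p' ∧
      lam ^ (-p.2.2 : ℝ) * |(zeta δ F p).2.1 - (zeta δ F p').2.1| ≤ lam ^ 2 * η * dN p p' ∧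
      |(zeta δ F p).2.2 - (zeta δ F p').2.2| ≤ lam ^ 2 * η * dN p p' := by
    intro p p' hr
    obtain ⟨k, h0, h1, hh⟩ := key p
    have hz := C1_zeta_act hδ.inv h.comm k 0 0 p
    have hz' := C1_zeta_act hδ.inv h.comm k 0 0 p'
    have hr2 := hr
    rw [← dr_act k 0 0] at hr2
    have hrr := abs_le.1 (show |(act k 0 0 p).2.2 - (act k 0 0 p').2.2| ≤ 2 from hr2)
    have hb := h.lip (act k 0 0 p) (act k 0 0 p') (by linarith only [h0]) (by linarith only [h1]) (by linarith only [h0, hrr])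
      (by linarith only [h1, hrr])
    have hN : ‖act k 0 0 p - act k 0 0 p'‖ ≤ lam * dN p p' := by
      have hdN : dN p p' = dN (act k 0 0 p) (act k 0 0 p') := by
        unfold dN
        rw [du_act, ds_act, dr_act]
      rw [hdN]
      obtain ⟨hu, hs⟩ := C1_hor_le (q := act k 0 0 p) (q' := act k 0 0 p') h0 h1
      have hd1 : du (act k 0 0 p) (act k 0 0 p') ≤ dN (act k 0 0 p) (act k 0 0 p') :=
        (le_max_left _ _).trans (le_max_left _ _)
      have hd2 : ds (act k 0 0 p) (act k 0 0 p') ≤ dN (act k 0 0 p) (act k 0 0 p') :=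
        (le_max_right _ _).trans (le_max_left _ _)
      have hd3 : |(act k 0 0 p).2.2 - (act k 0 0 p').2.2| ≤ dN (act k 0 0 p) (act k 0 0 p') :=
        le_max_right _ _
      have hnn := C1_dN_nonneg (act k 0 0 p) (act k 0 0 p')
      rw [Prod.norm_def, Prod.norm_def]
      refine max_le ?_ (max_le ?_ ?_)
      · show |(act k 0 0 p).1 - (act k 0 0 p').1| ≤ _
        nlinarith only [hlam, hu, hd1, hnn]
      · show |(act k 0 0 p).2.1 - (act k 0 0 p').2.1| ≤ _
        refine hs.trans ?_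
        exact mul_le_mul_of_nonneg_left hd2 lam_pos.le
      · show |(act k 0 0 p).2.2 - (act k 0 0 p').2.2| ≤ _
        nlinarith only [hlam, hd3, hnn]
    have hb2 : ‖zeta δ F (act k 0 0 p) - zeta δ F (act k 0 0 p')‖ ≤ η * (lam * dN p p') :=
      hb.trans (mul_le_mul_of_nonneg_left hN hη.le)
    obtain ⟨c1, c2, c3⟩ := comp (zeta δ F (act k 0 0 p) - zeta δ F (act k 0 0 p'))
    rw [hz, hz'] at c1 c2 c3 hb2
    simp only [Prod.fst_sub, Prod.snd_sub] at c1 c2 c3
    rw [← mul_sub] at c1 c2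
    have hnn := C1_dN_nonneg p p'
    have hA : 0 ≤ η * (lam * dN p p') := mul_nonneg hη.le (mul_nonneg lam_pos.le hnn)
    refine ⟨?_, ?_, ?_⟩
    · rw [← C1_scale_u k, ← hh]
      calc lam ^ ((act k 0 0 p).2.2 : ℝ) * |lam ^ (-k) * ((zeta δ F p).1 - (zeta δ F p').1)|
          ≤ lam * (η * (lam * dN p p')) := by
            apply mul_le_mul (rp1 _ h1) (c1.trans hb2) (abs_nonneg _) lam_pos.le
        _ = lam ^ 2 * η * dN p p' := by ring
    · rw [← C1_scale_s k, ← hh]
      calc lam ^ (-(act k 0 0 p).2.2 : ℝ) * |lam ^ k * ((zeta δ F p).2.1 - (zeta δ F p').2.1)|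
          ≤ 1 * (η * (lam * dN p p')) := by
            apply mul_le_mul (rp2 _ h0) (c2.trans hb2) (abs_nonneg _) zero_le_one
        _ ≤ lam * (η * (lam * dN p p')) := mul_le_mul_of_nonneg_right hlam.le hA
        _ = lam ^ 2 * η * dN p p' := by ring
    · calc |(zeta δ F p).2.2 - (zeta δ F p').2.2| ≤ 1 * (η * (lam * dN p p')) := by
            rw [one_mul]; exact c3.trans hb2
        _ ≤ lam * (η * (lam * dN p p')) := mul_le_mul_of_nonneg_right hlam.le hA
        _ = lam ^ 2 * η * dN p p' := by ring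
  exact ⟨h.comm, fun p => (hsup p).1, fun p => (hsup p).2.1, fun p => (hsup p).2.2,
    fun p p' hr => (hlip p p' hr).1, fun p p' hr => (hlip p p' hr).2.1,
    fun p p' hr => (hlip p p' hr).2.2⟩

theorem C1_zeta_shift (δ : P → ℝ) (F : P → P) (ε : ℝ) (p : P) :
    zeta δ (fun p => shiftUp ε (F p)) p
      = ((zeta δ F p).1, (zeta δ F p).2.1, (zeta δ F p).2.2 + ε) := by
  unfold zeta shiftUp
  ext
  · simp
  · simp
  · simp only [Prod.snd_sub]; ring

/-- The vertical translation of `F` is near as well. -/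
theorem near_shiftUp {δ : P → ℝ} {η ε : ℝ} {F : P → P} (h : Near δ η F) (hε : 0 ≤ ε) :
    Near δ (η + ε) (fun p => shiftUp ε (F p)) := by
  have hN : ∀ p p' : P, η * dN p p' ≤ (η + ε) * dN p p' := fun p p' =>
    mul_le_mul_of_nonneg_right (by linarith only [hε]) (C1_dN_nonneg p p')
  refine ⟨?_, ?_, ?_, ?_, ?_, ?_, ?_⟩
  · intro k m n p
    show shiftUp ε (F (act k m n p)) = act k m n (shiftUp ε (F p))
    rw [h.comm]
    unfold shiftUp act
    ext
    · rfl
    · rfl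
    · simp only; ring
  · intro p
    rw [C1_zeta_shift]
    exact (h.sup_u p).trans (by linarith only [hε])
  · intro p
    rw [C1_zeta_shift]
    exact (h.sup_s p).trans (by linarith only [hε])
  · intro p
    rw [C1_zeta_shift]
    refine (abs_add_le _ _).trans ?_
    rw [abs_of_nonneg hε]
    linarith only [h.sup_r p]
  · intro p p' hr
    rw [C1_zeta_shift, C1_zeta_shift]
    exact (h.lip_u p p' hr).trans (hN p p')
  · intro p p' hr
    rw [C1_zeta_shift, C1_zeta_shift]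
    exact (h.lip_s p p' hr).trans (hN p p')
  · intro p p' hr
    rw [C1_zeta_shift, C1_zeta_shift]
    simp only [add_sub_add_right_eq_sub]
    exact (h.lip_r p p' hr).trans (hN p p')

end

end MPd1f192
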