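import Pool.Agent.W_MP_d1f192_an.C9

section PartC10

/-! # C10. the blender orbit in leaf coordinates -/

open MeasureTheory Set Filter Topology
open scoped ContDiff

namespace MPd1f192

noncomputable section

/-- A one-dimensional map `G` follows the symbols `i j` (`j < T`) with error `e`: on the block
`[j, j+1]`, `G (j + r) = j + r + 1 + d (i j) r + error`, the error being `e`-small and
`e`-Lipschitz; and `ρ` is an orbit staying in the middle of the blocks. -/
structure Follows (G : ℝ → ℝ) (d : Fin 3 → ℝ → ℝ) (e : ℝ) (T : ℕ) (i : ℕ → Fin 3) (ρ : ℕ → ℝ) :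
    Prop where
  near : ∀ j < T, ∀ r, 0 ≤ r → r ≤ 1 → |G (j + r) - (j + r + 1 + d (i j) r)| ≤ e
  lip : ∀ j < T, ∀ r r', 0 ≤ r → r ≤ 1 → 0 ≤ r' → r' ≤ 1 →
    |(G (j + r) - (j + r + 1 + d (i j) r)) - (G (j + r') - (j + r' + 1 + d (i j) r'))| ≤
      e * |r - r'|
  mem : ∀ j ≤ T, 9 / 20 ≤ ρ j ∧ ρ j ≤ 11 / 20
  orbit : ∀ j < T, G (j + ρ j) = j + 1 + ρ (j + 1)

/-- the group element `γ_j` of the strips -/
def C10_gam (i : ℕ → Fin 3) : ℕ → P → P
  | 0, x => x
  | j + 1, x => act (-1) 0 (-((i j : ℕ) + 1 : ℤ)) (C10_gam i j x)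

theorem C10_gam_height (i : ℕ → Fin 3) (j : ℕ) (x : P) :
    (C10_gam i j x).2.2 = x.2.2 - j := by
  induction j with
  | zero => simp [C10_gam]
  | succ j ih =>
    simp only [C10_gam, act, ih]
    push_cast
    ring

theorem C10_gam_one (i : ℕ → Fin 3) (j : ℕ) (x y : P) (h : x.1 = y.1) :
    (C10_gam i j x).1 = (C10_gam i j y).1 := by
  induction j with
  | zero => simpa [C10_gam] using h
  | succ j ih => simp only [C10_gam, act, ih]

theorem C10_gam_two (i : ℕ → Fin 3) (j : ℕ) (x y : P) (h : x.2.1 = y.2.1) :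
    (C10_gam i j x).2.1 = (C10_gam i j y).2.1 := by
  induction j with
  | zero => simpa [C10_gam] using h
  | succ j ih => simp only [C10_gam, act, ih]

theorem C10_gam_comm {f : P → P} (hf : ∀ (k m n : ℤ) (p : P), f (act k m n p) = act k m n (f p))
    (i : ℕ → Fin 3) (j : ℕ) (x : P) : f (C10_gam i j x) = C10_gam i j (f x) := by
  induction j with
  | zero => simp [C10_gam]
  | succ j ih => simp only [C10_gam, hf, ih]

theorem exists_follows (S : Setup) {a : ℝ} {d : Fin 3 → ℝ → ℝ} (hB : Blender S.δ a d)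
    (hη : 100 * lam ^ 4 * S.η ≤ a) (T : ℕ) (two : ℕ → Prop) :
    ∃ (u s : ℝ) (i : ℕ → Fin 3) (ρ : ℕ → ℝ), Follows (S.g u s) d S.η T i ρ ∧
      (∀ j < T, (two j ↔ i j = 2)) := by
  obtain ⟨p, i, hp, htwo, hT1, hT2⟩ := exists_blender_orbit S hB hη T two
  have hF := S.near.comm
  have hk0 := kap_pos S
  have hks := kap_small S
  have hC := S.one_le_C
  have hlam := lam_gt
  have hklam : S.kap * lam ≤ 1 / 100 := by
    have h1 : (1 : ℝ) ≤ lam := by linarith only [hlam]
    have h2 : S.kap * lam ≤ S.C * lam ^ 3 * S.kap := by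
      have h3 : lam ≤ S.C * lam ^ 3 := by
        have h4 : lam ≤ lam ^ 3 := by nlinarith only [sq_nonneg (lam - 1), h1]
        have h5 : 0 ≤ lam ^ 3 := by positivity
        nlinarith only [hC, h1, h4]
      nlinarith only [hk0, h3]
    nlinarith only [hks, h2]
  have hk1 : S.kap ≤ 1 / 100 := by nlinarith only [hlam, hklam]
  -- the points `q j = F^[j] (p 0)`
  have hq : ∀ j ≤ T, p j = C10_gam i j ((S.F)^[j] (p 0)) := by
    intro j
    induction j with
    | zero => intro _; simp [C10_gam]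
    | succ j ih =>
      intro hj
      have h1 := (hp j (by omega)).2
      rw [h1, Function.iterate_succ_apply', stripMap, ih (by omega),
        C10_gam_comm hF]
      rfl
  set u := piu S (p 0) with hu
  set s := pis S (p 0) with hs
  have hHq : ∀ j, piu S ((S.F)^[j] (p 0)) = u ∧ pis S ((S.F)^[j] (p 0)) = s := by
    intro j
    induction j with
    | zero => exact ⟨rfl, rfl⟩
    | succ j ih =>
      rw [Function.iterate_succ_apply', piu_F, pis_F]
      exact ih
  have hHcomm : ∀ (k m n : ℤ) (x : P), S.H (act k m n x) = act k m n (S.H x) := H_comm S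
  have hHscomm : ∀ (k m n : ℤ) (x : P), S.H.symm (act k m n x) = act k m n (S.H.symm x) :=
    H_symm_comm S
  -- the points `y' = γ_j (H.symm (u, s, j + r))`
  set Y : ℕ → ℝ → P := fun j r => C10_gam i j (S.H.symm (u, s, j + r)) with hY
  have hYh : ∀ j r, (Y j r).2.2 = r := by
    intro j r
    rw [hY]
    simp only [C10_gam_height, H_symm_height]
    ring
  have hYH : ∀ j r, S.H (Y j r) = C10_gam i j (u, s, j + r) := by
    intro j r
    rw [hY]
    simp only
    rw [C10_gam_comm hHcomm, Homeomorph.apply_symm_apply]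
  have hYpu : ∀ j r r', piu S (Y j r) = piu S (Y j r') := by
    intro j r r'
    have h1 : (S.H (Y j r)).1 = (S.H (Y j r')).1 := by
      rw [hYH, hYH]
      exact C10_gam_one i j _ _ rfl
    simpa [H_apply] using h1
  have hYps : ∀ j r r', pis S (Y j r) = pis S (Y j r') := by
    intro j r r'
    have h1 : (S.H (Y j r)).2.1 = (S.H (Y j r')).2.1 := by
      rw [hYH, hYH]
      exact C10_gam_two i j _ _ rfl
    simpa [H_apply] using h1
  -- heights of `q j`
  have hqh : ∀ j ≤ T, ((S.F)^[j] (p 0)).2.2 = j + (p j).2.2 := by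
    intro j hj
    have := C10_gam_height i j ((S.F)^[j] (p 0))
    rw [← hq j hj] at this
    linarith only [this]
  have hqsymm : ∀ j ≤ T, S.H.symm (u, s, j + (p j).2.2) = (S.F)^[j] (p 0) := by
    intro j hj
    rw [Homeomorph.symm_apply_eq, H_apply, (hHq j).1, (hHq j).2, hqh j hj]
  have hpY : ∀ j ≤ T, p j = Y j (p j).2.2 := by
    intro j hj
    rw [hY]
    simp only
    rw [hqsymm j hj]
    exact hq j hj
  have hG : ∀ (j : ℕ) (r : ℝ), S.g u s ((j : ℝ) + r) = (j : ℝ) + (S.F (Y j r)).2.2 := by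
    intro j r
    rw [hY]
    simp only [Setup.g]
    rw [C10_gam_comm hF, C10_gam_height]
    ring
  have hstrip : ∀ j < T, ∀ r, 0 ≤ r → r ≤ 1 → S.δ (Y j r) = d (i j) r := by
    intro j hj r hr0 hr1
    obtain ⟨hI1, hI2, hI3, hI4⟩ := (hp j hj).1
    have hdr : dr (p j) (Y j r) ≤ 1 := by
      unfold dr
      rw [hYh, abs_le]
      constructor <;> linarith only [hr1, hI3, hr0, hI4]
    have hsl := slope_leaf S (p := p j) (p' := Y j r)
      (by
        have := hYpu j (p j).2.2 r
        rwa [← hpY j hj.le] at this)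
      (by
        have := hYps j (p j).2.2 r
        rwa [← hpY j hj.le] at this) hdr
    have hdr0 : 0 ≤ dr (p j) (Y j r) := abs_nonneg _
    have h1 : |(p j).1 - (Y j r).1| ≤ 1 / 100 := by
      have h2 : (1 : ℝ) ≤ lam ^ ((p j).2.2 : ℝ) :=
        Real.one_le_rpow (by linarith only [hlam]) (by linarith only [hI3])
      have h3 := hsl.1
      unfold du at h3
      have h4 := abs_nonneg ((p j).1 - (Y j r).1)
      nlinarith only [hk1, hdr, hdr0, h2, h3]
    have h5 : |(p j).2.1 - (Y j r).2.1| ≤ 1 / 100 := by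
      have h2 : lam⁻¹ ≤ lam ^ (-(p j).2.2 : ℝ) := by
        rw [← Real.rpow_neg_one]
        exact Real.rpow_le_rpow_of_exponent_le (by linarith only [hlam]) (by linarith only [hI4])
      have h3 := hsl.2
      unfold ds at h3
      have h4 := abs_nonneg ((p j).2.1 - (Y j r).2.1)
      have h6 : lam⁻¹ * |(p j).2.1 - (Y j r).2.1| ≤ S.kap := by nlinarith only [hk0, hdr, h2, h3, h4]
      rw [inv_mul_le_iff₀ lam_pos] at h6
      linarith only [hklam, h6]
    have h6 := hB.strip (i j) (Y j r).1 (Y j r).2.1 (Y j r).2.2 ?_ ?_ ?_ ?_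
    · have h7 : ((Y j r).1, (Y j r).2.1, (Y j r).2.2) = Y j r := rfl
      rw [h7, hYh] at h6
      exact h6
    · have h7 := abs_le.1 h1
      have h8 := abs_le.1 hI1
      rw [abs_le]
      constructor <;> linarith only [h7.1, h7.2, h8.1, h8.2]
    · have h7 := abs_le.1 h5
      have h8 := abs_le.1 hI2
      rw [abs_le]
      constructor <;> linarith only [h7.1, h7.2, h8.1, h8.2]
    · rw [hYh]; exact hr0
    · rw [hYh]; exact hr1
  have hzeta : ∀ j < T, ∀ r, 0 ≤ r → r ≤ 1 →
      S.g u s (j + r) - (j + r + 1 + d (i j) r) = (zeta S.δ S.F (Y j r)).2.2 := by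
    intro j hj r hr0 hr1
    rw [hG, ← hstrip j hj r hr0 hr1]
    simp only [zeta, Prod.snd_sub]
    rw [hYh]
    ring
  refine ⟨u, s, i, fun j => (p j).2.2, ⟨?_, ?_, ?_, ?_⟩, htwo⟩
  · intro j hj r hr0 hr1
    rw [hzeta j hj r hr0 hr1]
    exact S.near.sup_r _
  · intro j hj r r' hr0 hr1 hr0' hr1'
    rw [hzeta j hj r hr0 hr1, hzeta j hj r' hr0' hr1']
    have hdr : dr (Y j r) (Y j r') = |r - r'| := by
      unfold dr
      rw [hYh, hYh]
    have habs : |r - r'| ≤ 1 := by
      rw [abs_le]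
      constructor <;> linarith only [hr0, hr1', hr1, hr0']
    have h1 := S.near.lip_r (Y j r) (Y j r') (by rw [hdr]; linarith only [habs])
    refine h1.trans (mul_le_mul_of_nonneg_left ?_ S.eta_pos.le)
    have hsl := slope_leaf S (hYpu j r r') (hYps j r r') (by rw [hdr]; exact habs)
    rw [hdr] at hsl
    have h2 : S.kap * |r - r'| ≤ |r - r'| := by
      have := abs_nonneg (r - r')
      nlinarith only [hk1, this]
    unfold dN
    rw [hdr]
    exact max_le (max_le (hsl.1.trans h2) (hsl.2.trans h2)) le_rfl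
  · intro j hj
    rcases lt_or_eq_of_le hj with h | rfl
    · exact ⟨(hp j h).1.2.2.1, (hp j h).1.2.2.2⟩
    · exact ⟨hT1, hT2⟩
  · intro j hj
    simp only [Setup.g]
    rw [hqsymm j hj.le, ← Function.iterate_succ_apply' (f := S.F), hqh (j + 1) (by omega)]
    push_cast
    ring

end

end MPd1f192

end PartC10

section PartC11

/-! # C11. the one-dimensional gain lemma -/

open MeasureTheory Set Filter Topology
open scoped ContDiff

namespace MPd1f192

noncomputable section

section C11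
variable {a e ε : ℝ} {d : Fin 3 → ℝ → ℝ} {G G' : ℝ → ℝ} {T : ℕ} {i : ℕ → Fin 3} {ρ : ℕ → ℝ}

theorem C11_step (hG : Monotone G) (hGG : ∀ r, G r + ε ≤ G' r) {x y : ℝ} (h : x ≤ y) :
    G x + ε ≤ G' y := by
  have h1 := hG h
  have h2 := hGG y
  linarith only [h1, h2]

theorem C11_near (hF : Follows G d e T i ρ) {b : ℕ} (hb : b < T) {r : ℝ} (h0 : 0 ≤ r) (h1 : r ≤ 1) :
    (b : ℝ) + r + 1 + d (i b) r - e ≤ G (b + r) := by
  have := (abs_le.mp (hF.near b hb r h0 h1)).1
  linarith only [this]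

theorem C11_p1a (hp : Profiles a d) (he : 0 ≤ e) (hea : 100 * e ≤ a) (hε : 0 < ε) (hG : Monotone G)
    (hGG : ∀ r, G r + ε ≤ G' r) (hF : Follows G d e T i ρ) {j N : ℕ} (hjN : j + N ≤ T)
    (h2 : ∀ t < N, i (j + t) = 2) :
    ∀ t ≤ N, ((j + t : ℕ) : ℝ) + min (ρ (j + t) + t * ε) (11 / 20) ≤ G'^[t] (j + ρ j) := by
  intro t
  induction t with
  | zero =>
    intro _
    simp
  | succ t ih =>
    intro ht
    have ih := ih (by omega)
    rw [Function.iterate_succ_apply']
    have hb : j + t < T := by omega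
    have hρ := hF.mem (j + t) hb.le
    have ht0 : 0 ≤ (t : ℝ) * ε := by positivity
    have hmρ : ρ (j + t) ≤ min (ρ (j + t) + t * ε) (11 / 20) := le_min (by linarith only [ht0]) hρ.2
    have hm1 : min (ρ (j + t) + t * ε) (11 / 20) ≤ 11 / 20 := min_le_right _ _
    have hs := C11_step hG hGG ih
    have ho := hF.orbit (j + t) hb
    have hcast : (((j + (t + 1) : ℕ)) : ℝ) = ((j + t : ℕ) : ℝ) + 1 := by push_cast; ring
    have hcast2 : (((t + 1 : ℕ)) : ℝ) * ε = (t : ℝ) * ε + ε := by push_cast; ring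
    rw [hcast, hcast2]
    have ha := hp.a_pos
    rcases le_total (ρ (j + t) + t * ε) (11 / 20) with hc | hc
    · rw [min_eq_left hc] at hs hmρ hm1
      have hl := (abs_le.mp (hF.lip (j + t) hb (ρ (j + t) + t * ε) (ρ (j + t)) (by linarith only [hρ, hmρ]) (by linarith only [hc])
        (by linarith only [hρ]) (by linarith only [hmρ, hm1]))).1
      rw [h2 t (by omega), hp.aff2 _ (by linarith only [hρ, hmρ]) (by linarith only [hc]), hp.aff2 _ (by linarith only [hρ]) (by linarith only [hmρ, hm1]),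
        add_sub_cancel_left, abs_of_nonneg ht0] at hl
      have h3 : (0 : ℝ) ≤ (5 * a - e) * (t * ε) := mul_nonneg (by linarith only [he, hea]) ht0
      have h4 : min (ρ (j + (t + 1)) + (t * ε + ε)) (11 / 20) ≤ ρ (j + (t + 1)) + (t * ε + ε) := min_le_left _ _
      rw [show j + (t + 1) = j + t + 1 by ring] at h4 ⊢
      nlinarith only [hs, ho, hl, h3, h4]
    · rw [min_eq_right hc] at hs hmρ hm1
      have hn := C11_near hF hb (r := 11 / 20) (by norm_num) (by norm_num)
      rw [h2 t (by omega), hp.aff2 _ (by norm_num) (by norm_num)] at hn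
      have h4 : min (ρ (j + (t + 1)) + (t * ε + ε)) (11 / 20) ≤ 11 / 20 := min_le_right _ _
      nlinarith only [he, hea, hε, hs, hn, h4]

theorem C11_p1b (hp : Profiles a d) (he : 0 ≤ e) (hea : 100 * e ≤ a) (hε : 0 < ε) (hG : Monotone G)
    (hGG : ∀ r, G r + ε ≤ G' r) (hF : Follows G d e T i ρ) {j N ta : ℕ} (hjN : j + N ≤ T)
    (h2 : ∀ t < N, i (j + t) = 2) {y : ℝ} (hy : ((j + ta : ℕ) : ℝ) + 11 / 20 ≤ y) :
    ∀ t, ta + t ≤ N → ((j + ta + t : ℕ) : ℝ) + min (11 / 20 + t * (a / 5)) 1 ≤ G'^[t] y := by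
  intro t
  induction t with
  | zero =>
    intro _
    have : min ((11 : ℝ) / 20 + ((0 : ℕ) : ℝ) * (a / 5)) 1 = 11 / 20 := by
      rw [Nat.cast_zero, zero_mul, add_zero]
      norm_num
    rw [this]
    simpa using hy
  | succ t ih =>
    intro ht
    have ih := ih (by omega)
    rw [Function.iterate_succ_apply']
    have hb : j + ta + t < T := by omega
    have ha := hp.a_pos
    have ht0 : 0 ≤ (t : ℝ) * (a / 5) := by positivity
    have hm0 : 11 / 20 ≤ min (11 / 20 + (t : ℝ) * (a / 5)) 1 := le_min (by linarith only [ht0]) (by norm_num)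
    have hm1 : min (11 / 20 + (t : ℝ) * (a / 5)) 1 ≤ 1 := min_le_right _ _
    have hs := C11_step hG hGG ih
    have hn := C11_near hF hb (r := min (11 / 20 + (t : ℝ) * (a / 5)) 1) (by linarith only [hm0]) hm1
    have hi2 : i (j + ta + t) = 2 := by
      have := h2 (ta + t) (by omega)
      rwa [← add_assoc] at this
    rw [hi2] at hn
    have hh := hp.high2 _ hm0 hm1
    have hcast : (((j + ta + (t + 1) : ℕ)) : ℝ) = ((j + ta + t : ℕ) : ℝ) + 1 := by push_cast; ring
    have hcast2 : (((t + 1 : ℕ)) : ℝ) * (a / 5) = (t : ℝ) * (a / 5) + a / 5 := by push_cast; ring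
    rw [hcast, hcast2]
    have h4 : min (11 / 20 + ((t : ℝ) * (a / 5) + a / 5)) 1 ≤ min (11 / 20 + (t : ℝ) * (a / 5)) 1 + a / 5 := by
      rw [← min_add_add_right]
      exact min_le_min (by linarith only) (by linarith only [ha])
    linarith only [he, hea, hε, hs, hn, hh, h4]

theorem C11_p2a (hp : Profiles a d) (he : 0 ≤ e) (hea : 100 * e ≤ a) (hε : 0 < ε) (hG : Monotone G)
    (hGG : ∀ r, G r + ε ≤ G' r) (hF : Follows G d e T i ρ) {b N : ℕ} (hbN : b + N ≤ T)
    (h2 : ∀ t < N, i (b + t) ≠ 2) {y : ℝ} (hy : (b : ℝ) ≤ y) :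
    ∀ t ≤ N, ((b + t : ℕ) : ℝ) + min (t * (a / 5)) (7 / 20) ≤ G'^[t] y := by
  intro t
  induction t with
  | zero =>
    intro _
    have : min (((0 : ℕ) : ℝ) * (a / 5)) (7 / 20) = 0 := by
      rw [Nat.cast_zero, zero_mul]
      norm_num
    rw [this]
    simpa using hy
  | succ t ih =>
    intro ht
    have ih := ih (by omega)
    rw [Function.iterate_succ_apply']
    have hb : b + t < T := by omega
    have ha := hp.a_pos
    have ht0 : 0 ≤ (t : ℝ) * (a / 5) := by positivity
    have hm0 : 0 ≤ min ((t : ℝ) * (a / 5)) (7 / 20) := le_min ht0 (by norm_num)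
    have hm1 : min ((t : ℝ) * (a / 5)) (7 / 20) ≤ 7 / 20 := min_le_right _ _
    have hs := C11_step hG hGG ih
    have hn := C11_near hF hb (r := min ((t : ℝ) * (a / 5)) (7 / 20)) hm0 (by linarith only [hm1])
    have hh : a / 4 ≤ d (i (b + t)) (min ((t : ℝ) * (a / 5)) (7 / 20)) := by
      have h3 := h2 t (by omega)
      have h5 : i (b + t) = 0 ∨ i (b + t) = 1 := by
        generalize i (b + t) = q at h3
        fin_cases q <;> simp_all
      rcases h5 with h5 | h5
      · rw [h5]; exact hp.low0 _ hm0 hm1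
      · rw [h5]; exact hp.low1 _ hm0 hm1
    have hcast : (((b + (t + 1) : ℕ)) : ℝ) = ((b + t : ℕ) : ℝ) + 1 := by push_cast; ring
    have hcast2 : (((t + 1 : ℕ)) : ℝ) * (a / 5) = (t : ℝ) * (a / 5) + a / 5 := by push_cast; ring
    rw [hcast, hcast2]
    have h4 : min ((t : ℝ) * (a / 5) + a / 5) (7 / 20) ≤ min ((t : ℝ) * (a / 5)) (7 / 20) + a / 5 := by
      rw [← min_add_add_right]
      exact min_le_min (by linarith only) (by linarith only [ha])
    linarith only [he, hea, hε, hs, hn, hh, h4]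

theorem C11_p2b (hp : Profiles a d) (he : 0 ≤ e) (hea : 100 * e ≤ a) (hε : 0 < ε) (hG : Monotone G)
    (hGG : ∀ r, G r + ε ≤ G' r) (hF : Follows G d e T i ρ) {b N : ℕ} (hbN : b + N ≤ T)
    (h2 : ∀ t < N, i (b + t) ≠ 2) {y : ℝ} (hy : (b : ℝ) + 7 / 20 ≤ y) :
    ∀ t ≤ N, ((b + t : ℕ) : ℝ) + max (7 / 20) (ρ (b + t) - max 0 (1 / 5 - t * ε)) ≤ G'^[t] y := by
  intro t
  induction t with
  | zero =>
    intro h0
    have hρ := hF.mem b (by omega)
    have : max (7 / 20) (ρ (b + 0) - max 0 (1 / 5 - ((0 : ℕ) : ℝ) * ε)) = 7 / 20 := by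
      rw [Nat.cast_zero, zero_mul, sub_zero, add_zero]
      rw [max_eq_right (by norm_num : (0 : ℝ) ≤ 1 / 5)]
      exact max_eq_left (by linarith only [hρ])
    rw [this]
    simpa using hy
  | succ t ih =>
    intro ht
    have ih := ih (by omega)
    rw [Function.iterate_succ_apply']
    have hb : b + t < T := by omega
    have ha := hp.a_pos
    have hρ := hF.mem (b + t) hb.le
    set q : ℝ := max 0 (1 / 5 - t * ε) with hq
    have hq0 : 0 ≤ q := le_max_left _ _
    set m : ℝ := max (7 / 20) (ρ (b + t) - q) with hm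
    have hm0 : 7 / 20 ≤ m := le_max_left _ _
    have hm1 : m ≤ ρ (b + t) := max_le (by linarith only [hρ]) (by linarith only [hq0])
    have hmq : ρ (b + t) - m ≤ q := by
      have := le_max_right (7 / 20) (ρ (b + t) - q)
      linarith only [this]
    have hs := C11_step hG hGG ih
    have ho := hF.orbit (b + t) hb
    have hn := C11_near hF hb (r := m) (by linarith only [hm0]) (by linarith only [hρ, hm1])
    have hn7 := C11_near hF hb (r := 7 / 20) (by norm_num) (by norm_num)
    have hmono7 : G (((b + t : ℕ) : ℝ) + 7 / 20) ≤ G (((b + t : ℕ) : ℝ) + m) := hG (by linarith only [hm0])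
    have hl := (abs_le.mp (hF.lip (b + t) hb m (ρ (b + t)) (by linarith only [hm0]) (by linarith only [hρ, hm1])
        (by linarith only [hρ]) (by linarith only [hρ]))).1
    have habs : |m - ρ (b + t)| = ρ (b + t) - m := by rw [abs_sub_comm, abs_of_nonneg (by linarith only [hm1])]
    rw [habs] at hl
    have h3 := h2 t (by omega)
    have h5 : i (b + t) = 0 ∨ i (b + t) = 1 := by
      generalize i (b + t) = q at h3
      fin_cases q <;> simp_all
    have hh7 : a / 4 ≤ d (i (b + t)) (7 / 20) := by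
      rcases h5 with h5 | h5
      · rw [h5]; exact hp.low0 _ (by norm_num) le_rfl
      · rw [h5]; exact hp.low1 _ (by norm_num) le_rfl
    have hdd : d (i (b + t)) m - d (i (b + t)) (ρ (b + t)) = 5 * a * (ρ (b + t) - m) := by
      rcases h5 with h5 | h5
      · rw [h5, hp.aff0 m hm0 (by linarith only [hρ, hm1]), hp.aff0 _ (by linarith only [hm0, hm1]) (by linarith only [hρ])]; ring
      · rw [h5, hp.aff1 m hm0 (by linarith only [hρ, hm1]), hp.aff1 _ (by linarith only [hm0, hm1]) (by linarith only [hρ])]; ring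
    have h6 : (0 : ℝ) ≤ (5 * a - e) * (ρ (b + t) - m) := mul_nonneg (by linarith only [he, hea]) (by linarith only [hm1])
    have hcast : (((b + (t + 1) : ℕ)) : ℝ) = ((b + t : ℕ) : ℝ) + 1 := by push_cast; ring
    have hcast2 : 1 / 5 - (((t + 1 : ℕ)) : ℝ) * ε = 1 / 5 - (t : ℝ) * ε - ε := by push_cast; ring
    rw [hcast, hcast2]
    have h7 : q - ε ≤ max 0 (1 / 5 - (t : ℝ) * ε - ε) := by
      rw [hq, ← max_sub_sub_right]
      exact max_le_max (by linarith only [hε]) le_rfl
    rw [show b + (t + 1) = b + t + 1 by ring]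
    have h8 : ((b + t : ℕ) : ℝ) + 1 + 7 / 20 ≤ G' (G'^[t] y) := by linarith only [he, hea, hε, hs, hn7, hmono7, hh7]
    have h9 : ((b + t : ℕ) : ℝ) + 1 + (ρ (b + t + 1) - max 0 (1 / 5 - (t : ℝ) * ε - ε)) ≤ G' (G'^[t] y) := by
      nlinarith only [hmq, hs, ho, hl, hdd, h6, h7]
    have h10 : max (7 / 20) (ρ (b + t + 1) - max 0 (1 / 5 - (t : ℝ) * ε - ε)) ≤
        G' (G'^[t] y) - (((b + t : ℕ) : ℝ) + 1) := max_le (by linarith only [h8]) (by linarith only [h9])
    linarith only [h10]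

theorem C11_cycle (hp : Profiles a d) (he : 0 ≤ e) (hea : 100 * e ≤ a) (hε : 0 < ε) (hG : Monotone G)
    (hGG : ∀ r, G r + ε ≤ G' r) (hF : Follows G d e T i ρ) {j N : ℕ} (hN : 100 / a + 100 / ε + 100 ≤ N)
    (hjN : j + 2 * N ≤ T) (h2 : ∀ t < N, i (j + t) = 2) (h01 : ∀ t < N, i (j + N + t) ≠ 2) :
    ((j + 2 * N : ℕ) : ℝ) + ρ (j + 2 * N) ≤ G'^[2 * N - 1] (j + ρ j) := by
  have ha := hp.a_pos
  have hae : 0 < 100 / a := by positivity
  have hee : 0 < 100 / ε := by positivity
  obtain ⟨ta, hta⟩ : ∃ n : ℕ, n = ⌈1 / (10 * ε)⌉₊ := ⟨_, rfl⟩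
  have hta1 : 1 / (10 * ε) ≤ (ta : ℝ) := by rw [hta]; exact Nat.le_ceil _
  have hta2 : (ta : ℝ) < 1 / (10 * ε) + 1 := by rw [hta]; exact Nat.ceil_lt_add_one (by positivity)
  have e1 : 1 / (10 * ε) = (100 / ε) / 1000 := by field_simp; norm_num
  have hta3 : 1 / 10 ≤ (ta : ℝ) * ε := by
    have h := mul_le_mul_of_nonneg_right hta1 hε.le
    have h' : 1 / (10 * ε) * ε = 1 / 10 := by field_simp
    linarith only [h, h']
  have hNr : ((N : ℕ) : ℝ) - 1 - ta ≥ 9 / (4 * a) := by
    have e2 : 9 / (4 * a) = (100 / a) * (9 / 400) := by field_simp; norm_num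
    rw [e2]
    nlinarith only [hN, hee, hta2, e1]
  have htaN : ta + 1 ≤ N := by
    have : (0 : ℝ) < 9 / (4 * a) := by positivity
    have h3 : ((ta + 1 : ℕ) : ℝ) ≤ (N : ℝ) := by push_cast; linarith only [hNr, this]
    exact_mod_cast h3
  obtain ⟨tb, htb⟩ : ∃ n : ℕ, n = N - 1 - ta := ⟨_, rfl⟩
  have htbr : (tb : ℝ) = (N : ℝ) - 1 - ta := by
    have : N = tb + 1 + ta := by omega
    rw [this]; push_cast; ring
  -- phase 1
  have p1 := C11_p1a hp he hea hε hG hGG hF (j := j) (N := N) (by omega) h2 ta (by omega)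
  have hρa := hF.mem (j + ta) (by omega)
  rw [min_eq_right (by linarith only [hta3, hρa])] at p1
  have p1b := C11_p1b hp he hea hε hG hGG hF (j := j) (N := N) (ta := ta) (by omega) h2 p1 tb (by omega)
  have hmin : (1 : ℝ) ≤ 11 / 20 + tb * (a / 5) := by
    rw [htbr]
    have h4 := mul_le_mul_of_nonneg_right hNr (by positivity : (0 : ℝ) ≤ a / 5)
    have h5 : 9 / (4 * a) * (a / 5) = 9 / 20 := by field_simp; norm_num
    linarith only [h4, h5]
  rw [min_eq_right hmin, ← Function.iterate_add_apply] at p1b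
  have hidx : tb + ta = N - 1 := by omega
  have hidx2 : j + ta + tb = j + N - 1 := by omega
  rw [hidx, hidx2] at p1b
  have hcast : ((j + N - 1 : ℕ) : ℝ) + 1 = ((j + N : ℕ) : ℝ) := by
    have h : j + N = (j + N - 1) + 1 := by omega
    conv_rhs => rw [h]
    push_cast
    ring
  rw [hcast] at p1b
  -- phase 2
  obtain ⟨sa, hsa⟩ : ∃ n : ℕ, n = ⌈7 / (4 * a)⌉₊ := ⟨_, rfl⟩
  have hsa1 : 7 / (4 * a) ≤ (sa : ℝ) := by rw [hsa]; exact Nat.le_ceil _
  have hsa2 : (sa : ℝ) < 7 / (4 * a) + 1 := by rw [hsa]; exact Nat.ceil_lt_add_one (by positivity)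
  have e3 : 7 / (4 * a) = (100 / a) * (7 / 400) := by field_simp; norm_num
  have e4 : 1 / (5 * ε) = (100 / ε) / 500 := by field_simp; norm_num
  have hNs : ((N : ℕ) : ℝ) - sa ≥ 1 / (5 * ε) := by
    rw [e4]
    rw [e3] at hsa2
    nlinarith only [hN, hee, hsa2]
  have hsaN : sa ≤ N := by
    have : (0 : ℝ) < 1 / (5 * ε) := by positivity
    have h3 : ((sa : ℕ) : ℝ) ≤ (N : ℝ) := by linarith only [hNs, this]
    exact_mod_cast h3
  have p2a := C11_p2a hp he hea hε hG hGG hF (b := j + N) (N := N) (by omega) h01 p1b sa hsaN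
  have hmin2 : (7 : ℝ) / 20 ≤ sa * (a / 5) := by
    have h4 := mul_le_mul_of_nonneg_right hsa1 (by positivity : (0 : ℝ) ≤ a / 5)
    have h5 : 7 / (4 * a) * (a / 5) = 7 / 20 := by field_simp; norm_num
    linarith only [h4, h5]
  rw [min_eq_right hmin2] at p2a
  obtain ⟨sb, hsb⟩ : ∃ n : ℕ, n = N - sa := ⟨_, rfl⟩
  have hsbr : (sb : ℝ) = (N : ℝ) - sa := by
    have : N = sb + sa := by omega
    rw [this]; push_cast; ring
  have p2b := C11_p2b hp he hea hε hG hGG hF (b := j + N + sa) (N := sb) (by omega)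
    (fun t ht => by
      have := h01 (sa + t) (by omega)
      rwa [← add_assoc] at this) p2a sb le_rfl
  have hq : 1 / 5 - (sb : ℝ) * ε ≤ 0 := by
    rw [hsbr]
    have h4 := mul_le_mul_of_nonneg_right hNs hε.le
    have h5 : 1 / (5 * ε) * ε = 1 / 5 := by field_simp
    linarith only [h4, h5]
  rw [max_eq_left hq, sub_zero, ← Function.iterate_add_apply, ← Function.iterate_add_apply] at p2b
  have hidx3 : j + N + sa + sb = j + 2 * N := by omega
  have hidx4 : sb + (sa + (N - 1)) = 2 * N - 1 := by omega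
  rw [hidx3, show sb + sa + (N - 1) = 2 * N - 1 by omega] at p2b
  have := le_max_right (7 / 20) (ρ (j + 2 * N))
  linarith only [p2b, this]

end C11

/-- **Gain lemma.** Let `G` follow a pattern made of `k` cycles, each consisting of `N` symbols `2`
followed by `N` symbols in `{0,1}`, and let `G' ≥ G + ε` with both monotone. If `N` is large
compared with `1/a + 1/ε` then `G'` gains at least one iterate per cycle. -/
theorem gain_lemma {a e ε : ℝ} {d : Fin 3 → ℝ → ℝ} (hp : Profiles a d) (he : 0 ≤ e)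
    (hea : 100 * e ≤ a) (hε : 0 < ε) (G G' : ℝ → ℝ) (hG : Monotone G) (hG' : Monotone G')
    (hGG : ∀ r, G r + ε ≤ G' r) (k N : ℕ) (hN : 100 / a + 100 / ε + 100 ≤ N)
    (i : ℕ → Fin 3) (ρ : ℕ → ℝ) (hF : Follows G d e (2 * N * k) i ρ)
    (hi : ∀ j < 2 * N * k, (j % (2 * N) < N ↔ i j = 2)) :
    G^[2 * N * k] (ρ 0) ≤ G'^[2 * N * k - k] (ρ 0) := by
  have ha := hp.a_pos
  have hNpos : 0 < N := by
    have : (0 : ℝ) < N := by
      have : 0 < 100 / a := by positivity
      have : 0 < 100 / ε := by positivity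
      linarith
    exact_mod_cast this
  have horb : ∀ n ≤ 2 * N * k, G^[n] (ρ 0) = (n : ℝ) + ρ n := by
    intro n
    induction n with
    | zero => intro _; simp
    | succ n ih =>
      intro hn
      rw [Function.iterate_succ_apply', ih (by omega), hF.orbit n (by omega)]
      push_cast
      ring
  have hmain : ∀ c ≤ k, ((2 * N * c : ℕ) : ℝ) + ρ (2 * N * c) ≤ G'^[(2 * N - 1) * c] (ρ 0) := by
    intro c
    induction c with
    | zero => intro _; simp
    | succ c ih =>
      intro hc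
      have ih := ih (by omega)
      have hle : 2 * N * c + 2 * N ≤ 2 * N * k := by
        calc 2 * N * c + 2 * N = 2 * N * (c + 1) := by ring
          _ ≤ 2 * N * k := Nat.mul_le_mul_left _ hc
      have hcyc := C11_cycle hp he hea hε hG hGG hF (j := 2 * N * c) (N := N) hN hle
        (fun t ht => by
          rw [← hi _ (by omega)]
          rw [Nat.mul_add_mod, Nat.mod_eq_of_lt (by omega)]
          exact ht)
        (fun t ht => by
          rw [Ne, ← hi _ (by omega)]
          rw [add_assoc, Nat.mul_add_mod, Nat.mod_eq_of_lt (by omega)]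
          omega)
      have hmono := (hG'.iterate (2 * N - 1)) ih
      rw [← Function.iterate_add_apply] at hmono
      rw [show 2 * N * (c + 1) = 2 * N * c + 2 * N by ring, show (2 * N - 1) * (c + 1) = (2 * N - 1) + (2 * N - 1) * c by ring]
      exact hcyc.trans hmono
  rw [horb _ le_rfl]
  have h := hmain k le_rfl
  rw [show 2 * N * k - k = (2 * N - 1) * k by rw [Nat.sub_mul, one_mul]]
  exact h

/-- The hypothesis of `GrowthStrict` for the leaf systems of `F` and `φ_ε ∘ F`. -/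
theorem leaf_gain (S S' : Setup) (hδ : S'.δ = S.δ) (hC : S'.C = S.C) (hη : S'.η = S.η)
    {ε : ℝ} (hε : 0 < ε) (hε' : ε ≤ 1 / 100) (hF : ∀ p, S'.F p = shiftUp ε (S.F p))
    (hcmp : ∀ u s r, S.g u s r + ε / 2 ≤ S'.g u s r)
    {a : ℝ} {d : Fin 3 → ℝ → ℝ} (hB : Blender S.δ a d) (hηa : 100 * lam ^ 4 * S.η ≤ a) (K : ℕ) :
    ∃ (u s r₀ : ℝ) (T : ℕ), 0 ≤ r₀ ∧ r₀ ≤ 1 ∧ K ≤ T ∧
      (S.leaf.g u s)^[T] r₀ ≤ (S'.leaf.g u s)^[T - K] r₀ := by
  obtain ⟨N, hN⟩ : ∃ N : ℕ, 100 / a + 100 / (ε / 2) + 100 ≤ N := exists_nat_ge _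
  have ha := hB.prof.a_pos
  have hNpos : 0 < N := by
    have : (0 : ℝ) < N := by
      have : 0 < 100 / a := by positivity
      have : 0 < 100 / (ε / 2) := by positivity
      linarith
    exact_mod_cast this
  obtain ⟨u, s, i, ρ, hfol, htwo⟩ := exists_follows S hB hηa (2 * N * K) (fun j => j % (2 * N) < N)
  have hgS : S.leaf.g u s = S.g u s := funext fun r => leaf_g S u s r
  have hgS' : S'.leaf.g u s = S'.g u s := funext fun r => leaf_g S' u s r
  have hm : Monotone (S.g u s) := by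
    intro r r' h
    have := S.leaf.lower u s r r' h
    rw [hgS] at this
    linarith only [h, this]
  have hm' : Monotone (S'.g u s) := by
    intro r r' h
    have := S'.leaf.lower u s r r' h
    rw [hgS'] at this
    linarith only [h, this]
  have hea : 100 * S.η ≤ a := by
    have h1 : (1 : ℝ) ≤ lam ^ 4 := one_le_pow₀ (by linarith only [lam_gt])
    have h2 := S.eta_pos
    nlinarith only [hηa, h1, h2]
  have hρ := hfol.mem 0 (Nat.zero_le _)
  refine ⟨u, s, ρ 0, 2 * N * K, by linarith only [hρ], by linarith only [hρ], ?_, ?_⟩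
  · calc K = 1 * K := (one_mul K).symm
      _ ≤ 2 * N * K := Nat.mul_le_mul_right K (by omega)
  · rw [hgS, hgS']
    exact gain_lemma hB.prof S.eta_pos.le hea (by linarith only [hε] : 0 < ε / 2) _ _ hm hm' (hcmp u s) K N hN i ρ hfol htwo

end

end MPd1f192

end PartC11
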