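import Pool.Agent.W_MP_d1f192_an.C0

/-! # C3. invariant cones -/

open MeasureTheory Set Filter Topology
open scoped ContDiff

namespace MPd1f192

noncomputable section

/-- unstable cone -/
def UCone (κ : ℝ) (p p' : P) : Prop := 0 < du p p' ∧ ds p p' ≤ 2 * du p p' ∧ κ * dr p p' ≤ du p p'

/-- stable cone -/
def SCone (κ : ℝ) (p p' : P) : Prop := 0 < ds p p' ∧ du p p' ≤ 2 * ds p p' ∧ κ * dr p p' ≤ ds p p'

/-! ### Auxiliary facts -/

theorem C3_root : lam ^ ((1 : ℝ) / 40) ≤ 6 / 5 := by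
  have h1 : lam ≤ (6 / 5 : ℝ) ^ 40 := lam_lt.le.trans (by norm_num)
  calc lam ^ ((1 : ℝ) / 40) ≤ ((6 / 5 : ℝ) ^ 40) ^ ((1 : ℝ) / 40) :=
        Real.rpow_le_rpow lam_pos.le h1 (by norm_num)
    _ = 6 / 5 := by
        have h2 := Real.pow_rpow_inv_natCast (x := (6 / 5 : ℝ)) (n := 40) (by norm_num)
          (by norm_num)
        rw [one_div]
        exact_mod_cast h2

theorem C3_one_le_lam : 1 ≤ lam := by linarith only [lam_gt]

theorem C3_pow_le {x : ℝ} (hx : x ≤ 41 / 40) : lam ^ x ≤ 6 / 5 * lam := by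
  calc lam ^ x ≤ lam ^ ((41 : ℝ) / 40) := Real.rpow_le_rpow_of_exponent_le C3_one_le_lam hx
    _ = lam ^ ((1 : ℝ) / 40) * lam := by
        rw [show (41 : ℝ) / 40 = 1 / 40 + 1 by norm_num, Real.rpow_add lam_pos, Real.rpow_one]
    _ ≤ 6 / 5 * lam := mul_le_mul_of_nonneg_right C3_root lam_pos.le

theorem C3_pow_ge {x : ℝ} (hx : 39 / 40 ≤ x) : 800 ≤ lam ^ x := by
  have h1 : lam ^ ((39 : ℝ) / 40) * lam ^ ((1 : ℝ) / 40) = lam := by
    rw [← Real.rpow_add lam_pos]
    norm_num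
  have h2 : 0 < lam ^ ((39 : ℝ) / 40) := Real.rpow_pos_of_pos lam_pos _
  have h3 : 800 ≤ lam ^ ((39 : ℝ) / 40) := by
    nlinarith only [C3_root, lam_gt, h1, h2]
  exact h3.trans (Real.rpow_le_rpow_of_exponent_le C3_one_le_lam hx)

theorem C3_du_nonneg (p p' : P) : 0 ≤ du p p' :=
  mul_nonneg (Real.rpow_nonneg lam_pos.le _) (abs_nonneg _)

theorem C3_ds_nonneg (p p' : P) : 0 ≤ ds p p' :=
  mul_nonneg (Real.rpow_nonneg lam_pos.le _) (abs_nonneg _)

theorem C3_dr_nonneg (p p' : P) : 0 ≤ dr p p' := abs_nonneg _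

theorem C3_abs (x e : ℝ) (c : ℝ) (hc : 0 ≤ c) : abs (c * abs (x + e) - c * abs x) ≤ c * |e| := by
  rw [← mul_sub, abs_mul, abs_of_nonneg hc]
  refine mul_le_mul_of_nonneg_left ?_ hc
  have := abs_abs_sub_abs_le (x + e) x
  rwa [add_sub_cancel_left] at this

/-- The basic estimates for one step. -/
theorem C3_basic (S : Setup) (p p' : P) (h : dr p p' ≤ 2) :
    ∃ L Du Ds : ℝ, 800 ≤ L ∧ L ≤ 6 / 5 * lam ∧ 0 ≤ Du ∧ 0 ≤ Ds ∧
      |Du - du p p'| ≤ S.η * dN p p' ∧ |Ds - ds p p'| ≤ S.η * dN p p' ∧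
      du (S.F p) (S.F p') = L * Du ∧ L * ds (S.F p) (S.F p') = Ds ∧
      dr (S.F p) (S.F p') ≤ dr p p' + (2 * S.C * max (du p p') (ds p p') + (3 / 5) * dr p p') ∧
      dr p p' ≤ dr (S.F p) (S.F p') +
        (2 * S.C * max (du p p') (ds p p') + (3 / 5) * dr p p') := by
  have hF := abs_le.1 (height_F S p)
  refine ⟨lam ^ ((S.F p).2.2 - p.2.2), lam ^ (p.2.2 : ℝ) * |(S.F p).1 - (S.F p').1|,
    lam ^ (-p.2.2 : ℝ) * |(S.F p).2.1 - (S.F p').2.1|, C3_pow_ge (by linarith only [hF]),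
    C3_pow_le (by linarith only [hF]), mul_nonneg (Real.rpow_nonneg lam_pos.le _) (abs_nonneg _),
    mul_nonneg (Real.rpow_nonneg lam_pos.le _) (abs_nonneg _), ?_, ?_, ?_, ?_, ?_, ?_⟩
  · have h1 : (S.F p).1 - (S.F p').1 = (p.1 - p'.1) +
        ((zeta S.δ S.F p).1 - (zeta S.δ S.F p').1) := by
      simp only [zeta, Prod.fst_sub]
      ring
    rw [h1]
    exact (C3_abs _ _ _ (Real.rpow_nonneg lam_pos.le _)).trans (S.near.lip_u p p' h)
  · have h1 : (S.F p).2.1 - (S.F p').2.1 = (p.2.1 - p'.2.1) +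
        ((zeta S.δ S.F p).2.1 - (zeta S.δ S.F p').2.1) := by
      simp only [zeta, Prod.fst_sub, Prod.snd_sub]
      ring
    rw [h1]
    exact (C3_abs _ _ _ (Real.rpow_nonneg lam_pos.le _)).trans (S.near.lip_s p p' h)
  · unfold du
    rw [← mul_assoc, ← Real.rpow_add lam_pos, sub_add_cancel]
  · unfold ds
    rw [← mul_assoc, ← Real.rpow_add lam_pos]
    congr 2
    ring
  · have h1 := abs_le.1 (height_lip S p p' h)
    unfold dr at *
    have h2 := abs_le.1 (le_refl |p.2.2 - p'.2.2|)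
    rw [abs_le]
    constructor <;> linarith only [h1, h2]
  · have h1 := abs_le.1 (height_lip S p p' h)
    unfold dr at *
    have h2 := abs_le.1 (le_refl |(S.F p).2.2 - (S.F p').2.2|)
    rw [abs_le]
    constructor <;> linarith only [h1, h2]

theorem C3_C_pos (S : Setup) : 0 < S.C := lt_of_lt_of_le one_pos S.one_le_C

/-- consequences of `kap_small` -/
theorem C3_kap (S : Setup) : S.kap ≤ 1 / 100 ∧ S.C * S.kap ≤ 1 / 100 ∧
    S.C * lam ^ 2 * S.kap ≤ 1 / 100 := by
  have h := kap_small S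
  have hk := kap_pos S
  have hC := S.one_le_C
  have hl := C3_one_le_lam
  have h3 : (1 : ℝ) ≤ lam ^ 3 := one_le_pow₀ hl
  have h23 : lam ^ 2 ≤ lam ^ 3 := pow_le_pow_right₀ hl (by norm_num)
  have hCk : 0 < S.C * S.kap := mul_pos (C3_C_pos S) hk
  have e1 : S.C * S.kap ≤ 1 / 100 := by nlinarith only [h, h3]
  refine ⟨?_, e1, ?_⟩
  · nlinarith only [hC, e1]
  · nlinarith only [h, hl]

/-- consequences of `eta_small` -/
theorem C3_eta (S : Setup) : S.C * S.η ≤ 1 / 10 ^ 5 ∧ S.C * lam ^ 2 * S.η ≤ 1 / 10 ^ 5 ∧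
    S.η ≤ 1 / 10 ^ 5 := by
  have h := S.eta_small
  have hk := S.eta_pos
  have hC := S.one_le_C
  have hl := C3_one_le_lam
  have h6 : (1 : ℝ) ≤ lam ^ 6 := one_le_pow₀ hl
  have h26 : lam ^ 2 ≤ lam ^ 6 := pow_le_pow_right₀ hl (by norm_num)
  have hCk : 0 < S.C * S.η := mul_pos (C3_C_pos S) hk
  have e1 : S.C * S.η ≤ 1 / 10 ^ 5 := by
    rw [le_div_iff₀ (by positivity)]
    nlinarith only [h, h6]
  refine ⟨e1, ?_, ?_⟩
  · rw [le_div_iff₀ (by positivity)]
    nlinarith only [h, h6, h26]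
  · have : S.η ≤ S.C * S.η := by nlinarith only [hk, hC]
    linarith only [e1, this]

/-- `1000 η x ≤ kap x` -/
theorem C3_eta_kap (S : Setup) {x : ℝ} (hx : 0 ≤ x) : 1000 * (S.η * x) ≤ S.kap * x := by
  have h3 : (1 : ℝ) ≤ lam ^ 3 := one_le_pow₀ C3_one_le_lam
  have h := mul_nonneg S.eta_pos.le hx
  unfold Setup.kap
  nlinarith only [h3, h]

theorem UCone_F (S : Setup) {p p' : P} (h : UCone S.kap p p') (hr : dr p p' ≤ 2) :
    UCone S.kap (S.F p) (S.F p') ∧ 500 * du p p' ≤ du (S.F p) (S.F p') ∧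
      du (S.F p) (S.F p') ≤ 2 * lam * du p p' := by
  obtain ⟨ha, hb, hc⟩ := h
  obtain ⟨L, Du, Ds, hL1, hL2, hDu, hDs, h1, h2, e1, e2, e3, -⟩ := C3_basic S p p' hr
  obtain ⟨k1, k2, -⟩ := C3_kap S
  have hk := kap_pos S
  have hlam := lam_gt
  have hb0 := C3_ds_nonneg p p'
  have hc0 := C3_dr_nonneg p p'
  have hN0 : 0 ≤ dN p p' := le_max_of_le_right hc0
  have hN : S.kap * dN p p' ≤ du p p' := by
    unfold dN
    rw [mul_max_of_nonneg _ _ hk.le, mul_max_of_nonneg _ _ hk.le]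
    have g1 := mul_le_mul_of_nonneg_right k1 ha.le
    have g2 := mul_le_mul_of_nonneg_right k1 hb0
    refine max_le (max_le ?_ ?_) hc
    · linarith only [ha, g1]
    · linarith only [ha, hb, g2]
  have hηN : S.η * dN p p' ≤ du p p' / 1000 := by
    have := C3_eta_kap S hN0
    linarith only [hN, this]
  have h1' := abs_le.1 h1
  have h2' := abs_le.1 h2
  set a := du p p' with ha_def
  set b := ds p p' with hb_def
  set c := dr p p' with hc_def
  have hDu1 : Du ≤ 1001 / 1000 * a := by linarith only [hηN, h1']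
  have hDu2 : 999 / 1000 * a ≤ Du := by linarith only [hηN, h1']
  have hDs1 : Ds ≤ 3 * a := by linarith only [hηN, h2', hb]
  have hL0 : 0 < L := by linarith only [hL1]
  have q1 : 500 * a ≤ du (S.F p) (S.F p') := by
    rw [e1]
    have := mul_le_mul_of_nonneg_right hL1 hDu
    linarith only [hDu1, hDu2, this]
  have q2 : du (S.F p) (S.F p') ≤ 2 * lam * a := by
    rw [e1]
    calc L * Du ≤ (6 / 5 * lam) * (1001 / 1000 * a) := mul_le_mul hL2 hDu1 hDu (by positivity)
      _ ≤ 2 * lam * a := by linarith only [mul_pos lam_pos ha]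
  have q3 : ds (S.F p) (S.F p') ≤ a := by
    have h5 : 0 ≤ ds (S.F p) (S.F p') := C3_ds_nonneg _ _
    have := mul_le_mul_of_nonneg_right hL1 h5
    linarith only [e2, hDs1, h5, this]
  have hmax : max a b ≤ 2 * a := max_le (by linarith only [hDu1, hDu2]) hb
  have hC := C3_C_pos S
  have q4 : S.kap * dr (S.F p) (S.F p') ≤ 2 * a := by
    have h5 : dr (S.F p) (S.F p') ≤ 8 / 5 * c + 4 * S.C * a := by
      have : 2 * S.C * max a b ≤ 2 * S.C * (2 * a) :=
        mul_le_mul_of_nonneg_left hmax (by linarith only [hC])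
      linarith only [e3, this]
    calc S.kap * dr (S.F p) (S.F p') ≤ S.kap * (8 / 5 * c + 4 * S.C * a) :=
          mul_le_mul_of_nonneg_left h5 hk.le
      _ = 8 / 5 * (S.kap * c) + 4 * (S.C * S.kap) * a := by ring
      _ ≤ 2 * a := by
        have := mul_le_mul_of_nonneg_right k2 ha.le
        linarith only [hc, hDu1, hDu2, this]
  exact ⟨⟨by linarith only [ha, q1], by linarith only [hDu1, hDu2, q1, q3], by linarith only [hDu1, hDu2, q1, q4]⟩, q1, q2⟩

/-- The estimates for the inverse map, with all intermediate quantities. -/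
theorem C3_symm_aux (S : Setup) (p p' : P) (hr : dr p p' ≤ 1) :
    dr (S.F.symm p) (S.F.symm p') ≤ 3 * dr p p' + 6 * S.C * lam * max (2 * lam * ds p p') (du p p') ∧
    S.η * dN (S.F.symm p) (S.F.symm p') ≤
      S.η * (3 * dr p p' + 12 * S.C * lam ^ 2 * max (ds p p') (du p p')) ∧
    du (S.F.symm p) (S.F.symm p') ≤ du p p' / 800 + S.η * dN (S.F.symm p) (S.F.symm p') ∧
    ds (S.F.symm p) (S.F.symm p') ≤
      6 / 5 * lam * ds p p' + S.η * dN (S.F.symm p) (S.F.symm p') ∧
    800 * ds p p' ≤ ds (S.F.symm p) (S.F.symm p') +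
      S.η * dN (S.F.symm p) (S.F.symm p') := by
  have hz : S.F (S.F.symm p) = p := S.F.apply_symm_apply p
  have hz' : S.F (S.F.symm p') = p' := S.F.apply_symm_apply p'
  set z := S.F.symm p with hzd
  set z' := S.F.symm p' with hzd'
  have hr2 : dr z z' ≤ 2 := by
    have g1 := abs_le.1 (height_F_symm S p)
    have g2 := abs_le.1 (height_F_symm S p')
    have g3 := abs_le.1 hr
    unfold dr
    rw [abs_le]
    constructor <;> linarith only [g1, g2, g3]
  obtain ⟨L, Du, Ds, hL1, hL2, hDu, hDs, h1, h2, e1, e2, -, e4⟩ := C3_basic S z z' hr2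
  rw [hz, hz'] at e1 e2 e4
  obtain ⟨k1, k2, k3⟩ := C3_eta S
  have hη := S.eta_pos
  have hC := S.one_le_C
  have hlam := lam_gt
  have h1' := abs_le.1 h1
  have h2' := abs_le.1 h2
  have hA0 := C3_du_nonneg p p'
  have hB0 := C3_ds_nonneg p p'
  have hR0 := C3_dr_nonneg p p'
  have ha0 := C3_du_nonneg z z'
  have hb0 := C3_ds_nonneg z z'
  have hc0 := C3_dr_nonneg z z'
  have hN0 : 0 ≤ dN z z' := le_max_of_le_right hc0
  have hNdef : dN z z' = max (max (du z z') (ds z z')) (dr z z') := rfl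
  set A := du p p'
  set B := ds p p'
  set R := dr p p'
  set a := du z z'
  set b := ds z z'
  set c := dr z z'
  set N := dN z z'
  set m := max a b with hm
  have hm0 : 0 ≤ m := le_max_of_le_left ha0
  have hL0 : 0 < L := by linarith only [hL1]
  have hηN0 : 0 ≤ S.η * N := mul_nonneg hη.le hN0
  -- the three estimates
  have fa : a ≤ A / 800 + S.η * N := by
    have : Du ≤ A / 800 := by
      have := mul_le_mul_of_nonneg_right hL1 hDu
      linarith only [e1, this]
    linarith only [h1', this]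
  have fb : b ≤ 6 / 5 * lam * B + S.η * N := by
    have : Ds ≤ 6 / 5 * lam * B := by
      rw [← e2]
      exact mul_le_mul_of_nonneg_right hL2 hB0
    linarith only [h2', this]
  have fb' : 800 * B ≤ b + S.η * N := by
    have : 800 * B ≤ Ds := by
      rw [← e2]
      exact mul_le_mul_of_nonneg_right hL1 hB0
    linarith only [h2', this]
  have fc : c ≤ 5 / 2 * R + 5 * S.C * m := by linarith only [e4]
  have hNm : N ≤ m + c := by
    rw [hNdef]
    exact max_le (by linarith only [hc0]) (by linarith only [hm0])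
  have hCm : m ≤ S.C * m := le_mul_of_one_le_left hm0 hC
  have hN1 : N ≤ 5 / 2 * R + 6 * (S.C * m) := by linarith only [fc, hNm, hCm]
  -- bound for `m`
  set T := max (6 / 5 * lam * B) (A / 800) with hT
  have hT0 : 0 ≤ T := le_max_of_le_right (by positivity)
  have hmT : m ≤ T + S.η * N := by
    refine max_le ?_ ?_
    · have := le_max_right (6 / 5 * lam * B) (A / 800)
      linarith only [fa, this]
    · have := le_max_left (6 / 5 * lam * B) (A / 800)
      linarith only [fb, this]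
  have hηN : S.η * N ≤ 5 / 2 * (S.η * R) + 6 * ((S.C * S.η) * m) := by
    have := mul_le_mul_of_nonneg_left hN1 hη.le
    calc S.η * N ≤ S.η * (5 / 2 * R + 6 * (S.C * m)) := this
      _ = _ := by ring
  have hηR : 0 ≤ S.η * R := mul_nonneg hη.le hR0
  have hCηm : (S.C * S.η) * m ≤ 1 / 10 ^ 5 * m := mul_le_mul_of_nonneg_right k1 hm0
  have hm1 : m ≤ 11 / 10 * T + 3 * (S.η * R) := by
    norm_num at hCηm
    linarith only [hT0, hmT, hηN, hηR, hCηm]
  -- `C * m`
  have hCm1 : S.C * m ≤ 11 / 10 * (S.C * T) + 3 * ((S.C * S.η) * R) := by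
    have := mul_le_mul_of_nonneg_left hm1 (by linarith only [hC] : (0 : ℝ) ≤ S.C)
    calc S.C * m ≤ S.C * (11 / 10 * T + 3 * (S.η * R)) := this
      _ = _ := by ring
  have hCηR : (S.C * S.η) * R ≤ 1 / 10 ^ 5 * R := mul_le_mul_of_nonneg_right k1 hR0
  norm_num at hCηR
  have hC0 : (0 : ℝ) < S.C := by linarith only [hC]
  have hc2 : c ≤ 3 * R + 11 / 2 * (S.C * T) := by linarith only [hR0, fc, hCm1, hCηR]
  have hN2 : N ≤ 3 * R + 33 / 5 * (S.C * T) := by linarith only [hNm, hCm, hN1, hCm1, hCηR, hc2]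
  have hTle1 : T ≤ 3 / 5 * max (2 * lam * B) A := by
    refine max_le ?_ ?_
    · have := le_max_left (2 * lam * B) A
      linarith only [this]
    · have := le_max_right (2 * lam * B) A
      linarith only [hA0, this]
  have hmx0 : 0 ≤ max (2 * lam * B) A := le_max_of_le_right hA0
  have hmy0 : 0 ≤ max B A := le_max_of_le_right hA0
  have hTle2 : T ≤ 6 / 5 * lam * max B A := by
    refine max_le ?_ ?_
    · exact mul_le_mul_of_nonneg_left (le_max_left _ _) (by positivity)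
    · have h8 := le_max_right B A
      have h9 : max B A ≤ 6 / 5 * lam * max B A := le_mul_of_one_le_left hmy0 (by linarith only [hlam])
      linarith only [hmy0, h8, h9]
  refine ⟨?_, ?_, fa, fb, fb'⟩
  · -- `dr`
    have h5 : S.C * T ≤ S.C * (3 / 5 * max (2 * lam * B) A) :=
      mul_le_mul_of_nonneg_left hTle1 hC0.le
    have h6 : 0 ≤ S.C * max (2 * lam * B) A := mul_nonneg hC0.le hmx0
    calc c ≤ 3 * R + 11 / 2 * (S.C * T) := hc2
      _ ≤ 3 * R + 6 * (S.C * max (2 * lam * B) A) := by linarith only [h5, h6]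
      _ ≤ 3 * R + 6 * S.C * lam * max (2 * lam * B) A := by
        have h8 := le_mul_of_one_le_left h6 C3_one_le_lam
        linarith only [h8]
  · refine mul_le_mul_of_nonneg_left ?_ hη.le
    have h5 : S.C * T ≤ S.C * (6 / 5 * lam * max B A) := mul_le_mul_of_nonneg_left hTle2 hC0.le
    have h6 : 0 ≤ S.C * max B A := mul_nonneg hC0.le hmy0
    have h7 : 0 ≤ lam * (S.C * max B A) := mul_nonneg lam_pos.le h6
    calc N ≤ 3 * R + 33 / 5 * (S.C * T) := hN2
      _ ≤ 3 * R + 33 / 5 * (S.C * (6 / 5 * lam * max B A)) := by linarith only [h5]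
      _ = 3 * R + 198 / 25 * (lam * (S.C * max B A)) := by ring
      _ ≤ 3 * R + 12 * (lam * (lam * (S.C * max B A))) := by
        have h8 := le_mul_of_one_le_left h7 C3_one_le_lam
        linarith only [h7, h8]
      _ = 3 * R + 12 * S.C * lam ^ 2 * max B A := by ring

theorem SCone_F_symm (S : Setup) {p p' : P} (h : SCone S.kap p p') (hr : dr p p' ≤ 1) :
    SCone S.kap (S.F.symm p) (S.F.symm p') ∧ 500 * ds p p' ≤ ds (S.F.symm p) (S.F.symm p') ∧
      ds (S.F.symm p) (S.F.symm p') ≤ 2 * lam * ds p p' := by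
  obtain ⟨hB, hA, hR⟩ := h
  obtain ⟨f1, f2, f3, f4, f5⟩ := C3_symm_aux S p p' hr
  obtain ⟨k1, k2, k3⟩ := C3_kap S
  obtain ⟨j1, j2, j3⟩ := C3_eta S
  have hk := kap_pos S
  have hη := S.eta_pos
  have hlam := lam_gt
  have hR0 := C3_dr_nonneg p p'
  have hA0 := C3_du_nonneg p p'
  have hC0 := C3_C_pos S
  set B := ds p p'
  set A := du p p'
  set R := dr p p'
  have hmax : max B A ≤ 2 * B := max_le (by linarith only [hB]) hA
  have hηR : S.η * R ≤ B / 1000 := by
    have := C3_eta_kap S hR0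
    linarith only [hR, this]
  have hηN : S.η * dN (S.F.symm p) (S.F.symm p') ≤ B / 100 := by
    refine f2.trans ?_
    have h5 : S.C * lam ^ 2 * S.η * max B A ≤ 1 / 10 ^ 5 * (2 * B) :=
      mul_le_mul j2 hmax (le_max_of_le_right hA0) (by positivity)
    calc S.η * (3 * R + 12 * S.C * lam ^ 2 * max B A)
        = 3 * (S.η * R) + 12 * (S.C * lam ^ 2 * S.η * max B A) := by ring
      _ ≤ 3 * (B / 1000) + 12 * (1 / 10 ^ 5 * (2 * B)) := by linarith only [hηR, h5]
      _ ≤ B / 100 := by norm_num; linarith only [hA0, hA]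
  have hlB : B ≤ lam * B := le_mul_of_one_le_left hB.le C3_one_le_lam
  have q1 : 500 * B ≤ ds (S.F.symm p) (S.F.symm p') := by linarith only [f5, hA0, hA, hηN]
  have q2 : ds (S.F.symm p) (S.F.symm p') ≤ 2 * lam * B := by linarith only [hB, f4, hηN, q1]
  have q3 : du (S.F.symm p) (S.F.symm p') ≤ B := by linarith only [f3, hA0, hA, hηN]
  have q4 : S.kap * dr (S.F.symm p) (S.F.symm p') ≤ 4 * B := by
    have hmx : max (2 * lam * B) A ≤ 2 * lam * B := max_le le_rfl (by linarith only [hA, hlB])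
    have h6 : dr (S.F.symm p) (S.F.symm p') ≤ 3 * R + 6 * S.C * lam * (2 * lam * B) := by
      refine f1.trans ?_
      have := mul_le_mul_of_nonneg_left hmx (by positivity : (0 : ℝ) ≤ 6 * S.C * lam)
      linarith only [this]
    calc S.kap * dr (S.F.symm p) (S.F.symm p')
        ≤ S.kap * (3 * R + 6 * S.C * lam * (2 * lam * B)) := mul_le_mul_of_nonneg_left h6 hk.le
      _ = 3 * (S.kap * R) + 12 * ((S.C * lam ^ 2 * S.kap) * B) := by ring
      _ ≤ 4 * B := by
        have := mul_le_mul_of_nonneg_right k3 hB.le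
        linarith only [hA0, hA, hR, this]
  exact ⟨⟨by linarith only [hB, q1], by linarith only [hA0, hA, q1, q3], by linarith only [hA0, hA, q1, q4]⟩, q1, q2⟩

/-- General bounds for the inverse map: with `z = F⁻¹ p`, `z' = F⁻¹ p'`. -/
theorem symm_bounds (S : Setup) (p p' : P) (hr : dr p p' ≤ 1) :
    dr (S.F.symm p) (S.F.symm p') ≤ 3 * dr p p' + 6 * S.C * lam * max (2 * lam * ds p p') (du p p') ∧
    du (S.F.symm p) (S.F.symm p') ≤
      (1 / 500) * du p p' + S.η * (3 * dr p p' + 12 * S.C * lam ^ 2 * max (ds p p') (du p p')) ∧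
    ds (S.F.symm p) (S.F.symm p') ≤
      2 * lam * ds p p' + S.η * (3 * dr p p' + 12 * S.C * lam ^ 2 * max (ds p p') (du p p')) := by
  obtain ⟨f1, f2, f3, f4, -⟩ := C3_symm_aux S p p' hr
  have hA0 := C3_du_nonneg p p'
  have hB0 := C3_ds_nonneg p p'
  have h1 : 0 ≤ lam * ds p p' := mul_nonneg lam_pos.le hB0
  exact ⟨f1, by linarith only [f2, f3, hA0], by linarith only [f2, f4, h1]⟩

end

end MPd1f192
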