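import Pool.Agent.W_MP_d1f192_an.C0
import Pool.Agent.W_MP_d1f192_an.C3

section PartC4

/-! # C4. leaves: points with the same `(π_u, π_s)` -/

open MeasureTheory Set Filter Topology
open scoped ContDiff

namespace MPd1f192

noncomputable section

theorem C4_du_nonneg (p p' : P) : 0 ≤ du p p' :=
  mul_nonneg (Real.rpow_nonneg lam_pos.le _) (abs_nonneg _)

theorem C4_ds_nonneg (p p' : P) : 0 ≤ ds p p' :=
  mul_nonneg (Real.rpow_nonneg lam_pos.le _) (abs_nonneg _)

theorem C4_dr_nonneg (p p' : P) : 0 ≤ dr p p' := abs_nonneg _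

theorem C4_one_le_lam : 1 ≤ lam := by linarith only [lam_gt]

theorem C4_rpow_le_lam {t : ℝ} (ht : t ≤ 1) : lam ^ t ≤ lam := by
  calc lam ^ t ≤ lam ^ (1 : ℝ) := Real.rpow_le_rpow_of_exponent_le C4_one_le_lam ht
    _ = lam := Real.rpow_one _

theorem C4_du_small (S : Setup) {p p' : P} (h : piu S p = piu S p') (hr : dr p p' ≤ 1) :
    du p p' ≤ 4 * S.η * lam := by
  have h1 := piu_near S p
  have h2 := piu_near S p'
  have hpos : 0 < lam ^ (p.2.2 : ℝ) := Real.rpow_pos_of_pos lam_pos _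
  have hpos' : 0 < lam ^ (p'.2.2 : ℝ) := Real.rpow_pos_of_pos lam_pos _
  have h3 : lam ^ (p.2.2 : ℝ) = lam ^ (p.2.2 - p'.2.2 : ℝ) * lam ^ (p'.2.2 : ℝ) := by
    rw [← Real.rpow_add lam_pos]
    congr 1
    ring
  have h4 : lam ^ (p.2.2 - p'.2.2 : ℝ) ≤ lam := C4_rpow_le_lam ((le_abs_self _).trans hr)
  have h5 : |p.1 - p'.1| ≤ |piu S p - p.1| + |piu S p' - p'.1| := by
    have : p.1 - p'.1 = -(piu S p - p.1) + (piu S p' - p'.1) := by rw [h]; ring
    rw [this]
    refine (abs_add_le _ _).trans ?_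
    rw [abs_neg]
  have h6 : lam ^ (p.2.2 : ℝ) * |piu S p' - p'.1| ≤ lam * (2 * S.η) := by
    rw [h3, mul_assoc]
    have h7 : 0 ≤ lam ^ (p'.2.2 : ℝ) * |piu S p' - p'.1| := by positivity
    calc lam ^ (p.2.2 - p'.2.2 : ℝ) * (lam ^ (p'.2.2 : ℝ) * |piu S p' - p'.1|)
        ≤ lam * (lam ^ (p'.2.2 : ℝ) * |piu S p' - p'.1|) := mul_le_mul_of_nonneg_right h4 h7
      _ ≤ lam * (2 * S.η) := mul_le_mul_of_nonneg_left h2 lam_pos.le
  have h8 : du p p' ≤ 2 * S.η + lam * (2 * S.η) := by
    unfold du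
    calc lam ^ (p.2.2 : ℝ) * |p.1 - p'.1| ≤ lam ^ (p.2.2 : ℝ) * (|piu S p - p.1| + |piu S p' - p'.1|) :=
          mul_le_mul_of_nonneg_left h5 hpos.le
      _ = lam ^ (p.2.2 : ℝ) * |piu S p - p.1| + lam ^ (p.2.2 : ℝ) * |piu S p' - p'.1| := by ring
      _ ≤ _ := add_le_add h1 h6
  have h9 := C4_one_le_lam
  have h10 := S.eta_pos
  nlinarith only [h8, h9, h10]

theorem C4_ds_small (S : Setup) {p p' : P} (h : pis S p = pis S p') (hr : dr p p' ≤ 1) :
    ds p p' ≤ 4 * S.η * lam := by
  have h1 := pis_near S p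
  have h2 := pis_near S p'
  have hpos : 0 < lam ^ (-p.2.2 : ℝ) := Real.rpow_pos_of_pos lam_pos _
  have hpos' : 0 < lam ^ (-p'.2.2 : ℝ) := Real.rpow_pos_of_pos lam_pos _
  have h3 : lam ^ (-p.2.2 : ℝ) = lam ^ (-p.2.2 + p'.2.2 : ℝ) * lam ^ (-p'.2.2 : ℝ) := by
    rw [← Real.rpow_add lam_pos]
    congr 1
    ring
  have h4 : lam ^ (-p.2.2 + p'.2.2 : ℝ) ≤ lam := by
    refine C4_rpow_le_lam ?_
    have : -p.2.2 + p'.2.2 = -(p.2.2 - p'.2.2) := by ring
    rw [this]
    exact (neg_le_abs _).trans hr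
  have h5 : |p.2.1 - p'.2.1| ≤ |pis S p - p.2.1| + |pis S p' - p'.2.1| := by
    have : p.2.1 - p'.2.1 = -(pis S p - p.2.1) + (pis S p' - p'.2.1) := by rw [h]; ring
    rw [this]
    refine (abs_add_le _ _).trans ?_
    rw [abs_neg]
  have h6 : lam ^ (-p.2.2 : ℝ) * |pis S p' - p'.2.1| ≤ lam * (2 * S.η) := by
    rw [h3, mul_assoc]
    have h7 : 0 ≤ lam ^ (-p'.2.2 : ℝ) * |pis S p' - p'.2.1| := by positivity
    calc lam ^ (-p.2.2 + p'.2.2 : ℝ) * (lam ^ (-p'.2.2 : ℝ) * |pis S p' - p'.2.1|)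
        ≤ lam * (lam ^ (-p'.2.2 : ℝ) * |pis S p' - p'.2.1|) := mul_le_mul_of_nonneg_right h4 h7
      _ ≤ lam * (2 * S.η) := mul_le_mul_of_nonneg_left h2 lam_pos.le
  have h8 : ds p p' ≤ 2 * S.η + lam * (2 * S.η) := by
    unfold ds
    calc lam ^ (-p.2.2 : ℝ) * |p.2.1 - p'.2.1|
        ≤ lam ^ (-p.2.2 : ℝ) * (|pis S p - p.2.1| + |pis S p' - p'.2.1|) :=
          mul_le_mul_of_nonneg_left h5 hpos.le
      _ = lam ^ (-p.2.2 : ℝ) * |pis S p - p.2.1| + lam ^ (-p.2.2 : ℝ) * |pis S p' - p'.2.1| := by ring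
      _ ≤ _ := add_le_add h1 h6
  have h9 := C4_one_le_lam
  have h10 := S.eta_pos
  nlinarith only [h8, h9, h10]

/-- a bound of the form `kap * t ≤ 8 η lam²` gives `t ≤ 1` -/
theorem C4_le_one (S : Setup) {t : ℝ} (h : S.kap * t ≤ 8 * S.η * lam ^ 2) : t ≤ 1 := by
  by_contra hlt
  rw [not_le] at hlt
  have h1 : S.kap * 1 < S.kap * t := mul_lt_mul_of_pos_left hlt (kap_pos S)
  have h2 : 0 < S.η * lam ^ 2 := mul_pos S.eta_pos (pow_pos lam_pos 2)
  have h3 : S.kap = 1000 * lam * (S.η * lam ^ 2) := by unfold Setup.kap; ring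
  have h4 := C4_one_le_lam
  nlinarith only [h, h1, h2, h3, h4]

theorem C4_no_growth {a c : ℝ} (ha : 0 < a) (h : ∀ n : ℕ, 500 ^ n * a ≤ c) : False := by
  obtain ⟨n, hn⟩ := pow_unbounded_of_one_lt (c / a) (by norm_num : (1 : ℝ) < 500)
  have h1 := h n
  rw [div_lt_iff₀ ha] at hn
  linarith only [hn, h1]

theorem not_UCone (S : Setup) {p p' : P} (h : piu S p = piu S p') (hr : dr p p' ≤ 1) :
    ¬ UCone S.kap p p' := by
  intro hU
  have key : ∀ n : ℕ, UCone S.kap ((S.F)^[n] p) ((S.F)^[n] p') ∧ dr ((S.F)^[n] p) ((S.F)^[n] p') ≤ 1 ∧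
      piu S ((S.F)^[n] p) = piu S ((S.F)^[n] p') ∧ 500 ^ n * du p p' ≤ du ((S.F)^[n] p) ((S.F)^[n] p') := by
    intro n
    induction n with
    | zero => exact ⟨hU, hr, h, by simp⟩
    | succ n ih =>
      obtain ⟨h1, h2, h3, h4⟩ := ih
      rw [Function.iterate_succ_apply', Function.iterate_succ_apply']
      obtain ⟨h5, h6, h7⟩ := UCone_F S h1 (h2.trans (by norm_num))
      have h8 := C4_du_small S h3 h2
      refine ⟨h5, ?_, ?_, ?_⟩
      · refine C4_le_one S ?_
        refine h5.2.2.trans (h7.trans ?_)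
        have := lam_pos
        nlinarith only [h8, this]
      · rw [piu_F, piu_F, h3]
      · rw [pow_succ]
        nlinarith only [h4, h6]
  exact C4_no_growth hU.1 (fun n => (key n).2.2.2.trans (C4_du_small S (key n).2.2.1 (key n).2.1))

theorem C4_pis_F_symm (S : Setup) (p : P) : pis S (S.F.symm p) = pis S p := by
  have h := pis_F S (S.F.symm p)
  rw [S.F.apply_symm_apply] at h
  exact h.symm

theorem not_SCone (S : Setup) {p p' : P} (h : pis S p = pis S p') (hr : dr p p' ≤ 1) :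
    ¬ SCone S.kap p p' := by
  intro hU
  have key : ∀ n : ℕ, SCone S.kap ((S.F.symm)^[n] p) ((S.F.symm)^[n] p') ∧
      dr ((S.F.symm)^[n] p) ((S.F.symm)^[n] p') ≤ 1 ∧
      pis S ((S.F.symm)^[n] p) = pis S ((S.F.symm)^[n] p') ∧
      500 ^ n * ds p p' ≤ ds ((S.F.symm)^[n] p) ((S.F.symm)^[n] p') := by
    intro n
    induction n with
    | zero => exact ⟨hU, hr, h, by simp⟩
    | succ n ih =>
      obtain ⟨h1, h2, h3, h4⟩ := ih
      rw [Function.iterate_succ_apply', Function.iterate_succ_apply']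
      obtain ⟨h5, h6, h7⟩ := SCone_F_symm S h1 h2
      have h8 := C4_ds_small S h3 h2
      refine ⟨h5, ?_, ?_, ?_⟩
      · refine C4_le_one S ?_
        refine h5.2.2.trans (h7.trans ?_)
        have := lam_pos
        nlinarith only [h8, this]
      · rw [C4_pis_F_symm, C4_pis_F_symm, h3]
      · rw [pow_succ]
        nlinarith only [h4, h6]
  exact C4_no_growth hU.1 (fun n => (key n).2.2.2.trans (C4_ds_small S (key n).2.2.1 (key n).2.1))

/-- Points with the same unstable coordinate. -/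
theorem du_le_of_piu_eq (S : Setup) {p p' : P} (h : piu S p = piu S p') (hr : dr p p' ≤ 1) :
    du p p' ≤ max ((1 / 2) * ds p p') (S.kap * dr p p') := by
  have h1 := not_UCone S h hr
  have h2 := C4_du_nonneg p p'
  have h3 : 0 ≤ S.kap * dr p p' := mul_nonneg (kap_pos S).le (C4_dr_nonneg p p')
  by_contra hlt
  rw [not_le, max_lt_iff] at hlt
  exact h1 ⟨lt_of_le_of_lt h3 hlt.2, by linarith only [hlt.1], hlt.2.le⟩

theorem ds_le_of_pis_eq (S : Setup) {p p' : P} (h : pis S p = pis S p') (hr : dr p p' ≤ 1) :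
    ds p p' ≤ max ((1 / 2) * du p p') (S.kap * dr p p') := by
  have h1 := not_SCone S h hr
  have h3 : 0 ≤ S.kap * dr p p' := mul_nonneg (kap_pos S).le (C4_dr_nonneg p p')
  by_contra hlt
  rw [not_le, max_lt_iff] at hlt
  exact h1 ⟨lt_of_le_of_lt h3 hlt.2, by linarith only [hlt.1], hlt.2.le⟩

/-- Slopes of the leaves. -/
theorem slope_leaf (S : Setup) {p p' : P} (hu : piu S p = piu S p') (hs : pis S p = pis S p')
    (hr : dr p p' ≤ 1) : du p p' ≤ S.kap * dr p p' ∧ ds p p' ≤ S.kap * dr p p' := by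
  have h1 := du_le_of_piu_eq S hu hr
  have h2 := ds_le_of_pis_eq S hs hr
  have h3 : 0 ≤ S.kap * dr p p' := mul_nonneg (kap_pos S).le (C4_dr_nonneg p p')
  have h4 := C4_du_nonneg p p'
  have h5 := C4_ds_nonneg p p'
  rcases le_max_iff.1 h1 with h6 | h6
  · rcases le_max_iff.1 h2 with h7 | h7
    · constructor <;> linarith only [h3, h6, h7]
    · constructor <;> linarith only [h5, h6, h7]
  · rcases le_max_iff.1 h2 with h7 | h7
    · constructor <;> linarith only [h6, h5, h7]
    · exact ⟨h6, h7⟩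

theorem C4_du_eq_zero {p p' : P} (h : du p p' ≤ 0) : p.1 = p'.1 := by
  have h1 : 0 < lam ^ (p.2.2 : ℝ) := Real.rpow_pos_of_pos lam_pos _
  have h2 : |p.1 - p'.1| ≤ 0 := by
    by_contra h3
    rw [not_le] at h3
    have := mul_pos h1 h3
    unfold du at h
    linarith only [h, this]
  have h3 : p.1 - p'.1 = 0 := abs_nonpos_iff.1 h2
  linarith only [h3]

theorem C4_ds_eq_zero {p p' : P} (h : ds p p' ≤ 0) : p.2.1 = p'.2.1 := by
  have h1 : 0 < lam ^ (-p.2.2 : ℝ) := Real.rpow_pos_of_pos lam_pos _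
  have h2 : |p.2.1 - p'.2.1| ≤ 0 := by
    by_contra h3
    rw [not_le] at h3
    have := mul_pos h1 h3
    unfold ds at h
    linarith only [h, this]
  have h3 : p.2.1 - p'.2.1 = 0 := abs_nonpos_iff.1 h2
  linarith only [h3]

/-- Two points of the same leaf at the same height are equal. -/
theorem eq_of_leaf (S : Setup) {p p' : P} (hu : piu S p = piu S p') (hs : pis S p = pis S p')
    (hr : p.2.2 = p'.2.2) : p = p' := by
  have h0 : dr p p' = 0 := by unfold dr; rw [hr]; simp
  obtain ⟨h1, h2⟩ := slope_leaf S hu hs (by rw [h0]; norm_num)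
  rw [h0, mul_zero] at h1 h2
  exact Prod.ext (C4_du_eq_zero h1) (Prod.ext (C4_ds_eq_zero h2) hr)

/-- intermediate value theorem for functions at bounded distance from the identity -/
theorem C4_ivt {f : ℝ → ℝ} (hf : Continuous f) {c : ℝ} (hc : ∀ t, |f t - t| ≤ c) (x : ℝ) : ∃ t, f t = x := by
  have h1 : f (x - c) ≤ x := by
    have := (le_abs_self _).trans (hc (x - c))
    linarith only [this]
  have h2 : x ≤ f (x + c) := by
    have := (neg_le_abs _).trans (hc (x + c))
    linarith only [this]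
  have hc0 : 0 ≤ c := (abs_nonneg _).trans (hc 0)
  have h3 : x - c ≤ x + c := by linarith only [hc0]
  have h4 := intermediate_value_Icc h3 hf.continuousOn
  obtain ⟨t, -, ht⟩ := h4 ⟨h1, h2⟩
  exact ⟨t, ht⟩

/-- Every leaf has a point at every height. -/
theorem exists_leaf_point (S : Setup) (x y r : ℝ) :
    ∃ p : P, piu S p = x ∧ pis S p = y ∧ p.2.2 = r := by
  have hpos : 0 < lam ^ (r : ℝ) := Real.rpow_pos_of_pos lam_pos _
  have hpos' : 0 < lam ^ (-r : ℝ) := Real.rpow_pos_of_pos lam_pos _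
  have hex : ∀ s : ℝ, ∃ u : ℝ, piu S (u, s, r) = x := by
    intro s
    refine C4_ivt (f := fun u => piu S (u, s, r)) (c := (lam ^ (r : ℝ))⁻¹ * (2 * S.η)) ?_ ?_ x
    · exact (continuous_piu S).comp (by fun_prop)
    · intro u
      have h := piu_near S (u, s, r)
      simp only at h
      rw [le_inv_mul_iff₀ hpos]
      exact h
  choose U hU using hex
  have hUlip : ∀ s s' : ℝ, |U s - U s'| ≤ (lam ^ (r : ℝ))⁻¹ * ((1 / 2) * lam ^ (-r : ℝ)) * |s - s'| := by
    intro s s'
    have h := du_le_of_piu_eq S (p := (U s, s, r)) (p' := (U s', s', r)) (by rw [hU, hU]) (by simp [dr])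
    have h1 : dr ((U s, s, r) : P) (U s', s', r) = 0 := by simp [dr]
    rw [h1, mul_zero, max_eq_left (by have := C4_ds_nonneg ((U s, s, r) : P) (U s', s', r); linarith only [this])] at h
    unfold du ds at h
    simp only at h
    rw [mul_assoc, le_inv_mul_iff₀ hpos, mul_assoc]
    exact h
  have hUcont : Continuous U := by
    have hnn : 0 ≤ (lam ^ (r : ℝ))⁻¹ * ((1 / 2) * lam ^ (-r : ℝ)) := by positivity
    have : LipschitzWith ⟨_, hnn⟩ U := by
      refine LipschitzWith.of_dist_le_mul fun s s' => ?_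
      rw [Real.dist_eq, Real.dist_eq]
      exact hUlip s s'
    exact this.continuous
  obtain ⟨s, hs⟩ := C4_ivt (f := fun s => pis S (U s, s, r)) (c := (lam ^ (-r : ℝ))⁻¹ * (2 * S.η))
    ((continuous_pis S).comp (by fun_prop)) (by
      intro s
      have h := pis_near S (U s, s, r)
      simp only at h
      rw [le_inv_mul_iff₀ hpos']
      exact h) y
  exact ⟨(U s, s, r), hU s, hs, rfl⟩

end

end MPd1f192

end PartC4

section PartC5

/-! # C5. the homeomorphism `H` onto leaf coordinates -/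

open MeasureTheory Set Filter Topology
open scoped ContDiff

namespace MPd1f192

noncomputable section

/-- the map `p ↦ (π_u p, π_s p, height p)` -/
def C5Phi (S : Setup) (p : P) : P := (piu S p, pis S p, p.2.2)

theorem C5_continuous (S : Setup) : Continuous (C5Phi S) :=
  (continuous_piu S).prodMk ((continuous_pis S).prodMk (continuous_snd.comp continuous_snd))

theorem C5_bijective (S : Setup) : Function.Bijective (C5Phi S) := by
  constructor
  · intro p p' h
    have h1 : piu S p = piu S p' := congrArg Prod.fst h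
    have h2 : pis S p = pis S p' := congrArg (fun q : P => q.2.1) h
    have h3 : p.2.2 = p'.2.2 := (Prod.ext_iff.mp (Prod.ext_iff.mp h).2).2
    exact eq_of_leaf S h1 h2 h3
  · rintro ⟨x, y, r⟩
    obtain ⟨p, h1, h2, h3⟩ := exists_leaf_point S x y r
    refine ⟨p, ?_⟩
    simp only [C5Phi, h1, h2, h3]

theorem C5_abs_fst (S : Setup) (p : P) {R : ℝ} (hR : |p.2.2| ≤ R) :
    |piu S p - p.1| ≤ 2 * S.η * lam ^ (R : ℝ) ∧ |pis S p - p.2.1| ≤ 2 * S.η * lam ^ (R : ℝ) := by
  have hlam : (1 : ℝ) ≤ lam := by linarith only [lam_gt]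
  have hη := S.eta_pos
  have h1 := piu_near S p
  have h2 := pis_near S p
  have hb := abs_le.mp hR
  constructor
  · have e : |piu S p - p.1| = lam ^ (-p.2.2 : ℝ) * (lam ^ (p.2.2 : ℝ) * |piu S p - p.1|) := by
      rw [← mul_assoc, ← Real.rpow_add lam_pos]
      simp
    rw [e]
    have h3 : lam ^ (-p.2.2 : ℝ) ≤ lam ^ (R : ℝ) :=
      Real.rpow_le_rpow_of_exponent_le hlam (by linarith only [hb.1])
    calc lam ^ (-p.2.2 : ℝ) * (lam ^ (p.2.2 : ℝ) * |piu S p - p.1|)
        ≤ lam ^ (R : ℝ) * (2 * S.η) := by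
          refine mul_le_mul h3 h1 ?_ (Real.rpow_nonneg lam_pos.le _)
          exact mul_nonneg (Real.rpow_nonneg lam_pos.le _) (abs_nonneg _)
      _ = 2 * S.η * lam ^ (R : ℝ) := by ring
  · have e : |pis S p - p.2.1| = lam ^ (p.2.2 : ℝ) * (lam ^ (-p.2.2 : ℝ) * |pis S p - p.2.1|) := by
      rw [← mul_assoc, ← Real.rpow_add lam_pos]
      simp
    rw [e]
    have h3 : lam ^ (p.2.2 : ℝ) ≤ lam ^ (R : ℝ) :=
      Real.rpow_le_rpow_of_exponent_le hlam (by linarith only [hb.2])
    calc lam ^ (p.2.2 : ℝ) * (lam ^ (-p.2.2 : ℝ) * |pis S p - p.2.1|)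
        ≤ lam ^ (R : ℝ) * (2 * S.η) := by
          refine mul_le_mul h3 h2 ?_ (Real.rpow_nonneg lam_pos.le _)
          exact mul_nonneg (Real.rpow_nonneg lam_pos.le _) (abs_nonneg _)
      _ = 2 * S.η * lam ^ (R : ℝ) := by ring

theorem C5_compact_preimage (S : Setup) {K : Set P} (hK : IsCompact K) :
    IsCompact (C5Phi S ⁻¹' K) := by
  obtain ⟨R, hR⟩ := hK.isBounded.subset_closedBall (0 : P)
  refine IsCompact.of_isClosed_subset
    (isCompact_closedBall (0 : P) (|R| + 2 * S.η * lam ^ (|R| : ℝ)))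
    (hK.isClosed.preimage (C5_continuous S)) ?_
  intro p hp
  have hp' := hR hp
  rw [mem_closedBall_zero_iff] at hp' ⊢
  have hη := S.eta_pos
  have hpos : 0 ≤ 2 * S.η * lam ^ (|R| : ℝ) :=
    mul_nonneg (by linarith only [hη]) (Real.rpow_nonneg lam_pos.le _)
  have hRR : ‖C5Phi S p‖ ≤ |R| := hp'.trans (le_abs_self R)
  have h1 : |piu S p| ≤ |R| := (norm_fst_le (C5Phi S p)).trans hRR
  have h23 : ‖(C5Phi S p).2‖ ≤ |R| := (norm_snd_le (C5Phi S p)).trans hRR
  have h2 : |pis S p| ≤ |R| := (norm_fst_le (C5Phi S p).2).trans h23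
  have h3 : |p.2.2| ≤ |R| := (norm_snd_le (C5Phi S p).2).trans h23
  obtain ⟨h4, h5⟩ := C5_abs_fst S p h3
  rw [Prod.norm_def, Prod.norm_def]
  refine max_le ?_ (max_le ?_ ?_)
  · rw [Real.norm_eq_abs]
    have := abs_sub_abs_le_abs_sub p.1 (piu S p)
    rw [abs_sub_comm] at this
    linarith only [h1, h4, this]
  · rw [Real.norm_eq_abs]
    have := abs_sub_abs_le_abs_sub p.2.1 (pis S p)
    rw [abs_sub_comm] at this
    linarith only [h2, h5, this]
  · rw [Real.norm_eq_abs]
    linarith only [hpos, h3]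

/-- Leaf coordinates `p ↦ (π_u p, π_s p, height p)` as a homeomorphism. -/
theorem exists_H (S : Setup) : ∃ H : P ≃ₜ P, ∀ p, H p = (piu S p, pis S p, p.2.2) := by
  have hprop : IsProperMap (C5Phi S) :=
    isProperMap_iff_isCompact_preimage.mpr
      ⟨C5_continuous S, fun K hK => C5_compact_preimage S hK⟩
  refine ⟨(Equiv.ofBijective (C5Phi S) (C5_bijective S)).toHomeomorphOfContinuousClosed
    (C5_continuous S) hprop.isClosedMap, fun p => rfl⟩

/-- The chosen homeomorphism. -/
def Setup.H (S : Setup) : P ≃ₜ P := (exists_H S).choose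

theorem H_apply (S : Setup) (p : P) : S.H p = (piu S p, pis S p, p.2.2) :=
  (exists_H S).choose_spec p

theorem H_comm (S : Setup) (k m n : ℤ) (p : P) : S.H (act k m n p) = act k m n (S.H p) := by
  rw [H_apply, H_apply, piu_act, pis_act]
  rfl

theorem H_symm_comm (S : Setup) (k m n : ℤ) (p : P) :
    S.H.symm (act k m n p) = act k m n (S.H.symm p) := by
  rw [Homeomorph.symm_apply_eq, H_comm, Homeomorph.apply_symm_apply]

theorem H_symm_height (S : Setup) (p : P) : (S.H.symm p).2.2 = p.2.2 := by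
  have h := congrArg (fun q : P => q.2.2) (H_apply S (S.H.symm p))
  rw [Homeomorph.apply_symm_apply] at h
  exact h.symm

/-- `H` is close to the identity in scaled coordinates. -/
theorem H_near (S : Setup) (p : P) : du p (S.H p) ≤ 2 * S.η ∧ ds p (S.H p) ≤ 2 * S.η := by
  rw [H_apply]
  constructor
  · have h := piu_near S p
    rw [abs_sub_comm] at h
    exact h
  · have h := pis_near S p
    rw [abs_sub_comm] at h
    exact h

theorem H_symm_near (S : Setup) (p : P) :
    du p (S.H.symm p) ≤ 2 * S.η ∧ ds p (S.H.symm p) ≤ 2 * S.η := by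
  have h := H_near S (S.H.symm p)
  rw [Homeomorph.apply_symm_apply] at h
  have hh := H_symm_height S p
  constructor
  · have h1 := h.1
    unfold du at h1 ⊢
    rw [hh, abs_sub_comm] at h1
    exact h1
  · have h1 := h.2
    unfold ds at h1 ⊢
    rw [hh, abs_sub_comm] at h1
    exact h1

end

end MPd1f192

end PartC5

section PartC6

/-! # C6. Hölder estimates for the leaves -/

open MeasureTheory Set Filter Topology
open scoped ContDiff

namespace MPd1f192

noncomputable section

theorem C6_one_lt : (1 : ℝ) < lam := by linarith only [lam_gt]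

theorem C6_n1 : lam ^ (1 / 40 : ℝ) ≤ 2 := by
  have h1 : lam ≤ (2 : ℝ) ^ (40 : ℝ) := by
    have h2 : (2 : ℝ) ^ (40 : ℝ) = 2 ^ 40 := by
      rw [← Real.rpow_natCast]
      norm_num
    rw [h2]
    have := lam_lt
    norm_num
    linarith only [this]
  calc lam ^ (1 / 40 : ℝ) ≤ ((2 : ℝ) ^ (40 : ℝ)) ^ (1 / 40 : ℝ) :=
        Real.rpow_le_rpow lam_pos.le h1 (by norm_num)
    _ = 2 := by
        rw [← Real.rpow_mul (by norm_num)]
        norm_num

theorem C6_n2 : lam ^ (1 / 20 : ℝ) ≤ 4 := by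
  have h1 : lam ^ (1 / 20 : ℝ) = lam ^ (1 / 40 : ℝ) * lam ^ (1 / 40 : ℝ) := by
    rw [← Real.rpow_add lam_pos]
    norm_num
  have h2 := C6_n1
  have h3 : 0 < lam ^ (1 / 40 : ℝ) := Real.rpow_pos_of_pos lam_pos _
  rw [h1]
  nlinarith only [h2, h3]

theorem C6_n3 : lam ^ (-(39 / 40) : ℝ) ≤ 1 / 400 := by
  have h1 : lam ^ (-(39 / 40) : ℝ) = lam ^ (1 / 40 : ℝ) * lam ^ (-1 : ℝ) := by
    rw [← Real.rpow_add lam_pos]
    norm_num
  have h2 := C6_n1
  rw [h1, Real.rpow_neg_one]
  have h3 := lam_gt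
  have h4 := lam_pos
  rw [← div_eq_mul_inv, div_le_iff₀ h4]
  linarith only [h2, h3]

theorem C6_n4 : lam ^ (41 / 80 : ℝ) ≤ 200 := by
  have h1 : lam ^ (41 / 80 : ℝ) ≤ lam ^ (1 / 2 : ℝ) * lam ^ (1 / 40 : ℝ) := by
    rw [← Real.rpow_add lam_pos]
    apply Real.rpow_le_rpow_of_exponent_le C6_one_lt.le
    norm_num
  have h2 : lam ^ (1 / 2 : ℝ) ≤ 100 := by
    rw [← Real.sqrt_eq_rpow, Real.sqrt_le_left (by norm_num)]
    have := lam_lt
    norm_num
    linarith only [this]
  have h3 := C6_n1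
  have h4 : 0 < lam ^ (1 / 40 : ℝ) := Real.rpow_pos_of_pos lam_pos _
  have h5 : 0 < lam ^ (1 / 2 : ℝ) := Real.rpow_pos_of_pos lam_pos _
  nlinarith only [h1, h2, h3, h4]

theorem C6_eta (S : Setup) : S.η ≤ 1 / 10 ^ 5 := by
  have h1 := S.eta_small
  have h2 := S.one_le_C
  have h3 := S.eta_pos
  have h4 : (1 : ℝ) ≤ lam ^ 6 := one_le_pow₀ C6_one_lt.le
  have h5 : (1 : ℝ) ≤ S.C * lam ^ 6 := by nlinarith only [h2, h4]
  rw [le_div_iff₀ (by norm_num)]
  nlinarith only [h1, h5]

theorem C6_eta' (S : Setup) : S.η * (S.C * lam ^ 2) ≤ 1 / 10 ^ 5 := by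
  have h1 := S.eta_small
  have h2 := S.one_le_C
  have h3 := S.eta_pos
  have h4 : lam ^ 2 ≤ lam ^ 6 := pow_le_pow_right₀ C6_one_lt.le (by norm_num)
  have h5 : S.C * lam ^ 2 ≤ S.C * lam ^ 6 := mul_le_mul_of_nonneg_left h4 (by linarith only [h2])
  have h6 : S.η * (S.C * lam ^ 2) ≤ S.η * (S.C * lam ^ 6) := mul_le_mul_of_nonneg_left h5 h3.le
  rw [le_div_iff₀ (by norm_num)]
  nlinarith only [h1, h6]

theorem C6_kap (S : Setup) : S.kap * S.C ≤ 1 / 10 ^ 5 := by
  have h1 := kap_small S
  have h2 := kap_pos S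
  have h3 := S.one_le_C
  have h4 : (10 : ℝ) ^ 3 ≤ lam ^ 3 := pow_le_pow_left₀ (by norm_num) (by linarith only [lam_gt]) 3
  have h5 : 0 < S.kap * S.C := mul_pos h2 (by linarith only [h3])
  rw [le_div_iff₀ (by norm_num)]
  nlinarith only [h1, h4]

theorem C6_kap' (S : Setup) : S.kap * (S.C * lam ^ 2) ≤ 1 / 10 ^ 4 := by
  have h1 := kap_small S
  have h2 := kap_pos S
  have h3 := S.one_le_C
  have h4 : 0 < S.kap * (S.C * lam ^ 2) := by
    have := lam_pos
    positivity
  have h5 := lam_gt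
  have h6 : 100 * (S.kap * (S.C * lam ^ 2)) * lam ≤ 1 := by
    calc 100 * (S.kap * (S.C * lam ^ 2)) * lam = 100 * S.C * lam ^ 3 * S.kap := by ring
      _ ≤ 1 := h1
  rw [le_div_iff₀ (by norm_num)]
  nlinarith only [h5, h6]

theorem C6_piu_symm (S : Setup) (v : P) : piu S (S.H.symm v) = v.1 := by
  have h := H_apply S (S.H.symm v)
  rw [S.H.apply_symm_apply] at h
  exact (congrArg Prod.fst h).symm

theorem C6_pis_symm (S : Setup) (v : P) : pis S (S.H.symm v) = v.2.1 := by
  have h := H_apply S (S.H.symm v)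
  rw [S.H.apply_symm_apply] at h
  exact (congrArg (fun q : P => q.2.1) h).symm

theorem C6_eq_symm (S : Setup) (q : P) : q = S.H.symm (piu S q, pis S q, q.2.2) := by
  rw [← H_apply, S.H.symm_apply_apply]

theorem C6_piu_Fsymm (S : Setup) (q : P) : piu S (S.F.symm q) = piu S q := by
  have h := piu_F S (S.F.symm q)
  rw [S.F.apply_symm_apply] at h
  exact h.symm

theorem C6_pis_Fsymm (S : Setup) (q : P) : pis S (S.F.symm q) = pis S q := by
  have h := pis_F S (S.F.symm q)
  rw [S.F.apply_symm_apply] at h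
  exact h.symm

theorem C6_du_nonneg (p p' : P) : 0 ≤ du p p' :=
  mul_nonneg (Real.rpow_pos_of_pos lam_pos _).le (abs_nonneg _)

theorem C6_ds_nonneg (p p' : P) : 0 ≤ ds p p' :=
  mul_nonneg (Real.rpow_pos_of_pos lam_pos _).le (abs_nonneg _)

/-- One step of the contraction of the stable distance between two leaves with the same unstable
coordinate: for points at the same height `r` on two such leaves and the points of the two leaves at
the height `r₁` of `F p`. -/
theorem leaf_contract_s (S : Setup) (x y y' r : ℝ) :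
    let p := S.H.symm (x, y, r)
    let p' := S.H.symm (x, y', r)
    let r₁ := (S.F p).2.2
    ds (S.H.symm (x, y, r₁)) (S.H.symm (x, y', r₁)) ≤ (1 / 200) * ds p p' := by
  intro p p' r₁
  have hp : p.2.2 = r := H_symm_height S _
  have hp' : p'.2.2 = r := H_symm_height S _
  have hpu : piu S p = x := C6_piu_symm S _
  have hpu' : piu S p' = x := C6_piu_symm S _
  have hps : pis S p = y := C6_pis_symm S _
  have hps' : pis S p' = y' := C6_pis_symm S _
  have hdr : dr p p' = 0 := by
    unfold dr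
    rw [hp, hp', sub_self, abs_zero]
  set B : ℝ := ds p p' with hB
  have hB0 : 0 ≤ B := C6_ds_nonneg _ _
  have hdu : du p p' ≤ (1 / 2) * B := by
    have h := du_le_of_piu_eq S (hpu.trans hpu'.symm) (by rw [hdr]; norm_num)
    rw [hdr, mul_zero, max_eq_left (by linarith only [hB0])] at h
    exact h
  have hmax : max (du p p') (ds p p') ≤ B := max_le (by linarith only [hB0, hdu]) le_rfl
  have hdN : dN p p' ≤ B := by
    unfold dN
    rw [hdr]
    exact max_le hmax hB0
  set z : P := S.F p with hz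
  set z' : P := S.F p' with hz'
  have hh1 : |r₁ - z'.2.2| ≤ 2 * S.C * B := by
    have h := height_lip S p p' (by rw [hdr]; norm_num)
    rw [hdr, hp, hp', mul_zero, add_zero] at h
    have h2 : (S.F p).2.2 - r - ((S.F p').2.2 - r) = r₁ - z'.2.2 := by
      simp only [r₁, z']
      ring
    rw [h2] at h
    refine h.trans ?_
    apply mul_le_mul_of_nonneg_left hmax
    have := S.one_le_C
    linarith only [this]
  have hF1 := height_F S p
  have hF2 := height_F S p'
  rw [hp] at hF1
  rw [hp'] at hF2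
  have hF1' := abs_le.1 hF1
  have hF2' := abs_le.1 hF2
  have hh2 : |r₁ - z'.2.2| ≤ 1 / 20 := by
    rw [abs_le]
    constructor
    · simp only [r₁, z']
      linarith only [hF1'.1, hF2'.2]
    · simp only [r₁, z']
      linarith only [hF1'.2, hF2'.1]
  -- the stable distance of the images
  have hdsz : ds z z' ≤ (1 / 400) * ((1 + S.η) * B) := by
    have h1 := S.near.lip_s p p' (by rw [hdr]; norm_num)
    have h2 : z.2.1 = p.2.1 + (zeta S.δ S.F p).2.1 := by
      simp only [z, zeta, Prod.snd_sub, Prod.fst_sub]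
      ring
    have h3 : z'.2.1 = p'.2.1 + (zeta S.δ S.F p').2.1 := by
      simp only [z', zeta, Prod.snd_sub, Prod.fst_sub]
      ring
    have hpos : 0 < lam ^ (-p.2.2 : ℝ) := Real.rpow_pos_of_pos lam_pos _
    have h4 : lam ^ (-p.2.2 : ℝ) * |z.2.1 - z'.2.1| ≤ (1 + S.η) * B := by
      have h5 : |z.2.1 - z'.2.1| ≤ |p.2.1 - p'.2.1| +
          |(zeta S.δ S.F p).2.1 - (zeta S.δ S.F p').2.1| := by
        rw [h2, h3]
        have h6 : p.2.1 + (zeta S.δ S.F p).2.1 - (p'.2.1 + (zeta S.δ S.F p').2.1) =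
          (p.2.1 - p'.2.1) + ((zeta S.δ S.F p).2.1 - (zeta S.δ S.F p').2.1) := by ring
        rw [h6]
        exact abs_add_le _ _
      have h7 : S.η * dN p p' ≤ S.η * B := mul_le_mul_of_nonneg_left hdN S.eta_pos.le
      have h8 : B = lam ^ (-p.2.2 : ℝ) * |p.2.1 - p'.2.1| := rfl
      calc lam ^ (-p.2.2 : ℝ) * |z.2.1 - z'.2.1| ≤ lam ^ (-p.2.2 : ℝ) * (|p.2.1 - p'.2.1| +
          |(zeta S.δ S.F p).2.1 - (zeta S.δ S.F p').2.1|) := mul_le_mul_of_nonneg_left h5 hpos.le
        _ = B + lam ^ (-p.2.2 : ℝ) * |(zeta S.δ S.F p).2.1 - (zeta S.δ S.F p').2.1| := by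
          rw [h8]
          ring
        _ ≤ B + S.η * B := by linarith only [h1, h7]
        _ = (1 + S.η) * B := by ring
    have h9 : ds z z' = lam ^ (-(z.2.2 - p.2.2) : ℝ) * (lam ^ (-p.2.2 : ℝ) * |z.2.1 - z'.2.1|) := by
      unfold ds
      rw [← mul_assoc, ← Real.rpow_add lam_pos]
      congr 2
      ring
    rw [h9]
    apply mul_le_mul _ h4 (by positivity) (by norm_num)
    refine le_trans (Real.rpow_le_rpow_of_exponent_le C6_one_lt.le ?_) C6_n3
    rw [hp]
    linarith only [hF1'.1]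
  -- the point at height r₁ on the leaf of z'
  have hzeq : S.H.symm (x, y, r₁) = z := by
    have h := C6_eq_symm S z
    rw [piu_F, pis_F, hpu, hps] at h
    exact h.symm
  set w : P := S.H.symm (x, y', r₁) with hw
  have hwu : piu S w = x := C6_piu_symm S _
  have hws : pis S w = y' := C6_pis_symm S _
  have hwr : w.2.2 = r₁ := H_symm_height S _
  have hdrzw : dr z' w = |r₁ - z'.2.2| := by
    unfold dr
    rw [hwr, abs_sub_comm]
  have hdszw : ds z' w ≤ S.kap * (2 * S.C * B) := by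
    have h := (slope_leaf S (p := z') (p' := w) (by rw [piu_F, hpu', hwu])
      (by rw [pis_F, hps', hws]) (by rw [hdrzw]; linarith only [hh2])).2
    refine h.trans ?_
    rw [hdrzw]
    exact mul_le_mul_of_nonneg_left hh1 (kap_pos S).le
  rw [hzeq]
  refine (ds_triangle z z' w).trans ?_
  have hlamdr : lam ^ (dr z z' : ℝ) ≤ 4 := by
    refine le_trans (Real.rpow_le_rpow_of_exponent_le C6_one_lt.le ?_) C6_n2
    exact hh2
  have hfin : lam ^ (dr z z' : ℝ) * ds z' w ≤ 4 * (S.kap * (2 * S.C * B)) :=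
    mul_le_mul hlamdr hdszw (C6_ds_nonneg _ _) (by norm_num)
  have he := C6_eta S
  have hk := C6_kap S
  have h10 : 4 * (S.kap * (2 * S.C * B)) = 8 * (S.kap * S.C) * B := by ring
  have h11 : S.kap * S.C * B ≤ 1 / 10 ^ 5 * B := mul_le_mul_of_nonneg_right hk hB0
  have h12 : S.η * B ≤ 1 / 10 ^ 5 * B := mul_le_mul_of_nonneg_right he hB0
  nlinarith only [hB0, hdsz, hfin, he, hk]

theorem leaf_contract_u (S : Setup) (x x' y r : ℝ) :
    let p := S.H.symm (x, y, r)
    let p' := S.H.symm (x', y, r)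
    let r₁ := (S.F.symm p).2.2
    du (S.H.symm (x, y, r₁)) (S.H.symm (x', y, r₁)) ≤ (1 / 200) * du p p' := by
  intro p p' r₁
  have hp : p.2.2 = r := H_symm_height S _
  have hp' : p'.2.2 = r := H_symm_height S _
  have hpu : piu S p = x := C6_piu_symm S _
  have hpu' : piu S p' = x' := C6_piu_symm S _
  have hps : pis S p = y := C6_pis_symm S _
  have hps' : pis S p' = y := C6_pis_symm S _
  have hdr : dr p p' = 0 := by
    unfold dr
    rw [hp, hp', sub_self, abs_zero]
  set A : ℝ := du p p' with hA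
  have hA0 : 0 ≤ A := C6_du_nonneg _ _
  have hds : ds p p' ≤ (1 / 2) * A := by
    have h := ds_le_of_pis_eq S (hps.trans hps'.symm) (by rw [hdr]; norm_num)
    rw [hdr, mul_zero, max_eq_left (by linarith only [hA0])] at h
    exact h
  have hmax : max (ds p p') (du p p') ≤ A := max_le (by linarith only [hA0, hds]) le_rfl
  have hlam := C6_one_lt
  have hC := S.one_le_C
  have hmax2 : max (2 * lam * ds p p') (du p p') ≤ lam * A := by
    apply max_le
    · nlinarith only [hds, hlam]
    · nlinarith only [hA0, hlam]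
  obtain ⟨hb1, hb2, -⟩ := symm_bounds S p p' (by rw [hdr]; norm_num)
  rw [hdr, mul_zero, zero_add] at hb1 hb2
  set z : P := S.F.symm p with hz
  set z' : P := S.F.symm p' with hz'
  have hb1' : dr z z' ≤ 6 * (S.C * lam ^ 2) * A := by
    refine hb1.trans ?_
    calc 6 * S.C * lam * max (2 * lam * ds p p') (du p p') ≤ 6 * S.C * lam * (lam * A) :=
          mul_le_mul_of_nonneg_left hmax2 (by positivity)
      _ = 6 * (S.C * lam ^ 2) * A := by ring
  have hb2' : du z z' ≤ (1 / 500) * A + 12 * (S.η * (S.C * lam ^ 2)) * A := by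
    refine hb2.trans ?_
    have h1 : 12 * S.C * lam ^ 2 * max (ds p p') (du p p') ≤ 12 * S.C * lam ^ 2 * A :=
      mul_le_mul_of_nonneg_left hmax (by positivity)
    have h2 := mul_le_mul_of_nonneg_left h1 S.eta_pos.le
    have h3 : S.η * (12 * S.C * lam ^ 2 * A) = 12 * (S.η * (S.C * lam ^ 2)) * A := by ring
    linarith only [h2]
  have hF1 := height_F_symm S p
  have hF2 := height_F_symm S p'
  rw [hp] at hF1
  rw [hp'] at hF2
  have hF1' := abs_le.1 hF1
  have hF2' := abs_le.1 hF2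
  have hdrzz : dr z z' ≤ 1 / 20 := by
    unfold dr
    rw [abs_le]
    constructor
    · simp only [z', z]
      linarith only [hF1'.1, hF2'.2]
    · simp only [z', z]
      linarith only [hF1'.2, hF2'.1]
  have hzeq : S.H.symm (x, y, r₁) = z := by
    have h := C6_eq_symm S z
    rw [C6_piu_Fsymm, C6_pis_Fsymm, hpu, hps] at h
    exact h.symm
  set w : P := S.H.symm (x', y, r₁) with hw
  have hwu : piu S w = x' := C6_piu_symm S _
  have hws : pis S w = y := C6_pis_symm S _
  have hwr : w.2.2 = r₁ := H_symm_height S _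
  have hdrzw : dr z' w = dr z z' := by
    unfold dr
    rw [hwr, abs_sub_comm]
  have hduzw : du z' w ≤ S.kap * (6 * (S.C * lam ^ 2) * A) := by
    have h := (slope_leaf S (p := z') (p' := w) (by rw [C6_piu_Fsymm, hpu', hwu])
      (by rw [C6_pis_Fsymm, hps', hws]) (by rw [hdrzw]; linarith only [hdrzz])).1
    refine h.trans ?_
    rw [hdrzw]
    exact mul_le_mul_of_nonneg_left hb1' (kap_pos S).le
  rw [hzeq]
  refine (du_triangle z z' w).trans ?_
  have hlamdr : lam ^ (dr z z' : ℝ) ≤ 4 :=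
    le_trans (Real.rpow_le_rpow_of_exponent_le C6_one_lt.le hdrzz) C6_n2
  have hfin : lam ^ (dr z z' : ℝ) * du z' w ≤ 4 * (S.kap * (6 * (S.C * lam ^ 2) * A)) :=
    mul_le_mul hlamdr hduzw (C6_du_nonneg _ _) (by norm_num)
  have he := C6_eta' S
  have hk := C6_kap' S
  have h10 : 4 * (S.kap * (6 * (S.C * lam ^ 2) * A)) = 24 * (S.kap * (S.C * lam ^ 2) * A) := by ring
  have h11 : S.kap * (S.C * lam ^ 2) * A ≤ 1 / 10 ^ 4 * A := mul_le_mul_of_nonneg_right hk hA0
  have h12 : S.η * (S.C * lam ^ 2) * A ≤ 1 / 10 ^ 5 * A := mul_le_mul_of_nonneg_right he hA0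
  nlinarith only [hA0, hb2', hfin, he, hk]

/-- Exponential approach of leaves. -/
theorem leaf_close_s (S : Setup) (x y y' r : ℝ) (h : |y - y'| ≤ 1) (hr : 0 ≤ r) :
    ds (S.H.symm (x, y, r)) (S.H.symm (x, y', r)) ≤ 2 * lam * lam ^ (-(r / 2) : ℝ) := by
  -- the base case
  have base : ∀ r : ℝ, 0 ≤ r → r ≤ 41 / 40 →
      ds (S.H.symm (x, y, r)) (S.H.symm (x, y', r)) ≤ 2 * lam * lam ^ (-(r / 2) : ℝ) := by
    intro r hr0 hr1
    have h1 := (H_symm_near S (x, y, r)).2
    have h2 := (H_symm_near S (x, y', r)).2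
    unfold ds at h1 h2 ⊢
    simp only [H_symm_height] at h1 h2 ⊢
    set a := (S.H.symm (x, y, r)).2.1
    set b := (S.H.symm (x, y', r)).2.1
    have hpos : 0 < lam ^ (-r : ℝ) := Real.rpow_pos_of_pos lam_pos _
    have hle1 : lam ^ (-r : ℝ) ≤ 1 := Real.rpow_le_one_of_one_le_of_nonpos C6_one_lt.le (by linarith only [hr0])
    have h3 : |a - b| ≤ |y - a| + |y - y'| + |y' - b| := by
      have h4 : a - b = -(y - a) + (y - y') + (y' - b) := by ring
      rw [h4]
      refine (abs_add_le _ _).trans ?_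
      have h5 := abs_add_le (-(y - a)) (y - y')
      rw [abs_neg] at h5
      linarith only [h5]
    have h6 : lam ^ (-r : ℝ) * |a - b| ≤ 2 * S.η + 1 + 2 * S.η := by
      calc lam ^ (-r : ℝ) * |a - b| ≤ lam ^ (-r : ℝ) * (|y - a| + |y - y'| + |y' - b|) :=
            mul_le_mul_of_nonneg_left h3 hpos.le
        _ = lam ^ (-r : ℝ) * |y - a| + lam ^ (-r : ℝ) * |y - y'| + lam ^ (-r : ℝ) * |y' - b| := by
            ring
        _ ≤ 2 * S.η + 1 + 2 * S.η := by
            have h7 : lam ^ (-r : ℝ) * |y - y'| ≤ 1 * 1 :=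
              mul_le_mul hle1 h (abs_nonneg _) (by norm_num)
            linarith only [h1, h2, h7]
    refine h6.trans ?_
    have h8 : lam ^ (-1 : ℝ) ≤ lam ^ (-(r / 2) : ℝ) :=
      Real.rpow_le_rpow_of_exponent_le C6_one_lt.le (by linarith only [hr1])
    rw [Real.rpow_neg_one] at h8
    have h9 : 2 * lam * lam⁻¹ ≤ 2 * lam * lam ^ (-(r / 2) : ℝ) :=
      mul_le_mul_of_nonneg_left h8 (by linarith only [lam_pos])
    have h10 : 2 * lam * lam⁻¹ = 2 := by
      rw [mul_assoc, mul_inv_cancel₀ lam_ne_zero, mul_one]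
    have h11 := C6_eta S
    norm_num at h11
    linarith only [h9, h10, h11]
  have main : ∀ n : ℕ, ∀ r : ℝ, 0 ≤ r → r ≤ 41 / 40 + n * (39 / 40) →
      ds (S.H.symm (x, y, r)) (S.H.symm (x, y', r)) ≤ 2 * lam * lam ^ (-(r / 2) : ℝ) := by
    intro n
    induction n with
    | zero =>
      intro r hr0 hr1
      apply base r hr0
      simpa using hr1
    | succ n ih =>
      intro r hr0 hr1
      by_cases hr2 : r ≤ 41 / 40
      · exact base r hr0 hr2
      · push Not at hr2
        set q : P := S.H.symm (x, y, r) with hq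
        have hqr : q.2.2 = r := H_symm_height S _
        set r₀ : ℝ := (S.F.symm q).2.2 with hr₀
        have hh := height_F_symm S q
        rw [hqr] at hh
        have hh' := abs_le.1 hh
        have hpt : S.H.symm (x, y, r₀) = S.F.symm q := by
          have h1 := C6_eq_symm S (S.F.symm q)
          rw [C6_piu_Fsymm, C6_pis_Fsymm, C6_piu_symm, C6_pis_symm] at h1
          exact h1.symm
        have hstep := leaf_contract_s S x y y' r₀
        simp only at hstep
        have hr₁ : (S.F (S.H.symm (x, y, r₀))).2.2 = r := by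
          rw [hpt, S.F.apply_symm_apply, hqr]
        rw [hr₁] at hstep
        have hih := ih r₀ (by linarith only [hh'.1, hr2]) (by push_cast at hr1; linarith only [hh'.2, hr1])
        refine hstep.trans ?_
        have h2 : lam ^ (-(r₀ / 2) : ℝ) ≤ 200 * lam ^ (-(r / 2) : ℝ) := by
          have h3 : lam ^ (-(r₀ / 2) : ℝ) = lam ^ ((r - r₀) / 2 : ℝ) * lam ^ (-(r / 2) : ℝ) := by
            rw [← Real.rpow_add lam_pos]
            congr 1
            ring
          rw [h3]
          apply mul_le_mul_of_nonneg_right _ (Real.rpow_pos_of_pos lam_pos _).le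
          refine le_trans (Real.rpow_le_rpow_of_exponent_le C6_one_lt.le ?_) C6_n4
          linarith only [hh'.1]
        have h4 : 2 * lam * lam ^ (-(r₀ / 2) : ℝ) ≤ 2 * lam * (200 * lam ^ (-(r / 2) : ℝ)) :=
          mul_le_mul_of_nonneg_left h2 (by linarith only [lam_pos])
        linarith only [hih, h4]
  obtain ⟨n, hn⟩ := exists_nat_ge (r * 40 / 39)
  apply main n r hr
  linarith only [hn]

theorem leaf_close_u (S : Setup) (x x' y r : ℝ) (h : |x - x'| ≤ 1) (hr : r ≤ 0) :
    du (S.H.symm (x, y, r)) (S.H.symm (x', y, r)) ≤ 2 * lam * lam ^ (r / 2 : ℝ) := by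
  have base : ∀ r : ℝ, r ≤ 0 → -(41 / 40) ≤ r →
      du (S.H.symm (x, y, r)) (S.H.symm (x', y, r)) ≤ 2 * lam * lam ^ (r / 2 : ℝ) := by
    intro r hr0 hr1
    have h1 := (H_symm_near S (x, y, r)).1
    have h2 := (H_symm_near S (x', y, r)).1
    unfold du at h1 h2 ⊢
    simp only [H_symm_height] at h1 h2 ⊢
    set a := (S.H.symm (x, y, r)).1
    set b := (S.H.symm (x', y, r)).1
    have hpos : 0 < lam ^ (r : ℝ) := Real.rpow_pos_of_pos lam_pos _
    have hle1 : lam ^ (r : ℝ) ≤ 1 := Real.rpow_le_one_of_one_le_of_nonpos C6_one_lt.le hr0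
    have h3 : |a - b| ≤ |x - a| + |x - x'| + |x' - b| := by
      have h4 : a - b = -(x - a) + (x - x') + (x' - b) := by ring
      rw [h4]
      refine (abs_add_le _ _).trans ?_
      have h5 := abs_add_le (-(x - a)) (x - x')
      rw [abs_neg] at h5
      linarith only [h5]
    have h6 : lam ^ (r : ℝ) * |a - b| ≤ 2 * S.η + 1 + 2 * S.η := by
      calc lam ^ (r : ℝ) * |a - b| ≤ lam ^ (r : ℝ) * (|x - a| + |x - x'| + |x' - b|) :=
            mul_le_mul_of_nonneg_left h3 hpos.le
        _ = lam ^ (r : ℝ) * |x - a| + lam ^ (r : ℝ) * |x - x'| + lam ^ (r : ℝ) * |x' - b| := by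
            ring
        _ ≤ 2 * S.η + 1 + 2 * S.η := by
            have h7 : lam ^ (r : ℝ) * |x - x'| ≤ 1 * 1 :=
              mul_le_mul hle1 h (abs_nonneg _) (by norm_num)
            linarith only [h1, h2, h7]
    refine h6.trans ?_
    have h8 : lam ^ (-1 : ℝ) ≤ lam ^ (r / 2 : ℝ) :=
      Real.rpow_le_rpow_of_exponent_le C6_one_lt.le (by linarith only [hr1])
    rw [Real.rpow_neg_one] at h8
    have h9 : 2 * lam * lam⁻¹ ≤ 2 * lam * lam ^ (r / 2 : ℝ) :=
      mul_le_mul_of_nonneg_left h8 (by linarith only [lam_pos])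
    have h10 : 2 * lam * lam⁻¹ = 2 := by
      rw [mul_assoc, mul_inv_cancel₀ lam_ne_zero, mul_one]
    have h11 := C6_eta S
    norm_num at h11
    linarith only [h9, h10, h11]
  have main : ∀ n : ℕ, ∀ r : ℝ, r ≤ 0 → -(41 / 40 + n * (39 / 40)) ≤ r →
      du (S.H.symm (x, y, r)) (S.H.symm (x', y, r)) ≤ 2 * lam * lam ^ (r / 2 : ℝ) := by
    intro n
    induction n with
    | zero =>
      intro r hr0 hr1
      apply base r hr0
      simpa using hr1
    | succ n ih =>
      intro r hr0 hr1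
      by_cases hr2 : -(41 / 40) ≤ r
      · exact base r hr0 hr2
      · push Not at hr2
        set q : P := S.H.symm (x, y, r) with hq
        have hqr : q.2.2 = r := H_symm_height S _
        set r₀ : ℝ := (S.F q).2.2 with hr₀
        have hh := height_F S q
        rw [hqr] at hh
        have hh' := abs_le.1 hh
        have hpt : S.H.symm (x, y, r₀) = S.F q := by
          have h1 := C6_eq_symm S (S.F q)
          rw [piu_F, pis_F, C6_piu_symm, C6_pis_symm] at h1
          exact h1.symm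
        have hstep := leaf_contract_u S x x' y r₀
        simp only at hstep
        have hr₁ : (S.F.symm (S.H.symm (x, y, r₀))).2.2 = r := by
          rw [hpt, S.F.symm_apply_apply, hqr]
        rw [hr₁] at hstep
        have hih := ih r₀ (by linarith only [hh'.2, hr2]) (by push_cast at hr1; linarith only [hh'.1, hr1])
        refine hstep.trans ?_
        have h2 : lam ^ (r₀ / 2 : ℝ) ≤ 200 * lam ^ (r / 2 : ℝ) := by
          have h3 : lam ^ (r₀ / 2 : ℝ) = lam ^ ((r₀ - r) / 2 : ℝ) * lam ^ (r / 2 : ℝ) := by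
            rw [← Real.rpow_add lam_pos]
            congr 1
            ring
          rw [h3]
          apply mul_le_mul_of_nonneg_right _ (Real.rpow_pos_of_pos lam_pos _).le
          refine le_trans (Real.rpow_le_rpow_of_exponent_le C6_one_lt.le ?_) C6_n4
          linarith only [hh'.2]
        have h4 : 2 * lam * lam ^ (r₀ / 2 : ℝ) ≤ 2 * lam * (200 * lam ^ (r / 2 : ℝ)) :=
          mul_le_mul_of_nonneg_left h2 (by linarith only [lam_pos])
        linarith only [hih, h4]
  obtain ⟨n, hn⟩ := exists_nat_ge (-r * 40 / 39)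
  apply main n r hr
  linarith only [hn]

end

end MPd1f192

end PartC6

section PartC7

/-! # C7. the leaf system of a `Setup` -/

open MeasureTheory Set Filter Topology
open scoped ContDiff

namespace MPd1f192

noncomputable section

/-- The leaf map `g`: height of `F` on the leaf over `(u,s)` at height `r`. -/
def Setup.g (S : Setup) (u s r : ℝ) : ℝ := (S.F (S.H.symm (u, s, r))).2.2

namespace C7

theorem piu_symm (S : Setup) (q : P) : piu S (S.H.symm q) = q.1 := by
  have h := H_apply S (S.H.symm q)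
  rw [Homeomorph.apply_symm_apply] at h
  exact (congrArg (fun z : P => z.1) h).symm

theorem pis_symm (S : Setup) (q : P) : pis S (S.H.symm q) = q.2.1 := by
  have h := H_apply S (S.H.symm q)
  rw [Homeomorph.apply_symm_apply] at h
  exact (congrArg (fun z : P => z.2.1) h).symm

theorem g_act (S : Setup) (k m n : ℤ) (p : P) :
    (S.F (S.H.symm (act k m n p))).2.2 = (S.F (S.H.symm p)).2.2 + k := by
  rw [H_symm_comm, S.near.comm]
  rfl

theorem C_kap (S : Setup) : 0 < S.kap ∧ 2 * S.C * S.kap ≤ 1 / 50 := by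
  have h0 := kap_pos S
  have h1 := kap_small S
  have h2 := S.one_le_C
  have h3 : (1 : ℝ) ≤ lam ^ 3 := one_le_pow₀ (by linarith only [lam_gt])
  refine ⟨h0, ?_⟩
  have h4 : 100 * S.C * S.kap ≤ 100 * S.C * lam ^ 3 * S.kap := by
    have : 100 * S.C * 1 ≤ 100 * S.C * lam ^ 3 := by
      apply mul_le_mul_of_nonneg_left h3 (by linarith only [h2])
    nlinarith only [h0, this]
  linarith only [h1, h4]

/-- local slope bound -/
theorem local_slope (S : Setup) (u s r r' : ℝ) (h : |r - r'| ≤ 1) :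
    |(S.g u s r' - S.g u s r) - (r' - r)| ≤ (5 / 8) * |r' - r| := by
  set p := S.H.symm (u, s, r) with hp
  set p' := S.H.symm (u, s, r') with hp'
  have e1 : p.2.2 = r := H_symm_height S (u, s, r)
  have e2 : p'.2.2 = r' := H_symm_height S (u, s, r')
  have hdr : dr p p' = |r - r'| := by
    unfold dr
    rw [e1, e2]
  have hu : piu S p = piu S p' := by rw [hp, hp', piu_symm, piu_symm]
  have hs : pis S p = pis S p' := by rw [hp, hp', pis_symm, pis_symm]
  obtain ⟨s1, s2⟩ := slope_leaf S hu hs (by rw [hdr]; exact h)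
  have h1 := height_lip S p p' (by rw [hdr]; linarith only [h])
  have hmax : max (du p p') (ds p p') ≤ S.kap * dr p p' := max_le s1 s2
  obtain ⟨k0, k1⟩ := C_kap S
  have hC := S.one_le_C
  have h2 : 2 * S.C * max (du p p') (ds p p') ≤ 2 * S.C * (S.kap * dr p p') :=
    mul_le_mul_of_nonneg_left hmax (by linarith only [hC])
  have hdr0 : 0 ≤ dr p p' := abs_nonneg _
  have h3 : 2 * S.C * (S.kap * dr p p') ≤ (1 / 50) * dr p p' := by
    have := mul_le_mul_of_nonneg_right k1 hdr0
    linarith only [this]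
  have h4 : |((S.F p).2.2 - p.2.2) - ((S.F p').2.2 - p'.2.2)| ≤ (5 / 8) * dr p p' := by
    refine h1.trans ?_
    nlinarith only [k1, h2, hdr0]
  rw [hdr, e1, e2, abs_sub_comm r r'] at h4
  have e3 : (S.g u s r' - S.g u s r) - (r' - r) = -(((S.F p).2.2 - r) - ((S.F p').2.2 - r')) := by
    unfold Setup.g
    ring
  rw [e3, abs_neg]
  exact h4

theorem slopes (S : Setup) (u s : ℝ) (n : ℕ) : ∀ r r' : ℝ, r ≤ r' → r' - r ≤ n →
    (1 / 3) * (r' - r) ≤ S.g u s r' - S.g u s r ∧ S.g u s r' - S.g u s r ≤ 2 * (r' - r) := by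
  have loc : ∀ r r' : ℝ, r ≤ r' → r' - r ≤ 1 →
      (1 / 3) * (r' - r) ≤ S.g u s r' - S.g u s r ∧ S.g u s r' - S.g u s r ≤ 2 * (r' - r) := by
    intro r r' h1 h2
    have h := local_slope S u s r r' (by rw [abs_sub_comm, abs_of_nonneg (by linarith only [h1])]; exact h2)
    rw [abs_of_nonneg (show 0 ≤ r' - r by linarith only [h1])] at h
    obtain ⟨h3, h4⟩ := abs_le.1 h
    constructor <;> linarith only [h3, h4]
  induction n with
  | zero =>
    intro r r' h1 h2
    exact loc r r' h1 (by push_cast at h2; linarith only [h2])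
  | succ n ih =>
    intro r r' h1 h2
    by_cases h : r' - r ≤ 1
    · exact loc r r' h1 h
    · push Not at h
      push_cast at h2
      obtain ⟨a1, a2⟩ := loc r (r + 1) (by linarith only) (by linarith only)
      obtain ⟨b1, b2⟩ := ih (r + 1) r' (by linarith only [h]) (by linarith only [h2])
      constructor <;> linarith only [a1, b1, a2, b2]

end C7

open C7 in
theorem exists_leafSystem (S : Setup) : ∃ L : LeafSystem, ∀ u s r, L.g u s r = S.g u s r := by
  have hC := S.one_le_C
  have hl := lam_gt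
  refine ⟨{ g := S.g
            C := 4 * S.C * lam
            one_le_C := by nlinarith only [hC, hl]
            cont := ?_
            near := ?_
            lower := ?_
            upper := ?_
            per := ?_
            eqv := ?_
            hold_s := ?_
            hold_u := ?_ }, fun _ _ _ => rfl⟩
  · have : (fun p : P => S.g p.1 p.2.1 p.2.2) = fun p => (S.F (S.H.symm p)).2.2 := rfl
    rw [this]
    exact (continuous_snd.comp continuous_snd).comp (S.F.continuous.comp S.H.symm.continuous)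
  · intro u s r
    have h := height_F S (S.H.symm (u, s, r))
    rw [H_symm_height] at h
    show |(S.F (S.H.symm (u, s, r))).2.2 - (r + 1)| ≤ 1 / 10
    rw [← sub_sub]
    refine h.trans ?_
    norm_num
  · intro u s r r' h
    exact (slopes S u s ⌈r' - r⌉₊ r r' h (Nat.le_ceil _)).1
  · intro u s r r' h
    exact (slopes S u s ⌈r' - r⌉₊ r r' h (Nat.le_ceil _)).2
  · intro m n u s r
    have h := g_act S 0 m n (u, s, r)
    have e : act 0 m n (u, s, r) = (u + (m + n * lam), s + (m + n * lam⁻¹), r) := by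
      unfold act
      simp
    rw [e] at h
    show (S.F (S.H.symm (u + (m + n * lam), s + (m + n * lam⁻¹), r))).2.2 = (S.F (S.H.symm (u, s, r))).2.2
    rw [h]
    simp
  · intro u s r
    have h := g_act S (-1) 0 0 (u, s, r + 1)
    have e : act (-1) 0 0 (u, s, r + 1) = (lam * u, lam⁻¹ * s, r) := by
      unfold act
      simp
    rw [e] at h
    show (S.F (S.H.symm (lam * u, lam⁻¹ * s, r))).2.2 = (S.F (S.H.symm (u, s, r + 1))).2.2 - 1
    rw [h]
    push_cast
    ring
  · intro u s s' r h hr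
    set p := S.H.symm (u, s, r) with hp
    set p' := S.H.symm (u, s', r) with hp'
    have e1 : p.2.2 = r := H_symm_height S (u, s, r)
    have e2 : p'.2.2 = r := H_symm_height S (u, s', r)
    have hdr : dr p p' = 0 := by
      unfold dr
      rw [e1, e2, sub_self, abs_zero]
    have hu : piu S p = piu S p' := by rw [hp, hp', piu_symm, piu_symm]
    have h1 := height_lip S p p' (by rw [hdr]; norm_num)
    have h2 := du_le_of_piu_eq S hu (by rw [hdr]; norm_num)
    have h3 := leaf_close_s S u s s' r h hr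
    rw [← hp, ← hp'] at h3
    have hds0 : 0 ≤ ds p p' := by
      unfold ds
      exact mul_nonneg (Real.rpow_nonneg lam_pos.le _) (abs_nonneg _)
    rw [hdr, mul_zero] at h2
    have h4 : du p p' ≤ ds p p' := h2.trans (max_le (by linarith only [hds0]) hds0)
    rw [max_eq_right h4, hdr, mul_zero, add_zero, e1, e2] at h1
    have e3 : ((S.F p).2.2 - r) - ((S.F p').2.2 - r) = S.g u s r - S.g u s' r := by
      unfold Setup.g
      ring
    rw [e3] at h1
    refine h1.trans ?_
    have : 2 * S.C * ds p p' ≤ 2 * S.C * (2 * lam * lam ^ (-(r / 2) : ℝ)) :=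
      mul_le_mul_of_nonneg_left h3 (by linarith only [hC])
    refine this.trans (le_of_eq ?_)
    ring
  · intro u u' s r h hr
    set p := S.H.symm (u, s, r) with hp
    set p' := S.H.symm (u', s, r) with hp'
    have e1 : p.2.2 = r := H_symm_height S (u, s, r)
    have e2 : p'.2.2 = r := H_symm_height S (u', s, r)
    have hdr : dr p p' = 0 := by
      unfold dr
      rw [e1, e2, sub_self, abs_zero]
    have hs : pis S p = pis S p' := by rw [hp, hp', pis_symm, pis_symm]
    have h1 := height_lip S p p' (by rw [hdr]; norm_num)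
    have h2 := ds_le_of_pis_eq S hs (by rw [hdr]; norm_num)
    have h3 := leaf_close_u S u u' s r h hr
    rw [← hp, ← hp'] at h3
    have hdu0 : 0 ≤ du p p' := by
      unfold du
      exact mul_nonneg (Real.rpow_nonneg lam_pos.le _) (abs_nonneg _)
    rw [hdr, mul_zero] at h2
    have h4 : ds p p' ≤ du p p' := h2.trans (max_le (by linarith only [hdu0]) hdu0)
    rw [max_eq_left h4, hdr, mul_zero, add_zero, e1, e2] at h1
    have e3 : ((S.F p).2.2 - r) - ((S.F p').2.2 - r) = S.g u s r - S.g u' s r := by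
      unfold Setup.g
      ring
    rw [e3] at h1
    refine h1.trans ?_
    have : 2 * S.C * du p p' ≤ 2 * S.C * (2 * lam * lam ^ (r / 2 : ℝ)) :=
      mul_le_mul_of_nonneg_left h3 (by linarith only [hC])
    refine this.trans (le_of_eq ?_)
    ring

/-- The chosen leaf system. -/
def Setup.leaf (S : Setup) : LeafSystem := (exists_leafSystem S).choose

theorem leaf_g (S : Setup) (u s r : ℝ) : S.leaf.g u s r = S.g u s r :=
  (exists_leafSystem S).choose_spec u s r

theorem H_F (S : Setup) (p : P) : S.H (S.F p) = S.leaf.fhat (S.H p) := by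
  unfold LeafSystem.fhat
  rw [leaf_g, H_apply S (S.F p), piu_F, pis_F]
  unfold Setup.g
  have e : ((S.H p).1, (S.H p).2.1, (S.H p).2.2) = S.H p := rfl
  rw [e, Homeomorph.symm_apply_apply, H_apply S p]

/-- Relation to the interface. -/
theorem conj_leaf (S : Setup) : Conj S.F S.leaf S.H where
  comm := H_comm S
  height := fun p => by rw [H_apply]
  conj := H_F S

end

end MPd1f192

end PartC7
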