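import Pool.Agent.W_MP_d1f192_an.C7

/-! # C8. comparison of the leaf systems of `F` and `φ_ε ∘ F` -/

open MeasureTheory Set Filter Topology
open scoped ContDiff

namespace MPd1f192

noncomputable section

theorem C8_half : (31 : ℝ) ≤ lam ^ (1 / 2 : ℝ) := by
  rw [← Real.sqrt_eq_rpow]
  apply Real.le_sqrt_of_sq_le
  have := lam_gt
  norm_num
  linarith only [this]

theorem C8_shrink {a b : ℝ} (h : a + 1 / 2 ≤ b) : lam ^ a ≤ (1 / 31) * lam ^ b := by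
  have h1 : lam ^ (a + 1 / 2) ≤ lam ^ b :=
    Real.rpow_le_rpow_of_exponent_le (by linarith only [lam_gt]) h
  rw [Real.rpow_add lam_pos] at h1
  have h2 : 0 < lam ^ a := Real.rpow_pos_of_pos lam_pos a
  nlinarith only [C8_half, h1, h2]

theorem C8_coords (S : Setup) (x : P) :
    piu S (S.H.symm x) = x.1 ∧ pis S (S.H.symm x) = x.2.1 ∧ (S.H.symm x).2.2 = x.2.2 := by
  have h := H_apply S (S.H.symm x)
  rw [S.H.apply_symm_apply] at h
  refine ⟨?_, ?_, ?_⟩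
  · exact (congrArg (fun q : P => q.1) h).symm
  · exact (congrArg (fun q : P => q.2.1) h).symm
  · exact (congrArg (fun q : P => q.2.2) h).symm

theorem C8_eq (S : Setup) (p : P) (u s r : ℝ) (hu : piu S p = u) (hs : pis S p = s)
    (hr : p.2.2 = r) : S.H.symm (u, s, r) = p := by
  rw [Homeomorph.symm_apply_eq, H_apply, hu, hs, hr]

/-- Sizes of the constants. -/
theorem C8_consts (S : Setup) : 0 ≤ S.kap ∧ S.kap * S.C ≤ 1 / 10 ^ 6 ∧ S.kap ≤ 1 / 10 ^ 6 ∧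
    S.η ≤ S.kap ∧ S.C * S.η ≤ 1 / 10 ^ 6 ∧ 0 < S.η := by
  have h1 := kap_small S
  have h2 := kap_pos S
  have h3 := S.one_le_C
  have h4 := S.eta_pos
  have h5 : (10 ^ 6 : ℝ) ≤ lam ^ 3 := by
    have := lam_gt
    calc (10 ^ 6 : ℝ) ≤ 900 ^ 3 := by norm_num
      _ ≤ lam ^ 3 := by gcongr; linarith only [this]
  have h6 : S.η ≤ S.kap := by
    unfold Setup.kap
    nlinarith only [h4, h5]
  have h7 : S.kap * S.C ≤ 1 / 10 ^ 6 := by
    rw [le_div_iff₀ (by norm_num)]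
    have h8 : 0 ≤ S.kap * S.C := by positivity
    nlinarith only [h1, h5]
  have h9 : S.kap ≤ S.kap * S.C := by nlinarith only [h2, h3]
  refine ⟨h2.le, h7, h9.trans h7, h6, ?_, h4⟩
  calc S.C * S.η ≤ S.C * S.kap := by gcongr
    _ = S.kap * S.C := by ring
    _ ≤ _ := h7

theorem C8_u (S S' : Setup) {ε : ℝ} (hε : 0 ≤ ε) (hε' : ε ≤ 1 / 100)
    (hF : ∀ p, S'.F p = shiftUp ε (S.F p)) {D : ℝ} (hD0 : 0 ≤ D) (hD4 : D ≤ 4 * S.η)
    (hD : ∀ x, du (S.H.symm x) (S'.H.symm x) ≤ D ∧ ds (S.H.symm x) (S'.H.symm x) ≤ D) (x : P) :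
    du (S.H.symm x) (S'.H.symm x) ≤ D / 4 + S.kap * ε := by
  obtain ⟨k0, k1, k2, k3, k4, k5⟩ := C8_consts S
  obtain ⟨hu, hs, hr⟩ := C8_coords S x
  obtain ⟨hu', hs', hr'⟩ := C8_coords S' x
  obtain ⟨hDu, hDs⟩ := hD x
  generalize S.H.symm x = p at hu hs hr hDu hDs ⊢
  generalize S'.H.symm x = p' at hu' hs' hr' hDu hDs ⊢
  have h1 : dr p p' = 0 := by
    unfold dr
    rw [hr, hr']
    simp
  have hlip := height_lip S p p' (by rw [h1]; norm_num)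
  rw [h1] at hlip
  have hmax : max (du p p') (ds p p') ≤ D := max_le hDu hDs
  have hC : 0 < S.C := by linarith only [S.one_le_C]
  have hlip2 : |(S.F p).2.2 - (S.F p').2.2| ≤ 2 * (S.C * D) := by
    have e : ((S.F p).2.2 - p.2.2) - ((S.F p').2.2 - p'.2.2) = (S.F p).2.2 - (S.F p').2.2 := by
      rw [hr, hr']
      ring
    rw [e] at hlip
    calc _ ≤ _ := hlip
      _ ≤ 2 * S.C * D + 3 / 5 * 0 := by gcongr
      _ = _ := by ring
  have hCD : S.C * D ≤ 4 / 10 ^ 6 := by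
    calc S.C * D ≤ S.C * (4 * S.η) := by gcongr
      _ = 4 * (S.C * S.η) := by ring
      _ ≤ 4 * (1 / 10 ^ 6) := by gcongr
      _ = _ := by ring
  have hht' : (S'.F p').2.2 = (S.F p').2.2 + ε := by rw [hF]; rfl
  have hfst' : (S'.F p').1 = (S.F p').1 := by rw [hF]; rfl
  have hFp := height_F S p
  have hFp' := height_F S' p'
  obtain ⟨R, hR⟩ : ∃ R, R = (S'.F p').2.2 := ⟨_, rfl⟩
  have hz' : S'.H.symm (x.1, x.2.1, R) = S'.F p' :=
    C8_eq S' _ _ _ _ (by rw [piu_F, hu']) (by rw [pis_F, hs']) hR.symm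
  obtain ⟨hwu, hws, hwr⟩ := C8_coords S (x.1, x.2.1, R)
  have hdu := (hD (x.1, x.2.1, R)).1
  rw [hz'] at hdu
  generalize S.H.symm (x.1, x.2.1, R) = w at hwu hws hwr hdu
  simp only at hwu hws hwr
  have hdrw : dr (S.F p) w ≤ ε + 2 * (S.C * D) := by
    unfold dr
    rw [hwr, hR, hht']
    rw [abs_le] at hlip2 ⊢
    constructor <;> linarith only [hlip2.1, hlip2.2, hε]
  have hsl := (slope_leaf S (p := S.F p) (p' := w) (by rw [piu_F, hu, hwu])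
    (by rw [pis_F, hs, hws]) (by linarith only [hε', hCD, hdrw])).1
  have hlu := S.near.lip_u p p' (by rw [h1]; norm_num)
  have hdN : dN p p' ≤ D := by
    unfold dN
    rw [h1]
    exact max_le hmax hD0
  have e1 : (zeta S.δ S.F p).1 = (S.F p).1 - p.1 := rfl
  have e2 : (zeta S.δ S.F p').1 = (S.F p').1 - p'.1 := rfl
  rw [e1, e2] at hlu
  unfold du at hdu hsl ⊢
  rw [hwr, hfst'] at hdu
  rw [hr] at hlu ⊢
  have hb : lam ^ (x.2.2 : ℝ) ≤ 1 / 31 * lam ^ ((S.F p).2.2 : ℝ) := by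
    apply C8_shrink
    rw [hr] at hFp
    rw [abs_le] at hFp
    linarith only [hFp.1]
  have hb' : lam ^ (x.2.2 : ℝ) ≤ 1 / 31 * lam ^ (R : ℝ) := by
    apply C8_shrink
    rw [hr', ← hR] at hFp'
    rw [abs_le] at hFp'
    linarith only [hFp'.1]
  have hL : 0 < lam ^ (x.2.2 : ℝ) := Real.rpow_pos_of_pos lam_pos _
  have i1 : lam ^ (x.2.2 : ℝ) * |(S.F p).1 - w.1| ≤ 1 / 31 * (S.kap * (ε + 2 * (S.C * D))) := by
    calc _ ≤ (1 / 31 * lam ^ ((S.F p).2.2 : ℝ)) * |(S.F p).1 - w.1| := by gcongr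
      _ = 1 / 31 * (lam ^ ((S.F p).2.2 : ℝ) * |(S.F p).1 - w.1|) := by ring
      _ ≤ 1 / 31 * (S.kap * dr (S.F p) w) := by gcongr
      _ ≤ _ := by gcongr
  have i2 : lam ^ (x.2.2 : ℝ) * |w.1 - (S.F p').1| ≤ 1 / 31 * D := by
    calc _ ≤ (1 / 31 * lam ^ (R : ℝ)) * |w.1 - (S.F p').1| := by gcongr
      _ = 1 / 31 * (lam ^ (R : ℝ) * |w.1 - (S.F p').1|) := by ring
      _ ≤ _ := by gcongr
  have i3 : lam ^ (x.2.2 : ℝ) * |(S.F p).1 - p.1 - ((S.F p').1 - p'.1)| ≤ S.η * D :=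
    hlu.trans (by gcongr)
  have tri : |p.1 - p'.1| ≤ |(S.F p).1 - w.1| + |w.1 - (S.F p').1| +
      |(S.F p).1 - p.1 - ((S.F p').1 - p'.1)| := by
    have e : p.1 - p'.1 = ((S.F p).1 - w.1) + (w.1 - (S.F p').1) -
      ((S.F p).1 - p.1 - ((S.F p').1 - p'.1)) := by ring
    rw [e]
    calc _ ≤ |((S.F p).1 - w.1) + (w.1 - (S.F p').1)| +
          |(S.F p).1 - p.1 - ((S.F p').1 - p'.1)| := abs_sub _ _
      _ ≤ _ := by gcongr; exact abs_add_le _ _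
  have tot : lam ^ (x.2.2 : ℝ) * |p.1 - p'.1| ≤
      1 / 31 * (S.kap * (ε + 2 * (S.C * D))) + 1 / 31 * D + S.η * D := by
    calc _ ≤ lam ^ (x.2.2 : ℝ) * (|(S.F p).1 - w.1| + |w.1 - (S.F p').1| +
          |(S.F p).1 - p.1 - ((S.F p').1 - p'.1)|) := by gcongr
      _ = lam ^ (x.2.2 : ℝ) * |(S.F p).1 - w.1| + lam ^ (x.2.2 : ℝ) * |w.1 - (S.F p').1| +
          lam ^ (x.2.2 : ℝ) * |(S.F p).1 - p.1 - ((S.F p').1 - p'.1)| := by ring
      _ ≤ _ := by gcongr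
  have j1 : S.kap * S.C * D ≤ 1 / 10 ^ 6 * D := by gcongr
  have j2 : S.η * D ≤ 1 / 10 ^ 6 * D := by gcongr; linarith only [k2, k3]
  have j3 : 0 ≤ S.kap * ε := by positivity
  calc _ ≤ _ := tot
    _ = 1 / 31 * (S.kap * ε) + 2 / 31 * (S.kap * S.C * D) + 1 / 31 * D + S.η * D := by ring
    _ ≤ D / 4 + S.kap * ε := by linarith only [hD0, j1, j2, j3]

theorem C8_s (S S' : Setup) (hη : S'.η = S.η) {ε : ℝ} (hε : 0 ≤ ε) (hε' : ε ≤ 1 / 100)
    (hF : ∀ p, S'.F p = shiftUp ε (S.F p)) {D : ℝ} (hD0 : 0 ≤ D) (hD4 : D ≤ 4 * S.η)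
    (hD : ∀ x, du (S.H.symm x) (S'.H.symm x) ≤ D ∧ ds (S.H.symm x) (S'.H.symm x) ≤ D) (x : P) :
    ds (S.H.symm x) (S'.H.symm x) ≤ D / 4 + S.kap * ε := by
  obtain ⟨k0, k1, k2, k3, k4, k5⟩ := C8_consts S
  have hkap : S'.kap = S.kap := by
    unfold Setup.kap
    rw [hη]
  obtain ⟨hu, hs, hr⟩ := C8_coords S x
  obtain ⟨hu', hs', hr'⟩ := C8_coords S' x
  generalize S.H.symm x = z at hu hs hr ⊢
  generalize S'.H.symm x = z' at hu' hs' hr' ⊢
  have hC : 0 < S.C := by linarith only [S.one_le_C]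
  obtain ⟨y, hy⟩ : ∃ y, S.F y = z := ⟨S.F.symm z, S.F.apply_symm_apply z⟩
  obtain ⟨y', hy'⟩ : ∃ y', S'.F y' = z' := ⟨S'.F.symm z', S'.F.apply_symm_apply z'⟩
  have hyu : piu S y = x.1 := by rw [← piu_F, hy, hu]
  have hys : pis S y = x.2.1 := by rw [← pis_F, hy, hs]
  have hyu' : piu S' y' = x.1 := by rw [← piu_F, hy', hu']
  have hys' : pis S' y' = x.2.1 := by rw [← pis_F, hy', hs']
  have hFy := height_F S y
  have hFy' := height_F S' y'
  rw [hy, hr] at hFy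
  rw [hy', hr'] at hFy'
  have hht' : (S.F y').2.2 = x.2.2 - ε := by
    have := hF y'
    rw [hy'] at this
    have h2 : z'.2.2 = (S.F y').2.2 + ε := by rw [this]; rfl
    rw [← hr', h2]
    ring
  have hsnd' : (S.F y').2.1 = z'.2.1 := by
    have := hF y'
    rw [hy'] at this
    rw [this]
    rfl
  have hsnd : (S.F y).2.1 = z.2.1 := by rw [hy]
  have hht : (S.F y).2.2 = x.2.2 := by rw [hy, hr]
  have hdr20 : dr y y' ≤ 1 / 20 := by
    unfold dr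
    rw [abs_le] at hFy hFy' ⊢
    constructor <;> linarith only [hFy.1, hFy.2, hFy'.1, hFy'.2]
  have hdr0 : 0 ≤ dr y y' := abs_nonneg _
  have hlip := height_lip S y y' (by linarith only [hdr20])
  rw [hht, hht'] at hlip
  obtain ⟨M, hM⟩ : ∃ M, M = max (du y y') (ds y y') := ⟨_, rfl⟩
  rw [← hM] at hlip
  have hdr1 : dr y y' ≤ ε + 2 * (S.C * M) + 3 / 5 * dr y y' := by
    have e : dr y y' = |(x.2.2 - y.2.2 - (x.2.2 - ε - y'.2.2)) - ε| := by
      unfold dr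
      rw [abs_sub_comm]
      congr 1
      ring
    calc dr y y' = _ := e
      _ ≤ |x.2.2 - y.2.2 - (x.2.2 - ε - y'.2.2)| + |ε| := abs_sub _ _
      _ ≤ (2 * S.C * M + 3 / 5 * dr y y') + ε := by
        rw [abs_of_nonneg hε]
        gcongr
      _ = _ := by ring
  -- the point of the second leaf at the height of `y`
  have hyy : S.H.symm (x.1, x.2.1, y.2.2) = y := C8_eq S y _ _ _ hyu hys rfl
  obtain ⟨hwu, hws, hwr⟩ := C8_coords S' (x.1, x.2.1, y.2.2)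
  obtain ⟨hdu, hds⟩ := hD (x.1, x.2.1, y.2.2)
  rw [hyy] at hdu hds
  generalize S'.H.symm (x.1, x.2.1, y.2.2) = w at hwu hws hwr hdu hds
  simp only at hwu hws hwr
  have hdrw : dr w y' = dr y y' := by
    unfold dr
    rw [hwr]
  obtain ⟨hsl1, hsl2⟩ := slope_leaf S' (p := w) (p' := y') (by rw [hwu, hyu']) (by rw [hws, hys'])
    (by rw [hdrw]; linarith only [hdr20])
  rw [hdrw, hkap] at hsl1 hsl2
  have hMle : M ≤ D + S.kap * dr y y' := by
    rw [hM]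
    apply max_le
    · unfold du at hdu hsl1 ⊢
      rw [hwr] at hsl1
      have hL : 0 < lam ^ (y.2.2 : ℝ) := Real.rpow_pos_of_pos lam_pos _
      calc lam ^ (y.2.2 : ℝ) * |y.1 - y'.1| ≤ lam ^ (y.2.2 : ℝ) * (|y.1 - w.1| + |w.1 - y'.1|) := by
            gcongr
            exact abs_sub_le _ _ _
        _ = lam ^ (y.2.2 : ℝ) * |y.1 - w.1| + lam ^ (y.2.2 : ℝ) * |w.1 - y'.1| := by ring
        _ ≤ _ := by gcongr
    · unfold ds at hds hsl2 ⊢
      rw [hwr] at hsl2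
      have hL : 0 < lam ^ (-y.2.2 : ℝ) := Real.rpow_pos_of_pos lam_pos _
      calc lam ^ (-y.2.2 : ℝ) * |y.2.1 - y'.2.1| ≤
            lam ^ (-y.2.2 : ℝ) * (|y.2.1 - w.2.1| + |w.2.1 - y'.2.1|) := by
            gcongr
            exact abs_sub_le _ _ _
        _ = lam ^ (-y.2.2 : ℝ) * |y.2.1 - w.2.1| + lam ^ (-y.2.2 : ℝ) * |w.2.1 - y'.2.1| := by ring
        _ ≤ _ := by gcongr
  have hM0 : 0 ≤ M := by
    rw [hM]
    apply le_max_of_le_left
    unfold du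
    have hL : 0 < lam ^ (y.2.2 : ℝ) := Real.rpow_pos_of_pos lam_pos _
    positivity
  have hCM : S.C * M ≤ S.C * D + 1 / 10 ^ 6 * dr y y' := by
    calc S.C * M ≤ S.C * (D + S.kap * dr y y') := by gcongr
      _ = S.C * D + (S.kap * S.C) * dr y y' := by ring
      _ ≤ _ := by gcongr
  have hdr2 : dr y y' ≤ 3 * ε + 6 * (S.C * D) := by
    have : 0 ≤ S.C * D := by positivity
    linarith only [hdr0, hdr1, hCM]
  have hM2 : M ≤ D + 3 * (S.kap * ε) + 6 / 10 ^ 6 * D := by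
    calc M ≤ D + S.kap * dr y y' := hMle
      _ ≤ D + S.kap * (3 * ε + 6 * (S.C * D)) := by gcongr
      _ = D + 3 * (S.kap * ε) + 6 * ((S.kap * S.C) * D) := by ring
      _ ≤ D + 3 * (S.kap * ε) + 6 * (1 / 10 ^ 6 * D) := by gcongr
      _ = _ := by ring
  have hls := S.near.lip_s y y' (by linarith only [hdr20])
  have e1 : (zeta S.δ S.F y).2.1 = (S.F y).2.1 - y.2.1 := rfl
  have e2 : (zeta S.δ S.F y').2.1 = (S.F y').2.1 - y'.2.1 := rfl
  rw [e1, e2, hsnd, hsnd'] at hls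
  have hdN : dN y y' ≤ M + dr y y' := by
    unfold dN
    rw [← hM]
    exact max_le (by linarith only [hdr0]) (by linarith only [hM0])
  have hds2 : lam ^ (-y.2.2 : ℝ) * |y.2.1 - y'.2.1| ≤ M := by
    rw [hM]
    exact le_max_right _ _
  unfold ds
  rw [hr]
  have hb : lam ^ (-x.2.2 : ℝ) ≤ 1 / 31 * lam ^ (-y.2.2 : ℝ) := by
    apply C8_shrink
    rw [abs_le] at hFy
    linarith only [hFy.1]
  have hL : 0 < lam ^ (-y.2.2 : ℝ) := Real.rpow_pos_of_pos lam_pos _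
  have tri : |z.2.1 - z'.2.1| ≤ |y.2.1 - y'.2.1| + |z.2.1 - y.2.1 - (z'.2.1 - y'.2.1)| := by
    have e : z.2.1 - z'.2.1 = (y.2.1 - y'.2.1) + (z.2.1 - y.2.1 - (z'.2.1 - y'.2.1)) := by ring
    calc |z.2.1 - z'.2.1| = |(y.2.1 - y'.2.1) + (z.2.1 - y.2.1 - (z'.2.1 - y'.2.1))| := by rw [← e]
      _ ≤ _ := abs_add_le _ _
  have tot : lam ^ (-x.2.2 : ℝ) * |z.2.1 - z'.2.1| ≤ 1 / 31 * (M + S.η * (M + dr y y')) := by
    calc _ ≤ (1 / 31 * lam ^ (-y.2.2 : ℝ)) *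
          (|y.2.1 - y'.2.1| + |z.2.1 - y.2.1 - (z'.2.1 - y'.2.1)|) := by gcongr
      _ = 1 / 31 * (lam ^ (-y.2.2 : ℝ) * |y.2.1 - y'.2.1| +
          lam ^ (-y.2.2 : ℝ) * |z.2.1 - y.2.1 - (z'.2.1 - y'.2.1)|) := by ring
      _ ≤ 1 / 31 * (M + S.η * dN y y') := by gcongr
      _ ≤ _ := by gcongr
  have hηdr : S.η * dr y y' ≤ 3 * (S.kap * ε) + 6 / 10 ^ 6 * D := by
    calc S.η * dr y y' ≤ S.η * (3 * ε + 6 * (S.C * D)) := by gcongr
      _ = 3 * (S.η * ε) + 6 * ((S.C * S.η) * D) := by ring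
      _ ≤ 3 * (S.kap * ε) + 6 * (1 / 10 ^ 6 * D) := by gcongr
      _ = _ := by ring
  have hηM : S.η * M ≤ 1 / 10 ^ 6 * M := by
    gcongr
    linarith only [k2, k3]
  have j3 : 0 ≤ S.kap * ε := by positivity
  calc _ ≤ _ := tot
    _ = 1 / 31 * M + 1 / 31 * (S.η * M) + 1 / 31 * (S.η * dr y y') := by ring
    _ ≤ D / 4 + S.kap * ε := by linarith only [hM0, hM2, hηdr, hηM, j3]

/-- The leaves of `F` and of `φ_ε ∘ F` are close. -/
theorem C8_bound (S S' : Setup) (hη : S'.η = S.η) {ε : ℝ} (hε : 0 ≤ ε) (hε' : ε ≤ 1 / 100)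
    (hF : ∀ p, S'.F p = shiftUp ε (S.F p)) (x : P) :
    max (du (S.H.symm x) (S'.H.symm x)) (ds (S.H.symm x) (S'.H.symm x)) ≤ 2 * (S.kap * ε) := by
  obtain ⟨f, hf⟩ : ∃ f : P → ℝ, f = fun x =>
    max (du (S.H.symm x) (S'.H.symm x)) (ds (S.H.symm x) (S'.H.symm x)) := ⟨_, rfl⟩
  have hf4 : ∀ x, f x ≤ 4 * S.η := by
    intro x
    rw [hf]
    obtain ⟨a1, a2⟩ := H_symm_near S x
    obtain ⟨b1, b2⟩ := H_symm_near S' x
    obtain ⟨_, _, hr⟩ := C8_coords S x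
    rw [hη] at b1 b2
    unfold du at a1 b1
    unfold ds at a2 b2
    apply max_le
    · unfold du
      rw [hr]
      have hL : 0 < lam ^ (x.2.2 : ℝ) := Real.rpow_pos_of_pos lam_pos _
      calc lam ^ (x.2.2 : ℝ) * |(S.H.symm x).1 - (S'.H.symm x).1| ≤
          lam ^ (x.2.2 : ℝ) * (|(S.H.symm x).1 - x.1| + |x.1 - (S'.H.symm x).1|) := by
            gcongr
            exact abs_sub_le _ _ _
        _ = lam ^ (x.2.2 : ℝ) * |x.1 - (S.H.symm x).1| +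
          lam ^ (x.2.2 : ℝ) * |x.1 - (S'.H.symm x).1| := by rw [abs_sub_comm]; ring
        _ ≤ _ := by linarith only [a1, b1]
    · unfold ds
      rw [hr]
      have hL : 0 < lam ^ (-x.2.2 : ℝ) := Real.rpow_pos_of_pos lam_pos _
      calc lam ^ (-x.2.2 : ℝ) * |(S.H.symm x).2.1 - (S'.H.symm x).2.1| ≤
          lam ^ (-x.2.2 : ℝ) * (|(S.H.symm x).2.1 - x.2.1| + |x.2.1 - (S'.H.symm x).2.1|) := by
            gcongr
            exact abs_sub_le _ _ _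
        _ = lam ^ (-x.2.2 : ℝ) * |x.2.1 - (S.H.symm x).2.1| +
          lam ^ (-x.2.2 : ℝ) * |x.2.1 - (S'.H.symm x).2.1| := by rw [abs_sub_comm]; ring
        _ ≤ _ := by linarith only [a2, b2]
  have hbdd : BddAbove (Set.range f) := ⟨4 * S.η, by rintro _ ⟨x, rfl⟩; exact hf4 x⟩
  have hle : ∀ x, f x ≤ ⨆ y, f y := fun x => le_ciSup hbdd x
  have hsup4 : (⨆ y, f y) ≤ 4 * S.η := ciSup_le hf4
  have hf0 : 0 ≤ f x := by
    rw [hf]
    apply le_max_of_le_left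
    unfold du
    have hL : 0 < lam ^ ((S.H.symm x).2.2 : ℝ) := Real.rpow_pos_of_pos lam_pos _
    positivity
  have hsup0 : 0 ≤ ⨆ y, f y := hf0.trans (hle x)
  have hD : ∀ x, du (S.H.symm x) (S'.H.symm x) ≤ (⨆ y, f y) ∧
      ds (S.H.symm x) (S'.H.symm x) ≤ ⨆ y, f y := by
    intro x
    have := hle x
    rw [hf] at this ⊢
    exact ⟨(le_max_left _ _).trans this, (le_max_right _ _).trans this⟩
  have hstep : ∀ x, f x ≤ (⨆ y, f y) / 4 + S.kap * ε := by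
    intro x
    have h1 := C8_u S S' hε hε' hF hsup0 hsup4 hD x
    have h2 := C8_s S S' hη hε hε' hF hsup0 hsup4 hD x
    have : f x = max (du (S.H.symm x) (S'.H.symm x)) (ds (S.H.symm x) (S'.H.symm x)) := by
      rw [hf]
    rw [this]
    exact max_le h1 h2
  have hfin : (⨆ y, f y) ≤ (⨆ y, f y) / 4 + S.kap * ε := ciSup_le hstep
  have hk := (C8_consts S).1
  have j3 : 0 ≤ S.kap * ε := by positivity
  have hx := hle x
  have : f x = max (du (S.H.symm x) (S'.H.symm x)) (ds (S.H.symm x) (S'.H.symm x)) := by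
    rw [hf]
  rw [← this]
  linarith only [hfin, j3, hx]

/-- If `F' = φ_ε ∘ F` then the leaf maps satisfy `g' ≥ g + ε/2`. -/
theorem leaf_compare (S S' : Setup) (hδ : S'.δ = S.δ) (hC : S'.C = S.C) (hη : S'.η = S.η)
    {ε : ℝ} (hε : 0 ≤ ε) (hε' : ε ≤ 1 / 100) (hF : ∀ p, S'.F p = shiftUp ε (S.F p)) (u s r : ℝ) :
    S.g u s r + ε / 2 ≤ S'.g u s r := by
  obtain ⟨k0, k1, k2, k3, k4, k5⟩ := C8_consts S
  have hb := C8_bound S S' hη hε hε' hF (u, s, r)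
  obtain ⟨_, _, hr⟩ := C8_coords S (u, s, r)
  obtain ⟨_, _, hr'⟩ := C8_coords S' (u, s, r)
  unfold Setup.g
  generalize S.H.symm (u, s, r) = p at hb hr ⊢
  generalize S'.H.symm (u, s, r) = p' at hb hr' ⊢
  have hht' : (S'.F p').2.2 = (S.F p').2.2 + ε := by rw [hF]; rfl
  have h1 : dr p p' = 0 := by
    unfold dr
    rw [hr, hr']
    simp
  have hlip := height_lip S p p' (by rw [h1]; norm_num)
  rw [h1] at hlip
  have hC0 : 0 < S.C := by linarith only [S.one_le_C]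
  have e : ((S.F p).2.2 - p.2.2) - ((S.F p').2.2 - p'.2.2) = (S.F p).2.2 - (S.F p').2.2 := by
    rw [hr, hr']
    ring
  rw [e] at hlip
  have hlip2 : |(S.F p).2.2 - (S.F p').2.2| ≤ 4 / 10 ^ 6 * ε := by
    calc _ ≤ _ := hlip
      _ ≤ 2 * S.C * (2 * (S.kap * ε)) + 3 / 5 * 0 := by gcongr
      _ = 4 * ((S.kap * S.C) * ε) := by ring
      _ ≤ 4 * (1 / 10 ^ 6 * ε) := by gcongr
      _ = _ := by ring
  rw [hht']
  rw [abs_le] at hlip2
  linarith only [hlip2.1, hlip2.2]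

end

end MPd1f192
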