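import Pool.Agent.W_MP_d1f192_an.C7

/-! # C9. blender: orbits staying in the strips -/

open MeasureTheory Set Filter Topology
open scoped ContDiff

namespace MPd1f192

noncomputable section

/-- The three profiles of the blender: two contractions and one expansion of `[9/20, 11/20]`. -/
structure Profiles (a : ℝ) (d : Fin 3 → ℝ → ℝ) : Prop where
  a_pos : 0 < a
  a_le : a ≤ 1 / 200
  aff0 : ∀ r, 7 / 20 ≤ r → r ≤ 13 / 20 → d 0 r = a * (-(1 / 2) - 5 * (r - 1 / 2))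
  aff1 : ∀ r, 7 / 20 ≤ r → r ≤ 13 / 20 → d 1 r = a * (1 / 2 - 5 * (r - 1 / 2))
  aff2 : ∀ r, 7 / 20 ≤ r → r ≤ 13 / 20 → d 2 r = a * (5 * (r - 1 / 2))
  low0 : ∀ r, 0 ≤ r → r ≤ 7 / 20 → a / 4 ≤ d 0 r
  low1 : ∀ r, 0 ≤ r → r ≤ 7 / 20 → a / 4 ≤ d 1 r
  zero : ∀ i, d i 0 = a
  high2 : ∀ r, 11 / 20 ≤ r → r ≤ 1 → a / 4 ≤ d 2 r
  lip : ∀ i r r', 0 ≤ r → r ≤ 1 → 0 ≤ r' → r' ≤ 1 → |d i r - d i r'| ≤ (1 / 2) * |r - r'|

/-- On the three strips `|u - (i+1)| ≤ 3/16`, `|s| ≤ 3/16`, `0 ≤ r ≤ 1`, `δ` is the profile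
`d i r`. -/
structure Blender (δ : P → ℝ) (a : ℝ) (d : Fin 3 → ℝ → ℝ) : Prop where
  prof : Profiles a d
  strip : ∀ (i : Fin 3) (u s r : ℝ), |u - ((i : ℕ) + 1)| ≤ 3 / 16 → |s| ≤ 3 / 16 → 0 ≤ r → r ≤ 1 →
    δ (u, s, r) = d i r

/-- The map `F` in the coordinates of the strips: `E_i = act (-1) 0 (-(i+1)) ∘ F`, approximately
`(u,s,r) ↦ (lam (u - (i+1)), (s - (i+1))/lam, r + d i r)`. -/
def stripMap (F : P → P) (i : Fin 3) (p : P) : P := act (-1) 0 (-((i : ℕ) + 1 : ℤ)) (F p)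

/-- The location of the blender orbits. -/
def InStrip (i : Fin 3) (p : P) : Prop :=
  |p.1 - ((i : ℕ) + 1)| ≤ 1 / 100 ∧ |p.2.1| ≤ 1 / 8 ∧ 9 / 20 ≤ p.2.2 ∧ p.2.2 ≤ 11 / 20

theorem C9_stripMap_eq (F : P → P) (i : Fin 3) (p : P) :
    stripMap F i p = (lam * (F p).1 - ((i : ℕ) + 1) * lam,
      lam⁻¹ * (F p).2.1 - ((i : ℕ) + 1) * lam⁻¹, (F p).2.2 - 1) := by
  unfold stripMap act
  ext
  · simp
    ring
  · simp
    ring
  · simp
    ring

theorem C9_rpow_bounds {x : ℝ} (h0 : 0 ≤ x) (h1 : x ≤ 1) :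
    1 ≤ lam ^ (x : ℝ) ∧ lam ^ (x : ℝ) ≤ lam ∧ lam⁻¹ ≤ lam ^ (-x : ℝ) ∧ lam ^ (-x : ℝ) ≤ 1 := by
  have hl : (1 : ℝ) ≤ lam := by linarith only [lam_gt]
  refine ⟨Real.one_le_rpow hl h0, ?_, ?_, ?_⟩
  · calc lam ^ (x : ℝ) ≤ lam ^ (1 : ℝ) := Real.rpow_le_rpow_of_exponent_le hl h1
      _ = lam := Real.rpow_one _
  · rw [← Real.rpow_neg_one]
    exact Real.rpow_le_rpow_of_exponent_le hl (by linarith only [h1])
  · exact Real.rpow_le_one_of_one_le_of_nonpos hl (by linarith only [h0])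

theorem C9_sup (S : Setup) (z : P) (h0 : 0 ≤ z.2.2) (h1 : z.2.2 ≤ 1) :
    |(zeta S.δ S.F z).1| ≤ S.η ∧ |(zeta S.δ S.F z).2.1| ≤ lam * S.η ∧
      |(zeta S.δ S.F z).2.2| ≤ S.η := by
  obtain ⟨b1, b2, b3, b4⟩ := C9_rpow_bounds h0 h1
  have hu := S.near.sup_u z
  have hs := S.near.sup_s z
  have hr := S.near.sup_r z
  have hl := lam_pos
  refine ⟨?_, ?_, hr⟩
  · calc |(zeta S.δ S.F z).1| = 1 * |(zeta S.δ S.F z).1| := (one_mul _).symm
      _ ≤ lam ^ (z.2.2 : ℝ) * |(zeta S.δ S.F z).1| :=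
        mul_le_mul_of_nonneg_right b1 (abs_nonneg _)
      _ ≤ S.η := hu
  · have h2 : lam⁻¹ * |(zeta S.δ S.F z).2.1| ≤ S.η :=
      (mul_le_mul_of_nonneg_right b3 (abs_nonneg _)).trans hs
    calc |(zeta S.δ S.F z).2.1| = lam * (lam⁻¹ * |(zeta S.δ S.F z).2.1|) := by
          rw [← mul_assoc, mul_inv_cancel₀ lam_ne_zero, one_mul]
      _ ≤ lam * S.η := mul_le_mul_of_nonneg_left h2 hl.le

theorem C9_lip (S : Setup) (z z' : P) (h0 : 0 ≤ z.2.2) (h1 : z.2.2 ≤ 1) (hdr : dr z z' ≤ 2) :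
    |(zeta S.δ S.F z).1 - (zeta S.δ S.F z').1| ≤
      lam ^ 2 * S.η * (|z.1 - z'.1| + |z.2.1 - z'.2.1| + |z.2.2 - z'.2.2|) ∧
    |(zeta S.δ S.F z).2.1 - (zeta S.δ S.F z').2.1| ≤
      lam ^ 2 * S.η * (|z.1 - z'.1| + |z.2.1 - z'.2.1| + |z.2.2 - z'.2.2|) ∧
    |(zeta S.δ S.F z).2.2 - (zeta S.δ S.F z').2.2| ≤
      lam ^ 2 * S.η * (|z.1 - z'.1| + |z.2.1 - z'.2.1| + |z.2.2 - z'.2.2|) := by
  obtain ⟨b1, b2, b3, b4⟩ := C9_rpow_bounds h0 h1
  have hl := lam_pos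
  have hl1 : (1 : ℝ) ≤ lam := by linarith only [lam_gt]
  have hη := S.eta_pos
  set N := |z.1 - z'.1| + |z.2.1 - z'.2.1| + |z.2.2 - z'.2.2| with hN
  have n1 := abs_nonneg (z.1 - z'.1)
  have n2 := abs_nonneg (z.2.1 - z'.2.1)
  have n3 := abs_nonneg (z.2.2 - z'.2.2)
  have hN0 : 0 ≤ N := by positivity
  have hdN : dN z z' ≤ lam * N := by
    unfold dN du ds dr
    refine max_le (max_le ?_ ?_) ?_
    · calc lam ^ (z.2.2 : ℝ) * |z.1 - z'.1| ≤ lam * |z.1 - z'.1| :=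
            mul_le_mul_of_nonneg_right b2 n1
        _ ≤ lam * N := mul_le_mul_of_nonneg_left (by linarith only [n2, n3]) hl.le
    · calc lam ^ (-z.2.2 : ℝ) * |z.2.1 - z'.2.1| ≤ lam * |z.2.1 - z'.2.1| :=
            mul_le_mul_of_nonneg_right (b4.trans hl1) n2
        _ ≤ lam * N := mul_le_mul_of_nonneg_left (by linarith only [n1, n3]) hl.le
    · calc |z.2.2 - z'.2.2| ≤ 1 * N := by linarith only [n1, n2]
        _ ≤ lam * N := mul_le_mul_of_nonneg_right hl1 hN0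
  have hηN : S.η * dN z z' ≤ lam * (S.η * N) := by
    calc S.η * dN z z' ≤ S.η * (lam * N) := mul_le_mul_of_nonneg_left hdN hη.le
      _ = lam * (S.η * N) := by ring
  have hηN0 : 0 ≤ S.η * N := by positivity
  have hfin : lam * (S.η * N) ≤ lam ^ 2 * S.η * N := by
    calc lam * (S.η * N) = 1 * (lam * (S.η * N)) := (one_mul _).symm
      _ ≤ lam * (lam * (S.η * N)) := mul_le_mul_of_nonneg_right hl1 (by positivity)
      _ = lam ^ 2 * S.η * N := by ring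
  refine ⟨?_, ?_, ?_⟩
  · have hu := S.near.lip_u z z' hdr
    calc |(zeta S.δ S.F z).1 - (zeta S.δ S.F z').1|
        = 1 * |(zeta S.δ S.F z).1 - (zeta S.δ S.F z').1| := (one_mul _).symm
      _ ≤ lam ^ (z.2.2 : ℝ) * |(zeta S.δ S.F z).1 - (zeta S.δ S.F z').1| :=
        mul_le_mul_of_nonneg_right b1 (abs_nonneg _)
      _ ≤ _ := hu.trans (hηN.trans hfin)
  · have hs := S.near.lip_s z z' hdr
    have h2 : lam⁻¹ * |(zeta S.δ S.F z).2.1 - (zeta S.δ S.F z').2.1| ≤ lam * (S.η * N) :=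
      (mul_le_mul_of_nonneg_right b3 (abs_nonneg _)).trans (hs.trans hηN)
    calc |(zeta S.δ S.F z).2.1 - (zeta S.δ S.F z').2.1|
        = lam * (lam⁻¹ * |(zeta S.δ S.F z).2.1 - (zeta S.δ S.F z').2.1|) := by
          rw [← mul_assoc, mul_inv_cancel₀ lam_ne_zero, one_mul]
      _ ≤ lam * (lam * (S.η * N)) := mul_le_mul_of_nonneg_left h2 hl.le
      _ = lam ^ 2 * S.η * N := by ring
  · exact (S.near.lip_r z z' hdr).trans (hηN.trans hfin)

/-- nearly vertical (in the `s`-direction) curves -/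
structure C9Curve (a : ℝ) (U R : ℝ → ℝ) : Prop where
  bdU : ∀ s, |s| ≤ 1 / 8 → |U s| ≤ 4
  lo : ∀ s, |s| ≤ 1 / 8 → 9 / 20 ≤ R s
  hi : ∀ s, |s| ≤ 1 / 8 → R s ≤ 11 / 20
  lipU : ∀ s s', |s| ≤ 1 / 8 → |s'| ≤ 1 / 8 → |U s - U s'| ≤ a * |s - s'|
  lipR : ∀ s s', |s| ≤ 1 / 8 → |s'| ≤ 1 / 8 → |R s - R s'| ≤ a * |s - s'|

theorem C9_contOn {a : ℝ} (ha : 0 ≤ a) {U : ℝ → ℝ} {t : Set ℝ}
    (h : ∀ s ∈ t, ∀ s' ∈ t, |U s - U s'| ≤ a * |s - s'|) : ContinuousOn U t := by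
  have : LipschitzOnWith a.toNNReal U t := by
    refine LipschitzOnWith.of_dist_le_mul fun x hx y hy => ?_
    rw [Real.dist_eq, Real.dist_eq, Real.coe_toNNReal a ha]
    exact h x hx y hy
  exact this.continuousOn

/-- the point of the preimage -/
def C9z (S : Setup) (i : Fin 3) (U R : ℝ → ℝ) (σ : ℝ) : P :=
  S.F.symm (U σ / lam + ((i : ℕ) + 1), lam * σ + ((i : ℕ) + 1), R σ + 1)

theorem C9z_eqs (S : Setup) (i : Fin 3) (U R : ℝ → ℝ) (σ : ℝ) :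
    let z := C9z S i U R σ
    z.1 + (zeta S.δ S.F z).1 = U σ / lam + ((i : ℕ) + 1) ∧
    z.2.1 + (zeta S.δ S.F z).2.1 = lam * σ + ((i : ℕ) + 1) ∧
    z.2.2 + S.δ z + (zeta S.δ S.F z).2.2 = R σ := by
  intro z
  have hz : S.F z = (U σ / lam + ((i : ℕ) + 1), lam * σ + ((i : ℕ) + 1), R σ + 1) :=
    S.F.apply_symm_apply _
  have e : zeta S.δ S.F z = S.F z - (z.1, z.2.1, z.2.2 + 1 + S.δ z) := rfl
  rw [e, hz]
  refine ⟨?_, ?_, ?_⟩
  · simp
  · simp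
  · simp only [Prod.snd_sub]
    ring

theorem C9z_strip (S : Setup) (i : Fin 3) (U R : ℝ → ℝ) (σ : ℝ) :
    stripMap S.F i (C9z S i U R σ) = (U σ, σ, R σ) := by
  have hz : S.F (C9z S i U R σ) =
      (U σ / lam + ((i : ℕ) + 1), lam * σ + ((i : ℕ) + 1), R σ + 1) :=
    S.F.apply_symm_apply _
  have hl := lam_ne_zero
  rw [C9_stripMap_eq, hz]
  ext
  · simp only
    field_simp
    ring
  · simp only
    field_simp
    ring
  · simp only
    ring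

theorem C9_i_bounds (i : Fin 3) : (0 : ℝ) ≤ (i : ℕ) ∧ ((i : ℕ) : ℝ) ≤ 2 := by
  refine ⟨Nat.cast_nonneg _, ?_⟩
  have : (i : ℕ) ≤ 2 := by omega
  exact_mod_cast this

theorem C9_eta {S : Setup} {a : ℝ} (hη : 100 * lam ^ 4 * S.η ≤ a) :
    0 < lam ^ 2 * S.η ∧ lam ^ 2 * S.η ≤ a / 10 ^ 7 ∧ lam * S.η ≤ lam ^ 2 * S.η ∧
      S.η ≤ lam ^ 2 * S.η := by
  have hl := lam_gt
  have h0 := S.eta_pos
  have hl2 : (999980 : ℝ) ≤ lam ^ 2 := by nlinarith only [hl]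
  have h1 : 0 < lam ^ 2 * S.η := by positivity
  refine ⟨h1, ?_, ?_, ?_⟩
  · have h2 : 999980 * (lam ^ 2 * S.η) ≤ lam ^ 2 * (lam ^ 2 * S.η) :=
      mul_le_mul_of_nonneg_right hl2 h1.le
    have h3 : lam ^ 2 * (lam ^ 2 * S.η) = lam ^ 4 * S.η := by ring
    rw [le_div_iff₀ (by norm_num)]
    nlinarith only [hη, h1, h2]
  · refine mul_le_mul_of_nonneg_right ?_ h0.le
    nlinarith only [hl2]
  · nlinarith only [h0, hl2]

theorem C9_real2 {a t ρ : ℝ} (ha : 0 < a) (h : t + a * (5 * (t - 1 / 2)) = ρ)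
    (h1 : 9 / 20 - a / 4 ≤ ρ) (h2 : ρ ≤ 11 / 20 + a / 4) : 9 / 20 ≤ t ∧ t ≤ 11 / 20 := by
  constructor
  · by_contra hlt
    push Not at hlt
    nlinarith only [mul_pos ha (sub_pos.2 hlt), ha, h, h1]
  · by_contra hlt
    push Not at hlt
    nlinarith only [mul_pos ha (sub_pos.2 hlt), ha, h, h2]

theorem C9_real0 {a t ρ : ℝ} (ha' : a ≤ 1 / 200)
    (h : t + a * (-(1 / 2) - 5 * (t - 1 / 2)) = ρ)
    (h1 : 9 / 20 - a / 4 ≤ ρ) (h2 : ρ ≤ 11 / 20 - 3 * a / 4) : 9 / 20 ≤ t ∧ t ≤ 11 / 20 := by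
  have h5 : 0 < 1 - 5 * a := by linarith only [ha']
  constructor
  · by_contra hlt
    push Not at hlt
    nlinarith only [mul_pos h5 (sub_pos.2 hlt), h, h1]
  · by_contra hlt
    push Not at hlt
    nlinarith only [mul_pos h5 (sub_pos.2 hlt), h, h2]

theorem C9_real1 {a t ρ : ℝ} (ha' : a ≤ 1 / 200)
    (h : t + a * (1 / 2 - 5 * (t - 1 / 2)) = ρ)
    (h1 : 9 / 20 + 3 * a / 4 ≤ ρ) (h2 : ρ ≤ 11 / 20 + a / 4) : 9 / 20 ≤ t ∧ t ≤ 11 / 20 := by
  have h5 : 0 < 1 - 5 * a := by linarith only [ha']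
  constructor
  · by_contra hlt
    push Not at hlt
    nlinarith only [mul_pos h5 (sub_pos.2 hlt), h, h1]
  · by_contra hlt
    push Not at hlt
    nlinarith only [mul_pos h5 (sub_pos.2 hlt), h, h2]

theorem C9_real_lip {a e l x y w N D : ℝ} (ha : 0 < a) (ha' : a ≤ 1 / 200)
    (e1 : e ≤ a / 10 ^ 7) (hl : 999.99 < l) (hN : N = x + y + w) (x0 : 0 ≤ x) (y0 : 0 ≤ y)
    (w0 : 0 ≤ w) (D0 : 0 ≤ D) (t1 : x ≤ a * D + e * N) (t2 : l * D ≤ y + e * N)
    (t3 : w ≤ a * D + (1 / 2) * w + e * N) : x ≤ a * y ∧ w ≤ a * y := by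
  have N0 : 0 ≤ N := by rw [hN]; positivity
  have u1 : e * N ≤ N / 10 ^ 9 := by
    have : e ≤ 1 / 10 ^ 9 := by
      calc e ≤ a / 10 ^ 7 := e1
        _ ≤ (1 / 200) / 10 ^ 7 := by gcongr
        _ ≤ 1 / 10 ^ 9 := by norm_num
    calc e * N ≤ (1 / 10 ^ 9) * N := mul_le_mul_of_nonneg_right this N0
      _ = N / 10 ^ 9 := by ring
  have u2 : a * D ≤ D / 200 := by
    calc a * D ≤ (1 / 200) * D := mul_le_mul_of_nonneg_right ha' D0
      _ = D / 200 := by ring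
  have u3 : 999 * D ≤ l * D := mul_le_mul_of_nonneg_right (by linarith only [hl]) D0
  have u4 : N ≤ 2 * y := by linarith only [hN, t1, t2, t3, N0, u1, u2, u3]
  have u5 : D ≤ y / 400 := by linarith only [t2, N0, u1, u3, u4]
  have v1 : a * D ≤ a * y / 400 := by
    calc a * D ≤ a * (y / 400) := mul_le_mul_of_nonneg_left u5 ha.le
      _ = a * y / 400 := by ring
  have v3 : 0 ≤ a * y := by positivity
  have v2 : e * N ≤ a * y / 10 ^ 6 := by
    calc e * N ≤ (a / 10 ^ 7) * (2 * y) := mul_le_mul e1 u4 N0 (by positivity)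
      _ = 2 * (a * y) / 10 ^ 7 := by ring
      _ ≤ a * y / 10 ^ 6 := by
        rw [div_le_div_iff₀ (by norm_num) (by norm_num)]
        linarith only [v3]
  constructor
  · linarith only [t1, v1, v3, v2]
  · linarith only [t3, v1, v3, v2]

theorem C9z_height (S : Setup) (i : Fin 3) (U R : ℝ → ℝ) (σ : ℝ) :
    |(C9z S i U R σ).2.2 - R σ| ≤ 1 / 40 := by
  have h := height_F_symm S (U σ / lam + ((i : ℕ) + 1), lam * σ + ((i : ℕ) + 1), R σ + 1)
  have e : (S.F.symm (U σ / lam + ((i : ℕ) + 1), lam * σ + ((i : ℕ) + 1), R σ + 1)).2.2 -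
      (U σ / lam + ((i : ℕ) + 1), lam * σ + ((i : ℕ) + 1), R σ + 1).2.2 + 1 =
      (C9z S i U R σ).2.2 - R σ := by
    unfold C9z
    simp only
    ring
  rwa [e] at h

theorem C9_four_div_lam : 4 / lam ≤ 1 / 249 := by
  have := lam_gt
  rw [div_le_div_iff₀ lam_pos (by norm_num)]
  linarith only [this]

/-- Location of the preimage points. -/
theorem C9z_loc (S : Setup) {a : ℝ} {d : Fin 3 → ℝ → ℝ} (hB : Blender S.δ a d)
    (hη : 100 * lam ^ 4 * S.η ≤ a) {U R : ℝ → ℝ} (hc : C9Curve a U R) (i : Fin 3)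
    (hi : i = 2 ∨ (i = 0 ∧ R 0 ≤ 1 / 2) ∨ (i = 1 ∧ 1 / 2 ≤ R 0)) {σ : ℝ}
    (hσ1 : -(4 / lam) ≤ σ) (hσ2 : σ ≤ 0) (hs : |(C9z S i U R σ).2.1| ≤ 1 / 8) :
    InStrip i (C9z S i U R σ) := by
  have ha := hB.prof.a_pos
  have ha' := hB.prof.a_le
  obtain ⟨e0, e1, e2, e3⟩ := C9_eta hη
  have h4 := C9_four_div_lam
  have hσ : |σ| ≤ 1 / 249 := by rw [abs_le]; constructor <;> linarith only [hσ1, h4, hσ2]
  have hσ8 : |σ| ≤ 1 / 8 := by linarith only [hσ]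
  have hR1 := hc.lo σ hσ8
  have hR2 := hc.hi σ hσ8
  have hR0 : |R σ - R 0| ≤ a / 249 := by
    have := hc.lipR σ 0 hσ8 (by simp)
    rw [sub_zero] at this
    calc |R σ - R 0| ≤ a * |σ| := this
      _ ≤ a * (1 / 249) := mul_le_mul_of_nonneg_left hσ ha.le
      _ = a / 249 := by ring
  have hH := C9z_height S i U R σ
  set z := C9z S i U R σ with hz
  obtain ⟨q1, q2, q3⟩ := C9z_eqs S i U R σ
  rw [← hz] at q1 q2 q3
  rw [abs_le] at hH
  have hz0 : 0 ≤ z.2.2 := by linarith only [hH.1, hR1]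
  have hz1 : z.2.2 ≤ 1 := by linarith only [hH.2, hR2]
  obtain ⟨s1, s2, s3⟩ := C9_sup S z hz0 hz1
  have hU := hc.bdU σ hσ8
  have hUl : |U σ / lam| ≤ 1 / 249 := by
    rw [abs_div, abs_of_pos lam_pos]
    exact (div_le_div_of_nonneg_right hU lam_pos.le).trans h4
  have hu : |z.1 - ((i : ℕ) + 1)| ≤ 1 / 100 := by
    rw [abs_le] at s1 hUl ⊢
    constructor <;> linarith only [s1.1, s1.2, hUl.1, hUl.2, ha', e1, e3, q1]
  have hδ : S.δ z = d i z.2.2 := hB.strip i z.1 z.2.1 z.2.2 (hu.trans (by norm_num))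
    (hs.trans (by norm_num)) hz0 hz1
  rw [hδ] at q3
  rw [abs_le] at s3 hR0
  have hr7 : 7 / 20 ≤ z.2.2 := by linarith only [hH.1, hR1]
  have hr13 : z.2.2 ≤ 13 / 20 := by linarith only [hH.2, hR2]
  refine ⟨hu, hs, ?_⟩
  have hρ : d i z.2.2 = R σ - (zeta S.δ S.F z).2.2 - z.2.2 := by linarith only [q3]
  have hηa : S.η ≤ a / 10 ^ 7 := e3.trans e1
  clear_value z
  clear q1 q2 q3 s1 s2 hUl hU hδ hu hH hc e0 e1 e2 e3 h4
  rcases hi with rfl | ⟨rfl, h12⟩ | ⟨rfl, h12⟩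
  · rw [hB.prof.aff2 _ hr7 hr13] at hρ
    exact C9_real2 (ρ := R σ - (zeta S.δ S.F z).2.2) ha (by linarith only [hρ]) (by linarith only [hR1, s3, hηa])
      (by linarith only [s3.1, hR2, hR0, hηa])
  · rw [hB.prof.aff0 _ hr7 hr13] at hρ
    exact C9_real0 (ρ := R σ - (zeta S.δ S.F z).2.2) ha' (by linarith only [hρ]) (by linarith only [hR1, s3, hηa])
      (by linarith only [s3.1, hR0.2, ha', hηa, h12])
  · rw [hB.prof.aff1 _ hr7 hr13] at hρ
    exact C9_real1 (ρ := R σ - (zeta S.δ S.F z).2.2) ha' (by linarith only [hρ])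
      (by linarith only [s3.2, hR0.1, ha', hηa, h12]) (by linarith only [s3.1, hR2, hR0, hηa])

/-- Lipschitz estimates for the preimage points. -/
theorem C9z_lip (S : Setup) {a : ℝ} {d : Fin 3 → ℝ → ℝ} (hB : Blender S.δ a d)
    (hη : 100 * lam ^ 4 * S.η ≤ a) {U R : ℝ → ℝ} (hc : C9Curve a U R) (i : Fin 3)
    {σ σ' : ℝ} (hσ : |σ| ≤ 1 / 8) (hσ' : |σ'| ≤ 1 / 8) (hz : InStrip i (C9z S i U R σ))
    (hz' : InStrip i (C9z S i U R σ')) :
    |(C9z S i U R σ).1 - (C9z S i U R σ').1| ≤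
        a * |(C9z S i U R σ).2.1 - (C9z S i U R σ').2.1| ∧
      |(C9z S i U R σ).2.2 - (C9z S i U R σ').2.2| ≤
        a * |(C9z S i U R σ).2.1 - (C9z S i U R σ').2.1| := by
  have ha := hB.prof.a_pos
  have ha' := hB.prof.a_le
  obtain ⟨e0, e1, e2, e3⟩ := C9_eta hη
  obtain ⟨q1, q2, q3⟩ := C9z_eqs S i U R σ
  obtain ⟨q1', q2', q3'⟩ := C9z_eqs S i U R σ'
  obtain ⟨i1, i2, i3, i4⟩ := hz
  obtain ⟨i1', i2', i3', i4'⟩ := hz'
  set z := C9z S i U R σ with hzd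
  set z' := C9z S i U R σ' with hzd'
  have hδ : S.δ z = d i z.2.2 := hB.strip i z.1 z.2.1 z.2.2 (i1.trans (by norm_num))
    (i2.trans (by norm_num)) (by linarith only [i3]) (by linarith only [i4])
  have hδ' : S.δ z' = d i z'.2.2 := hB.strip i z'.1 z'.2.1 z'.2.2 (i1'.trans (by norm_num))
    (i2'.trans (by norm_num)) (by linarith only [i3']) (by linarith only [i4'])
  rw [hδ] at q3
  rw [hδ'] at q3'
  have hdr : dr z z' ≤ 2 := by
    unfold dr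
    rw [abs_le]
    constructor <;> linarith only [i3, i4', i4, i3']
  obtain ⟨l1, l2, l3⟩ := C9_lip S z z' (by linarith only [i3]) (by linarith only [i4]) hdr
  set x := |z.1 - z'.1| with hx
  set y := |z.2.1 - z'.2.1| with hy
  set w := |z.2.2 - z'.2.2| with hw
  set e := lam ^ 2 * S.η with he
  have x0 : 0 ≤ x := abs_nonneg _
  have y0 : 0 ≤ y := abs_nonneg _
  have w0 : 0 ≤ w := abs_nonneg _
  set N := x + y + w with hN
  have N0 : 0 ≤ N := by positivity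
  have hU := hc.lipU σ σ' hσ hσ'
  have hR := hc.lipR σ σ' hσ hσ'
  set D := |σ - σ'| with hD
  have D0 : 0 ≤ D := abs_nonneg _
  have hd := hB.prof.lip i z.2.2 z'.2.2 (by linarith only [i3]) (by linarith only [i4]) (by linarith only [i3']) (by linarith only [i4'])
  have hl := lam_gt
  have hlp := lam_pos
  -- the three estimates
  have t1 : x ≤ a * D + e * N := by
    have h1 : z.1 - z'.1 = (U σ - U σ') / lam -
        ((zeta S.δ S.F z).1 - (zeta S.δ S.F z').1) := by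
      rw [sub_div]; linarith only [q1, q1']
    have h2 : |(U σ - U σ') / lam| ≤ a * D := by
      rw [abs_div, abs_of_pos hlp]
      refine (div_le_self (abs_nonneg _) (by linarith only [hl])).trans hU
    calc x = |(U σ - U σ') / lam - ((zeta S.δ S.F z).1 - (zeta S.δ S.F z').1)| := by
          rw [hx, h1]
      _ ≤ |(U σ - U σ') / lam| + |(zeta S.δ S.F z).1 - (zeta S.δ S.F z').1| := abs_sub _ _
      _ ≤ a * D + e * N := add_le_add h2 l1
  have t2 : lam * D ≤ y + e * N := by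
    have h1 : lam * (σ - σ') = (z.2.1 - z'.2.1) +
        ((zeta S.δ S.F z).2.1 - (zeta S.δ S.F z').2.1) := by linarith only [q2, q2']
    calc lam * D = |lam * (σ - σ')| := by rw [abs_mul, abs_of_pos hlp]
      _ = |(z.2.1 - z'.2.1) + ((zeta S.δ S.F z).2.1 - (zeta S.δ S.F z').2.1)| := by rw [h1]
      _ ≤ _ := (abs_add_le _ _).trans (add_le_add le_rfl l2)
  have t3 : w ≤ a * D + (1 / 2) * w + e * N := by
    have h1 : z.2.2 - z'.2.2 = (R σ - R σ') - (d i z.2.2 - d i z'.2.2) -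
        ((zeta S.δ S.F z).2.2 - (zeta S.δ S.F z').2.2) := by linarith only [q3, q3']
    calc w = |(R σ - R σ') - (d i z.2.2 - d i z'.2.2) -
        ((zeta S.δ S.F z).2.2 - (zeta S.δ S.F z').2.2)| := by rw [hw, h1]
      _ ≤ |(R σ - R σ') - (d i z.2.2 - d i z'.2.2)| +
        |(zeta S.δ S.F z).2.2 - (zeta S.δ S.F z').2.2| := abs_sub _ _
      _ ≤ |R σ - R σ'| + |d i z.2.2 - d i z'.2.2| +
        |(zeta S.δ S.F z).2.2 - (zeta S.δ S.F z').2.2| := by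
          gcongr
          exact abs_sub _ _
      _ ≤ a * D + (1 / 2) * w + e * N := by linarith only [l3, hR, hd]
  exact C9_real_lip ha ha' e1 hl hN x0 y0 w0 D0 t1 t2 t3

theorem C9_sols (S : Setup) {a : ℝ} {d : Fin 3 → ℝ → ℝ} (hB : Blender S.δ a d)
    (hη : 100 * lam ^ 4 * S.η ≤ a) {U R : ℝ → ℝ} (hc : C9Curve a U R) (i : Fin 3)
    {s : ℝ} (hs : |s| ≤ 1 / 8) :
    ∃ σ : ℝ, -(4 / lam) ≤ σ ∧ σ ≤ 0 ∧ (C9z S i U R σ).2.1 = s := by
  have ha := hB.prof.a_pos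
  have ha' := hB.prof.a_le
  obtain ⟨e0, e1, e2, e3⟩ := C9_eta hη
  have h4 := C9_four_div_lam
  have hlp := lam_pos
  have h40 : 0 ≤ 4 / lam := by positivity
  have hsub : Icc (-(4 / lam)) 0 ⊆ {s : ℝ | |s| ≤ 1 / 8} := by
    rintro x ⟨h1, h2⟩
    show |x| ≤ 1 / 8
    rw [abs_le]
    constructor <;> linarith only [h4, h1, h2]
  have hcU : ContinuousOn U (Icc (-(4 / lam)) 0) :=
    C9_contOn ha.le fun s hs s' hs' => hc.lipU s s' (hsub hs) (hsub hs')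
  have hcR : ContinuousOn R (Icc (-(4 / lam)) 0) :=
    C9_contOn ha.le fun s hs s' hs' => hc.lipR s s' (hsub hs) (hsub hs')
  have hcont : ContinuousOn (fun σ => (C9z S i U R σ).2.1) (Icc (-(4 / lam)) 0) := by
    have h1 : ContinuousOn (fun σ => ((U σ / lam + ((i : ℕ) + 1), lam * σ + ((i : ℕ) + 1),
        R σ + 1) : P)) (Icc (-(4 / lam)) 0) := by
      refine ContinuousOn.prodMk ?_ (ContinuousOn.prodMk ?_ ?_)
      · exact (hcU.div_const _).add continuousOn_const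
      · exact ((continuous_const.mul continuous_id).add continuous_const).continuousOn
      · exact hcR.add continuousOn_const
    have h2 : ContinuousOn (fun σ => C9z S i U R σ) (Icc (-(4 / lam)) 0) :=
      S.F.symm.continuous.comp_continuousOn h1
    exact (continuous_fst.comp continuous_snd).comp_continuousOn h2
  have hi := C9_i_bounds i
  have hbd : ∀ σ ∈ Icc (-(4 / lam)) 0, |(C9z S i U R σ).2.1 - (lam * σ + ((i : ℕ) + 1))| ≤
      1 / 8 := by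
    intro σ hσ
    have hσ8 := hsub hσ
    have hR1 := hc.lo σ hσ8
    have hR2 := hc.hi σ hσ8
    have hH := C9z_height S i U R σ
    rw [abs_le] at hH
    obtain ⟨-, q2, -⟩ := C9z_eqs S i U R σ
    obtain ⟨-, s2, -⟩ := C9_sup S (C9z S i U R σ) (by linarith only [hH.1, hR1]) (by linarith only [hH.2, hR2])
    have e4 : (C9z S i U R σ).2.1 - (lam * σ + ((i : ℕ) + 1)) =
        -(zeta S.δ S.F (C9z S i U R σ)).2.1 := by linarith only [q2]
    rw [e4, abs_neg]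
    have : a / 10 ^ 7 ≤ 1 / 8 := by
      calc a / 10 ^ 7 ≤ (1 / 200) / 10 ^ 7 := by gcongr
        _ ≤ 1 / 8 := by norm_num
    linarith only [ha', e1, e2, s2]
  have hivt := intermediate_value_Icc (by linarith only [h40] : -(4 / lam) ≤ 0) hcont
  rw [abs_le] at hs
  have hm : s ∈ Icc ((fun σ => (C9z S i U R σ).2.1) (-(4 / lam)))
      ((fun σ => (C9z S i U R σ).2.1) 0) := by
    have b1 := hbd (-(4 / lam)) ⟨le_rfl, by linarith only [h40]⟩
    have b2 := hbd 0 ⟨by linarith only [h40], le_rfl⟩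
    rw [abs_le] at b1 b2
    have e5 : lam * (-(4 / lam)) = -4 := by field_simp
    rw [e5] at b1
    rw [mul_zero] at b2
    constructor
    · show (C9z S i U R (-(4 / lam))).2.1 ≤ s
      linarith only [b1.2, hi.2, hs]
    · show s ≤ (C9z S i U R 0).2.1
      linarith only [b2.1, hs]
  obtain ⟨σ, ⟨h1, h2⟩, h3⟩ := hivt hm
  exact ⟨σ, h1, h2, h3⟩

/-- One step back. -/
theorem C9_step (S : Setup) {a : ℝ} {d : Fin 3 → ℝ → ℝ} (hB : Blender S.δ a d)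
    (hη : 100 * lam ^ 4 * S.η ≤ a) {U R : ℝ → ℝ} (hc : C9Curve a U R) (i : Fin 3)
    (hi : i = 2 ∨ (i = 0 ∧ R 0 ≤ 1 / 2) ∨ (i = 1 ∧ 1 / 2 ≤ R 0)) :
    ∃ U' R' : ℝ → ℝ, C9Curve a U' R' ∧ ∀ s, |s| ≤ 1 / 8 → InStrip i (U' s, s, R' s) ∧
      ∃ σ, |σ| ≤ 1 / 8 ∧ stripMap S.F i (U' s, s, R' s) = (U σ, σ, R σ) := by
  classical
  have hex : ∀ s : ℝ, ∃ σ : ℝ, |s| ≤ 1 / 8 →
      (-(4 / lam) ≤ σ ∧ σ ≤ 0 ∧ (C9z S i U R σ).2.1 = s) := by
    intro s
    by_cases hs : |s| ≤ 1 / 8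
    · obtain ⟨σ, h⟩ := C9_sols S hB hη hc i hs
      exact ⟨σ, fun _ => h⟩
    · exact ⟨0, fun h => absurd h hs⟩
  choose f hf using hex
  have h4 := C9_four_div_lam
  have hf8 : ∀ s, |s| ≤ 1 / 8 → |f s| ≤ 1 / 8 := by
    intro s hs
    obtain ⟨h1, h2, -⟩ := hf s hs
    rw [abs_le]
    constructor <;> linarith only [h4, h1, h2]
  have hin : ∀ s, |s| ≤ 1 / 8 → InStrip i (C9z S i U R (f s)) := by
    intro s hs
    obtain ⟨h1, h2, h3⟩ := hf s hs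
    exact C9z_loc S hB hη hc i hi h1 h2 (by rw [h3]; exact hs)
  have hpt : ∀ s, |s| ≤ 1 / 8 →
      ((C9z S i U R (f s)).1, s, (C9z S i U R (f s)).2.2) = C9z S i U R (f s) := by
    intro s hs
    obtain ⟨-, -, h3⟩ := hf s hs
    ext
    · rfl
    · exact h3.symm
    · rfl
  refine ⟨fun s => (C9z S i U R (f s)).1, fun s => (C9z S i U R (f s)).2.2, ?_, ?_⟩
  · refine ⟨?_, fun s hs => (hin s hs).2.2.1, fun s hs => (hin s hs).2.2.2, ?_, ?_⟩
    · intro s hs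
      have h := (hin s hs).1
      have hb := C9_i_bounds i
      rw [abs_le] at h ⊢
      constructor <;> linarith only [h.1, h.2, hb.2]
    · intro s s' hs hs'
      have h := (C9z_lip S hB hη hc i (hf8 s hs) (hf8 s' hs') (hin s hs) (hin s' hs')).1
      rwa [(hf s hs).2.2, (hf s' hs').2.2] at h
    · intro s s' hs hs'
      have h := (C9z_lip S hB hη hc i (hf8 s hs) (hf8 s' hs') (hin s hs) (hin s' hs')).2
      rwa [(hf s hs).2.2, (hf s' hs').2.2] at h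
  · intro s hs
    show InStrip i ((C9z S i U R (f s)).1, s, (C9z S i U R (f s)).2.2) ∧ _
    refine ⟨by rw [hpt s hs]; exact hin s hs, f s, hf8 s hs, ?_⟩
    show stripMap S.F i ((C9z S i U R (f s)).1, s, (C9z S i U R (f s)).2.2) = _
    rw [hpt s hs]
    exact C9z_strip S i U R (f s)

theorem C9_curves (S : Setup) {a : ℝ} {d : Fin 3 → ℝ → ℝ} (hB : Blender S.δ a d)
    (hη : 100 * lam ^ 4 * S.η ≤ a) (T : ℕ) : ∀ two : ℕ → Prop,
    ∃ U R : ℝ → ℝ, C9Curve a U R ∧ ∀ s, |s| ≤ 1 / 8 →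
      ∃ (p : ℕ → P) (i : ℕ → Fin 3), p 0 = (U s, s, R s) ∧
        (∀ j < T, InStrip (i j) (p j) ∧ p (j + 1) = stripMap S.F (i j) (p j))
        ∧ (∀ j < T, (two j ↔ i j = 2)) ∧ 9 / 20 ≤ (p T).2.2 ∧ (p T).2.2 ≤ 11 / 20 := by
  classical
  have ha := hB.prof.a_pos
  induction T with
  | zero =>
    intro two
    refine ⟨fun _ => 0, fun _ => 1 / 2, ?_, ?_⟩
    · refine ⟨fun s _ => by norm_num, fun s _ => by norm_num, fun s _ => by norm_num, ?_, ?_⟩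
      · intro s s' _ _
        simp only [sub_self, abs_zero]
        positivity
      · intro s s' _ _
        simp only [sub_self, abs_zero]
        positivity
    · intro s _
      refine ⟨fun _ => (0, s, 1 / 2), fun _ => 0, rfl, fun j hj => absurd hj (by omega),
        fun j hj => absurd hj (by omega), ?_, ?_⟩ <;> norm_num
  | succ T ih =>
    intro two
    obtain ⟨U, R, hc, hp⟩ := ih (fun j => two (j + 1))
    obtain ⟨i0, hi0, hi2⟩ : ∃ i0 : Fin 3, (i0 = 2 ∨ (i0 = 0 ∧ R 0 ≤ 1 / 2) ∨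
        (i0 = 1 ∧ 1 / 2 ≤ R 0)) ∧ (two 0 ↔ i0 = 2) := by
      by_cases h2 : two 0
      · exact ⟨2, Or.inl rfl, by simp [h2]⟩
      · rcases le_total (R 0) (1 / 2) with h | h
        · exact ⟨0, Or.inr (Or.inl ⟨rfl, h⟩), by simp [h2]⟩
        · exact ⟨1, Or.inr (Or.inr ⟨rfl, h⟩), by simp [h2]⟩
    obtain ⟨U', R', hc', hstep⟩ := C9_step S hB hη hc i0 hi0
    refine ⟨U', R', hc', fun s hs => ?_⟩
    obtain ⟨hin, σ, hσ, hmap⟩ := hstep s hs
    obtain ⟨p, i, hp0, hpj, htwo, hlo, hhi⟩ := hp σ hσ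
    refine ⟨fun j => Nat.casesOn j (U' s, s, R' s) p, fun j => Nat.casesOn j i0 i, rfl,
      ?_, ?_, hlo, hhi⟩
    · intro j hj
      cases j with
      | zero => exact ⟨hin, by rw [← hmap] at hp0; exact hp0⟩
      | succ j => exact hpj j (by omega)
    · intro j hj
      cases j with
      | zero => exact hi2
      | succ j => exact htwo j (by omega)

/-- **Blender orbits.** For every pattern prescribing at each time `j < T` either the symbol `2` or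
a symbol in `{0,1}` there is an orbit of the strip maps of this pattern, staying in the strips. -/
theorem exists_blender_orbit (S : Setup) {a : ℝ} {d : Fin 3 → ℝ → ℝ} (hB : Blender S.δ a d)
    (hη : 100 * lam ^ 4 * S.η ≤ a) (T : ℕ) (two : ℕ → Prop) :
    ∃ (p : ℕ → P) (i : ℕ → Fin 3), (∀ j < T, InStrip (i j) (p j) ∧ p (j + 1) = stripMap S.F (i j) (p j))
      ∧ (∀ j < T, (two j ↔ i j = 2)) ∧ 9 / 20 ≤ (p T).2.2 ∧ (p T).2.2 ≤ 11 / 20 := by
  obtain ⟨U, R, -, h⟩ := C9_curves S hB hη T two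
  obtain ⟨p, i, -, h1, h2, h3, h4⟩ := h 0 (by simp)
  exact ⟨p, i, h1, h2, h3, h4⟩

end

end MPd1f192
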