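import Pool.Agent.W_MP_d1f192_an.DSetup

/-!
# Part D: the group `Γ` (composition, inverses, freeness, finiteness, fundamental box)

`act k m n (u,s,r) = (lam^(-k) u + (m + n lam), lam^k s + (m + n lam⁻¹), r + k)`,
`lam + lam⁻¹ = 1000` (`lam_inv`, `lam_sq` in Model.lean).

* `act_comp`: translations by `Λ = {(m + n lam, m + n lam⁻¹)}` are normalised by
  `D^k : (u,s) ↦ (lam^(-k) u, lam^k s)`: `lam⁻¹ (m + n lam) = n + m lam⁻¹ = (n + 1000 m) - m lam`,
  `lam (m + n lam⁻¹) = n + m lam = (n + 1000 m) - m lam⁻¹`; induction on `k` (both signs).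
* `act_free`: `r + k = r` gives `k = 0`; then `m + n lam = 0 = m + n lam⁻¹`, subtract.
* `act_finite`: heights bound `k`; for each `k` in the finite range `m + n lam` and `m + n lam⁻¹`
  are bounded, hence `n (lam - lam⁻¹)` and `n`, `m` are bounded: finitely many triples.
* `act_box`: first `k = -⌊r⌋`, then for each `n` put `m = -⌊s + n lam⁻¹⌋`; passing from `n` to
  `n + 1` changes `u + m + n lam` by `lam` or `lam - 1` (both in `[1, 1000]`), so some `n` brings
  `u` into `[0, 1000]`. (Or directly: choose `n = -⌊(u - s)/(lam - lam⁻¹)⌋`, then `m = -⌊s + n lam⁻¹⌋`: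
  then `u - s + n (lam - lam⁻¹)` is in `[0, lam - lam⁻¹)` and `s' = s + m + n lam⁻¹` in `[0,1)`, so
  `u' = s' + (u - s + n (lam - lam⁻¹))` is in `[0, 1 + lam - lam⁻¹) ⊆ [0, 1000]`.)
-/

open Set Filter Topology
open scoped Manifold ContDiff

set_option linter.style.haveILetI false
set_option linter.unusedSectionVars false

namespace MPd1f192

noncomputable section

/-- multiplying an element of `Λ` by `D^k` -/
theorem DGroup_mul (k m n : ℤ) : ∃ a b : ℤ, lam ^ (-k) * ((m : ℝ) + n * lam) = a + b * lam ∧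
    lam ^ k * ((m : ℝ) + n * lam⁻¹) = a + b * lam⁻¹ := by
  have h0 := lam_ne_zero
  have h2 := lam_sq
  induction k using Int.induction_on with
  | zero => exact ⟨m, n, by simp, by simp⟩
  | succ k ih =>
    obtain ⟨a, b, h1, h3⟩ := ih
    refine ⟨b + 1000 * a, -a, ?_, ?_⟩
    · rw [neg_add, zpow_add₀ h0, zpow_neg_one, mul_comm (lam ^ (-(k : ℤ))) lam⁻¹, mul_assoc, h1]
      have : lam⁻¹ * ((a : ℝ) + b * lam) = a * lam⁻¹ + b := by
        field_simp
      rw [this, lam_inv]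
      push_cast
      ring
    · rw [zpow_add₀ h0, zpow_one, mul_comm (lam ^ (k : ℤ)) lam, mul_assoc, h3]
      have : lam * ((a : ℝ) + b * lam⁻¹) = a * lam + b := by
        field_simp
      rw [this, lam_inv]
      push_cast
      ring
  | pred k ih =>
    obtain ⟨a, b, h1, h3⟩ := ih
    refine ⟨-b, a + 1000 * b, ?_, ?_⟩
    · have e : -(-(k : ℤ) - 1) = 1 + -(-(k : ℤ)) := by ring
      rw [e, zpow_add₀ h0, zpow_one, mul_assoc, h1]
      push_cast
      linear_combination (b : ℝ) * h2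
    · have e : (-(k : ℤ) - 1) = -1 + -(k : ℤ) := by ring
      rw [e, zpow_add₀ h0, zpow_neg_one, mul_assoc, h3]
      have h4 : lam⁻¹ * lam⁻¹ = 1000 * lam⁻¹ - 1 := by
        rw [lam_inv]
        nlinarith only [h2]
      push_cast
      linear_combination (b : ℝ) * h4

theorem act_comp (k m n k' m' n' : ℤ) :
    ∃ m'' n'' : ℤ, ∀ p, act k m n (act k' m' n' p) = act (k + k') m'' n'' p := by
  obtain ⟨a, b, h1, h2⟩ := DGroup_mul k m' n'
  refine ⟨m + a, n + b, fun p => ?_⟩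
  have h0 := lam_ne_zero
  unfold act
  refine Prod.ext ?_ (Prod.ext ?_ ?_)
  · simp only
    rw [neg_add, zpow_add₀ h0]
    push_cast
    linear_combination h1
  · simp only
    rw [zpow_add₀ h0]
    push_cast
    linear_combination h2
  · simp only
    push_cast
    ring

theorem act_zero (p : P) : act 0 0 0 p = p := by
  unfold act
  refine Prod.ext ?_ (Prod.ext ?_ ?_) <;> simp

theorem act_inv (k m n : ℤ) :
    ∃ m' n' : ℤ, (∀ p, act (-k) m' n' (act k m n p) = p) ∧
      ∀ p, act k m n (act (-k) m' n' p) = p := by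
  obtain ⟨a, b, h1, h2⟩ := DGroup_mul (-k) m n
  rw [neg_neg] at h1
  have h0 := lam_ne_zero
  have e1 : lam ^ k * lam ^ (-k) = 1 := by
    rw [← zpow_add₀ h0]
    simp
  refine ⟨-a, -b, fun p => ?_, fun p => ?_⟩
  · unfold act
    refine Prod.ext ?_ (Prod.ext ?_ ?_)
    · simp only [neg_neg]
      push_cast
      linear_combination p.1 * e1 + h1
    · simp only
      push_cast
      linear_combination p.2.1 * e1 + h2
    · simp only
      push_cast
      ring
  · unfold act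
    refine Prod.ext ?_ (Prod.ext ?_ ?_)
    · simp only [neg_neg]
      push_cast
      linear_combination (p.1 - ((m : ℝ) + n * lam)) * e1 + lam ^ (-k) * h1
    · simp only
      push_cast
      linear_combination (p.2.1 - ((m : ℝ) + n * lam⁻¹)) * e1 + lam ^ k * h2
    · simp only
      push_cast
      ring

theorem DGroup_D_pos : 0 < lam - lam⁻¹ := by
  rw [lam_inv]
  linarith only [lam_gt]

theorem act_free {k m n : ℤ} {p : P} (h : act k m n p = p) : k = 0 ∧ m = 0 ∧ n = 0 := by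
  unfold act at h
  have h1 := congrArg (fun q : P => q.1) h
  have h2 := congrArg (fun q : P => q.2.1) h
  have h3 := congrArg (fun q : P => q.2.2) h
  simp only at h1 h2 h3
  have hk : k = 0 := by
    have : (k : ℝ) = 0 := by linarith only [h3]
    exact_mod_cast this
  subst hk
  simp only [neg_zero, zpow_zero, one_mul] at h1 h2
  have hD := DGroup_D_pos
  have hn : (n : ℝ) * (lam - lam⁻¹) = 0 := by
    linear_combination h1 - h2
  have hn0 : (n : ℝ) = 0 := by
    rcases mul_eq_zero.1 hn with h | h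
    · exact h
    · exact absurd h hD.ne'
  have hm0 : (m : ℝ) = 0 := by
    rw [hn0] at h1
    linarith only [h1]
  exact ⟨rfl, by exact_mod_cast hm0, by exact_mod_cast hn0⟩

theorem act_finite {K L : Set P} (hK : IsCompact K) (hL : IsCompact L) :
    {t : ℤ × ℤ × ℤ | (act t.1 t.2.1 t.2.2 '' K ∩ L).Nonempty}.Finite := by
  obtain ⟨R1, hR1⟩ := hK.isBounded.exists_norm_le
  obtain ⟨R2, hR2⟩ := hL.isBounded.exists_norm_le
  obtain ⟨N, hN⟩ := exists_nat_ge (R1 + R2)
  have hlam1 : (1 : ℝ) ≤ lam := by linarith only [lam_gt]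
  set R : ℝ := R2 + lam ^ (N : ℤ) * R1 with hR
  obtain ⟨N', hN'⟩ := exists_nat_ge (2 * R + R * 2 * lam + (R + 0) + N)
  refine Set.Finite.subset ((Set.finite_Icc (-(N' : ℤ)) N').prod
    ((Set.finite_Icc (-(N' : ℤ)) N').prod (Set.finite_Icc (-(N' : ℤ)) N'))) ?_
  rintro ⟨k, m, n⟩ ⟨_, ⟨p, hp, rfl⟩, hpL⟩
  have hp1 := hR1 p hp
  have hp2 := hR2 _ hpL
  have a1 : |p.1| ≤ R1 := (norm_fst_le p).trans hp1
  have a2 : |p.2.1| ≤ R1 := ((norm_fst_le p.2).trans (norm_snd_le p)).trans hp1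
  have a3 : |p.2.2| ≤ R1 := ((norm_snd_le p.2).trans (norm_snd_le p)).trans hp1
  have b1 : |lam ^ (-k) * p.1 + (m + n * lam)| ≤ R2 := (norm_fst_le (act k m n p)).trans hp2
  have b2 : |lam ^ k * p.2.1 + (m + n * lam⁻¹)| ≤ R2 :=
    ((norm_fst_le (act k m n p).2).trans (norm_snd_le (act k m n p))).trans hp2
  have b3 : |p.2.2 + k| ≤ R2 :=
    ((norm_snd_le (act k m n p).2).trans (norm_snd_le (act k m n p))).trans hp2
  have hR10 : 0 ≤ R1 := (abs_nonneg _).trans a1
  have hR20 : 0 ≤ R2 := (abs_nonneg _).trans b1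
  have hkR : |(k : ℝ)| ≤ N := by
    have : |(k : ℝ)| ≤ |p.2.2 + k| + |p.2.2| := by
      have := abs_sub (p.2.2 + k) p.2.2
      rw [add_sub_cancel_left] at this
      exact this
    linarith only [hN, a3, b3, this]
  have hkN : |k| ≤ (N : ℤ) := by
    have : ((|k| : ℤ) : ℝ) ≤ ((N : ℤ) : ℝ) := by
      push_cast
      exact hkR
    exact_mod_cast this
  have hk1 : k ≤ N := (le_abs_self k).trans hkN
  have hk2 : -k ≤ N := (neg_le_abs k).trans hkN
  have hRR : 0 ≤ R := by
    have : 0 ≤ lam ^ (N : ℤ) := zpow_nonneg lam_pos.le _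
    positivity
  have c1 : |(m : ℝ) + n * lam| ≤ R := by
    have e : (m : ℝ) + n * lam = (lam ^ (-k) * p.1 + (m + n * lam)) - lam ^ (-k) * p.1 := by ring
    rw [e]
    refine (abs_sub _ _).trans (add_le_add b1 ?_)
    rw [abs_mul, abs_of_nonneg (zpow_nonneg lam_pos.le _)]
    exact mul_le_mul (zpow_le_zpow_right₀ hlam1 hk2) a1 (abs_nonneg _) (zpow_nonneg lam_pos.le _)
  have c2 : |(m : ℝ) + n * lam⁻¹| ≤ R := by
    have e : (m : ℝ) + n * lam⁻¹ = (lam ^ k * p.2.1 + (m + n * lam⁻¹)) - lam ^ k * p.2.1 := by ring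
    rw [e]
    refine (abs_sub _ _).trans (add_le_add b2 ?_)
    rw [abs_mul, abs_of_nonneg (zpow_nonneg lam_pos.le _)]
    exact mul_le_mul (zpow_le_zpow_right₀ hlam1 hk1) a2 (abs_nonneg _) (zpow_nonneg lam_pos.le _)
  have hD : 1 ≤ lam - lam⁻¹ := by
    rw [lam_inv]
    linarith only [lam_gt]
  have c3 : |(n : ℝ)| ≤ 2 * R := by
    have e : (n : ℝ) * (lam - lam⁻¹) = ((m : ℝ) + n * lam) - (m + n * lam⁻¹) := by ring
    have h1 : |(n : ℝ)| * (lam - lam⁻¹) ≤ 2 * R := by
      rw [← abs_of_pos (show 0 < lam - lam⁻¹ by linarith only [hD]), ← abs_mul, e]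
      refine (abs_sub _ _).trans ?_
      linarith only [c1, c2]
    have h2 : |(n : ℝ)| * 1 ≤ |(n : ℝ)| * (lam - lam⁻¹) :=
      mul_le_mul_of_nonneg_left hD (abs_nonneg _)
    linarith only [h1, h2]
  have c4 : |(m : ℝ)| ≤ R + 2 * R * lam := by
    have e : (m : ℝ) = ((m : ℝ) + n * lam) - n * lam := by ring
    rw [e]
    refine (abs_sub _ _).trans (add_le_add c1 ?_)
    rw [abs_mul, abs_of_pos lam_pos]
    exact mul_le_mul_of_nonneg_right c3 lam_pos.le
  have hlam0 := lam_pos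
  have hRlam : 0 ≤ R * lam := mul_nonneg hRR lam_pos.le
  have hint : ∀ j : ℤ, |(j : ℝ)| ≤ N' → j ∈ Icc (-(N' : ℤ)) N' := by
    intro j hj
    rw [abs_le] at hj
    constructor
    · have := hj.1
      exact_mod_cast this
    · have := hj.2
      exact_mod_cast this
  refine ⟨hint k ?_, hint m ?_, hint n ?_⟩
  · have : (0 : ℝ) ≤ 2 * R + R * 2 * lam + (R + 0) := by nlinarith only [hlam0, hRlam]
    linarith only [hN', hkR, this]
  · have : (0 : ℝ) ≤ N := Nat.cast_nonneg _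
    nlinarith only [hN', c4, hlam0]
  · have : (0 : ℝ) ≤ N := Nat.cast_nonneg _
    nlinarith only [hN', c3, hRlam]

/-- the lattice brings every point of the plane into a box -/
theorem DGroup_plane (u s : ℝ) : ∃ m n : ℤ, 0 ≤ u + (m + n * lam) ∧ u + (m + n * lam) ≤ 1000 ∧
    0 ≤ s + (m + n * lam⁻¹) ∧ s + (m + n * lam⁻¹) ≤ 1 := by
  have hD := DGroup_D_pos
  have hinv : 0 < lam⁻¹ := inv_pos.2 lam_pos
  obtain ⟨n, hn, hmin⟩ := Int.exists_least_of_bdd
    (P := fun z : ℤ => 0 ≤ u + z * lam - ⌊s + z * lam⁻¹⌋)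
    (by
      refine ⟨⌊(s - 1 - u) / (lam - lam⁻¹)⌋, fun z hz => ?_⟩
      have h1 : s + z * lam⁻¹ - 1 < ⌊s + z * lam⁻¹⌋ := Int.sub_one_lt_floor _
      have h2 : (s - 1 - u) / (lam - lam⁻¹) ≤ z := by
        rw [div_le_iff₀ hD]
        nlinarith only [hz, h1]
      have h3 := Int.floor_le ((s - 1 - u) / (lam - lam⁻¹))
      have h4 : ((⌊(s - 1 - u) / (lam - lam⁻¹)⌋ : ℤ) : ℝ) ≤ (z : ℝ) := h3.trans h2
      exact_mod_cast h4)
    (by
      refine ⟨⌈(s - u) / (lam - lam⁻¹)⌉, ?_⟩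
      have h1 := Int.le_ceil ((s - u) / (lam - lam⁻¹))
      rw [div_le_iff₀ hD] at h1
      have h2 := Int.floor_le (s + (⌈(s - u) / (lam - lam⁻¹)⌉ : ℤ) * lam⁻¹)
      nlinarith only [h1, h2])
  refine ⟨-⌊s + n * lam⁻¹⌋, n, ?_, ?_, ?_, ?_⟩
  · push_cast
    linarith only [hn]
  · have h1 : ¬ (0 ≤ u + ((n - 1 : ℤ) : ℝ) * lam - ⌊s + ((n - 1 : ℤ) : ℝ) * lam⁻¹⌋) := by
      intro h
      have := hmin (n - 1) h
      omega
    have h2 : ⌊s + ((n - 1 : ℤ) : ℝ) * lam⁻¹⌋ ≤ ⌊s + n * lam⁻¹⌋ := by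
      refine Int.floor_le_floor ?_
      push_cast
      nlinarith only [hinv]
    have h3 : ((⌊s + ((n - 1 : ℤ) : ℝ) * lam⁻¹⌋ : ℤ) : ℝ) ≤ ((⌊s + n * lam⁻¹⌋ : ℤ) : ℝ) := by
      exact_mod_cast h2
    rw [not_le] at h1
    push_cast at h1 h3 ⊢
    have := lam_lt
    nlinarith only [h1, h3, this]
  · have := Int.floor_le (s + n * lam⁻¹)
    push_cast
    linarith only [this]
  · have := Int.lt_floor_add_one (s + n * lam⁻¹)
    push_cast
    linarith only [this]

theorem act_box (p : P) : ∃ k m n : ℤ,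
    act k m n p ∈ Icc (0 : ℝ) 1000 ×ˢ (Icc (0 : ℝ) 1 ×ˢ Icc (0 : ℝ) 1) := by
  obtain ⟨m, n, h1, h2, h3, h4⟩ := DGroup_plane (lam ^ (- -⌊p.2.2⌋) * p.1) (lam ^ (-⌊p.2.2⌋) * p.2.1)
  refine ⟨-⌊p.2.2⌋, m, n, ⟨h1, h2⟩, ⟨h3, h4⟩, ?_, ?_⟩
  · have := Int.floor_le p.2.2
    simp only [act]
    push_cast
    linarith only [this]
  · have := Int.lt_floor_add_one p.2.2
    simp only [act]
    push_cast
    linarith only [this]

/-- Every point of height in `[-3, 4]` can be translated (by an element of `Λ`, which preserves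
heights) to a compact box. -/
theorem act_slab (p : P) : ∃ m n : ℤ,
    0 ≤ (act 0 m n p).1 ∧ (act 0 m n p).1 ≤ 1000 ∧ 0 ≤ (act 0 m n p).2.1 ∧ (act 0 m n p).2.1 ≤ 1 := by
  obtain ⟨m, n, h1, h2, h3, h4⟩ := DGroup_plane p.1 p.2.1
  refine ⟨m, n, ?_, ?_, ?_, ?_⟩ <;> simp only [act, neg_zero, zpow_zero, one_mul]
  · exact h1
  · exact h2
  · exact h3
  · exact h4

theorem contDiff_act (k m n : ℤ) : ContDiff ℝ ∞ (act k m n) := by
  unfold act
  fun_prop

theorem DGroup_comm_int {F : P → P} (a : ℤ → P → P) (h0 : ∀ p, a 0 p = p)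
    (hadd : ∀ i j p, a (i + j) p = a i (a j p)) (h : ∀ p, F (a 1 p) = a 1 (F p)) (i : ℤ) :
    ∀ p, F (a i p) = a i (F p) := by
  induction i using Int.induction_on with
  | zero =>
    intro p
    rw [h0, h0]
  | succ i ih =>
    intro p
    rw [add_comm, hadd, h, ih, hadd]
  | pred i ih =>
    intro p
    have e1 : a (-(i : ℤ) - 1) p = a (-1) (a (-(i : ℤ)) p) := by
      rw [← hadd]
      congr 1
      ring
    have e2 : a (-(i : ℤ) - 1) (F p) = a (-1) (a (-(i : ℤ)) (F p)) := by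
      rw [← hadd]
      congr 1
      ring
    have e3 : ∀ q, a (-1) (a 1 q) = q := fun q => by
      rw [← hadd]
      simpa using h0 q
    have e4 : ∀ q, a 1 (a (-1) q) = q := fun q => by
      rw [← hadd]
      simpa using h0 q
    rw [e2, ← ih, ← e3 (F (a (-(i : ℤ) - 1) p)), ← h, e1, e4]

/-- A map commuting with the three generators commutes with `Γ`. -/
theorem comm_of_gens {F : P → P} (h1 : ∀ p, F (act 1 0 0 p) = act 1 0 0 (F p))
    (h2 : ∀ p, F (act 0 1 0 p) = act 0 1 0 (F p)) (h3 : ∀ p, F (act 0 0 1 p) = act 0 0 1 (F p))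
    (k m n : ℤ) (p : P) : F (act k m n p) = act k m n (F p) := by
  have h0 := lam_ne_zero
  have g1 := DGroup_comm_int (F := F) (fun i => act i 0 0) act_zero (by
    intro i j p
    unfold act
    refine Prod.ext ?_ (Prod.ext ?_ ?_)
    · simp only
      rw [neg_add, zpow_add₀ h0]
      push_cast
      ring
    · simp only
      rw [zpow_add₀ h0]
      push_cast
      ring
    · simp only
      push_cast
      ring) h1
  have g2 := DGroup_comm_int (F := F) (fun i => act 0 i 0) act_zero (by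
    intro i j p
    unfold act
    refine Prod.ext ?_ (Prod.ext ?_ ?_) <;> simp only [neg_zero, zpow_zero] <;> push_cast <;> ring) h2
  have g3 := DGroup_comm_int (F := F) (fun i => act 0 0 i) act_zero (by
    intro i j p
    unfold act
    refine Prod.ext ?_ (Prod.ext ?_ ?_) <;> simp only [neg_zero, zpow_zero] <;> push_cast <;> ring) h3
  have hdec : ∀ q, act k m n q = act 0 m 0 (act 0 0 n (act k 0 0 q)) := by
    intro q
    unfold act
    refine Prod.ext ?_ (Prod.ext ?_ ?_) <;> simp only [neg_zero, zpow_zero] <;> push_cast <;> ring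
  rw [hdec, hdec, g2, g3, g1]

end

end MPd1f192
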