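import Pool.Agent.W_MP_d1f192_an.Defs

section PartModel

/-!
# MP_d1f192_an: the model space, the group `Γ`, leaf systems (shared by parts B, C, D)

`P = ℝ × ℝ × ℝ` with coordinates `(u, s, r)` (unstable, stable, height). `lam > 1` with
`lam + lam⁻¹ = 1000`. The group `Γ` consists of the affine maps
`act k m n (u,s,r) = (lam^(-k) u + (m + n lam), lam^k s + (m + n lam⁻¹), r + k)`; the
closed 3-manifold is `P / Γ` (the mapping torus of the hyperbolic toral automorphism
`(u,s) ↦ (lam u, lam⁻¹ s)` of `ℝ²/{(m + n lam, m + n lam⁻¹)}`).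
-/

open MeasureTheory Set Filter Topology

namespace MPd1f192

noncomputable section

/-- Points `(u, s, r)`. -/
abbrev P : Type := ℝ × ℝ × ℝ

/-- `lam = 500 + √(500² - 1)`, so that `lam + lam⁻¹ = 1000`. -/
def lam : ℝ := 500 + Real.sqrt 249999

theorem lam_gt : 999.99 < lam := by
  have h : (499.99 : ℝ) < Real.sqrt 249999 := by
    apply Real.lt_sqrt_of_sq_lt
    norm_num
  unfold lam
  linarith

theorem lam_lt : lam < 1000 := by
  have h : Real.sqrt 249999 < (500 : ℝ) := by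
    rw [Real.sqrt_lt' (by norm_num)]
    norm_num
  unfold lam
  linarith

theorem lam_pos : 0 < lam := by linarith [lam_gt]

theorem lam_ne_zero : lam ≠ 0 := lam_pos.ne'

theorem lam_sq : lam ^ 2 = 1000 * lam - 1 := by
  have h : Real.sqrt 249999 ^ 2 = 249999 := Real.sq_sqrt (by norm_num)
  unfold lam
  nlinarith [h]

theorem lam_inv : lam⁻¹ = 1000 - lam := by
  have h := lam_sq
  have h0 := lam_ne_zero
  field_simp
  linarith

/-- The element `(k; m, n)` of `Γ`: translation by `m (1,1) + n (lam, lam⁻¹)` after `D^k`, where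
`D (u,s,r) = (u / lam, lam s, r + 1)`. -/
def act (k m n : ℤ) (p : P) : P :=
  (lam ^ (-k) * p.1 + (m + n * lam), lam ^ k * p.2.1 + (m + n * lam⁻¹), p.2.2 + k)

/-- `close ρ p p'`: `p'` is in the `ρ`-box around `p` in the coordinates scaled at the height of
`p`. -/
def close (ρ : ℝ) (p p' : P) : Prop :=
  lam ^ (p.2.2 : ℝ) * |p.1 - p'.1| ≤ ρ ∧ lam ^ (-p.2.2 : ℝ) * |p.2.1 - p'.2.1| ≤ ρ ∧
    |p.2.2 - p'.2.2| ≤ ρ

/-- A *leaf system*: a family of increasing homeomorphisms `g u s : ℝ → ℝ` of the vertical lines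
over `(u, s)`, commuting with `Γ`, close to `r ↦ r + 1`, with slopes in `[1/3, 2]`, and depending on
`(u, s)` in a Hölder way which dominates the slopes. -/
structure LeafSystem where
  g : ℝ → ℝ → ℝ → ℝ
  C : ℝ
  one_le_C : 1 ≤ C
  cont : Continuous fun p : P => g p.1 p.2.1 p.2.2
  near : ∀ u s r, |g u s r - (r + 1)| ≤ 1 / 10
  lower : ∀ u s r r', r ≤ r' → (1 / 3) * (r' - r) ≤ g u s r' - g u s r
  upper : ∀ u s r r', r ≤ r' → g u s r' - g u s r ≤ 2 * (r' - r)
  per : ∀ (m n : ℤ) u s r, g (u + (m + n * lam)) (s + (m + n * lam⁻¹)) r = g u s r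
  eqv : ∀ u s r, g (lam * u) (lam⁻¹ * s) r = g u s (r + 1) - 1
  hold_s : ∀ u s s' r, |s - s'| ≤ 1 → 0 ≤ r →
    |g u s r - g u s' r| ≤ C * lam ^ (-(r / 2) : ℝ)
  hold_u : ∀ u u' s r, |u - u'| ≤ 1 → r ≤ 0 →
    |g u s r - g u' s r| ≤ C * lam ^ (r / 2 : ℝ)

namespace LeafSystem

variable (L : LeafSystem)

/-- The skew product `(u,s,r) ↦ (u, s, g u s r)`. -/
def fhat (p : P) : P := (p.1, p.2.1, L.g p.1 p.2.1 p.2.2)

/-- Height reached after `m` iterates from height `0` on the leaf over `(u,s)`. -/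
def X (m : ℕ) (u s : ℝ) : ℝ := (L.g u s)^[m] 0

/-- Length growth of the unit unstable segment starting at `(u,s)`. -/
def len (m : ℕ) (u s : ℝ) : ℝ := ∫ t in (0 : ℝ)..1, lam ^ (L.X m (u + t) s : ℝ)

/-- `h` is the exponential growth rate of the leaf system. -/
def IsGrowth (h : ℝ) : Prop :=
  ∃ K : ℝ, 0 < K ∧ ∀ (m : ℕ) (u s : ℝ),
    K⁻¹ * Real.exp (h * m) ≤ L.len m u s ∧ L.len m u s ≤ K * Real.exp (h * m)

end LeafSystem

/-! ### The three main theorems of part B (statements; proofs in the modules of part B) -/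

/-- B-main 1: the growth rate exists (and is positive). -/
def GrowthExists : Prop := ∀ L : LeafSystem, ∃ h : ℝ, 0 < h ∧ L.IsGrowth h

/-- B-main 2: if `g ≤ g'` and `g'` gains arbitrarily much time on `g` along suitable leaf segments,
then the growth rate of `g'` is strictly larger. -/
def GrowthStrict : Prop := ∀ L L' : LeafSystem, (∀ u s r, L.g u s r ≤ L'.g u s r) →
  (∀ K : ℕ, ∃ (u s r₀ : ℝ) (T : ℕ), 0 ≤ r₀ ∧ r₀ ≤ 1 ∧ K ≤ T ∧
    (L.g u s)^[T] r₀ ≤ (L'.g u s)^[T - K] r₀) →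
  ∀ h h' : ℝ, L.IsGrowth h → L'.IsGrowth h' → h < h'

/-- B-main 3: the growth rate is the topological entropy of every quotient system by `Γ`. -/
def GrowthIsEntropy : Prop := ∀ (L : LeafSystem) (h : ℝ), L.IsGrowth h →
  ∀ (M : Type) [TopologicalSpace M] [CompactSpace M] [T2Space M] (π : P → M) (f : M → M),
    Continuous π → Function.Surjective π → Continuous f →
    (∀ p p', π p = π p' ↔ ∃ k m n : ℤ, p' = act k m n p) →
    (∀ p, π (L.fhat p) = f (π p)) → htop f = (h : EReal)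

end

end MPd1f192

end PartModel

section PartInterface

/-!
# MP_d1f192_an: interface between the parts C (dynamics on `P`), D (manifold) and E (bump function)
-/

open MeasureTheory Set Filter Topology
open scoped Manifold ContDiff

namespace MPd1f192

noncomputable section

/-- A smooth `Γ`-invariant small speed function `δ : P → ℝ`. -/
structure Speed (δ : P → ℝ) : Prop where
  smooth : ContDiff ℝ ∞ δ
  inv : ∀ (k m n : ℤ) (p : P), δ (act k m n p) = δ p
  small : ∀ p, |δ p| ≤ 1 / 50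
  lip_r : ∀ u s r r', |δ (u, s, r) - δ (u, s, r')| ≤ (1 / 2) * |r - r'|

/-- Difference between `F` and the model map `F₀ (u,s,r) = (u, s, r + 1 + δ(u,s,r))`. -/
def zeta (δ : P → ℝ) (F : P → P) (p : P) : P := F p - (p.1, p.2.1, p.2.2 + 1 + δ p)

/-- `F` commutes with `Γ` and is `η`-close to the model map `F₀` in the Lipschitz (`C¹`) sense on
heights in `[-3, 4]` (hence everywhere, in the scaled sense, by commutation with `Γ`). -/
structure C1Near (δ : P → ℝ) (η : ℝ) (F : P → P) : Prop where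
  comm : ∀ (k m n : ℤ) (p : P), F (act k m n p) = act k m n (F p)
  sup : ∀ p : P, -3 ≤ p.2.2 → p.2.2 ≤ 4 → ‖zeta δ F p‖ ≤ η
  lip : ∀ p p' : P, -3 ≤ p.2.2 → p.2.2 ≤ 4 → -3 ≤ p'.2.2 → p'.2.2 ≤ 4 →
    ‖zeta δ F p - zeta δ F p'‖ ≤ η * ‖p - p'‖

/-- The vertical translation by `ε` after `F` (lift of `φ_ε ∘ f`). -/
def shiftUp (ε : ℝ) (p : P) : P := (p.1, p.2.1, p.2.2 + ε)

/-- **Main theorem of part D.** There is a closed 3-manifold `M = P / Γ` such that for every speed
function `δ` and `η > 0` there is a non-empty open set `U` of `Diff¹(M)` (a neighbourhood of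
`f₀`) all of whose elements `f` lift to homeomorphisms `F` of `P` that are `η`-near `F₀`, such that
`φ_ε ∘ f` is in `Diff¹(M)` and tends to `f`, and such that every residual set meets `U`. -/
def ManifoldPart : Prop :=
  ∃ (M : Type) (_ : TopologicalSpace M) (_ : ChartedSpace (EuclideanSpace ℝ (Fin 3)) M)
    (_ : IsManifold (𝓡 3) ∞ M) (_ : CompactSpace M) (_ : T2Space M) (_ : ConnectedSpace M)
    (q : P → M), Continuous q ∧ Function.Surjective q ∧
    (∀ p p', q p = q p' ↔ ∃ k m n : ℤ, p' = act k m n p) ∧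
    ∀ δ : P → ℝ, Speed δ → ∀ η : ℝ, 0 < η →
      ∃ U : Set (Diff1 3 M), IsOpen U ∧ U.Nonempty ∧
        (∀ f ∈ U, (∃ F : P ≃ₜ P, (∀ p, q (F p) = f (q p)) ∧ C1Near δ η F ∧
          ∃ fe : ℝ → Diff1 3 M, Tendsto fe (𝓝 0) (𝓝 f) ∧
            ∀ ε p, fe ε (q p) = q (shiftUp ε (F p)))) ∧
        (∀ R ∈ residual (Diff1 3 M), (R ∩ U).Nonempty)

/-! ### Part C -/

/-- `H` conjugates `F` to the leaf system `L`. -/
structure Conj (F : P → P) (L : LeafSystem) (H : P ≃ₜ P) : Prop where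
  comm : ∀ (k m n : ℤ) (p : P), H (act k m n p) = act k m n (H p)
  height : ∀ p, (H p).2.2 = p.2.2
  conj : ∀ p, H (F p) = L.fhat (H p)

end

end MPd1f192

end PartInterface
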