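import Pool.Agent.W_MP_d1f192_an.Defs
import Pool.Agent.W_MP_d1f192_an.Model

section PartDCover

/-!
# Part D, module D1: manifolds covered by `ℝⁿ`

`SmoothCover π`: `π : ℝⁿ → M` is a surjective local homeomorphism and any two points of a fibre are
exchanged by a smooth deck map. Then `M` is a smooth manifold and `π` is a local diffeomorphism.
-/

open Set Filter Topology
open scoped Manifold ContDiff

set_option linter.style.haveILetI false

namespace MPd1f192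

noncomputable section

/-- Model space. -/
abbrev Eu (n : ℕ) : Type := EuclideanSpace ℝ (Fin n)

/-- `π` is a surjective local homeomorphism with smooth deck maps acting transitively on fibres. -/
structure SmoothCover {n : ℕ} {M : Type*} [TopologicalSpace M] (π : Eu n → M) : Prop where
  locHomeo : IsLocalHomeomorph π
  surj : Function.Surjective π
  deck : ∀ x y, π x = π y → ∃ γ : Eu n → Eu n, ContDiff ℝ ∞ γ ∧ (∀ z, π (γ z) = π z) ∧ γ x = y

namespace SmoothCover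

variable {n : ℕ} {M : Type*} [TopologicalSpace M] {π : Eu n → M}

/-- The charted space structure. -/
@[reducible]
def charted (h : SmoothCover π) : ChartedSpace (Eu n) M :=
  h.locHomeo.chartedSpace h.surj

/-- Two local inverses of `π` differ locally by a deck map. -/
theorem eventually_deck (h : SmoothCover π) {p x y : Eu n}
    (hy : y ∈ (h.locHomeo.localInverseAt p).target)
    (hxy : π x = π y) : ∃ γ : Eu n → Eu n, ContDiff ℝ ∞ γ ∧ (∀ z, π (γ z) = π z) ∧ γ x = y ∧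
      ∀ᶠ z in 𝓝 x, h.locHomeo.localInverseAt p (π z) = γ z := by
  obtain ⟨γ, hγ, hπγ, hγx⟩ := h.deck x y hxy
  refine ⟨γ, hγ, hπγ, hγx, ?_⟩
  have h1 : ∀ᶠ z in 𝓝 x, γ z ∈ (h.locHomeo.localInverseAt p).target := by
    apply hγ.continuous.continuousAt.eventually_mem
    rw [hγx]
    exact (h.locHomeo.localInverseAt p).open_target.mem_nhds hy
  filter_upwards [h1] with z hz
  rw [← hπγ z]
  have := (h.locHomeo.localInverseAt p).right_inv hz
  simpa using this

theorem mem_atlas (h : SmoothCover π) {e : OpenPartialHomeomorph M (Eu n)}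
    (he : e ∈ h.charted.atlas) : ∃ p, e = h.locHomeo.localInverseAt p := by
  obtain ⟨q, rfl⟩ := he
  refine ⟨h.surj.hasRightInverse.choose q, ?_⟩
  rw [chartAt_self_eq, OpenPartialHomeomorph.trans_refl]

/-- Changes of local inverses are smooth. -/
theorem contDiffOn_trans (h : SmoothCover π) (p q : Eu n) :
    ContDiffOn ℝ ∞ ((h.locHomeo.localInverseAt p).symm ≫ₕ h.locHomeo.localInverseAt q)
      ((h.locHomeo.localInverseAt p).symm ≫ₕ h.locHomeo.localInverseAt q).source := by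
  intro x hx
  rw [OpenPartialHomeomorph.trans_source] at hx
  simp only [OpenPartialHomeomorph.symm_source, IsLocalHomeomorph.localInverseAt_symm,
    mem_inter_iff, mem_preimage] at hx
  obtain ⟨hx1, hx2⟩ := hx
  have hy := (h.locHomeo.localInverseAt q).map_source hx2
  have hxy : π x = π (h.locHomeo.localInverseAt q (π x)) :=
    (h.locHomeo.apply_localInverseAt_of_mem hx2).symm
  obtain ⟨γ, hγ, -, -, hev⟩ := h.eventually_deck hy hxy
  apply ContDiffAt.contDiffWithinAt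
  refine (hγ.contDiffAt).congr_of_eventuallyEq ?_
  filter_upwards [hev] with z hz
  simpa using hz

theorem trans_mem_groupoid (h : SmoothCover π) (p q : Eu n) :
    (h.locHomeo.localInverseAt p).symm ≫ₕ h.locHomeo.localInverseAt q ∈
      contDiffGroupoid ∞ (𝓡 n) := by
  rw [contDiffGroupoid, mem_groupoid_of_pregroupoid]
  constructor
  · simpa [contDiffPregroupoid] using h.contDiffOn_trans p q
  · rw [OpenPartialHomeomorph.trans_symm_eq_symm_trans_symm, OpenPartialHomeomorph.symm_symm]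
    simpa [contDiffPregroupoid] using h.contDiffOn_trans q p

theorem isManifold (h : SmoothCover π) :
    @IsManifold ℝ _ (Eu n) _ _ (Eu n) _ (𝓡 n) ∞ M _ h.charted := by
  letI := h.charted
  refine @IsManifold.mk ℝ _ (Eu n) _ _ (Eu n) _ (𝓡 n) ∞ M _ h.charted ⟨?_⟩
  intro e e' he he'
  obtain ⟨p, rfl⟩ := h.mem_atlas he
  obtain ⟨q, rfl⟩ := h.mem_atlas he'
  exact h.trans_mem_groupoid p q

theorem mem_maximalAtlas (h : SmoothCover π) (x : Eu n) :
    h.locHomeo.localInverseAt x ∈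
      @IsManifold.maximalAtlas ℝ _ (Eu n) _ _ (Eu n) _ (𝓡 n) ∞ M _ h.charted := by
  letI := h.charted
  intro e' he'
  obtain ⟨p, rfl⟩ := h.mem_atlas he'
  exact ⟨h.trans_mem_groupoid x p, h.trans_mem_groupoid p x⟩

/-- `π` is a local diffeomorphism for the pushed-forward structure. -/
theorem isLocalDiffeomorph (h : SmoothCover π) :
    @IsLocalDiffeomorph ℝ _ (Eu n) _ _ (Eu n) _ _ (Eu n) _ (Eu n) _ (𝓡 n) (𝓡 n) (Eu n) _ _
      M _ h.charted ∞ π := by
  letI := h.charted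
  haveI := h.isManifold
  intro x
  have hm := h.mem_maximalAtlas x
  refine ⟨⟨(h.locHomeo.localInverseAt x).symm.toPartialEquiv,
    (h.locHomeo.localInverseAt x).open_target, (h.locHomeo.localInverseAt x).open_source,
    ?_, ?_⟩, h.locHomeo.self_mem_localInverseAt_target, ?_⟩
  · exact contMDiffOn_symm_of_mem_maximalAtlas hm
  · exact contMDiffOn_of_mem_maximalAtlas hm
  · intro z hz
    change π z = (h.locHomeo.localInverseAt x).symm z
    simp

end SmoothCover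

end

end MPd1f192

end PartDCover

section PartDTan

/-!
# Part D, module D2: the tangent map of the covering

`tp pr : ℝⁿ × ℝⁿ → TM` is the tangent map of `pr : ℝⁿ → M`. It is a surjective local homeomorphism.
Lifts to `ℝⁿ` of `C¹` maps of `M` are `C¹` and conversely, and `Tf ∘ tp = tp ∘ TF`.
-/

set_option linter.style.haveILetI false
set_option linter.unusedSectionVars false

open Set Filter Topology
open scoped Manifold ContDiff

namespace MPd1f192

noncomputable section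

variable {n : ℕ} {M : Type*} [TopologicalSpace M] [ChartedSpace (Eu n) M]

/-- The tangent map of `pr : ℝⁿ → M`, with `T ℝⁿ = ℝⁿ × ℝⁿ`. -/
def tp (pr : Eu n → M) : Eu n × Eu n → TangentBundle (𝓡 n) M :=
  fun p => tangentMap (𝓡 n) (𝓡 n) pr ⟨p.1, p.2⟩

theorem tp_proj (pr : Eu n → M) (p : Eu n × Eu n) : (tp pr p).proj = pr p.1 := rfl

theorem tp_eq_comp (pr : Eu n → M) :
    tp pr = tangentMap (𝓡 n) (𝓡 n) pr ∘ (tangentBundleModelSpaceHomeomorph (𝓡 n)).symm := by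
  funext p
  rfl

variable [IsManifold (𝓡 n) ∞ M] {pr : Eu n → M}

theorem continuous_tp (hpr : IsLocalDiffeomorph (𝓡 n) (𝓡 n) ∞ pr) : Continuous (tp pr) := by
  haveI : IsManifold (𝓡 n) 1 M := IsManifold.of_le (n := ∞) (by exact_mod_cast le_top)
  rw [tp_eq_comp]
  exact (hpr.contMDiff.continuous_tangentMap (by exact_mod_cast le_top)).comp
    (tangentBundleModelSpaceHomeomorph (𝓡 n)).symm.continuous

omit [IsManifold (𝓡 n) ∞ M] in
/-- Local inverses of `pr`, with derivatives. -/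
theorem exists_localInv (hpr : IsLocalDiffeomorph (𝓡 n) (𝓡 n) ∞ pr) (x : Eu n) :
    ∃ (Ψ : M → Eu n) (U : Set (Eu n)) (V : Set M), IsOpen U ∧ IsOpen V ∧ x ∈ U ∧
      MapsTo pr U V ∧ MapsTo Ψ V U ∧ (∀ y ∈ U, Ψ (pr y) = y) ∧ (∀ q ∈ V, pr (Ψ q) = q) ∧
      ContMDiffOn (𝓡 n) (𝓡 n) ∞ Ψ V ∧
      (∀ y ∈ U, ∀ w : Eu n, mfderiv (𝓡 n) (𝓡 n) Ψ (pr y) (mfderiv (𝓡 n) (𝓡 n) pr y w) = w) ∧
      (∀ q ∈ V, ∀ w : TangentSpace (𝓡 n) q,
        mfderiv (𝓡 n) (𝓡 n) pr (Ψ q) (mfderiv (𝓡 n) (𝓡 n) Ψ q w) = w) := by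
  obtain ⟨Φ, hx, hΦ⟩ := hpr x
  have hdpr : ∀ y ∈ Φ.source, MDifferentiableAt (𝓡 n) (𝓡 n) pr y := fun y _ =>
    hpr.mdifferentiable (by simp) y
  have hdΨ : ∀ q ∈ Φ.target, MDifferentiableAt (𝓡 n) (𝓡 n) Φ.invFun q := fun q hq =>
    (Φ.contMDiffOn_invFun.contMDiffAt (Φ.open_target.mem_nhds hq)).mdifferentiableAt (by simp)
  have hprU : ∀ y ∈ Φ.source, pr y = Φ y := fun y hy => hΦ hy
  have hmaps : ∀ y ∈ Φ.source, pr y ∈ Φ.target := fun y hy => by
    rw [hprU y hy]; exact Φ.map_source hy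
  have hleft : ∀ y ∈ Φ.source, Φ.invFun (pr y) = y := fun y hy => by
    rw [hprU y hy]; exact Φ.left_inv hy
  have hright : ∀ q ∈ Φ.target, pr (Φ.invFun q) = q := fun q hq =>
    (hprU _ (Φ.map_target hq)).trans (Φ.right_inv hq)
  refine ⟨Φ.invFun, Φ.source, Φ.target, Φ.open_source, Φ.open_target, hx, hmaps,
    fun q hq => Φ.map_target hq, hleft, hright, Φ.contMDiffOn_invFun, ?_, ?_⟩
  · intro y hy w
    have h1 : mfderiv (𝓡 n) (𝓡 n) (Φ.invFun ∘ pr) y = (mfderiv (𝓡 n) (𝓡 n) Φ.invFun (pr y)).comp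
      (mfderiv (𝓡 n) (𝓡 n) pr y) := mfderiv_comp y (hdΨ _ (hmaps y hy)) (hdpr y hy)
    have h2 : Φ.invFun ∘ pr =ᶠ[𝓝 y] id := by
      filter_upwards [Φ.open_source.mem_nhds hy] with z hz using hleft z hz
    rw [h2.mfderiv_eq, mfderiv_id] at h1
    have := congrArg (fun L => L w) h1
    exact this.symm
  · intro q hq w
    have h1 : mfderiv (𝓡 n) (𝓡 n) (pr ∘ Φ.invFun) q = (mfderiv (𝓡 n) (𝓡 n) pr (Φ.invFun q)).comp
      (mfderiv (𝓡 n) (𝓡 n) Φ.invFun q) := mfderiv_comp q (hdpr _ (Φ.map_target hq)) (hdΨ q hq)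
    have h2 : pr ∘ Φ.invFun =ᶠ[𝓝 q] id := by
      filter_upwards [Φ.open_target.mem_nhds hq] with z hz using hright z hz
    rw [h2.mfderiv_eq, mfderiv_id] at h1
    have := congrArg (fun L => L w) h1
    exact this.symm

theorem isLocalHomeomorph_tp (hpr : IsLocalDiffeomorph (𝓡 n) (𝓡 n) ∞ pr) :
    IsLocalHomeomorph (tp pr) := by
  haveI : IsManifold (𝓡 n) 1 M := IsManifold.of_le (n := ∞) (by exact_mod_cast le_top)
  apply IsLocalHomeomorph.mk
  rintro ⟨x, v⟩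
  obtain ⟨Ψ, U, V, hU, hV, hx, hmaps, hmaps', hleft, hright, hΨ, hdleft, hdright⟩ :=
    exists_localInv hpr x
  have hdΨ : ∀ q ∈ V, MDifferentiableAt (𝓡 n) (𝓡 n) Ψ q := fun q hq =>
    (hΨ.contMDiffAt (hV.mem_nhds hq)).mdifferentiableAt (by simp)
  have hcont : ContinuousOn (fun w : TangentBundle (𝓡 n) M =>
      ((Ψ w.proj, (mfderiv (𝓡 n) (𝓡 n) Ψ w.proj w.2 : Eu n)) : Eu n × Eu n))
      (Bundle.TotalSpace.proj ⁻¹' V) := by
    have h1 := hΨ.continuousOn_tangentMapWithin (by exact_mod_cast le_top) hV.uniqueMDiffOn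
    have h2 := (tangentBundleModelSpaceHomeomorph (𝓡 n)).continuous.comp_continuousOn h1
    refine h2.congr ?_
    rintro ⟨q, w⟩ hq
    have h3 : tangentMapWithin (𝓡 n) (𝓡 n) Ψ V (⟨q, w⟩ : TangentBundle (𝓡 n) M) =
        tangentMap (𝓡 n) (𝓡 n) Ψ (⟨q, w⟩ : TangentBundle (𝓡 n) M) :=
      tangentMapWithin_eq_tangentMap (hV.uniqueMDiffOn q hq) (hdΨ q hq)
    rw [Function.comp_apply, h3]
    rfl
  refine ⟨{ toFun := tp pr
            invFun := fun w => (Ψ w.proj, (mfderiv (𝓡 n) (𝓡 n) Ψ w.proj w.2 : Eu n))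
            source := U ×ˢ univ
            target := Bundle.TotalSpace.proj ⁻¹' V
            map_source' := ?_
            map_target' := ?_
            left_inv' := ?_
            right_inv' := ?_
            open_source := hU.prod isOpen_univ
            open_target := hV.preimage (FiberBundle.continuous_proj _ _)
            continuousOn_toFun := (continuous_tp hpr).continuousOn
            continuousOn_invFun := hcont }, ⟨hx, mem_univ _⟩, fun _ _ => rfl⟩
  · rintro ⟨y, w⟩ ⟨hy, -⟩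
    exact hmaps hy
  · rintro ⟨q, w⟩ hq
    exact ⟨hmaps' hq, mem_univ _⟩
  · rintro ⟨y, w⟩ ⟨hy, -⟩
    exact Prod.ext (hleft y hy) (hdleft y hy w)
  · rintro ⟨q, w⟩ hq
    have h1 := hright q hq
    have h2 := hdright q hq w
    change (⟨pr (Ψ q), mfderiv (𝓡 n) (𝓡 n) pr (Ψ q)
      (mfderiv (𝓡 n) (𝓡 n) Ψ q w)⟩ : TangentBundle (𝓡 n) M) = ⟨q, w⟩
    rw [h2]
    congr 1

/-- The tangent map of `pr` is injective on each fibre. -/
theorem tp_injective_fiber (hpr : IsLocalDiffeomorph (𝓡 n) (𝓡 n) ∞ pr) {x v w : Eu n}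
    (h : tp pr (x, v) = tp pr (x, w)) : v = w := by
  obtain ⟨Ψ, U, V, hU, hV, hx, hmaps, hmaps', hleft, hright, hΨ, hdleft, hdright⟩ :=
    exists_localInv hpr x
  have h1 : mfderiv (𝓡 n) (𝓡 n) pr x v = mfderiv (𝓡 n) (𝓡 n) pr x w := by
    have h2 : (⟨pr x, mfderiv (𝓡 n) (𝓡 n) pr x v⟩ : TangentBundle (𝓡 n) M) =
      ⟨pr x, mfderiv (𝓡 n) (𝓡 n) pr x w⟩ := h
    simpa using h2
  rw [← hdleft x hx v, h1, hdleft x hx w]

theorem tp_surjective (hpr : IsLocalDiffeomorph (𝓡 n) (𝓡 n) ∞ pr) (hs : Function.Surjective pr) :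
    Function.Surjective (tp pr) := by
  rintro ⟨q, w⟩
  obtain ⟨x, hxq⟩ := hs q
  obtain ⟨Ψ, U, V, hU, hV, hx, hmaps, hmaps', hleft, hright, hΨ, hdleft, hdright⟩ :=
    exists_localInv hpr x
  have hq : q ∈ V := hxq ▸ hmaps hx
  refine ⟨(Ψ q, mfderiv (𝓡 n) (𝓡 n) Ψ q w), ?_⟩
  have h1 := hright q hq
  have h2 := hdright q hq w
  change (⟨pr (Ψ q), mfderiv (𝓡 n) (𝓡 n) pr (Ψ q)
      (mfderiv (𝓡 n) (𝓡 n) Ψ q w)⟩ : TangentBundle (𝓡 n) M) = ⟨q, w⟩
  rw [h2]
  congr 1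

/-- A continuous lift of a `C¹` map is `C¹`. -/
theorem contDiff_lift (hpr : IsLocalDiffeomorph (𝓡 n) (𝓡 n) ∞ pr) {f : M → M}
    (hf : ContMDiff (𝓡 n) (𝓡 n) 1 f) {F : Eu n → Eu n} (hF : Continuous F)
    (hcomm : ∀ x, pr (F x) = f (pr x)) : ContDiff ℝ 1 F := by
  rw [contDiff_iff_contDiffAt]
  intro x
  obtain ⟨Ψ, U, V, hU, hV, hx, hmaps, hmaps', hleft, hright, hΨ, hdleft, hdright⟩ :=
    exists_localInv hpr (F x)
  rw [← contMDiffAt_iff_contDiffAt]
  have h1 : F =ᶠ[𝓝 x] fun y => Ψ (f (pr y)) := by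
    filter_upwards [hF.continuousAt.eventually_mem (hU.mem_nhds hx)] with y hy
    rw [← hcomm y, hleft _ hy]
  refine ContMDiffAt.congr_of_eventuallyEq ?_ h1
  have h2 : ContMDiffAt (𝓡 n) (𝓡 n) 1 Ψ (f (pr x)) := by
    rw [← hcomm]
    exact (hΨ.contMDiffAt (hV.mem_nhds (hmaps hx))).of_le (by exact_mod_cast le_top)
  have h3 : ContMDiffAt (𝓡 n) (𝓡 n) 1 (fun y => f (pr y)) x :=
    (hf _).comp x ((hpr.contMDiff x).of_le (by exact_mod_cast le_top))
  exact h2.comp x h3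

/-- A map with a `C¹` lift is `C¹`. -/
theorem contMDiff_of_lift (hpr : IsLocalDiffeomorph (𝓡 n) (𝓡 n) ∞ pr)
    (hs : Function.Surjective pr) {f : M → M} {F : Eu n → Eu n} (hF : ContDiff ℝ 1 F)
    (hcomm : ∀ x, pr (F x) = f (pr x)) : ContMDiff (𝓡 n) (𝓡 n) 1 f := by
  intro q
  obtain ⟨x, rfl⟩ := hs q
  obtain ⟨Ψ, U, V, hU, hV, hx, hmaps, hmaps', hleft, hright, hΨ, hdleft, hdright⟩ :=
    exists_localInv hpr x
  have h1 : f =ᶠ[𝓝 (pr x)] fun q => pr (F (Ψ q)) := by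
    filter_upwards [hV.mem_nhds (hmaps hx)] with q hq
    rw [hcomm, hright _ hq]
  refine ContMDiffAt.congr_of_eventuallyEq ?_ h1
  have h2 : ContMDiffAt (𝓡 n) (𝓡 n) 1 Ψ (pr x) :=
    (hΨ.contMDiffAt (hV.mem_nhds (hmaps hx))).of_le (by exact_mod_cast le_top)
  have h3 : ContMDiffAt (𝓡 n) (𝓡 n) 1 (fun y => pr (F y)) (Ψ (pr x)) :=
    ((hpr.contMDiff _).of_le (by exact_mod_cast le_top)).comp _ hF.contMDiff.contMDiffAt
  exact h3.comp _ h2

/-- The tangent map and the derivative of the lift. -/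
theorem tangentMap_tp (hpr : IsLocalDiffeomorph (𝓡 n) (𝓡 n) ∞ pr) {f : M → M}
    (hf : ContMDiff (𝓡 n) (𝓡 n) 1 f) {F : Eu n → Eu n} (hF : ContDiff ℝ 1 F)
    (hcomm : ∀ x, pr (F x) = f (pr x)) (p : Eu n × Eu n) :
    tangentMap (𝓡 n) (𝓡 n) f (tp pr p) = tp pr (F p.1, fderiv ℝ F p.1 p.2) := by
  have h1 : f ∘ pr = pr ∘ F := by
    funext x; exact (hcomm x).symm
  have h2 : tangentMap (𝓡 n) (𝓡 n) (f ∘ pr) = tangentMap (𝓡 n) (𝓡 n) f ∘
      tangentMap (𝓡 n) (𝓡 n) pr :=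
    tangentMap_comp (hf.mdifferentiable (by simp)) (hpr.mdifferentiable (by simp))
  have h3 : tangentMap (𝓡 n) (𝓡 n) (pr ∘ F) = tangentMap (𝓡 n) (𝓡 n) pr ∘
      tangentMap (𝓡 n) (𝓡 n) F :=
    tangentMap_comp (hpr.mdifferentiable (by simp))
      ((hF.differentiable (by simp)).mdifferentiable)
  rw [h1, h3] at h2
  have h4 := congrFun h2 ⟨p.1, p.2⟩
  simp only [Function.comp_apply] at h4
  change _ = tangentMap (𝓡 n) (𝓡 n) f (tp pr p) at h4
  rw [← h4]
  unfold tp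
  congr 1
  unfold tangentMap
  rw [mfderiv_eq_fderiv]
  rfl

end

end MPd1f192

end PartDTan

section PartDSetup

/-!
# Part D: set-up (covering data, the space of lifts)
-/

open Set Filter Topology
open scoped Manifold ContDiff

namespace MPd1f192

noncomputable section

/-- Covering data: `pr : ℝⁿ → M` is a smooth covering, `S` is a finite set of deck maps such that a
map commuting with `S` descends to `M`. -/
structure Deck {n : ℕ} {M : Type*} [TopologicalSpace M] [ChartedSpace (Eu n) M]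
    (pr : Eu n → M) (S : Set (Eu n → Eu n)) : Prop where
  diffeo : IsLocalDiffeomorph (𝓡 n) (𝓡 n) ∞ pr
  cover : IsCoveringMap pr
  surj : Function.Surjective pr
  finite : S.Finite
  cont : ∀ γ ∈ S, Continuous γ
  inv : ∀ γ ∈ S, ∀ x, pr (γ x) = pr x
  comm : ∀ F : Eu n → Eu n, (∀ γ ∈ S, ∀ x, F (γ x) = γ (F x)) →
    ∀ x y, pr x = pr y → pr (F x) = pr (F y)

/-- Quadruples `(F, DF, F⁻¹, DF⁻¹)` (compact-open topologies); a complete uniform space with
countably generated uniformity. -/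
abbrev Quad (n : ℕ) : Type :=
  C(Eu n, Eu n) × C(Eu n, Eu n →L[ℝ] Eu n) × C(Eu n, Eu n) × C(Eu n, Eu n →L[ℝ] Eu n)

/-- `C¹` diffeomorphisms of `ℝⁿ` commuting with the maps in `S`, with their derivatives. -/
def LiftSet {n : ℕ} (S : Set (Eu n → Eu n)) : Set (Quad n) :=
  {z | (∀ x, HasFDerivAt z.1 (z.2.1 x) x) ∧ (∀ x, HasFDerivAt z.2.2.1 (z.2.2.2 x) x) ∧
    (∀ x, z.1 (z.2.2.1 x) = x) ∧ (∀ x, z.2.2.1 (z.1 x) = x) ∧
    ∀ γ ∈ S, ∀ x, z.1 (γ x) = γ (z.1 x)}

/-- `z` lifts `f`. -/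
def IsLift {n : ℕ} {M : Type*} [TopologicalSpace M] [ChartedSpace (Eu n) M]
    (pr : Eu n → M) (z : Quad n) (f : Diff1 n M) : Prop :=
  ∀ x, pr (z.1 x) = f (pr x)

/-- A linear identification of the model space with `P`. -/
def eP : Eu 3 ≃L[ℝ] P :=
  ContinuousLinearEquiv.ofFinrankEq (by simp)

/-- The map of `ℝ³` corresponding to a map of `P`. -/
def conjE (F : P → P) : Eu 3 → Eu 3 := fun x => eP.symm (F (eP x))

/-- Generators of `Γ` acting on `ℝ³`. -/
def gens : Set (Eu 3 → Eu 3) := {conjE (act 1 0 0), conjE (act 0 1 0), conjE (act 0 0 1)}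

end

end MPd1f192

end PartDSetup
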