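import Mathlib

/-!
# MP_d1f192_an, Q2: definitions used in the final statement

Metric (Kolmogorov–Sinai) entropy, topological entropy, the `C¹` topology on `Diff¹(M)`,
entropy-conjugacy and entropic `C¹`-stability.
-/

open MeasureTheory Set Filter Topology
open scoped Manifold ContDiff

namespace MPd1f192

noncomputable section

/-! ### Metric entropy -/

/-- Shannon entropy `∑ -p log p` of the finite partition of `X` into the sets `{ξ = i}`. -/
def partEntropy {X ι : Type*} [MeasurableSpace X] [Fintype ι] (μ : Measure X) (ξ : X → ι) : ℝ :=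
  ∑ i, Real.negMulLog (μ.real (ξ ⁻¹' {i}))

/-- The `n`-itinerary map `x ↦ (ξ x, ξ (f x), …, ξ (f^[n-1] x))`, i.e. the partition
`ξ ∨ f⁻¹ξ ∨ … ∨ f^{-(n-1)}ξ`. -/
def itin {X ι : Type*} (f : X → X) (ξ : X → ι) (n : ℕ) : X → (Fin n → ι) :=
  fun x j => ξ (f^[(j : ℕ)] x)

/-- Entropy of `f` relative to the partition `ξ`:
`lim H(ξ ∨ … ∨ f^{-(n-1)}ξ)/n = inf_n H(ξ ∨ … ∨ f^{-(n-1)}ξ)/n`. -/
def entropyOf {X ι : Type*} [MeasurableSpace X] [Fintype ι] (μ : Measure X) (f : X → X)
    (ξ : X → ι) : ℝ :=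
  ⨅ n : ℕ, partEntropy μ (itin f ξ (n + 1)) / ((n : ℝ) + 1)

/-- Kolmogorov–Sinai entropy `h_μ(f)`: supremum over all finite measurable partitions. -/
def metricEntropy {X : Type*} [MeasurableSpace X] (μ : Measure X) (f : X → X) : EReal :=
  ⨆ (k : ℕ) (ξ : X → Fin k) (_ : Measurable ξ), (entropyOf μ f ξ : EReal)

/-- Topological entropy of a self-map of a compact Hausdorff space (Bowen–Dinaburg definition of
Mathlib, with the unique compatible uniform structure). -/
def htop {X : Type*} [TopologicalSpace X] [CompactSpace X] [T2Space X] (f : X → X) : EReal :=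
  @Dynamics.coverEntropy X uniformSpaceOfCompactR1 f univ

/-- `h̃(f, S) = sup { h_ν(f) : ν an f-invariant Borel probability measure with ν(S) = 1 }`. -/
def htilde {X : Type*} [MeasurableSpace X] (f : X → X) (S : Set X) : EReal :=
  sSup {h : EReal | ∃ ν : Measure X, IsProbabilityMeasure ν ∧ MeasurePreserving f ν ν ∧ ν S = 1 ∧
    h = metricEntropy ν f}

/-- `g` is entropy-conjugate to `f`: there are Borel sets `A` (`= M'`), `B` (`= M''`) and a Borel
isomorphism `ψ : A → B` with `ψ ∘ g = f ∘ ψ` on `A`, `h̃(f, M ∖ B) < h_top(f)` and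
`h̃(g, M ∖ A) < h_top(g)`. -/
def EntropyConjugate {X : Type*} [TopologicalSpace X] [CompactSpace X] [T2Space X]
    [MeasurableSpace X] [BorelSpace X] (g f : X → X) : Prop :=
  ∃ A B : Set X, MeasurableSet A ∧ MeasurableSet B ∧
    (∃ ψ : A ≃ᵐ B, ∀ x : A, ∃ h : g x ∈ A, (ψ ⟨g x, h⟩ : X) = f (ψ x)) ∧
    htilde f Bᶜ < htop f ∧ htilde g Aᶜ < htop g

/-! ### `Diff¹(M)` -/

/-- `Diff¹(M)` for a manifold modelled on `ℝⁿ`. -/
abbrev Diff1 (n : ℕ) (M : Type*) [TopologicalSpace M] [ChartedSpace (EuclideanSpace ℝ (Fin n)) M] :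
    Type _ :=
  Diffeomorph (𝓡 n) (𝓡 n) M M 1

variable {n : ℕ} {M : Type*} [TopologicalSpace M] [ChartedSpace (EuclideanSpace ℝ (Fin n)) M]
  [IsManifold (𝓡 n) ∞ M]

/-- The tangent map `Tf : TM → TM` of a `C¹` diffeomorphism, as a continuous map. -/
def tangentC (f : Diff1 n M) : C(TangentBundle (𝓡 n) M, TangentBundle (𝓡 n) M) where
  toFun := tangentMap (𝓡 n) (𝓡 n) f
  continuous_toFun := by
    haveI : IsManifold (𝓡 n) 1 M := IsManifold.of_le (n := ∞) (by exact_mod_cast le_top)
    exact f.contMDiff_toFun.continuous_tangentMap le_rfl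

/-- The `C¹` topology on `Diff¹(M)`: the coarsest topology making `f ↦ Tf` continuous into the
space of continuous maps `TM → TM` with the compact-open topology (i.e. `f_n → f` iff `f_n → f` and
`Df_n → Df` uniformly on compact sets). -/
instance instTopDiff1 : TopologicalSpace (Diff1 n M) :=
  TopologicalSpace.induced tangentC inferInstance

/-- Entropic `C¹`-stability. -/
def EntropicallyStable [CompactSpace M] [T2Space M] [MeasurableSpace M] [BorelSpace M]
    (f : Diff1 n M) : Prop :=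
  ∀ᶠ g : Diff1 n M in 𝓝 f, EntropyConjugate (g : M → M) (f : M → M)

end

end MPd1f192
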