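import Pool.Agent.W_MP_d1f192_an.C9
import Pool.Agent.W_MP_d1f192_an.DGroup

section PartE1

/-! # E1. the profiles of the blender -/

open MeasureTheory Set Filter Topology
open scoped ContDiff

namespace MPd1f192

noncomputable section

/-- Smooth profiles, equal to `a` outside `(1/10, 9/10)`. -/
structure SmoothProfiles (a : ℝ) (d : Fin 3 → ℝ → ℝ) : Prop where
  prof : Profiles a d
  smooth : ∀ i, ContDiff ℝ ∞ (d i)
  left : ∀ i r, r ≤ 1 / 10 → d i r = a
  right : ∀ i r, 9 / 10 ≤ r → d i r = a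
  small : ∀ i r, |d i r| ≤ 1 / 50
  lip' : ∀ i r r', |d i r - d i r'| ≤ (1 / 2) * |r - r'|

/-- The bump function of the profiles. -/
def E1chi : ContDiffBump (1 / 2 : ℝ) where
  rIn := 3 / 20
  rOut := 2 / 5
  rIn_pos := by norm_num
  rIn_lt_rOut := by norm_num

/-- The affine functions of the profiles. -/
def E1ell : Fin 3 → ℝ → ℝ :=
  ![fun r => -(1 / 2) - 5 * (r - 1 / 2), fun r => 1 / 2 - 5 * (r - 1 / 2),
    fun r => 5 * (r - 1 / 2)]

/-- The perturbation. -/
def E1g (i : Fin 3) (r : ℝ) : ℝ := E1chi r * (E1ell i r - 1)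

theorem E1ell_smooth (i : Fin 3) : ContDiff ℝ ∞ (E1ell i) := by
  fin_cases i
  · change ContDiff ℝ ∞ (fun r : ℝ => -(1 / 2) - 5 * (r - 1 / 2))
    fun_prop
  · change ContDiff ℝ ∞ (fun r : ℝ => 1 / 2 - 5 * (r - 1 / 2))
    fun_prop
  · change ContDiff ℝ ∞ (fun r : ℝ => 5 * (r - 1 / 2))
    fun_prop

theorem E1g_smooth (i : Fin 3) : ContDiff ℝ ∞ (E1g i) :=
  (E1chi.contDiff (n := ⊤)).mul ((E1ell_smooth i).sub contDiff_const)

theorem E1g_supp (i : Fin 3) : HasCompactSupport (E1g i) :=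
  E1chi.hasCompactSupport.mul_right

theorem E1g_lip (i : Fin 3) : ∃ L : ℝ, 0 ≤ L ∧ ∀ r r', |E1g i r - E1g i r'| ≤ L * |r - r'| := by
  obtain ⟨C, hC⟩ := (E1g_smooth i).lipschitzWith_of_hasCompactSupport (E1g_supp i) (by simp)
  refine ⟨C, C.2, fun r r' => ?_⟩
  have := hC.dist_le_mul r r'
  simpa [Real.dist_eq] using this

theorem E1chi_one {r : ℝ} (h1 : 7 / 20 ≤ r) (h2 : r ≤ 13 / 20) : E1chi r = 1 := by
  apply E1chi.one_of_mem_closedBall
  rw [Metric.mem_closedBall, Real.dist_eq, abs_le]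
  change -(3 / 20 : ℝ) ≤ _ ∧ _ ≤ (3 / 20 : ℝ)
  constructor <;> linarith only [h1, h2]

theorem E1chi_left {r : ℝ} (h1 : r ≤ 1 / 10) : E1chi r = 0 := by
  apply E1chi.zero_of_le_dist
  rw [Real.dist_eq]
  change (2 / 5 : ℝ) ≤ _
  rw [abs_of_nonpos (by linarith only [h1])]
  linarith only [h1]

theorem E1chi_right {r : ℝ} (h1 : 9 / 10 ≤ r) : E1chi r = 0 := by
  apply E1chi.zero_of_le_dist
  rw [Real.dist_eq]
  change (2 / 5 : ℝ) ≤ _
  rw [abs_of_nonneg (by linarith only [h1])]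
  linarith only [h1]

theorem E1_combo {x y c : ℝ} (hx0 : 0 ≤ x) (hx1 : x ≤ 1) (hc : c ≤ 1) (hy : 1 / 10 ≤ y → c ≤ y)
    (hz : y < 1 / 10 → x = 0) : c ≤ 1 + x * (y - 1) := by
  rcases lt_or_ge y (1 / 10) with h | h
  · rw [hz h]; linarith only [hc]
  · have := hy h
    nlinarith only [hx0, hx1, hc, this]

theorem exists_profiles : ∃ (a : ℝ) (d : Fin 3 → ℝ → ℝ), SmoothProfiles a d := by
  choose L hL0 hL using E1g_lip
  set S : ℝ := L 0 + L 1 + L 2 + 1 with hS
  have hS1 : 1 ≤ S := by have := hL0 0; have := hL0 1; have := hL0 2; linarith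
  have hLS : ∀ i, L i ≤ S := by
    intro i
    have h0 := hL0 0; have h1 := hL0 1; have h2 := hL0 2
    fin_cases i
    · change L 0 ≤ S; linarith only [h1, h2]
    · change L 1 ≤ S; linarith only [h0, h2]
    · change L 2 ≤ S; linarith only [h0, h1]
  set a : ℝ := min (1 / 200) (1 / (2 * S)) with ha
  have ha0 : 0 < a := by
    rw [ha, lt_min_iff]
    constructor
    · norm_num
    · positivity
  have ha1 : a ≤ 1 / 200 := min_le_left _ _
  have ha2 : a * S ≤ 1 / 2 := by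
    have h : a ≤ 1 / (2 * S) := min_le_right _ _
    calc a * S ≤ 1 / (2 * S) * S := by gcongr
      _ = 1 / 2 := by field_simp
  have lip : ∀ (i : Fin 3) (r r' : ℝ),
      |a * (1 + E1g i r) - a * (1 + E1g i r')| ≤ (1 / 2) * |r - r'| := by
    intro i r r'
    have e : a * (1 + E1g i r) - a * (1 + E1g i r') = a * (E1g i r - E1g i r') := by ring
    rw [e, abs_mul, abs_of_pos ha0]
    calc a * |E1g i r - E1g i r'| ≤ a * (L i * |r - r'|) := by gcongr; exact hL i r r'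
      _ ≤ a * (S * |r - r'|) := by gcongr; exact hLS i
      _ = (a * S) * |r - r'| := by ring
      _ ≤ (1 / 2) * |r - r'| := by gcongr
  have low : ∀ (i : Fin 3) (r : ℝ), 1 / 4 ≤ E1ell i r → a / 4 ≤ a * (1 + E1g i r) := by
    intro i r h
    have h1 : 1 / 4 ≤ 1 + E1g i r := by
      unfold E1g
      have hx0 : 0 ≤ E1chi r := E1chi.nonneg
      have hx1 : E1chi r ≤ 1 := E1chi.le_one
      nlinarith only [h, hx0, hx1]
    calc a / 4 = a * (1 / 4) := by ring
      _ ≤ _ := by gcongr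
  refine ⟨a, fun i r => a * (1 + E1g i r), ?_, ?_, ?_, ?_, ?_, ?_⟩
  · refine ⟨ha0, ha1, ?_, ?_, ?_, ?_, ?_, ?_, ?_, ?_⟩
    · intro r h1 h2
      change a * (1 + E1chi r * ((-(1 / 2) - 5 * (r - 1 / 2)) - 1)) = _
      rw [E1chi_one h1 h2]; ring
    · intro r h1 h2
      change a * (1 + E1chi r * ((1 / 2 - 5 * (r - 1 / 2)) - 1)) = _
      rw [E1chi_one h1 h2]; ring
    · intro r h1 h2
      change a * (1 + E1chi r * ((5 * (r - 1 / 2)) - 1)) = _
      rw [E1chi_one h1 h2]; ring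
    · intro r h1 h2
      apply low
      change 1 / 4 ≤ -(1 / 2) - 5 * (r - 1 / 2)
      linarith only [h2]
    · intro r h1 h2
      apply low
      change 1 / 4 ≤ 1 / 2 - 5 * (r - 1 / 2)
      linarith only [h2]
    · intro i
      change a * (1 + E1chi 0 * (E1ell i 0 - 1)) = a
      rw [E1chi_left (by norm_num)]; ring
    · intro r h1 h2
      apply low
      change 1 / 4 ≤ 5 * (r - 1 / 2)
      linarith only [h1]
    · intro i r r' _ _ _ _
      exact lip i r r'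
  · intro i
    exact contDiff_const.mul (contDiff_const.add (E1g_smooth i))
  · intro i r h
    change a * (1 + E1chi r * (E1ell i r - 1)) = a
    rw [E1chi_left h]; ring
  · intro i r h
    change a * (1 + E1chi r * (E1ell i r - 1)) = a
    rw [E1chi_right h]; ring
  · intro i r
    change |a * (1 + E1chi r * (E1ell i r - 1))| ≤ 1 / 50
    rcases le_or_gt r (1 / 10) with h1 | h1
    · rw [E1chi_left h1, abs_le]; constructor <;> linarith only [ha0, ha1]
    rcases le_or_gt (9 / 10) r with h2 | h2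
    · rw [E1chi_right h2, abs_le]; constructor <;> linarith only [ha0, ha1]
    have hx0 : 0 ≤ E1chi r := E1chi.nonneg
    have hx1 : E1chi r ≤ 1 := E1chi.le_one
    have hl : |E1ell i r| ≤ 5 / 2 := by
      fin_cases i
      · change |-(1 / 2) - 5 * (r - 1 / 2)| ≤ 5 / 2
        rw [abs_le]; constructor <;> linarith only [h2, h1]
      · change |1 / 2 - 5 * (r - 1 / 2)| ≤ 5 / 2
        rw [abs_le]; constructor <;> linarith only [h2, h1]
      · change |5 * (r - 1 / 2)| ≤ 5 / 2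
        rw [abs_le]; constructor <;> linarith only [h1, h2]
    rw [abs_le] at hl
    have h3 : |1 + E1chi r * (E1ell i r - 1)| ≤ 5 / 2 := by
      rw [abs_le]
      constructor <;> nlinarith only [hx0, hx1, hl]
    rw [abs_mul, abs_of_pos ha0]
    calc a * |1 + E1chi r * (E1ell i r - 1)| ≤ (1 / 200) * (5 / 2) := by gcongr
      _ ≤ 1 / 50 := by norm_num
  · intro i r r'
    exact lip i r r'

end

end MPd1f192

end PartE1

section PartE2

/-! # E2. the speed function -/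

open MeasureTheory Set Filter Topology
open scoped ContDiff

namespace MPd1f192

noncomputable section

/-- The composition of two elements of `Γ` is an element of `Γ`. -/
theorem E2_act_act (k m n k' m' n' : ℤ) : ∃ k'' m'' n'' : ℤ, ∀ p : P,
    act k m n (act k' m' n' p) = act k'' m'' n'' p := by
  obtain ⟨m'', n'', h⟩ := act_comp k m n k' m' n'
  exact ⟨_, m'', n'', h⟩

/-- The inverse of an element of `Γ` is an element of `Γ`. -/
theorem E2_act_inv (k m n : ℤ) : ∃ k' m' n' : ℤ, ∀ p : P,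
    act k' m' n' (act k m n p) = p ∧ act k m n (act k' m' n' p) = p := by
  obtain ⟨m', n', h1, h2⟩ := act_inv k m n
  exact ⟨_, m', n', fun p => ⟨h1 p, h2 p⟩⟩

/-- The box containing the support of the perturbation. -/
def E2Box (p : P) : Prop :=
  3 / 4 ≤ p.1 ∧ p.1 ≤ 13 / 4 ∧ |p.2.1| ≤ 1 / 4 ∧ 0 < p.2.2 ∧ p.2.2 < 1

/-- two lattice translates of a cross section of the box which are close are equal -/
theorem E2_lattice {m n : ℤ} {x y : ℝ} (hx : |x| ≤ 5 / 2) (hy : |y| ≤ 1 / 2)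
    (h1 : (m : ℝ) + n * lam = x) (h2 : (m : ℝ) + n * lam⁻¹ = y) : m = 0 ∧ n = 0 := by
  have hinv : lam⁻¹ = 1000 - lam := lam_inv
  have hgt := lam_gt
  have hlt := lam_lt
  rw [abs_le] at hx hy
  have hD : (999 : ℝ) ≤ lam - lam⁻¹ := by
    rw [hinv]; linarith only [hgt]
  have e : (n : ℝ) * (lam - lam⁻¹) = x - y := by
    rw [← h1, ← h2]; ring
  have hn : n = 0 := by
    by_contra hne
    rcases lt_or_gt_of_ne hne with h | h
    · have h3 : (n : ℝ) ≤ -1 := by exact_mod_cast (by omega : n ≤ -1)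
      nlinarith only [hx, hy, hD, e, h3]
    · have h3 : (1 : ℝ) ≤ n := by exact_mod_cast (by omega : 1 ≤ n)
      nlinarith only [hx, hy, hD, e, h3]
  subst hn
  have hm : (m : ℝ) = y := by
    rw [← h2]; simp
  refine ⟨?_, rfl⟩
  by_contra hne
  rcases lt_or_gt_of_ne hne with h | h
  · have h3 : (m : ℝ) ≤ -1 := by exact_mod_cast (by omega : m ≤ -1)
    linarith only [hy.1, hm, h3]
  · have h3 : (1 : ℝ) ≤ m := by exact_mod_cast (by omega : 1 ≤ m)
    linarith only [hy.2, hm, h3]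

/-- The translates of the box are pairwise disjoint. -/
theorem E2_box_unique {k m n : ℤ} {p : P} (h : E2Box p) (h' : E2Box (act k m n p)) :
    k = 0 ∧ m = 0 ∧ n = 0 := by
  obtain ⟨a1, a2, a3, a4, a5⟩ := h
  obtain ⟨b1, b2, b3, b4, b5⟩ := h'
  simp only [act] at b1 b2 b3 b4 b5
  have hk : k = 0 := by
    by_contra hne
    rcases lt_or_gt_of_ne hne with h | h
    · have h3 : (k : ℝ) ≤ -1 := by exact_mod_cast (by omega : k ≤ -1)
      linarith only [a5, b4, h3]
    · have h3 : (1 : ℝ) ≤ k := by exact_mod_cast (by omega : 1 ≤ k)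
      linarith only [a4, b5, h3]
  subst hk
  simp only [neg_zero, zpow_zero, one_mul] at b1 b2 b3
  rw [abs_le] at a3 b3
  obtain ⟨h1, h2⟩ := E2_lattice (m := m) (n := n) (x := (m : ℝ) + n * lam) (y := (m : ℝ) + n * lam⁻¹)
    (by rw [abs_le]; constructor <;> linarith only [a2, b1, a1, b2]) (by rw [abs_le]; constructor <;> linarith only [a3.1, a3.2, b3.1, b3.2])
    rfl rfl
  exact ⟨rfl, h1, h2⟩

/-- the cut-off function -/
def E2chi : ContDiffBump (0 : ℝ) where
  rIn := 3 / 16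
  rOut := 1 / 4
  rIn_pos := by norm_num
  rIn_lt_rOut := by norm_num

theorem E2chi_ne {x : ℝ} (h : E2chi x ≠ 0) : |x| < 1 / 4 := by
  by_contra hx
  rw [not_lt] at hx
  apply h
  apply E2chi.zero_of_le_dist
  rw [Real.dist_eq, sub_zero]
  exact hx

theorem E2chi_one {x : ℝ} (h : |x| ≤ 3 / 16) : E2chi x = 1 := by
  apply E2chi.one_of_mem_closedBall
  rw [Metric.mem_closedBall, Real.dist_eq, sub_zero]
  exact h

/-- the perturbation in the box -/
def E2B (a : ℝ) (d : Fin 3 → ℝ → ℝ) (p : P) : ℝ :=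
  ∑ i : Fin 3, E2chi (p.1 - ((i : ℕ) + 1)) * E2chi p.2.1 * (d i p.2.2 - a)

theorem E2B_smooth {a : ℝ} {d : Fin 3 → ℝ → ℝ} (hd : ∀ i, ContDiff ℝ ∞ (d i)) :
    ContDiff ℝ ∞ (E2B a d) := by
  have hchi : ContDiff ℝ ∞ E2chi := E2chi.contDiff (n := ⊤)
  unfold E2B
  refine ContDiff.sum fun i _ => ?_
  refine ContDiff.mul (ContDiff.mul ?_ ?_) ?_
  · exact hchi.comp (contDiff_fst.sub contDiff_const)
  · exact hchi.comp (contDiff_fst.comp contDiff_snd)
  · exact ((hd i).comp (contDiff_snd.comp contDiff_snd)).sub contDiff_const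

/-- at most one of the three bumps is nonzero -/
theorem E2B_single (a : ℝ) (d : Fin 3 → ℝ → ℝ) (u s : ℝ) : ∃ (i : Fin 3) (w : ℝ), 0 ≤ w ∧ w ≤ 1 ∧
    (∀ r, E2B a d (u, s, r) = w * (d i r - a)) ∧ (w ≠ 0 → |u - ((i : ℕ) + 1)| < 1 / 4 ∧ |s| < 1 / 4) := by
  by_cases h : ∃ i : Fin 3, E2chi (u - ((i : ℕ) + 1)) ≠ 0
  · obtain ⟨i, hi⟩ := h
    refine ⟨i, E2chi (u - ((i : ℕ) + 1)) * E2chi s, mul_nonneg E2chi.nonneg E2chi.nonneg,
      mul_le_one₀ E2chi.le_one E2chi.nonneg E2chi.le_one, fun r => ?_, fun hw => ?_⟩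
    · unfold E2B
      rw [Finset.sum_eq_single_of_mem i (Finset.mem_univ i)]
      intro j _ hj
      have h1 : E2chi (u - ((j : ℕ) + 1)) = 0 := by
        by_contra hne
        have h2 := E2chi_ne hi
        have h3 := E2chi_ne hne
        rw [abs_lt] at h2 h3
        have h4 : ((i : ℕ) : ℝ) - ((j : ℕ) : ℝ) < 1 := by linarith only [h2.1, h3.2]
        have h5 : ((j : ℕ) : ℝ) - ((i : ℕ) : ℝ) < 1 := by linarith only [h2.2, h3.1]
        have h6 : ((i : ℕ) : ℝ) < ((j : ℕ) : ℝ) + 1 := by linarith only [h4]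
        have h7 : ((j : ℕ) : ℝ) < ((i : ℕ) : ℝ) + 1 := by linarith only [h5]
        have h8 : (i : ℕ) < (j : ℕ) + 1 := by exact_mod_cast h6
        have h9 : (j : ℕ) < (i : ℕ) + 1 := by exact_mod_cast h7
        exact hj (Fin.ext (by omega))
      simp only
      rw [h1]
      ring
    · exact ⟨E2chi_ne (left_ne_zero_of_mul hw), E2chi_ne (right_ne_zero_of_mul hw)⟩
  · push Not at h
    refine ⟨0, 0, le_rfl, zero_le_one, fun r => ?_, fun hw => absurd rfl hw⟩
    unfold E2B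
    rw [zero_mul]
    refine Finset.sum_eq_zero fun i _ => ?_
    simp only
    rw [h i]
    ring

theorem E2B_ne {a : ℝ} {d : Fin 3 → ℝ → ℝ} (h : SmoothProfiles a d) {p : P} (hp : E2B a d p ≠ 0) :
    E2Box p ∧ 1 / 10 < p.2.2 ∧ p.2.2 < 9 / 10 := by
  obtain ⟨u, s, r⟩ := p
  obtain ⟨i, w, hw0, hw1, hB, hw⟩ := E2B_single a d u s
  rw [hB] at hp
  have h1 := hw (left_ne_zero_of_mul hp)
  have h2 : d i r - a ≠ 0 := right_ne_zero_of_mul hp
  have h3 : 1 / 10 < r := by
    by_contra hlt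
    rw [not_lt] at hlt
    exact h2 (by rw [h.left i r hlt, sub_self])
  have h4 : r < 9 / 10 := by
    by_contra hlt
    rw [not_lt] at hlt
    exact h2 (by rw [h.right i r hlt, sub_self])
  obtain ⟨h5, h6⟩ := h1
  rw [abs_lt] at h5
  have hi0 : (0 : ℝ) ≤ ((i : ℕ) : ℝ) := Nat.cast_nonneg _
  have hi2 : ((i : ℕ) : ℝ) ≤ 2 := by exact_mod_cast (by omega : (i : ℕ) ≤ 2)
  refine ⟨⟨?_, ?_, h6.le, ?_, ?_⟩, h3, h4⟩ <;> simp only <;> linarith only [h5.1, h5.2, hi2, h3, h4]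

/-- injectivity of the action on triples -/
theorem E2_act_inj {k m n k' m' n' : ℤ} {p : P} (h : act k m n p = act k' m' n' p) :
    k = k' ∧ m = m' ∧ n = n' := by
  have h1 := congrArg (fun q : P => q.1) h
  have h2 := congrArg (fun q : P => q.2.1) h
  have h3 := congrArg (fun q : P => q.2.2) h
  simp only [act] at h1 h2 h3
  have hk : k = k' := by
    have : (k : ℝ) = k' := by linarith only [h3]
    exact_mod_cast this
  subst hk
  obtain ⟨h4, h5⟩ := E2_lattice (m := m - m') (n := n - n') (x := 0) (y := 0) (by norm_num) (by norm_num)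
    (by push_cast; linarith only [h1]) (by push_cast; linarith only [h2])
  exact ⟨rfl, by omega, by omega⟩

/-- two translates of a point in the support of the perturbation coincide -/
theorem E2B_unique {a : ℝ} {d : Fin 3 → ℝ → ℝ} (h : SmoothProfiles a d) {p : P} {t t' : ℤ × ℤ × ℤ}
    (ht : E2B a d (act t.1 t.2.1 t.2.2 p) ≠ 0) (ht' : E2B a d (act t'.1 t'.2.1 t'.2.2 p) ≠ 0) : t' = t := by
  obtain ⟨k, m, n⟩ := t
  obtain ⟨k', m', n'⟩ := t'
  simp only at ht ht'
  obtain ⟨k1, m1, n1, h1⟩ := E2_act_inv k m n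
  obtain ⟨k2, m2, n2, h2⟩ := E2_act_act k' m' n' k1 m1 n1
  have h3 : act k2 m2 n2 (act k m n p) = act k' m' n' p := by
    rw [← h2, (h1 p).1]
  have h4 := E2_box_unique (k := k2) (m := m2) (n := n2) (E2B_ne h ht).1 (by rw [h3]; exact (E2B_ne h ht').1)
  obtain ⟨rfl, rfl, rfl⟩ := h4
  rw [act_zero] at h3
  obtain ⟨rfl, rfl, rfl⟩ := E2_act_inj h3
  rfl

/-- the speed function -/
def E2delta (a : ℝ) (d : Fin 3 → ℝ → ℝ) (p : P) : ℝ :=
  a + ∑ᶠ t : ℤ × ℤ × ℤ, E2B a d (act t.1 t.2.1 t.2.2 p)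

theorem E2delta_eq {a : ℝ} {d : Fin 3 → ℝ → ℝ} {p : P} (t : ℤ × ℤ × ℤ)
    (ht : ∀ t' : ℤ × ℤ × ℤ, E2B a d (act t'.1 t'.2.1 t'.2.2 p) ≠ 0 → t' = t) :
    E2delta a d p = a + E2B a d (act t.1 t.2.1 t.2.2 p) := by
  unfold E2delta
  rw [finsum_eq_single _ t]
  intro t' hne
  by_contra hne'
  exact hne (ht t' hne')

theorem E2delta_val {a : ℝ} {d : Fin 3 → ℝ → ℝ} (h : SmoothProfiles a d) (p : P) :
    ((∀ t : ℤ × ℤ × ℤ, E2B a d (act t.1 t.2.1 t.2.2 p) = 0) ∧ E2delta a d p = a) ∨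
    ∃ t : ℤ × ℤ × ℤ, E2B a d (act t.1 t.2.1 t.2.2 p) ≠ 0 ∧
      E2delta a d p = a + E2B a d (act t.1 t.2.1 t.2.2 p) := by
  by_cases hex : ∃ t : ℤ × ℤ × ℤ, E2B a d (act t.1 t.2.1 t.2.2 p) ≠ 0
  · obtain ⟨t, ht⟩ := hex
    exact Or.inr ⟨t, ht, E2delta_eq t fun t' ht' => E2B_unique h ht ht'⟩
  · push Not at hex
    refine Or.inl ⟨hex, ?_⟩
    rw [E2delta_eq (0, 0, 0) fun t' ht' => absurd (hex t') ht', hex, add_zero]

theorem E2delta_smooth {a : ℝ} {d : Fin 3 → ℝ → ℝ} (h : SmoothProfiles a d) :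
    ContDiff ℝ ∞ (E2delta a d) := by
  rw [contDiff_iff_contDiffAt]
  intro p
  have hK : IsCompact (Metric.closedBall p 1) := isCompact_closedBall p 1
  have hL : IsCompact (Icc (3 / 4 : ℝ) (13 / 4) ×ˢ (Icc (-(1 / 4) : ℝ) (1 / 4) ×ˢ Icc (0 : ℝ) 1)) :=
    isCompact_Icc.prod (isCompact_Icc.prod isCompact_Icc)
  have hfin := act_finite hK hL
  have hev : E2delta a d =ᶠ[𝓝 p] fun q => a + ∑ t ∈ hfin.toFinset, E2B a d (act t.1 t.2.1 t.2.2 q) := by
    filter_upwards [Metric.closedBall_mem_nhds p one_pos] with q hq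
    unfold E2delta
    rw [finsum_eq_sum_of_support_subset]
    intro t ht
    rw [Finset.mem_coe, Set.Finite.mem_toFinset]
    obtain ⟨b1, b2, b3, b4, b5⟩ := (E2B_ne h ht).1
    rw [abs_le] at b3
    exact ⟨_, ⟨q, hq, rfl⟩, ⟨b1, b2⟩, ⟨b3.1, b3.2⟩, ⟨b4.le, b5.le⟩⟩
  refine ContDiffAt.congr_of_eventuallyEq ?_ hev
  refine ContDiff.contDiffAt ?_
  refine contDiff_const.add (ContDiff.sum fun t _ => ?_)
  exact (E2B_smooth h.smooth).comp (contDiff_act _ _ _)

theorem E2delta_inv {a : ℝ} {d : Fin 3 → ℝ → ℝ} (h : SmoothProfiles a d) (k m n : ℤ) (p : P) :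
    E2delta a d (act k m n p) = E2delta a d p := by
  rcases E2delta_val h (act k m n p) with ⟨h1, h2⟩ | ⟨t, h1, h2⟩
  · obtain ⟨k1, m1, n1, h3⟩ := E2_act_inv k m n
    have h4 : ∀ t : ℤ × ℤ × ℤ, E2B a d (act t.1 t.2.1 t.2.2 p) = 0 := by
      intro t
      obtain ⟨k2, m2, n2, h5⟩ := E2_act_act t.1 t.2.1 t.2.2 k1 m1 n1
      have h6 := h1 (k2, m2, n2)
      simp only at h6
      rw [← h5, (h3 p).1] at h6
      exact h6
    rw [h2, E2delta_eq (0, 0, 0) fun t' ht' => absurd (h4 t') ht', h4, add_zero]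
  · obtain ⟨k2, m2, n2, h3⟩ := E2_act_act t.1 t.2.1 t.2.2 k m n
    rw [h2, h3]
    rw [h3] at h1
    exact (E2delta_eq (k2, m2, n2) fun t' ht' => E2B_unique h (t := (k2, m2, n2)) h1 ht').symm

theorem E2delta_small {a : ℝ} {d : Fin 3 → ℝ → ℝ} (h : SmoothProfiles a d) (p : P) :
    |E2delta a d p| ≤ 1 / 50 := by
  have ha0 := h.prof.a_pos
  have ha1 := h.prof.a_le
  rcases E2delta_val h p with ⟨_, h2⟩ | ⟨t, _, h2⟩
  · rw [h2, abs_of_pos ha0]
    linarith only [ha1]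
  · rw [h2]
    obtain ⟨i, w, hw0, hw1, hB, -⟩ := E2B_single a d (act t.1 t.2.1 t.2.2 p).1 (act t.1 t.2.1 t.2.2 p).2.1
    have h3 := hB (act t.1 t.2.1 t.2.2 p).2.2
    simp only [Prod.mk.eta] at h3
    rw [h3]
    have h4 := h.small i (act t.1 t.2.1 t.2.2 p).2.2
    rw [abs_le] at h4 ⊢
    constructor <;> nlinarith only [h4.1, h4.2, ha0, hw0, hw1, ha1]

/-- on a block of heights the speed function is given by one profile with a constant weight -/
theorem E2delta_block {a : ℝ} {d : Fin 3 → ℝ → ℝ} (h : SmoothProfiles a d) (u s : ℝ) (j : ℤ) :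
    ∃ (i : Fin 3) (w : ℝ), 0 ≤ w ∧ w ≤ 1 ∧ ∀ r, (j : ℝ) ≤ r → r ≤ j + 1 →
      E2delta a d (u, s, r) = a + w * (d i (r - j) - a) := by
  -- only `k = -j` contributes
  have hk : ∀ (r : ℝ), (j : ℝ) ≤ r → r ≤ j + 1 → ∀ t : ℤ × ℤ × ℤ,
      E2B a d (act t.1 t.2.1 t.2.2 (u, s, r)) ≠ 0 → t.1 = -j := by
    intro r hr1 hr2 t ht
    obtain ⟨-, h1, h2⟩ := E2B_ne h ht
    simp only [act] at h1 h2
    have h3 : (-1 : ℝ) < ((t.1 + j : ℤ) : ℝ) := by push_cast; linarith only [hr2, h1]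
    have h4 : ((t.1 + j : ℤ) : ℝ) < 1 := by push_cast; linarith only [hr1, h2]
    have h5 : -1 < t.1 + j := by exact_mod_cast h3
    have h6 : t.1 + j < 1 := by exact_mod_cast h4
    omega
  by_cases hex : ∃ m n : ℤ, 3 / 4 ≤ lam ^ (- -j) * u + (m + n * lam) ∧
      lam ^ (- -j) * u + (m + n * lam) ≤ 13 / 4 ∧ |lam ^ (-j) * s + (m + n * lam⁻¹)| ≤ 1 / 4
  · obtain ⟨m, n, c1, c2, c3⟩ := hex
    obtain ⟨i, w, hw0, hw1, hB, -⟩ := E2B_single a d (lam ^ (- -j) * u + (m + n * lam))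
      (lam ^ (-j) * s + (m + n * lam⁻¹))
    refine ⟨i, w, hw0, hw1, fun r hr1 hr2 => ?_⟩
    rw [E2delta_eq (-j, m, n), ← hB (r - j)]
    · simp only [act]
      push_cast
      rw [← sub_eq_add_neg]
    · rintro ⟨k', m', n'⟩ ht'
      have hk' := hk r hr1 hr2 _ ht'
      simp only at hk'
      subst hk'
      obtain ⟨b1, b2, b3, -, -⟩ := (E2B_ne h ht').1
      simp only [act] at b1 b2 b3
      rw [abs_le] at b3 c3
      obtain ⟨e1, e2⟩ := E2_lattice (m := m' - m) (n := n' - n)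
        (x := ((m' - m : ℤ) : ℝ) + ((n' - n : ℤ) : ℝ) * lam)
        (y := ((m' - m : ℤ) : ℝ) + ((n' - n : ℤ) : ℝ) * lam⁻¹)
        (by push_cast; rw [abs_le]; constructor <;> linarith only [c2, b1, c1, b2])
        (by push_cast; rw [abs_le]; constructor <;> linarith only [b3.1, b3.2, c3.1, c3.2])
        rfl rfl
      have e3 : m' = m := by omega
      have e4 : n' = n := by omega
      rw [e3, e4]
  · refine ⟨0, 0, le_rfl, zero_le_one, fun r hr1 hr2 => ?_⟩
    have h0 : ∀ t : ℤ × ℤ × ℤ, E2B a d (act t.1 t.2.1 t.2.2 (u, s, r)) = 0 := by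
      rintro ⟨k', m', n'⟩
      by_contra hne
      have hk' := hk r hr1 hr2 _ hne
      simp only at hk'
      subst hk'
      obtain ⟨b1, b2, b3, -, -⟩ := (E2B_ne h hne).1
      simp only [act] at b1 b2 b3
      exact hex ⟨m', n', b1, b2, b3⟩
    rw [E2delta_eq (0, 0, 0) fun t' ht' => absurd (h0 t') ht', h0]
    ring

theorem E2delta_int {a : ℝ} {d : Fin 3 → ℝ → ℝ} (h : SmoothProfiles a d) (u s : ℝ) (j : ℤ) :
    E2delta a d (u, s, (j : ℝ)) = a := by
  obtain ⟨i, w, -, -, hb⟩ := E2delta_block h u s j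
  rw [hb j le_rfl (by linarith only), sub_self, h.left i 0 (by norm_num)]
  ring

theorem E2delta_lip_block {a : ℝ} {d : Fin 3 → ℝ → ℝ} (h : SmoothProfiles a d) (u s : ℝ) (j : ℤ)
    {r r' : ℝ} (h1 : (j : ℝ) ≤ r) (h2 : r ≤ j + 1) (h1' : (j : ℝ) ≤ r') (h2' : r' ≤ j + 1) :
    |E2delta a d (u, s, r) - E2delta a d (u, s, r')| ≤ (1 / 2) * |r - r'| := by
  obtain ⟨i, w, hw0, hw1, hb⟩ := E2delta_block h u s j
  rw [hb r h1 h2, hb r' h1' h2']
  have e : a + w * (d i (r - j) - a) - (a + w * (d i (r' - j) - a)) = w * (d i (r - j) - d i (r' - j)) := by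
    ring
  rw [e, abs_mul, abs_of_nonneg hw0]
  have h3 := h.lip' i (r - j) (r' - j)
  have e2 : r - (j : ℝ) - (r' - j) = r - r' := by ring
  rw [e2] at h3
  calc w * |d i (r - j) - d i (r' - j)| ≤ 1 * |d i (r - j) - d i (r' - j)| :=
        mul_le_mul_of_nonneg_right hw1 (abs_nonneg _)
    _ ≤ _ := by rw [one_mul]; exact h3

theorem E2delta_lip_aux {a : ℝ} {d : Fin 3 → ℝ → ℝ} (h : SmoothProfiles a d) (u s : ℝ)
    {r r' : ℝ} (hrr : r ≤ r') :
    |E2delta a d (u, s, r) - E2delta a d (u, s, r')| ≤ (1 / 2) * |r - r'| := by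
  have h1 := Int.floor_le r
  have h2 := (Int.lt_floor_add_one r).le
  have h1' := Int.floor_le r'
  have h2' := (Int.lt_floor_add_one r').le
  have hff : ⌊r⌋ ≤ ⌊r'⌋ := Int.floor_le_floor hrr
  rcases eq_or_lt_of_le hff with hf | hf
  · rw [← hf] at h1' h2'
    exact E2delta_lip_block h u s ⌊r⌋ h1 h2 h1' h2'
  · have hj : ((⌊r⌋ + 1 : ℤ) : ℝ) ≤ ((⌊r'⌋ : ℤ) : ℝ) := by exact_mod_cast hf
    push_cast at hj
    have e1 := E2delta_lip_block h u s ⌊r⌋ h1 h2 (r' := ⌊r⌋ + 1) (by linarith only) le_rfl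
    have e2 := E2delta_lip_block h u s ⌊r'⌋ (r := ⌊r'⌋) le_rfl (by linarith only) h1' h2'
    have v1 : E2delta a d (u, s, (⌊r⌋ : ℝ) + 1) = a := by
      have := E2delta_int h u s (⌊r⌋ + 1)
      push_cast at this
      exact this
    have v2 := E2delta_int h u s ⌊r'⌋
    rw [v1] at e1
    rw [v2] at e2
    rw [abs_of_nonpos (show r - ((⌊r⌋ : ℝ) + 1) ≤ 0 by linarith only [h2])] at e1
    rw [abs_of_nonpos (show (⌊r'⌋ : ℝ) - r' ≤ 0 by linarith only [h1'])] at e2
    rw [abs_of_nonpos (show r - r' ≤ 0 by linarith only [hrr])]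
    rw [abs_le] at e1 e2 ⊢
    constructor <;> linarith only [e1.1, e1.2, e2.1, e2.2, hj]

/-- The speed function: `a` outside the translates of the box, and the profiles `d i` (cut off)
in the box. -/
theorem exists_speed_of_profiles {a : ℝ} {d : Fin 3 → ℝ → ℝ} (h : SmoothProfiles a d) :
    ∃ δ : P → ℝ, Speed δ ∧ Blender δ a d := by
  refine ⟨E2delta a d, ⟨E2delta_smooth h, E2delta_inv h, E2delta_small h, ?_⟩, ⟨h.prof, ?_⟩⟩
  · intro u s r r'
    rcases le_total r r' with hrr | hrr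
    · exact E2delta_lip_aux h u s hrr
    · rw [abs_sub_comm, abs_sub_comm r r']
      exact E2delta_lip_aux h u s hrr
  · intro i u s r hu hs hr0 hr1
    rw [E2delta_eq (0, 0, 0)]
    · simp only [act_zero]
      unfold E2B
      rw [Finset.sum_eq_single_of_mem i (Finset.mem_univ i)]
      · simp only
        rw [E2chi_one hu, E2chi_one hs]
        ring
      · intro j _ hj
        have h1 : E2chi (u - ((j : ℕ) + 1)) = 0 := by
          by_contra hne
          have h3 := E2chi_ne hne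
          rw [abs_le] at hu
          rw [abs_lt] at h3
          have h6 : ((i : ℕ) : ℝ) < ((j : ℕ) : ℝ) + 1 := by linarith only [hu.1, h3.2]
          have h7 : ((j : ℕ) : ℝ) < ((i : ℕ) : ℝ) + 1 := by linarith only [hu.2, h3.1]
          have h8 : (i : ℕ) < (j : ℕ) + 1 := by exact_mod_cast h6
          have h9 : (j : ℕ) < (i : ℕ) + 1 := by exact_mod_cast h7
          exact hj (Fin.ext (by omega))
        simp only
        rw [h1]
        ring
    · rintro ⟨k, m, n⟩ ht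
      simp only at ht
      obtain ⟨hbox, b1, b2⟩ := E2B_ne h ht
      have hh : (act k m n (u, s, r)).2.2 = r + k := rfl
      rw [hh] at b1 b2
      have hin : 0 < r ∧ r < 1 := by
        by_contra hcon
        rw [not_and_or, not_lt, not_lt] at hcon
        rcases hcon with h0 | h0
        · have : r = 0 := le_antisymm h0 hr0
          subst this
          rw [zero_add] at b1 b2
          have c1 : (0 : ℝ) < k := by linarith only [b1]
          have c2 : (k : ℝ) < 1 := by linarith only [b2]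
          have c3 : 0 < k := by exact_mod_cast c1
          have c4 : k < 1 := by exact_mod_cast c2
          omega
        · have : r = 1 := le_antisymm hr1 h0
          subst this
          have c1 : (-1 : ℝ) < k := by linarith only [b1]
          have c2 : (k : ℝ) < 0 := by linarith only [b2]
          have c3 : -1 < k := by exact_mod_cast c1
          have c4 : k < 0 := by exact_mod_cast c2
          omega
      rw [abs_le] at hu
      have hi0 : (0 : ℝ) ≤ ((i : ℕ) : ℝ) := Nat.cast_nonneg _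
      have hi2 : ((i : ℕ) : ℝ) ≤ 2 := by exact_mod_cast (by omega : (i : ℕ) ≤ 2)
      have hbox0 : E2Box (u, s, r) :=
        ⟨by simp only; linarith only [hu.1], by simp only; linarith only [hu.2, hi2], hs.trans (by norm_num), hin.1, hin.2⟩
      obtain ⟨rfl, rfl, rfl⟩ := E2_box_unique hbox0 hbox
      rfl

theorem exists_speed_blender : ∃ (δ : P → ℝ) (a : ℝ) (d : Fin 3 → ℝ → ℝ),
    Speed δ ∧ Blender δ a d := by
  obtain ⟨a, d, h⟩ := exists_profiles
  obtain ⟨δ, h1, h2⟩ := exists_speed_of_profiles h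
  exact ⟨δ, a, d, h1, h2⟩

end

end MPd1f192

end PartE2
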