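import Pool.Agent.W_MP_d1f192_an.A6
import Pool.Agent.W_MP_d1f192_an.C1
import Pool.Agent.W_MP_d1f192_an.C8
import Pool.Agent.W_MP_d1f192_an.C11
import Pool.Agent.W_MP_d1f192_an.E2

/-! # F1. Final assembly -/

open MeasureTheory Set Filter Topology
open scoped Manifold ContDiff

set_option linter.style.haveILetI false

namespace MPd1f192

noncomputable section

/-- The negation of Q2, in a strong form. -/
def NotGeneric : Prop :=
  ∃ (M : Type) (_ : TopologicalSpace M) (_ : ChartedSpace (EuclideanSpace ℝ (Fin 3)) M)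
    (_ : IsManifold (𝓡 3) ∞ M) (_ : CompactSpace M) (_ : T2Space M) (_ : ConnectedSpace M)
    (_ : MeasurableSpace M) (_ : BorelSpace M),
    (∃ U : Set (Diff1 3 M), IsOpen U ∧ U.Nonempty ∧
      (∀ f ∈ U, 0 < htop (f : M → M) ∧ ¬ EntropicallyStable f ∧
        ∀ V ∈ 𝓝 f, ∃ g ∈ V, htop (f : M → M) < htop (g : M → M))) ∧
    ¬ ∃ R ∈ residual (Diff1 3 M), ∀ f ∈ R, EntropicallyStable f

theorem F1_dN_nonneg (p p' : P) : 0 ≤ dN p p' :=
  le_trans (abs_nonneg _) (le_max_right _ _)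

theorem F1_near_mono {δ : P → ℝ} {η η' : ℝ} {F : P → P} (h : Near δ η F) (hη : η ≤ η') :
    Near δ η' F where
  comm := h.comm
  sup_u p := (h.sup_u p).trans hη
  sup_s p := (h.sup_s p).trans hη
  sup_r p := (h.sup_r p).trans hη
  lip_u p p' hr := (h.lip_u p p' hr).trans
    (mul_le_mul_of_nonneg_right hη (F1_dN_nonneg p p'))
  lip_s p p' hr := (h.lip_s p p' hr).trans
    (mul_le_mul_of_nonneg_right hη (F1_dN_nonneg p p'))
  lip_r p p' hr := (h.lip_r p p' hr).trans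
    (mul_le_mul_of_nonneg_right hη (F1_dN_nonneg p p'))

/-- The vertical shift as a homeomorphism. -/
def shiftHomeo (ε : ℝ) : P ≃ₜ P where
  toFun := shiftUp ε
  invFun := shiftUp (-ε)
  left_inv p := by simp [shiftUp]
  right_inv p := by simp [shiftUp]
  continuous_toFun := by unfold shiftUp; fun_prop
  continuous_invFun := by unfold shiftUp; fun_prop

theorem leaf_htop (hB3 : GrowthIsEntropy) (S : Setup) {h : ℝ} (hh : S.leaf.IsGrowth h)
    {M : Type} [TopologicalSpace M] [CompactSpace M] [T2Space M] {q : P → M} (hq : Continuous q)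
    (hqs : Function.Surjective q) (hqr : ∀ p p', q p = q p' ↔ ∃ k m n : ℤ, p' = act k m n p)
    {f : M → M} (hf : Continuous f) (hF : ∀ p, q (S.F p) = f (q p)) : htop f = (h : EReal) := by
  refine hB3 S.leaf h hh M (fun p => q (S.H.symm p)) f
    (hq.comp S.H.symm.continuous) (hqs.comp S.H.symm.surjective) hf ?_ ?_
  · intro p p'
    rw [hqr]
    constructor
    · rintro ⟨k, m, n, e⟩
      refine ⟨k, m, n, ?_⟩
      rw [← H_symm_comm] at e
      exact S.H.symm.injective e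
    · rintro ⟨k, m, n, e⟩
      refine ⟨k, m, n, ?_⟩
      rw [e, H_symm_comm]
  · intro p
    have h1 := H_F S (S.H.symm p)
    rw [S.H.apply_symm_apply] at h1
    rw [← h1, S.H.symm_apply_apply, hF]

theorem htop_pos (hB1 : GrowthExists) (hB3 : GrowthIsEntropy) (S : Setup)
    {M : Type} [TopologicalSpace M] [CompactSpace M] [T2Space M] {q : P → M} (hq : Continuous q)
    (hqs : Function.Surjective q) (hqr : ∀ p p', q p = q p' ↔ ∃ k m n : ℤ, p' = act k m n p)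
    {f : M → M} (hf : Continuous f) (hF : ∀ p, q (S.F p) = f (q p)) : 0 < htop f := by
  obtain ⟨h, h0, hh⟩ := hB1 S.leaf
  rw [leaf_htop hB3 S hh hq hqs hqr hf hF]
  exact_mod_cast h0

theorem htop_lt (hB1 : GrowthExists) (hB2 : GrowthStrict) (hB3 : GrowthIsEntropy)
    (S S' : Setup) (hδ : S'.δ = S.δ) (hC : S'.C = S.C) (hη : S'.η = S.η)
    {ε : ℝ} (hε : 0 < ε) (hε' : ε ≤ 1 / 100) (hFF : ∀ p, S'.F p = shiftUp ε (S.F p))
    {a : ℝ} {d : Fin 3 → ℝ → ℝ} (hB : Blender S.δ a d) (hηa : 100 * lam ^ 4 * S.η ≤ a)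
    {M : Type} [TopologicalSpace M] [CompactSpace M] [T2Space M] {q : P → M} (hq : Continuous q)
    (hqs : Function.Surjective q) (hqr : ∀ p p', q p = q p' ↔ ∃ k m n : ℤ, p' = act k m n p)
    {f g : M → M} (hf : Continuous f) (hg : Continuous g) (hF : ∀ p, q (S.F p) = f (q p))
    (hG : ∀ p, g (q p) = q (shiftUp ε (S.F p))) : htop f < htop g := by
  obtain ⟨h, -, hh⟩ := hB1 S.leaf
  obtain ⟨h', -, hh'⟩ := hB1 S'.leaf
  have hcmp : ∀ u s r, S.g u s r + ε / 2 ≤ S'.g u s r :=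
    leaf_compare S S' hδ hC hη hε.le hε' hFF
  have hlt : h < h' := by
    refine hB2 S.leaf S'.leaf ?_ ?_ h h' hh hh'
    · intro u s r
      rw [leaf_g, leaf_g]
      linarith only [hcmp u s r, hε]
    · intro K
      exact leaf_gain S S' hδ hC hη hε hε' hFF hcmp hB hηa K
  rw [leaf_htop hB3 S hh hq hqs hqr hf hF,
    leaf_htop hB3 S' hh' hq hqs hqr hg (fun p => by rw [hFF, hG])]
  exact_mod_cast hlt

theorem notGeneric_of (hM : ManifoldPart) (hB1 : GrowthExists) (hB2 : GrowthStrict)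
    (hB3 : GrowthIsEntropy) : NotGeneric := by
  obtain ⟨M, t1, t2, t3, t4, t5, t6, q, hq, hqs, hqr, hD⟩ := hM
  obtain ⟨δ, a, d, hδ, hBl⟩ := exists_speed_blender
  obtain ⟨C, hC1, hSB⟩ := exists_speedBd hδ
  have ha := hBl.prof.a_pos
  have hl := lam_pos
  have hC0 : 0 < C := by linarith only [hC1]
  set η : ℝ := min (1 / (10 ^ 5 * C * lam ^ 6)) (a / (100 * lam ^ 4)) with hηdef
  have hη0 : 0 < η := by
    rw [hηdef]
    exact lt_min (by positivity) (by positivity)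
  have hη1 : 10 ^ 5 * C * lam ^ 6 * η ≤ 1 := by
    have h1 : η ≤ 1 / (10 ^ 5 * C * lam ^ 6) := min_le_left _ _
    calc 10 ^ 5 * C * lam ^ 6 * η ≤ 10 ^ 5 * C * lam ^ 6 * (1 / (10 ^ 5 * C * lam ^ 6)) :=
          mul_le_mul_of_nonneg_left h1 (by positivity)
      _ = 1 := by field_simp
  have hη2 : 100 * lam ^ 4 * η ≤ a := by
    have h1 : η ≤ a / (100 * lam ^ 4) := min_le_right _ _
    calc 100 * lam ^ 4 * η ≤ 100 * lam ^ 4 * (a / (100 * lam ^ 4)) :=
          mul_le_mul_of_nonneg_left h1 (by positivity)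
      _ = a := by field_simp
  obtain ⟨U, hUo, hUn, hU, hR⟩ := hD δ hδ (η / (2 * lam ^ 2)) (by positivity)
  letI : MeasurableSpace M := borel M
  haveI : BorelSpace M := ⟨rfl⟩
  haveI : SecondCountableTopology M :=
    ChartedSpace.secondCountable_of_sigmaCompact (EuclideanSpace ℝ (Fin 3)) M
  haveI : TopologicalSpace.MetrizableSpace M :=
    TopologicalSpace.metrizableSpace_of_t3_secondCountable M
  haveI : Nonempty M := ⟨q (0, 0, 0)⟩
  -- the main inequality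
  have hpos : ∀ f ∈ U, 0 < htop (f : M → M) := by
    intro f hf
    obtain ⟨F, hF, hnear, -⟩ := hU f hf
    have hn1 : Near δ (η / 2) F := by
      have := near_of_C1Near hδ (η := η / (2 * lam ^ 2)) (by positivity) hnear
      have h2 : lam ^ 2 * (η / (2 * lam ^ 2)) = η / 2 := by
        field_simp
      rwa [h2] at this
    have hn2 : Near δ η F := F1_near_mono hn1 (by linarith only [hη0])
    exact htop_pos hB1 hB3 ⟨δ, C, η, F, hC1, hη0, hη1, hSB, hn2⟩ hq hqs hqr f.continuous hF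
  have key : ∀ f ∈ U, ∃ fe : ℝ → Diff1 3 M, Tendsto fe (𝓝 0) (𝓝 f) ∧
      ∃ ε₀ : ℝ, 0 < ε₀ ∧ ∀ ε, 0 < ε → ε ≤ ε₀ → htop (f : M → M) < htop (fe ε : M → M) := by
    intro f hf
    obtain ⟨F, hF, hnear, fe, hfe, hfeq⟩ := hU f hf
    refine ⟨fe, hfe, min (η / 2) (1 / 100), lt_min (by positivity) (by norm_num), ?_⟩
    intro ε hε hε1
    have hε2 : ε ≤ η / 2 := hε1.trans (min_le_left _ _)
    have hε3 : ε ≤ 1 / 100 := hε1.trans (min_le_right _ _)
    have hn1 : Near δ (η / 2) F := by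
      have := near_of_C1Near hδ (η := η / (2 * lam ^ 2)) (by positivity) hnear
      have h2 : lam ^ 2 * (η / (2 * lam ^ 2)) = η / 2 := by
        field_simp
      rwa [h2] at this
    have hn2 : Near δ η F := F1_near_mono hn1 (by linarith only [hε, hε2])
    have hn3 : Near δ η (fun p => shiftUp ε (F p)) :=
      F1_near_mono (near_shiftUp hn1 hε.le) (by linarith only [hε2])
    let S : Setup := ⟨δ, C, η, F, hC1, hη0, hη1, hSB, hn2⟩
    let S' : Setup := ⟨δ, C, η, F.trans (shiftHomeo ε), hC1, hη0, hη1, hSB, hn3⟩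
    exact htop_lt hB1 hB2 hB3 S S' rfl rfl rfl hε hε3 (fun p => rfl) (a := a) (d := d) hBl hη2
      hq hqs hqr f.continuous (fe ε).continuous hF (fun p => hfeq ε p)
  have hunst : ∀ f ∈ U, ¬ EntropicallyStable f := by
    intro f hf hst
    obtain ⟨fe, hfe, ε₀, hε₀, hlt⟩ := key f hf
    have h1 : ∀ᶠ ε in 𝓝[>] (0 : ℝ), EntropyConjugate (fe ε : M → M) (f : M → M) :=
      (hfe.mono_left nhdsWithin_le_nhds).eventually hst
    have h2 : ∀ᶠ ε in 𝓝[>] (0 : ℝ), ε ∈ Ioc 0 ε₀ := Ioc_mem_nhdsGT hε₀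
    obtain ⟨ε, h3, h4⟩ := (h1.and h2).exists
    have h5 := hlt ε h4.1 h4.2
    rw [htop_eq_of_entropyConjugate f.continuous (fe ε).continuous h3] at h5
    exact lt_irrefl _ h5
  refine ⟨M, t1, t2, t3, t4, t5, t6, inferInstance, inferInstance,
    ⟨U, hUo, hUn, fun f hf => ⟨hpos f hf, hunst f hf, ?_⟩⟩, ?_⟩
  · intro V hV
    obtain ⟨fe, hfe, ε₀, hε₀, hlt⟩ := key f hf
    have h1 : ∀ᶠ ε in 𝓝[>] (0 : ℝ), fe ε ∈ V := (hfe.mono_left nhdsWithin_le_nhds) hV
    have h2 : ∀ᶠ ε in 𝓝[>] (0 : ℝ), ε ∈ Ioc 0 ε₀ := Ioc_mem_nhdsGT hε₀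
    obtain ⟨ε, h3, h4⟩ := (h1.and h2).exists
    exact ⟨fe ε, h3, hlt ε h4.1 h4.2⟩
  · rintro ⟨R, hRr, hRs⟩
    obtain ⟨f, hfR, hfU⟩ := hR R hRr
    exact hunst f hfU (hRs f hfR)

end

end MPd1f192
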